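import Pool.Agent.Lib.MP_181146_gt.HS.DefsB

/-!
# Project HS: the Betti numbers are determined by the complex
-/

set_option autoImplicit false

namespace HSp

theorem finite_coV (Γ : Type) [Group Γ] [Finite Γ] (q : ℕ) (hq : 0 < q) (M : Type)
    [AddCommGroup M] [Module (MonoidAlgebra ℤ Γ) M] [Module.Finite (MonoidAlgebra ℤ Γ) M] :
    Finite (CoV Γ q M) := by
  have h1 : Module.Finite ℤ (MonoidAlgebra ℤ Γ) := inferInstance
  have h2 : Module.Finite ℤ M := Module.Finite.trans (MonoidAlgebra ℤ Γ) M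
  have h3 : Module.Finite ℤ (CoV Γ q M) :=
    Module.Finite.of_surjective (QuotientAddGroup.mk' (CoS Γ q M)).toIntLinearMap
      (QuotientAddGroup.mk'_surjective _)
  refine Module.finite_of_fg_torsion (CoV Γ q M) ?_
  intro x
  obtain ⟨y, rfl⟩ := QuotientAddGroup.mk'_surjective (CoS Γ q M) x
  refine ⟨⟨(q : ℤ), mem_nonZeroDivisors_of_ne_zero (by exact_mod_cast hq.ne')⟩, ?_⟩
  change (q : ℤ) • (QuotientAddGroup.mk' (CoS Γ q M)) y = 0
  rw [← map_zsmul]
  exact (QuotientAddGroup.eq_zero_iff _).2 (AddSubgroup.subset_closure (Or.inr ⟨y, rfl⟩))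

/-- The numbers of `IsBettiP` are unique. -/
theorem bettiP_unique (Γ : Type) [Group Γ] [Finite Γ] (q : ℕ) (hq : q.Prime) (P : ℕ → Type)
    [∀ i, AddCommGroup (P i)] [∀ i, Module (MonoidAlgebra ℤ Γ) (P i)]
    [∀ i, Module.Finite (MonoidAlgebra ℤ Γ) (P i)]
    (d : ∀ i, P (i + 1) →ₗ[MonoidAlgebra ℤ Γ] P i) (b b' : ℕ → ℕ)
    (h : IsBettiP Γ q P d b) (h' : IsBettiP Γ q P d b') : b = b' := by
  have hf : ∀ i, Finite (CoV Γ q (P i)) := fun i => finite_coV Γ q hq.pos (P i)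
  have hc : ∀ i, 0 < Nat.card (coMap Γ q (d i)).range := fun i => by
    have : Finite (coMap Γ q (d i)).range := inferInstance
    exact Nat.card_pos
  have key : ∀ (u v c : ℕ), 0 < c → q ^ u * c = q ^ v * c → u = v := fun u v c h0 h1 =>
    Nat.pow_right_injective hq.two_le (Nat.eq_of_mul_eq_mul_right h0 h1)
  funext i
  cases i with
  | zero => exact key _ _ _ (hc 0) (h.1.symm.trans h'.1)
  | succ i => exact key _ _ _ (hc (i + 1)) ((h.2 i).symm.trans (h'.2 i))

end HSp
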