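import Mathlib

/-!
# Project HS: algebraic definitions
-/

namespace HSp

/-- Elementary properties of the group ring `Λ = ℤ[C_n]`: `t = g - 1`, `N = 1 + g + … + g^(n-1)`,
`eps` the augmentation. -/
structure CycData (Λ : Type) [CommRing Λ] (n : ℕ) where
  t : Λ
  N : Λ
  eps : Λ →+* ℤ
  eps_t : eps t = 0
  eps_N : eps N = n
  ker_eps : ∀ x, eps x = 0 → ∃ y, x = t * y
  tN : t * N = 0
  ker_t : ∀ x, t * x = 0 → ∃ y, x = N * y
  ker_N : ∀ x, N * x = 0 → ∃ y, x = t * y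
  c : Λ
  N_eq : N = (n : Λ) + (n.choose 2 : Λ) * t + t ^ 2 * c
  unit : ∀ r : ℕ, r.Coprime n → ∃ v w z : Λ, v * w = 1 + N * z ∧ eps v = r
  fin : Module.Finite ℤ Λ
  free : Module.Free ℤ Λ

/-- A bounded complex of finitely generated projective modules, zero in degree `0`, with a
contraction `h` of the multiplication by `t`. -/
structure Cx (Λ : Type) [CommRing Λ] (t : Λ) where
  P : ℕ → Type
  ac : ∀ i, AddCommGroup (P i)
  mo : ∀ i, Module Λ (P i)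
  fi : ∀ i, Module.Finite Λ (P i)
  pr : ∀ i, Module.Projective Λ (P i)
  d : ∀ i, P (i + 1) →ₗ[Λ] P i
  h : ∀ i, P i →ₗ[Λ] P (i + 1)
  dd : ∀ i x, d i (d (i + 1) x) = 0
  dh : ∀ i x, d (i + 1) (h (i + 1) x) + h i (d i x) = t • x
  zero : Subsingleton (P 0)
  D : ℕ
  bdd : ∀ i, D < i → Subsingleton (P i)

attribute [instance] Cx.ac Cx.mo Cx.fi Cx.pr

section

variable {Λ : Type} [CommRing Λ]

/-- A linear map maps `I M` to `I M'`. -/
lemma smulTop_le_comap (I : Ideal Λ) {M M' : Type} [AddCommGroup M] [Module Λ M]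
    [AddCommGroup M'] [Module Λ M'] (f : M →ₗ[Λ] M') :
    I • (⊤ : Submodule Λ M) ≤ (I • (⊤ : Submodule Λ M')).comap f := by
  rw [← Submodule.map_le_iff_le_comap, Submodule.map_smul'']
  exact Submodule.smul_mono le_rfl le_top

/-- The map `M / I M → M' / I M'` induced by a linear map. -/
def qmap (I : Ideal Λ) {M M' : Type} [AddCommGroup M] [Module Λ M]
    [AddCommGroup M'] [Module Λ M'] (f : M →ₗ[Λ] M') :
    (M ⧸ (I • (⊤ : Submodule Λ M))) →ₗ[Λ] (M' ⧸ (I • (⊤ : Submodule Λ M'))) :=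
  Submodule.mapQ _ _ f (smulTop_le_comap I f)

variable {n : ℕ} (C : CycData Λ n) (X : Cx Λ C.t)

/-- `F_i = P_i / (t, N) P_i`. -/
abbrev Cx.F {C : CycData Λ n} (X : Cx Λ C.t) (i : ℕ) : Type :=
  X.P i ⧸ (Ideal.span {C.t, C.N} • (⊤ : Submodule Λ (X.P i)))

/-- The projection `P_i → F_i`. -/
def Cx.q {C : CycData Λ n} (X : Cx Λ C.t) (i : ℕ) : X.P i →ₗ[Λ] X.F i := Submodule.mkQ _

/-- The differential of `F`. -/
def Cx.dF {C : CycData Λ n} (X : Cx Λ C.t) (i : ℕ) : X.F (i + 1) →ₗ[Λ] X.F i :=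
  qmap _ (X.d i)

/-- The operator `η` of degree one on `F`. -/
def Cx.eta {C : CycData Λ n} (X : Cx Λ C.t) (i : ℕ) : X.F i →ₗ[Λ] X.F (i + 1) :=
  qmap _ (X.h i)

lemma Cx.dF_q {C : CycData Λ n} (X : Cx Λ C.t) (i : ℕ) (x : X.P (i + 1)) :
    X.dF i (X.q (i + 1) x) = X.q i (X.d i x) := rfl

lemma Cx.eta_q {C : CycData Λ n} (X : Cx Λ C.t) (i : ℕ) (x : X.P i) :
    X.eta i (X.q i x) = X.q (i + 1) (X.h i x) := rfl

lemma Cx.q_surj {C : CycData Λ n} (X : Cx Λ C.t) (i : ℕ) : Function.Surjective (X.q i) :=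
  Submodule.mkQ_surjective _

/-- Cycles modulo `N`: `x ∈ P_i` with `d x ∈ N P_{i-1}` (no condition for `i = 0`). -/
def Cx.cyc {C : CycData Λ n} (X : Cx Λ C.t) : ∀ i, X.P i → Prop
  | 0, _ => True
  | i + 1, x => ∃ z, X.d i x = C.N • z

/-- Cycles of `F` (no condition in degree `0`). -/
def Cx.cyF {C : CycData Λ n} (X : Cx Λ C.t) : ∀ i, X.F i → Prop
  | 0, _ => True
  | i + 1, x => X.dF i x = 0

/-- Sections `s` of `P_i → P_i / t` and the resulting operator `ω` of degree `-1` on `F`. -/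
structure Om {C : CycData Λ n} (X : Cx Λ C.t) where
  s : ∀ i, X.P i →+ X.P i
  ω : ∀ i, X.F (i + 1) →ₗ[Λ] X.F i
  s_t : ∀ i x, s i (C.t • x) = 0
  s_sub : ∀ i x, ∃ y, x = s i x + C.t • y
  spec : ∀ i (x : X.P (i + 1)) (w : X.P i),
    X.d i (s (i + 1) x) = s i (X.d i x) + C.t • w → ω i (X.q (i + 1) x) = X.q i w

/-- The chain map `φ = 1 - η ω` of `F`. -/
def Om.phi {C : CycData Λ n} {X : Cx Λ C.t} (O : Om X) : ∀ i, X.F i →ₗ[Λ] X.F i
  | 0 => LinearMap.id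
  | i + 1 => LinearMap.id - X.eta i ∘ₗ O.ω i

/-- A chain idempotent `e` of `F` such that `P / N → e F` is a quasi-isomorphism. -/
structure SplitF {C : CycData Λ n} (X : Cx Λ C.t) where
  e : ∀ i, X.F i →ₗ[Λ] X.F i
  idem : ∀ i x, e i (e i x) = e i x
  chain : ∀ i x, X.dF i (e (i + 1) x) = e i (X.dF i x)
  onto : ∀ i (y : X.F (i + 1)), e (i + 1) y = y → X.dF i y = 0 →
    ∃ x : X.P (i + 1), (∃ z, X.d i x = C.N • z) ∧ e (i + 1) (X.q (i + 1) x) = y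
  inj : ∀ i (x : X.P (i + 1)) (z : X.P i) (w : X.F (i + 2)), X.d i x = C.N • z →
    e (i + 1) (X.q (i + 1) x) = X.dF (i + 1) w → ∃ u v, x = X.d (i + 1) u + C.N • v

/-- `ℤ/n` as a module over `Λ`: the quotient `Λ / (t, N)`. -/
abbrev QQ (C : CycData Λ n) : Type := Λ ⧸ Ideal.span {C.t, C.N}

/-- `Λ / N`. -/
abbrev LN (C : CycData Λ n) : Type := Λ ⧸ Ideal.span {C.N}

/-- A bounded complex `G` of finitely generated free modules over `ℤ/n = Λ/(t,N)` and a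
quasi-isomorphism `P / N → G`. -/
structure SplitG {C : CycData Λ n} (X : Cx Λ C.t) where
  r : ℕ → ℕ
  f : ∀ i, X.P i →ₗ[Λ] (Fin (r i) → QQ C)
  δ : ∀ i, (Fin (r (i + 1)) → QQ C) →ₗ[Λ] (Fin (r i) → QQ C)
  δδ : ∀ i x, δ i (δ (i + 1) x) = 0
  chain : ∀ i x, δ i (f (i + 1) x) = f i (X.d i x)
  onto : ∀ i (y : Fin (r (i + 1)) → QQ C), δ i y = 0 →
    ∃ (x : X.P (i + 1)) (z : X.P i) (w : Fin (r (i + 2)) → QQ C),
      X.d i x = C.N • z ∧ y = f (i + 1) x + δ (i + 1) w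
  inj : ∀ i (x : X.P (i + 1)) (z : X.P i) (w : Fin (r (i + 2)) → QQ C), X.d i x = C.N • z →
    f (i + 1) x = δ (i + 1) w → ∃ u v, x = X.d (i + 1) u + C.N • v
  r_zero : r 0 = 0
  B : ℕ
  bdd : ∀ i, B < i → r i = 0

end

section Kth

variable {Λ : Type} [CommRing Λ]

/-- `M / N M`. -/
abbrev QN (N : Λ) (M : Type) [AddCommGroup M] [Module Λ M] : Type :=
  M ⧸ (Ideal.span {N} • (⊤ : Submodule Λ M))

/-- Modules killed by `N` with the lifting property against surjections from modules killed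
by `N` (that is, projective modules over `Λ / N`). -/
def Lft (N : Λ) (A : Type) [AddCommGroup A] [Module Λ A] : Prop :=
  (∀ x : A, N • x = 0) ∧
    ∀ (M M' : Type) [AddCommGroup M] [Module Λ M] [AddCommGroup M'] [Module Λ M']
      (g : M →ₗ[Λ] M') (f : A →ₗ[Λ] M'), (∀ x : M, N • x = 0) → Function.Surjective g →
      ∃ l : A →ₗ[Λ] M, ∀ x, g (l x) = f x

variable (Λ) in
/-- There is an exact sequence `0 → B → A → M → 0`. -/
def Res (M A B : Type) [AddCommGroup M] [Module Λ M] [AddCommGroup A] [Module Λ A]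
    [AddCommGroup B] [Module Λ B] : Prop :=
  ∃ (i : B →ₗ[Λ] A) (p : A →ₗ[Λ] M), Function.Injective i ∧ Function.Surjective p ∧
    ∀ x, p x = 0 ↔ ∃ y, i y = x

/-- The alternating sums attached to a sequence of resolutions:
`Z 0 = (A 0, B 0)`, `Z (i + 1) = (A (i + 1) × (Z i).2, B (i + 1) × (Z i).1)`. -/
def ZZ (A B : ℕ → ModuleCat.{0} Λ) : ℕ → ModuleCat.{0} Λ × ModuleCat.{0} Λ
  | 0 => (A 0, B 0)
  | i + 1 => (ModuleCat.of Λ (A (i + 1) × (ZZ A B i).2), ModuleCat.of Λ (B (i + 1) × (ZZ A B i).1))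

end Kth

end HSp
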