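import Pool.Agent.Lib.MP_181146_gt.HS.Defs
import Pool.Agent.Lib.MP_181146_gt.HS.DefsA

/-!
# Project HS, part A (group ring and projective modules), part C (steps 3 - 5), part D (K-theory
by hand), part E (Milnor square).  Every statement is a separate task; the proof of each is in the
docstring.
-/

set_option linter.unusedVariables false
set_option autoImplicit false

namespace HSp

/-! ## Part A: the group ring of a finite cyclic group -/

/-- **ArKT.** `t x = 0` iff `x` is a multiple of the norm element.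
Proof: `t x = 0` says `g x = x`, so the coefficients of `x` (a finitely supported function on
`Γ`) are invariant under multiplication by `g`, hence constant (g generates), `x = c • N`. -/
def S_ArKT : Prop :=
  ∀ (Γ : Type) [CommGroup Γ] [Finite Γ]
    (g : Γ) (hg : ∀ x : Γ, x ∈ Subgroup.zpowers g) (x : MonoidAlgebra ℤ Γ)
    (hx : (MonoidAlgebra.of ℤ Γ g - 1) * x = 0),
    ∃ c : ℤ, x = c • ∑ i ∈ Finset.range (Nat.card Γ), MonoidAlgebra.of ℤ Γ g ^ i

/-- **ArKN.** Kernel of the augmentation `eps = MonoidAlgebra.lift ... 1` (all group elements to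
`1`): it is `t Λ`, as `h - 1` is a multiple of `g - 1` for `h = g^m` (`m : ℕ`, Γ finite);
and `N x = eps(x) N`, so `N x = 0` iff `eps x = 0`.
Existence of the ring homomorphism `eps` with the listed properties. -/
def S_ArKN : Prop :=
  ∀ (Γ : Type) [CommGroup Γ] [Finite Γ]
    (g : Γ) (hg : ∀ x : Γ, x ∈ Subgroup.zpowers g),
    ∃ eps : MonoidAlgebra ℤ Γ →+* ℤ, (∀ h : Γ, eps (MonoidAlgebra.of ℤ Γ h) = 1) ∧
      (∀ x, eps x = 0 → ∃ y, x = (MonoidAlgebra.of ℤ Γ g - 1) * y) ∧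
      (∀ x, (∑ i ∈ Finset.range (Nat.card Γ), MonoidAlgebra.of ℤ Γ g ^ i) * x =
        eps x • ∑ i ∈ Finset.range (Nat.card Γ), MonoidAlgebra.of ℤ Γ g ^ i) ∧
      (∀ m : ℤ, m • (∑ i ∈ Finset.range (Nat.card Γ), MonoidAlgebra.of ℤ Γ g ^ i) = 0 →
        m = 0)

/-- **ArBin.** `1 + g + … + g^(n-1) = n + C(n,2) t + t^2 c` for `t = g - 1`, in every
commutative ring. Induction on `n` (or the binomial formula). -/
def S_ArBin : Prop :=
  ∀ (R : Type) [CommRing R] (g : R) (n : ℕ),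
    ∃ c : R, ∑ i ∈ Finset.range n, g ^ i =
      (n : R) + (n.choose 2 : R) * (g - 1) + (g - 1) ^ 2 * c

/-- **ArUnit.** For `r` prime to `n` and `g^n = 1`, `v = 1 + g + … + g^(r-1)` is a unit modulo the
norm element `N = 1 + … + g^(n-1)`: choose `s ≥ 1` with `r s ≡ 1 mod n`,
`w = 1 + g^r + … + g^(r(s-1))`; then `(g - 1) v w = g^(rs) - 1 = g - 1`; more precisely
`v w = 1 + g + … + g^(rs-1)` and `rs = 1 + n j`, so `v w = 1 + (g + … + g^(nj)) = 1 + g N (1 + g^n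
+ …) = 1 + N z`. -/
def S_ArUnit : Prop :=
  ∀ (R : Type) [CommRing R] (g : R) (n : ℕ) (hn : 1 < n) (hg : g ^ n = 1) (r : ℕ)
    (hr : r.Coprime n),
    ∃ w z : R, (∑ i ∈ Finset.range r, g ^ i) * w =
      1 + (∑ i ∈ Finset.range n, g ^ i) * z

/-- **ArCyc** (from ArKT, ArKN, ArBin, ArUnit). The group ring of a cyclic group of order `n`. -/
def S_ArCyc : Prop :=
  ∀ (Γ : Type) [CommGroup Γ] [Finite Γ]
    (g : Γ) (hg : ∀ x : Γ, x ∈ Subgroup.zpowers g) (hn : 1 < Nat.card Γ),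
    ∃ C : CycData (MonoidAlgebra ℤ Γ) (Nat.card Γ), C.t = MonoidAlgebra.of ℤ Γ g - 1

/-! ## Part B: projective modules over `Λ` -/

/-- **PrKt.** `M` projective is a direct summand of a free module `ι →₀ Λ` (or use dual bases
`x = ∑ f_j(x) e_j`, `Module.Projective` and finite): `t x = 0` gives `t f_j(x) = 0`,
`f_j(x) = N y_j`, `x = N ∑ y_j e_j`. Same for the second statement. -/
def S_PrKt : Prop :=
  ∀ (Λ : Type) [CommRing Λ] (n : ℕ) (C : CycData Λ n) (M : Type) [AddCommGroup M] [Module Λ M]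
    [Module.Finite Λ M] [Module.Projective Λ M] (x : M),
    (C.t • x = 0 → ∃ y, x = C.N • y) ∧ (C.N • x = 0 → ∃ y, x = C.t • y)

/-- **PrTf.** `Λ` is a free `ℤ`-module, so `M` is torsion free over `ℤ`. -/
def S_PrTf : Prop :=
  ∀ (Λ : Type) [CommRing Λ] (n : ℕ) (C : CycData Λ n) (M : Type) [AddCommGroup M] [Module Λ M]
    [Module.Finite Λ M] [Module.Projective Λ M] (m : ℤ) (hm : m ≠ 0) (x : M) (hx : m • x = 0),
    x = 0

/-- **PrTN** (from PrTf). `t x = N y` implies `t x = 0 = N y` (so `x ∈ N M`, `y ∈ t M` by PrKt).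
Proof: multiply by `N`: `0 = N t x = N² y`, and `N² = n N` (`N_eq`, `t N = 0`), so `n • (N y) = 0`,
`N y = 0` by PrTf as `n > 0`. -/
def S_PrTN : Prop :=
  ∀ (Λ : Type) [CommRing Λ] (n : ℕ) (C : CycData Λ n) (M : Type) [AddCommGroup M] [Module Λ M]
    [Module.Finite Λ M] [Module.Projective Λ M] (hn : 0 < n) (x y : M) (h : C.t • x = C.N • y),
    C.t • x = 0 ∧ C.N • y = 0

/-- **PrRk.** `M / t M` is a f.g. free `ℤ`-module.  Proof: `M/tM` is a f.g. projective module over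
`Λ / t ≅ ℤ` (base change along `eps : Λ → ℤ`, surjective with kernel `t Λ`), hence free. -/
def S_PrRk : Prop :=
  ∀ (Λ : Type) [CommRing Λ] (n : ℕ) (C : CycData Λ n) (M : Type) [AddCommGroup M] [Module Λ M]
    [Module.Finite Λ M] [Module.Projective Λ M],
    ∃ (a : ℕ) (π : M →+ (Fin a → ℤ)), Function.Surjective π ∧
    (∀ x, π x = 0 ↔ ∃ y, x = C.t • y) ∧ (∀ (l : Λ) x, π (l • x) = C.eps l • π x)

/-- **PrSec** (from PrRk). Additive section: `s = σ ∘ π` with `σ : ℤ^a → M` lifting the basis. -/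
def S_PrSec : Prop :=
  ∀ (Λ : Type) [CommRing Λ] (n : ℕ) (C : CycData Λ n) (M : Type) [AddCommGroup M] [Module Λ M]
    [Module.Finite Λ M] [Module.Projective Λ M],
    ∃ s : M →+ M, (∀ x, s (C.t • x) = 0) ∧ ∀ x, ∃ y, x = s x + C.t • y

/-- **PrDv** (from PrRk). `m x ∈ t M` and `m ≠ 0` imply `x ∈ t M`. -/
def S_PrDv : Prop :=
  ∀ (Λ : Type) [CommRing Λ] (n : ℕ) (C : CycData Λ n) (M : Type) [AddCommGroup M] [Module Λ M]
    [Module.Finite Λ M] [Module.Projective Λ M] (m : ℤ) (hm : m ≠ 0) (x y : M) (h : m • x = C.t • y),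
    ∃ z, x = C.t • z

/-! ## Part C: steps 3 - 5 -/

/-- **CqZ.** Description of the kernel of `P_i → F_i` (`Ideal.span {t, N} • ⊤ = t P + N P`). -/
def S_CqZ : Prop :=
  ∀ (Λ : Type) [CommRing Λ] (n : ℕ) (C : CycData Λ n) (X : Cx Λ C.t) (i : ℕ) (x : X.P i),
    X.q i x = 0 ↔ ∃ a b, x = C.t • a + C.N • b

/-- **CqF** (from CqZ, PrRk). `F_i` is a finite set, `n` kills it, `Λ` acts through `eps`.
Proof: `n = N - C(n,2) t - t² c` kills `F_i` (`N_eq`), `l - eps l ∈ t Λ` (`ker_eps`);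
`P_i / t ≅ ℤ^a` so `F_i` is a quotient of `(ℤ/n)^a`. -/
def S_CqF : Prop :=
  ∀ (Λ : Type) [CommRing Λ] (n : ℕ) (C : CycData Λ n) (X : Cx Λ C.t) (hn : 0 < n) (i : ℕ),
    Finite (X.F i) ∧ (∀ y : X.F i, (n : ℤ) • y = 0) ∧
    ∀ (l : Λ) (y : X.F i), l • y = C.eps l • y

/-- **COm** (from PrTN, PrKt, PrSec, CqZ, CqF). Existence of `ω`.
Proof: take the sections `s_i` of PrSec.  For `x ∈ P_{i+1}`, `d (s x) - s (d x)` is in `t P_i`
(both are congruent to `d x` modulo `t`); write it as `t w`; `w` is unique modulo `N P_i` (PrKt),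
so `q w ∈ F_i` is well defined and additive in `x`.  If `x = t a + N b` then `s x = s(N b) =
n s(b)` (`s` kills `t P`, `N = n + t(…)`), `s (d x) = n s (d b)`, so `t w = n t w_b`, `w = n w_b`
modulo `N P`, `q w = 0` (CqF).  Linearity over `Λ`: additive, and `Λ` acts through `eps` on both
sides. -/
def S_COm : Prop :=
  ∀ (Λ : Type) [CommRing Λ] (n : ℕ) (C : CycData Λ n) (X : Cx Λ C.t) (hn : 0 < n),
    Nonempty (Om X)

/-- **COd.** `d ω + ω d = 0` on `F`.  Proof: for `x ∈ P_{i+2}` write `d (s x) = s (d x) + t w`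
(exists by `s_sub` for `d (s x)` and `x`, see COm).  Then `0 = d d (s x) = d (s (d x)) + t d w`,
and `d (s (d x)) = s (d d x) + t w' = t w'` with `ω (q (d x)) = q w'`.  So `t (w' + d w) = 0`,
`w' + d w ∈ N P_i` (PrKt), `q w' + d_F q w = 0`. -/
def S_COd : Prop :=
  ∀ (Λ : Type) [CommRing Λ] (n : ℕ) (C : CycData Λ n) (X : Cx Λ C.t) (hn : 0 < n) (O : Om X) (i : ℕ) (x : X.F (i + 2)),
    X.dF i (O.ω (i + 1) x) + O.ω i (X.dF (i + 1) x) = 0

/-- **CBo** (from PrKt, PrTf, CqZ).  Let `x ∈ F_{i+1}`, `d x = 0`.  Choose `a ∈ P_{i+1}` over `x`, `u = s a`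
(`q u = x` as `a - s a ∈ t P`).  `q (d a) = 0`: `d a = t a' + N b`, so `s (d a) = s (N b) = n s b`.
`d u = s (d a) + t w = n s(b) + t w`, `ω x = q w`, and `n = N - C(n,2) t - t² c`, so
`d u = N s(b) + t y`, `y = w - C(n,2) s(b) - t c s(b)`, `z = s b`.  `q z` is a cycle: `0 = d d u =
t d y + N d z`, so `N d z = 0`, `d z ∈ t P` (PrTN, PrKt), and `t d y = 0`, `d y ∈ N P`. -/
def S_CBo : Prop :=
  ∀ (Λ : Type) [CommRing Λ] (n : ℕ) (C : CycData Λ n) (X : Cx Λ C.t) (hn : 0 < n) (O : Om X) (i : ℕ) (x : X.F (i + 1)) (hx : X.dF i x = 0),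
    ∃ (u : X.P (i + 1)) (y z : X.P i), X.d i u = C.t • y + C.N • z ∧ X.q (i + 1) u = x ∧
      O.ω i x = X.q i y + (n.choose 2 : ℤ) • X.q i z ∧ X.cyF i (X.q i z) ∧ X.cyc i y

/-- **CF1** (from PrTN, PrKt, CqZ).  Injectivity of `H(P/N) → H(F)`.
Proof: `w = q v`; `u - d v = t y + N z`; applying `d`: `N z0 = t d y + N d z`, so `t d y = 0` (PrTN),
`d y = N b` (PrKt; for `i = 0` see below), `t y = d (h y) + h (d y) = d (h y) + N h b`.
Here `u : P_{i+1}`, `y : P_{i+1}`, so `dh` is used at index `i`. -/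
def S_CF1 : Prop :=
  ∀ (Λ : Type) [CommRing Λ] (n : ℕ) (C : CycData Λ n) (X : Cx Λ C.t) (hn : 0 < n) (i : ℕ) (u : X.P (i + 1)) (z0 : X.P i) (hu : X.d i u = C.N • z0)
    (w : X.F (i + 2)) (hw : X.q (i + 1) u = X.dF (i + 1) w),
    ∃ a b, u = X.d (i + 1) a + C.N • b

/-- **CF3** (from PrTN, PrKt).  If `d u = t y + N z` then `y` and `u - h y` are cycles modulo `N`:
`0 = t d y + N d z` gives `t d y = 0`, `d y = N b`; `d (u - h y) = t y + N z - (t y - h (d y)) =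
N (z + h b)`.  For `i = 0`: `P 0` is trivial, `y = 0`. -/
def S_CF3 : Prop :=
  ∀ (Λ : Type) [CommRing Λ] (n : ℕ) (C : CycData Λ n) (X : Cx Λ C.t) (hn : 0 < n) (i : ℕ) (u : X.P (i + 1)) (y z : X.P i)
    (hu : X.d i u = C.t • y + C.N • z),
    X.cyc i y ∧ ∃ z', X.d i (u - X.h i y) = C.N • z'

/-- **CF4** (from PrTN, PrKt, CqZ).  If `q u + η (q v)` is a boundary, `u`, `v` cycles modulo `N`, then `q u` is a
boundary.  Proof: `w = q b0`; `u + h v = d b0 + t c1 + N c2`; apply `d`: `N z0 + (t v - h (d v)) =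
t d c1 + N d c2` with `h (d v) ∈ N P`; so `t (v - d c1) ∈ N P`, `v - d c1 = N b` (PrTN, PrKt),
`q v = d_F (q c1)`, `η (q v) = - d_F (η (q c1))` (from `dh`, `t` kills `F`), so
`q u = d_F (w + η (q c1))`.  For `i = 0`, `v = 0`. -/
def S_CF4 : Prop :=
  ∀ (Λ : Type) [CommRing Λ] (n : ℕ) (C : CycData Λ n) (X : Cx Λ C.t) (hn : 0 < n) (i : ℕ) (u : X.P (i + 1)) (v : X.P i) (z0 : X.P i)
    (hu : X.d i u = C.N • z0) (hv : X.cyc i v) (w : X.F (i + 2))
    (h : X.q (i + 1) u + X.eta i (X.q i v) = X.dF (i + 1) w),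
    ∃ w', X.q (i + 1) u = X.dF (i + 1) w'

/-- **CPc** (from COd, CqZ).  `φ = 1 - η ω` is a chain map: `d η ω = - η d ω = η ω d`
(`d η + η d = 0` on `F` from `dh`, as `t` kills `F`; `P 0` trivial for `i = 0`). -/
def S_CPc : Prop :=
  ∀ (Λ : Type) [CommRing Λ] (n : ℕ) (C : CycData Λ n) (X : Cx Λ C.t) (hn : 0 < n) (O : Om X) (i : ℕ) (x : X.F (i + 1)),
    X.dF i (O.phi (i + 1) x) = O.phi i (X.dF i x)

/-- **CP1** (from CBo, CF3).  `φ` maps cycles into `q(cycles mod N) + c' (cycles)`, if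
`C(n,2) = c' j`.  Proof: `x` a cycle, `u, y, z` as in CBo; `φ x = x - η (ω x) = q u - q (h y) -
C(n,2) η (q z) = q (u - h y) + c' (- j η (q z))`; `η (q z)` is a cycle since `q z` is. -/
def S_CP1 : Prop :=
  ∀ (Λ : Type) [CommRing Λ] (n : ℕ) (C : CycData Λ n) (X : Cx Λ C.t) (hn : 0 < n) (O : Om X) (c' j : ℤ) (hc : (n.choose 2 : ℤ) = c' * j) (i : ℕ)
    (x : X.F (i + 1)) (hx : X.dF i x = 0),
    ∃ (u : X.P (i + 1)) (z0 : X.P i) (z : X.F (i + 1)), X.d i u = C.N • z0 ∧ X.dF i z = 0 ∧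
      O.phi (i + 1) x = X.q (i + 1) u + c' • z

/-- **CP2** (from CBo, CF1-type computation).  For a cycle `u` modulo `N`, `φ (q u) - q u` is in
`boundaries + c' (cycles)`.  Proof: `x = q u`; take `u', y, z` of CBo for `x` (`q u' = q u`).
`u' = u + t a + N b`, `d u' = N z0 + t d a + N d b = t y + N z`, so `t (y - d a) ∈ N P`,
`y = d a + N b'` (PrTN, PrKt), `q y = d_F (q a)`.  `ω x = d_F (q a) + C(n,2) q z`, `φ x = x - η d_F
(q a) - C(n,2) η (q z) = x + d_F η (q a) + c' (- j η (q z))`. -/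
def S_CP2 : Prop :=
  ∀ (Λ : Type) [CommRing Λ] (n : ℕ) (C : CycData Λ n) (X : Cx Λ C.t) (hn : 0 < n) (O : Om X) (c' j : ℤ) (hc : (n.choose 2 : ℤ) = c' * j) (i : ℕ)
    (u : X.P (i + 1)) (z0 : X.P i) (hu : X.d i u = C.N • z0),
    ∃ (w : X.F (i + 2)) (z : X.F (i + 1)), X.dF i z = 0 ∧
      O.phi (i + 1) (X.q (i + 1) u) = X.q (i + 1) u + X.dF (i + 1) w + c' • z

/-- **CIdm.** In finitely many finite monoids there is a common exponent which makes all elements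
idempotent: for `i ≤ D` the endomorphism monoid of the finite module `F i` is finite, some power
`a ^ m_i` is idempotent and then `a ^ (m_i k)` is idempotent for `k ≥ 1`; take the product of the
`m_i`; for `i > D` the module is trivial. -/
def S_CIdm : Prop :=
  ∀ {Λ : Type} [CommRing Λ] (F : ℕ → Type) [∀ i, AddCommGroup (F i)]
    [∀ i, Module Λ (F i)] (hF : ∀ i, Finite (F i)) (D : ℕ) (hD : ∀ i, D < i → Subsingleton (F i))
    (a : ∀ i, F i →ₗ[Λ] F i),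
    ∃ m : ℕ, 0 < m ∧ ∀ i, ((a i : Module.End Λ (F i)) ^ m) * (a i : Module.End Λ (F i)) ^ m =
      (a i : Module.End Λ (F i)) ^ m

/-- **CSp** (from COm, CPc, CP1, CP2, CIdm, CF1, CF3, CF4, CqF, CBo).  The idempotent `e = φ^m`.
Write `Z` = cycles of `F_{i+1}`, `B` = boundaries, `K = {q u : d u ∈ N P}`.
(Q1) `e Z ⊆ K + c' Z` (as `φ (φ^{m-1} Z) ⊆ φ Z`, CP1).  (Q2) `e x - x ∈ B + c' Z` for `x ∈ K`
(induction, CP2 and CPc).  `c'^2 = 0` on `F` as `n ∣ c'^2`.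
onto: `y = e y ∈ Z`: `y = k + c' z` (Q1 for `y`), `e z = k' + c' z'`, `c' e z = c' k'`, hence
`c' e z = e (c' e z) = e (c' k')` and `y = e y = e k + c' e z = e (k + c' k')`,
`k + c' k' ∈ K`.
inj: `x ∈ K` with `e x ∈ B`.  By (Q2) `x = b + c' z`, `z ∈ Z`; `z = k1 + η k2` with `k1 ∈ K`,
`k2 ∈ q(cyc)` (CBo and CF3: `z = q u`, `d u = t y + N z'`, `k1 = q (u - h y)`, `k2 = q y`).
`x - c' k1 ∈ K`, `(x - c' k1) + η (- c' k2) = b ∈ B`, so `x - c' k1 ∈ B` by CF4.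
`e k1 - k1 ∈ B + c' Z` so `c' k1 ≡ c' e k1 = e (x - b') ∈ B` modulo `B`, where `b' = x - c' k1`.
Hence `x ∈ B`, and `CF1` gives the conclusion. -/
def S_CSp : Prop :=
  ∀ (Λ : Type) [CommRing Λ] (n : ℕ) (C : CycData Λ n) (X : Cx Λ C.t) (hn : 1 < n) (c' j : ℤ) (hc : (n.choose 2 : ℤ) = c' * j) (hc2 : (n : ℤ) ∣ c' ^ 2),
    Nonempty (SplitF X)

/-- **CSp2.** The case `n` prime (used for `n = 2`): `F_i` is a vector space over `ℤ/n`.
`K_{i+1} = {q u : d u ∈ N P_i}` is a submodule of `F_{i+1}`, `B` = boundaries.  Choose (vector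
spaces!) a complement `K'` of `K ∩ B` in `K` and a projection `e` of `F_{i+1}` onto `K'` which
kills `B` (choose a complement of `K' ⊕ B`).  `e` also kills ... : choose the complement `U` of
`K' ⊕ B` in `F_{i+1}` arbitrary; `e d = 0` as `e` kills `B`, `d e = 0` as `K' ⊆ Z`; so `e` is a
chain map.  In degree `0`, `e = 0`.  onto: `y ∈ K'` is `q x`, `x` a cycle mod `N`, `e (q x) = q x`.
inj: `d x ∈ N P`, `e (q x) = d_F w`; `q x = k' + b` with `k' ∈ K'`, `b ∈ K ∩ B`, `k' = e (q x) =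
d_F w ∈ B`, so `q x ∈ B` and CF1 gives the claim.  (`F_i` is a module over the field
`ZMod n` : use that submodules of `F_i` over `Λ` are the additive subgroups, `l • y = eps l • y`.) -/
def S_CSp2 : Prop :=
  ∀ (Λ : Type) [CommRing Λ] (n : ℕ) (C : CycData Λ n) (X : Cx Λ C.t) (hp : n.Prime),
    Nonempty (SplitF X)

/-- **CFr.** For `n = q^k` the image of an idempotent endomorphism of `F_i` is free over `ℤ/n`.
Proof: `F_i` is a free module over `Q = Λ/(t,N) ≅ ℤ/n` (PrRk: `P_i/t ≅ ℤ^a`, so `F_i ≅ Q^a`), `Q` is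
a local ring (`ℤ/q^k`), the image of `e` is a direct summand, f.g. projective, hence free
(`Module.free_of_isLocalRing`-type theorem). -/
def S_CFr : Prop :=
  ∀ (Λ : Type) [CommRing Λ] (n : ℕ) (C : CycData Λ n) (X : Cx Λ C.t) (q k : ℕ) (hq : q.Prime) (hk : 0 < k) (hn : n = q ^ k) (i : ℕ)
    (e : X.F i →ₗ[Λ] X.F i) (he : ∀ x, e (e x) = e x),
    ∃ r : ℕ, Nonempty (LinearMap.range e ≃ₗ[Λ] (Fin r → QQ C))

/-- **CG** (from CSp, CSp2, CFr).  For `n = q^k`, `k ≥ 1`, there is a quasi-isomorphism from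
`P / N` to a bounded complex of f.g. free `ℤ/n`-modules.
Proof: SplitF exists: if `n` is prime by CSp2; if `q` is odd CSp with `c' = n`
(`C(n,2) = n (n-1)/2`); if `q = 2`, `k ≥ 2` CSp with `c' = n/2`.  `G_i = range (e i) ≅ Q^{r i}`
(CFr), `f i = e i ∘ q i`, `δ = ` restriction of `dF`.  `r i = 0` for `i = 0` and for `i > D` since
`P i` is trivial. -/
def S_CG : Prop :=
  ∀ (Λ : Type) [CommRing Λ] (n : ℕ) (C : CycData Λ n) (X : Cx Λ C.t) (q k : ℕ) (hq : q.Prime) (hk : 0 < k) (hn : n = q ^ k),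
    Nonempty (SplitG X)

/-! ## Part D: K-theory by hand -/

/-- **DLf.** `M` projective over `Λ`: `M / N M` has the lifting property. (Lift `M → M/N → M'` to
`M → M''`; it kills `N M`.) -/
def S_DLf : Prop :=
  ∀ (Λ : Type) [CommRing Λ] (N : Λ) (M : Type) [AddCommGroup M] [Module Λ M] [Module.Projective Λ M],
    Lft N (QN N M)

/-- **DLp.** Products of two, and `Fin r → Λ ⧸ N`. -/
def S_DLp : Prop :=
  ∀ (Λ : Type) [CommRing Λ] (N : Λ),
    (∀ (A B : Type) [AddCommGroup A] [Module Λ A] [AddCommGroup B] [Module Λ B],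
      Lft N A → Lft N B → Lft N (A × B)) ∧
    (∀ r : ℕ, Lft N (Fin r → Λ ⧸ Ideal.span {N}))

/-- **DK (kernel lemma).** `0 → M' → M → M'' → 0` exact, `Res M A B`, `Res M'' A'' B''`, `A`, `A''`
with the lifting property: `Res M' (A × B'') (B × A'')`.
Proof: lift `A → M → M''` to `α : A → A''`.  `κ : A × B'' → A''`, `(a,b) ↦ α a - b` is onto; lift
`id : A'' → A''` to a section `σ`.  `K = ker κ`; for `(a, b) ∈ K`, `p a ∈ M` maps to `0` in `M''`,
so it is `j m'`; `K → M'` is onto with kernel `{(b0, α b0) : b0 ∈ B}`.  The map `A × B'' → M'` is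
`x ↦ image of x - σ (κ x) ∈ K`; its kernel is the image of the injective map
`B × A'' → A × B''`, `(b, a'') ↦ (b, α b) + σ a''`. -/
def S_DK : Prop :=
  ∀ (Λ : Type) [CommRing Λ] (N : Λ) (M' M M'' A B A'' B'' : Type) [AddCommGroup M'] [Module Λ M'] [AddCommGroup M]
    [Module Λ M] [AddCommGroup M''] [Module Λ M''] [AddCommGroup A] [Module Λ A] [AddCommGroup B]
    [Module Λ B] [AddCommGroup A''] [Module Λ A''] [AddCommGroup B''] [Module Λ B'']
    (hA : Lft N A) (hA'' : Lft N A'') (j : M' →ₗ[Λ] M) (g : M →ₗ[Λ] M'')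
    (hj : Function.Injective j) (hg : Function.Surjective g) (hex : ∀ x, g x = 0 ↔ ∃ y, j y = x)
    (h1 : Res Λ M A B) (h2 : Res Λ M'' A'' B''),
    Res Λ M' (A × B'') (B × A'')

/-- **DW** (from DK, DLp).  Walking down a bounded exact complex.  Induction on `i`:
`Res (ker (∂_{i-1})) (ZZ i).1 (ZZ i).2` (`Z_0 = C 0`; `0 → ker ∂_i → C (i+1) → Z_i → 0`), and all
terms have the lifting property.  If `C (m+1)` is trivial, `Z_m = range ∂_m = 0`, so
`0 → (ZZ m).2 → (ZZ m).1 → 0`. -/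
def S_DW : Prop :=
  ∀ (Λ : Type) [CommRing Λ] (N : Λ) (Cc : ℕ → Type) [∀ i, AddCommGroup (Cc i)] [∀ i, Module Λ (Cc i)]
    (dd : ∀ i, Cc (i + 1) →ₗ[Λ] Cc i) (h0 : Function.Surjective (dd 0))
    (hex : ∀ i x, dd i x = 0 ↔ ∃ y, dd (i + 1) y = x) (A B : ℕ → ModuleCat.{0} Λ)
    (hA : ∀ i, Lft N (A i)) (hB : ∀ i, Lft N (B i)) (hR : ∀ i, Res Λ (Cc i) (A i) (B i)) (m : ℕ)
    (hm : Subsingleton (Cc (m + 1))),
    Nonempty ((ZZ A B m).1 ≃ₗ[Λ] (ZZ A B m).2)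

/-- **DRs.** Resolution of `Y × (ℤ/n)^r`: `0 → (Λ/N)^r → (multiplication by t) → Y × (Λ/N)^r`.
`t` is injective on `Λ / N`: `t x = N y` gives `t x = 0` and `x ∈ N Λ` (multiply by `t`:
`t² x = 0`, so `t x ∈ N Λ ∩ ...`; use `ker_t`: `t (t x) = 0`, `t x = N z`, `N t x = 0 = n N z`,
`N z = 0` since `Λ` is torsion free, so `t x = 0`, `x = N w`); the cokernel is `Λ / (t, N)`. -/
def S_DRs : Prop :=
  ∀ (Λ : Type) [CommRing Λ] {n : ℕ} (C : CycData Λ n) (hn : 0 < n) (Y : Type) [AddCommGroup Y] [Module Λ Y]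
    (r : ℕ),
    Res Λ (Y × (Fin r → QQ C)) (Y × (Fin r → LN C)) (Fin r → LN C)

/-- **DCo.** The cone of `P/N → G` is exact: terms `C 0 = P_0/N × G_0`,
`C (i+1) = P_i/N × G_{i+1}` (written `P_{(i)-1}`), `∂ (x, y) = (- d x, f x + δ y)`.
Proof of exactness at `C (i+2)` from `onto`, `inj` of SplitG: `(x, y)` with `d x ∈ N P`, `f x + δ y
= 0`; `inj` gives `x = d u + N v` (`f x = δ (-y)`), subtract the image of `(-u, 0)`: then
`x = 0` in `P/N` and `y' = y + f u` is a cycle of `G`, so by `onto` `y' = f x' + δ w`, image of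
`(x', w)`.  `C 0` and the part `P_0` are trivial (`zero`, `r_zero`). -/
def S_DCo : Prop :=
  ∀ (Λ : Type) [CommRing Λ] {n : ℕ} {C : CycData Λ n} (X : Cx Λ C.t) (S : SplitG X) (hn : 0 < n),
    ∃ dd : ∀ i, (QN C.N (X.P i) × (Fin (S.r (i + 1)) → QQ C)) →ₗ[Λ]
        (QN C.N (X.P (i - 1)) × (Fin (S.r i) → QQ C)),
      Function.Surjective (dd 0) ∧
      ∀ i x, dd i x = 0 ↔ ∃ y, dd (i + 1) y = x

/-- **DAl.** Computation of the alternating sums: induction on `K`;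
`(ZZ (2K+2)).1 = A (2K+2) × (B (2K+1) × (ZZ (2K)).1)` and
`(ZZ (2K+2)).2 = B (2K+2) × (A (2K+1) × (ZZ (2K)).2)`. -/
def S_DAl : Prop :=
  ∀ (Λ : Type) [CommRing Λ] (L : Type) [AddCommGroup L] [Module Λ L] (P : ℕ → Type) [∀ i, AddCommGroup (P i)]
    [∀ i, Module Λ (P i)] (hP : Subsingleton (P 0)) (r : ℕ → ℕ) (K : ℕ),
    let A : ℕ → ModuleCat.{0} Λ := fun i => ModuleCat.of Λ (P (i - 1) × (Fin (r i) → L))
    let B : ℕ → ModuleCat.{0} Λ := fun i => ModuleCat.of Λ (Fin (r i) → L)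
    Nonempty ((ZZ A B (2 * K)).1 ≃ₗ[Λ]
      (∀ j : Fin K, P (2 * j + 1)) × (Fin (∑ i ∈ Finset.range (2 * K + 1), r i) → L)) ∧
    Nonempty ((ZZ A B (2 * K)).2 ≃ₗ[Λ]
      (∀ j : Fin K, P (2 * j)) × (Fin (∑ i ∈ Finset.range (2 * K + 1), r i) → L))

/-- **DMain** (from DW, DRs, DCo, DAl, DLf, DLp).  Part D: `P_even / N ⊕ (Λ/N)^S ≅ P_odd / N ⊕
(Λ/N)^S`.  Choose `m = 2 K'` with `K' ≥ K` and `r i = 0` for `i > 2 K'` (`C (m+1) = P_{m}/N ×
G_{m+1}` trivial), then the extra terms `P_j`, `j ≥ 2 K`, are trivial. -/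
def S_DMain : Prop :=
  ∀ (Λ : Type) [CommRing Λ] {n : ℕ} {C : CycData Λ n} (hn : 1 < n) (X : Cx Λ C.t) (S : SplitG X) (K : ℕ)
    (hK : ∀ i, 2 * K ≤ i → Subsingleton (X.P i)),
    ∃ s : ℕ, Nonempty (((∀ j : Fin K, QN C.N (X.P (2 * j))) × (Fin s → LN C)) ≃ₗ[Λ]
      ((∀ j : Fin K, QN C.N (X.P (2 * j + 1))) × (Fin s → LN C)))

/-! ## Part E: the Milnor square -/

/-- **ESL.** `SL_m(ℤ) → SL_m(ℤ/n)` is onto (`n ≥ 1`).  Induction on `m`: by column operations with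
integral elementary matrices one may reduce to a first column `(1,0,…,0)`: a unimodular column
over `ℤ/n` lifts to an integral vector with gcd prime to `n`; standard: choose the lift so that the
gcd of the entries is `1` (`m ≥ 2`), complete it.  Alternative: `ℤ/n` is a finite product of local
rings, so `SL_m(ℤ/n)` is generated by transvections, which lift. -/
def S_ESL : Prop :=
  ∀ (m n : ℕ) (hn : 0 < n),
    Function.Surjective
    (Matrix.SpecialLinearGroup.map (n := Fin m) (Int.castRingHom (ZMod n)))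

/-- **EGl.** Gluing.  `φ : M/N ≅ M'/N`, `ψ : M/t ≅ M'/t` compatible on `M/(t,N)` give `M ≅ M'`.
Proof: for `x ∈ M` take `y, y' ∈ M'` with `φ [x] = [y]`, `ψ [x] = [y']`, `y - y' = t a + N b`;
`θ x = y - N b = y' + t a` is the unique element of `M'` with classes `φ [x]`, `ψ [x]`
(unique because `t M' ∩ N M' = 0`, PrTN).  `θ` is linear; the inverse is built in the same way. -/
def S_EGl : Prop :=
  ∀ (Λ : Type) [CommRing Λ] (n : ℕ) (C : CycData Λ n) (hn : 1 < n) (M M' : Type) [AddCommGroup M] [Module Λ M] [Module.Finite Λ M]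
    [Module.Projective Λ M] [AddCommGroup M'] [Module Λ M'] [Module.Finite Λ M']
    [Module.Projective Λ M'] (φ : QN C.N M ≃ₗ[Λ] QN C.N M') (ψ : QN C.t M ≃ₗ[Λ] QN C.t M')
    (h : ∀ (x : M) (y y' : M'), φ (Submodule.Quotient.mk x) = Submodule.Quotient.mk y →
      ψ (Submodule.Quotient.mk x) = Submodule.Quotient.mk y' → ∃ a b, y - y' = C.t • a + C.N • b),
    Nonempty (M ≃ₗ[Λ] M')

/-- **EMat** (from PrRk).  The matrix over `ℤ/n` of `φ : M/N ≅ M'/N` with respect to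
`π : M → ℤ^a`, `π' : M' → ℤ^{a'}` (kernels `t M`, `t M'`); and `a = a'` as `n > 1`. -/
def S_EMat : Prop :=
  ∀ (Λ : Type) [CommRing Λ] (n : ℕ) (C : CycData Λ n) (hn : 1 < n) (M M' : Type) [AddCommGroup M] [Module Λ M]
    [AddCommGroup M'] [Module Λ M'] (φ : QN C.N M ≃ₗ[Λ] QN C.N M') (a a' : ℕ)
    (π : M →+ (Fin a → ℤ)) (π' : M' →+ (Fin a' → ℤ)) (hs : Function.Surjective π)
    (hs' : Function.Surjective π') (hk : ∀ x, π x = 0 ↔ ∃ y, x = C.t • y)
    (hk' : ∀ x, π' x = 0 ↔ ∃ y, x = C.t • y) (hl : ∀ (l : Λ) x, π (l • x) = C.eps l • π x)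
    (hl' : ∀ (l : Λ) x, π' (l • x) = C.eps l • π' x),
    a = a' ∧ ∃ U : Matrix (Fin a') (Fin a) (ZMod n), 
      (∀ (x : M) (y : M'), φ (Submodule.Quotient.mk x) = Submodule.Quotient.mk y →
        U.mulVec (fun i => ((π x i : ℤ) : ZMod n)) = fun i => ((π' y i : ℤ) : ZMod n)) ∧
      ∃ V : Matrix (Fin a) (Fin a') (ZMod n), U * V = 1 ∧ V * U = 1

/-- **EPa** (patching, from ESL, EGl, EMat, PrRk, `C.unit`).  `M/N ≅ M'/N` implies
`M × Λ ≅ M' × Λ`.  Proof: `π`, `π'` as in PrRk; on `M × Λ` use `(π, eps)`.  `a = a'` and the matrix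
`U` of `φ`; `det U = c` is a unit of `ℤ/n`, `c ≡ r`, `r` prime to `n`; `v, w ∈ Λ` with `v w ≡ 1` mod
`N` and `eps v = r` (`C.unit`).  Let `φ1 = φ × (multiplication by w)` on `M/N × Λ/N`; its matrix
`diag(U, r^{-1})` has determinant `1`, so it lifts to `U' ∈ SL_{a+1}(ℤ)` (ESL).  `ψ : (M × Λ)/t ≅
ℤ^{a+1} → ℤ^{a'+1} ≅ (M' × Λ)/t` given by `U'`; EGl applies. -/
def S_EPa : Prop :=
  ∀ (Λ : Type) [CommRing Λ] (n : ℕ) (C : CycData Λ n) (hn : 1 < n) (M M' : Type) [AddCommGroup M] [Module Λ M] [Module.Finite Λ M]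
    [Module.Projective Λ M] [AddCommGroup M'] [Module Λ M'] [Module.Finite Λ M']
    [Module.Projective Λ M'] (φ : QN C.N M ≃ₗ[Λ] QN C.N M'),
    Nonempty ((M × Λ) ≃ₗ[Λ] (M' × Λ))

/-- **EQn.** `(∏_j P_j × Λ^s) / N ≅ ∏_j P_j / N × (Λ/N)^s`. -/
def S_EQn : Prop :=
  ∀ (Λ : Type) [CommRing Λ] (N : Λ) (K s : ℕ) (P : Fin K → Type) [∀ i, AddCommGroup (P i)] [∀ i, Module Λ (P i)],
    Nonempty (QN N ((∀ j, P j) × (Fin s → Λ)) ≃ₗ[Λ]
      ((∀ j, QN N (P j)) × (Fin s → Λ ⧸ Ideal.span {N})))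

/-- **AlgMain** (from CG, DMain, EPa, EQn).  The algebraic theorem for complexes with
`P_0 = 0`. -/
def S_AlgMain : Prop :=
  ∀ (Λ : Type) [CommRing Λ] (n : ℕ) (C : CycData Λ n) (q k : ℕ) (hq : q.Prime) (hk : 0 < k) (hn : n = q ^ k) (X : Cx Λ C.t) (K : ℕ)
    (hK : ∀ i, 2 * K ≤ i → Subsingleton (X.P i)),
    ∃ s : ℕ, Nonempty (((∀ j : Fin K, X.P (2 * j)) × (Fin s → Λ)) ≃ₗ[Λ]
      ((∀ j : Fin K, X.P (2 * j + 1)) × (Fin s → Λ)))

/-- **AlgR** (from AlgMain, ArCyc).  The algebraic theorem over the group ring of a cyclic group of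
order `q^k`, `k ≥ 1`, for complexes indexed by `ℕ` (shift by one to get `P_0 = 0`; then even and
odd are exchanged; `Γ` is commutative since it is cyclic: `letI : CommGroup Γ :=
IsCyclic.commGroup`). -/
def S_AlgR : Prop :=
  ∀ (Γ : Type) [Group Γ] (hΓ : IsCyclic Γ) (q k : ℕ) (hq : q.Prime) (hk : 0 < k)
    (hn : Nat.card Γ = q ^ k) (g : Γ) (hg : ∀ x : Γ, x ∈ Subgroup.zpowers g) (P : ℕ → Type)
    [∀ i, AddCommGroup (P i)]
    [∀ i, Module (MonoidAlgebra ℤ Γ) (P i)] [∀ i, Module.Finite (MonoidAlgebra ℤ Γ) (P i)]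
    [∀ i, Module.Projective (MonoidAlgebra ℤ Γ) (P i)]
    (d : ∀ i, P (i + 1) →ₗ[MonoidAlgebra ℤ Γ] P i) (h : ∀ i, P i →ₗ[MonoidAlgebra ℤ Γ] P (i + 1))
    (dd : ∀ i x, d i (d (i + 1) x) = 0)
    (dh0 : ∀ x, d 0 (h 0 x) = (MonoidAlgebra.of ℤ Γ g - 1) • x)
    (dh : ∀ i x, d (i + 1) (h (i + 1) x) + h i (d i x) = (MonoidAlgebra.of ℤ Γ g - 1) • x)
    (K : ℕ) (hK : ∀ i, 2 * K ≤ i → Subsingleton (P i)),
    ∃ s : ℕ, Nonempty (((∀ j : Fin K, P (2 * j)) × (Fin s → MonoidAlgebra ℤ Γ)) ≃ₗ[MonoidAlgebra ℤ Γ]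
      ((∀ j : Fin K, P (2 * j + 1)) × (Fin s → MonoidAlgebra ℤ Γ)))

/-! ## Part T: topology -/

/-- **TK.** The homotopy from `id_X` to `id_X` attached to a loop `c` at `e`.
Proof: `F` the homotopy of `IsHMul`; `K` is the concatenation of `(s, x) ↦ F(s,(e,x))`,
`(t, x) ↦ μ(c t, x)` and the reverse of the first one (`ContinuousMap.Homotopy.trans`, `symm`).
With `δ(s) = F(s,(e,e))` the path `K(·,e)` is `(δ ⬝ μ(c,e)) ⬝ δ⁻¹`; the square
`(s,t) ↦ F(s,(c t, e))` shows `c ⬝ δ ≃ δ ⬝ μ(c,e)` rel endpoints (`F(0,(x,e)) = x`), so `K(·,e) ≃ c`. -/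
def S_TK : Prop :=
  ∀ (X : Type) [TopologicalSpace X] (e : X) (μ : C(X × X, X)) (hμ : IsHMul e μ)
    (c : Path e e),
    ∃ K : C(unitInterval × X, X), (∀ x, K (0, x) = x) ∧ (∀ x, K (1, x) = x) ∧
      ∃ γ : Path e e, (∀ s, γ s = K (s, e)) ∧ Path.Homotopic γ c

/-- **TN** (from TK).  Property (N) for path-connected coverings of H-spaces.
Proof: `p` is onto (lift a path from a point of `p(E)` to `e`).  Let `g` be a deck transformation,
`e'` over `e`, `τ` a path in `E` from `e'` to `g e'`, `c = p ∘ τ`.  Take `K` of TK for `c` and lift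
`K ∘ (id × p)` to `H : I × E → E` with `H(0,x) = x` (`IsCoveringMap.liftHomotopy`).
`H(t, a x)` and `a H(t, x)` are lifts of the path `K(·, p x)` starting at `a x`: equal.
`H(·, e')` is the lift of `K(·,e) ≃ c` starting at `e'`, so it ends at `g e'`
(`IsCoveringMap.liftPath_apply_one_eq_of_homotopicRel`).  `H(1,·)` and `g` are two lifts of `p`
which agree at `e'`: equal (`IsCoveringMap.eq_of_comp_eq`, `E` connected). -/
def S_TN : Prop :=
  ∀ (X E : Type) [TopologicalSpace X] [TopologicalSpace E] [PathConnectedSpace X]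
    [PathConnectedSpace E] (p : E → X) (hp : IsCoveringMap p) (e : X) (μ : C(X × X, X))
    (hμ : IsHMul e μ),
    PropN (Deck p)

/-- **TS1.** A homotopy `H` from `id` to `g` induces a chain homotopy (relation `d h + h d = g_* - 1`)
which is natural: it commutes with `a_*` if `H(t, a x) = a H(t, x)`.
Proof: Mathlib's `TopCat.Homotopy.singularChainComplexFunctorObjMap` (its components are the
alternating sums of the maps `h_k` of the simplicial homotopy `x ↦ H ∘ (s_k x, k-th path)`,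
see Mathlib.AlgebraicTopology.SimplicialObject.ChainHomotopy); naturality of each `h_k` in the
singular simplicial set.  (Any other construction of the prism operator is fine.) -/
def S_TS1 : Prop :=
  ∀ (E : Type) [TopologicalSpace E] (g : C(E, E)) (H : C(unitInterval × E, E))
    (h0 : ∀ x, H (0, x) = x) (h1 : ∀ x, H (1, x) = g x),
    ∃ hh : ∀ i : ℕ, (SC E).X i →ₗ[ℤ] (SC E).X (i + 1),
      (∀ x : (SC E).X 0, ((SC E).d 1 0).hom (hh 0 x) = ((SCmap g).f 0).hom x - x) ∧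
      (∀ (i : ℕ) (x : (SC E).X (i + 1)), ((SC E).d (i + 2) (i + 1)).hom (hh (i + 1) x) +
        hh i (((SC E).d (i + 1) i).hom x) = ((SCmap g).f (i + 1)).hom x - x) ∧
      ∀ a : C(E, E), (∀ (s : unitInterval) (x : E), H (s, a x) = a (H (s, x))) →
        ∀ (i : ℕ) (x : (SC E).X i), hh i (((SCmap a).f i).hom x) =
          ((SCmap a).f (i + 1)).hom (hh i x)

/-- **TS** (from TS1).  The chain homotopy over the group ring: an additive map commuting with all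
group elements is linear over the group ring (`MonoidAlgebra.induction_on`). -/
def S_TS : Prop :=
  ∀ (E : Type) [TopologicalSpace E] (Γ : Subgroup (E ≃ₜ E)) (hN : PropN Γ) (g : Γ),
    ∃ hh : ∀ i : ℕ, SX Γ i →ₗ[MonoidAlgebra ℤ Γ] SX Γ (i + 1),
      (∀ x : SX Γ 0, dS Γ 0 (hh 0 x) = (MonoidAlgebra.of ℤ Γ g - 1) • x) ∧
      (∀ (i : ℕ) (x : SX Γ (i + 1)), dS Γ (i + 1) (hh (i + 1) x) + hh i (dS Γ i x) =
        (MonoidAlgebra.of ℤ Γ g - 1) • x)

/-- **TH.** Transfer to a homotopy equivalent complex: `h' = f' h f + t u` where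
`f' f - 1 = - (d u + u d)` (up to sign), `t` central. -/
def S_TH : Prop :=
  ∀ (Λ : Type) [Ring Λ] (S P : ChainComplex (ModuleCat.{0} Λ) ℕ) (E : HomotopyEquiv P S)
    (t : Λ) (ht : ∀ a, t * a = a * t) (hh : ∀ i : ℕ, S.X i →ₗ[Λ] S.X (i + 1))
    (h0 : ∀ x, (S.d 1 0).hom (hh 0 x) = t • x)
    (h1 : ∀ (i : ℕ) (x : S.X (i + 1)), (S.d (i + 2) (i + 1)).hom (hh (i + 1) x) +
      hh i ((S.d (i + 1) i).hom x) = t • x),
    ∃ h : ∀ i : ℕ, P.X i →ₗ[Λ] P.X (i + 1), (∀ x, (P.d 1 0).hom (h 0 x) = t • x) ∧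
      ∀ (i : ℕ) (x : P.X (i + 1)), (P.d (i + 2) (i + 1)).hom (h (i + 1) x) +
        h i ((P.d (i + 1) i).hom x) = t • x

/-- **TOne.** The trivial group: f.g. projective modules over `ℤ[1] ≅ ℤ` are free. -/
def S_TOne : Prop :=
  ∀ (Γ : Type) [Group Γ] [Subsingleton Γ] (M : Type) [AddCommGroup M]
    [Module (MonoidAlgebra ℤ Γ) M] [Module.Finite (MonoidAlgebra ℤ Γ) M]
    [Module.Projective (MonoidAlgebra ℤ Γ) M],
    ∃ r : ℕ, Nonempty (M ≃ₗ[MonoidAlgebra ℤ Γ] (Fin r → MonoidAlgebra ℤ Γ))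

/-- **Main** (from AlgR, TS, TH, TN, TOne).  (A) spaces with property (N) (no covering needed),
(B) path-connected coverings of path-connected H-spaces. -/
def S_MainA : Prop :=
  ∀ (E : Type) [TopologicalSpace E] (Γ : Subgroup (E ≃ₜ E)) (hN : PropN Γ)
    (hc : IsCyclic Γ) (q k : ℕ) (hq : q.Prime) (hk : Nat.card Γ = q ^ k)
    (P : ChainComplex (ModuleCat.{0} (MonoidAlgebra ℤ Γ)) ℕ)
    (hfin : ∀ i, Module.Finite (MonoidAlgebra ℤ Γ) (P.X i))
    (hproj : ∀ i, Module.Projective (MonoidAlgebra ℤ Γ) (P.X i)) (K : ℕ)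
    (hK : ∀ i, 2 * K ≤ i → Subsingleton (P.X i)) (heq : Nonempty (HomotopyEquiv P (singL Γ))),
    ∃ a b : ℕ, (0 < k → a = b) ∧
      Nonempty (((∀ j : Fin K, P.X (2 * j)) × (Fin a → MonoidAlgebra ℤ Γ)) ≃ₗ[MonoidAlgebra ℤ Γ]
        ((∀ j : Fin K, P.X (2 * j + 1)) × (Fin b → MonoidAlgebra ℤ Γ)))

end HSp
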