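import Pool.Agent.Lib.MP_181146_gt.HS.SpecB

/-!
# Project HS, second part: the algebraic main theorem for a complex with a splitting
-/

set_option autoImplicit false

namespace HSp

/-- `M × Λ` with `M = A × Λ^s`. -/
private noncomputable def algGShift (Λ : Type) [CommRing Λ] (A : Type) [AddCommGroup A]
    [Module Λ A] (s : ℕ) : ((A × (Fin s → Λ)) × Λ) ≃ₗ[Λ] (A × (Fin (s + 1) → Λ)) :=
  (LinearEquiv.prodAssoc Λ A (Fin s → Λ) Λ).trans
    ((LinearEquiv.refl Λ A).prodCongr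
      ((LinearEquiv.prodComm Λ (Fin s → Λ) Λ).trans (Fin.consLinearEquiv Λ fun _ => Λ)))

theorem sAlgG (hDMain : S_DMain) (hEPa : S_EPa) (hEQn : S_EQn) : S_AlgG := by
  intro Λ _ n C hn1 X S K hK
  obtain ⟨s, ⟨e⟩⟩ := hDMain Λ hn1 X S K hK
  obtain ⟨e1⟩ := hEQn Λ C.N K s (fun j => X.P (2 * (j : ℕ)))
  obtain ⟨e2⟩ := hEQn Λ C.N K s (fun j => X.P (2 * (j : ℕ) + 1))
  have hp1 : Module.Projective Λ (∀ j : Fin K, X.P (2 * (j : ℕ))) :=
    Module.Projective.of_equiv (DFinsupp.linearEquivFunOnFintype (R := Λ)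
      (M := fun j : Fin K => X.P (2 * (j : ℕ))))
  have hp2 : Module.Projective Λ (∀ j : Fin K, X.P (2 * (j : ℕ) + 1)) :=
    Module.Projective.of_equiv (DFinsupp.linearEquivFunOnFintype (R := Λ)
      (M := fun j : Fin K => X.P (2 * (j : ℕ) + 1)))
  obtain ⟨f⟩ := hEPa Λ n C hn1 ((∀ j : Fin K, X.P (2 * (j : ℕ))) × (Fin s → Λ))
    ((∀ j : Fin K, X.P (2 * (j : ℕ) + 1)) × (Fin s → Λ)) ((e1.trans e).trans e2.symm)
  exact ⟨s + 1, ⟨((algGShift Λ _ s).symm.trans f).trans (algGShift Λ _ s)⟩⟩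

end HSp
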