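import Pool.Agent.Lib.MP_181146_gt.HS.SpecB

/-!
# Project HS, second part, AlgRB: the algebraic theorem over the group ring of a cyclic group
-/

set_option autoImplicit false

namespace HSp

section shift

variable {Λ : Type} [CommRing Λ] (P : ℕ → Type) [∀ i, AddCommGroup (P i)] [∀ i, Module Λ (P i)]

/-- the shifted modules -/
private def arbP (P : ℕ → Type) : ℕ → Type
  | 0 => PUnit
  | i + 1 => P i

private instance arbAc : ∀ i, AddCommGroup (arbP P i)
  | 0 => inferInstanceAs (AddCommGroup PUnit)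
  | i + 1 => inferInstanceAs (AddCommGroup (P i))

private instance arbMo : ∀ i, Module Λ (arbP P i)
  | 0 => inferInstanceAs (Module Λ PUnit)
  | i + 1 => inferInstanceAs (Module Λ (P i))

variable {P}

/-- the shifted differential -/
private def arbD (d : ∀ i, P (i + 1) →ₗ[Λ] P i) : ∀ i, arbP P (i + 1) →ₗ[Λ] arbP P i
  | 0 => 0
  | i + 1 => d i

/-- the shifted contraction -/
private def arbH (h : ∀ i, P i →ₗ[Λ] P (i + 1)) : ∀ i, arbP P i →ₗ[Λ] arbP P (i + 1)
  | 0 => 0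
  | i + 1 => h i

/-- the shifted complex -/
private def arbX {n : ℕ} (C : CycData Λ n)
    (hfi : ∀ i, Module.Finite Λ (P i))
    (hpr : ∀ i, Module.Projective Λ (P i)) (d : ∀ i, P (i + 1) →ₗ[Λ] P i)
    (h : ∀ i, P i →ₗ[Λ] P (i + 1)) (dd : ∀ i x, d i (d (i + 1) x) = 0)
    (dh0 : ∀ x, d 0 (h 0 x) = C.t • x)
    (dh : ∀ i x, d (i + 1) (h (i + 1) x) + h i (d i x) = C.t • x)
    (K : ℕ) (hK : ∀ i, 2 * K ≤ i → Subsingleton (P i)) : Cx Λ C.t :=
  { P := arbP P
    ac := arbAc P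
    mo := arbMo P
    fi := by
      rintro (_ | i)
      · exact inferInstanceAs (Module.Finite Λ PUnit)
      · exact hfi i
    pr := by
      rintro (_ | i)
      · exact inferInstanceAs (Module.Projective Λ PUnit)
      · exact hpr i
    d := arbD d
    h := arbH h
    dd := by
      rintro (_ | i) x
      · rfl
      · exact dd i x
    dh := by
      rintro (_ | i) x
      · have h1 : d 0 (h 0 x) + (0 : P 0) = C.t • x := by rw [add_zero]; exact dh0 x
        exact h1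
      · exact dh i x
    zero := inferInstanceAs (Subsingleton PUnit)
    D := 2 * K
    bdd := by
      rintro (_ | i) hi
      · exact inferInstanceAs (Subsingleton PUnit)
      · exact hK i (by omega) }

end shift

/-- the theorem for a commutative ring with the data `C` -/
private theorem arbGen (hAlgB : S_AlgB) (Λ : Type) [CommRing Λ] (n : ℕ)
    (C : CycData Λ n) (hn : 1 < n) (P : ℕ → Type)
    [∀ i, AddCommGroup (P i)] [∀ i, Module Λ (P i)] (hfi : ∀ i, Module.Finite Λ (P i))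
    (hpr : ∀ i, Module.Projective Λ (P i)) (d : ∀ i, P (i + 1) →ₗ[Λ] P i)
    (h : ∀ i, P i →ₗ[Λ] P (i + 1)) (dd : ∀ i x, d i (d (i + 1) x) = 0)
    (dh0 : ∀ x, d 0 (h 0 x) = C.t • x)
    (dh : ∀ i x, d (i + 1) (h (i + 1) x) + h i (d i x) = C.t • x)
    (K : ℕ) (hK : ∀ i, 2 * K ≤ i → Subsingleton (P i))
    (hb : ∀ p p' : ℕ, p.Prime → p ∣ n → p'.Prime → p' ∣ n → ∀ b b',
      (arbX C hfi hpr d h dd dh0 dh K hK).IsBetti p b →
      (arbX C hfi hpr d h dd dh0 dh K hK).IsBetti p' b' →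
        ∑ i ∈ Finset.range (2 * K + 1), (-1 : ℤ) ^ i * (i : ℤ) * (b i : ℤ) =
        ∑ i ∈ Finset.range (2 * K + 1), (-1 : ℤ) ^ i * (i : ℤ) * (b' i : ℤ)) :
    ∃ s : ℕ, Nonempty (((∀ j : Fin K, P (2 * j)) × (Fin s → Λ)) ≃ₗ[Λ]
      ((∀ j : Fin K, P (2 * j + 1)) × (Fin s → Λ))) := by
  obtain ⟨s, ⟨e⟩⟩ := hAlgB Λ n C hn (arbX C hfi hpr d h dd dh0 dh K hK) (K + 1) (by
    rintro (_ | i) hi
    · omega
    · exact hK i (by omega)) hb
  -- even part
  have e0 : (∀ j : Fin (K + 1), (arbX C hfi hpr d h dd dh0 dh K hK).P (2 * (j : ℕ))) ≃ₗ[Λ]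
      (∀ j : Fin K, P (2 * (j : ℕ) + 1)) :=
    { toFun := fun f j => f j.succ
      invFun := fun f => Fin.cons
        (α := fun j : Fin (K + 1) => (arbX C hfi hpr d h dd dh0 dh K hK).P (2 * (j : ℕ)))
        PUnit.unit f
      map_add' := fun _ _ => rfl
      map_smul' := fun _ _ => rfl
      left_inv := by
        intro f
        funext j
        refine Fin.cases ?_ (fun i => ?_) j
        · exact Subsingleton.elim (α := PUnit) _ _
        · rfl
      right_inv := fun _ => rfl }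
  have hsub : Subsingleton (P (2 * K)) := hK _ le_rfl
  have e1 : (∀ j : Fin (K + 1), (arbX C hfi hpr d h dd dh0 dh K hK).P (2 * (j : ℕ) + 1)) ≃ₗ[Λ]
      (∀ j : Fin K, P (2 * (j : ℕ))) :=
    { toFun := fun f j => f j.castSucc
      invFun := fun f => Fin.snoc (α := fun j : Fin (K + 1) => P (2 * (j : ℕ))) f
        (0 : P (2 * K))
      map_add' := fun _ _ => rfl
      map_smul' := fun _ _ => rfl
      left_inv := by
        intro f
        funext j
        refine Fin.lastCases ?_ (fun i => ?_) j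
        · exact Subsingleton.elim (α := P (2 * K)) _ _
        · exact Fin.snoc_castSucc (α := fun j : Fin (K + 1) => P (2 * (j : ℕ))) _ _ _
      right_inv := by
        intro f
        funext j
        exact Fin.snoc_castSucc (α := fun j : Fin (K + 1) => P (2 * (j : ℕ))) _ _ _ }
  exact ⟨s, ⟨((e1.symm.prodCongr (LinearEquiv.refl Λ _)).trans e.symm).trans
    (e0.prodCongr (LinearEquiv.refl Λ _))⟩⟩

/-! ## the two kinds of quotients -/

private lemma arb_card {Λ : Type} [CommRing Λ] {M M' : Type} [AddCommGroup M] [Module Λ M]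
    [AddCommGroup M'] [Module Λ M'] (S : Submodule Λ M) (S' : Submodule Λ M') (T : AddSubgroup M)
    (T' : AddSubgroup M') (hT : S.toAddSubgroup = T) (hT' : S'.toAddSubgroup = T')
    (f : M →ₗ[Λ] M') (hf : S ≤ S'.comap f) (hf' : T ≤ T'.comap f.toAddMonoidHom) :
    Nat.card (LinearMap.ker (Submodule.mapQ S S' f hf)) =
      Nat.card (QuotientAddGroup.map T T' f.toAddMonoidHom hf').ker ∧
    Nat.card (LinearMap.range (Submodule.mapQ S S' f hf)) =
      Nat.card (QuotientAddGroup.map T T' f.toAddMonoidHom hf').range := by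
  subst hT hT'
  constructor
  · refine Nat.card_congr (Equiv.subtypeEquiv (Equiv.refl _) fun x => ?_)
    induction x using Quotient.inductionOn'
    exact Iff.rfl
  · refine Nat.card_congr (Equiv.subtypeEquiv (Equiv.refl _) fun x => ?_)
    constructor
    · rintro ⟨y, hy⟩
      revert hy
      refine Quotient.inductionOn' y fun a hy => ?_
      exact ⟨(QuotientAddGroup.mk a : M ⧸ S.toAddSubgroup), hy⟩
    · rintro ⟨y, hy⟩
      revert hy
      refine Quotient.inductionOn' y fun a hy => ?_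
      exact ⟨(Submodule.Quotient.mk a : M ⧸ S), hy⟩

private lemma arb_cardQ {Λ : Type} [CommRing Λ] {M : Type} [AddCommGroup M] [Module Λ M]
    (S : Submodule Λ M) (T : AddSubgroup M) (hT : S.toAddSubgroup = T) :
    Nat.card (M ⧸ S) = Nat.card (M ⧸ T) := by
  subst hT
  rfl

private lemma arb_sum (b : ℕ → ℕ) (K : ℕ) (hb0 : b 0 = 0)
    (hs : ∑ i ∈ Finset.range (2 * K + 1), (-1 : ℤ) ^ i * (b i : ℤ) = 0) :
    ∑ i ∈ Finset.range (2 * K + 1), (-1 : ℤ) ^ i * (i : ℤ) * (b i : ℤ) =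
      -∑ i ∈ Finset.range (2 * K), (-1 : ℤ) ^ i * (i : ℤ) * (b (i + 1) : ℤ) := by
  rw [Finset.sum_range_succ'] at hs ⊢
  rw [hb0] at hs ⊢
  simp only [Nat.cast_zero, mul_zero, add_zero] at hs ⊢
  have h1 : ∑ i ∈ Finset.range (2 * K), (-1 : ℤ) ^ (i + 1) * ((i + 1 : ℕ) : ℤ) * (b (i + 1) : ℤ) =
      -∑ i ∈ Finset.range (2 * K), (-1 : ℤ) ^ i * (i : ℤ) * (b (i + 1) : ℤ) +
      ∑ i ∈ Finset.range (2 * K), (-1 : ℤ) ^ (i + 1) * (b (i + 1) : ℤ) := by
    rw [← Finset.sum_neg_distrib, ← Finset.sum_add_distrib]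
    refine Finset.sum_congr rfl fun i _ => ?_
    push_cast
    ring
  rw [h1, hs, add_zero]

section grp

variable {Γ : Type} [CommGroup Γ] (p : ℕ) (g : Γ) (hg : ∀ x : Γ, x ∈ Subgroup.zpowers g)

include hg in
private lemma arb_of (x : Γ) : MonoidAlgebra.of ℤ Γ x - 1 ∈
    Ideal.span {MonoidAlgebra.of ℤ Γ g - 1} := by
  let H : Subgroup Γ :=
    { carrier := {x | MonoidAlgebra.of ℤ Γ x - 1 ∈ Ideal.span {MonoidAlgebra.of ℤ Γ g - 1}}
      one_mem' := by
        change MonoidAlgebra.of ℤ Γ 1 - 1 ∈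
          (Ideal.span {MonoidAlgebra.of ℤ Γ g - 1} : Ideal (MonoidAlgebra ℤ Γ))
        rw [map_one, sub_self]
        exact Ideal.zero_mem _
      mul_mem' := by
        intro a b ha hb
        change MonoidAlgebra.of ℤ Γ (a * b) - 1 ∈
          (Ideal.span {MonoidAlgebra.of ℤ Γ g - 1} : Ideal (MonoidAlgebra ℤ Γ))
        have : MonoidAlgebra.of ℤ Γ (a * b) - 1 = MonoidAlgebra.of ℤ Γ a *
          (MonoidAlgebra.of ℤ Γ b - 1) + (MonoidAlgebra.of ℤ Γ a - 1) := by
          rw [map_mul]; ring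
        rw [this]
        exact Ideal.add_mem _ (Ideal.mul_mem_left _ _ hb) ha
      inv_mem' := by
        intro a ha
        change MonoidAlgebra.of ℤ Γ a⁻¹ - 1 ∈
          (Ideal.span {MonoidAlgebra.of ℤ Γ g - 1} : Ideal (MonoidAlgebra ℤ Γ))
        have h1 : MonoidAlgebra.of ℤ Γ a⁻¹ * MonoidAlgebra.of ℤ Γ a = 1 := by
          rw [← map_mul, inv_mul_cancel, map_one]
        have : MonoidAlgebra.of ℤ Γ a⁻¹ - 1 = -MonoidAlgebra.of ℤ Γ a⁻¹ *
          (MonoidAlgebra.of ℤ Γ a - 1) := by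
          rw [mul_sub, neg_mul, h1]; ring
        rw [this]
        exact Ideal.mul_mem_left _ _ ha }
  have hH : Subgroup.zpowers g ≤ H := by
    rw [Subgroup.zpowers_le]
    exact Ideal.subset_span rfl
  exact hH (hg x)

include hg in
private lemma arb_sub (t : MonoidAlgebra ℤ Γ) (ht : t = MonoidAlgebra.of ℤ Γ g - 1) (M : Type)
    [AddCommGroup M] [Module (MonoidAlgebra ℤ Γ) M] :
    (Ideal.span {t, (p : MonoidAlgebra ℤ Γ)} •
      (⊤ : Submodule (MonoidAlgebra ℤ Γ) M)).toAddSubgroup = CoS Γ p M := by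
  subst ht
  apply le_antisymm
  · intro x hx
    have hx' : x ∈ (Ideal.span {MonoidAlgebra.of ℤ Γ g - 1, (p : MonoidAlgebra ℤ Γ)} •
      (⊤ : Submodule (MonoidAlgebra ℤ Γ) M)) := hx
    refine Submodule.smul_induction_on hx' ?_ ?_
    · intro r hr m _
      obtain ⟨a, b, rfl⟩ := Ideal.mem_span_pair.mp hr
      rw [add_smul, mul_comm a, mul_comm b, mul_smul, mul_smul]
      refine AddSubgroup.add_mem _ ?_ ?_
      · refine AddSubgroup.subset_closure (Or.inl ⟨g, a • m, ?_⟩)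
        rw [sub_smul, one_smul]
      · refine AddSubgroup.subset_closure (Or.inr ⟨b • m, ?_⟩)
        rw [Nat.cast_smul_eq_nsmul (MonoidAlgebra ℤ Γ) p, natCast_zsmul]
    · intro x y hx hy
      exact AddSubgroup.add_mem _ hx hy
  · unfold CoS
    rw [AddSubgroup.closure_le]
    rintro x (⟨g', y, rfl⟩ | ⟨y, rfl⟩)
    · have h1 : MonoidAlgebra.of ℤ Γ g' • y - y = (MonoidAlgebra.of ℤ Γ g' - 1) • y := by
        rw [sub_smul, one_smul]
      rw [h1]
      refine Submodule.smul_mem_smul ?_ trivial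
      exact Ideal.span_mono (Set.singleton_subset_iff.mpr (Set.mem_insert _ _)) (arb_of g hg g')
    · have h1 : (p : ℤ) • y = (p : MonoidAlgebra ℤ Γ) • y := by
        rw [Nat.cast_smul_eq_nsmul (MonoidAlgebra ℤ Γ) p, natCast_zsmul]
      rw [h1]
      exact Submodule.smul_mem_smul (Ideal.subset_span (Set.mem_insert_of_mem _ rfl)) trivial

end grp

theorem sAlgRB (hAlgB : S_AlgB) (hArCyc : S_ArCyc) (hSAll : S_SAll) (hSEx : S_SEx) :
    S_AlgRB := by
  intro Γ _ hΓ hn g hg P _ _ _ _ d h dd dh0 dh K hK hb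
  let _ : CommGroup Γ := IsCyclic.commGroup
  have : Finite Γ := Nat.finite_of_card_ne_zero (by omega)
  obtain ⟨C, hC⟩ := hArCyc Γ g hg hn
  have dh0' : ∀ x, d 0 (h 0 x) = C.t • x := fun x => by rw [hC]; exact dh0 x
  have dh' : ∀ i x, d (i + 1) (h (i + 1) x) + h i (d i x) = C.t • x :=
    fun i x => by rw [hC]; exact dh i x
  have key : ∀ (p : ℕ), p.Prime → p ∣ Nat.card Γ → ∀ b : ℕ → ℕ,
      (arbX C ‹∀ i, Module.Finite (MonoidAlgebra ℤ Γ) (P i)›
        ‹∀ i, Module.Projective (MonoidAlgebra ℤ Γ) (P i)› d h dd dh0' dh' K hK).IsBetti p b →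
      IsBettiP Γ p P d (fun i => b (i + 1)) ∧
      ∑ i ∈ Finset.range (2 * K + 1), (-1 : ℤ) ^ i * (i : ℤ) * (b i : ℤ) =
        -∑ i ∈ Finset.range (2 * K), (-1 : ℤ) ^ i * (i : ℤ) * (b (i + 1) : ℤ) := by
    intro p hp hpn b hB
    set X := arbX C ‹∀ i, Module.Finite (MonoidAlgebra ℤ Γ) (P i)›
        ‹∀ i, Module.Projective (MonoidAlgebra ℤ Γ) (P i)› d h dd dh0' dh' K hK with hX
    have hc : ∀ i, Nat.card (LinearMap.ker (X.dV p (i + 1))) = Nat.card (coMap Γ p (d i)).ker ∧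
        Nat.card (LinearMap.range (X.dV p (i + 1))) = Nat.card (coMap Γ p (d i)).range :=
      fun i => arb_card _ _ _ _ (arb_sub p g hg C.t hC (P (i + 1))) (arb_sub p g hg C.t hC (P i))
        (d i) (smulTop_le_comap _ (d i)) _
    refine ⟨⟨?_, fun i => ?_⟩, ?_⟩
    · have h0 := hB.2 0
      rw [(hc 0).2] at h0
      rw [← h0]
      have hs0 : Subsingleton (X.V p 0) := by
        have : Subsingleton (X.P 0) := inferInstanceAs (Subsingleton PUnit)
        exact (Submodule.mkQ_surjective _).subsingleton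
      have h1 : Nat.card (LinearMap.ker (X.dV p 0)) = Nat.card (X.V p 1) :=
        Nat.card_congr (Equiv.subtypeUnivEquiv fun x => Subsingleton.elim _ _)
      rw [h1]
      exact (arb_cardQ _ _ (arb_sub p g hg C.t hC (P 0))).symm
    · have h0 := hB.2 (i + 1)
      rw [(hc i).1, (hc (i + 1)).2] at h0
      exact h0
    · obtain ⟨S, hS⟩ := hSAll (MonoidAlgebra ℤ Γ) (Nat.card Γ) C X hn
      obtain ⟨⟨r, hr⟩, -⟩ := hSEx (MonoidAlgebra ℤ Γ) (Nat.card Γ) C X hn S.e p hp hpn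
      exact arb_sum b K hB.1 (hS p hp hpn r b hr hB).2
  refine arbGen hAlgB (MonoidAlgebra ℤ Γ) (Nat.card Γ) C hn P
    ‹∀ i, Module.Finite (MonoidAlgebra ℤ Γ) (P i)›
    ‹∀ i, Module.Projective (MonoidAlgebra ℤ Γ) (P i)› d h dd dh0' dh' K hK ?_
  intro p p' hp hpn hp' hpn' b b' h1 h2
  obtain ⟨h3, h4⟩ := key p hp hpn b h1
  obtain ⟨h5, h6⟩ := key p' hp' hpn' b' h2
  rw [h4, h6, hb p p' hp hpn hp' hpn' _ _ h3 h5]

end HSp
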