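import Pool.Agent.Lib.MP_181146_gt.HS.Spec

set_option autoImplicit false

namespace HSp

private lemma arBin_pow {R : Type} [CommRing R] (g : R) (n : ℕ) :
    ∃ c : R, g ^ n = 1 + (n : R) * (g - 1) + (g - 1) ^ 2 * c := by
  induction n with
  | zero => exact ⟨0, by simp⟩
  | succ n ih =>
    obtain ⟨c, hc⟩ := ih
    refine ⟨n + c * g, ?_⟩
    rw [pow_succ, hc]
    push_cast
    ring

theorem sArBin : S_ArBin := by
  intro R _ g n
  induction n with
  | zero => exact ⟨0, by simp⟩
  | succ n ih =>
    obtain ⟨c, hc⟩ := ih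
    obtain ⟨e, he⟩ := arBin_pow g n
    refine ⟨c + e, ?_⟩
    have h : (n + 1).choose 2 = n + n.choose 2 := by
      rw [Nat.choose_succ_succ' n 1, Nat.choose_one_right]
    rw [Finset.sum_range_succ, hc, he, h]
    push_cast
    ring

end HSp
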