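import Pool.Agent.Lib.MP_181146_gt.HS.Spec

/-!
# Project HS, ArCyc: the group ring of a finite cyclic group
-/

set_option autoImplicit false

namespace HSp

theorem sArCyc (hArKT : S_ArKT) (hArKN : S_ArKN) (hArBin : S_ArBin) (hArUnit : S_ArUnit) :
    S_ArCyc := by
  intro Γ _ _ g hg hn
  obtain ⟨eps, he1, he2, he3, he4⟩ := hArKN Γ g hg
  obtain ⟨c, hc⟩ := hArBin (MonoidAlgebra ℤ Γ) (MonoidAlgebra.of ℤ Γ g) (Nat.card Γ)
  have hgn : (MonoidAlgebra.of ℤ Γ g) ^ (Nat.card Γ) = 1 := by
    rw [← map_pow, pow_card_eq_one', map_one]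
  have hsum : ∀ r : ℕ, eps (∑ i ∈ Finset.range r, MonoidAlgebra.of ℤ Γ g ^ i) = r := by
    intro r
    rw [map_sum]
    simp only [map_pow, he1, one_pow, Finset.sum_const, Finset.card_range, nsmul_eq_mul, mul_one]
  refine ⟨{ t := MonoidAlgebra.of ℤ Γ g - 1
            N := ∑ i ∈ Finset.range (Nat.card Γ), MonoidAlgebra.of ℤ Γ g ^ i
            eps := eps
            eps_t := ?_
            eps_N := hsum _
            ker_eps := he2
            tN := ?_
            ker_t := ?_
            ker_N := ?_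
            c := c
            N_eq := hc
            unit := ?_
            fin := ?_
            free := ?_ }, rfl⟩
  · rw [map_sub, he1, map_one, sub_self]
  · rw [mul_comm, geom_sum_mul, hgn, sub_self]
  · intro x hx
    obtain ⟨m, hm⟩ := hArKT Γ g hg x hx
    refine ⟨(m : MonoidAlgebra ℤ Γ), ?_⟩
    rw [hm, zsmul_eq_mul, mul_comm]
  · intro x hx
    refine he2 x (he4 _ ?_)
    rw [← he3 x, hx]
  · intro r hr
    obtain ⟨w, z, hwz⟩ := hArUnit (MonoidAlgebra ℤ Γ) (MonoidAlgebra.of ℤ Γ g) (Nat.card Γ) hn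
      hgn r hr
    exact ⟨_, w, z, hwz, hsum r⟩
  · infer_instance
  · infer_instance

end HSp
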