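import Pool.Agent.Lib.MP_181146_gt.HS.Spec

/-!
# Project HS: module ArKN, the augmentation of the group ring of a finite cyclic group
-/

set_option autoImplicit false

namespace HSp

section ArKN

variable {Γ : Type} [CommGroup Γ]

private theorem arKN_pow (g : Γ) (m : ℕ) :
    ∃ y : MonoidAlgebra ℤ Γ, MonoidAlgebra.of ℤ Γ g ^ m - 1 = (MonoidAlgebra.of ℤ Γ g - 1) * y :=
  ⟨∑ i ∈ Finset.range m, MonoidAlgebra.of ℤ Γ g ^ i, (mul_geom_sum _ _).symm⟩

private theorem arKN_exp [Finite Γ] (g : Γ) (hg : ∀ x : Γ, x ∈ Subgroup.zpowers g) (h : Γ) :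
    ∃ m : ℕ, g ^ m = h := by
  classical
  have h1 := hg h
  rw [mem_zpowers_iff_mem_range_orderOf] at h1
  obtain ⟨m, -, hm⟩ := Finset.mem_image.mp h1
  exact ⟨m, hm⟩

private theorem arKN_G (g : Γ) : (∑ i ∈ Finset.range (Nat.card Γ), MonoidAlgebra.of ℤ Γ g ^ i)
    * MonoidAlgebra.of ℤ Γ g = ∑ i ∈ Finset.range (Nat.card Γ), MonoidAlgebra.of ℤ Γ g ^ i := by
  have h1 : MonoidAlgebra.of ℤ Γ g ^ Nat.card Γ = 1 := by
    rw [← map_pow, pow_card_eq_one', map_one]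
  have h2 := geom_sum_mul (MonoidAlgebra.of ℤ Γ g) (Nat.card Γ)
  rw [h1, sub_self, mul_sub, mul_one, sub_eq_zero] at h2
  exact h2

private theorem arKN_Gm (g : Γ) (m : ℕ) :
    (∑ i ∈ Finset.range (Nat.card Γ), MonoidAlgebra.of ℤ Γ g ^ i)
    * MonoidAlgebra.of ℤ Γ g ^ m
      = ∑ i ∈ Finset.range (Nat.card Γ), MonoidAlgebra.of ℤ Γ g ^ i := by
  induction m with
  | zero => rw [pow_zero, mul_one]
  | succ m ih => rw [pow_succ, ← mul_assoc, ih, arKN_G]

private theorem arKN_one [Finite Γ] (g : Γ) :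
    0 < (∑ i ∈ Finset.range (Nat.card Γ), MonoidAlgebra.of ℤ Γ g ^ i).coeff 1 := by
  classical
  rw [MonoidAlgebra.coeff_sum, Finsupp.finsetSum_apply]
  have h0 : ∀ i : ℕ, (MonoidAlgebra.of ℤ Γ g ^ i).coeff 1 = if g ^ i = 1 then 1 else 0 := by
    intro i
    rw [← map_pow]
    simp [MonoidAlgebra.of_apply, Finsupp.single_apply]
  have h1 : (0 : ℕ) ∈ Finset.range (Nat.card Γ) := Finset.mem_range.mpr Nat.card_pos
  have h2 := Finset.single_le_sum (f := fun i : ℕ => (MonoidAlgebra.of ℤ Γ g ^ i).coeff 1)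
    (fun i _ => by
      show (0 : ℤ) ≤ (MonoidAlgebra.of ℤ Γ g ^ i).coeff 1
      rw [h0]
      split_ifs <;> norm_num) h1
  have h3 : (MonoidAlgebra.of ℤ Γ g ^ 0).coeff 1 = 1 := by
    rw [h0]
    simp
  change (MonoidAlgebra.of ℤ Γ g ^ 0).coeff 1 ≤ _ at h2
  rw [h3] at h2
  exact lt_of_lt_of_le one_pos h2

end ArKN

theorem sArKN : S_ArKN := by
  intro Γ _ _ g hg
  let eps : MonoidAlgebra ℤ Γ →+* ℤ := (MonoidAlgebra.lift ℤ ℤ Γ (1 : Γ →* ℤ)).toRingHom
  have he : ∀ h : Γ, eps (MonoidAlgebra.of ℤ Γ h) = 1 := by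
    intro h
    change MonoidAlgebra.lift ℤ ℤ Γ (1 : Γ →* ℤ) (MonoidAlgebra.of ℤ Γ h) = 1
    rw [MonoidAlgebra.lift_of]
    rfl
  have key : ∀ x : MonoidAlgebra ℤ Γ, ∃ y, x - eps x • (1 : MonoidAlgebra ℤ Γ)
      = (MonoidAlgebra.of ℤ Γ g - 1) * y := by
    intro x
    induction x using MonoidAlgebra.induction_on with
    | of h =>
      obtain ⟨m, rfl⟩ := arKN_exp g hg h
      rw [he, one_smul, map_pow]
      exact arKN_pow g m
    | add a b ha hb =>
      obtain ⟨y, hy⟩ := ha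
      obtain ⟨z, hz⟩ := hb
      refine ⟨y + z, ?_⟩
      rw [mul_add, ← hy, ← hz, map_add, add_smul]
      abel
    | smul r a ha =>
      obtain ⟨y, hy⟩ := ha
      refine ⟨r • y, ?_⟩
      rw [mul_smul_comm, ← hy, map_zsmul, smul_sub, smul_eq_mul, mul_smul]
  have key2 : ∀ x : MonoidAlgebra ℤ Γ,
      (∑ i ∈ Finset.range (Nat.card Γ), MonoidAlgebra.of ℤ Γ g ^ i) * x
        = eps x • ∑ i ∈ Finset.range (Nat.card Γ), MonoidAlgebra.of ℤ Γ g ^ i := by
    intro x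
    induction x using MonoidAlgebra.induction_on with
    | of h =>
      obtain ⟨m, rfl⟩ := arKN_exp g hg h
      rw [he, one_smul, map_pow, arKN_Gm]
    | add a b ha hb => rw [mul_add, ha, hb, map_add, add_smul]
    | smul r a ha => rw [mul_smul_comm, ha, map_zsmul, smul_eq_mul, mul_smul]
  refine ⟨eps, he, fun x hx => ?_, key2, fun m hm => ?_⟩
  · obtain ⟨y, hy⟩ := key x
    rw [hx, zero_smul, sub_zero] at hy
    exact ⟨y, hy⟩
  · have h1 := arKN_one g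
    have h2 := congrArg (fun z : MonoidAlgebra ℤ Γ => z.coeff 1) hm
    simp only [MonoidAlgebra.coeff_smul, Finsupp.smul_apply, smul_eq_mul] at h2
    have h3 : m * (∑ i ∈ Finset.range (Nat.card Γ), MonoidAlgebra.of ℤ Γ g ^ i).coeff 1 = 0 := by
      rw [h2]
      simp
    exact (mul_eq_zero.mp h3).resolve_right h1.ne'

end HSp
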