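import Pool.Agent.Lib.MP_181146_gt.HS.Spec

set_option autoImplicit false

namespace HSp

/-- The powers `g ^ i`, `i < |Γ|`, of a generator run once through `Γ`. -/
private lemma arKT_sum {Γ : Type} [CommGroup Γ] [Fintype Γ] (g : Γ)
    (hg : ∀ x : Γ, x ∈ Subgroup.zpowers g) {A : Type} [AddCommMonoid A] (f : Γ → A) :
    ∑ i ∈ Finset.range (Nat.card Γ), f (g ^ i) = ∑ x : Γ, f x := by
  classical
  have h1 : orderOf g = Nat.card Γ := orderOf_eq_card_of_forall_mem_zpowers hg
  rw [← h1]
  have h2 : (Finset.univ : Finset Γ) = (Finset.range (orderOf g)).image fun i => g ^ i := by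
    ext x
    simp only [Finset.mem_univ, true_iff, Finset.mem_image, Finset.mem_range]
    obtain ⟨i, hi, hx⟩ := (mem_zpowers_iff_mem_range_orderOf (x := g) (y := x)).1 (hg x) |>
      Finset.mem_image.1
    exact ⟨i, Finset.mem_range.1 hi, hx⟩
  rw [h2, Finset.sum_image]
  intro i hi j hj hij
  exact pow_injOn_Iio_orderOf (by simpa using hi) (by simpa using hj) hij

theorem sArKT : S_ArKT := by
  intro Γ _ _ g hg x hx
  classical
  have := Fintype.ofFinite Γ
  have h1 : MonoidAlgebra.of ℤ Γ g * x = x := by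
    have h := hx
    rw [sub_mul, one_mul, sub_eq_zero] at h
    exact h
  have h2 : ∀ y : Γ, x.coeff (g * y) = x.coeff y := by
    intro y
    have h := congrArg (fun z : MonoidAlgebra ℤ Γ => z.coeff (g * y)) h1
    simp only [MonoidAlgebra.of_apply, MonoidAlgebra.coeff_single_mul_apply] at h
    simpa using h.symm
  have h3 : ∀ i : ℕ, x.coeff (g ^ i) = x.coeff 1 := by
    intro i
    induction i with
    | zero => simp
    | succ i ih => rw [pow_succ', h2, ih]
  have h4 : ∀ y : Γ, x.coeff y = x.coeff 1 := by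
    intro y
    obtain ⟨i, hi⟩ := mem_powers_iff_mem_zpowers.2 (hg y)
    have h := h3 i
    change g ^ i = y at hi
    rw [hi] at h
    exact h
  refine ⟨x.coeff 1, ?_⟩
  have h5 : ∑ i ∈ Finset.range (Nat.card Γ), MonoidAlgebra.of ℤ Γ g ^ i =
      ∑ y : Γ, MonoidAlgebra.of ℤ Γ y := by
    rw [← arKT_sum g hg]
    exact Finset.sum_congr rfl fun i _ => (map_pow _ _ _).symm
  rw [h5]
  ext y
  rw [h4 y]
  rw [MonoidAlgebra.coeff_smul, MonoidAlgebra.coeff_sum, Finsupp.smul_apply,
    Finsupp.finsetSum_apply]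
  simp [MonoidAlgebra.of_apply, Finsupp.single_apply]

end HSp
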