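import Pool.Agent.Lib.MP_181146_gt.HS.Spec

set_option autoImplicit false

namespace HSp

private theorem geom_mul {R : Type} [CommRing R] (g : R) (r s : ℕ) :
    (∑ i ∈ Finset.range r, g ^ i) * (∑ i ∈ Finset.range s, (g ^ r) ^ i) =
      ∑ i ∈ Finset.range (r * s), g ^ i := by
  induction s with
  | zero => simp
  | succ s ih =>
    rw [Finset.sum_range_succ, mul_add, ih, Nat.mul_succ, Finset.sum_range_add]
    congr 1
    rw [Finset.sum_mul]
    refine Finset.sum_congr rfl fun i _ => ?_
    rw [← pow_mul, ← pow_add, add_comm]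

theorem sArUnit : S_ArUnit := by
  intro R _ g n hn hg r hr
  obtain ⟨s, -, hs⟩ := Nat.exists_mul_mod_eq_one_of_coprime hr hn
  refine ⟨∑ i ∈ Finset.range s, (g ^ r) ^ i,
    g * ∑ i ∈ Finset.range (r * s / n), (g ^ n) ^ i, ?_⟩
  rw [geom_mul]
  have h1 : r * s = n * (r * s / n) + 1 := by
    have := Nat.div_add_mod (r * s) n
    rw [hs] at this
    exact this.symm
  have h2 : (∑ i ∈ Finset.range n, g ^ i) * (g * ∑ i ∈ Finset.range (r * s / n), (g ^ n) ^ i) =
      g * ∑ i ∈ Finset.range (n * (r * s / n)), g ^ i := by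
    rw [← geom_mul]
    ring
  rw [h2]
  conv_lhs => rw [h1]
  rw [Finset.sum_range_succ', pow_zero, add_comm, Finset.mul_sum]
  congr 1
  exact Finset.sum_congr rfl fun i _ => by rw [pow_succ, mul_comm]

end HSp
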