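import Pool.Agent.Lib.MP_181146_gt.HS.Spec

/-!
# Project HS: the Bockstein formula (`S_CBo`)
-/

set_option autoImplicit false

namespace HSp

private theorem CBo_N {Λ : Type} [CommRing Λ] {n : ℕ} (C : CycData Λ n) {M : Type}
    [AddCommGroup M] [Module Λ M] (v : M) :
    C.N • v = n • v + C.t • ((n.choose 2) • v + C.t • (C.c • v)) := by
  have h := congrArg (fun r : Λ => r • v) C.N_eq
  simp only [add_smul, mul_smul, Nat.cast_smul_eq_nsmul] at h
  rw [h, smul_add, sq, mul_smul, add_assoc]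
  congr 2
  exact smul_comm _ _ _

theorem sCBo (hPrTN : S_PrTN) (hPrKt : S_PrKt) (hCqZ : S_CqZ) : S_CBo := by
  intro Λ _ n C X hn O i x hx
  have hqt : ∀ k (v : X.P k), X.q k (C.t • v) = 0 := fun k v =>
    (hCqZ Λ n C X k _).2 ⟨v, 0, by rw [smul_zero, add_zero]⟩
  have key : ∀ (i : ℕ) (u : X.P (i + 2)) (y z : X.P (i + 1)),
      X.d (i + 1) u = C.t • y + C.N • z →
      X.q i (X.d i z) = 0 ∧ ∃ z', X.d i y = C.N • z' := by
    intro i u y z h
    have h0 := X.dd i u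
    rw [h, map_add, map_smul, map_smul] at h0
    have h1 : C.t • X.d i y = C.N • (-(X.d i z)) := by
      rw [smul_neg]
      exact eq_neg_of_add_eq_zero_left h0
    obtain ⟨h2, h3⟩ := hPrTN Λ n C (X.P i) hn _ _ h1
    rw [smul_neg, neg_eq_zero] at h3
    obtain ⟨z3, hz3⟩ := (hPrKt Λ n C (X.P i) (X.d i z)).2 h3
    refine ⟨?_, (hPrKt Λ n C (X.P i) (X.d i y)).1 h2⟩
    rw [hz3]
    exact hqt i z3
  obtain ⟨a, rfl⟩ := X.q_surj (i + 1) x
  obtain ⟨y', hy'⟩ := O.s_sub (i + 1) a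
  have h1 : O.s (i + 1) a = a - C.t • y' := eq_sub_of_add_eq hy'.symm
  have hqu : X.q (i + 1) (O.s (i + 1) a) = X.q (i + 1) a := by
    rw [h1, map_sub, hqt, sub_zero]
  have hda : X.q i (X.d i a) = 0 := by
    rw [← X.dF_q]
    exact hx
  obtain ⟨a', b, hab⟩ := (hCqZ Λ n C X i _).1 hda
  have hsda : O.s i (X.d i a) = n • O.s i b := by
    rw [hab, map_add, O.s_t, zero_add, CBo_N C b, map_add, O.s_t, add_zero, map_nsmul]
  obtain ⟨y2, hy2⟩ := O.s_sub i (X.d i a)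
  have h2 : O.s i (X.d i a) = X.d i a - C.t • y2 := eq_sub_of_add_eq hy2.symm
  have hdu : X.d i (O.s (i + 1) a) = O.s i (X.d i a) + C.t • (y2 - X.d i y') := by
    rw [h1, map_sub, map_smul, h2, smul_sub]
    abel
  have hω := O.spec i a _ hdu
  obtain ⟨z, hz⟩ : ∃ z, z = O.s i b := ⟨_, rfl⟩
  obtain ⟨w, hw⟩ : ∃ w, w = y2 - X.d i y' := ⟨_, rfl⟩
  rw [← hz] at hsda
  rw [← hw] at hdu hω
  rw [hsda] at hdu
  have hdu2 : X.d i (O.s (i + 1) a)
      = C.t • (w - ((n.choose 2) • z + C.t • (C.c • z))) + C.N • z := by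
    rw [hdu, CBo_N C z, smul_sub]
    abel
  refine ⟨O.s (i + 1) a, w - ((n.choose 2) • z + C.t • (C.c • z)), z, hdu2, hqu, ?_, ?_, ?_⟩
  · rw [hω, map_sub, map_add, hqt, add_zero, map_nsmul, natCast_zsmul, sub_add_cancel]
  · cases i with
    | zero => trivial
    | succ j => exact (key j _ _ _ hdu2).1
  · cases i with
    | zero => trivial
    | succ j => exact (key j _ _ _ hdu2).2

end HSp
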