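import Pool.Agent.Lib.MP_181146_gt.HS.Spec

/-!
# Project HS, statement CF1: injectivity of `H(P/N) → H(F)`
-/

set_option autoImplicit false

namespace HSp

theorem sCF1 (hPrTN : S_PrTN) (hPrKt : S_PrKt) (hCqZ : S_CqZ) : S_CF1 := by
  intro Λ _ n C X hn i u z0 hu w hw
  obtain ⟨v, rfl⟩ := X.q_surj (i + 2) w
  have h0 : X.q (i + 1) (u - X.d (i + 1) v) = 0 := by
    rw [map_sub, hw, X.dF_q, sub_self]
  obtain ⟨y, z, hyz⟩ := (hCqZ Λ n C X (i + 1) _).1 h0
  have hd : C.t • X.d i y = C.N • (z0 - X.d i z) := by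
    have h1 : X.d i (u - X.d (i + 1) v) = C.t • X.d i y + C.N • X.d i z := by
      rw [hyz, map_add, map_smul, map_smul]
    rw [map_sub, X.dd, sub_zero, hu] at h1
    rw [smul_sub, h1, add_sub_cancel_right]
  obtain ⟨b, hb⟩ := (hPrKt Λ n C (X.P i) (X.d i y)).1
    (hPrTN Λ n C (X.P i) hn (X.d i y) (z0 - X.d i z) hd).1
  refine ⟨v + X.h (i + 1) y, X.h i b + z, ?_⟩
  have h3 : X.d (i + 1) (X.h (i + 1) y) + C.N • X.h i b = C.t • y := by
    rw [← map_smul, ← hb]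
    exact X.dh i y
  have h4 : u = X.d (i + 1) v + (C.t • y + C.N • z) := by
    rw [← hyz, add_sub_cancel]
  calc u = X.d (i + 1) v + (C.t • y + C.N • z) := h4
    _ = X.d (i + 1) v + ((X.d (i + 1) (X.h (i + 1) y) + C.N • X.h i b) + C.N • z) := by rw [h3]
    _ = X.d (i + 1) (v + X.h (i + 1) y) + C.N • (X.h i b + z) := by
      rw [map_add, smul_add]
      abel

end HSp
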