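import Pool.Agent.Lib.MP_181146_gt.HS.Spec

/-!
# Project HS, statement CF4: `K` and `η K` are independent modulo boundaries
-/

set_option autoImplicit false

namespace HSp

theorem sCF4 (hPrTN : S_PrTN) (hPrKt : S_PrKt) (hCqZ : S_CqZ) : S_CF4 := by
  intro Λ _ n C X hn i u v z0 hu hv w h
  have hqt : ∀ k (x : X.P k), X.q k (C.t • x) = 0 := fun k x =>
    (hCqZ Λ n C X k _).2 ⟨x, 0, by rw [smul_zero, add_zero]⟩
  have hqN : ∀ k (x : X.P k), X.q k (C.N • x) = 0 := fun k x =>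
    (hCqZ Λ n C X k _).2 ⟨0, x, by rw [smul_zero, zero_add]⟩
  cases i with
  | zero =>
    have hs := X.zero
    have h4 : v = 0 := Subsingleton.elim _ _
    rw [h4, map_zero, map_zero, add_zero] at h
    exact ⟨w, h⟩
  | succ k =>
    obtain ⟨z1, hz1⟩ := hv
    obtain ⟨b0, rfl⟩ := X.q_surj (k + 1 + 2) w
    have h0 : X.q (k + 1 + 1) (u + X.h (k + 1) v - X.d (k + 1 + 1) b0) = 0 := by
      rw [map_sub, map_add, ← X.eta_q, h, X.dF_q, sub_self]
    obtain ⟨c1, c2, hc⟩ := (hCqZ Λ n C X (k + 1 + 1) _).1 h0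
    have hdh : X.d (k + 1) (X.h (k + 1) v) = C.t • v - C.N • X.h k z1 := by
      have h1 := X.dh k v
      rw [hz1, map_smul] at h1
      exact eq_sub_of_add_eq h1
    have h2 : C.t • (v - X.d (k + 1) c1) = C.N • (X.d (k + 1) c2 - z0 + X.h k z1) := by
      have h3 : X.d (k + 1) (u + X.h (k + 1) v - X.d (k + 1 + 1) b0)
          = C.t • X.d (k + 1) c1 + C.N • X.d (k + 1) c2 := by
        rw [hc, map_add, map_smul, map_smul]
      rw [map_sub, map_add, X.dd, sub_zero, hu, hdh] at h3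
      have h5 : C.t • v = C.t • X.d (k + 1) c1 + C.N • X.d (k + 1) c2 - C.N • z0
          + C.N • X.h k z1 := by
        rw [← h3]
        abel
      rw [smul_sub, h5, smul_add, smul_sub]
      abel
    obtain ⟨h3, -⟩ := hPrTN Λ n C (X.P (k + 1)) hn _ _ h2
    obtain ⟨b, hb⟩ := (hPrKt Λ n C (X.P (k + 1)) _).1 h3
    have hqv : X.q (k + 1) v = X.q (k + 1) (X.d (k + 1) c1) := by
      have h4 : v = X.d (k + 1) c1 + C.N • b := by
        rw [← hb]
        abel
      rw [h4, map_add, hqN, add_zero]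
    have heta : X.eta (k + 1) (X.q (k + 1) v)
        = -(X.dF (k + 1 + 1) (X.eta (k + 1 + 1) (X.q (k + 1 + 1) c1))) := by
      rw [hqv, X.eta_q, X.eta_q, X.dF_q, ← map_neg]
      have h4 := X.dh (k + 1) c1
      have h5 : X.h (k + 1) (X.d (k + 1) c1)
          = C.t • c1 + -(X.d (k + 1 + 1) (X.h (k + 1 + 1) c1)) := by
        rw [← h4]
        abel
      rw [h5, map_add, hqt, zero_add]
    refine ⟨X.q (k + 1 + 2) b0 + X.eta (k + 1 + 1) (X.q (k + 1 + 1) c1), ?_⟩
    have h6 : X.q (k + 1 + 1) u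
        = X.dF (k + 1 + 1) (X.q (k + 1 + 2) b0) - X.eta (k + 1) (X.q (k + 1) v) :=
      eq_sub_of_add_eq h
    rw [h6, heta, sub_neg_eq_add]
    exact (map_add _ _ _).symm

end HSp
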