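import Pool.Agent.Lib.MP_181146_gt.HS.Spec

/-!
# Project HS: module CIdm (common idempotent power)
-/

set_option autoImplicit false

namespace HSp

/-- In a finite monoid every element has an idempotent positive power. -/
private theorem CIdm_one {M : Type} [Monoid M] [Finite M] (a : M) :
    ∃ m : ℕ, 0 < m ∧ a ^ m * a ^ m = a ^ m := by
  obtain ⟨p, q, hpq, h⟩ := Finite.exists_ne_map_eq_of_infinite (fun k : ℕ => a ^ k)
  wlog hlt : p < q generalizing p q
  · exact this q p hpq.symm h.symm (lt_of_le_of_ne (not_lt.mp hlt) hpq.symm)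
  obtain ⟨d, hd⟩ := Nat.exists_eq_add_of_lt hlt
  -- `a ^ (n + (d + 1)) = a ^ n` for `n ≥ p`
  have h1 : ∀ n, p ≤ n → a ^ (n + (d + 1)) = a ^ n := by
    intro n hn
    obtain ⟨e, rfl⟩ := Nat.exists_eq_add_of_le hn
    have h2 : a ^ p = a ^ (p + d + 1) := by
      have h4 : a ^ p = a ^ q := h
      rw [h4, hd]
    calc a ^ (p + e + (d + 1)) = a ^ (p + d + 1) * a ^ e := by rw [← pow_add]; congr 1; ring
      _ = a ^ p * a ^ e := by rw [← h2]
      _ = a ^ (p + e) := by rw [← pow_add]
  have h3 : ∀ k n, p ≤ n → a ^ (n + k * (d + 1)) = a ^ n := by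
    intro k
    induction k with
    | zero => intro n _; simp
    | succ k ih =>
      intro n hn
      have : n + (k + 1) * (d + 1) = (n + k * (d + 1)) + (d + 1) := by ring
      rw [this, h1 _ (by omega), ih n hn]
  refine ⟨(p + 1) * (d + 1), by positivity, ?_⟩
  rw [← pow_add]
  refine h3 (p + 1) _ ?_
  nlinarith

private theorem CIdm_mul {M : Type} [Monoid M] (a : M) (m k : ℕ) (h : a ^ m * a ^ m = a ^ m)
    (hk : 0 < k) : a ^ (m * k) * a ^ (m * k) = a ^ (m * k) := by
  obtain ⟨j, rfl⟩ := Nat.exists_eq_succ_of_ne_zero hk.ne'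
  have hi : IsIdempotentElem (a ^ m) := h
  rw [pow_mul, hi.pow_succ_eq]
  exact h

theorem sCIdm : S_CIdm := by
  intro Λ _ F _ _ hF D hD a
  have hex : ∀ i, ∃ m : ℕ, 0 < m ∧ ((a i : Module.End Λ (F i)) ^ m) *
      (a i : Module.End Λ (F i)) ^ m = (a i : Module.End Λ (F i)) ^ m := by
    intro i
    have := hF i
    have : Finite (Module.End Λ (F i)) :=
      Finite.of_injective (fun f : Module.End Λ (F i) => (f : F i → F i)) DFunLike.coe_injective
    exact CIdm_one _
  choose m hm0 hm using hex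
  refine ⟨∏ i ∈ Finset.range (D + 1), m i, Finset.prod_pos fun i _ => hm0 i, fun i => ?_⟩
  by_cases hi : i ≤ D
  · have hmem : i ∈ Finset.range (D + 1) := Finset.mem_range.mpr (by omega)
    rw [← Finset.mul_prod_erase _ _ hmem]
    exact CIdm_mul _ _ _ (hm i) (Finset.prod_pos fun j _ => hm0 j)
  · have := hD i (by omega)
    apply LinearMap.ext
    intro x
    exact Subsingleton.elim _ _

end HSp
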