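import Pool.Agent.Lib.MP_181146_gt.HS.Spec

set_option autoImplicit false
set_option linter.unusedVariables false

namespace HSp

theorem sCOd (hPrKt : S_PrKt) (hPrTN : S_PrTN) (hCqZ : S_CqZ) : S_COd := by
  intro Λ _ n C X hn O i x
  obtain ⟨a, rfl⟩ := X.q_surj (i + 2) x
  obtain ⟨y, hy⟩ := O.s_sub (i + 2) a
  obtain ⟨y', hy'⟩ := O.s_sub (i + 1) (X.d (i + 1) a)
  have h1 : X.d (i + 1) (O.s (i + 2) a)
      = O.s (i + 1) (X.d (i + 1) a) + C.t • (y' - X.d (i + 1) y) := by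
    have h2 : X.d (i + 1) a = X.d (i + 1) (O.s (i + 2) a) + C.t • X.d (i + 1) y := by
      rw [← map_smul, ← map_add, ← hy]
    have h3 : X.d (i + 1) (O.s (i + 2) a) = X.d (i + 1) a - C.t • X.d (i + 1) y :=
      eq_sub_of_add_eq h2.symm
    rw [h3, smul_sub, ← add_sub_assoc, ← hy']
  have h4 : X.d i (O.s (i + 1) (X.d (i + 1) a))
      = O.s i (X.d i (X.d (i + 1) a)) + C.t • (-(X.d i (y' - X.d (i + 1) y))) := by
    have h5 : O.s (i + 1) (X.d (i + 1) a)
        = X.d (i + 1) (O.s (i + 2) a) - C.t • (y' - X.d (i + 1) y) :=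
      eq_sub_of_add_eq h1.symm
    rw [h5, map_sub, X.dd, map_smul, X.dd, map_zero, smul_neg, zero_sub, zero_add]
  rw [X.dF_q, O.spec (i + 1) a _ h1, O.spec i (X.d (i + 1) a) _ h4, X.dF_q, map_neg]
  exact add_neg_cancel _

end HSp
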