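import Pool.Agent.Lib.MP_181146_gt.HS.Spec

/-!
# Project HS, COm: construction of the operator `ω`
-/

set_option linter.unusedVariables false
set_option autoImplicit false

namespace HSp

private lemma om_ex {Λ : Type} [CommRing Λ] {n : ℕ} {C : CycData Λ n} (X : Cx Λ C.t)
    (s : ∀ i, X.P i →+ X.P i) (hs : ∀ i x, ∃ y, x = s i x + C.t • y)
    (i : ℕ) (x : X.P (i + 1)) :
    ∃ w, X.d i (s (i + 1) x) = s i (X.d i x) + C.t • w := by
  obtain ⟨y, hy⟩ := hs (i + 1) x
  obtain ⟨z, hz⟩ := hs i (X.d i x)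
  refine ⟨z - X.d i y, ?_⟩
  have h1 : X.d i x = X.d i (s (i + 1) x) + C.t • X.d i y := by
    conv_lhs => rw [hy]
    rw [map_add, map_smul]
  have h2 : X.d i (s (i + 1) x) = X.d i x - C.t • X.d i y := eq_sub_of_add_eq h1.symm
  have h3 : s i (X.d i x) + C.t • (z - X.d i y) =
      (s i (X.d i x) + C.t • z) - C.t • X.d i y := by
    rw [smul_sub]; abel
  rw [h3, ← hz, h2]

theorem sCOm (hPrTN : S_PrTN) (hPrKt : S_PrKt) (hPrSec : S_PrSec) (hCqZ : S_CqZ)
    (hCqF : S_CqF) : S_COm := by
  intro Λ _ n C X hn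
  have hsec : ∀ i, ∃ s : X.P i →+ X.P i, (∀ x, s (C.t • x) = 0) ∧
      ∀ x, ∃ y, x = s x + C.t • y := fun i => hPrSec Λ n C (X.P i)
  choose s hst hs using hsec
  -- existence and uniqueness of `w`
  have hex := fun i (x : X.P (i + 1)) => om_ex X s hs i x
  choose w hw using hex
  have huniq : ∀ i (a b : X.P i), C.t • a = C.t • b → X.q i a = X.q i b := by
    intro i a b hab
    have h0 : C.t • (a - b) = 0 := by rw [smul_sub, hab, sub_self]
    obtain ⟨y, hy⟩ := (hPrKt Λ n C (X.P i) (a - b)).1 h0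
    have h1 : X.q i (a - b) = 0 :=
      (hCqZ Λ n C X i (a - b)).2 ⟨0, y, by rw [smul_zero, zero_add]; exact hy⟩
    rw [map_sub] at h1
    exact sub_eq_zero.1 h1
  have hspec : ∀ i (x : X.P (i + 1)) (v : X.P i),
      X.d i (s (i + 1) x) = s i (X.d i x) + C.t • v → X.q i (w i x) = X.q i v := by
    intro i x v hv
    apply huniq
    have := (hw i x).symm.trans hv
    exact add_left_cancel this
  -- the additive map
  let om : ∀ i, X.P (i + 1) →+ X.F i := fun i =>
    { toFun := fun x => X.q i (w i x)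
      map_zero' := by
        rw [hspec i 0 0 (by simp), map_zero]
      map_add' := fun x y => by
        rw [← map_add]
        apply hspec
        rw [map_add, map_add, map_add, map_add, hw i x, hw i y, smul_add]
        abel }
  have homd : ∀ i x, om i x = X.q i (w i x) := fun i x => rfl
  -- vanishing on `t P`
  have hom_t : ∀ i (a : X.P (i + 1)), om i (C.t • a) = 0 := by
    intro i a
    rw [homd, hspec i (C.t • a) 0, map_zero]
    rw [hst, map_zero, map_smul, hst, smul_zero, add_zero]
  -- the section on `N b`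
  have hsN : ∀ i (b : X.P i), s i (C.N • b) = (n : ℤ) • s i b := by
    intro i b
    have h1 : C.N • b = (n : ℤ) • b + C.t • (((n.choose 2 : Λ) + C.t * C.c) • b) := by
      conv_lhs => rw [C.N_eq]
      have h2 : ((n : ℕ) : ℤ) • b = (n : Λ) • b := by
        rw [natCast_zsmul, Nat.cast_smul_eq_nsmul]
      rw [h2, smul_smul, ← add_smul]
      congr 1
      ring
    rw [h1, map_add, hst, add_zero, map_zsmul]
  have hom_N : ∀ i (b : X.P (i + 1)), om i (C.N • b) = 0 := by
    intro i b
    rw [homd, hspec i (C.N • b) ((n : ℤ) • w i b)]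
    · rw [map_zsmul]
      exact (hCqF Λ n C X hn i).2.1 _
    · rw [hsN, map_zsmul, map_smul, hsN, hw i b, smul_add, smul_comm C.t]
  -- linearity
  have hom_smul : ∀ i (l : Λ) (x : X.P (i + 1)), om i (l • x) = l • om i x := by
    intro i l x
    obtain ⟨y, hy⟩ := C.ker_eps (l - (C.eps l : Λ)) (by
      rw [map_sub, map_intCast, Int.cast_id, sub_self])
    have h1 : l • x = (C.eps l) • x + C.t • (y • x) := by
      have h2 : l = (C.eps l : Λ) + C.t * y := by rw [← hy]; ring
      conv_lhs => rw [h2]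
      rw [add_smul, Int.cast_smul_eq_zsmul, mul_smul]
    rw [h1, map_add, hom_t, add_zero, map_zsmul, (hCqF Λ n C X hn i).2.2 l]
  let oml : ∀ i, X.P (i + 1) →ₗ[Λ] X.F i := fun i =>
    { toFun := om i
      map_add' := fun x y => map_add (om i) x y
      map_smul' := fun l x => hom_smul i l x }
  have hker : ∀ i, (Ideal.span {C.t, C.N} • (⊤ : Submodule Λ (X.P (i + 1)))) ≤
      LinearMap.ker (oml i) := by
    intro i x hx
    have h1 : X.q (i + 1) x = 0 := (Submodule.Quotient.mk_eq_zero _).2 hx
    obtain ⟨a, b, hab⟩ := (hCqZ Λ n C X (i + 1) x).1 h1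
    rw [LinearMap.mem_ker]
    change om i x = 0
    rw [hab, map_add, hom_t, hom_N, add_zero]
  exact ⟨{
    s := s
    ω := fun i => Submodule.liftQ _ (oml i) (hker i)
    s_t := hst
    s_sub := hs
    spec := by
      intro i x v hv
      change om i x = X.q i v
      rw [homd]
      exact hspec i x v hv }⟩

end HSp
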