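import Pool.Agent.Lib.MP_181146_gt.HS.Spec

/-!
# Project HS: `φ` on cycles (`S_CP1`)
-/

set_option autoImplicit false

namespace HSp

theorem sCP1 (hCBo : S_CBo) (hCF3 : S_CF3) (hCqZ : S_CqZ) : S_CP1 := by
  intro Λ _ n C X hn O c' j hc i x hx
  have hqt : ∀ k (v : X.P k), X.q k (C.t • v) = 0 := fun k v =>
    (hCqZ Λ n C X k _).2 ⟨v, 0, by rw [smul_zero, add_zero]⟩
  obtain ⟨u, y, z, hdu, hqu, hω, hcyF, -⟩ := hCBo Λ n C X hn O i x hx
  obtain ⟨-, z', hz'⟩ := hCF3 Λ n C X hn i u y z hdu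
  have hdz : X.dF i (X.eta i (X.q i z)) = 0 := by
    cases i with
    | zero =>
      have hs := X.zero
      have h4 : z = 0 := Subsingleton.elim _ _
      rw [h4, map_zero, map_zero, map_zero]
    | succ k =>
      have h4 := X.dh k z
      have h5 : X.d (k + 1) (X.h (k + 1) z) = C.t • z + -(X.h k (X.d k z)) := by
        rw [← h4]
        abel
      rw [X.eta_q, X.dF_q, h5, map_add, hqt, zero_add, map_neg, ← X.eta_q, ← X.dF_q]
      have h6 : X.dF k (X.q (k + 1) z) = 0 := hcyF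
      rw [h6, map_zero, neg_zero]
  refine ⟨u - X.h i y, z', -(j • X.eta i (X.q i z)), hz', ?_, ?_⟩
  · rw [map_neg, map_zsmul, hdz, smul_zero, neg_zero]
  · have h4 : O.phi (i + 1) x = x - X.eta i (O.ω i x) := rfl
    rw [h4, hω, map_add, map_zsmul, X.eta_q i y, map_sub, hqu, hc, mul_smul, smul_neg]
    abel

end HSp
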