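import Pool.Agent.Lib.MP_181146_gt.HS.Spec

/-!
# Project HS: `φ` on the classes of cycles modulo `N` (`S_CP2`)
-/

set_option autoImplicit false

namespace HSp

theorem sCP2 (hCBo : S_CBo) (hPrTN : S_PrTN) (hPrKt : S_PrKt) (hCqZ : S_CqZ) : S_CP2 := by
  intro Λ _ n C X hn O c' j hc i u z0 hu
  have hqt : ∀ k (v : X.P k), X.q k (C.t • v) = 0 := fun k v =>
    (hCqZ Λ n C X k _).2 ⟨v, 0, by rw [smul_zero, add_zero]⟩
  have hqN : ∀ k (v : X.P k), X.q k (C.N • v) = 0 := fun k v =>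
    (hCqZ Λ n C X k _).2 ⟨0, v, by rw [smul_zero, zero_add]⟩
  have hx : X.dF i (X.q (i + 1) u) = 0 := by
    rw [X.dF_q, hu, hqN]
  obtain ⟨u', y, z, hdu', hqu', hω, hcyF, -⟩ := hCBo Λ n C X hn O i _ hx
  have h1 : X.q (i + 1) (u' - u) = 0 := by
    rw [map_sub, hqu', sub_self]
  obtain ⟨a, b, hab⟩ := (hCqZ Λ n C X (i + 1) _).1 h1
  have h2 : C.t • (y - X.d i a) = C.N • (z0 + X.d i b - z) := by
    have h3 : X.d i (u' - u) = C.t • X.d i a + C.N • X.d i b := by
      rw [hab, map_add, map_smul, map_smul]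
    rw [map_sub, hdu', hu] at h3
    rw [smul_sub, smul_sub, smul_add]
    have h4 : C.t • y + C.N • z = C.t • X.d i a + C.N • X.d i b + C.N • z0 :=
      sub_eq_iff_eq_add.mp h3
    rw [sub_eq_iff_eq_add]
    have h5 : C.t • y = C.t • X.d i a + C.N • X.d i b + C.N • z0 - C.N • z :=
      eq_sub_of_add_eq h4
    rw [h5]
    abel
  obtain ⟨h3, -⟩ := hPrTN Λ n C (X.P i) hn _ _ h2
  obtain ⟨b', hb'⟩ := (hPrKt Λ n C (X.P i) _).1 h3
  have hqy : X.q i y = X.dF i (X.q (i + 1) a) := by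
    have h4 : y = X.d i a + C.N • b' := by
      rw [← hb']
      abel
    rw [h4, map_add, hqN, add_zero, X.dF_q]
  have heta : X.eta i (X.dF i (X.q (i + 1) a)) = -(X.dF (i + 1) (X.q (i + 2) (X.h (i + 1) a))) := by
    rw [X.dF_q, X.eta_q, X.dF_q, ← map_neg]
    have h4 := X.dh i a
    have h5 : X.h i (X.d i a) = C.t • a + -(X.d (i + 1) (X.h (i + 1) a)) := by
      rw [← h4]
      abel
    rw [h5, map_add, hqt, zero_add]
  have hdz : X.dF i (X.eta i (X.q i z)) = 0 := by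
    cases i with
    | zero =>
      have hs := X.zero
      have h4 : z = 0 := Subsingleton.elim _ _
      rw [h4, map_zero, map_zero, map_zero]
    | succ k =>
      have h4 := X.dh k z
      have h5 : X.d (k + 1) (X.h (k + 1) z) = C.t • z + -(X.h k (X.d k z)) := by
        rw [← h4]
        abel
      rw [X.eta_q, X.dF_q, h5, map_add, hqt, zero_add, map_neg, ← X.eta_q, ← X.dF_q]
      have h6 : X.dF k (X.q (k + 1) z) = 0 := hcyF
      rw [h6, map_zero, neg_zero]
  refine ⟨X.q (i + 2) (X.h (i + 1) a), -(j • X.eta i (X.q i z)), ?_, ?_⟩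
  · rw [map_neg, map_zsmul, hdz, smul_zero, neg_zero]
  · have h4 : O.phi (i + 1) (X.q (i + 1) u)
        = X.q (i + 1) u - X.eta i (O.ω i (X.q (i + 1) u)) := rfl
    rw [h4, hω, map_add, map_zsmul, hqy, heta, hc, mul_smul, smul_neg]
    abel

end HSp
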