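import Pool.Agent.Lib.MP_181146_gt.HS.Spec

/-!
# Project HS, module CPc: the operator `φ = 1 - η ω` is a chain map
-/

set_option autoImplicit false

namespace HSp

private lemma cpc_t {Λ : Type} [CommRing Λ] {n : ℕ} {C : CycData Λ n} (X : Cx Λ C.t)
    (hCqZ : S_CqZ) (i : ℕ) (x : X.P i) : X.q i (C.t • x) = 0 :=
  (hCqZ Λ n C X i (C.t • x)).2 ⟨x, 0, by rw [smul_zero, add_zero]⟩

private lemma cpc_dh {Λ : Type} [CommRing Λ] {n : ℕ} {C : CycData Λ n} (X : Cx Λ C.t)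
    (hCqZ : S_CqZ) (i : ℕ) (y : X.F (i + 1)) :
    X.dF (i + 1) (X.eta (i + 1) y) + X.eta i (X.dF i y) = 0 := by
  obtain ⟨x, rfl⟩ := X.q_surj (i + 1) y
  rw [X.eta_q, X.dF_q, X.dF_q, X.eta_q, ← map_add, X.dh i x, cpc_t X hCqZ]

theorem sCPc (hCOd : S_COd) (hCqZ : S_CqZ) : S_CPc := by
  intro Λ _ n C X hn O i x
  cases i with
  | zero =>
    have hz : O.ω 0 x = 0 := by
      obtain ⟨y, hy⟩ := X.q_surj 0 (O.ω 0 x)
      have := X.zero
      rw [← hy, Subsingleton.elim y 0, map_zero]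
    show X.dF 0 (x - X.eta 0 (O.ω 0 x)) = X.dF 0 x
    rw [hz, map_zero, sub_zero]
  | succ j =>
    have h1 := cpc_dh X hCqZ j (O.ω (j + 1) x)
    have h2 := hCOd Λ n C X hn O j x
    have h3 : X.dF j (O.ω (j + 1) x) = -(O.ω j (X.dF (j + 1) x)) := eq_neg_of_add_eq_zero_left h2
    have h4 : X.dF (j + 1) (X.eta (j + 1) (O.ω (j + 1) x)) =
        X.eta j (O.ω j (X.dF (j + 1) x)) := by
      rw [h3, map_neg, ← sub_eq_add_neg, sub_eq_zero] at h1
      exact h1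
    show X.dF (j + 1) (x - X.eta (j + 1) (O.ω (j + 1) x)) =
      X.dF (j + 1) x - X.eta j (O.ω j (X.dF (j + 1) x))
    rw [map_sub, h4]

end HSp
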