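import Pool.Agent.Lib.MP_181146_gt.HS.Spec

/-!
# Project HS, CqF: `F_i` is finite, killed by `n`, and `Λ` acts on it through `eps`
-/

set_option autoImplicit false

namespace HSp

theorem sCqF (hCqZ : S_CqZ) (hPrRk : S_PrRk) : S_CqF := by
  intro Λ _ n C X hn i
  have hkill : ∀ y : X.F i, (n : ℤ) • y = 0 := by
    intro y
    obtain ⟨x, rfl⟩ := X.q_surj i y
    rw [← map_zsmul, hCqZ Λ n C X i]
    refine ⟨-((n.choose 2 : Λ) • x) - (C.t * C.c) • x, x, ?_⟩
    have h1 : ((n : ℤ) • x : X.P i) = (n : Λ) • x := by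
      rw [natCast_zsmul, Nat.cast_smul_eq_nsmul]
    have h2 : (n : Λ) = C.N - (n.choose 2 : Λ) * C.t - C.t ^ 2 * C.c := by
      rw [C.N_eq]
      ring
    rw [h1, h2, smul_sub, smul_neg, sub_smul, sub_smul, ← mul_smul, ← mul_smul,
      mul_comm (n.choose 2 : Λ) C.t, ← mul_assoc, ← pow_two]
    abel
  have hact : ∀ (l : Λ) (y : X.F i), l • y = C.eps l • y := by
    intro l y
    obtain ⟨x, rfl⟩ := X.q_surj i y
    have h1 : C.eps (l - ((C.eps l : ℤ) : Λ)) = 0 := by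
      rw [map_sub, map_intCast, Int.cast_id, sub_self]
    obtain ⟨y0, hy0⟩ := C.ker_eps _ h1
    have h2 : X.q i (l • x - C.eps l • x) = 0 := by
      rw [hCqZ Λ n C X i]
      refine ⟨y0 • x, 0, ?_⟩
      rw [smul_zero, add_zero, ← mul_smul, ← hy0, sub_smul, Int.cast_smul_eq_zsmul]
    rw [map_sub, map_smul, map_zsmul, sub_eq_zero] at h2
    exact h2
  refine ⟨?_, hkill, hact⟩
  obtain ⟨a, π, hsur, hker, -⟩ := hPrRk Λ n C (X.P i)
  choose σ hσ using hsur
  have hq : ∀ x x' : X.P i, π x = π x' → X.q i x = X.q i x' := by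
    intro x x' h
    have h1 : π (x - x') = 0 := by rw [map_sub, h, sub_self]
    obtain ⟨y, hy⟩ := (hker _).1 h1
    have h2 : X.q i (x - x') = 0 := by
      rw [hCqZ Λ n C X i]
      exact ⟨y, 0, by rw [smul_zero, add_zero, hy]⟩
    rw [map_sub, sub_eq_zero] at h2
    exact h2
  have : NeZero n := ⟨hn.ne'⟩
  refine Finite.of_surjective
    (fun w : Fin a → ZMod n => X.q i (σ (fun j => ((w j).val : ℤ)))) ?_
  intro y
  obtain ⟨x, rfl⟩ := X.q_surj i y
  refine ⟨fun j => ((π x j : ℤ) : ZMod n), ?_⟩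
  have h1 : ∀ j : Fin a, ∃ u : ℤ, ((((π x j : ℤ) : ZMod n)).val : ℤ) = π x j + n * u := by
    intro j
    have h2 : (((((π x j : ℤ) : ZMod n)).val : ℤ) : ZMod n) = ((π x j : ℤ) : ZMod n) := by
      rw [Int.cast_natCast, ZMod.natCast_val, ZMod.cast_id', id]
    have h3 := (ZMod.intCast_eq_intCast_iff_dvd_sub _ _ n).1 h2.symm
    obtain ⟨u, hu⟩ := h3
    exact ⟨u, by rw [← hu]; ring⟩
  choose u hu using h1
  have h4 : X.q i (σ (fun j => ((((π x j : ℤ) : ZMod n)).val : ℤ))) =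
      X.q i (x + (n : ℤ) • σ u) := by
    apply hq
    rw [hσ, map_add, map_zsmul, hσ]
    funext j
    rw [hu j]
    rfl
  change X.q i (σ (fun j => ((((π x j : ℤ) : ZMod n)).val : ℤ))) = X.q i x
  rw [h4, map_add, map_zsmul, hkill, add_zero]

end HSp
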