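import Pool.Agent.Lib.MP_181146_gt.HS.Spec

/-!
# Project HS, CqZ: the kernel of `P_i → F_i`
-/

set_option autoImplicit false

namespace HSp

theorem sCqZ : S_CqZ := by
  intro Λ _ n C X i x
  have h0 : X.q i x = 0 ↔ x ∈ (Ideal.span {C.t, C.N} • (⊤ : Submodule Λ (X.P i))) := by
    unfold Cx.q
    rw [Submodule.mkQ_apply, Submodule.Quotient.mk_eq_zero]
  rw [h0]
  constructor
  · intro hx
    refine Submodule.smul_induction_on hx ?_ ?_
    · intro r hr m _
      obtain ⟨a, b, hab⟩ := Ideal.mem_span_pair.mp hr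
      refine ⟨a • m, b • m, ?_⟩
      rw [← hab, add_smul, mul_comm a, mul_comm b, mul_smul, mul_smul]
    · rintro y z ⟨a, b, rfl⟩ ⟨a', b', rfl⟩
      refine ⟨a + a', b + b', ?_⟩
      rw [smul_add, smul_add]
      abel
  · rintro ⟨a, b, rfl⟩
    refine Submodule.add_mem _ ?_ ?_
    · exact Submodule.smul_mem_smul (Ideal.subset_span (by simp)) trivial
    · exact Submodule.smul_mem_smul (Ideal.subset_span (by simp)) trivial

end HSp
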