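import Pool.Agent.Lib.MP_181146_gt.HS.Spec

/-!
# Project HS, DAl: computation of the alternating sums
-/

set_option autoImplicit false

namespace HSp

namespace DAlAux

/-- Splitting off the last factor of a product. -/
def snocL (R : Type) [CommRing R] {n : ℕ} (M : Fin (n + 1) → Type) [∀ i, AddCommGroup (M i)]
    [∀ i, Module R (M i)] :
    (∀ i, M i) ≃ₗ[R] (∀ i : Fin n, M i.castSucc) × M (Fin.last n) where
  toFun f := (fun i => f i.castSucc, f (Fin.last n))
  map_add' _ _ := rfl
  map_smul' _ _ := rfl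
  invFun x := Fin.snoc (α := M) x.1 x.2
  left_inv f := by
    funext i
    refine Fin.lastCases ?_ (fun j => ?_) i
    · simp
    · simp
  right_inv x := by
    refine Prod.ext ?_ ?_
    · funext i
      simp
    · simp

/-- Powers of a module. -/
def powL (R : Type) [CommRing R] (L : Type) [AddCommGroup L] [Module R L] (a b : ℕ) :
    ((Fin a → L) × (Fin b → L)) ≃ₗ[R] (Fin (a + b) → L) :=
  (LinearEquiv.sumArrowLequivProdArrow (Fin a) (Fin b) R L).symm.trans
    (LinearEquiv.funCongrLeft R L finSumFinEquiv.symm)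

/-- Equal exponents. -/
def castL (R : Type) [CommRing R] (L : Type) [AddCommGroup L] [Module R L] {a b : ℕ}
    (h : b = a) : (Fin a → L) ≃ₗ[R] (Fin b → L) :=
  LinearEquiv.funCongrLeft R L (finCongr h)

/-- The rearrangement used in one step of the induction, first components. -/
def shuf1 (R : Type) [CommRing R] (P' La Lb Pi Ls : Type) [AddCommGroup P'] [Module R P']
    [AddCommGroup La] [Module R La] [AddCommGroup Lb] [Module R Lb] [AddCommGroup Pi]
    [Module R Pi] [AddCommGroup Ls] [Module R Ls] :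
    ((P' × La) × (Lb × (Pi × Ls))) ≃ₗ[R] ((Pi × P') × ((Ls × Lb) × La)) where
  toFun x := ((x.2.2.1, x.1.1), ((x.2.2.2, x.2.1), x.1.2))
  map_add' _ _ := rfl
  map_smul' _ _ := rfl
  invFun y := ((y.1.2, y.2.2), (y.2.1.2, (y.1.1, y.2.1.1)))
  left_inv _ := rfl
  right_inv _ := rfl

/-- The rearrangement used in one step of the induction, second components. -/
def shuf2 (R : Type) [CommRing R] (P' La Lb Pi Ls : Type) [AddCommGroup P'] [Module R P']
    [AddCommGroup La] [Module R La] [AddCommGroup Lb] [Module R Lb] [AddCommGroup Pi]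
    [Module R Pi] [AddCommGroup Ls] [Module R Ls] :
    (La × ((P' × Lb) × (Pi × Ls))) ≃ₗ[R] ((Pi × P') × ((Ls × Lb) × La)) where
  toFun x := ((x.2.2.1, x.2.1.1), ((x.2.2.2, x.2.1.2), x.1))
  map_add' _ _ := rfl
  map_smul' _ _ := rfl
  invFun y := (y.2.2, ((y.1.2, y.2.1.2), (y.1.1, y.2.1.1)))
  left_inv _ := rfl
  right_inv _ := rfl

/-- The final form of a step. -/
def fin3 (R : Type) [CommRing R] (L : Type) [AddCommGroup L] [Module R L] {n : ℕ}
    (M : Fin (n + 1) → Type) [∀ i, AddCommGroup (M i)] [∀ i, Module R (M i)] (s b a t : ℕ)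
    (h : t = s + b + a) :
    (((∀ i : Fin n, M i.castSucc) × M (Fin.last n)) ×
      (((Fin s → L) × (Fin b → L)) × (Fin a → L))) ≃ₗ[R] ((∀ i, M i) × (Fin t → L)) :=
  LinearEquiv.prodCongr (snocL R M).symm
    (((LinearEquiv.prodCongr (powL R L s b) (LinearEquiv.refl R (Fin a → L))).trans
      (powL R L (s + b) a)).trans (castL R L h))

/-- The start of the induction, first components. -/
def st1 (R : Type) [CommRing R] (L P0 : Type) [AddCommGroup L] [Module R L] [AddCommGroup P0]
    [Module R P0] [Subsingleton P0] (M : Fin 0 → Type) [∀ i, AddCommGroup (M i)]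
    [∀ i, Module R (M i)] (a t : ℕ) (h : t = a) :
    (P0 × (Fin a → L)) ≃ₗ[R] ((∀ i, M i) × (Fin t → L)) where
  toFun x := (fun i => i.elim0, castL R L h x.2)
  map_add' _ _ := Prod.ext (funext fun i => i.elim0) (map_add (castL R L h) _ _)
  map_smul' _ _ := Prod.ext (funext fun i => i.elim0) (map_smul (castL R L h) _ _)
  invFun y := (0, (castL R L h).symm y.2)
  left_inv x := Prod.ext (Subsingleton.elim _ _) (by simp)
  right_inv y := Prod.ext (funext fun i => i.elim0) (by simp)

/-- The start of the induction, second components. -/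
def st2 (R : Type) [CommRing R] (L : Type) [AddCommGroup L] [Module R L]
    (M : Fin 0 → Type) [∀ i, AddCommGroup (M i)]
    [∀ i, Module R (M i)] (a t : ℕ) (h : t = a) :
    (Fin a → L) ≃ₗ[R] ((∀ i, M i) × (Fin t → L)) where
  toFun x := (fun i => i.elim0, castL R L h x)
  map_add' _ _ := Prod.ext (funext fun i => i.elim0) (map_add (castL R L h) _ _)
  map_smul' _ _ := Prod.ext (funext fun i => i.elim0) (map_smul (castL R L h) _ _)
  invFun y := (castL R L h).symm y.2
  left_inv x := by simp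
  right_inv y := Prod.ext (funext fun i => i.elim0) (by simp)

end DAlAux

open DAlAux in
theorem sDAl : S_DAl := by
  intro Λ _ L _ _ P _ _ hP r K A B
  induction K with
  | zero =>
    have h : ∑ i ∈ Finset.range (2 * 0 + 1), r i = r 0 := by simp
    exact ⟨⟨st1 Λ L (P 0) (fun j : Fin 0 => P (2 * j + 1)) (r 0) _ h⟩,
      ⟨st2 Λ L (fun j : Fin 0 => P (2 * j)) (r 0) _ h⟩⟩
  | succ K ih =>
    obtain ⟨⟨e1⟩, ⟨e2⟩⟩ := ih
    have h : ∑ i ∈ Finset.range (2 * (K + 1) + 1), r i =
        ∑ i ∈ Finset.range (2 * K + 1), r i + r (2 * K + 1) + r (2 * K + 2) := by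
      rw [show 2 * (K + 1) + 1 = 2 * K + 1 + 1 + 1 by ring, Finset.sum_range_succ,
        Finset.sum_range_succ]
    refine ⟨⟨?_⟩, ⟨?_⟩⟩
    · have f1 : ((P (2 * K + 1) × (Fin (r (2 * K + 2)) → L)) ×
          ((Fin (r (2 * K + 1)) → L) × (ZZ A B (2 * K)).1)) ≃ₗ[Λ]
          ((P (2 * K + 1) × (Fin (r (2 * K + 2)) → L)) ×
          ((Fin (r (2 * K + 1)) → L) × ((∀ j : Fin K, P (2 * j + 1)) ×
            (Fin (∑ i ∈ Finset.range (2 * K + 1), r i) → L)))) :=
        LinearEquiv.prodCongr (LinearEquiv.refl _ _)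
          (LinearEquiv.prodCongr (LinearEquiv.refl _ _) e1)
      exact (f1.trans (shuf1 Λ _ _ _ _ _)).trans
        (fin3 Λ L (fun j : Fin (K + 1) => P (2 * j + 1)) _ _ _ _ h)
    · have f2 : ((Fin (r (2 * K + 2)) → L) × ((P (2 * K) × (Fin (r (2 * K + 1)) → L)) ×
          (ZZ A B (2 * K)).2)) ≃ₗ[Λ]
          ((Fin (r (2 * K + 2)) → L) × ((P (2 * K) × (Fin (r (2 * K + 1)) → L)) ×
          ((∀ j : Fin K, P (2 * j)) ×
            (Fin (∑ i ∈ Finset.range (2 * K + 1), r i) → L)))) :=
        LinearEquiv.prodCongr (LinearEquiv.refl _ _)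
          (LinearEquiv.prodCongr (LinearEquiv.refl _ _) e2)
      exact (f2.trans (shuf2 Λ _ _ _ _ _)).trans
        (fin3 Λ L (fun j : Fin (K + 1) => P (2 * j)) _ _ _ _ h)

end HSp
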