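import Pool.Agent.Lib.MP_181146_gt.HS.Spec

/-!
# Project HS, module DK: kernel lemma for resolutions of length one
-/

set_option autoImplicit false

namespace HSp

theorem sDK : S_DK := by
  intro Λ _ N M' M M'' A B A'' B'' _ _ _ _ _ _ _ _ _ _ _ _ _ _ hA hA'' j g hj hg hex h1 h2
  obtain ⟨i, p, hi, hp, hip⟩ := h1
  obtain ⟨i2, p2, hi2, hp2, hip2⟩ := h2
  obtain ⟨α, hα⟩ := hA.2 A'' M'' p2 (g ∘ₗ p) hA''.1 hp2
  have hα' : ∀ x, p2 (α x) = g (p x) := fun x => hα x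
  -- the map κ
  let κ : A × B'' →ₗ[Λ] A'' := α ∘ₗ LinearMap.fst Λ A B'' - i2 ∘ₗ LinearMap.snd Λ A B''
  have hκ : ∀ a b, κ (a, b) = α a - i2 b := fun a b => rfl
  have hκs : Function.Surjective κ := by
    intro a''
    obtain ⟨m, hm⟩ := hg (p2 a'')
    obtain ⟨a, ha⟩ := hp m
    have h0 : p2 (α a - a'') = 0 := by
      rw [map_sub, hα', ha, hm, sub_self]
    obtain ⟨b, hb⟩ := (hip2 _).1 h0
    refine ⟨(a, b), ?_⟩
    rw [hκ, hb]
    abel
  have hkill : ∀ x : A × B'', N • x = 0 := by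
    rintro ⟨a, b⟩
    have hb : N • b = 0 := by
      apply hi2
      rw [map_smul, map_zero]
      exact hA''.1 _
    rw [Prod.smul_mk, hA.1 a, hb]
    rfl
  obtain ⟨σ, hσ⟩ := hA''.2 (A × B'') A'' κ LinearMap.id hkill hκs
  have hσ' : ∀ x, κ (σ x) = x := fun x => hσ x
  -- the projection to the kernel
  let π : A × B'' →ₗ[Λ] A × B'' := LinearMap.id - σ ∘ₗ κ
  have hπ : ∀ x, π x = x - σ (κ x) := fun x => rfl
  have hκπ : ∀ x, κ (π x) = 0 := by
    intro x
    rw [hπ, map_sub, hσ', sub_self]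
  let ψ : A × B'' →ₗ[Λ] M := p ∘ₗ LinearMap.fst Λ A B'' ∘ₗ π
  have hψ : ∀ x, ψ x = p (π x).1 := fun x => rfl
  have hgψ : ∀ x, g (ψ x) = 0 := by
    intro x
    have h1 : α (π x).1 - i2 (π x).2 = 0 := hκπ x
    rw [hψ, ← hα', sub_eq_zero.1 h1]
    exact (hip2 _).2 ⟨_, rfl⟩
  have hψr : ∀ x, ψ x ∈ LinearMap.range j := by
    intro x
    obtain ⟨y, hy⟩ := (hex _).1 (hgψ x)
    exact ⟨y, hy⟩
  let ρ : A × B'' →ₗ[Λ] M' :=
    (LinearEquiv.ofInjective j hj).symm.toLinearMap ∘ₗ LinearMap.codRestrict (LinearMap.range j) ψ hψr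
  have hρ : ∀ x, j (ρ x) = ψ x := by
    intro x
    have h1 : (LinearEquiv.ofInjective j hj) (ρ x) =
        LinearMap.codRestrict (LinearMap.range j) ψ hψr x := by
      simp only [ρ, LinearMap.comp_apply, LinearEquiv.coe_coe, LinearEquiv.apply_symm_apply]
    have h2 := congrArg Subtype.val h1
    simpa using h2
  -- the map β
  have hβr : ∀ b, (α ∘ₗ i) b ∈ LinearMap.range i2 := by
    intro b
    have h0 : p2 (α (i b)) = 0 := by
      rw [hα', (hip _).2 ⟨b, rfl⟩, map_zero]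
    obtain ⟨y, hy⟩ := (hip2 _).1 h0
    exact ⟨y, hy⟩
  let β : B →ₗ[Λ] B'' :=
    (LinearEquiv.ofInjective i2 hi2).symm.toLinearMap ∘ₗ
      LinearMap.codRestrict (LinearMap.range i2) (α ∘ₗ i) hβr
  have hβ : ∀ b, i2 (β b) = α (i b) := by
    intro b
    have h1 : (LinearEquiv.ofInjective i2 hi2) (β b) =
        LinearMap.codRestrict (LinearMap.range i2) (α ∘ₗ i) hβr b := by
      simp only [β, LinearMap.comp_apply, LinearEquiv.coe_coe, LinearEquiv.apply_symm_apply]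
    have h2 := congrArg Subtype.val h1
    simpa using h2
  let ι : B × A'' →ₗ[Λ] A × B'' :=
    (LinearMap.prod i β) ∘ₗ LinearMap.fst Λ B A'' + σ ∘ₗ LinearMap.snd Λ B A''
  have hι : ∀ b a, ι (b, a) = (i b, β b) + σ a := fun b a => rfl
  have hκι : ∀ b a, κ (ι (b, a)) = a := by
    intro b a
    rw [hι, map_add, hκ, hβ, sub_self, zero_add, hσ']
  refine ⟨ι, ρ, ?_, ?_, ?_⟩
  · rw [← LinearMap.ker_eq_bot, LinearMap.ker_eq_bot']
    rintro ⟨b, a⟩ h0
    have ha : a = 0 := by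
      rw [← hκι b a, h0, map_zero]
    subst ha
    rw [hι, map_zero, add_zero] at h0
    have hb : i b = 0 := congrArg Prod.fst h0
    have hb' : b = 0 := by
      apply hi
      rw [hb, map_zero]
    rw [hb']
    rfl
  · intro m'
    obtain ⟨a, ha⟩ := hp (j m')
    have h0 : p2 (α a) = 0 := by
      rw [hα', ha]
      exact (hex _).2 ⟨m', rfl⟩
    obtain ⟨b, hb⟩ := (hip2 _).1 h0
    refine ⟨(a, b), ?_⟩
    apply hj
    rw [hρ, hψ, hπ]
    have hz : κ (a, b) = 0 := by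
      rw [hκ, hb, sub_self]
    rw [hz, map_zero, sub_zero]
    exact ha
  · intro x
    constructor
    · intro h0
      have h1 : p (π x).1 = 0 := by
        rw [← hψ, ← hρ, h0, map_zero]
      obtain ⟨b, hb⟩ := (hip _).1 h1
      have h2 : α (π x).1 - i2 (π x).2 = 0 := hκπ x
      have h3 : β b = (π x).2 := by
        apply hi2
        rw [hβ, hb]
        exact sub_eq_zero.1 h2
      refine ⟨(b, κ x), ?_⟩
      rw [hι, hb, h3]
      have h4 : ((π x).1, (π x).2) = x - σ (κ x) := hπ x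
      rw [h4, sub_add_cancel]
    · rintro ⟨⟨b, a⟩, rfl⟩
      apply hj
      rw [hρ, map_zero, hψ, hπ, hκι, hι, add_sub_cancel_right]
      exact (hip _).2 ⟨b, rfl⟩

end HSp
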