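import Pool.Agent.Lib.MP_181146_gt.HS.Spec

/-!
# Project HS: DLf

`M` projective over `Λ`: `M / N M` has the lifting property.
-/

set_option autoImplicit false

namespace HSp

theorem sDLf : S_DLf := by
  intro Λ _ N M _ _ _
  refine ⟨?_, ?_⟩
  · intro x
    obtain ⟨y, rfl⟩ := Submodule.mkQ_surjective _ x
    rw [← map_smul, Submodule.mkQ_apply, Submodule.Quotient.mk_eq_zero]
    exact Submodule.smul_mem_smul (Ideal.mem_span_singleton_self N) trivial
  · intro M1 M2 _ _ _ _ g f hM hg
    obtain ⟨l, hl⟩ := Module.projective_lifting_property g (f ∘ₗ Submodule.mkQ _) hg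
    have hle : Ideal.span {N} • (⊤ : Submodule Λ M) ≤ LinearMap.ker l := by
      rw [Submodule.smul_le]
      intro a ha x _
      obtain ⟨b, rfl⟩ := Ideal.mem_span_singleton'.1 ha
      rw [LinearMap.mem_ker, map_smul, mul_smul, hM, smul_zero]
    refine ⟨Submodule.liftQ _ l hle, ?_⟩
    intro x
    obtain ⟨y, rfl⟩ := Submodule.mkQ_surjective _ x
    rw [Submodule.mkQ_apply, Submodule.liftQ_apply]
    exact LinearMap.congr_fun hl y

end HSp
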