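import Pool.Agent.Lib.MP_181146_gt.HS.Spec

set_option autoImplicit false

namespace HSp

private lemma lft_prod (Λ : Type) [CommRing Λ] (N : Λ) (A B : Type) [AddCommGroup A] [Module Λ A]
    [AddCommGroup B] [Module Λ B] (hA : Lft N A) (hB : Lft N B) : Lft N (A × B) := by
  refine ⟨fun x => Prod.ext (hA.1 x.1) (hB.1 x.2), ?_⟩
  intro M M' _ _ _ _ g f hM hg
  obtain ⟨l1, h1⟩ := hA.2 M M' g (f ∘ₗ LinearMap.inl Λ A B) hM hg
  obtain ⟨l2, h2⟩ := hB.2 M M' g (f ∘ₗ LinearMap.inr Λ A B) hM hg
  refine ⟨l1.coprod l2, fun x => ?_⟩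
  rw [LinearMap.coprod_apply, map_add, h1, h2, LinearMap.comp_apply, LinearMap.comp_apply,
    ← map_add, LinearMap.inl_apply, LinearMap.inr_apply, Prod.mk_add_mk, add_zero, zero_add]

private lemma lft_free (Λ : Type) [CommRing Λ] (N : Λ) (r : ℕ) :
    Lft N (Fin r → Λ ⧸ Ideal.span {N}) := by
  refine ⟨fun x => ?_, ?_⟩
  · funext i
    obtain ⟨y, hy⟩ := Submodule.Quotient.mk_surjective _ (x i)
    rw [Pi.smul_apply, ← hy, ← Submodule.Quotient.mk_smul]
    refine (Submodule.Quotient.mk_eq_zero _).2 ?_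
    rw [smul_eq_mul]
    exact Ideal.mul_mem_right _ _ (Ideal.mem_span_singleton_self N)
  · intro M M' _ _ _ _ g f hM hg
    choose m hm using fun i : Fin r => hg (f (Pi.single i (Submodule.Quotient.mk 1)))
    have hk : ∀ i, (Ideal.span {N} : Submodule Λ Λ) ≤
        LinearMap.ker (LinearMap.toSpanSingleton Λ M (m i)) := by
      intro i
      refine (Ideal.span_singleton_le_iff_mem _).2 ?_
      rw [LinearMap.mem_ker, LinearMap.toSpanSingleton_apply]
      exact hM _
    refine ⟨∑ i, (Submodule.liftQ _ (LinearMap.toSpanSingleton Λ M (m i)) (hk i)) ∘ₗ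
      LinearMap.proj i, fun x => ?_⟩
    have key : g ∘ₗ (∑ i, (Submodule.liftQ _ (LinearMap.toSpanSingleton Λ M (m i)) (hk i)) ∘ₗ
      LinearMap.proj i) = f := by
      refine LinearMap.pi_ext' fun i => ?_
      refine Submodule.linearMap_qext _ ?_
      refine LinearMap.ext_ring ?_
      simp only [LinearMap.comp_apply, LinearMap.sum_apply, Submodule.mkQ_apply,
        LinearMap.coe_single, LinearMap.proj_apply]
      rw [Finset.sum_eq_single i]
      · rw [Pi.single_eq_same, Submodule.liftQ_apply, LinearMap.toSpanSingleton_apply, one_smul]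
        exact hm i
      · intro j _ hj
        rw [Pi.single_eq_of_ne hj, map_zero]
      · intro h
        exact absurd (Finset.mem_univ i) h
    exact LinearMap.congr_fun key x

theorem sDLp : S_DLp := by
  intro Λ _ N
  exact ⟨fun A B _ _ _ _ hA hB => lft_prod Λ N A B hA hB, fun r => lft_free Λ N r⟩

end HSp
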