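import Pool.Agent.Lib.MP_181146_gt.HS.Spec

/-!
# Project HS, DMain: part D assembled
-/

set_option autoImplicit false

namespace HSp

private theorem dMain_restrict {Λ : Type} [CommRing Λ] (T : ℕ → Type) [∀ i, AddCommGroup (T i)]
    [∀ i, Module Λ (T i)] {K K' : ℕ} (hKK : K ≤ K') (hT : ∀ i, K ≤ i → Subsingleton (T i)) :
    Nonempty ((∀ j : Fin K', T (j : ℕ)) ≃ₗ[Λ] (∀ j : Fin K, T (j : ℕ))) := by
  let f : (∀ j : Fin K', T (j : ℕ)) →ₗ[Λ] (∀ j : Fin K, T (j : ℕ)) :=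
    { toFun := fun x j => x (Fin.castLE hKK j)
      map_add' := fun _ _ => rfl
      map_smul' := fun _ _ => rfl }
  refine ⟨LinearEquiv.ofBijective f ⟨?_, ?_⟩⟩
  · intro x y hxy
    funext j
    by_cases hj : (j : ℕ) < K
    · exact congrFun hxy ⟨(j : ℕ), hj⟩
    · have := hT (j : ℕ) (not_lt.1 hj)
      exact Subsingleton.elim _ _
  · intro y
    refine ⟨fun j => if hj : (j : ℕ) < K then y ⟨(j : ℕ), hj⟩ else 0, ?_⟩
    funext j
    exact dif_pos (show ((Fin.castLE hKK j : Fin K') : ℕ) < K from j.isLt)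

theorem sDMain (hDW : S_DW) (hDRs : S_DRs) (hDCo : S_DCo) (hDAl : S_DAl) (hDLf : S_DLf)
    (hDLp : S_DLp) : S_DMain := by
  intro Λ _ n C hn X S K hK
  obtain ⟨dd, h0, hex⟩ := hDCo Λ X S (by omega)
  set K' := K + S.B + 1 with hK'
  have hz : Subsingleton (QN C.N (X.P 0)) := by
    have := X.zero
    exact (Submodule.mkQ_surjective _).subsingleton
  have hLf : ∀ i, Lft C.N (QN C.N (X.P i)) := fun i => hDLf Λ C.N (X.P i)
  have hLn : ∀ r : ℕ, Lft C.N (Fin r → LN C) := fun r => (hDLp Λ C.N).2 r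
  have hA : ∀ i, Lft C.N (ModuleCat.of Λ (QN C.N (X.P (i - 1)) × (Fin (S.r i) → LN C))) :=
    fun i => (hDLp Λ C.N).1 _ _ (hLf (i - 1)) (hLn (S.r i))
  have hB : ∀ i, Lft C.N (ModuleCat.of Λ (Fin (S.r i) → LN C)) := fun i => hLn (S.r i)
  have hR : ∀ i, Res Λ (QN C.N (X.P (i - 1)) × (Fin (S.r i) → QQ C))
      (ModuleCat.of Λ (QN C.N (X.P (i - 1)) × (Fin (S.r i) → LN C)))
      (ModuleCat.of Λ (Fin (S.r i) → LN C)) := fun i =>
    hDRs Λ C (by omega) (QN C.N (X.P (i - 1))) (S.r i)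
  have hm : Subsingleton (QN C.N (X.P (2 * K' + 1 - 1)) × (Fin (S.r (2 * K' + 1)) → QQ C)) := by
    have h1 : Subsingleton (X.P (2 * K' + 1 - 1)) := hK _ (by omega)
    have h2 : Subsingleton (QN C.N (X.P (2 * K' + 1 - 1))) :=
      (Submodule.mkQ_surjective _).subsingleton
    have h3 : S.r (2 * K' + 1) = 0 := S.bdd _ (by omega)
    have h4 : IsEmpty (Fin (S.r (2 * K' + 1))) := by
      rw [h3]
      infer_instance
    infer_instance
  obtain ⟨e⟩ := hDW Λ C.N (fun i => QN C.N (X.P (i - 1)) × (Fin (S.r i) → QQ C)) dd h0 hex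
    (fun i => ModuleCat.of Λ (QN C.N (X.P (i - 1)) × (Fin (S.r i) → LN C)))
    (fun i => ModuleCat.of Λ (Fin (S.r i) → LN C)) hA hB hR (2 * K') hm
  obtain ⟨⟨e1⟩, ⟨e2⟩⟩ := hDAl Λ (LN C) (fun i => QN C.N (X.P i)) hz S.r K'
  have hs : ∀ i, 2 * K ≤ i → Subsingleton (QN C.N (X.P i)) := by
    intro i hi
    have := hK i hi
    exact (Submodule.mkQ_surjective _).subsingleton
  obtain ⟨f1⟩ := dMain_restrict (Λ := Λ) (fun i => QN C.N (X.P (2 * i + 1)))
    (show K ≤ K' by omega) (fun i hi => hs _ (by omega))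
  obtain ⟨f2⟩ := dMain_restrict (Λ := Λ) (fun i => QN C.N (X.P (2 * i)))
    (show K ≤ K' by omega) (fun i hi => hs _ (by omega))
  refine ⟨∑ i ∈ Finset.range (2 * K' + 1), S.r i, ⟨?_⟩⟩
  exact (((f2.prodCongr (LinearEquiv.refl Λ _)).symm.trans e2.symm).trans e.symm).trans
    (e1.trans (f1.prodCongr (LinearEquiv.refl Λ _)))

end HSp
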