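import Pool.Agent.Lib.MP_181146_gt.HS.Spec

set_option autoImplicit false

namespace HSp

/-- multiplication by `t` is injective on `Λ / N` -/
private theorem inj_LN (hPrTN : S_PrTN) {Λ : Type} [CommRing Λ] {n : ℕ} (C : CycData Λ n)
    (hn : 0 < n) (v : LN C) (hv : C.t • v = 0) : v = 0 := by
  obtain ⟨x, rfl⟩ := Ideal.Quotient.mk_surjective v
  have h1 : Ideal.Quotient.mk (Ideal.span {C.N}) (C.t * x) = 0 := hv
  rw [Ideal.Quotient.eq_zero_iff_mem, Ideal.mem_span_singleton'] at h1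
  obtain ⟨y, hy⟩ := h1
  have h2 := (hPrTN Λ n C Λ hn x y (by
    rw [smul_eq_mul, smul_eq_mul, ← hy, mul_comm])).1
  obtain ⟨w, hw⟩ := C.ker_t x h2
  rw [Ideal.Quotient.eq_zero_iff_mem, Ideal.mem_span_singleton', hw]
  exact ⟨w, mul_comm _ _⟩

/-- the cokernel of `t` on `Λ / N` is `Λ / (t, N)` -/
private theorem exists_pr {Λ : Type} [CommRing Λ] {n : ℕ} (C : CycData Λ n) :
    ∃ π : LN C →ₗ[Λ] QQ C, Function.Surjective π ∧
      ∀ v : LN C, π v = 0 ↔ ∃ u : LN C, C.t • u = v := by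
  have hle : Ideal.span {C.N} ≤ Ideal.span {C.t, C.N} :=
    Ideal.span_mono (Set.singleton_subset_iff.2 (by simp))
  refine ⟨(Ideal.Quotient.factorₐ Λ hle).toLinearMap, ?_, ?_⟩
  · intro y
    obtain ⟨x, rfl⟩ := Ideal.Quotient.mk_surjective y
    exact ⟨Ideal.Quotient.mk _ x, rfl⟩
  · intro v
    obtain ⟨x, rfl⟩ := Ideal.Quotient.mk_surjective v
    constructor
    · intro h
      have h1 : Ideal.Quotient.mk (Ideal.span {C.t, C.N}) x = 0 := h
      rw [Ideal.Quotient.eq_zero_iff_mem, Ideal.mem_span_pair] at h1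
      obtain ⟨a, b, hab⟩ := h1
      refine ⟨Ideal.Quotient.mk _ a, ?_⟩
      have h2 : Ideal.Quotient.mk (Ideal.span {C.N}) (C.t * a) = Ideal.Quotient.mk _ x := by
        rw [Ideal.Quotient.eq, Ideal.mem_span_singleton']
        refine ⟨-b, ?_⟩
        rw [← hab]
        ring
      exact h2
    · rintro ⟨u, hu⟩
      obtain ⟨a, rfl⟩ := Ideal.Quotient.mk_surjective u
      have h2 : Ideal.Quotient.mk (Ideal.span {C.N}) (C.t * a) = Ideal.Quotient.mk _ x := hu
      rw [Ideal.Quotient.eq, Ideal.mem_span_singleton'] at h2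
      obtain ⟨b, hb⟩ := h2
      have h3 : Ideal.Quotient.mk (Ideal.span {C.t, C.N}) x = 0 := by
        rw [Ideal.Quotient.eq_zero_iff_mem, Ideal.mem_span_pair]
        refine ⟨a, -b, ?_⟩
        linear_combination -hb
      exact h3

theorem sDRs (hPrTN : S_PrTN) : S_DRs := by
  intro Λ _ n C hn Y _ _ r
  obtain ⟨π, hs, hk⟩ := exists_pr C
  refine ⟨LinearMap.prod 0 (C.t • LinearMap.id),
    LinearMap.prodMap LinearMap.id (π.compLeft (Fin r)), ?_, ?_, ?_⟩
  · rw [← LinearMap.ker_eq_bot, LinearMap.ker_eq_bot']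
    intro v hv
    have h1 : C.t • v = 0 := congrArg Prod.snd hv
    funext k
    exact inj_LN hPrTN C hn (v k) (congrFun h1 k)
  · rintro ⟨y, w⟩
    choose u hu using fun k => hs (w k)
    exact ⟨(y, u), Prod.ext rfl (funext hu)⟩
  · rintro ⟨y, w⟩
    constructor
    · intro h
      have h1 : y = 0 := congrArg Prod.fst h
      have h2 : ∀ k, π (w k) = 0 := fun k => congrFun (congrArg Prod.snd h) k
      choose u hu using fun k => (hk (w k)).1 (h2 k)
      exact ⟨u, Prod.ext h1.symm (funext hu)⟩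
    · rintro ⟨u, hu⟩
      have h1 : (0 : Y) = y := congrArg Prod.fst hu
      have h2 : C.t • u = w := congrArg Prod.snd hu
      refine Prod.ext h1.symm (funext fun k => ?_)
      exact (hk (w k)).2 ⟨u k, congrFun h2 k⟩

end HSp
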