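import Pool.Agent.Lib.MP_181146_gt.HS.Spec

/-!
# Project HS: walking down a bounded exact complex
-/

set_option autoImplicit false

namespace HSp

private lemma res_zero (Λ : Type) [CommRing Λ] (M A B : Type) [AddCommGroup M] [Module Λ M]
    [AddCommGroup A] [Module Λ A] [AddCommGroup B] [Module Λ B] (hM : Subsingleton M)
    (h : Res Λ M A B) : Nonempty (A ≃ₗ[Λ] B) := by
  obtain ⟨i, p, hi, _, hex⟩ := h
  have hs : Function.Surjective i := fun x => (hex x).1 (Subsingleton.elim _ _)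
  exact ⟨(LinearEquiv.ofBijective i ⟨hi, hs⟩).symm⟩

private lemma lft_ZZ (hDLp : S_DLp) (Λ : Type) [CommRing Λ] (N : Λ) (A B : ℕ → ModuleCat.{0} Λ)
    (hA : ∀ i, Lft N (A i)) (hB : ∀ i, Lft N (B i)) (i : ℕ) :
    Lft N (ZZ A B i).1 ∧ Lft N (ZZ A B i).2 := by
  induction i with
  | zero => exact ⟨hA 0, hB 0⟩
  | succ i ih =>
    exact ⟨(hDLp Λ N).1 (A (i + 1)) (ZZ A B i).2 (hA (i + 1)) ih.2,
      (hDLp Λ N).1 (B (i + 1)) (ZZ A B i).1 (hB (i + 1)) ih.1⟩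

private lemma res_ZZ (hDK : S_DK) (hDLp : S_DLp) (Λ : Type) [CommRing Λ] (N : Λ) (Cc : ℕ → Type)
    [∀ i, AddCommGroup (Cc i)] [∀ i, Module Λ (Cc i)]
    (dd : ∀ i, Cc (i + 1) →ₗ[Λ] Cc i) (h0 : Function.Surjective (dd 0))
    (hex : ∀ i x, dd i x = 0 ↔ ∃ y, dd (i + 1) y = x) (A B : ℕ → ModuleCat.{0} Λ)
    (hA : ∀ i, Lft N (A i)) (hB : ∀ i, Lft N (B i)) (hR : ∀ i, Res Λ (Cc i) (A i) (B i)) (i : ℕ) :
    Res Λ (LinearMap.ker (dd i)) (ZZ A B (i + 1)).1 (ZZ A B (i + 1)).2 := by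
  induction i with
  | zero =>
    exact hDK Λ N (LinearMap.ker (dd 0)) (Cc 1) (Cc 0) (A 1) (B 1) (A 0) (B 0) (hA 1) (hA 0)
      (LinearMap.ker (dd 0)).subtype (dd 0) (Submodule.subtype_injective _) h0
      (fun x => ⟨fun hx => ⟨⟨x, hx⟩, rfl⟩, fun ⟨y, hy⟩ => hy ▸ y.2⟩) (hR 1) (hR 0)
  | succ i ih =>
    have hc : ∀ x, dd (i + 1) x ∈ LinearMap.ker (dd i) := fun x => (hex i _).2 ⟨x, rfl⟩
    refine hDK Λ N (LinearMap.ker (dd (i + 1))) (Cc (i + 2)) (LinearMap.ker (dd i)) (A (i + 2))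
      (B (i + 2)) (ZZ A B (i + 1)).1 (ZZ A B (i + 1)).2 (hA (i + 2))
      (lft_ZZ hDLp Λ N A B hA hB (i + 1)).1
      (LinearMap.ker (dd (i + 1))).subtype ((dd (i + 1)).codRestrict _ hc)
      (Submodule.subtype_injective _) ?_ ?_ (hR (i + 2)) ih
    · rintro ⟨x, hx⟩
      obtain ⟨y, hy⟩ := (hex i x).1 hx
      exact ⟨y, Subtype.ext hy⟩
    · intro x
      constructor
      · intro hx
        have hx' : dd (i + 1) x = 0 := congrArg Subtype.val hx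
        exact ⟨⟨x, hx'⟩, rfl⟩
      · rintro ⟨y, rfl⟩
        exact Subtype.ext y.2

theorem sDW (hDK : S_DK) (hDLp : S_DLp) : S_DW := by
  intro Λ _ N Cc _ _ dd h0 hex A B hA hB hR m hm
  cases m with
  | zero =>
    refine res_zero Λ (Cc 0) (A 0) (B 0) ⟨fun x y => ?_⟩ (hR 0)
    obtain ⟨x', rfl⟩ := h0 x
    obtain ⟨y', rfl⟩ := h0 y
    rw [Subsingleton.elim x' y']
  | succ m =>
    refine res_zero Λ (LinearMap.ker (dd m)) (ZZ A B (m + 1)).1 (ZZ A B (m + 1)).2 ⟨?_⟩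
      (res_ZZ hDK hDLp Λ N Cc dd h0 hex A B hA hB hR m)
    rintro ⟨x, hx⟩ ⟨y, hy⟩
    obtain ⟨x', hx'⟩ := (hex m x).1 hx
    obtain ⟨y', hy'⟩ := (hex m y).1 hy
    apply Subtype.ext
    change x = y
    rw [← hx', ← hy', Subsingleton.elim x' y']

end HSp
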