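import Pool.Agent.Lib.MP_181146_gt.HS.Spec

/-!
# Project HS: gluing in the Milnor square (helper32)
-/

set_option autoImplicit false

namespace HSp

namespace EGlAux

theorem mem_iff {Λ : Type} [CommRing Λ] (N : Λ) {M : Type} [AddCommGroup M] [Module Λ M] (x : M) :
    x ∈ (Ideal.span {N} • (⊤ : Submodule Λ M)) ↔ ∃ y, x = N • y := by
  rw [Submodule.ideal_span_singleton_smul, Submodule.mem_smul_pointwise_iff_exists]
  constructor
  · rintro ⟨y, -, hy⟩
    exact ⟨y, hy.symm⟩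
  · rintro ⟨y, hy⟩
    exact ⟨y, Submodule.mem_top, hy.symm⟩

/-- The class of `x` in `M / N M`. -/
def cl {Λ : Type} [CommRing Λ] (N : Λ) {M : Type} [AddCommGroup M] [Module Λ M] (x : M) :
    QN N M := Submodule.Quotient.mk x

theorem cl_eq_iff {Λ : Type} [CommRing Λ] (N : Λ) {M : Type} [AddCommGroup M] [Module Λ M]
    (x y : M) : cl N x = cl N y ↔ ∃ z, x - y = N • z := by
  unfold cl
  rw [Submodule.Quotient.eq, mem_iff]

theorem cl_surj {Λ : Type} [CommRing Λ] (N : Λ) {M : Type} [AddCommGroup M] [Module Λ M]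
    (q : QN N M) : ∃ x : M, cl N x = q := Submodule.Quotient.mk_surjective _ q

theorem cl_add {Λ : Type} [CommRing Λ] (N : Λ) {M : Type} [AddCommGroup M] [Module Λ M]
    (x y : M) : cl N (x + y) = cl N x + cl N y := rfl

theorem cl_sub {Λ : Type} [CommRing Λ] (N : Λ) {M : Type} [AddCommGroup M] [Module Λ M]
    (x y : M) : cl N (x - y) = cl N x - cl N y := rfl

theorem cl_smul {Λ : Type} [CommRing Λ] (N : Λ) {M : Type} [AddCommGroup M] [Module Λ M]
    (a : Λ) (x : M) : cl N (a • x) = a • cl N x := rfl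

theorem cl_self {Λ : Type} [CommRing Λ] (N : Λ) {M : Type} [AddCommGroup M] [Module Λ M]
    (x : M) : cl N (N • x) = 0 := by
  have : cl N (N • x) = cl N (0 : M) := (cl_eq_iff N _ _).2 ⟨x, by rw [sub_zero]⟩
  rw [this]
  rfl

end EGlAux


open EGlAux in
set_option linter.unusedVariables false in
/-- **EGl.** Gluing. -/
theorem sEGl (hPrTN : S_PrTN) (hPrKt : S_PrKt) : S_EGl := by
  intro Λ _ n C hn M M' _ _ _ _ _ _ _ _ φ ψ h
  have hn0 : 0 < n := by omega
  -- uniqueness in M and M'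
  have uniM' : ∀ z z' : M', cl C.N z = cl C.N z' → cl C.t z = cl C.t z' → z = z' := by
    intro z z' h1 h2
    obtain ⟨b, hb⟩ := (cl_eq_iff _ _ _).1 h1
    obtain ⟨a, ha⟩ := (cl_eq_iff _ _ _).1 h2
    have := (hPrTN Λ n C M' hn0 a b (by rw [← ha, hb])).1
    rw [this] at ha
    exact sub_eq_zero.1 ha
  have uniM : ∀ z z' : M, cl C.N z = cl C.N z' → cl C.t z = cl C.t z' → z = z' := by
    intro z z' h1 h2
    obtain ⟨b, hb⟩ := (cl_eq_iff _ _ _).1 h1
    obtain ⟨a, ha⟩ := (cl_eq_iff _ _ _).1 h2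
    have := (hPrTN Λ n C M hn0 a b (by rw [← ha, hb])).1
    rw [this] at ha
    exact sub_eq_zero.1 ha
  have ex : ∀ x : M, ∃ z : M', φ (cl C.N x) = cl C.N z ∧ ψ (cl C.t x) = cl C.t z := by
    intro x
    obtain ⟨y, hy⟩ := cl_surj C.N (φ (cl C.N x))
    obtain ⟨y', hy'⟩ := cl_surj C.t (ψ (cl C.t x))
    obtain ⟨a, b, hab⟩ := h x y y' hy.symm hy'.symm
    refine ⟨y - C.N • b, ?_, ?_⟩
    · rw [← hy, cl_eq_iff]
      exact ⟨b, by abel⟩
    · rw [← hy', cl_eq_iff]
      refine ⟨-a, ?_⟩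
      rw [smul_neg]
      have : y = y' + (C.t • a + C.N • b) := by rw [← hab]; abel
      rw [this]; abel
  choose θ hθN hθt using ex
  have hadd : ∀ x y, θ (x + y) = θ x + θ y := by
    intro x y
    refine uniM' _ _ ?_ ?_
    · rw [← hθN, cl_add, cl_add, map_add, hθN, hθN]
    · rw [← hθt, cl_add, cl_add, map_add, hθt, hθt]
  have hsmul : ∀ (a : Λ) x, θ (a • x) = a • θ x := by
    intro a x
    refine uniM' _ _ ?_ ?_
    · rw [← hθN, cl_smul, cl_smul, map_smul, hθN]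
    · rw [← hθt, cl_smul, cl_smul, map_smul, hθt]
  let Θ : M →ₗ[Λ] M' := { toFun := θ, map_add' := hadd, map_smul' := hsmul }
  have hinj : Function.Injective Θ := by
    rw [injective_iff_map_eq_zero]
    intro x hx
    have hx : θ x = 0 := hx
    refine uniM _ _ ?_ ?_
    · apply φ.injective
      rw [hθN, hx]
      have : cl C.N (0 : M) = 0 := rfl
      rw [this, map_zero]
      rfl
    · apply ψ.injective
      rw [hθt, hx]
      have : cl C.t (0 : M) = 0 := rfl
      rw [this, map_zero]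
      rfl
  have hsurj : Function.Surjective Θ := by
    intro z
    obtain ⟨x1, hx1⟩ := cl_surj C.N (φ.symm (cl C.N z))
    obtain ⟨x2, hx2⟩ := cl_surj C.t (ψ.symm (cl C.t z))
    have h1 : φ (cl C.N x1) = cl C.N z := by rw [hx1, LinearEquiv.apply_symm_apply]
    have h2 : ψ (cl C.t x2) = cl C.t z := by rw [hx2, LinearEquiv.apply_symm_apply]
    -- θ x1 ≡ z mod N, θ x2 ≡ z mod t
    obtain ⟨b, hb⟩ := (cl_eq_iff _ _ _).1 ((hθN x1).symm.trans h1)
    obtain ⟨a, ha⟩ := (cl_eq_iff _ _ _).1 ((hθt x2).symm.trans h2)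
    have hu : θ (x1 - x2) = C.N • b - C.t • a := by
      have : θ (x1 - x2) = θ x1 - θ x2 := map_sub Θ x1 x2
      rw [this, ← hb, ← ha]; abel
    obtain ⟨a0, ha0⟩ := cl_surj C.N (φ.symm (cl C.N a))
    have ha0' : φ (cl C.N a0) = cl C.N a := by rw [ha0, LinearEquiv.apply_symm_apply]
    have hc : cl C.N (x1 - x2) = cl C.N (-(C.t • a0)) := by
      apply φ.injective
      rw [hθN, hu]
      have e1 : cl C.N (-(C.t • a0)) = -(C.t • cl C.N a0) := rfl
      have e2 : cl C.N (C.N • b - C.t • a) = cl C.N (C.N • b) - C.t • cl C.N a := rfl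
      rw [e1, e2, map_neg, map_smul, ha0', cl_self, zero_sub]
    obtain ⟨d, hd⟩ := (cl_eq_iff _ _ _).1 hc
    -- x1 - x2 + t a0 = N d
    refine ⟨x1 - C.N • d, ?_⟩
    change θ (x1 - C.N • d) = z
    refine uniM' _ _ ?_ ?_
    · rw [← hθN, cl_sub, cl_self, sub_zero, h1]
    · have e3 : x1 - C.N • d = x2 - C.t • a0 := by rw [← hd]; abel
      rw [← hθt, e3, cl_sub, cl_self, sub_zero, h2]
  exact ⟨LinearEquiv.ofBijective Θ ⟨hinj, hsurj⟩⟩

end HSp
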