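import Pool.Agent.Lib.MP_181146_gt.HS.Spec

/-!
# Project HS: EMat, the matrix over `ℤ/n` of an isomorphism `M/N ≅ M'/N`
-/

set_option autoImplicit false

namespace HSp

private lemma EMat_W {Λ : Type} [CommRing Λ] {n : ℕ} (C : CycData Λ n) {M : Type}
    [AddCommGroup M] [Module Λ M] {a : ℕ} (π : M →+ (Fin a → ℤ))
    (hl : ∀ (l : Λ) x, π (l • x) = C.eps l • π x) {y y' : M}
    (h : (Submodule.Quotient.mk y : QN C.N M) = Submodule.Quotient.mk y') :
    (fun i => ((π y i : ℤ) : ZMod n)) = fun i => ((π y' i : ℤ) : ZMod n) := by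
  rw [Submodule.Quotient.eq, Submodule.ideal_span_singleton_smul,
    Submodule.mem_smul_pointwise_iff_exists] at h
  obtain ⟨z, -, hz⟩ := h
  have h1 : π y = π y' + C.eps C.N • π z := by
    rw [← hl, hz, map_sub, add_sub_cancel]
  funext i
  rw [h1, Pi.add_apply, Pi.smul_apply, C.eps_N, smul_eq_mul, Int.cast_add, Int.cast_mul,
    Int.cast_natCast, ZMod.natCast_self, zero_mul, add_zero]

private lemma EMat_U {Λ : Type} [CommRing Λ] {n : ℕ} (C : CycData Λ n) {M M' : Type}
    [AddCommGroup M] [Module Λ M] [AddCommGroup M'] [Module Λ M']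
    (φ : QN C.N M →ₗ[Λ] QN C.N M') {a a' : ℕ} (π : M →+ (Fin a → ℤ)) (π' : M' →+ (Fin a' → ℤ))
    (hs : Function.Surjective π) (hk : ∀ x, π x = 0 ↔ ∃ y, x = C.t • y)
    (hl' : ∀ (l : Λ) x, π' (l • x) = C.eps l • π' x) :
    ∃ U : Matrix (Fin a') (Fin a) (ZMod n),
      ∀ (x : M) (y : M'), φ (Submodule.Quotient.mk x) = Submodule.Quotient.mk y →
        U.mulVec (fun i => ((π x i : ℤ) : ZMod n)) = fun i => ((π' y i : ℤ) : ZMod n) := by
  classical
  have h1 : ∀ j : Fin a, ∃ m : M, π m = Pi.single j 1 := fun j => hs _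
  choose m hm using h1
  have h2 : ∀ z : QN C.N M', ∃ y : M', (Submodule.Quotient.mk y : QN C.N M') = z :=
    fun z => Submodule.Quotient.mk_surjective _ z
  choose r hr using h2
  refine ⟨Matrix.of fun i j => ((π' (r (φ (Submodule.Quotient.mk (m j)))) i : ℤ) : ZMod n),
    fun x y hxy => ?_⟩
  have h3 : π (x - ∑ j, (π x j) • m j) = 0 := by
    rw [map_sub, map_sum, sub_eq_zero]
    funext i
    rw [Finset.sum_apply, Finset.sum_eq_single i]
    · rw [map_zsmul, hm, Pi.smul_apply, Pi.single_eq_same, smul_eq_mul, mul_one]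
    · intro j _ hj
      rw [map_zsmul, hm, Pi.smul_apply, Pi.single_eq_of_ne hj.symm, smul_zero]
    · intro hi
      exact absurd (Finset.mem_univ i) hi
  obtain ⟨w, hw⟩ := (hk _).1 h3
  have h4 : x = ∑ j, (π x j) • m j + C.t • w := by
    rw [← hw]
    abel
  have h5 : (Submodule.Quotient.mk y : QN C.N M') = Submodule.Quotient.mk
      (∑ j, (π x j) • r (φ (Submodule.Quotient.mk (m j))) +
        C.t • r (φ (Submodule.Quotient.mk w))) := by
    have e1 : ∀ v : M, (Submodule.Quotient.mk v : QN C.N M) =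
      Submodule.mkQ (Ideal.span {C.N} • (⊤ : Submodule Λ M)) v := fun v => rfl
    have e2 : ∀ v : M', (Submodule.Quotient.mk v : QN C.N M') =
      Submodule.mkQ (Ideal.span {C.N} • (⊤ : Submodule Λ M')) v := fun v => rfl
    rw [← hxy]
    conv_lhs => rw [h4]
    rw [e1, e2, map_add, map_add, map_add, map_sum, map_sum, map_sum, map_smul, map_smul,
      map_smul, ← e2, ← e1, hr]
    congr 1
    refine Finset.sum_congr rfl fun j _ => ?_
    rw [map_zsmul, map_zsmul, map_zsmul, ← e2, ← e1, hr]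
  have h6 := EMat_W C π' hl' h5
  rw [h6]
  funext i
  rw [map_add, map_sum, hl', C.eps_t, zero_smul, add_zero, Finset.sum_apply, Int.cast_sum]
  simp only [Matrix.mulVec, dotProduct, Matrix.of_apply]
  refine Finset.sum_congr rfl fun j _ => ?_
  rw [map_zsmul, Pi.smul_apply, smul_eq_mul, Int.cast_mul, mul_comm]

private lemma EMat_inv {Λ : Type} [CommRing Λ] {n : ℕ} (C : CycData Λ n) {M M' : Type}
    [AddCommGroup M] [Module Λ M] [AddCommGroup M'] [Module Λ M']
    (φ : QN C.N M ≃ₗ[Λ] QN C.N M') {a a' : ℕ} (π : M →+ (Fin a → ℤ)) (π' : M' →+ (Fin a' → ℤ))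
    (hs : Function.Surjective π) (U : Matrix (Fin a') (Fin a) (ZMod n))
    (V : Matrix (Fin a) (Fin a') (ZMod n))
    (hU : ∀ (x : M) (y : M'), φ (Submodule.Quotient.mk x) = Submodule.Quotient.mk y →
        U.mulVec (fun i => ((π x i : ℤ) : ZMod n)) = fun i => ((π' y i : ℤ) : ZMod n))
    (hV : ∀ (y : M') (x : M), φ.symm (Submodule.Quotient.mk y) = Submodule.Quotient.mk x →
        V.mulVec (fun i => ((π' y i : ℤ) : ZMod n)) = fun i => ((π x i : ℤ) : ZMod n)) :
    V * U = 1 := by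
  classical
  refine Matrix.toLin'.injective (LinearMap.pi_ext' fun j => LinearMap.ext_ring ?_)
  obtain ⟨x, hx⟩ := hs (Pi.single j 1)
  obtain ⟨y, hy⟩ := Submodule.Quotient.mk_surjective _ (φ (Submodule.Quotient.mk x))
  have h1 : (Pi.single j 1 : Fin a → ZMod n) = fun i => ((π x i : ℤ) : ZMod n) := by
    funext i
    rw [hx]
    by_cases hij : i = j
    · subst hij
      simp
    · simp [hij]
  have h2 := hU x y hy.symm
  have h3 := hV y x (by rw [hy, LinearEquiv.symm_apply_apply])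
  simp only [LinearMap.coe_comp, Function.comp_apply, LinearMap.coe_single, Matrix.toLin'_apply,
    Matrix.one_mulVec]
  rw [← Matrix.mulVec_mulVec, h1, h2, h3]

theorem sEMat : S_EMat := by
  intro Λ _ n C hn M M' _ _ _ _ φ a a' π π' hs hs' hk hk' hl hl'
  obtain ⟨U, hU⟩ := EMat_U C φ.toLinearMap π π' hs hk hl'
  obtain ⟨V, hV⟩ := EMat_U C φ.symm.toLinearMap π' π hs' hk' hl
  have h1 : V * U = 1 := EMat_inv C φ π π' hs U V hU hV
  have h2 : U * V = 1 := EMat_inv C φ.symm π' π hs' V U hV fun x y h => hU x y h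
  have : Fact (1 < n) := ⟨hn⟩
  refine ⟨?_, U, fun x y h => hU x y h, V, h2, h1⟩
  have h3 := card_eq_of_linearEquiv (ZMod n) (Matrix.toLin'OfInv h1 h2)
  simpa using h3

end HSp
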