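import Pool.Agent.Lib.MP_181146_gt.HS.Spec

/-!
# Project HS, statement EPa: patching
-/

set_option autoImplicit false

namespace HSp

/-- Lifting of matrices of determinant one, for arbitrary finite index types. -/
private lemma epa_liftSL (hESL : S_ESL) (ι : Type) [Fintype ι] [DecidableEq ι] (n : ℕ)
    (hn : 0 < n) (A : Matrix ι ι (ZMod n)) (hA : A.det = 1) :
    ∃ B : Matrix ι ι ℤ, B.det = 1 ∧ ∀ i j, ((B i j : ℤ) : ZMod n) = A i j := by
  let e : ι ≃ Fin (Fintype.card ι) := Fintype.equivFin ι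
  have hA' : (A.submatrix e.symm e.symm).det = 1 := by
    rw [Matrix.det_submatrix_equiv_self, hA]
  obtain ⟨B, hB⟩ := hESL (Fintype.card ι) n hn ⟨A.submatrix e.symm e.symm, hA'⟩
  refine ⟨B.1.submatrix e e, ?_, ?_⟩
  · rw [Matrix.det_submatrix_equiv_self]
    exact B.2
  · intro i j
    have h1 : (Matrix.SpecialLinearGroup.map (Int.castRingHom (ZMod n)) B).1 (e i) (e j)
        = (A.submatrix e.symm e.symm) (e i) (e j) := by
      rw [hB]
    simpa using h1

/-- The isomorphism of the quotients modulo `t` given by an invertible integral matrix. -/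
private lemma epa_psi {Λ : Type} [CommRing Λ] {n : ℕ} (C : CycData Λ n) (M M' : Type)
    [AddCommGroup M] [Module Λ M] [AddCommGroup M'] [Module Λ M'] (ι : Type) [Fintype ι]
    [DecidableEq ι] (π : M →+ (ι → ℤ)) (π' : M' →+ (ι → ℤ)) (hs : Function.Surjective π)
    (hs' : Function.Surjective π') (hk : ∀ x, π x = 0 ↔ ∃ y, x = C.t • y)
    (hk' : ∀ x, π' x = 0 ↔ ∃ y, x = C.t • y) (hl : ∀ (l : Λ) x, π (l • x) = C.eps l • π x)
    (hl' : ∀ (l : Λ) x, π' (l • x) = C.eps l • π' x) (B B' : Matrix ι ι ℤ)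
    (h1 : B * B' = 1) (h2 : B' * B = 1) :
    ∃ ψ : QN C.t M ≃ₗ[Λ] QN C.t M', ∀ (x : M) (y : M'),
      ψ (Submodule.Quotient.mk x) = Submodule.Quotient.mk y → π' y = B.mulVec (π x) := by
  let inst : Module Λ (ι → ℤ) := Module.compHom (ι → ℤ) C.eps
  have hsm : ∀ (l : Λ) (f : ι → ℤ), l • f = C.eps l • f := fun l f => rfl
  let p : M →ₗ[Λ] (ι → ℤ) :=
    { toFun := π, map_add' := map_add π, map_smul' := fun l x => hl l x }
  let p' : M' →ₗ[Λ] (ι → ℤ) :=
    { toFun := π', map_add' := map_add π', map_smul' := fun l x => hl' l x }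
  let b : (ι → ℤ) ≃ₗ[Λ] (ι → ℤ) :=
    { toFun := B.mulVec
      invFun := B'.mulVec
      left_inv := fun f => by
        rw [Matrix.mulVec_mulVec, h2, Matrix.one_mulVec]
      right_inv := fun f => by
        rw [Matrix.mulVec_mulVec, h1, Matrix.one_mulVec]
      map_add' := fun f g => Matrix.mulVec_add B f g
      map_smul' := fun l f => by
        change B.mulVec (C.eps l • f) = C.eps l • B.mulVec f
        rw [Matrix.mulVec_smul] }
  have hker : (Ideal.span {C.t} • (⊤ : Submodule Λ M)) = LinearMap.ker p := by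
    ext x
    rw [LinearMap.mem_ker, Submodule.ideal_span_singleton_smul]
    constructor
    · rintro ⟨y, -, rfl⟩
      exact (hk _).2 ⟨y, rfl⟩
    · intro hx
      obtain ⟨y, rfl⟩ := (hk x).1 hx
      exact ⟨y, trivial, rfl⟩
  have hker' : (Ideal.span {C.t} • (⊤ : Submodule Λ M')) = LinearMap.ker p' := by
    ext x
    rw [LinearMap.mem_ker, Submodule.ideal_span_singleton_smul]
    constructor
    · rintro ⟨y, -, rfl⟩
      exact (hk' _).2 ⟨y, rfl⟩
    · intro hx
      obtain ⟨y, rfl⟩ := (hk' x).1 hx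
      exact ⟨y, trivial, rfl⟩
  let r : QN C.t M ≃ₗ[Λ] (ι → ℤ) :=
    (Submodule.quotEquivOfEq _ _ hker).trans (p.quotKerEquivOfSurjective hs)
  let r' : QN C.t M' ≃ₗ[Λ] (ι → ℤ) :=
    (Submodule.quotEquivOfEq _ _ hker').trans (p'.quotKerEquivOfSurjective hs')
  refine ⟨(r.trans b).trans r'.symm, ?_⟩
  intro x y hxy
  have h3 : b (r (Submodule.Quotient.mk x)) = r' (Submodule.Quotient.mk y) :=
    (LinearEquiv.symm_apply_eq r').1 hxy
  have h4 : r (Submodule.Quotient.mk x) = π x := rfl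
  have h5 : r' (Submodule.Quotient.mk y) = π' y := rfl
  rw [h4, h5] at h3
  exact h3.symm

/-- `φ × w` on `M / N × Λ / N`. -/
private lemma epa_phi {Λ : Type} [CommRing Λ] (N : Λ) (M M' : Type)
    [AddCommGroup M] [Module Λ M] [AddCommGroup M'] [Module Λ M'] (φ : QN N M ≃ₗ[Λ] QN N M')
    (v w z : Λ) (hvw : v * w = 1 + N * z) :
    ∃ φ1 : QN N (M × Λ) ≃ₗ[Λ] QN N (M' × Λ), ∀ (m : M) (m' : M') (l : Λ),
      φ (Submodule.Quotient.mk m) = Submodule.Quotient.mk m' →
        φ1 (Submodule.Quotient.mk (m, l)) = Submodule.Quotient.mk (m', w * l) := by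
  have hN : ∀ (A : Type) [AddCommGroup A] [Module Λ A] (x : QN N A), N • x = 0 := by
    intro A _ _ x
    obtain ⟨a, rfl⟩ := Submodule.mkQ_surjective _ x
    rw [← map_smul, Submodule.mkQ_apply, Submodule.Quotient.mk_eq_zero,
      Submodule.ideal_span_singleton_smul]
    exact ⟨a, trivial, rfl⟩
  have key : ∀ (A A' : Type) [AddCommGroup A] [Module Λ A] [AddCommGroup A'] [Module Λ A']
      (f : QN N A →ₗ[Λ] QN N A') (s : Λ), ∃ g : QN N (A × Λ) →ₗ[Λ] QN N (A' × Λ),
      ∀ (m : A) (m' : A') (l : Λ), f (Submodule.Quotient.mk m) = Submodule.Quotient.mk m' →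
        g (Submodule.Quotient.mk (m, l)) = Submodule.Quotient.mk (m', s * l) := by
    intro A A' _ _ _ _ f s
    let g0 : (A × Λ) →ₗ[Λ] QN N (A' × Λ) :=
      (qmap (Ideal.span {N}) (LinearMap.inl Λ A' Λ)) ∘ₗ f ∘ₗ (Submodule.mkQ _) ∘ₗ
        (LinearMap.fst Λ A Λ) +
      (Submodule.mkQ _) ∘ₗ (LinearMap.inr Λ A' Λ) ∘ₗ (s • LinearMap.snd Λ A Λ)
    have hg0 : (Ideal.span {N} • (⊤ : Submodule Λ (A × Λ))) ≤ LinearMap.ker g0 := by
      intro x hx
      rw [Submodule.ideal_span_singleton_smul] at hx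
      obtain ⟨y, -, rfl⟩ := hx
      rw [LinearMap.mem_ker]
      change g0 (N • y) = 0
      rw [map_smul, hN]
    refine ⟨Submodule.liftQ _ g0 hg0, ?_⟩
    intro m m' l hm
    change g0 (m, l) = _
    have h1 : g0 (m, l) = qmap (Ideal.span {N}) (LinearMap.inl Λ A' Λ)
        (f (Submodule.Quotient.mk m)) + Submodule.Quotient.mk (0, s * l) := rfl
    rw [h1, hm]
    have h2 : qmap (Ideal.span {N}) (LinearMap.inl Λ A' Λ) (Submodule.Quotient.mk m')
        = Submodule.Quotient.mk (m', 0) := rfl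
    rw [h2, ← Submodule.Quotient.mk_add, Prod.mk_add_mk, add_zero, zero_add]
  obtain ⟨f, hf⟩ := key M M' φ.toLinearMap w
  obtain ⟨g, hg⟩ := key M' M φ.symm.toLinearMap v
  have hfg : ∀ (A : Type) [AddCommGroup A] [Module Λ A] (m : A) (l : Λ),
      (Submodule.Quotient.mk (m, v * w * l) : QN N (A × Λ)) = Submodule.Quotient.mk (m, l) := by
    intro A _ _ m l
    rw [Submodule.Quotient.eq, Submodule.ideal_span_singleton_smul]
    refine ⟨(0, z * l), trivial, ?_⟩
    change N • ((0 : A), z * l) = _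
    rw [Prod.smul_mk, smul_zero, Prod.mk_sub_mk, sub_self, hvw, smul_eq_mul]
    congr 1
    ring
  refine ⟨LinearEquiv.ofLinearMap f g ?_ ?_, ?_⟩
  · refine LinearMap.ext fun x => ?_
    obtain ⟨⟨m', l⟩, rfl⟩ := Submodule.mkQ_surjective _ x
    obtain ⟨m, hm⟩ := Submodule.mkQ_surjective _ (φ.symm (Submodule.Quotient.mk m'))
    rw [Submodule.mkQ_apply] at hm
    change f (g (Submodule.Quotient.mk (m', l))) = Submodule.Quotient.mk (m', l)
    rw [hg m' m l hm.symm, hf m m' (v * l) (by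
      change φ (Submodule.Quotient.mk m) = _
      rw [hm, LinearEquiv.apply_symm_apply])]
    rw [← hfg M' m' l]
    congr 2
    ring
  · refine LinearMap.ext fun x => ?_
    obtain ⟨⟨m, l⟩, rfl⟩ := Submodule.mkQ_surjective _ x
    obtain ⟨m', hm⟩ := Submodule.mkQ_surjective _ (φ (Submodule.Quotient.mk m))
    rw [Submodule.mkQ_apply] at hm
    change g (f (Submodule.Quotient.mk (m, l))) = Submodule.Quotient.mk (m, l)
    rw [hf m m' l hm.symm, hg m' m (w * l) (by
      change φ.symm (Submodule.Quotient.mk m') = _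
      rw [hm, LinearEquiv.symm_apply_apply])]
    rw [← hfg M m l]
    congr 2
    ring
  · intro m m' l hm
    exact hf m m' l hm

theorem sEPa (hESL : S_ESL) (hEGl : S_EGl) (hEMat : S_EMat) (hPrRk : S_PrRk) : S_EPa := by
  intro Λ _ n C hn M M' _ _ _ _ _ _ _ _ φ
  have hn0 : 0 < n := by omega
  have : NeZero n := ⟨by omega⟩
  obtain ⟨a, π, hs, hk, hl⟩ := hPrRk Λ n C M
  obtain ⟨a', π', hs', hk', hl'⟩ := hPrRk Λ n C M'
  obtain ⟨haa, U, hU, V, hUV, hVU⟩ :=
    hEMat Λ n C hn M M' φ a a' π π' hs hs' hk hk' hl hl'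
  subst haa
  -- the determinant
  have hdet : IsUnit U.det := by
    refine IsUnit.of_mul_eq_one V.det ?_
    rw [← Matrix.det_mul, hUV, Matrix.det_one]
  have hcop : (U.det.val).Coprime n := by
    rw [← ZMod.isUnit_iff_coprime, ZMod.natCast_zmod_val]
    exact hdet
  obtain ⟨v, w, z, hvw, hv⟩ := C.unit U.det.val hcop
  have hc0 : U.det * ((C.eps w : ℤ) : ZMod n) = 1 := by
    have h1 : C.eps v * C.eps w = 1 + (n : ℤ) * C.eps z := by
      rw [← map_mul, hvw, map_add, map_one, map_mul, C.eps_N]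
    have h2 := congrArg (fun x : ℤ => (x : ZMod n)) h1
    simp only [Int.cast_mul, Int.cast_add, Int.cast_one, Int.cast_natCast, hv] at h2
    rw [ZMod.natCast_zmod_val, ZMod.natCast_self, zero_mul, add_zero] at h2
    exact h2
  obtain ⟨φ1, hφ1⟩ := epa_phi C.N M M' φ v w z hvw
  -- the maps to `ℤ^(a+1)`
  let E : ∀ (A : Type) [AddCommGroup A] (ρ : A →+ (Fin a → ℤ)), (A × Λ) →+ (Fin a ⊕ Unit → ℤ) :=
    fun A _ ρ =>
    { toFun := fun x => Sum.elim (ρ x.1) (fun _ => C.eps x.2)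
      map_zero' := by
        funext i
        rcases i with i | i
        · simp
        · simp
      map_add' := fun x y => by
        funext i
        rcases i with i | i
        · simp
        · simp }
  have hE : ∀ (A : Type) [AddCommGroup A] (ρ : A →+ (Fin a → ℤ)) (x : A × Λ),
      E A ρ x = Sum.elim (ρ x.1) (fun _ => C.eps x.2) := fun A _ ρ x => rfl
  have hepss : Function.Surjective C.eps := fun m => ⟨(m : Λ), by rw [map_intCast]; rfl⟩
  have hEs : ∀ (A : Type) [AddCommGroup A] (ρ : A →+ (Fin a → ℤ)), Function.Surjective ρ →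
      Function.Surjective (E A ρ) := by
    intro A _ ρ hρ f
    obtain ⟨x, hx⟩ := hρ (fun i => f (Sum.inl i))
    obtain ⟨y, hy⟩ := hepss (f (Sum.inr ()))
    refine ⟨(x, y), ?_⟩
    rw [hE]
    funext i
    rcases i with i | i
    · simp [hx]
    · simp [hy]
  have hEk : ∀ (A : Type) [AddCommGroup A] [Module Λ A] (ρ : A →+ (Fin a → ℤ)),
      (∀ x, ρ x = 0 ↔ ∃ y, x = C.t • y) → ∀ x, E A ρ x = 0 ↔ ∃ y, x = C.t • y := by
    intro A _ _ ρ hρ x
    rw [hE]
    constructor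
    · intro h
      have h1 : ρ x.1 = 0 := by
        funext i
        exact congrFun h (Sum.inl i)
      have h2 : C.eps x.2 = 0 := congrFun h (Sum.inr ())
      obtain ⟨y, hy⟩ := (hρ x.1).1 h1
      obtain ⟨y', hy'⟩ := C.ker_eps x.2 h2
      refine ⟨(y, y'), ?_⟩
      rw [Prod.smul_mk, ← hy, smul_eq_mul, ← hy']
    · rintro ⟨⟨y, y'⟩, rfl⟩
      have h1 : ρ (C.t • y) = 0 := (hρ _).2 ⟨y, rfl⟩
      have h2 : C.eps (C.t * y') = 0 := by rw [map_mul, C.eps_t, zero_mul]
      funext i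
      rcases i with i | i
      · change ρ (C.t • y) i = 0
        rw [h1]
        rfl
      · exact h2
  have hEl : ∀ (A : Type) [AddCommGroup A] [Module Λ A] (ρ : A →+ (Fin a → ℤ)),
      (∀ (l : Λ) x, ρ (l • x) = C.eps l • ρ x) →
      ∀ (l : Λ) x, E A ρ (l • x) = C.eps l • E A ρ x := by
    intro A _ _ ρ hρ l x
    rw [hE, hE]
    funext i
    rcases i with i | i
    · change ρ (l • x.1) i = C.eps l • (ρ x.1 i)
      rw [hρ]
      rfl
    · change C.eps (l * x.2) = C.eps l • C.eps x.2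
      rw [map_mul, smul_eq_mul]
  -- the matrix
  let U1 : Matrix (Fin a ⊕ Unit) (Fin a ⊕ Unit) (ZMod n) :=
    Matrix.fromBlocks U 0 0 (fun _ _ => ((C.eps w : ℤ) : ZMod n))
  have hU1 : U1.det = 1 := by
    change (Matrix.fromBlocks U 0 0 (fun _ _ => ((C.eps w : ℤ) : ZMod n))).det = 1
    have hu : Matrix.det (fun _ _ => ((C.eps w : ℤ) : ZMod n) : Matrix Unit Unit (ZMod n))
        = ((C.eps w : ℤ) : ZMod n) := Matrix.det_unique _
    rw [Matrix.det_fromBlocks_zero₂₁, hu, hc0]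
  obtain ⟨B, hB1, hB⟩ := epa_liftSL hESL (Fin a ⊕ Unit) n hn0 U1 hU1
  obtain ⟨ψ, hψ⟩ := epa_psi C (M × Λ) (M' × Λ) (Fin a ⊕ Unit) (E M π) (E M' π')
    (hEs M π hs) (hEs M' π' hs') (hEk M π hk) (hEk M' π' hk') (hEl M π hl) (hEl M' π' hl')
    B B.adjugate (by rw [Matrix.mul_adjugate, hB1, one_smul])
    (by rw [Matrix.adjugate_mul, hB1, one_smul])
  refine hEGl Λ n C hn (M × Λ) (M' × Λ) φ1 ψ ?_
  rintro ⟨m, l⟩ ⟨m1, l1⟩ y' hy hy'
  have h1 := hψ _ _ hy'
  obtain ⟨m', hm⟩ := Submodule.mkQ_surjective _ (φ (Submodule.Quotient.mk m))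
  rw [Submodule.mkQ_apply] at hm
  have h2 := hφ1 m m' l hm.symm
  rw [hy, Submodule.Quotient.eq, Submodule.ideal_span_singleton_smul] at h2
  obtain ⟨c, -, hc⟩ := h2
  have hc' : C.N • c = (m1, l1) - (m', w * l) := hc
  have h3 := hU m m' hm.symm
  -- congruence modulo `n`
  have h4 : ∀ i, ((E M' π' (m1, l1) i : ℤ) : ZMod n) = ((E M' π' y' i : ℤ) : ZMod n) := by
    intro i
    have h5 : (m1, l1) = C.N • c + (m', w * l) := by
      rw [hc', sub_add_cancel]
    rw [h1, h5, map_add, hEl M' π' hl', C.eps_N]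
    have h6 : ((((n : ℤ) • E M' π' c + E M' π' (m', w * l)) i : ℤ) : ZMod n)
        = ((E M' π' (m', w * l) i : ℤ) : ZMod n) := by
      rw [Pi.add_apply, Pi.smul_apply, smul_eq_mul, Int.cast_add, Int.cast_mul,
        Int.cast_natCast, ZMod.natCast_self, zero_mul, zero_add]
    rw [h6]
    have h7 : ((B.mulVec (E M π (m, l)) i : ℤ) : ZMod n)
        = ∑ j, U1 i j * ((E M π (m, l) j : ℤ) : ZMod n) := by
      change ((∑ j, B i j * E M π (m, l) j : ℤ) : ZMod n) = _
      rw [Int.cast_sum]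
      refine Finset.sum_congr rfl fun j _ => ?_
      rw [Int.cast_mul, hB]
    rw [h7, Fintype.sum_sum_type, hE, hE]
    rcases i with i | i
    · have h8 := congrFun h3 i
      simp only [Sum.elim_inl, Sum.elim_inr, U1, Matrix.fromBlocks_apply₁₁,
        Matrix.fromBlocks_apply₁₂, Matrix.zero_apply, zero_mul, Finset.sum_const_zero, add_zero]
      rw [← h8]
      rfl
    · simp only [Sum.elim_inl, Sum.elim_inr, U1, Matrix.fromBlocks_apply₂₁,
        Matrix.fromBlocks_apply₂₂, Matrix.zero_apply, zero_mul, Finset.sum_const_zero, zero_add,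
        Finset.univ_unique, Finset.sum_singleton, map_mul, Int.cast_mul]
  -- conclusion
  have h9 : ∀ i, ∃ k : ℤ, E M' π' ((m1, l1) - y') i = (n : ℤ) * k := by
    intro i
    have h10 : ((E M' π' ((m1, l1) - y') i : ℤ) : ZMod n) = 0 := by
      rw [map_sub, Pi.sub_apply, Int.cast_sub, h4, sub_self]
    exact (ZMod.intCast_zmod_eq_zero_iff_dvd _ n).1 h10
  choose k hk9 using h9
  obtain ⟨b, hb⟩ := hEs M' π' hs' k
  have h11 : E M' π' ((m1, l1) - y' - C.N • b) = 0 := by
    rw [map_sub, hEl M' π' hl', C.eps_N, hb]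
    funext i
    rw [Pi.sub_apply, hk9 i]
    change (n : ℤ) * k i - (n : ℤ) * k i = 0
    rw [sub_self]
  obtain ⟨y, hy2⟩ := (hEk M' π' hk' _).1 h11
  exact ⟨y, b, by rw [← hy2, sub_add_cancel]⟩

end HSp
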