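import Pool.Agent.Lib.MP_181146_gt.HS.Spec

set_option autoImplicit false

namespace HSp

private lemma mem_NS {Λ : Type} [CommRing Λ] (N : Λ) {M : Type} [AddCommGroup M] [Module Λ M]
    (x : M) : x ∈ Ideal.span {N} • (⊤ : Submodule Λ M) ↔ ∃ y, N • y = x := by
  rw [Submodule.ideal_span_singleton_smul, Submodule.mem_smul_pointwise_iff_exists]
  constructor
  · rintro ⟨y, -, hy⟩
    exact ⟨y, hy⟩
  · rintro ⟨y, hy⟩
    exact ⟨y, Submodule.mem_top, hy⟩

private def bigmap (Λ : Type) [CommRing Λ] (N : Λ) (K s : ℕ) (P : Fin K → Type)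
    [∀ i, AddCommGroup (P i)] [∀ i, Module Λ (P i)] :
    ((∀ j, P j) × (Fin s → Λ)) →ₗ[Λ] ((∀ j, QN N (P j)) × (Fin s → Λ ⧸ Ideal.span {N})) :=
  LinearMap.prodMap
    (LinearMap.pi fun j => (Submodule.mkQ (Ideal.span {N} • (⊤ : Submodule Λ (P j)))) ∘ₗ
      LinearMap.proj j)
    (LinearMap.pi fun i => (Submodule.mkQ (Ideal.span {N} : Submodule Λ Λ)) ∘ₗ LinearMap.proj i)

private lemma bigmap_surj (Λ : Type) [CommRing Λ] (N : Λ) (K s : ℕ) (P : Fin K → Type)
    [∀ i, AddCommGroup (P i)] [∀ i, Module Λ (P i)] :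
    Function.Surjective (bigmap Λ N K s P) := by
  intro z
  choose a ha using fun j : Fin K => Submodule.Quotient.mk_surjective _ (z.1 j)
  choose b hb using fun i : Fin s => Submodule.Quotient.mk_surjective _ (z.2 i)
  refine ⟨(a, b), Prod.ext ?_ ?_⟩
  · funext j
    exact ha j
  · funext i
    exact hb i

private lemma bigmap_ker (Λ : Type) [CommRing Λ] (N : Λ) (K s : ℕ) (P : Fin K → Type)
    [∀ i, AddCommGroup (P i)] [∀ i, Module Λ (P i)] :
    Ideal.span {N} • (⊤ : Submodule Λ ((∀ j, P j) × (Fin s → Λ))) =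
      LinearMap.ker (bigmap Λ N K s P) := by
  ext x
  rw [mem_NS, LinearMap.mem_ker]
  constructor
  · rintro ⟨y, rfl⟩
    refine Prod.ext ?_ ?_
    · funext j
      change Submodule.Quotient.mk (N • y.1 j) = 0
      exact (Submodule.Quotient.mk_eq_zero _).2 ((mem_NS N _).2 ⟨_, rfl⟩)
    · funext i
      change Submodule.Quotient.mk (N • y.2 i) = 0
      refine (Submodule.Quotient.mk_eq_zero _).2 ?_
      exact Ideal.mul_mem_right _ _ (Ideal.mem_span_singleton_self N)
  · intro h
    have h1 : ∀ j, ∃ y, N • y = x.1 j := by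
      intro j
      have := congrFun (congrArg Prod.fst h) j
      exact (mem_NS N _).1 ((Submodule.Quotient.mk_eq_zero _).1 this)
    have h2 : ∀ i, ∃ y, N * y = x.2 i := by
      intro i
      have := congrFun (congrArg Prod.snd h) i
      have h3 := (Submodule.Quotient.mk_eq_zero _).1 this
      obtain ⟨y, hy⟩ := Ideal.mem_span_singleton'.1 h3
      exact ⟨y, by rw [mul_comm]; exact hy⟩
    choose a ha using h1
    choose b hb using h2
    exact ⟨(a, b), Prod.ext (funext ha) (funext hb)⟩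

theorem sEQn : S_EQn := by
  intro Λ _ N K s P _ _
  exact ⟨(Submodule.quotEquivOfEq _ _ (bigmap_ker Λ N K s P)).trans
    ((bigmap Λ N K s P).quotKerEquivOfSurjective (bigmap_surj Λ N K s P))⟩

end HSp
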