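import Pool.Agent.Lib.MP_181146_gt.HS.Spec

/-!
# Project HS: `PrKt`, annihilators in projective modules through dual bases
-/

set_option autoImplicit false

namespace HSp

private theorem PrKt_key {Λ : Type} [CommRing Λ] {M : Type} [AddCommGroup M] [Module Λ M]
    [Module.Projective Λ M] (x : M) (a b : Λ) (hab : ∀ z, a * z = 0 → ∃ y, z = b * y)
    (hx : a • x = 0) : ∃ y, x = b • y := by
  obtain ⟨s, hs⟩ := Module.projective_def'.mp (inferInstance : Module.Projective Λ M)
  have h1 : ∀ m, a * s x m = 0 := by
    intro m
    have h : s (a • x) = 0 := by rw [hx, map_zero]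
    rw [map_smul] at h
    have h' := DFunLike.congr_fun h m
    simpa using h'
  choose y hy using fun m => hab (s x m) (h1 m)
  have h2 : Finsupp.linearCombination Λ id (s x) = x := by
    have h := LinearMap.congr_fun hs x
    simpa using h
  refine ⟨∑ m ∈ (s x).support, y m • m, ?_⟩
  calc x = Finsupp.linearCombination Λ id (s x) := h2.symm
    _ = ∑ m ∈ (s x).support, s x m • m := by
        rw [Finsupp.linearCombination_apply, Finsupp.sum]
        rfl
    _ = ∑ m ∈ (s x).support, b • (y m • m) := by
        refine Finset.sum_congr rfl fun m _ => ?_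
        rw [hy m, mul_smul]
    _ = b • ∑ m ∈ (s x).support, y m • m := by rw [Finset.smul_sum]

theorem sPrKt : S_PrKt := by
  intro Λ _ n C M _ _ _ _ x
  exact ⟨fun h => PrKt_key x C.t C.N C.ker_t h, fun h => PrKt_key x C.N C.t C.ker_N h⟩

end HSp
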