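import Pool.Agent.Lib.MP_181146_gt.HS.Spec

/-!
# Project HS: `M / t M` is a finitely generated free abelian group (`S_PrRk`)
-/

set_option autoImplicit false

namespace HSp

theorem sPrRk : S_PrRk := by
  intro Λ _ n C M _ _ _ _
  obtain ⟨k, p, hp⟩ := Module.Finite.exists_fin' Λ M
  obtain ⟨i, hi⟩ := Module.projective_lifting_property p LinearMap.id hp
  have hpi : ∀ x, p (i x) = x := fun x => LinearMap.congr_fun hi x
  obtain ⟨L, hL⟩ : ∃ L : M →ₗ[ℤ] (Fin k → ℤ), ∀ x j, L x j = C.eps (i x j) := by
    refine ⟨AddMonoidHom.toIntLinearMap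
      { toFun := fun x j => C.eps (i x j)
        map_zero' := by
          funext j
          simp
        map_add' := by
          intro x y
          funext j
          simp }, fun x j => rfl⟩
  have hLt : ∀ (l : Λ) x, L (l • x) = C.eps l • L x := by
    intro l x
    funext j
    rw [hL, map_smul, Pi.smul_apply, Pi.smul_apply, hL, smul_eq_mul, smul_eq_mul, map_mul]
  have hker : ∀ x, L x = 0 ↔ ∃ y, x = C.t • y := by
    intro x
    constructor
    · intro h
      have h1 : ∀ j, ∃ y, i x j = C.t * y := fun j => C.ker_eps _ (by rw [← hL, h]; rfl)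
      choose v hv using h1
      refine ⟨p v, ?_⟩
      have h2 : i x = C.t • v := funext fun j => by
        rw [Pi.smul_apply, smul_eq_mul]
        exact hv j
      rw [← map_smul, ← h2, hpi]
    · rintro ⟨y, rfl⟩
      rw [hLt, C.eps_t, zero_smul]
  obtain ⟨a, b⟩ := Submodule.basisOfPid (Pi.basisFun ℤ (Fin k)) (LinearMap.range L)
  refine ⟨a, (b.equivFun.toLinearMap ∘ₗ L.rangeRestrict).toAddMonoidHom, ?_, ?_, ?_⟩
  · exact b.equivFun.surjective.comp L.surjective_rangeRestrict
  · intro x
    rw [← hker]
    change b.equivFun (L.rangeRestrict x) = 0 ↔ _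
    rw [LinearEquiv.map_eq_zero_iff]
    constructor
    · intro h
      exact congrArg Subtype.val h
    · intro h
      exact Subtype.ext h
  · intro l x
    change b.equivFun (L.rangeRestrict (l • x)) = C.eps l • b.equivFun (L.rangeRestrict x)
    rw [← map_smul]
    congr 1
    exact Subtype.ext (hLt l x)

end HSp
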