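import Pool.Agent.Lib.MP_181146_gt.HS.Spec

set_option autoImplicit false

namespace HSp

theorem sPrSec (hPrRk : S_PrRk) : S_PrSec := by
  intro Λ _ n C M _ _ hF hP
  obtain ⟨a, π, hs, hk, -⟩ := hPrRk Λ n C M
  choose m hm using fun i : Fin a => hs (Pi.single i 1)
  let s : M →+ M :=
    { toFun := fun x => ∑ i, π x i • m i
      map_zero' := by simp
      map_add' := fun x y => by
        rw [← Finset.sum_add_distrib]
        refine Finset.sum_congr rfl fun i _ => ?_
        rw [map_add, Pi.add_apply, add_smul] }
  have hsx : ∀ x, s x = ∑ i, π x i • m i := fun _ => rfl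
  refine ⟨s, fun x => ?_, fun x => ?_⟩
  · have h1 : π (C.t • x) = 0 := (hk _).2 ⟨x, rfl⟩
    rw [hsx, h1]
    simp
  · have h1 : π (x - s x) = 0 := by
      rw [map_sub, hsx, map_sum]
      have h2 : ∑ i, π (π x i • m i) = π x := by
        have h3 : ∀ i, π (π x i • m i) = π x i • Pi.single i (1 : ℤ) := fun i => by
          rw [map_zsmul, hm]
        rw [Finset.sum_congr rfl fun i _ => h3 i]
        ext j
        rw [Finset.sum_apply, Finset.sum_eq_single j]
        · simp
        · intro b _ hb
          simp [Pi.single_eq_of_ne hb.symm]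
        · intro h
          exact absurd (Finset.mem_univ _) h
      rw [h2, sub_self]
    obtain ⟨y, hy⟩ := (hk _).1 h1
    exact ⟨y, by rw [← hy, add_sub_cancel]⟩

end HSp
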