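import Pool.Agent.Lib.MP_181146_gt.HS.Spec

/-!
# Project HS: module PrTN
-/

set_option autoImplicit false

namespace HSp

private theorem PrTN_NN {Λ : Type} [CommRing Λ] {n : ℕ} (C : CycData Λ n) :
    C.N * C.N = (n : Λ) * C.N := by
  have h1 : C.N * C.t = 0 := by rw [mul_comm]; exact C.tN
  calc C.N * C.N = C.N * ((n : Λ) + (n.choose 2 : Λ) * C.t + C.t ^ 2 * C.c) := by
        rw [← C.N_eq]
    _ = (n : Λ) * C.N + ((n.choose 2 : Λ) + C.t * C.c) * (C.N * C.t) := by ring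
    _ = (n : Λ) * C.N := by rw [h1, mul_zero, add_zero]

theorem sPrTN (hPrTf : S_PrTf) : S_PrTN := by
  intro Λ _ n C M _ _ _ _ hn x y h
  have h1 : C.N • (C.t • x) = 0 := by
    rw [smul_smul, mul_comm, C.tN, zero_smul]
  have h2 : (n : ℤ) • (C.N • y) = 0 := by
    rw [h, smul_smul, PrTN_NN C, mul_smul] at h1
    rw [← h1, natCast_zsmul, Nat.cast_smul_eq_nsmul]
  have h3 : C.N • y = 0 := hPrTf Λ n C M (n : ℤ) (by exact_mod_cast hn.ne') _ h2
  exact ⟨h.trans h3, h3⟩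

end HSp
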