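import Pool.Agent.Lib.MP_181146_gt.HS.Spec

set_option autoImplicit false

namespace HSp

theorem sPrTf : S_PrTf := by
  intro Λ _ n C M _ _ _ hP m hm x hx
  obtain ⟨s, hs⟩ := hP.out
  have hF : Module.Free ℤ Λ := C.free
  have h1 : s x = 0 := by
    have h2 : m • s x = 0 := by rw [← map_zsmul, hx, map_zero]
    ext i
    have h3 : m • (s x i) = 0 := by
      have h4 := DFunLike.congr_fun h2 i
      simpa using h4
    exact (smul_eq_zero.1 h3).resolve_left hm
  have h5 := hs x
  rw [h1, map_zero] at h5
  exact h5.symm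

end HSp
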