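import Pool.Agent.Lib.MP_181146_gt.HS.SpecB

/-!
# Project HS, second part: existence of the splitting with the Betti relations

Module for statement S_SAll.
-/

set_option autoImplicit false

namespace HSp

private lemma mem_pt {Λ : Type} [CommRing Λ] {M : Type} [AddCommGroup M] [Module Λ M] (a : Λ)
    (x : M) : x ∈ (Ideal.span {a} • (⊤ : Submodule Λ M)) ↔ ∃ y, x = a • y := by
  rw [Submodule.ideal_span_singleton_smul, Submodule.mem_smul_pointwise_iff_exists]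
  constructor
  · rintro ⟨y, -, rfl⟩
    exact ⟨y, rfl⟩
  · rintro ⟨y, rfl⟩
    exact ⟨y, trivial, rfl⟩

private lemma card_qn {Λ : Type} [CommRing Λ] {M : Type} [AddCommGroup M] [Module Λ M]
    (e e2 : M →ₗ[Λ] M) (a : Λ) (h1 : ∀ x, e2 (e x) = e2 x)
    (h2 : ∀ x z, e2 x = a • e2 z → ∃ w, e x = a • e w) :
    Nat.card (QN a (LinearMap.range e)) = Nat.card (QN a (LinearMap.range e2)) := by
  let f : LinearMap.range e →ₗ[Λ] LinearMap.range e2 :=
    e2.rangeRestrict ∘ₗ (LinearMap.range e).subtype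
  let g : LinearMap.range e →ₗ[Λ] QN a (LinearMap.range e2) := Submodule.mkQ _ ∘ₗ f
  have hg : Function.Surjective g := by
    intro z
    obtain ⟨⟨z, x, rfl⟩, rfl⟩ := Submodule.mkQ_surjective _ z
    refine ⟨⟨e x, x, rfl⟩, ?_⟩
    change Submodule.mkQ _ (f ⟨e x, x, rfl⟩) = Submodule.mkQ _ _
    congr 1
    apply Subtype.ext
    change e2 (e x) = e2 x
    exact h1 x
  have hk : LinearMap.ker g = Ideal.span {a} • (⊤ : Submodule Λ (LinearMap.range e)) := by
    ext y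
    rw [mem_pt, LinearMap.mem_ker]
    constructor
    · intro hy
      obtain ⟨y, x, rfl⟩ := y
      have h3 : f ⟨e x, x, rfl⟩ ∈ (Ideal.span {a} • (⊤ : Submodule Λ (LinearMap.range e2))) :=
        (Submodule.Quotient.mk_eq_zero _).1 hy
      rw [mem_pt] at h3
      obtain ⟨⟨_, z, rfl⟩, hz⟩ := h3
      have h4 : e2 x = a • e2 z := by
        rw [← h1 x]
        exact congrArg Subtype.val hz
      obtain ⟨w, hw⟩ := h2 x z h4
      exact ⟨⟨e w, w, rfl⟩, Subtype.ext hw⟩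
    · rintro ⟨z, rfl⟩
      change Submodule.mkQ _ (f (a • z)) = 0
      rw [map_smul]
      exact (Submodule.Quotient.mk_eq_zero _).2 ((mem_pt _ _).2 ⟨f z, rfl⟩)
  exact Nat.card_congr ((Submodule.quotEquivOfEq _ _ hk.symm).trans
    (g.quotKerEquivOfSurjective hg)).toEquiv

section

variable {Λ : Type} [CommRing Λ] {n : ℕ}

private def zeroU {C : CycData Λ n} (X : Cx Λ C.t) (u : ℤ) (hu : u = 0) : SplitU X u where
  e _ := 0
  idem _ _ := rfl
  ue i x := by
    change u • (0 : X.F i) = 0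
    exact smul_zero _
  chain i x := by
    change X.dF i 0 = 0
    exact map_zero _
  onto i y hy _ := by
    refine ⟨0, ⟨0, ?_⟩, ?_⟩
    · rw [map_zero, smul_zero]
    · exact hy
  inj i x z w _ _ := by
    refine ⟨0, ?_⟩
    rw [hu, zero_smul, map_zero]

private lemma rk2 {C : CycData Λ n} {X : Cx Λ C.t} (u k : ℤ) (hk : u = 2 * k)
    (hu : (n : ℤ) ∣ u ^ 2 - u) (hn0 : ∀ i (y : X.F i), (n : ℤ) • y = 0) (S1 : SplitU X u)
    (S2 : SplitU X (1 - u)) (e : ∀ i, X.F i →ₗ[Λ] X.F i)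
    (he : ∀ i x, e i x = S1.e i x + S2.e i x) (r : ℕ → ℕ) (hr : IsRk e 2 r) :
    IsRk S2.e 2 r := by
  intro i
  rw [← hr i]
  symm
  have hz : ∀ y : X.F i, (u ^ 2 - u) • y = 0 := by
    intro y
    obtain ⟨c, hc⟩ := hu
    rw [hc, mul_comm, mul_smul, hn0, smul_zero]
  have hz' : ∀ y : X.F i, u • (1 - u) • y = 0 := by
    intro y
    rw [← mul_smul]
    have : u * (1 - u) = -(u ^ 2 - u) := by ring
    rw [this, neg_smul, hz, neg_zero]
  have h21 : ∀ x, S2.e i (S1.e i x) = 0 := by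
    intro x
    rw [← S1.ue, map_zsmul, ← S2.ue, hz']
  have h12 : ∀ x, S1.e i (S2.e i x) = 0 := by
    intro x
    rw [← S2.ue, map_zsmul, ← S1.ue, smul_comm, hz']
  have h2 : ∀ y : X.F i, ((2 : ℕ) : Λ) • y = (2 : ℤ) • y := by
    intro y
    rw [Nat.cast_smul_eq_nsmul]
    exact (natCast_zsmul y 2).symm
  refine card_qn (e i) (S2.e i) _ ?_ ?_
  · intro x
    rw [he, map_add, h21, S2.idem, zero_add]
  · intro x z hxz
    refine ⟨k • S1.e i x + S2.e i z, ?_⟩
    have h3 : e i (k • S1.e i x + S2.e i z) = k • S1.e i x + S2.e i z := by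
      rw [he, map_add, map_add, map_zsmul, map_zsmul, h21, h12, S1.idem, S2.idem]
      simp
    rw [h3, smul_add, ← hxz, h2, ← mul_smul, ← hk, S1.ue, he]

private lemma brel2 {C : CycData Λ n} {X : Cx Λ C.t} (u k : ℤ) (hk : u = 2 * k)
    (hu : (n : ℤ) ∣ u ^ 2 - u) (hn0 : ∀ i (y : X.F i), (n : ℤ) • y = 0) (S1 : SplitU X u)
    (S2 : SplitU X (1 - u)) (e : ∀ i, X.F i →ₗ[Λ] X.F i)
    (he : ∀ i x, e i x = S1.e i x + S2.e i x) (hB : BRel X S2.e 2) : BRel X e 2 :=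
  fun r b hr hb => hB r b (rk2 u k hk hu hn0 S1 S2 e he r hr) hb

private lemma exM (hCIdm : S_CIdm) (hCqF : S_CqF) (hn : 1 < n) {C : CycData Λ n}
    (X : Cx Λ C.t) (O : Om X) :
    ∃ m : ℕ, 0 < m ∧ ∀ i (x : X.F i), ((O.phi i : Module.End Λ (X.F i)) ^ m)
      (((O.phi i : Module.End Λ (X.F i)) ^ m) x) = ((O.phi i : Module.End Λ (X.F i)) ^ m) x := by
  obtain ⟨m, hm, h⟩ := hCIdm (fun i => X.F i)
    (fun i => (hCqF Λ n C X (by omega) i).1) X.D
    (fun i hi => by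
      have := X.bdd i hi
      exact (Submodule.mkQ_surjective (Ideal.span {C.t, C.N} •
        (⊤ : Submodule Λ (X.P i)))).subsingleton) (fun i => O.phi i)
  exact ⟨m, hm, fun i x => congrArg (fun f => f x) (h i)⟩

private lemma caseA (hCOm : S_COm) (hCIdm : S_CIdm) (hCqF : S_CqF) (hSU1 : S_SU1)
    (hSCb : S_SCb) (hSBe : S_SBe) (hn : 1 < n) (C : CycData Λ n) (X : Cx Λ C.t)
    (c' j : ℤ) (hc : (n.choose 2 : ℤ) = c' * j) (hc2 : (n : ℤ) ∣ c' ^ 2)
    (hp : ∀ p : ℕ, p.Prime → p ∣ n → (p : ℤ) ∣ (n.choose 2 : ℤ)) :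
    ∃ S : SplitF X, ∀ p : ℕ, p.Prime → p ∣ n → BRel X S.e p := by
  obtain ⟨O⟩ := hCOm Λ n C X (by omega)
  obtain ⟨m, hm, hid⟩ := exM hCIdm hCqF hn X O
  obtain ⟨S1, h1⟩ := hSU1 Λ n C X hn O 1 c' j (by norm_num) hc (by rwa [one_mul]) m hm hid
  obtain ⟨S, hS⟩ := hSCb Λ n C X hn 1 (by norm_num) S1 (zeroU X (1 - 1) (by norm_num))
  refine ⟨S, fun p hpp hpn => ?_⟩
  refine hSBe Λ n C X (by omega) O p hpp hpn (hp p hpp hpn) m hm S.e S.idem S.chain ?_
  intro i x
  refine ⟨0, ?_⟩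
  rw [hS, h1, one_smul, smul_zero]
  rfl

private lemma caseB (hCOm : S_COm) (hCIdm : S_CIdm) (hCqF : S_CqF) (hSU1 : S_SU1)
    (hSU2 : S_SU2) (hSCb : S_SCb) (hSBe : S_SBe) (hn : 1 < n) (C : CycData Λ n)
    (X : Cx Λ C.t) (a : ℕ) (ha : Odd a) (hna : n = 2 * a)
    (hch : (n.choose 2 : ℤ) = (a : ℤ) * (2 * a - 1)) :
    ∃ S : SplitF X, ∀ p : ℕ, p.Prime → p ∣ n → BRel X S.e p := by
  obtain ⟨O⟩ := hCOm Λ n C X (by omega)
  obtain ⟨m, hm, hid⟩ := exM hCIdm hCqF hn X O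
  obtain ⟨q, hq⟩ := ha
  have hq' : ((a : ℤ) + 1) = 2 * (q + 1) := by
    rw [hq]
    push_cast
    ring
  have hu : (n : ℤ) ∣ ((a : ℤ) + 1) ^ 2 - ((a : ℤ) + 1) := by
    refine ⟨q + 1, ?_⟩
    have : ((a : ℤ) + 1) ^ 2 - ((a : ℤ) + 1) = ((a : ℤ) + 1) * a := by ring
    rw [this, hq', hna]
    push_cast
    ring
  obtain ⟨S1, h1⟩ := hSU1 Λ n C X hn O ((a : ℤ) + 1) a (2 * a - 1) hu hch (by
    refine ⟨(q + 1) * a, ?_⟩
    rw [hq', hna]
    push_cast
    ring) m hm hid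
  obtain ⟨S2, h2⟩ := hSU2 Λ n C X a ⟨q, hq⟩ hna (1 - ((a : ℤ) + 1)) ⟨-1, by ring⟩
    ⟨-(q + 1), by
      have : (1 - ((a : ℤ) + 1)) - 1 = -((a : ℤ) + 1) := by ring
      rw [this, hq']
      ring⟩
  obtain ⟨S, hS⟩ := hSCb Λ n C X hn ((a : ℤ) + 1) hu S1 S2
  refine ⟨S, fun p hpp hpn => ?_⟩
  by_cases hp2 : p = 2
  · subst hp2
    exact brel2 ((a : ℤ) + 1) (q + 1) hq' hu
      (fun i y => (hCqF Λ n C X (by omega) i).2.1 y) S1 S2 S.e hS h2
  · have hpa : p ∣ a := by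
      rw [hna] at hpn
      rcases (Nat.Prime.dvd_mul hpp).1 hpn with h | h
      · exact absurd ((Nat.prime_dvd_prime_iff_eq hpp Nat.prime_two).1 h) hp2
      · exact h
    obtain ⟨b, hb⟩ := hpa
    refine hSBe Λ n C X (by omega) O p hpp hpn ?_ m hm S.e S.idem S.chain ?_
    · rw [hch, hb]
      push_cast
      exact ⟨(b : ℤ) * (2 * (p * b) - 1), by ring⟩
    · intro i x
      refine ⟨(b : ℤ) • ((O.phi i : Module.End Λ (X.F i)) ^ m) x - (b : ℤ) • S2.e i x, ?_⟩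
      rw [hS, h1, smul_sub, ← mul_smul, ← mul_smul]
      have h3 : ((p : ℤ) * b) = a := by
        rw [hb]
        push_cast
        ring
      rw [h3, add_smul, one_smul]
      have h4 : S2.e i x = -((a : ℤ) • S2.e i x) := by
        refine (S2.ue i x).symm.trans ?_
        generalize S2.e i x = y
        rw [show (1 - ((a : ℤ) + 1)) = -(a : ℤ) by ring, neg_smul]
      conv_lhs => rw [h4]
      abel

end

/-- Existence of the splitting with the Betti relations at all primes dividing `n`. -/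
theorem sSAll (hCOm : S_COm) (hCIdm : S_CIdm) (hCqF : S_CqF) (hSU1 : S_SU1) (hSU2 : S_SU2)
    (hSCb : S_SCb) (hSBe : S_SBe) : S_SAll := by
  intro Λ _ n C X hn
  have hch2 : n.choose 2 * 2 = n * (n - 1) := by
    rw [Nat.choose_two_right]
    exact Nat.div_mul_cancel (Nat.even_mul_pred_self n).two_dvd
  have hch : (n.choose 2 : ℤ) * 2 = n * (n - 1) := by
    have : ((n.choose 2 * 2 : ℕ) : ℤ) = ((n * (n - 1) : ℕ) : ℤ) := by rw [hch2]
    rw [Nat.cast_mul, Nat.cast_mul, Nat.cast_sub (by omega)] at this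
    simpa using this
  rcases Nat.even_or_odd n with ⟨a, ha⟩ | ⟨a, ha⟩
  · rcases Nat.even_or_odd a with ⟨b, hb⟩ | hb
    · -- four divides `n`
      have hn4 : (n : ℤ) = 4 * b := by
        rw [ha, hb]
        push_cast
        ring
      have hch' : (n.choose 2 : ℤ) = (2 * b) * (n - 1) := by
        have : (n.choose 2 : ℤ) * 2 = ((2 * b) * (n - 1)) * 2 := by
          rw [hch]
          nth_rewrite 1 [hn4]
          ring
        omega
      refine caseA hCOm hCIdm hCqF hSU1 hSCb hSBe hn C X (2 * b) (n - 1) hch' ?_ ?_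
      · rw [hn4]
        exact ⟨b, by ring⟩
      · intro p hp hpn
        rw [hch']
        apply Dvd.dvd.mul_right
        have h1 : p ∣ (2 * b) * 2 := by
          have : 2 * b * 2 = n := by omega
          rwa [this]
        rcases (Nat.Prime.dvd_mul hp).1 h1 with h | h
        · exact_mod_cast h
        · exact_mod_cast Dvd.dvd.mul_right h b
    · refine caseB hCOm hCIdm hCqF hSU1 hSU2 hSCb hSBe hn C X a hb (by omega) ?_
      have hn2 : (n : ℤ) = 2 * a := by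
        rw [ha]
        push_cast
        ring
      have : (n.choose 2 : ℤ) * 2 = ((a : ℤ) * (2 * a - 1)) * 2 := by
        rw [hch, hn2]
        ring
      omega
  · have hn2 : (n : ℤ) = 2 * a + 1 := by
      rw [ha]
      push_cast
      ring
    have hch' : (n.choose 2 : ℤ) = n * a := by
      have : (n.choose 2 : ℤ) * 2 = (n * a) * 2 := by
        rw [hch, hn2]
        ring
      omega
    refine caseA hCOm hCIdm hCqF hSU1 hSCb hSBe hn C X n a hch' (dvd_pow_self _ two_ne_zero) ?_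
    intro p hp hpn
    rw [hch']
    exact Dvd.dvd.mul_right (by exact_mod_cast hpn) _

end HSp
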