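import Pool.Agent.Lib.MP_181146_gt.HS.SpecB

/-! Project HS, module SBe: the Betti relation for `e = φ^m` modulo a prime `p` with
`p ∣ C(n,2)` (reduction to linear algebra over `ZMod p`). -/

set_option autoImplicit false
set_option linter.unusedVariables false

namespace HSp

private theorem SBe_pair {R M : Type} [CommRing R] [AddCommGroup M] [Module R M] (a b : R)
    (x : M) (hx : x ∈ (Ideal.span {a, b} • (⊤ : Submodule R M))) :
    ∃ y z, x = a • y + b • z := by
  refine Submodule.smul_induction_on hx ?_ ?_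
  · intro r hr m _
    obtain ⟨c, d, hab⟩ := Ideal.mem_span_pair.mp hr
    refine ⟨c • m, d • m, ?_⟩
    rw [← hab, add_smul, mul_comm c, mul_comm d, mul_smul, mul_smul]
  · rintro y z ⟨c, d, rfl⟩ ⟨c', d', rfl⟩
    refine ⟨c + c', d + d', ?_⟩
    rw [smul_add, smul_add]
    abel

private theorem SBe_pair' {R M : Type} [CommRing R] [AddCommGroup M] [Module R M] (a b : R)
    (y z : M) : a • y + b • z ∈ (Ideal.span {a, b} • (⊤ : Submodule R M)) := by
  refine Submodule.add_mem _ ?_ ?_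
  · exact Submodule.smul_mem_smul (Ideal.subset_span (by simp)) trivial
  · exact Submodule.smul_mem_smul (Ideal.subset_span (by simp)) trivial

/-- The projection `F → V`. -/
private theorem SBe_pi (hCqZ : S_CqZ) (Λ : Type) [CommRing Λ] (n : ℕ) (C : CycData Λ n)
    (X : Cx Λ C.t) (p : ℕ) (hpn : p ∣ n) (i : ℕ) :
    ∃ f : X.F i →ₗ[Λ] X.V p i, Function.Surjective f ∧
      (∀ x : X.P i, f (X.q i x) = Submodule.Quotient.mk x) ∧
      (∀ y, f y = 0 → ∃ z, y = (p : ℤ) • z) ∧ ∀ v : X.V p i, (p : ℤ) • v = 0 := by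
  obtain ⟨k, hk⟩ := hpn
  have hle : (Ideal.span {C.t, C.N} • (⊤ : Submodule Λ (X.P i))) ≤
      LinearMap.ker (Submodule.mkQ (Ideal.span {C.t, (p : Λ)} • (⊤ : Submodule Λ (X.P i)))) := by
    intro x hx
    obtain ⟨a, b, rfl⟩ := SBe_pair _ _ x hx
    rw [Submodule.ker_mkQ]
    have h1 : C.t • a + C.N • b =
        C.t • (a + ((n.choose 2 : Λ) + C.t * C.c) • b) + (p : Λ) • ((k : Λ) • b) := by
      have h2 : (n : Λ) = (p : Λ) * (k : Λ) := by rw [← Nat.cast_mul, ← hk]
      rw [← mul_smul, ← h2, smul_add, ← mul_smul, add_assoc, ← add_smul]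
      congr 2
      refine C.N_eq.trans ?_
      ring
    rw [h1]
    exact SBe_pair' _ _ _ _
  have hf : ∀ x : X.P i, Submodule.liftQ _ (Submodule.mkQ _) hle (X.q i x) =
      (Submodule.Quotient.mk x : X.V p i) := fun x => rfl
  refine ⟨Submodule.liftQ _ (Submodule.mkQ _) hle, ?_, hf, ?_, ?_⟩
  · intro v
    obtain ⟨x, rfl⟩ := Submodule.Quotient.mk_surjective _ v
    exact ⟨X.q i x, rfl⟩
  · intro y hy
    obtain ⟨x, rfl⟩ := X.q_surj i y
    rw [hf, Submodule.Quotient.mk_eq_zero] at hy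
    obtain ⟨a, b, rfl⟩ := SBe_pair _ _ x hy
    refine ⟨X.q i b, ?_⟩
    have h1 : X.q i (C.t • a) = 0 :=
      (hCqZ Λ n C X _ _).2 ⟨a, 0, by rw [smul_zero, add_zero]⟩
    rw [map_add, h1, zero_add, map_smul, Nat.cast_smul_eq_nsmul, natCast_zsmul]
  · intro v
    obtain ⟨x, rfl⟩ := Submodule.Quotient.mk_surjective _ v
    have h1 : (p : ℤ) • (Submodule.Quotient.mk x : X.V p i) =
        Submodule.Quotient.mk (C.t • (0 : X.P i) + (p : Λ) • x) := by
      rw [smul_zero, zero_add, natCast_zsmul, ← Nat.cast_smul_eq_nsmul Λ]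
      rfl
    rw [h1, Submodule.Quotient.mk_eq_zero]
    exact SBe_pair' _ _ _ _

/-- Operators pass to the quotient by the multiples of `p`. -/
private theorem SBe_lift {A B A' B' : Type} [AddCommGroup A] [AddCommGroup B] [AddCommGroup A']
    [AddCommGroup B'] (π : A →+ B) (hπ : Function.Surjective π) (π' : A' →+ B') (p : ℤ)
    (hk : ∀ y, π y = 0 → ∃ z, y = p • z) (hk' : ∀ z : B', p • z = 0) (f : A →+ A') :
    ∃ g : B →+ B', ∀ x, g (π x) = π' (f x) := by
  refine ⟨π.liftOfRightInverse (Function.surjInv hπ) (Function.rightInverse_surjInv hπ)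
    ⟨π'.comp f, ?_⟩, ?_⟩
  · intro y hy
    obtain ⟨z, rfl⟩ := hk y hy
    change π' (f (p • z)) = 0
    rw [map_zsmul, map_zsmul, hk']
  · intro x
    exact AddMonoidHom.liftOfRightInverse_comp_apply π _ _ ⟨π'.comp f, _⟩ x

/-- SLin in terms of additive maps and cardinalities. -/
private theorem SBe_lin (hSLin : S_SLin) (p : ℕ) (hp : p.Prime) [hFp : Fact p.Prime] (V : ℕ → Type)
    [∀ i, AddCommGroup (V i)] [hM : ∀ i, Module (ZMod p) (V i)] [hfin : ∀ i, Finite (V i)]
    (h0 : Subsingleton (V 0)) (D : ℕ) (hD : ∀ i, D < i → Subsingleton (V i))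
    (d ω ω2 : ∀ i, V (i + 1) →+ V i) (η κ : ∀ i, V i →+ V (i + 1))
    (dd : ∀ i x, d i (d (i + 1) x) = 0)
    (dω : ∀ i x, d i (ω (i + 1) x) + ω i (d (i + 1) x) = 0)
    (dη : ∀ i x, d (i + 1) (η (i + 1) x) + η i (d i x) = 0)
    (hκ : ∀ i x, ω (i + 1) (η (i + 1) x) + η i (ω i x) = x - (d (i + 1) (κ (i + 1) x) + κ i (d i x)))
    (hω : ∀ i x, ω i (ω (i + 1) x) = - (d i (ω2 (i + 1) x) + ω2 i (d (i + 1) x)))
    (m : ℕ) (hm : 0 < m) (e : ∀ i, V i →+ V i) (he : ∀ i x, e i (e i x) = e i x)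
    (hφ : ∀ i x, e (i + 1) x = (fun y => y - η i (ω i y))^[m] x)
    (b : ℕ → ℕ) (hb0 : b 0 = 0)
    (hb : ∀ i, Nat.card {x // d i x = 0} =
      p ^ b (i + 1) * Nat.card {x // ∃ y, d (i + 1) y = x})
    (r : ℕ → ℕ) (hr : ∀ i, Nat.card {x // ∃ y, e i y = x} = p ^ r i) :
    (∑ i ∈ Finset.range (D + 1), (-1 : ℤ) ^ i * (r i : ℤ) =
      - ∑ i ∈ Finset.range (D + 1), (-1 : ℤ) ^ i * (i : ℤ) * (b i : ℤ)) ∧
    ∑ i ∈ Finset.range (D + 1), (-1 : ℤ) ^ i * (b i : ℤ) = 0 := by
  have hcard : ∀ i (W : Submodule (ZMod p) (V i)), Nat.card W = p ^ Module.finrank (ZMod p) W := by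
    intro i W
    rw [Module.natCard_eq_pow_finrank (K := ZMod p), Nat.card_zmod]
  have hpow : ∀ i k (x : V (i + 1)), ((LinearMap.id - (η i).toZModLinearMap p ∘ₗ
      (ω i).toZModLinearMap p : Module.End (ZMod p) (V (i + 1))) ^ k) x =
        (fun y => y - η i (ω i y))^[k] x := by
    intro i k x
    rw [Module.End.pow_apply]
    rfl
  have main := hSLin (ZMod p) V h0 D hD (fun i => (d i).toZModLinearMap p)
    (fun i => (ω i).toZModLinearMap p) (fun i => (ω2 i).toZModLinearMap p)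
    (fun i => (η i).toZModLinearMap p) (fun i => (κ i).toZModLinearMap p) dd dω dη hκ hω m hm
    (fun i => (e i).toZModLinearMap p) he (fun i x => (hφ i x).trans (hpow i m x).symm) b hb0 ?_
  · obtain ⟨h1, h2⟩ := main
    refine ⟨?_, h2⟩
    rw [← h1]
    refine Finset.sum_congr rfl fun i _ => ?_
    have h3 := (hcard i (LinearMap.range ((e i).toZModLinearMap p))).symm.trans (hr i)
    rw [Nat.pow_right_injective hp.two_le h3]
  · intro i
    have h3 := (hcard (i + 1) (LinearMap.ker ((d i).toZModLinearMap p))).symm.trans (hb i)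
    have h4 := hcard (i + 1) (LinearMap.range ((d (i + 1)).toZModLinearMap p))
    have h5 : Nat.card {x // ∃ y, d (i + 1) y = x} =
      p ^ Module.finrank (ZMod p) (LinearMap.range ((d (i + 1)).toZModLinearMap p)) := h4
    rw [h5, ← pow_add] at h3
    exact Nat.pow_right_injective hp.two_le h3

theorem sSBe (hSLin : S_SLin) (hSKap : S_SKap) (hSOm2 : S_SOm2) (hCOd : S_COd)
    (hCqZ : S_CqZ) (hCqF : S_CqF) : S_SBe := by
  intro Λ _ n C X hn O p hp hpn hp2 m hm e idem chain he r b hr hb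
  have hπ := fun i => SBe_pi hCqZ Λ n C X p hpn i
  choose π hπs hπq hπk hVp using hπ
  have hfin : ∀ i, Finite (X.V p i) := fun i =>
    have := (hCqF Λ n C X hn i).1
    Finite.of_surjective _ (hπs i)
  have hπp : ∀ i (x : X.F i), π i ((p : ℤ) • x) = 0 := fun i x => by
    rw [map_zsmul, hVp]
  -- the operators
  have lift : ∀ i j (f : X.F i →ₗ[Λ] X.F j), ∃ g : X.V p i →+ X.V p j,
      ∀ x, g (π i x) = π j (f x) := fun i j f =>
    SBe_lift (π i).toAddMonoidHom (hπs i) (π j).toAddMonoidHom p (hπk i) (hVp j) f.toAddMonoidHom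
  obtain ⟨κ, hκ⟩ := hSKap Λ n C X hn O
  obtain ⟨ω2, θ, hω2⟩ := hSOm2 Λ n C X hn O
  choose W hW using fun i => lift (i + 1) i (O.ω i)
  choose W2 hW2 using fun i => lift (i + 1) i (ω2 i)
  choose H hH using fun i => lift i (i + 1) (X.eta i)
  choose K hK using fun i => lift i (i + 1) (κ i)
  choose E hE using fun i => lift i i (e i)
  have hD : ∀ i (x : X.F (i + 1)), (X.dV p i).toAddMonoidHom (π (i + 1) x) = π i (X.dF i x) := by
    intro i x
    obtain ⟨a, rfl⟩ := X.q_surj (i + 1) x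
    rw [hπq, X.dF_q, hπq]
    rfl
  have hs := X.zero
  have hFp : Fact p.Prime := ⟨hp⟩
  refine SBe_lin hSLin p hp (fun i => X.V p i) (hM := fun i =>
      AddCommGroup.zmodModule (fun x => by
        have := hVp i x
        rwa [natCast_zsmul] at this)) (hfin := hfin) inferInstance X.D (fun i hi => by
      have := X.bdd i hi
      exact inferInstance) (fun i => (X.dV p i).toAddMonoidHom) W W2 H K ?_ ?_ ?_ ?_ ?_ m hm E
      ?_ ?_ b hb.1 hb.2 r ?_
  · intro i v
    obtain ⟨x, rfl⟩ := hπs _ v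
    rw [hD, hD]
    obtain ⟨a, rfl⟩ := X.q_surj (i + 2) x
    rw [X.dF_q, X.dF_q, X.dd, map_zero, map_zero]
  · intro i v
    obtain ⟨x, rfl⟩ := hπs _ v
    rw [hD, hW, hW, hD, ← map_add, hCOd Λ n C X hn O, map_zero]
  · intro i v
    obtain ⟨x, rfl⟩ := hπs _ v
    rw [hD, hH, hH, hD, ← map_add]
    obtain ⟨a, rfl⟩ := X.q_surj (i + 1) x
    rw [X.eta_q, X.dF_q, X.dF_q, X.eta_q, ← map_add, X.dh, (hCqZ Λ n C X _ _).2
      ⟨a, 0, by rw [smul_zero, add_zero]⟩, map_zero]
  · intro i v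
    obtain ⟨x, rfl⟩ := hπs _ v
    rw [hW, hH, hH, hW, hK, hD, hD, hK, ← map_add, ← map_add, ← map_sub, hκ]
  · intro i v
    obtain ⟨x, rfl⟩ := hπs _ v
    obtain ⟨j, hj⟩ := hp2
    rw [hW, hW, hW2, hD, hD, hW2, ← map_add, ← map_neg, hω2, map_sub, hj, mul_smul, hπp,
      zero_sub, map_neg]
  · intro i v
    obtain ⟨x, rfl⟩ := hπs _ v
    rw [hE, hE, idem]
  · intro i v
    obtain ⟨x, rfl⟩ := hπs _ v
    have h1 : ∀ k (y : X.F (i + 1)), (fun y => y - H i (W i y))^[k] (π (i + 1) y) =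
        π (i + 1) (((O.phi (i + 1) : Module.End Λ (X.F (i + 1))) ^ k) y) := by
      intro k
      induction k with
      | zero => exact fun y => rfl
      | succ k ih =>
        intro y
        have h2 : π (i + 1) y - H i (W i (π (i + 1) y)) = π (i + 1) (O.phi (i + 1) y) := by
          have h3 : O.phi (i + 1) y = y - X.eta i (O.ω i y) := rfl
          rw [h3, map_sub, hW, hH]
        rw [Function.iterate_succ_apply, h2, ih, pow_succ]
        rfl
    rw [h1, hE]
    obtain ⟨y, hy⟩ := he (i + 1) x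
    rw [hy, map_add, hπp, add_zero]
  · intro i
    rw [← hr i]
    have hle : (Ideal.span {(p : Λ)} • (⊤ : Submodule Λ (LinearMap.range (e i)))) ≤
        LinearMap.ker ((π i) ∘ₗ (LinearMap.range (e i)).subtype) := by
      refine Submodule.smul_le.2 ?_
      rintro l hl x -
      obtain ⟨c, rfl⟩ := Ideal.mem_span_singleton'.1 hl
      rw [LinearMap.mem_ker, map_smul, mul_smul, Nat.cast_smul_eq_nsmul, ← natCast_zsmul,
        hVp, smul_zero]
    let M := Submodule.liftQ _ ((π i) ∘ₗ (LinearMap.range (e i)).subtype) hle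
    have hM : ∀ x : LinearMap.range (e i), M (Submodule.Quotient.mk x) = π i x := fun x => rfl
    have hMr : ∀ w, ∃ y, E i y = M w := by
      intro w
      obtain ⟨⟨_, ⟨y, rfl⟩⟩, rfl⟩ := Submodule.Quotient.mk_surjective _ w
      exact ⟨π i y, hE i y⟩
    refine (Nat.card_congr (Equiv.ofBijective (fun w => ⟨M w, hMr w⟩) ⟨?_, ?_⟩)).symm
    · intro w w' h
      have h4 : M w = M w' := congrArg Subtype.val h
      rw [← sub_eq_zero, ← map_sub] at h4
      rw [← sub_eq_zero]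
      obtain ⟨⟨x, hx⟩, hx'⟩ := Submodule.Quotient.mk_surjective _ (w - w')
      rw [← hx', hM] at h4
      obtain ⟨z, hz⟩ := hπk i _ h4
      rw [← hx', Submodule.Quotient.mk_eq_zero]
      have h5 : (⟨x, hx⟩ : LinearMap.range (e i)) = (p : Λ) • ⟨e i z, ⟨z, rfl⟩⟩ := by
        apply Subtype.ext
        obtain ⟨y, rfl⟩ := hx
        change e i y = (p : Λ) • e i z
        have hz' : e i y = (p : ℤ) • z := hz
        rw [← idem, hz', map_zsmul, natCast_zsmul, Nat.cast_smul_eq_nsmul]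
      rw [h5]
      exact Submodule.smul_mem_smul (Ideal.mem_span_singleton_self _) trivial
    · rintro ⟨_, ⟨v, rfl⟩⟩
      obtain ⟨y, rfl⟩ := hπs i v
      exact ⟨Submodule.Quotient.mk ⟨e i y, ⟨y, rfl⟩⟩, Subtype.ext (hE i y).symm⟩

end HSp
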