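import Pool.Agent.Lib.MP_181146_gt.HS.SpecB

/-!
# Project HS, statement SCb: combination of the two parts
-/

set_option autoImplicit false

namespace HSp

theorem sSCb (hCF1 : S_CF1) (hCqF : S_CqF) : S_SCb := by
  intro Λ _ n C X hn u hu S1 S2
  have hn0 : 0 < n := lt_trans zero_lt_one hn
  have hk : ∀ i (y : X.F i), (u ^ 2 - u) • y = 0 := by
    intro i y
    obtain ⟨k, hk⟩ := hu
    rw [hk, mul_comm, mul_smul, (hCqF Λ n C X hn0 i).2.1 y, smul_zero]
  have hu1 : ∀ i (y : X.F i), u • ((1 - u) • y) = 0 := by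
    intro i y
    rw [smul_smul]
    have h : u * (1 - u) = -(u ^ 2 - u) := by ring
    rw [h, neg_smul, hk, neg_zero]
  have hu2 : ∀ i (y : X.F i), (1 - u) • (u • y) = 0 := by
    intro i y
    rw [smul_comm]
    exact hu1 i y
  have a1 : ∀ i y, (1 - u) • S1.e i y = 0 := by
    intro i y
    rw [← S1.ue i y]
    exact hu2 i _
  have a2 : ∀ i y, u • S2.e i y = 0 := by
    intro i y
    rw [← S2.ue i y]
    exact hu1 i _
  have e12 : ∀ i y, S1.e i (S2.e i y) = 0 := by
    intro i y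
    rw [← S2.ue i y, map_zsmul]
    exact a1 i _
  have e21 : ∀ i y, S2.e i (S1.e i y) = 0 := by
    intro i y
    rw [← S1.ue i y, map_zsmul]
    exact a2 i _
  refine ⟨⟨fun i => S1.e i + S2.e i, ?_, ?_, ?_, ?_⟩, fun i x => rfl⟩
  · intro i x
    simp only [LinearMap.add_apply, map_add, e12, e21, S1.idem, S2.idem, add_zero, zero_add]
  · intro i x
    simp only [LinearMap.add_apply, map_add, S1.chain, S2.chain]
  · intro i y hy hd
    obtain ⟨x1, ⟨z1, hz1⟩, h1⟩ := S1.onto i (S1.e (i + 1) y) (S1.idem _ _)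
      (by rw [S1.chain, hd, map_zero])
    obtain ⟨x2, ⟨z2, hz2⟩, h2⟩ := S2.onto i (S2.e (i + 1) y) (S2.idem _ _)
      (by rw [S2.chain, hd, map_zero])
    refine ⟨u • x1 + (1 - u) • x2, ⟨u • z1 + (1 - u) • z2, ?_⟩, ?_⟩
    · rw [map_add, map_zsmul, map_zsmul, hz1, hz2, smul_add, smul_comm u C.N z1,
        smul_comm (1 - u) C.N z2]
    · rw [LinearMap.add_apply, map_add, map_zsmul, map_zsmul, map_add, map_add, map_zsmul,
        map_zsmul, map_zsmul, map_zsmul, a1, a2, add_zero, zero_add, S1.ue, S2.ue, h1, h2]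
      exact hy
  · intro i x z w hx hw
    rw [LinearMap.add_apply] at hw
    have b1 : S1.e (i + 1) (X.q (i + 1) x) = X.dF (i + 1) (u • w) := by
      rw [map_zsmul, ← hw, smul_add, a2, add_zero, S1.ue]
    have b2 : S2.e (i + 1) (X.q (i + 1) x) = X.dF (i + 1) ((1 - u) • w) := by
      rw [map_zsmul, ← hw, smul_add, a1, zero_add, S2.ue]
    obtain ⟨w1, hw1⟩ := S1.inj i x z _ hx b1
    obtain ⟨w2, hw2⟩ := S2.inj i x z _ hx b2
    refine hCF1 Λ n C X hn0 i x z hx (w1 + w2) ?_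
    rw [map_add, ← hw1, ← hw2, ← add_smul, add_sub_cancel, one_smul]

end HSp
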