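import Pool.Agent.Lib.MP_181146_gt.HS.SpecB

/-!
# Project HS, second part: equalization, from SplitF to SplitG
-/

set_option autoImplicit false

namespace HSp

section gen

variable {Λ : Type} [CommRing Λ]

private theorem sEqMem (N : Λ) {M : Type} [AddCommGroup M] [Module Λ M] (x : M) :
    x ∈ (Ideal.span {N} • (⊤ : Submodule Λ M)) ↔ ∃ y, x = N • y := by
  rw [Submodule.ideal_span_singleton_smul, Submodule.mem_smul_pointwise_iff_exists]
  constructor
  · rintro ⟨b, -, h⟩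
    exact ⟨b, h.symm⟩
  · rintro ⟨b, h⟩
    exact ⟨b, Submodule.mem_top, h.symm⟩

private theorem sEqCardProd (N : Λ) (A B : Type) [AddCommGroup A] [Module Λ A]
    [AddCommGroup B] [Module Λ B] :
    Nat.card (QN N (A × B)) = Nat.card (QN N A) * Nat.card (QN N B) := by
  let φ : (A × B) →ₗ[Λ] (QN N A × QN N B) := (Submodule.mkQ _).prodMap (Submodule.mkQ _)
  have hφ : Function.Surjective φ :=
    Function.Surjective.prodMap (Submodule.mkQ_surjective _) (Submodule.mkQ_surjective _)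
  have hk : (Ideal.span {N} • (⊤ : Submodule Λ (A × B))) = LinearMap.ker φ := by
    ext ⟨a, b⟩
    have h1 : φ (a, b) = (Submodule.Quotient.mk a, Submodule.Quotient.mk b) := rfl
    rw [sEqMem, LinearMap.mem_ker, h1, Prod.mk_eq_zero, Submodule.Quotient.mk_eq_zero,
      Submodule.Quotient.mk_eq_zero, sEqMem, sEqMem]
    constructor
    · rintro ⟨⟨c, d⟩, h⟩
      exact ⟨⟨c, congrArg Prod.fst h⟩, ⟨d, congrArg Prod.snd h⟩⟩
    · rintro ⟨⟨c, hc⟩, ⟨d, hd⟩⟩
      exact ⟨(c, d), Prod.ext hc hd⟩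
  rw [← Nat.card_prod]
  exact Nat.card_congr
    ((Submodule.quotEquivOfEq _ _ hk).trans (φ.quotKerEquivOfSurjective hφ)).toEquiv

private theorem sEqCardIso (N : Λ) {A B : Type} [AddCommGroup A] [Module Λ A]
    [AddCommGroup B] [Module Λ B] (φ : A ≃ₗ[Λ] B) :
    Nat.card (QN N A) = Nat.card (QN N B) :=
  Nat.card_congr (Submodule.Quotient.equiv _ _ φ (by
    rw [Submodule.map_smul'', Submodule.map_top, LinearEquiv.range])).toEquiv

private theorem sEqCardSub (N : Λ) (A : Type) [AddCommGroup A] [Module Λ A] [Subsingleton A] :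
    Nat.card (QN N A) = 1 := by
  have h : Subsingleton (QN N A) := (Submodule.mkQ_surjective _).subsingleton
  exact Nat.card_of_subsingleton (0 : QN N A)

private theorem sEqCardQ {n : ℕ} (C : CycData Λ n) (p : ℕ) (hpn : p ∣ n) :
    Nat.card (QN (p : Λ) (QQ C)) = p := by
  let g : ℤ →+ QN (p : Λ) (QQ C) :=
    (Submodule.mkQ _ : QQ C →ₗ[Λ] QN (p : Λ) (QQ C)).toAddMonoidHom.comp
      ((Ideal.Quotient.mk (Ideal.span {C.t, C.N})).toAddMonoidHom.comp (Int.castAddHom Λ))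
  have hgm : ∀ m : ℤ, g m = Submodule.Quotient.mk
      (Ideal.Quotient.mk (Ideal.span {C.t, C.N}) (m : Λ)) := fun _ => rfl
  have ht : C.t ∈ Ideal.span {C.t, C.N} := Ideal.subset_span (by simp)
  have hg : Function.Surjective g := by
    intro x
    obtain ⟨y, rfl⟩ := Submodule.mkQ_surjective _ x
    obtain ⟨l, rfl⟩ := Ideal.Quotient.mk_surjective y
    obtain ⟨m, hm⟩ := C.ker_eps (l - (C.eps l : Λ)) (by
      rw [map_sub, map_intCast, Int.cast_id, sub_self])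
    refine ⟨C.eps l, ?_⟩
    rw [hgm]
    change (Submodule.Quotient.mk _ : QN (p : Λ) (QQ C)) = Submodule.Quotient.mk _
    congr 1
    rw [Ideal.Quotient.eq]
    have h2 : (C.eps l : Λ) - l = C.t * (-m) := by
      rw [mul_neg, ← hm]
      ring
    rw [h2]
    exact Ideal.mul_mem_right _ _ ht
  have hk : g.ker = AddSubgroup.zmultiples (p : ℤ) := by
    ext m
    rw [AddMonoidHom.mem_ker, hgm, Submodule.Quotient.mk_eq_zero, sEqMem, Int.mem_zmultiples_iff]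
    constructor
    · rintro ⟨y, hy⟩
      obtain ⟨l, rfl⟩ := Ideal.Quotient.mk_surjective y
      have h1 : (p : Λ) • (Ideal.Quotient.mk (Ideal.span {C.t, C.N}) l) =
          Ideal.Quotient.mk (Ideal.span {C.t, C.N}) ((p : Λ) * l) := rfl
      rw [h1, Ideal.Quotient.eq, Ideal.mem_span_pair] at hy
      obtain ⟨a, b, hab⟩ := hy
      have h2 := congrArg C.eps hab
      rw [map_add, map_mul, map_mul, C.eps_t, C.eps_N, mul_zero, zero_add, map_sub, map_intCast,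
        Int.cast_id, map_mul, map_natCast] at h2
      obtain ⟨k, hk⟩ := hpn
      refine ⟨C.eps b * k + C.eps l, ?_⟩
      have h3 : m = C.eps b * (n : ℤ) + p * C.eps l := by linarith
      have hk' : (n : ℤ) = p * k := by exact_mod_cast hk
      rw [h3, hk']
      ring
    · rintro ⟨k, rfl⟩
      refine ⟨Ideal.Quotient.mk _ (k : Λ), ?_⟩
      have h1 : (p : Λ) • (Ideal.Quotient.mk (Ideal.span {C.t, C.N}) (k : Λ)) =
          Ideal.Quotient.mk (Ideal.span {C.t, C.N}) ((p : Λ) * (k : Λ)) := rfl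
      rw [h1]
      push_cast
      rfl
  rw [← Nat.card_congr (QuotientAddGroup.quotientKerEquivOfSurjective g hg).toEquiv, hk]
  change (AddSubgroup.zmultiples (p : ℤ)).index = p
  rw [Int.index_zmultiples]
  rfl

private theorem sEqCardPow {n : ℕ} (C : CycData Λ n) (p : ℕ) (hpn : p ∣ n) (a : ℕ) :
    Nat.card (QN (p : Λ) (Fin a → QQ C)) = p ^ a := by
  induction a with
  | zero => rw [sEqCardSub, pow_zero]
  | succ a ih =>
    rw [← sEqCardIso (p : Λ) (Fin.consLinearEquiv Λ fun _ : Fin (a + 1) => QQ C), sEqCardProd,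
      sEqCardQ C p hpn, ih, pow_succ']

/-- `Q^a × Q^b = Q^(a+b)`. -/
private def sEqPow (Q : Type) [AddCommGroup Q] [Module Λ Q] (a b : ℕ) :
    ((Fin a → Q) × (Fin b → Q)) ≃ₗ[Λ] (Fin (a + b) → Q) :=
  (LinearEquiv.sumArrowLequivProdArrow (Fin a) (Fin b) Λ Q).symm.trans
    (LinearEquiv.funCongrLeft Λ Q finSumFinEquiv.symm)

/-- The auxiliary modules. -/
private noncomputable def sEqZ (A B : ℕ → ModuleCat.{0} Λ) :
    ℕ → ModuleCat.{0} Λ × ModuleCat.{0} Λ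
  | 0 => (ModuleCat.of Λ PUnit, ModuleCat.of Λ PUnit)
  | i + 1 => (ModuleCat.of Λ (B i × (sEqZ A B i).2), ModuleCat.of Λ (A i × (sEqZ A B i).1))

private theorem sEqFree (A B : ℕ → ModuleCat.{0} Λ) (Q : Type) [AddCommGroup Q] [Module Λ Q]
    (a : ℕ → ℕ) (ha : ∀ i, Nonempty ((A i × B i) ≃ₗ[Λ] (Fin (a i) → Q))) (i : ℕ) :
    Nonempty (((sEqZ A B i).1 × (sEqZ A B i).2) ≃ₗ[Λ]
      (Fin (∑ j ∈ Finset.range i, a j) → Q)) := by
  induction i with
  | zero =>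
    have h1 : Subsingleton ((sEqZ A B 0).1 × (sEqZ A B 0).2) :=
      inferInstanceAs (Subsingleton (PUnit × PUnit))
    have h2 : Subsingleton (Fin (∑ j ∈ Finset.range 0, a j) → Q) := by
      rw [Finset.sum_range_zero]
      infer_instance
    exact ⟨0⟩
  | succ i ih =>
    obtain ⟨e⟩ := ih
    obtain ⟨f⟩ := ha i
    rw [Finset.sum_range_succ]
    have g : ((B i × (sEqZ A B i).2) × (A i × (sEqZ A B i).1)) ≃ₗ[Λ]
        (((sEqZ A B i).1 × (sEqZ A B i).2) × (A i × B i)) :=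
      ((LinearEquiv.prodProdProdComm Λ _ _ _ _).trans
        ((LinearEquiv.prodComm Λ _ _).prodCongr (LinearEquiv.prodComm Λ _ _))).trans
        (LinearEquiv.prodComm Λ _ _)
    exact ⟨(g.trans (e.prodCongr f)).trans (sEqPow Q _ _)⟩

private theorem sEqCount {n : ℕ} (C : CycData Λ n) (A B : ℕ → ModuleCat.{0} Λ)
    (a : ℕ → ℕ) (ha : ∀ i, Nonempty ((A i × B i) ≃ₗ[Λ] (Fin (a i) → QQ C))) (p : ℕ)
    (hp : p.Prime) (hpn : p ∣ n) (r : ℕ → ℕ)
    (hr : ∀ i, Nat.card (QN (p : Λ) (A i)) = p ^ r i) (i : ℕ) :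
    ∃ t t' : ℕ, Nat.card (QN (p : Λ) (sEqZ A B i).1) = p ^ t ∧
      Nat.card (QN (p : Λ) (sEqZ A B i).2) = p ^ t' ∧ t + t' = ∑ j ∈ Finset.range i, a j ∧
      (-1 : ℤ) ^ i * (t : ℤ) = ∑ j ∈ Finset.range i,
        ((-1 : ℤ) ^ (j + 1) * ((∑ k ∈ Finset.range (j + 1), a k : ℕ) : ℤ) +
          (-1 : ℤ) ^ j * (r j : ℤ)) := by
  have hB : ∀ i, ∃ s : ℕ, Nat.card (QN (p : Λ) (B i)) = p ^ s ∧ r i + s = a i := by
    intro i
    obtain ⟨f⟩ := ha i
    have h1 := sEqCardIso (p : Λ) f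
    rw [sEqCardProd, sEqCardPow C p hpn, hr] at h1
    have h2 : Nat.card (QN (p : Λ) (B i)) ∣ p ^ a i := ⟨p ^ r i, by rw [← h1, mul_comm]⟩
    obtain ⟨s, -, hs⟩ := (Nat.dvd_prime_pow hp).1 h2
    refine ⟨s, hs, ?_⟩
    rw [hs, ← pow_add] at h1
    exact Nat.pow_right_injective hp.two_le h1
  induction i with
  | zero =>
    have h1 : Subsingleton (sEqZ A B 0).1 := inferInstanceAs (Subsingleton PUnit)
    have h2 : Subsingleton (sEqZ A B 0).2 := inferInstanceAs (Subsingleton PUnit)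
    exact ⟨0, 0, by rw [sEqCardSub, pow_zero], by rw [sEqCardSub, pow_zero], by simp, by simp⟩
  | succ i ih =>
    obtain ⟨t, t', h1, h2, h3, h4⟩ := ih
    obtain ⟨s, hs, hs2⟩ := hB i
    refine ⟨s + t', r i + t, ?_, ?_, ?_, ?_⟩
    · have h5 := sEqCardProd (p : Λ) (B i) (sEqZ A B i).2
      rw [hs, h2, ← pow_add] at h5
      exact h5
    · have h5 := sEqCardProd (p : Λ) (A i) (sEqZ A B i).1
      rw [hr, h1, ← pow_add] at h5
      exact h5
    · rw [Finset.sum_range_succ, ← h3]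
      omega
    · rw [Finset.sum_range_succ, ← h4, Finset.sum_range_succ (fun k => a k) i, ← h3, ← hs2]
      push_cast
      ring

end gen

/-- Transport of the complex to free modules. -/
private theorem sEqTr {Λ : Type} [CommRing Λ] {n : ℕ} (C : CycData Λ n) (X : Cx Λ C.t)
    (M : ℕ → Type) [∀ i, AddCommGroup (M i)] [∀ i, Module Λ (M i)]
    (f : ∀ i, X.P i →ₗ[Λ] M i) (δ : ∀ i, M (i + 1) →ₗ[Λ] M i)
    (δδ : ∀ i x, δ i (δ (i + 1) x) = 0) (chain : ∀ i x, δ i (f (i + 1) x) = f i (X.d i x))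
    (onto : ∀ i (y : M (i + 1)), δ i y = 0 → ∃ (x : X.P (i + 1)) (z : X.P i) (w : M (i + 2)),
      X.d i x = C.N • z ∧ y = f (i + 1) x + δ (i + 1) w)
    (inj : ∀ i (x : X.P (i + 1)) (z : X.P i) (w : M (i + 2)), X.d i x = C.N • z →
      f (i + 1) x = δ (i + 1) w → ∃ u v, x = X.d (i + 1) u + C.N • v)
    (r : ℕ → ℕ) (ψ : ∀ i, M i ≃ₗ[Λ] (Fin (r i) → QQ C)) (h0 : r 0 = 0) (B : ℕ)
    (hB : ∀ i, B < i → r i = 0) : Nonempty (SplitG X) := by
  refine ⟨
    { r := r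
      f := fun i => (ψ i).toLinearMap ∘ₗ f i
      δ := fun i => (ψ i).toLinearMap ∘ₗ δ i ∘ₗ (ψ (i + 1)).symm.toLinearMap
      δδ := ?_
      chain := ?_
      onto := ?_
      inj := ?_
      r_zero := h0
      B := B
      bdd := hB }⟩
  · intro i x
    change ψ i (δ i ((ψ (i + 1)).symm (ψ (i + 1) (δ (i + 1) ((ψ (i + 2)).symm x))))) = 0
    rw [LinearEquiv.symm_apply_apply, δδ, map_zero]
  · intro i x
    change ψ i (δ i ((ψ (i + 1)).symm (ψ (i + 1) (f (i + 1) x)))) = ψ i (f i (X.d i x))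
    rw [LinearEquiv.symm_apply_apply, chain]
  · intro i y hy
    have h1 : ψ i (δ i ((ψ (i + 1)).symm y)) = 0 := hy
    have h2 : δ i ((ψ (i + 1)).symm y) = 0 := (ψ i).map_eq_zero_iff.1 h1
    obtain ⟨x, z, w, h3, h4⟩ := onto i _ h2
    refine ⟨x, z, ψ (i + 2) w, h3, ?_⟩
    change y = ψ (i + 1) (f (i + 1) x) +
      ψ (i + 1) (δ (i + 1) ((ψ (i + 2)).symm (ψ (i + 2) w)))
    rw [LinearEquiv.symm_apply_apply, ← map_add, ← h4, LinearEquiv.apply_symm_apply]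
  · intro i x z w h1 h2
    have h3 : ψ (i + 1) (f (i + 1) x) = ψ (i + 1) (δ (i + 1) ((ψ (i + 2)).symm w)) := h2
    exact inj i x z _ h1 ((ψ (i + 1)).injective h3)

theorem sSEq (hSPrj : S_SPrj) (hSFr : S_SFr) (hSEx : S_SEx) : S_SEq := by
  intro Λ _ n C X hn S χ h
  -- the ranks of `F i`
  have hFs : ∀ i, Subsingleton (X.P i) → Subsingleton (X.F i) :=
    fun i _ => (X.q_surj i).subsingleton
  have ha : ∀ i, ∃ a : ℕ, Nonempty (X.F i ≃ₗ[Λ] (Fin a → QQ C)) ∧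
      (Subsingleton (X.F i) → a = 0) := by
    intro i
    by_cases hs : Subsingleton (X.F i)
    · exact ⟨0, ⟨0⟩, fun _ => rfl⟩
    · obtain ⟨a, e⟩ := hSFr Λ n C X hn i
      exact ⟨a, e, fun h => absurd h hs⟩
  choose a ha ha0 using ha
  have hcompl : ∀ i, IsCompl (LinearMap.range (S.e i)) (LinearMap.ker (S.e i)) := by
    intro i
    constructor
    · rw [Submodule.disjoint_def]
      rintro _ ⟨y, rfl⟩ h1
      rw [LinearMap.mem_ker, S.idem] at h1
      exact h1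
    · rw [codisjoint_iff, eq_top_iff]
      intro x _
      rw [Submodule.mem_sup]
      exact ⟨S.e i x, ⟨x, rfl⟩, x - S.e i x, by
        rw [LinearMap.mem_ker, map_sub, S.idem, sub_self], by abel⟩
  let A : ℕ → ModuleCat.{0} Λ := fun i => ModuleCat.of Λ (LinearMap.range (S.e i))
  let B : ℕ → ModuleCat.{0} Λ := fun i => ModuleCat.of Λ (LinearMap.ker (S.e i))
  have hAB : ∀ i, Nonempty ((A i × B i) ≃ₗ[Λ] (Fin (a i) → QQ C)) := fun i =>
    (ha i).map fun e => (Submodule.prodEquivOfIsCompl _ _ (hcompl i)).trans e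
  -- the module in degree `D + 1`
  have hcnt : ∀ p : ℕ, p.Prime → p ∣ n → ∃ t : ℕ,
      Nat.card (QN (p : Λ) (sEqZ A B (X.D + 1)).1) = p ^ t ∧
      (-1 : ℤ) ^ (X.D + 1) * (t : ℤ) = ∑ j ∈ Finset.range (X.D + 1),
        ((-1 : ℤ) ^ (j + 1) * ((∑ k ∈ Finset.range (j + 1), a k : ℕ) : ℤ)) + χ := by
    intro p hp hpn
    obtain ⟨r, hr⟩ := (hSEx Λ n C X hn S.e p hp hpn).1
    obtain ⟨t, -, h1, -, -, h2⟩ := sEqCount C A B a hAB p hp hpn r hr (X.D + 1)
    refine ⟨t, h1, ?_⟩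
    rw [h2, Finset.sum_add_distrib, h p hp hpn r hr]
  have hfr : ∃ t : ℕ, Nonempty ((sEqZ A B (X.D + 1)).1 ≃ₗ[Λ] (Fin t → QQ C)) := by
    obtain ⟨φ⟩ := sEqFree A B (QQ C) a hAB (X.D + 1)
    obtain ⟨t, -, ht⟩ := hcnt n.minFac (Nat.minFac_prime hn.ne') (Nat.minFac_dvd n)
    refine ⟨t, hSPrj Λ n C hn _ _ _ t φ ?_⟩
    intro p hp hpn
    obtain ⟨t', h1, h2⟩ := hcnt p hp hpn
    rw [h1]
    congr 1
    rw [← ht] at h2
    have h3 : ((-1 : ℤ) ^ (X.D + 1)) ≠ 0 := pow_ne_zero _ (by norm_num)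
    exact_mod_cast mul_left_cancel₀ h3 h2
  obtain ⟨t, ⟨ψt⟩⟩ := hfr
  let T : ℕ → ModuleCat.{0} Λ := fun i =>
    if i ≤ X.D + 1 then (sEqZ A B i).1 else ModuleCat.of Λ PUnit
  have hT1 : ∀ i, i ≤ X.D + 1 → T i = (sEqZ A B i).1 := fun i hi => if_pos hi
  have hT2 : ∀ i, ¬ i ≤ X.D + 1 → T i = ModuleCat.of Λ PUnit := fun i hi => if_neg hi
  have hr : ∀ i, ∃ r : ℕ, Nonempty ((A i × T i × T (i + 1)) ≃ₗ[Λ] (Fin r → QQ C)) ∧
      (i = 0 → r = 0) ∧ (X.D + 1 < i → r = 0) := by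
    intro i
    rcases lt_trichotomy i (X.D + 1) with hi | hi | hi
    · refine ⟨∑ j ∈ Finset.range (i + 1), a j, ?_, ?_, fun h => absurd h (by omega)⟩
      · rw [hT1 i (by omega), hT1 (i + 1) (by omega)]
        obtain ⟨φ⟩ := sEqFree A B (QQ C) a hAB (i + 1)
        have g : (A i × (sEqZ A B i).1 × (sEqZ A B (i + 1)).1) ≃ₗ[Λ]
            ((sEqZ A B (i + 1)).2 × (sEqZ A B (i + 1)).1) :=
          (LinearEquiv.prodAssoc Λ (A i) (sEqZ A B i).1 (sEqZ A B (i + 1)).1).symm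
        exact ⟨(g.trans (LinearEquiv.prodComm Λ _ _)).trans φ⟩
      · rintro rfl
        rw [Finset.sum_range_one]
        exact ha0 0 (hFs 0 X.zero)
    · subst hi
      refine ⟨t, ?_, fun h => absurd h (by omega), fun h => absurd h (by omega)⟩
      rw [hT1 (X.D + 1) le_rfl, hT2 (X.D + 1 + 1) (by omega)]
      have h1 : Subsingleton (X.F (X.D + 1)) := hFs _ (X.bdd _ (by omega))
      have h2 : Subsingleton (A (X.D + 1)) :=
        inferInstanceAs (Subsingleton (LinearMap.range (S.e (X.D + 1))))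
      have h3 : Subsingleton (ModuleCat.of Λ PUnit) := inferInstanceAs (Subsingleton PUnit)
      refine ⟨(LinearEquiv.ofBijective ((LinearMap.fst Λ (sEqZ A B (X.D + 1)).1
        (ModuleCat.of Λ PUnit)) ∘ₗ (LinearMap.snd Λ (A (X.D + 1))
        ((sEqZ A B (X.D + 1)).1 × (ModuleCat.of Λ PUnit)))) ⟨?_, ?_⟩).trans ψt⟩
      · rintro ⟨x, y, z⟩ ⟨x', y', z'⟩ hxy
        have hy : y = y' := hxy
        rw [hy, Subsingleton.elim x x', Subsingleton.elim z z']
      · intro y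
        exact ⟨(0, y, 0), rfl⟩
    · refine ⟨0, ?_, fun _ => rfl, fun _ => rfl⟩
      rw [hT2 i (by omega), hT2 (i + 1) (by omega)]
      have h1 : Subsingleton (X.F i) := hFs _ (X.bdd _ (by omega))
      have h2 : Subsingleton (A i) := inferInstanceAs (Subsingleton (LinearMap.range (S.e i)))
      have h3 : Subsingleton (ModuleCat.of Λ PUnit) := inferInstanceAs (Subsingleton PUnit)
      exact ⟨0⟩
  choose r ψ hr0 hrB using hr
  have hres : ∀ i, ∀ x ∈ LinearMap.range (S.e (i + 1)), X.dF i x ∈ LinearMap.range (S.e i) := by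
    rintro i _ ⟨y, rfl⟩
    exact ⟨X.dF i y, (S.chain i y).symm⟩
  have hddF : ∀ i (x : X.F (i + 2)), X.dF i (X.dF (i + 1) x) = 0 := by
    intro i x
    obtain ⟨y, rfl⟩ := X.q_surj (i + 2) x
    rw [X.dF_q, X.dF_q, X.dd, map_zero]
  let δG : ∀ i, A (i + 1) →ₗ[Λ] A i := fun i => (X.dF i).restrict (hres i)
  have hδG : ∀ i (g : A (i + 1)), (δG i g : A i).1 = X.dF i g.1 := fun _ _ => rfl
  let fG : ∀ i, X.P i →ₗ[Λ] A i := fun i => (S.e i).rangeRestrict ∘ₗ X.q i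
  have hfG : ∀ i (x : X.P i), (fG i x).1 = S.e i (X.q i x) := fun _ _ => rfl
  refine sEqTr C X (fun i => A i × T i × T (i + 1))
    (fun i => LinearMap.inl Λ (A i) (T i × T (i + 1)) ∘ₗ fG i)
    (fun i => (δG i ∘ₗ LinearMap.fst Λ (A (i + 1)) (T (i + 1) × T (i + 2))).prod
      ((LinearMap.inr Λ (T i) (T (i + 1))) ∘ₗ (LinearMap.fst Λ (T (i + 1)) (T (i + 2))) ∘ₗ
        (LinearMap.snd Λ (A (i + 1)) (T (i + 1) × T (i + 2)))))
    ?_ ?_ ?_ ?_ r (fun i => (ψ i).some) (hr0 0 rfl) (X.D + 1) hrB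
  · rintro i ⟨g, τ, u⟩
    refine Prod.ext ?_ rfl
    apply Subtype.ext
    exact hddF i g.1
  · intro i x
    refine Prod.ext ?_ rfl
    apply Subtype.ext
    change X.dF i (S.e (i + 1) (X.q (i + 1) x)) = S.e i (X.q i (X.d i x))
    rw [S.chain, X.dF_q]
  · rintro i ⟨g, τ, u⟩ hg
    have h1 : δG i g = 0 := congrArg Prod.fst hg
    have h2 : τ = 0 := congrArg (fun z => z.2.2) hg
    have h3 : X.dF i g.1 = 0 := congrArg Subtype.val h1
    have h4 : S.e (i + 1) g.1 = g.1 := by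
      obtain ⟨y, hy⟩ := g.2
      rw [← hy, S.idem]
    obtain ⟨x, ⟨z, hz⟩, hx⟩ := S.onto i g.1 h4 h3
    refine ⟨x, z, (0, u, 0), hz, ?_⟩
    refine Prod.ext ?_ (Prod.ext ?_ ?_)
    · apply Subtype.ext
      change g.1 = S.e (i + 1) (X.q (i + 1) x) + X.dF (i + 1) 0
      rw [hx, map_zero, add_zero]
    · change τ = 0 + 0
      rw [h2, add_zero]
    · change u = 0 + u
      rw [zero_add]
  · rintro i x z ⟨g, τ, u⟩ hz hx
    have h1 : fG (i + 1) x = δG (i + 1) g := congrArg Prod.fst hx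
    exact S.inj i x z g.1 hz (congrArg Subtype.val h1)

end HSp
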