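import Pool.Agent.Lib.MP_181146_gt.HS.SpecB

/-!
# Project HS, second part: `F_i` is a free module over `ℤ/n = Λ / (t, N)`
-/

set_option autoImplicit false

namespace HSp

/-- `l = eps l` in `Λ / (t, N)`. -/
private lemma SFr_eps {Λ : Type} [CommRing Λ] {n : ℕ} (C : CycData Λ n) (l : Λ) :
    (Ideal.Quotient.mk (Ideal.span {C.t, C.N}) l : QQ C) = ((C.eps l : ℤ) : QQ C) := by
  obtain ⟨y, hy⟩ := C.ker_eps (l - (C.eps l : Λ)) (by rw [map_sub, map_intCast]; simp)
  have h1 : l - ((C.eps l : ℤ) : Λ) ∈ Ideal.span {C.t, C.N} := by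
    rw [Ideal.mem_span_pair]
    exact ⟨y, 0, by rw [hy]; ring⟩
  have h2 := Ideal.Quotient.eq.mpr h1
  rw [h2, map_intCast]

/-- an integer is zero in `Λ / (t, N)` only if it is a multiple of `n`. -/
private lemma SFr_dvd {Λ : Type} [CommRing Λ] {n : ℕ} (C : CycData Λ n) (m : ℤ)
    (h : ((m : ℤ) : QQ C) = 0) : (n : ℤ) ∣ m := by
  have h1 : (Ideal.Quotient.mk (Ideal.span {C.t, C.N}) ((m : ℤ) : Λ) : QQ C) = 0 := by
    rw [map_intCast]
    exact h
  rw [Ideal.Quotient.eq_zero_iff_mem, Ideal.mem_span_pair] at h1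
  obtain ⟨a, b, hab⟩ := h1
  have h2 := congrArg C.eps hab
  rw [map_add, map_mul, map_mul, C.eps_t, C.eps_N, mul_zero, zero_add, map_intCast] at h2
  refine ⟨C.eps b, ?_⟩
  rw [mul_comm]
  simpa using h2.symm

theorem sSFr (hPrRk : S_PrRk) (hCqZ : S_CqZ) (_hCqF : S_CqF) : S_SFr := by
  intro Λ _ n C X hn i
  obtain ⟨a, π, hs, hk, hl⟩ := hPrRk Λ n C (X.P i)
  refine ⟨a, ?_⟩
  let f : X.P i →ₗ[Λ] (Fin a → QQ C) :=
    { toFun := fun x j => ((π x j : ℤ) : QQ C)
      map_add' := by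
        intro x y
        funext j
        rw [map_add]
        change (((π x j + π y j : ℤ)) : QQ C) = _
        rw [Int.cast_add]
        rfl
      map_smul' := by
        intro l x
        funext j
        rw [hl]
        change (((C.eps l * π x j : ℤ)) : QQ C) = l • ((π x j : ℤ) : QQ C)
        rw [Int.cast_mul, ← SFr_eps, Algebra.smul_def]
        rfl }
  have hf : ∀ x j, f x j = ((π x j : ℤ) : QQ C) := fun _ _ => rfl
  have hker : (Ideal.span {C.t, C.N} • (⊤ : Submodule Λ (X.P i))) ≤ LinearMap.ker f := by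
    rw [Submodule.smul_le]
    intro r hr x _
    rw [LinearMap.mem_ker, map_smul]
    funext j
    have h0 : (Ideal.Quotient.mk (Ideal.span {C.t, C.N}) r : QQ C) = 0 :=
      Ideal.Quotient.eq_zero_iff_mem.mpr hr
    change r • (f x j) = 0
    rw [Algebra.smul_def]
    change (Ideal.Quotient.mk (Ideal.span {C.t, C.N}) r : QQ C) * _ = 0
    rw [h0, zero_mul]
  let g : X.F i →ₗ[Λ] (Fin a → QQ C) := Submodule.liftQ _ f hker
  have hg : ∀ x, g (X.q i x) = f x := fun _ => rfl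
  refine ⟨LinearEquiv.ofBijective g ⟨?_, ?_⟩⟩
  · rw [injective_iff_map_eq_zero]
    intro y hy
    obtain ⟨x, rfl⟩ := X.q_surj i y
    rw [hg] at hy
    have h1 : ∀ j, ∃ z : ℤ, π x j = n * z := fun j =>
      SFr_dvd C (π x j) (by rw [← hf, hy]; rfl)
    choose z hz using h1
    obtain ⟨b, hb⟩ := hs z
    have h2 : π (x - C.N • b) = 0 := by
      rw [map_sub, hl, C.eps_N, hb]
      funext j
      rw [Pi.sub_apply, Pi.smul_apply, hz j, smul_eq_mul, sub_self]
      rfl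
    obtain ⟨w, hw⟩ := (hk _).mp h2
    exact (hCqZ Λ n C X i x).mpr ⟨w, b, by rw [← hw]; abel⟩
  · intro c
    have h1 : ∀ j, ∃ m : ℤ, c j = ((m : ℤ) : QQ C) := by
      intro j
      obtain ⟨l, hl'⟩ := Ideal.Quotient.mk_surjective (c j)
      exact ⟨C.eps l, by rw [← hl', SFr_eps]⟩
    choose m hm using h1
    obtain ⟨x, hx⟩ := hs m
    refine ⟨X.q i x, ?_⟩
    rw [hg]
    funext j
    rw [hf, hx, hm]

end HSp
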