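import Pool.Agent.Lib.MP_181146_gt.HS.SpecB

/-!
# Project HS, SKap: the chain homotopy `κ`
-/

set_option linter.unusedVariables false
set_option autoImplicit false

namespace HSp

private lemma kap_exd {Λ : Type} [CommRing Λ] {n : ℕ} {C : CycData Λ n} (X : Cx Λ C.t)
    (s : ∀ i, X.P i →+ X.P i) (hs : ∀ i x, ∃ y, x = s i x + C.t • y)
    (i : ℕ) (x : X.P (i + 1)) :
    ∃ w, X.d i (s (i + 1) x) = s i (X.d i x) + C.t • w := by
  obtain ⟨y, hy⟩ := hs (i + 1) x
  obtain ⟨z, hz⟩ := hs i (X.d i x)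
  refine ⟨z - X.d i y, ?_⟩
  have h1 : X.d i x = X.d i (s (i + 1) x) + C.t • X.d i y := by
    conv_lhs => rw [hy]
    rw [map_add, map_smul]
  have h2 : X.d i (s (i + 1) x) = X.d i x - C.t • X.d i y := eq_sub_of_add_eq h1.symm
  have h3 : s i (X.d i x) + C.t • (z - X.d i y) =
      (s i (X.d i x) + C.t • z) - C.t • X.d i y := by
    rw [smul_sub]; abel
  rw [h3, ← hz, h2]

private lemma kap_exh {Λ : Type} [CommRing Λ] {n : ℕ} {C : CycData Λ n} (X : Cx Λ C.t)
    (s : ∀ i, X.P i →+ X.P i) (hs : ∀ i x, ∃ y, x = s i x + C.t • y)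
    (i : ℕ) (x : X.P i) :
    ∃ w, X.h i (s i x) = s (i + 1) (X.h i x) + C.t • w := by
  obtain ⟨y, hy⟩ := hs i x
  obtain ⟨z, hz⟩ := hs (i + 1) (X.h i x)
  refine ⟨z - X.h i y, ?_⟩
  have h1 : X.h i x = X.h i (s i x) + C.t • X.h i y := by
    conv_lhs => rw [hy]
    rw [map_add, map_smul]
  have h2 : X.h i (s i x) = X.h i x - C.t • X.h i y := eq_sub_of_add_eq h1.symm
  have h3 : s (i + 1) (X.h i x) + C.t • (z - X.h i y) =
      (s (i + 1) (X.h i x) + C.t • z) - C.t • X.h i y := by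
    rw [smul_sub]; abel
  rw [h3, ← hz, h2]

theorem sSKap (hPrTN : S_PrTN) (hPrKt : S_PrKt) (hCqZ : S_CqZ) (hCqF : S_CqF) : S_SKap := by
  intro Λ _ n C X hn O
  have hst := O.s_t
  have hs := O.s_sub
  have hexd := fun i (x : X.P (i + 1)) => kap_exd X O.s hs i x
  have hexh := fun i (x : X.P i) => kap_exh X O.s hs i x
  choose y hy using hexh
  have huniq : ∀ i (a b : X.P i), C.t • a = C.t • b → X.q i a = X.q i b := by
    intro i a b hab
    have h0 : C.t • (a - b) = 0 := by rw [smul_sub, hab, sub_self]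
    obtain ⟨y, hy⟩ := (hPrKt Λ n C (X.P i) (a - b)).1 h0
    have h1 : X.q i (a - b) = 0 :=
      (hCqZ Λ n C X i (a - b)).2 ⟨0, y, by rw [smul_zero, zero_add]; exact hy⟩
    rw [map_sub] at h1
    exact sub_eq_zero.1 h1
  have hspec : ∀ i (x : X.P i) (v : X.P (i + 1)),
      X.h i (O.s i x) = O.s (i + 1) (X.h i x) + C.t • v → X.q (i + 1) (y i x) = X.q (i + 1) v := by
    intro i x v hv
    apply huniq
    have := (hy i x).symm.trans hv
    exact add_left_cancel this
  -- the additive map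
  let ka : ∀ i, X.P i →+ X.F (i + 1) := fun i =>
    { toFun := fun x => X.q (i + 1) (y i x)
      map_zero' := by
        rw [hspec i 0 0 (by simp), map_zero]
      map_add' := fun x z => by
        rw [← map_add]
        apply hspec
        rw [map_add, map_add, map_add, map_add, hy i x, hy i z, smul_add]
        abel }
  have hkad : ∀ i x, ka i x = X.q (i + 1) (y i x) := fun i x => rfl
  -- vanishing on `t P`
  have hka_t : ∀ i (a : X.P i), ka i (C.t • a) = 0 := by
    intro i a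
    rw [hkad, hspec i (C.t • a) 0, map_zero]
    rw [hst, map_zero, map_smul, hst, smul_zero, add_zero]
  -- the section on `N b`
  have hsN : ∀ i (b : X.P i), O.s i (C.N • b) = (n : ℤ) • O.s i b := by
    intro i b
    have h1 : C.N • b = (n : ℤ) • b + C.t • (((n.choose 2 : Λ) + C.t * C.c) • b) := by
      conv_lhs => rw [C.N_eq]
      have h2 : ((n : ℕ) : ℤ) • b = (n : Λ) • b := by
        rw [natCast_zsmul, Nat.cast_smul_eq_nsmul]
      rw [h2, smul_smul, ← add_smul]
      congr 1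
      ring
    rw [h1, map_add, hst, add_zero, map_zsmul]
  have hka_N : ∀ i (b : X.P i), ka i (C.N • b) = 0 := by
    intro i b
    rw [hkad, hspec i (C.N • b) ((n : ℤ) • y i b)]
    · rw [map_zsmul]
      exact (hCqF Λ n C X hn (i + 1)).2.1 _
    · rw [hsN, map_zsmul, map_smul, hsN, hy i b, smul_add, smul_comm C.t]
  -- linearity
  have hka_smul : ∀ i (l : Λ) (x : X.P i), ka i (l • x) = l • ka i x := by
    intro i l x
    obtain ⟨y, hy⟩ := C.ker_eps (l - (C.eps l : Λ)) (by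
      rw [map_sub, map_intCast, Int.cast_id, sub_self])
    have h1 : l • x = (C.eps l) • x + C.t • (y • x) := by
      have h2 : l = (C.eps l : Λ) + C.t * y := by rw [← hy]; ring
      conv_lhs => rw [h2]
      rw [add_smul, Int.cast_smul_eq_zsmul, mul_smul]
    rw [h1, map_add, hka_t, add_zero, map_zsmul, (hCqF Λ n C X hn (i + 1)).2.2 l]
  let kal : ∀ i, X.P i →ₗ[Λ] X.F (i + 1) := fun i =>
    { toFun := ka i
      map_add' := fun x y => map_add (ka i) x y
      map_smul' := fun l x => hka_smul i l x }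
  have hker : ∀ i, (Ideal.span {C.t, C.N} • (⊤ : Submodule Λ (X.P i))) ≤
      LinearMap.ker (kal i) := by
    intro i x hx
    have h1 : X.q i x = 0 := (Submodule.Quotient.mk_eq_zero _).2 hx
    obtain ⟨a, b, hab⟩ := (hCqZ Λ n C X i x).1 h1
    rw [LinearMap.mem_ker]
    change ka i x = 0
    rw [hab, map_add, hka_t, hka_N, add_zero]
  have hκ : ∀ i (x : X.P i), Submodule.liftQ _ (kal i) (hker i) (X.q i x) = X.q (i + 1) (y i x) :=
    fun i x => rfl
  refine ⟨fun i => Submodule.liftQ _ (kal i) (hker i), fun i x => ?_⟩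
  obtain ⟨p, rfl⟩ := X.q_surj (i + 1) x
  obtain ⟨w, hw⟩ := hexd i p
  obtain ⟨w', hw'⟩ := hexd (i + 1) (X.h (i + 1) p)
  have hωp : O.ω i (X.q (i + 1) p) = X.q i w := O.spec i p w hw
  have hωh : O.ω (i + 1) (X.q (i + 2) (X.h (i + 1) p)) = X.q (i + 1) w' :=
    O.spec (i + 1) (X.h (i + 1) p) w' hw'
  rw [X.eta_q, hωh, hωp, X.eta_q, hκ, X.dF_q, X.dF_q, hκ]
  -- the computation in `P`
  have e1 : X.d (i + 1) (X.h (i + 1) (O.s (i + 1) p)) =
      -O.s (i + 1) (X.h i (X.d i p)) + C.t • (w' + X.d (i + 1) (y (i + 1) p)) := by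
    rw [hy (i + 1) p, map_add, map_smul, hw', smul_add]
    have h3 : X.d (i + 1) (X.h (i + 1) p) = C.t • p - X.h i (X.d i p) :=
      eq_sub_of_add_eq (X.dh i p)
    rw [h3, map_sub, hst, zero_sub]
    abel
  have e2 : X.h i (X.d i (O.s (i + 1) p)) =
      O.s (i + 1) (X.h i (X.d i p)) + C.t • (y i (X.d i p) + X.h i w) := by
    rw [hw, map_add, map_smul, hy i (X.d i p), smul_add]
    abel
  have e3 : C.t • (w' + X.d (i + 1) (y (i + 1) p) + (y i (X.d i p) + X.h i w)) =
      C.t • O.s (i + 1) p := by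
    have h4 := X.dh i (O.s (i + 1) p)
    rw [e1, e2] at h4
    rw [← h4, smul_add C.t (w' + X.d (i + 1) (y (i + 1) p))]
    abel
  have e4 := huniq (i + 1) _ _ e3
  have e5 : X.q (i + 1) (O.s (i + 1) p) = X.q (i + 1) p := by
    obtain ⟨b, hb⟩ := hs (i + 1) p
    have h6 : X.q (i + 1) (C.t • b) = 0 :=
      (hCqZ Λ n C X (i + 1) _).2 ⟨b, 0, by rw [smul_zero, add_zero]⟩
    conv_rhs => rw [hb, map_add, h6, add_zero]
  rw [e5, map_add, map_add, map_add] at e4
  rw [← e4]
  abel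

end HSp
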