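import Pool.Agent.Lib.MP_181146_gt.HS.SpecB

set_option autoImplicit false

namespace HSp

open Module

private lemma slRk {K M N : Type} [Field K] [AddCommGroup M] [Module K M] [AddCommGroup N]
    [Module K N] [FiniteDimensional K M] (f : M →ₗ[K] N) (S : Submodule K M) :
    finrank K (S.map f) + finrank K (S ⊓ LinearMap.ker f : Submodule K M) = finrank K S := by
  have h := LinearMap.finrank_range_add_finrank_ker (f.domRestrict S)
  rw [LinearMap.range_domRestrict] at h
  have h2 : (LinearMap.ker (f.domRestrict S)).map S.subtype = S ⊓ LinearMap.ker f := by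
    ext x
    simp only [Submodule.mem_map, LinearMap.mem_ker, Submodule.mem_inf]
    constructor
    · rintro ⟨y, hy, rfl⟩
      exact ⟨y.2, hy⟩
    · rintro ⟨h1, h2⟩
      exact ⟨⟨x, h1⟩, h2, rfl⟩
  rw [← h2, Submodule.finrank_map_subtype_eq]
  exact h

private lemma slL {K M N : Type} [Field K] [AddCommGroup M] [Module K M] [AddCommGroup N]
    [Module K N] [FiniteDimensional K M] [FiniteDimensional K N] (f : M →ₗ[K] N)
    (Z : Submodule K M) (B : Submodule K N) :
    finrank K (Z.map f ⊔ B : Submodule K N) + finrank K (Z ⊓ B.comap f : Submodule K M) =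
      finrank K Z + finrank K B := by
  have h1 := slRk f Z
  have h2 := slRk f (Z ⊓ B.comap f)
  have h3 := Submodule.finrank_sup_add_finrank_inf_eq (Z.map f) B
  have h4 : (Z ⊓ B.comap f) ⊓ LinearMap.ker f = Z ⊓ LinearMap.ker f := by
    ext x
    simp only [Submodule.mem_inf, LinearMap.mem_ker, Submodule.mem_comap]
    constructor
    · rintro ⟨⟨a, _⟩, c⟩
      exact ⟨a, c⟩
    · rintro ⟨a, c⟩
      exact ⟨⟨a, by rw [c]; exact B.zero_mem⟩, c⟩
  have h5 : (Z ⊓ B.comap f).map f = Z.map f ⊓ B := by
    ext y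
    simp only [Submodule.mem_inf, Submodule.mem_map, Submodule.mem_comap]
    constructor
    · rintro ⟨x, ⟨a, b⟩, rfl⟩
      exact ⟨⟨x, a, rfl⟩, b⟩
    · rintro ⟨⟨x, a, rfl⟩, b⟩
      exact ⟨x, ⟨a, b⟩, rfl⟩
  rw [h4, h5] at h2
  omega

/-- The numerical part. -/
private lemma slNum (E g β b : ℕ → ℕ) (hE0 : E 0 = 0) (hg0 : g 0 = 0) (hβ0 : β 0 = 0)
    (hb0 : b 0 = 0) (hE : ∀ i, E (i + 1) = g (i + 1) + β (i + 1) + β i)
    (hb : ∀ i, b (i + 1) = g (i + 1) + g i) (D : ℕ) (hD : g D = 0) (hD2 : β D = 0) :
    (∑ i ∈ Finset.range (D + 1), (-1 : ℤ) ^ i * (E i : ℤ) =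
      - ∑ i ∈ Finset.range (D + 1), (-1 : ℤ) ^ i * (i : ℤ) * (b i : ℤ)) ∧
    ∑ i ∈ Finset.range (D + 1), (-1 : ℤ) ^ i * (b i : ℤ) = 0 := by
  have h1 : ∀ D, ∑ i ∈ Finset.range (D + 1), (-1 : ℤ) ^ i * (E i : ℤ) =
      ∑ i ∈ Finset.range (D + 1), (-1 : ℤ) ^ i * (g i : ℤ) + (-1) ^ D * (β D : ℤ) := by
    intro D
    induction D with
    | zero => simp [hE0, hg0, hβ0]
    | succ D ih =>
      rw [Finset.sum_range_succ, ih, Finset.sum_range_succ _ (D + 1), hE D]
      push_cast
      ring
  have h2 : ∀ D, ∑ i ∈ Finset.range (D + 1), (-1 : ℤ) ^ i * (b i : ℤ) = (-1) ^ D * (g D : ℤ) := by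
    intro D
    induction D with
    | zero => simp [hb0, hg0]
    | succ D ih =>
      rw [Finset.sum_range_succ, ih, hb D]
      push_cast
      ring
  have h3 : ∀ D, ∑ i ∈ Finset.range (D + 1), (-1 : ℤ) ^ i * (i : ℤ) * (b i : ℤ) =
      - ∑ i ∈ Finset.range (D + 1), (-1 : ℤ) ^ i * (g i : ℤ) + (-1) ^ D * (D + 1) * (g D : ℤ) := by
    intro D
    induction D with
    | zero => simp [hb0, hg0]
    | succ D ih =>
      rw [Finset.sum_range_succ, ih, Finset.sum_range_succ _ (D + 1), hb D]
      push_cast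
      ring
  refine ⟨?_, ?_⟩
  · rw [h1, h3, hD, hD2]
    simp
  · rw [h2, hD]
    simp

theorem sSLin : S_SLin := by
  intro K _ V _ _ _ h0 D hD d ω ω2 η κ dd dω dη hκ hω m hm e he hφ b hb0 hb
  -- the operator f in all degrees
  let F : ∀ i, Module.End K (V i) := fun i =>
    match i with
    | 0 => LinearMap.id
    | i + 1 => LinearMap.id - η i ∘ₗ ω i
  have F1 : ∀ i x, F (i + 1) x = x - η i (ω i x) := fun i x => rfl
  have Fd : ∀ i x, d i (F (i + 1) x) = F i (d i x) := by
    intro i
    rcases i with _ | i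
    · intro x
      exact Subsingleton.elim _ _
    · intro x
      rw [F1, F1, map_sub]
      congr 1
      have h1 := dη i (ω (i + 1) x)
      have h2 := dω i x
      have h3 : d i (ω (i + 1) x) = - ω i (d (i + 1) x) := eq_neg_of_add_eq_zero_left h2
      rw [h3, map_neg] at h1
      exact add_neg_eq_zero.mp h1
  have Fdp : ∀ k i x, d i ((F (i + 1) ^ k) x) = (F i ^ k) (d i x) := by
    intro k
    induction k with
    | zero =>
      intro i x
      simp
    | succ k ih =>
      intro i x
      rw [pow_succ, pow_succ, Module.End.mul_apply, Module.End.mul_apply, ih, Fd]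
  have eF : ∀ i x, e i x = (F i ^ m) x := by
    intro i
    rcases i with _ | i
    · intro x
      exact Subsingleton.elim _ _
    · intro x
      exact hφ i x
  have de : ∀ i x, d i (e (i + 1) x) = e i (d i x) := by
    intro i x
    rw [eF, eF, Fdp]
  let A : ∀ i, Submodule K (V (i + 1)) := fun i =>
    LinearMap.ker (d i) ⊓ (LinearMap.range (d i)).comap (ω i)
  -- (C1)
  have C1 : ∀ i, (LinearMap.ker (d (i + 1))).map (ω (i + 1)) ⊔ LinearMap.range (d (i + 1)) = A i := by
    intro i
    apply le_antisymm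
    · apply sup_le
      · rintro _ ⟨z, hz, rfl⟩
        have hz' : d (i + 1) z = 0 := hz
        refine ⟨?_, ?_⟩
        · change d i (ω (i + 1) z) = 0
          have := dω i z
          rw [hz', map_zero, add_zero] at this
          exact this
        · change ω i (ω (i + 1) z) ∈ LinearMap.range (d i)
          rw [hω i z, hz', map_zero, add_zero, ← map_neg]
          exact ⟨_, rfl⟩
      · rintro _ ⟨w, rfl⟩
        refine ⟨dd i w, ?_⟩
        change ω i (d (i + 1) w) ∈ LinearMap.range (d i)
        have h2 : ω i (d (i + 1) w) = - d i (ω (i + 1) w) := eq_neg_of_add_eq_zero_right (dω i w)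
        rw [h2, ← map_neg]
        exact ⟨_, rfl⟩
    · rintro x ⟨h1, u, hu⟩
      have h1' : d i x = 0 := h1
      have h3 := hκ i x
      have h4 : x = ω (i + 1) (η (i + 1) x) + (η i (ω i x) + d (i + 1) (κ (i + 1) x)) := by
        rw [h1', map_zero, add_zero] at h3
        rw [← add_assoc, h3]
        abel
      rw [h4]
      refine Submodule.add_mem_sup ⟨η (i + 1) x, ?_, rfl⟩ ?_
      · change d (i + 1) (η (i + 1) x) = 0
        have := dη i x
        rw [h1', map_zero, add_zero] at this
        exact this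
      · have h5 : η i (d i u) = - d (i + 1) (η (i + 1) u) := eq_neg_of_add_eq_zero_right (dη i u)
        rw [← hu, h5, ← map_neg, ← map_add]
        exact ⟨_, rfl⟩
  have FZ : ∀ i x, d i x = 0 → d i (F (i + 1) x) = 0 := by
    intro i x hx
    rw [Fd, hx, map_zero]
  have FZp : ∀ k i x, d i x = 0 → d i ((F (i + 1) ^ k) x) = 0 := by
    intro k i x hx
    rw [Fdp, hx, map_zero]
  have FB : ∀ i x, x ∈ LinearMap.range (d i) → F i x ∈ LinearMap.range (d i) := by
    rintro i _ ⟨w, rfl⟩
    exact ⟨F (i + 1) w, Fd i w⟩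
  have FA : ∀ i x, x ∈ A i → ∀ k, x - (F (i + 1) ^ k) x ∈ LinearMap.range (d (i + 1)) := by
    rintro i x ⟨h1, u, hu⟩ k
    induction k with
    | zero =>
      rw [pow_zero, Module.End.one_apply, sub_self]
      exact Submodule.zero_mem _
    | succ k ih =>
      have h2 := FB (i + 1) _ ih
      have h3 : x - F (i + 1) x ∈ LinearMap.range (d (i + 1)) := by
        rw [F1]
        have h5 : η i (d i u) = - d (i + 1) (η (i + 1) u) := eq_neg_of_add_eq_zero_right (dη i u)
        rw [← hu, h5, sub_sub_cancel, ← map_neg]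
        exact ⟨_, rfl⟩
      have h4 := Submodule.add_mem _ h2 h3
      rw [pow_succ', Module.End.mul_apply]
      rw [map_sub] at h4
      have : x - F (i + 1) ((F (i + 1) ^ k) x) =
          F (i + 1) x - F (i + 1) ((F (i + 1) ^ k) x) + (x - F (i + 1) x) := by abel
      rw [this]
      exact h4
  -- (C2)
  have C2 : ∀ i, (LinearMap.range (e (i + 1)) ⊓ LinearMap.ker (d i)) ⊔ LinearMap.range (d (i + 1)) =
      A i := by
    intro i
    apply le_antisymm
    · apply sup_le
      · rintro x ⟨⟨y, hy⟩, hx⟩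
        have hx' : d i x = 0 := hx
        have h1 : e (i + 1) x = x := by rw [← hy, he]
        obtain ⟨k, rfl⟩ : ∃ k, m = k + 1 := ⟨m - 1, by omega⟩
        have h2 : x = F (i + 1) ((F (i + 1) ^ k) x) := by
          rw [← Module.End.mul_apply, ← pow_succ']
          exact h1.symm.trans (eF (i + 1) x)
        have h3 : d i ((F (i + 1) ^ k) x) = 0 := FZp k i x hx'
        set y := (F (i + 1) ^ k) x with hy
        rw [h2, ← C1 i, F1]
        have h4 := hκ i y
        rw [h3, map_zero, add_zero] at h4
        have h5 : y - η i (ω i y) = ω (i + 1) (η (i + 1) y) + d (i + 1) (κ (i + 1) y) := by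
          have h6 : ω (i + 1) (η (i + 1) y) + η i (ω i y) + d (i + 1) (κ (i + 1) y) = y := by
            rw [h4]
            abel
          rw [sub_eq_iff_eq_add, add_right_comm]
          exact h6.symm
        rw [h5]
        refine Submodule.add_mem_sup ⟨η (i + 1) y, ?_, rfl⟩ ⟨_, rfl⟩
        change d (i + 1) (η (i + 1) y) = 0
        have := dη i y
        rw [h3, map_zero, add_zero] at this
        exact this
      · rw [← C1 i]
        exact le_sup_right
    · intro x hx
      have h1 := FA i x hx m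
      have h2 : x = e (i + 1) x + (x - (F (i + 1) ^ m) x) := by
        rw [eF]
        abel
      rw [h2]
      refine Submodule.add_mem_sup ⟨⟨x, rfl⟩, ?_⟩ h1
      change d i (e (i + 1) x) = 0
      rw [de, show d i x = 0 from hx.1, map_zero]
  have C3 : ∀ i, LinearMap.range (e (i + 1)) ⊓ LinearMap.range (d (i + 1)) =
      (LinearMap.range (e (i + 2))).map (d (i + 1)) := by
    intro i
    ext x
    constructor
    · rintro ⟨⟨y, hy⟩, ⟨w, hw⟩⟩
      refine ⟨e (i + 2) w, ⟨w, rfl⟩, ?_⟩
      rw [de, hw, ← hy, he]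
    · rintro ⟨_, ⟨w, rfl⟩, rfl⟩
      exact ⟨⟨d (i + 1) w, (de _ _).symm⟩, ⟨_, rfl⟩⟩
  have C4 : ∀ i, (LinearMap.range (e (i + 1)) ⊓ LinearMap.ker (d i)) ⊓ LinearMap.range (d (i + 1)) =
      (LinearMap.range (e (i + 2))).map (d (i + 1)) := by
    intro i
    rw [← C3, inf_assoc]
    congr 1
    apply inf_eq_right.mpr
    rintro _ ⟨w, rfl⟩
    exact dd i w
  -- numbers
  have BA : ∀ i, LinearMap.range (d (i + 1)) ≤ A i := fun i => by
    rw [← C1 i]
    exact le_sup_right
  let g : ℕ → ℕ := fun i =>
    match i with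
    | 0 => 0
    | i + 1 => finrank K (A i) - finrank K (LinearMap.range (d (i + 1)))
  have hg1 : ∀ i, g (i + 1) + finrank K (LinearMap.range (d (i + 1))) = finrank K (A i) := by
    intro i
    have : finrank K (LinearMap.range (d (i + 1))) ≤ finrank K (A i) := Submodule.finrank_mono (BA i)
    change finrank K (A i) - finrank K (LinearMap.range (d (i + 1))) + _ = _
    omega
  let β : ℕ → ℕ := fun i => finrank K ((LinearMap.range (e (i + 1))).map (d i))
  have hbg : ∀ i, b (i + 1) = g (i + 1) + g i := by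
    intro i
    have h1 := hb i
    rcases i with _ | i
    · have h2 : A 0 = LinearMap.ker (d 0) := by
        apply inf_eq_left.mpr
        intro x hx
        change ω 0 x ∈ LinearMap.range (d 0)
        rw [show ω 0 x = 0 from Subsingleton.elim _ _]
        exact Submodule.zero_mem _
      have h3 := hg1 0
      rw [h2] at h3
      change b (0 + 1) = g (0 + 1) + 0
      omega
    · have h2 := slL (ω (i + 1)) (LinearMap.ker (d (i + 1))) (LinearMap.range (d (i + 1)))
      rw [C1 i] at h2
      have h3 := hg1 i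
      have h4 := hg1 (i + 1)
      change finrank K (A i) + finrank K (A (i + 1)) = _ at h2
      omega
  have hEg : ∀ i, finrank K (LinearMap.range (e (i + 1))) = g (i + 1) + β (i + 1) + β i := by
    intro i
    have h1 := slRk (d i) (LinearMap.range (e (i + 1)))
    have h2 := Submodule.finrank_sup_add_finrank_inf_eq
      (LinearMap.range (e (i + 1)) ⊓ LinearMap.ker (d i)) (LinearMap.range (d (i + 1)))
    rw [C2, C4] at h2
    have h3 := hg1 i
    change β i + _ = _ at h1
    change finrank K (A i) + β (i + 1) = _ at h2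
    omega
  have sub0 : ∀ i, Subsingleton (V i) → ∀ S : Submodule K (V i), finrank K S = 0 := by
    intro i hi S
    have := hi
    have : Subsingleton S := Submodule.subsingleton_iff_eq_bot.mpr (Subsingleton.elim _ _)
    exact finrank_zero_of_subsingleton
  refine slNum (fun i => finrank K (LinearMap.range (e i))) g β b (sub0 0 h0 _) rfl (sub0 0 h0 _)
    hb0 hEg hbg D ?_ ?_
  · have h1 := hbg D
    have h2 := hb D
    rw [sub0 (D + 1) (hD _ (Nat.lt_succ_self D)), sub0 (D + 1) (hD _ (Nat.lt_succ_self D))] at h2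
    omega
  · change finrank K ((LinearMap.range (e (D + 1))).map (d D)) = 0
    have := hD (D + 1) (Nat.lt_succ_self D)
    have : LinearMap.range (e (D + 1)) = ⊥ := Subsingleton.elim _ _
    rw [this, Submodule.map_bot]
    exact finrank_bot K _

end HSp
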