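import Pool.Agent.Lib.MP_181146_gt.HS.SpecB

/-!
# Project HS, SOm2: `ω² = C(n,2) θ - (d ω2 + ω2 d)` on `F`
-/

set_option linter.unusedVariables false
set_option autoImplicit false

namespace HSp

/-- Additive choice: an additive subgroup `G` of `M × M'` which projects onto `M` and contains
`t M × 0` contains the graph of an additive map which is zero on `t M`. -/
private lemma som2_lift {Λ : Type} [CommRing Λ] {n : ℕ} (C : CycData Λ n) (hPrRk : S_PrRk)
    (M M' : Type) [AddCommGroup M] [Module Λ M] [Module.Finite Λ M] [Module.Projective Λ M]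
    [AddCommGroup M'] (G : AddSubgroup (M × M')) (hG0 : ∀ a : M, (C.t • a, (0 : M')) ∈ G)
    (hG : ∀ x : M, ∃ v : M', (x, v) ∈ G) :
    ∃ W : M →+ M', (∀ a, W (C.t • a) = 0) ∧ ∀ x, (x, W x) ∈ G := by
  obtain ⟨a, π, hsur, hker, -⟩ := hPrRk Λ n C M
  choose σ hσ using fun j : Fin a => hsur (Pi.single j 1)
  choose v hv using fun j => hG (σ j)
  let W : M →+ M' := AddMonoidHom.mk' (fun x => ∑ j, π x j • v j) (by
    intro x y
    rw [map_add, ← Finset.sum_add_distrib]
    refine Finset.sum_congr rfl fun j _ => ?_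
    rw [Pi.add_apply, add_smul])
  have hW : ∀ x, W x = ∑ j, π x j • v j := fun x => rfl
  refine ⟨W, ?_, ?_⟩
  · intro b
    have h0 : π (C.t • b) = 0 := (hker _).2 ⟨b, rfl⟩
    rw [hW, h0]
    simp
  · intro x
    have h1 : π (x - ∑ j, π x j • σ j) = 0 := by
      rw [map_sub, map_sum]
      simp only [map_zsmul, hσ]
      rw [sub_eq_zero]
      funext k
      rw [Finset.sum_apply]
      simp only [Pi.smul_apply, smul_eq_mul, Pi.single_apply, mul_ite, mul_one, mul_zero]
      simp
    obtain ⟨b, hb⟩ := (hker _).1 h1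
    have h2 : (∑ j, π x j • σ j, ∑ j, π x j • v j) ∈ G := by
      have h3 : (∑ j, π x j • σ j, ∑ j, π x j • v j) = ∑ j, π x j • (σ j, v j) := by
        refine Prod.ext ?_ ?_
        · rw [Prod.fst_sum]
          rfl
        · rw [Prod.snd_sum]
          rfl
      rw [h3]
      exact G.sum_mem fun j _ => G.zsmul_mem (hv j) _
    have h4 := G.add_mem h2 (hG0 b)
    have h5 : (∑ j, π x j • σ j, ∑ j, π x j • v j) + (C.t • b, (0 : M')) = (x, W x) := by
      rw [← hb, hW]
      refine Prod.ext ?_ ?_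
      · change (∑ j, π x j • σ j) + (x - ∑ j, π x j • σ j) = x
        abel
      · change (∑ j, π x j • v j) + 0 = _
        rw [add_zero]
    rwa [h5] at h4

/-- Decomposition of `N`. -/
private lemma som2_N {Λ : Type} [CommRing Λ] {n : ℕ} (C : CycData Λ n) {M : Type}
    [AddCommGroup M] [Module Λ M] (b : M) :
    C.N • b = (n : ℤ) • b + C.t • (((n.choose 2 : ℤ) • b) + C.t • (C.c • b)) := by
  conv_lhs => rw [C.N_eq]
  have h2 : ((n : ℕ) : ℤ) • b = (n : Λ) • b := by
    rw [natCast_zsmul, Nat.cast_smul_eq_nsmul]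
  have h3 : ((n.choose 2 : ℕ) : ℤ) • b = (n.choose 2 : Λ) • b := by
    rw [natCast_zsmul, Nat.cast_smul_eq_nsmul]
  rw [h2, h3, add_smul, add_smul, add_assoc, smul_add, smul_smul, smul_smul, smul_smul]
  congr 3
  · rw [mul_comm]
  · ring

/-- An additive map to `F_i`, zero on `t P`, factors through `F` as a linear map. -/
private lemma som2_fac {Λ : Type} [CommRing Λ] {n : ℕ} {C : CycData Λ n} (X : Cx Λ C.t)
    (hn : 0 < n) (hCqZ : S_CqZ) (hCqF : S_CqF) (k i : ℕ) (g : X.P k →+ X.F i)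
    (hg : ∀ a, g (C.t • a) = 0) : ∃ g' : X.F k →ₗ[Λ] X.F i, ∀ x, g' (X.q k x) = g x := by
  have hgN : ∀ b, g (C.N • b) = 0 := by
    intro b
    rw [som2_N C b, map_add, hg, add_zero, map_zsmul]
    exact (hCqF Λ n C X hn i).2.1 _
  have hgs : ∀ (l : Λ) x, g (l • x) = l • g x := by
    intro l x
    obtain ⟨y, hy⟩ := C.ker_eps (l - (C.eps l : Λ)) (by
      rw [map_sub, map_intCast, Int.cast_id, sub_self])
    have h1 : l • x = (C.eps l) • x + C.t • (y • x) := by
      have h2 : l = (C.eps l : Λ) + C.t * y := by rw [← hy]; ring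
      conv_lhs => rw [h2]
      rw [add_smul, Int.cast_smul_eq_zsmul, mul_smul]
    rw [h1, map_add, hg, add_zero, map_zsmul, (hCqF Λ n C X hn i).2.2 l]
  let gl : X.P k →ₗ[Λ] X.F i :=
    { toFun := g
      map_add' := fun x y => map_add g x y
      map_smul' := fun l x => hgs l x }
  have hker : (Ideal.span {C.t, C.N} • (⊤ : Submodule Λ (X.P k))) ≤ LinearMap.ker gl := by
    intro x hx
    have h1 : X.q k x = 0 := (Submodule.Quotient.mk_eq_zero _).2 hx
    obtain ⟨a, b, hab⟩ := (hCqZ Λ n C X k x).1 h1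
    rw [LinearMap.mem_ker]
    change g x = 0
    rw [hab, map_add, hg, hgN, add_zero]
  exact ⟨Submodule.liftQ _ gl hker, fun x => rfl⟩

/-- Existence of `w` with `d (s x) = s (d x) + t w`. -/
private lemma som2_ex {Λ : Type} [CommRing Λ] {n : ℕ} {C : CycData Λ n} (X : Cx Λ C.t)
    (O : Om X) (i : ℕ) (x : X.P (i + 1)) :
    ∃ w, X.d i (O.s (i + 1) x) = O.s i (X.d i x) + C.t • w := by
  obtain ⟨y, hy⟩ := O.s_sub (i + 1) x
  obtain ⟨z, hz⟩ := O.s_sub i (X.d i x)
  refine ⟨z - X.d i y, ?_⟩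
  have h1 : X.d i x = X.d i (O.s (i + 1) x) + C.t • X.d i y := by
    conv_lhs => rw [hy]
    rw [map_add, map_smul]
  have h2 : X.d i (O.s (i + 1) x) = X.d i x - C.t • X.d i y := eq_sub_of_add_eq h1.symm
  have h3 : O.s i (X.d i x) + C.t • (z - X.d i y) =
      (O.s i (X.d i x) + C.t • z) - C.t • X.d i y := by
    rw [smul_sub]; abel
  rw [h3, ← hz, h2]

theorem sSOm2 (hPrTN : S_PrTN) (hPrKt : S_PrKt) (hPrRk : S_PrRk) (hCqZ : S_CqZ)
    (hCqF : S_CqF) : S_SOm2 := by
  intro Λ _ n C X hn O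
  -- the additive operator `W`
  have hWex : ∀ i, ∃ W : X.P (i + 1) →+ X.P i, (∀ a, W (C.t • a) = 0) ∧
      ∀ x, X.d i (O.s (i + 1) x) = O.s i (X.d i x) + C.t • W x := by
    intro i
    let G : AddSubgroup (X.P (i + 1) × X.P i) :=
      { carrier := {z | X.d i (O.s (i + 1) z.1) = O.s i (X.d i z.1) + C.t • z.2}
        zero_mem' := by simp
        add_mem' := by
          intro a b ha hb
          change X.d i (O.s (i + 1) (a.1 + b.1)) =
            O.s i (X.d i (a.1 + b.1)) + C.t • (a.2 + b.2)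
          have ha' : X.d i (O.s (i + 1) a.1) = O.s i (X.d i a.1) + C.t • a.2 := ha
          have hb' : X.d i (O.s (i + 1) b.1) = O.s i (X.d i b.1) + C.t • b.2 := hb
          rw [map_add, map_add, map_add, map_add, ha', hb', smul_add]
          abel
        neg_mem' := by
          intro a ha
          have ha' : X.d i (O.s (i + 1) a.1) = O.s i (X.d i a.1) + C.t • a.2 := ha
          change X.d i (O.s (i + 1) (-a.1)) = O.s i (X.d i (-a.1)) + C.t • (-a.2)
          rw [map_neg, map_neg, map_neg, map_neg, ha', smul_neg]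
          abel }
    refine som2_lift C hPrRk _ _ G ?_ ?_
    · intro a
      change X.d i (O.s (i + 1) (C.t • a)) = O.s i (X.d i (C.t • a)) + C.t • (0 : X.P i)
      rw [O.s_t, map_zero, map_smul, O.s_t, smul_zero, add_zero]
    · intro x
      exact som2_ex X O i x
  choose W hWt hW using hWex
  -- the additive operator `U`
  have hUex : ∀ i, ∃ U : X.P (i + 1) →+ X.P i, (∀ a, U (C.t • a) = 0) ∧
      ∀ x, W i x = O.s i (W i x) + C.t • U x := by
    intro i
    let G : AddSubgroup (X.P (i + 1) × X.P i) :=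
      { carrier := {z | W i z.1 = O.s i (W i z.1) + C.t • z.2}
        zero_mem' := by simp
        add_mem' := by
          intro a b ha hb
          have ha' : W i a.1 = O.s i (W i a.1) + C.t • a.2 := ha
          have hb' : W i b.1 = O.s i (W i b.1) + C.t • b.2 := hb
          change W i (a.1 + b.1) = O.s i (W i (a.1 + b.1)) + C.t • (a.2 + b.2)
          have e1 : W i (a.1 + b.1) = W i a.1 + W i b.1 := map_add _ _ _
          rw [e1, map_add, smul_add]
          calc W i a.1 + W i b.1 =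
              (O.s i (W i a.1) + C.t • a.2) + (O.s i (W i b.1) + C.t • b.2) := by
                rw [← ha', ← hb']
            _ = _ := by abel
        neg_mem' := by
          intro a ha
          have ha' : W i a.1 = O.s i (W i a.1) + C.t • a.2 := ha
          change W i (-a.1) = O.s i (W i (-a.1)) + C.t • (-a.2)
          have e1 : W i (-a.1) = -W i a.1 := map_neg _ _
          rw [e1, map_neg, smul_neg, ← neg_add, ← ha'] }
    refine som2_lift C hPrRk _ _ G ?_ ?_
    · intro a
      change W i (C.t • a) = O.s i (W i (C.t • a)) + C.t • (0 : X.P i)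
      rw [hWt, map_zero, smul_zero, add_zero]
    · intro x
      exact O.s_sub i (W i x)
  choose U hUt hU using hUex
  -- `t (W d x + d W x) = 0`
  have htz : ∀ i (x : X.P (i + 2)),
      C.t • (W i (X.d (i + 1) x) + X.d i (W (i + 1) x)) = 0 := by
    intro i x
    have h1 : X.d i (X.d (i + 1) (O.s (i + 2) x)) = 0 := X.dd i _
    rw [hW (i + 1) x, map_add, map_smul, hW i (X.d (i + 1) x), X.dd i x, map_zero,
      zero_add, ← smul_add] at h1
    exact h1
  -- the additive operator `ρ`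
  have hρex : ∀ i, ∃ ρ : X.P (i + 2) →+ X.P i, (∀ a, ρ (C.t • a) = 0) ∧
      ∀ x, W i (X.d (i + 1) x) + X.d i (W (i + 1) x) = C.N • ρ x := by
    intro i
    let G : AddSubgroup (X.P (i + 2) × X.P i) :=
      { carrier := {z | W i (X.d (i + 1) z.1) + X.d i (W (i + 1) z.1) = C.N • z.2}
        zero_mem' := by simp
        add_mem' := by
          intro a b ha hb
          have ha' : W i (X.d (i + 1) a.1) + X.d i (W (i + 1) a.1) = C.N • a.2 := ha
          have hb' : W i (X.d (i + 1) b.1) + X.d i (W (i + 1) b.1) = C.N • b.2 := hb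
          change W i (X.d (i + 1) (a.1 + b.1)) + X.d i (W (i + 1) (a.1 + b.1)) =
            C.N • (a.2 + b.2)
          rw [map_add, map_add, map_add, map_add, smul_add, ← ha', ← hb']
          abel
        neg_mem' := by
          intro a ha
          have ha' : W i (X.d (i + 1) a.1) + X.d i (W (i + 1) a.1) = C.N • a.2 := ha
          change W i (X.d (i + 1) (-a.1)) + X.d i (W (i + 1) (-a.1)) = C.N • (-a.2)
          rw [map_neg, map_neg, map_neg, map_neg, smul_neg, ← ha']
          abel }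
    refine som2_lift C hPrRk _ _ G ?_ ?_
    · intro a
      change W i (X.d (i + 1) (C.t • a)) + X.d i (W (i + 1) (C.t • a)) = C.N • (0 : X.P i)
      rw [map_smul, hWt, hWt, map_zero, smul_zero, add_zero]
    · intro x
      exact (hPrKt Λ n C (X.P i) _).1 (htz i x)
  choose ρ hρt hρ using hρex
  -- the operators on `F`
  have h2ex : ∀ i, ∃ g' : X.F (i + 1) →ₗ[Λ] X.F i, ∀ x, g' (X.q (i + 1) x) = X.q i (U i x) :=
    fun i => som2_fac X hn hCqZ hCqF (i + 1) i
      ((X.q i).toAddMonoidHom.comp (U i)) (fun a => by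
        change X.q i (U i (C.t • a)) = 0
        rw [hUt, map_zero])
  choose ω2 hω2 using h2ex
  have hθex : ∀ i, ∃ g' : X.F (i + 2) →ₗ[Λ] X.F i, ∀ x, g' (X.q (i + 2) x) = X.q i (ρ i x) :=
    fun i => som2_fac X hn hCqZ hCqF (i + 2) i
      ((X.q i).toAddMonoidHom.comp (ρ i)) (fun a => by
        change X.q i (ρ i (C.t • a)) = 0
        rw [hρt, map_zero])
  choose θ hθ using hθex
  refine ⟨ω2, θ, ?_⟩
  intro i x0
  obtain ⟨x, rfl⟩ := X.q_surj (i + 2) x0
  have hωq : ∀ i (x : X.P (i + 1)), O.ω i (X.q (i + 1) x) = X.q i (W i x) := fun i x =>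
    O.spec i x _ (hW i x)
  have hqs : ∀ i (y : X.P i), X.q i (O.s i y) = X.q i y := by
    intro i y
    obtain ⟨z, hz⟩ := O.s_sub i y
    have h1 : X.q i (C.t • z) = 0 := (hCqZ Λ n C X i _).2 ⟨z, 0, by rw [smul_zero, add_zero]⟩
    conv_rhs => rw [hz]
    rw [map_add, h1, add_zero]
  -- the section on `N b`
  have hsN : O.s i (C.N • ρ i x) = (n : ℤ) • O.s i (ρ i x) := by
    rw [som2_N C, map_add, O.s_t, add_zero, map_zsmul]
  have hNs : C.N • ρ i x = C.N • O.s i (ρ i x) := by
    obtain ⟨z, hz⟩ := O.s_sub i (ρ i x)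
    conv_lhs => rw [hz]
    rw [smul_add, smul_smul, mul_comm C.N, C.tN, zero_smul, add_zero]
  -- `d (W x)` and `W (d x)`
  have h1 : X.d i (W (i + 1) x) = O.s i (X.d i (W (i + 1) x)) +
      C.t • (W i (W (i + 1) x) + X.d i (U (i + 1) x)) := by
    have e1 : X.d i (W (i + 1) x) =
        X.d i (O.s (i + 1) (W (i + 1) x)) + C.t • X.d i (U (i + 1) x) := by
      conv_lhs => rw [hU (i + 1) x]
      rw [map_add, map_smul]
    rw [smul_add, ← add_assoc, ← hW i (W (i + 1) x)]
    exact e1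
  have h2 : W i (X.d (i + 1) x) = O.s i (W i (X.d (i + 1) x)) +
      C.t • U i (X.d (i + 1) x) := hU i _
  have h3 : C.N • ρ i x = O.s i (C.N • ρ i x) +
      C.t • (W i (W (i + 1) x) + X.d i (U (i + 1) x) + U i (X.d (i + 1) x)) := by
    have e2 : O.s i (C.N • ρ i x) =
        O.s i (W i (X.d (i + 1) x)) + O.s i (X.d i (W (i + 1) x)) := by
      rw [← hρ i x, map_add]
    rw [e2, ← hρ i x]
    calc W i (X.d (i + 1) x) + X.d i (W (i + 1) x) =
        (O.s i (W i (X.d (i + 1) x)) + C.t • U i (X.d (i + 1) x)) +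
        (O.s i (X.d i (W (i + 1) x)) +
          C.t • (W i (W (i + 1) x) + X.d i (U (i + 1) x))) := by rw [← h1, ← h2]
      _ = _ := by
        rw [smul_add, smul_add, smul_add]
        abel
  rw [hsN, hNs, som2_N C (O.s i (ρ i x))] at h3
  have h4 := add_left_cancel h3
  have h5 : C.t • ((W i (W (i + 1) x) + X.d i (U (i + 1) x) + U i (X.d (i + 1) x)) -
      (((n.choose 2 : ℤ) • O.s i (ρ i x)) + C.t • (C.c • O.s i (ρ i x)))) = 0 := by
    rw [smul_sub, ← h4, sub_self]
  obtain ⟨y, hy⟩ := (hPrKt Λ n C (X.P i) _).1 h5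
  have h6 : X.q i ((W i (W (i + 1) x) + X.d i (U (i + 1) x) + U i (X.d (i + 1) x)) -
      (((n.choose 2 : ℤ) • O.s i (ρ i x)) + C.t • (C.c • O.s i (ρ i x)))) = 0 :=
    (hCqZ Λ n C X i _).2 ⟨0, y, by rw [smul_zero, zero_add]; exact hy⟩
  have h7 : X.q i (C.t • (C.c • O.s i (ρ i x))) = 0 :=
    (hCqZ Λ n C X i _).2 ⟨C.c • O.s i (ρ i x), 0, by rw [smul_zero, add_zero]⟩
  rw [map_sub, map_add, map_add, map_add, h7, add_zero, map_zsmul, hqs, sub_eq_zero] at h6
  rw [hωq, hωq, hθ, X.dF_q, hω2, hω2, X.dF_q, ← h6]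
  abel

end HSp
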