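import Pool.Agent.Lib.MP_181146_gt.HS.SpecB

/-!
# Project HS, SPrj: projective modules of constant rank over `ℤ/n` are free
-/

set_option autoImplicit false

namespace HSp

open TensorProduct

/-- `n = 0` in `Λ / (t, N)`. -/
private lemma SPrj_n {Λ : Type} [CommRing Λ] {n : ℕ} (C : CycData Λ n) :
    ((n : ℤ) : QQ C) = 0 := by
  have h1 : (n : Λ) ∈ Ideal.span {C.t, C.N} := by
    rw [Ideal.mem_span_pair]
    refine ⟨-((n.choose 2 : Λ) + C.t * C.c), 1, ?_⟩
    have h2 := C.N_eq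
    linear_combination h2
  have h2 : ((n : Λ) : QQ C) = 0 := Ideal.Quotient.eq_zero_iff_mem.mpr h1
  simpa using h2

/-- Every element of `Λ / (t, N)` is an integer. -/
private lemma SPrj_int {Λ : Type} [CommRing Λ] {n : ℕ} (C : CycData Λ n) (a : QQ C) :
    ∃ m : ℤ, a = (m : QQ C) := by
  obtain ⟨l, rfl⟩ := Ideal.Quotient.mk_surjective a
  refine ⟨C.eps l, ?_⟩
  obtain ⟨y, hy⟩ := C.ker_eps (l - (C.eps l : Λ)) (by rw [map_sub, map_intCast]; simp)
  have h1 : l - ((C.eps l : ℤ) : Λ) ∈ Ideal.span {C.t, C.N} := by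
    rw [Ideal.mem_span_pair]
    exact ⟨y, 0, by rw [hy]; ring⟩
  have h2 := Ideal.Quotient.eq.mpr h1
  rw [h2, map_intCast]

private lemma SPrj_finite {Λ : Type} [CommRing Λ] {n : ℕ} (C : CycData Λ n) (hn : 0 < n) :
    Finite (QQ C) := by
  have : NeZero n := ⟨hn.ne'⟩
  refine Finite.of_surjective
    (ZMod.lift n (A := QQ C) ⟨Int.castAddHom (QQ C), by
      change (((n : ℕ) : ℤ) : QQ C) = 0
      exact SPrj_n C⟩) ?_
  intro a
  obtain ⟨m, rfl⟩ := SPrj_int C a
  exact ⟨(m : ZMod n), by rw [ZMod.lift_coe]; rfl⟩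

/-- The residue fields of `Λ / (t, N)`. -/
private lemma SPrj_max {Λ : Type} [CommRing Λ] {n : ℕ} (C : CycData Λ n) (hn : 0 < n)
    (P : Ideal (QQ C)) [hP : P.IsMaximal] :
    ∃ p : ℕ, p.Prime ∧ p ∣ n ∧ P = Ideal.span {(p : QQ C)} ∧ Nat.card (QQ C ⧸ P) = p := by
  have hdom : IsDomain (QQ C ⧸ P) := inferInstance
  have hnK : ((n : ℕ) : QQ C ⧸ P) = 0 := by
    have h1 := SPrj_n C
    have h2 := congrArg (Ideal.Quotient.mk P) h1
    rw [map_zero, map_intCast, Int.cast_natCast] at h2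
    exact h2
  obtain ⟨p, hp⟩ := CharP.exists (QQ C ⧸ P)
  have hpn : p ∣ n := (CharP.cast_eq_zero_iff (QQ C ⧸ P) p n).1 hnK
  have hp0 : p ≠ 0 := by
    rintro rfl
    exact hn.ne' (Nat.eq_zero_of_zero_dvd hpn)
  have hpp : p.Prime := (CharP.char_is_prime_or_zero (QQ C ⧸ P) p).resolve_right hp0
  have hint : ∀ x : QQ C ⧸ P, ∃ m : ℤ, x = (m : QQ C ⧸ P) := by
    intro x
    obtain ⟨y, rfl⟩ := Ideal.Quotient.mk_surjective x
    obtain ⟨m, rfl⟩ := SPrj_int C y
    exact ⟨m, map_intCast _ m⟩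
  refine ⟨p, hpp, hpn, le_antisymm ?_ ?_, ?_⟩
  · intro x hx
    obtain ⟨m, rfl⟩ := SPrj_int C x
    have h1 : ((m : ℤ) : QQ C ⧸ P) = 0 := by
      rw [← map_intCast (Ideal.Quotient.mk P) m]
      exact Ideal.Quotient.eq_zero_iff_mem.mpr hx
    obtain ⟨k, hk⟩ := (CharP.intCast_eq_zero_iff (QQ C ⧸ P) p m).1 h1
    rw [hk, Ideal.mem_span_singleton]
    exact ⟨(k : QQ C), by push_cast; ring⟩
  · rw [Ideal.span_singleton_le_iff_mem]
    have h1 : ((p : ℕ) : QQ C ⧸ P) = 0 := CharP.cast_eq_zero _ p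
    rw [← map_natCast (Ideal.Quotient.mk P) p] at h1
    exact Ideal.Quotient.eq_zero_iff_mem.mp h1
  · have hb : Function.Bijective (ZMod.castHom (dvd_refl p) (QQ C ⧸ P)) := by
      refine ⟨ZMod.castHom_injective _, ?_⟩
      intro x
      obtain ⟨m, rfl⟩ := hint x
      exact ⟨(m : ZMod p), by rw [map_intCast]⟩
    rw [← Nat.card_eq_of_bijective _ hb, Nat.card_zmod]

theorem sSPrj : S_SPrj := by
  intro Λ _ n C hn M M' _ _ _ _ a r φ hr
  have hn0 : 0 < n := by omega
  have hfinR : Finite (QQ C) := SPrj_finite C hn0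
  have hsurj : Function.Surjective (algebraMap Λ (QQ C)) := Ideal.Quotient.mk_surjective
  have htor : Module.IsTorsionBySet Λ M (Ideal.span {C.t, C.N} : Ideal Λ) := by
    intro x s
    have h1 : (s : Λ) • φ (x, 0) = 0 := by
      funext j
      rw [Pi.smul_apply, Pi.zero_apply, Algebra.smul_def]
      have h0 : algebraMap Λ (QQ C) s.1 = 0 := Ideal.Quotient.eq_zero_iff_mem.mpr s.2
      rw [h0, zero_mul]
    rw [← map_smul] at h1
    have h2 : (s : Λ) • ((x, 0) : M × M') = 0 := φ.injective (by rw [h1, map_zero])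
    exact congrArg Prod.fst h2
  let : Module (QQ C) M := htor.module
  have : IsScalarTower Λ (QQ C) M := htor.isScalarTower
  have hM : Module.Finite Λ M :=
    Module.Finite.of_surjective (LinearMap.fst Λ M M' ∘ₗ φ.symm.toLinearMap)
      (Prod.fst_surjective.comp φ.symm.surjective)
  have hMR : Module.Finite (QQ C) M := Module.Finite.of_restrictScalars_finite Λ (QQ C) M
  have hproj : Module.Projective (QQ C) M := by
    refine Module.Projective.of_split (M := Fin a → QQ C)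
      (LinearMap.extendScalarsOfSurjective hsurj (φ.toLinearMap ∘ₗ LinearMap.inl Λ M M'))
      (LinearMap.extendScalarsOfSurjective hsurj (LinearMap.fst Λ M M' ∘ₗ φ.symm.toLinearMap)) ?_
    ext x
    change (φ.symm (φ (x, 0))).1 = x
    rw [LinearEquiv.symm_apply_apply]
  have hart : IsArtinianRing (QQ C) := inferInstance
  obtain ⟨b⟩ := Module.nonempty_basis_of_flat_of_finrank_eq (QQ C) M r (by
    intro P
    have hPm := P.isMaximal
    obtain ⟨p, hp, hpn, hPp, hcard⟩ := SPrj_max C hn0 P.asIdeal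
    let : Field (QQ C ⧸ P.asIdeal) := Ideal.Quotient.field _
    have h1 : Nat.card ((QQ C ⧸ P.asIdeal) ⊗[QQ C] M) = p ^ r := by
      rw [← hr p hp hpn]
      have e1 := TensorProduct.quotTensorEquivQuotSMul M P.asIdeal
      have h2 : (P.asIdeal • (⊤ : Submodule (QQ C) M)).restrictScalars Λ =
          Ideal.span {(p : Λ)} • (⊤ : Submodule Λ M) := by
        rw [hPp]
        ext x
        rw [Submodule.restrictScalars_mem, Submodule.ideal_span_singleton_smul,
          Submodule.ideal_span_singleton_smul, Submodule.mem_smul_pointwise_iff_exists,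
          Submodule.mem_smul_pointwise_iff_exists]
        simp only [Submodule.mem_top, true_and, Nat.cast_smul_eq_nsmul]
      have e2 := Submodule.Quotient.restrictScalarsEquiv Λ
        (P.asIdeal • (⊤ : Submodule (QQ C) M))
      rw [Nat.card_congr e1.toEquiv, ← Nat.card_congr e2.toEquiv, h2]
    have hfinM : Finite M := Module.finite_of_finite (QQ C)
    have h3 := Module.natCard_eq_pow_finrank (K := QQ C ⧸ P.asIdeal)
      (V := (QQ C ⧸ P.asIdeal) ⊗[QQ C] M)
    rw [h1, hcard] at h3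
    exact (Nat.pow_right_injective hp.two_le h3).symm)
  exact ⟨b.equivFun.restrictScalars Λ⟩

end HSp
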