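import Pool.Agent.Lib.MP_181146_gt.HS.SpecB

/-! Project HS, module SU1: the chain idempotent `e = u φ ^ m` of the part `u F`. -/

set_option autoImplicit false
set_option linter.unusedVariables false

namespace HSp

private def SU1_pw {Λ : Type} [CommRing Λ] {n : ℕ} {C : CycData Λ n} {X : Cx Λ C.t} (O : Om X)
    (k i : ℕ) : X.F i →ₗ[Λ] X.F i :=
  ((O.phi i : Module.End Λ (X.F i)) ^ k : Module.End Λ (X.F i))

private theorem SU1_pw_succ {Λ : Type} [CommRing Λ] {n : ℕ} {C : CycData Λ n} {X : Cx Λ C.t}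
    (O : Om X) (k i : ℕ) (x : X.F i) : SU1_pw O (k + 1) i x = O.phi i (SU1_pw O k i x) := by
  unfold SU1_pw
  rw [pow_succ']
  rfl

private theorem SU1_pw_zero {Λ : Type} [CommRing Λ] {n : ℕ} {C : CycData Λ n} {X : Cx Λ C.t}
    (O : Om X) (i : ℕ) (x : X.F i) : SU1_pw O 0 i x = x := by
  unfold SU1_pw
  rw [pow_zero]
  rfl

private theorem SU1_chain (hCPc : S_CPc) {Λ : Type} [CommRing Λ] {n : ℕ} {C : CycData Λ n}
    {X : Cx Λ C.t} (hn : 0 < n) (O : Om X) (k i : ℕ) (x : X.F (i + 1)) :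
    X.dF i (SU1_pw O k (i + 1) x) = SU1_pw O k i (X.dF i x) := by
  induction k with
  | zero => rw [SU1_pw_zero, SU1_pw_zero]
  | succ k ih => rw [SU1_pw_succ, SU1_pw_succ, hCPc Λ n C X hn O i, ih]

theorem sSU1 (hCPc : S_CPc) (hCP1 : S_CP1) (hCP2 : S_CP2) (hCF1 : S_CF1) (hCF3 : S_CF3)
    (hCF4 : S_CF4) (hCqF : S_CqF) (hCBo : S_CBo) (hCqZ : S_CqZ) : S_SU1 := by
  intro Λ _ n C X hn O u c' j hu hc hc2 m hm hid0
  have hn0 : 0 < n := by omega
  -- `u² = u` and `u c'^2 = 0` on `F`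
  have huu : ∀ i (y : X.F i), u • (u • y) = u • y := by
    intro i y
    obtain ⟨r, hr⟩ := hu
    have h1 : u * u = n * r + u := by linarith
    rw [smul_smul, h1, add_smul, mul_comm, mul_smul, (hCqF Λ n C X hn0 i).2.1 y, smul_zero,
      zero_add]
  have hcc : ∀ i (y : X.F i), u • (c' • (c' • y)) = 0 := by
    intro i y
    obtain ⟨r, hr⟩ := hc2
    rw [smul_smul, smul_smul, mul_assoc, ← sq, hr, mul_comm, mul_smul, (hCqF Λ n C X hn0 i).2.1 y,
      smul_zero]
  -- the powers of `φ`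
  have hQ1 : ∀ i (x : X.F (i + 1)), X.dF i x = 0 → ∃ (u0 : X.P (i + 1)) (z0 : X.P i)
      (z : X.F (i + 1)), X.d i u0 = C.N • z0 ∧ X.dF i z = 0 ∧
        SU1_pw O m (i + 1) x = X.q (i + 1) u0 + c' • z := by
    intro i x hx
    obtain ⟨k, rfl⟩ : ∃ k, m = k + 1 := ⟨m - 1, by omega⟩
    rw [SU1_pw_succ]
    have hx' : X.dF i (SU1_pw O k (i + 1) x) = 0 := by
      rw [SU1_chain hCPc hn0 O, hx, map_zero]
    exact hCP1 Λ n C X hn0 O c' j hc i _ hx'
  have hQ2' : ∀ k i (u0 : X.P (i + 1)) (z0 : X.P i), X.d i u0 = C.N • z0 →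
      ∃ (w : X.F (i + 2)) (z : X.F (i + 1)), X.dF i z = 0 ∧
        SU1_pw O k (i + 1) (X.q (i + 1) u0) = X.q (i + 1) u0 + X.dF (i + 1) w + c' • z := by
    intro k i u0 z0 hu0
    induction k with
    | zero =>
      exact ⟨0, 0, map_zero _, by rw [SU1_pw_zero, map_zero, smul_zero, add_zero, add_zero]⟩
    | succ k ih =>
      obtain ⟨w, z, hz, he⟩ := ih
      obtain ⟨w1, z1, hz1, he1⟩ := hCP2 Λ n C X hn0 O c' j hc i u0 z0 hu0
      refine ⟨w1 + O.phi (i + 2) w, z1 + O.phi (i + 1) z, ?_, ?_⟩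
      · rw [map_add, hz1, hCPc Λ n C X hn0 O i, hz, map_zero, add_zero]
      · rw [SU1_pw_succ, he, map_add, map_add, he1, ← hCPc Λ n C X hn0 O (i + 1), map_zsmul,
          map_add, smul_add]
        abel
  have hid : ∀ i x, SU1_pw O m i (SU1_pw O m i x) = SU1_pw O m i x := hid0
  -- the idempotent
  obtain ⟨e, he⟩ : ∃ e : ∀ i, X.F i →ₗ[Λ] X.F i, ∀ i x, e i x = u • SU1_pw O m i x :=
    ⟨fun i => u • SU1_pw O m i, fun i x => rfl⟩
  have hue : ∀ i x, u • e i x = e i x := by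
    intro i x
    rw [he, huu]
  have hee : ∀ i x, e i (e i x) = e i x := by
    intro i x
    rw [he i (e i x), he i x, map_zsmul, hid, huu]
  have hch : ∀ i (x : X.F (i + 1)), X.dF i (e (i + 1) x) = e i (X.dF i x) := by
    intro i x
    rw [he, he, map_zsmul, SU1_chain hCPc hn0 O]
  refine ⟨{ e := e, idem := hee, ue := hue, chain := hch, onto := ?_, inj := ?_ }, he⟩
  · intro i y hy hdy
    obtain ⟨u0, z0, z, hu0, hz, h0⟩ := hQ1 i y hdy
    obtain ⟨u1, z1, z', hu1, hz', h1⟩ := hQ1 i z hz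
    refine ⟨u0 + c' • u1, ⟨z0 + c' • z1, ?_⟩, ?_⟩
    · rw [map_add, map_zsmul, hu0, hu1, smul_add, smul_comm]
    · have h2 : c' • e (i + 1) z = u • (c' • X.q (i + 1) u1) := by
        rw [he, h1, smul_add, smul_add, smul_comm c' u (c' • z'), hcc, add_zero, smul_comm]
      have h3 : c' • e (i + 1) z = c' • e (i + 1) (X.q (i + 1) u1) := by
        calc c' • e (i + 1) z = e (i + 1) (c' • e (i + 1) z) := by rw [map_zsmul, hee]
          _ = c' • e (i + 1) (X.q (i + 1) u1) := by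
            rw [h2, map_zsmul, map_zsmul, smul_comm, hue]
      have h4 : y = u • X.q (i + 1) u0 + u • (c' • z) := by
        rw [← smul_add, ← h0, ← he, hy]
      have h5 : y = e (i + 1) (X.q (i + 1) u0) + c' • e (i + 1) z := by
        conv_lhs => rw [← hy, h4]
        rw [map_add, map_zsmul, map_zsmul, map_zsmul, hue, smul_comm, hue]
      rw [map_add, map_add, map_zsmul (X.q (i + 1)), map_zsmul, ← h3, ← h5]
  · intro i x z w hx hew
    obtain ⟨w1, z1, hz1, he1⟩ := hQ2' m i x z hx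
    have hz2 : X.dF i (-z1) = 0 := by rw [map_neg, hz1, neg_zero]
    obtain ⟨u', y', z', hu', hq', -, -, -⟩ := hCBo Λ n C X hn0 O i (-z1) hz2
    obtain ⟨hcy, z'', hz''⟩ := hCF3 Λ n C X hn0 i u' y' z' hu'
    have hk : -z1 = X.q (i + 1) (u' - X.h i y') + X.eta i (X.q i y') := by
      rw [X.eta_q, map_sub, sub_add_cancel, hq']
    have hcyc : X.cyc i (-((u * c') • y')) := by
      cases i with
      | zero => trivial
      | succ i =>
        obtain ⟨b, hb⟩ := hcy
        exact ⟨-((u * c') • b), by rw [map_neg, map_zsmul, hb, smul_neg, smul_comm]⟩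
    have hux : X.d i (u • x - (u * c') • (u' - X.h i y')) = C.N • (u • z - (u * c') • z'') := by
      rw [map_sub, map_zsmul, map_zsmul, hx, hz'', smul_sub, smul_comm u C.N,
        smul_comm (u * c') C.N]
    have h1 : u • X.q (i + 1) x = X.dF (i + 1) (w - u • w1) + (u * c') • (-z1) := by
      rw [map_sub, ← hew, he, he1, map_zsmul, smul_neg, smul_add, smul_add, mul_smul]
      abel
    have hw : X.q (i + 1) (u • x - (u * c') • (u' - X.h i y')) +
        X.eta i (X.q i (-((u * c') • y'))) = X.dF (i + 1) (w - u • w1) := by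
      rw [map_sub, map_zsmul (X.q (i + 1)) u, h1, hk, map_neg, map_zsmul (X.q i), map_neg,
        map_zsmul (X.eta i), map_zsmul (X.q (i + 1)), smul_add]
      abel
    obtain ⟨w', hw'⟩ := hCF4 Λ n C X hn0 i _ _ _ hux hcyc _ hw
    obtain ⟨w3, z3, hz3, he3⟩ := hQ2' m i (u' - X.h i y') z'' hz''
    have hqx : u • X.q (i + 1) x = X.dF (i + 1) w' + (u * c') • X.q (i + 1) (u' - X.h i y') := by
      rw [← hw', map_sub (X.q (i + 1)) (u • x), map_zsmul (X.q (i + 1)) u,
        map_zsmul (X.q (i + 1)) (u * c'), sub_add_cancel]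
    have he4 : (u * c') • e (i + 1) (X.q (i + 1) (u' - X.h i y')) =
        (u * c') • X.q (i + 1) (u' - X.h i y') + (u * c') • X.dF (i + 1) w3 := by
      rw [he, he3, smul_comm (u * c') u, mul_smul, huu, smul_add c', smul_add u, hcc, add_zero,
        ← smul_add, ← mul_smul]
    have h5 : e (i + 1) (u • X.q (i + 1) x) =
        X.dF (i + 1) (e (i + 2) w') + ((u * c') • X.q (i + 1) (u' - X.h i y') +
          (u * c') • X.dF (i + 1) w3) := by
      rw [hqx, map_add, map_zsmul, he4, ← hch]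
    have h6 : e (i + 1) (u • X.q (i + 1) x) = X.dF (i + 1) w := by
      rw [map_zsmul, hue, hew]
    refine ⟨w' + w - e (i + 2) w' - (u * c') • w3, ?_⟩
    have h7 : (u * c') • X.q (i + 1) (u' - X.h i y') = X.dF (i + 1) w -
        X.dF (i + 1) (e (i + 2) w') - (u * c') • X.dF (i + 1) w3 := by
      rw [← h6, h5]
      abel
    rw [hqx, h7, map_sub, map_sub, map_add, map_zsmul]
    abel

end HSp
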