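import Pool.Agent.Lib.MP_181146_gt.HS.SpecB
import Pool.Agent.Lib.MP_181146_gt.HS.PrTN
import Pool.Agent.Lib.MP_181146_gt.HS.PrKt
import Pool.Agent.Lib.MP_181146_gt.HS.PrTf

/-! Project HS, module SU2: the `2`-part for `n = 2 m`, `m` odd (linear algebra over `ℤ/2`). -/

set_option autoImplicit false
set_option linter.unusedVariables false

namespace HSp

/-- In a vector space with subspaces `K`, `B` there is an idempotent with values in `K`
which kills `B` and is the identity on `K` modulo `B`. -/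
private theorem SU2_vec {k V : Type} [Field k] [AddCommGroup V] [Module k V]
    (K B : Submodule k V) :
    ∃ e : V →ₗ[k] V, (∀ x, e (e x) = e x) ∧ (∀ x, e x ∈ K) ∧ (∀ b ∈ B, e b = 0) ∧
      ∀ x ∈ K, x - e x ∈ B := by
  let f : K →ₗ[k] (V ⧸ B) := B.mkQ.domRestrict K
  obtain ⟨σ, hσ⟩ := f.rangeRestrict.exists_rightInverse_of_surjective
    (LinearMap.range_rangeRestrict f)
  obtain ⟨ρ, hρ⟩ := (LinearMap.range f).subtype.exists_leftInverse_of_injective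
    (Submodule.ker_subtype _)
  have hσ1 : ∀ l : LinearMap.range f, B.mkQ (σ l : V) = (l : V ⧸ B) := by
    intro l
    have h1 : f.rangeRestrict (σ l) = l := LinearMap.congr_fun hσ l
    exact congrArg Subtype.val h1
  have hρ1 : ∀ l : LinearMap.range f, ρ (l : V ⧸ B) = l := fun l => LinearMap.congr_fun hρ l
  refine ⟨K.subtype ∘ₗ σ ∘ₗ ρ ∘ₗ B.mkQ, ?_, ?_, ?_, ?_⟩
  · intro x
    change ((σ (ρ (B.mkQ (σ (ρ (B.mkQ x)) : V))) : K) : V) = (σ (ρ (B.mkQ x)) : V)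
    rw [hσ1, hρ1]
  · intro x
    exact (σ (ρ (B.mkQ x))).2
  · intro b hb
    change ((σ (ρ (B.mkQ b)) : K) : V) = 0
    have h1 : B.mkQ b = 0 := by
      rw [Submodule.mkQ_apply, Submodule.Quotient.mk_eq_zero]
      exact hb
    rw [h1, map_zero, map_zero]
    rfl
  · intro x hx
    change x - ((σ (ρ (B.mkQ x)) : K) : V) ∈ B
    have h1 : B.mkQ x = (f.rangeRestrict ⟨x, hx⟩ : V ⧸ B) := rfl
    have h2 : B.mkQ (x - ((σ (ρ (B.mkQ x)) : K) : V)) = 0 := by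
      rw [map_sub, hσ1, h1, hρ1, sub_self]
    rw [Submodule.mkQ_apply, Submodule.Quotient.mk_eq_zero] at h2
    exact h2

/-- The same for groups killed by a prime `p`. -/
private theorem SU2_proj {A : Type} [AddCommGroup A] (p : ℕ) (hp : p.Prime)
    (h : ∀ y : A, (p : ℤ) • y = 0) (K B : AddSubgroup A) :
    ∃ e : A →+ A, (∀ x, e (e x) = e x) ∧ (∀ x, e x ∈ K) ∧ (∀ b ∈ B, e b = 0) ∧
      ∀ x ∈ K, x - e x ∈ B := by
  have : Fact p.Prime := ⟨hp⟩
  let _ : Module (ZMod p) A := AddCommGroup.zmodModule (fun x => by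
    have := h x
    rwa [natCast_zsmul] at this)
  obtain ⟨e, h1, h2, h3, h4⟩ := SU2_vec (AddSubgroup.toZModSubmodule p K)
    (AddSubgroup.toZModSubmodule p B)
  exact ⟨e.toAddMonoidHom, h1, h2, h3, h4⟩

/-- The same on the part `u A` of a group `A`, where `2 u = 0`. -/
private theorem SU2_projA {A : Type} [AddCommGroup A] (u : ℤ) (hu2 : (2 : ℤ) ∣ u - 1)
    (h : ∀ y : A, (2 : ℤ) • (u • y) = 0) (K B : AddSubgroup A) :
    ∃ e : A →+ A, (∀ x, e (e x) = e x) ∧ (∀ x, u • e x = e x) ∧ (∀ x, e x ∈ K) ∧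
      (∀ b ∈ B, e b = 0) ∧ ∀ x ∈ K, u • x - e x ∈ B := by
  obtain ⟨v, hv⟩ := hu2
  let T : AddSubgroup A := (zsmulAddGroupHom (2 : ℤ)).ker
  have hT : ∀ x : A, x ∈ T ↔ (2 : ℤ) • x = 0 := fun x => Iff.rfl
  have hTu : ∀ x : A, (2 : ℤ) • x = 0 → u • x = x := by
    intro x hx
    have h1 : u = 1 + v * 2 := by linarith
    rw [h1, add_smul, one_smul, mul_smul, hx, smul_zero, add_zero]
  obtain ⟨e, he1, he2, he3, he4⟩ := SU2_proj (A := T) 2 Nat.prime_two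
    (fun y => Subtype.ext y.2) (K.addSubgroupOf T) (B.addSubgroupOf T)
  let U : A →+ T :=
    { toFun := fun x => ⟨u • x, h x⟩
      map_zero' := Subtype.ext (smul_zero u)
      map_add' := fun x y => Subtype.ext (smul_add u x y) }
  have hU : ∀ x : T, U (x : A) = x := fun x => Subtype.ext (hTu x x.2)
  refine ⟨T.subtype.comp (e.comp U), ?_, ?_, ?_, ?_, ?_⟩
  · intro x
    change ((e (U ((e (U x) : T) : A)) : T) : A) = ((e (U x) : T) : A)
    rw [hU, he1]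
  · intro x
    exact hTu _ (e (U x)).2
  · intro x
    exact he2 (U x)
  · intro b hb
    change ((e (U b) : T) : A) = 0
    rw [he3 (U b) (B.zsmul_mem hb u)]
    rfl
  · intro x hx
    exact he4 (U x) (K.zsmul_mem hx u)

/-- The classes of the cycles modulo `N`. -/
private def SU2_K {Λ : Type} [CommRing Λ] {n : ℕ} {C : CycData Λ n} (X : Cx Λ C.t) (i : ℕ) :
    AddSubgroup (X.F (i + 1)) where
  carrier := {y | ∃ (u : X.P (i + 1)) (z : X.P i), X.d i u = C.N • z ∧ X.q (i + 1) u = y}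
  zero_mem' := ⟨0, 0, by rw [map_zero, smul_zero], map_zero _⟩
  add_mem' := by
    rintro a b ⟨u, z, h1, h2⟩ ⟨u', z', h3, h4⟩
    exact ⟨u + u', z + z', by rw [map_add, h1, h3, smul_add], by rw [map_add, h2, h4]⟩
  neg_mem' := by
    rintro a ⟨u, z, h1, h2⟩
    exact ⟨-u, -z, by rw [map_neg, h1, smul_neg], by rw [map_neg, h2]⟩

/-- The construction, with the properties of `e` used below. -/
private theorem SU2_split (hCF1 : S_CF1) (hCqZ : S_CqZ) (hCqF : S_CqF)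
    (Λ : Type) [CommRing Λ] (n : ℕ) (C : CycData Λ n) (X : Cx Λ C.t) (m : ℕ)
    (hn0 : 0 < n) (hn : n = 2 * m) (u : ℤ) (hu : (m : ℤ) ∣ u) (hu2 : (2 : ℤ) ∣ u - 1) :
    ∃ S : SplitU X u, (∀ i (x : X.F (i + 1)), ∃ (a : X.P (i + 1)) (z : X.P i),
      X.d i a = C.N • z ∧ X.q (i + 1) a = S.e (i + 1) x) ∧
      (∀ i (x : X.F (i + 2)), S.e (i + 1) (X.dF (i + 1) x) = 0) ∧
      (∀ i (x : X.P (i + 1)) (z : X.P i), X.d i x = C.N • z →
        ∃ w, u • X.q (i + 1) x = S.e (i + 1) (X.q (i + 1) x) + X.dF (i + 1) w) := by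
  have h2u : ∀ i (y : X.F i), (2 : ℤ) • (u • y) = 0 := by
    intro i y
    obtain ⟨j, rfl⟩ := hu
    have h1 : (2 : ℤ) * (m * j) = j * (n : ℤ) := by
      rw [hn]
      push_cast
      ring
    rw [← mul_smul, h1, mul_smul, (hCqF Λ n C X hn0 i).2.1, smul_zero]
  have key := fun i => SU2_projA u hu2 (h2u (i + 1)) (SU2_K X i)
    (LinearMap.range (X.dF (i + 1))).toAddSubgroup
  choose e he1 heu he2 he3 he4 using key
  let eL : ∀ i, X.F i →ₗ[Λ] X.F i := fun i => match i with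
    | 0 => 0
    | i + 1 =>
      { toFun := e i
        map_add' := map_add (e i)
        map_smul' := fun l y => by
          rw [(hCqF Λ n C X hn0 (i + 1)).2.2 l y, map_zsmul, RingHom.id_apply,
            ← (hCqF Λ n C X hn0 (i + 1)).2.2 l] }
  have heL : ∀ i (y : X.F (i + 1)), eL (i + 1) y = e i y := fun i y => rfl
  have h4 : ∀ i (x : X.P (i + 1)) (z : X.P i), X.d i x = C.N • z →
        ∃ w, u • X.q (i + 1) x = eL (i + 1) (X.q (i + 1) x) + X.dF (i + 1) w := by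
    intro i x z hx
    obtain ⟨w', hw'⟩ := he4 i (X.q (i + 1) x) ⟨x, z, hx, rfl⟩
    exact ⟨w', by rw [heL, hw', add_sub_cancel]⟩
  refine ⟨{ e := eL, idem := ?_, ue := ?_, chain := ?_, onto := ?_, inj := ?_ }, ?_, ?_, h4⟩
  · intro i x
    cases i with
    | zero => rfl
    | succ i => exact he1 i x
  · intro i x
    cases i with
    | zero => exact smul_zero u
    | succ i => exact heu i x
  · intro i x
    obtain ⟨a, z, h1, h2⟩ := he2 i x
    have h3 : X.dF i (eL (i + 1) x) = 0 := by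
      rw [heL, ← h2, X.dF_q, h1]
      exact (hCqZ Λ n C X i _).2 ⟨0, z, by rw [smul_zero, zero_add]⟩
    rw [h3]
    cases i with
    | zero => rfl
    | succ i => exact (he3 i _ ⟨x, rfl⟩).symm
  · intro i y hy hdy
    obtain ⟨a, z, h1, h2⟩ := he2 i y
    rw [heL] at hy
    rw [hy] at h2
    exact ⟨a, ⟨z, h1⟩, by rw [heL, h2, hy]⟩
  · intro i x z w hx hw
    obtain ⟨w', hw'⟩ := h4 i x z hx
    exact ⟨w + w', by rw [hw', hw, map_add]⟩
  · intro i x
    obtain ⟨a, z, h1, h2⟩ := he2 i x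
    exact ⟨a, z, h1, h2⟩
  · intro i x
    exact he3 i _ ⟨x, rfl⟩

private theorem SU2_pair {R M : Type} [CommRing R] [AddCommGroup M] [Module R M] (a b : R)
    (x : M) (hx : x ∈ (Ideal.span {a, b} • (⊤ : Submodule R M))) :
    ∃ y z, x = a • y + b • z := by
  refine Submodule.smul_induction_on hx ?_ ?_
  · intro r hr m _
    obtain ⟨c, d, hab⟩ := Ideal.mem_span_pair.mp hr
    refine ⟨c • m, d • m, ?_⟩
    rw [← hab, add_smul, mul_comm c, mul_comm d, mul_smul, mul_smul]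
  · rintro y z ⟨c, d, rfl⟩ ⟨c', d', rfl⟩
    refine ⟨c + c', d + d', ?_⟩
    rw [smul_add, smul_add]
    abel

/-- The embedding `V → F` with image the `2`-torsion. -/
private theorem SU2_phi (hCqZ : S_CqZ) (hCqF : S_CqF)
    (Λ : Type) [CommRing Λ] (n : ℕ) (C : CycData Λ n) (X : Cx Λ C.t) (m : ℕ)
    (hn0 : 0 < n) (hn : n = 2 * m) (u : ℤ) (hu : (m : ℤ) ∣ u) (hu2 : (2 : ℤ) ∣ u - 1) (i : ℕ) :
    ∃ f : X.V 2 i →+ X.F i, Function.Injective f ∧ (∀ x : X.P i,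
      f (Submodule.Quotient.mk x) = u • X.q i x) ∧ ∀ y, (∃ v, f v = y) ↔ (2 : ℤ) • y = 0 := by
  obtain ⟨v, hv⟩ := hu2
  have h2u : ∀ (y : X.F i), (2 : ℤ) • (u • y) = 0 := by
    intro y
    obtain ⟨j, rfl⟩ := hu
    have h1 : (2 : ℤ) * (m * j) = j * (n : ℤ) := by
      rw [hn]
      push_cast
      ring
    rw [← mul_smul, h1, mul_smul, (hCqF Λ n C X hn0 i).2.1, smul_zero]
  have hTu : ∀ x : X.F i, (2 : ℤ) • x = 0 → u • x = x := by
    intro x hx
    have h1 : u = 1 + v * 2 := by linarith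
    rw [h1, add_smul, one_smul, mul_smul, hx, smul_zero, add_zero]
  let f : X.V 2 i →ₗ[Λ] X.F i := Submodule.liftQ _ (u • X.q i) (by
    intro x hx
    obtain ⟨y, z, rfl⟩ := SU2_pair _ _ x hx
    rw [LinearMap.mem_ker, LinearMap.smul_apply, map_add, map_smul, map_smul]
    have h1 : C.t • X.q i y = 0 := by
      rw [← map_smul]
      exact (hCqZ Λ n C X i _).2 ⟨y, 0, by rw [smul_zero, add_zero]⟩
    have h2 : u • (((2 : ℕ) : Λ) • X.q i z) = 0 := by
      rw [Nat.cast_smul_eq_nsmul, ← natCast_zsmul, smul_comm]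
      exact h2u _
    rw [h1, zero_add, h2])
  have hf : ∀ x : X.P i, f (Submodule.Quotient.mk x) = u • X.q i x := fun x => rfl
  refine ⟨f.toAddMonoidHom, ?_, hf, ?_⟩
  · change Function.Injective f
    rw [← LinearMap.ker_eq_bot, LinearMap.ker_eq_bot']
    intro w hw
    obtain ⟨x, rfl⟩ := Submodule.Quotient.mk_surjective _ w
    rw [hf, ← map_zsmul] at hw
    obtain ⟨a, b, hab⟩ := (hCqZ Λ n C X i _).1 hw
    rw [Submodule.Quotient.mk_eq_zero]
    have h1 : x = C.t • (a + ((n.choose 2 : Λ) + C.t * C.c) • b) +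
        ((2 : ℕ) : Λ) • ((m : Λ) • b - v • x) := by
      have h2 : C.N • b = (n : Λ) • b + C.t • (((n.choose 2 : Λ) + C.t * C.c) • b) := by
        rw [C.N_eq, ← mul_smul, ← add_smul]
        congr 1
        ring
      have h3 : (n : Λ) • b = ((2 : ℕ) : Λ) • ((m : Λ) • b) := by
        have h3' : (n : Λ) = ((2 : ℕ) : Λ) * (m : Λ) := by rw [← Nat.cast_mul, ← hn]
        rw [h3', mul_smul]
      have h4 : u • x = x + ((2 : ℕ) : Λ) • (v • x) := by
        rw [Nat.cast_smul_eq_nsmul, ← natCast_zsmul, ← mul_smul]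
        have h5 : u = 1 + ((2 : ℕ) : ℤ) * v := by
          push_cast
          linarith
        rw [h5, add_smul, one_smul]
      rw [h4, h2, h3] at hab
      rw [smul_sub, smul_add]
      refine (eq_sub_of_add_eq hab).trans ?_
      abel
    rw [h1]
    refine Submodule.add_mem _ ?_ ?_
    · exact Submodule.smul_mem_smul (Ideal.subset_span (by simp)) trivial
    · exact Submodule.smul_mem_smul (Ideal.subset_span (by simp)) trivial
  · intro y
    constructor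
    · rintro ⟨w, rfl⟩
      obtain ⟨x, rfl⟩ := Submodule.Quotient.mk_surjective _ w
      exact h2u (X.q i x)
    · intro hy
      obtain ⟨x, rfl⟩ := X.q_surj i y
      exact ⟨Submodule.Quotient.mk x, hTu _ hy⟩

/-- Twisted relation between the ranks and the Betti numbers. -/
private theorem SU2_sum (r b : ℕ → ℕ) (D : ℕ) (hr0 : r 0 = 0) (hb0 : b 0 = 0)
    (hb : ∀ i, b (i + 1) = r (i + 1) + r i) (hD : b (D + 1) = 0) :
    (∑ i ∈ Finset.range (D + 1), (-1 : ℤ) ^ i * (r i : ℤ) =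
      - ∑ i ∈ Finset.range (D + 1), (-1 : ℤ) ^ i * (i : ℤ) * (b i : ℤ)) ∧
    ∑ i ∈ Finset.range (D + 1), (-1 : ℤ) ^ i * (b i : ℤ) = 0 := by
  have hrD : r D = 0 := by
    have := hb D
    omega
  have key : ∀ k, (∑ i ∈ Finset.range (k + 1), (-1 : ℤ) ^ i * (r i : ℤ) =
      - ∑ i ∈ Finset.range (k + 1), (-1 : ℤ) ^ i * (i : ℤ) * (b i : ℤ) +
        (-1 : ℤ) ^ k * (k + 1) * (r k : ℤ)) ∧
    ∑ i ∈ Finset.range (k + 1), (-1 : ℤ) ^ i * (b i : ℤ) = (-1 : ℤ) ^ k * (r k : ℤ) := by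
    intro k
    induction k with
    | zero => simp [hr0, hb0]
    | succ k ih =>
      obtain ⟨h1, h2⟩ := ih
      rw [Finset.sum_range_succ, Finset.sum_range_succ (fun i => (-1 : ℤ) ^ i * (i : ℤ) * (b i : ℤ)),
        Finset.sum_range_succ (fun i => (-1 : ℤ) ^ i * (b i : ℤ)), h1, h2, hb k]
      push_cast
      constructor <;> ring
  obtain ⟨h1, h2⟩ := key D
  rw [hrD] at h1 h2
  simp only [Nat.cast_zero, mul_zero, add_zero] at h1 h2
  exact ⟨h1, h2⟩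

/-- A group of the form `im e`, `2 e = 0`. -/
private theorem SU2_rk {Λ : Type} [CommRing Λ] {M : Type} [AddCommGroup M] [Module Λ M]
    (e : M →ₗ[Λ] M) (h : ∀ x, (2 : ℤ) • e x = 0) :
    Nat.card (QN ((2 : ℕ) : Λ) (LinearMap.range e)) = Nat.card {x : M // ∃ y, e y = x} := by
  have h1 : (Ideal.span {((2 : ℕ) : Λ)} • (⊤ : Submodule Λ (LinearMap.range e))) = ⊥ := by
    rw [eq_bot_iff]
    refine Submodule.smul_le.2 ?_
    rintro r hr ⟨_, ⟨y, rfl⟩⟩ -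
    obtain ⟨c, rfl⟩ := Ideal.mem_span_singleton'.1 hr
    rw [Submodule.mem_bot]
    apply Subtype.ext
    change (c * ((2 : ℕ) : Λ)) • e y = 0
    rw [mul_smul, Nat.cast_smul_eq_nsmul, ← natCast_zsmul]
    have := h y
    push_cast
    rw [this, smul_zero]
  exact Nat.card_congr (Submodule.quotEquivOfEqBot _ h1).toEquiv

private theorem SU2_CF4 (hCqZ : S_CqZ) (Λ : Type) [CommRing Λ] (n : ℕ) (C : CycData Λ n)
    (X : Cx Λ C.t) (hn : 0 < n) (i : ℕ) (u : X.P (i + 1)) (v : X.P i) (z0 : X.P i)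
    (hu : X.d i u = C.N • z0) (hv : X.cyc i v) (w : X.F (i + 2))
    (h : X.q (i + 1) u + X.eta i (X.q i v) = X.dF (i + 1) w) :
    ∃ w', X.q i v = X.dF i w' := by
  have hPrTN := sPrTN sPrTf
  have hPrKt := sPrKt
  have hqN : ∀ k (x : X.P k), X.q k (C.N • x) = 0 := fun k x =>
    (hCqZ Λ n C X k _).2 ⟨0, x, by rw [smul_zero, zero_add]⟩
  cases i with
  | zero =>
    have hs := X.zero
    have h4 : v = 0 := Subsingleton.elim _ _
    exact ⟨0, by rw [h4, map_zero, map_zero]⟩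
  | succ k =>
    obtain ⟨z1, hz1⟩ := hv
    obtain ⟨b0, rfl⟩ := X.q_surj (k + 1 + 2) w
    have h0 : X.q (k + 1 + 1) (u + X.h (k + 1) v - X.d (k + 1 + 1) b0) = 0 := by
      rw [map_sub, map_add, ← X.eta_q, h, X.dF_q, sub_self]
    obtain ⟨c1, c2, hc⟩ := (hCqZ Λ n C X (k + 1 + 1) _).1 h0
    have hdh : X.d (k + 1) (X.h (k + 1) v) = C.t • v - C.N • X.h k z1 := by
      have h1 := X.dh k v
      rw [hz1, map_smul] at h1
      exact eq_sub_of_add_eq h1
    have h2 : C.t • (v - X.d (k + 1) c1) = C.N • (X.d (k + 1) c2 - z0 + X.h k z1) := by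
      have h3 : X.d (k + 1) (u + X.h (k + 1) v - X.d (k + 1 + 1) b0)
          = C.t • X.d (k + 1) c1 + C.N • X.d (k + 1) c2 := by
        rw [hc, map_add, map_smul, map_smul]
      rw [map_sub, map_add, X.dd, sub_zero, hu, hdh] at h3
      have h5 : C.t • v = C.t • X.d (k + 1) c1 + C.N • X.d (k + 1) c2 - C.N • z0
          + C.N • X.h k z1 := by
        rw [← h3]
        abel
      rw [smul_sub, h5, smul_add, smul_sub]
      abel
    obtain ⟨h3, -⟩ := hPrTN Λ n C (X.P (k + 1)) hn _ _ h2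
    obtain ⟨b, hb⟩ := (hPrKt Λ n C (X.P (k + 1)) _).1 h3
    refine ⟨X.q (k + 1 + 1) c1, ?_⟩
    have h4 : v = X.d (k + 1) c1 + C.N • b := by
      rw [← hb]
      abel
    rw [h4, map_add, hqN, add_zero]
    rfl

private theorem SU2_eta (hCqZ : S_CqZ) (Λ : Type) [CommRing Λ] (n : ℕ) (C : CycData Λ n)
    (X : Cx Λ C.t) (i : ℕ) (x : X.F (i + 1)) :
    X.dF (i + 1) (X.eta (i + 1) x) = - X.eta i (X.dF i x) := by
  obtain ⟨a, rfl⟩ := X.q_surj (i + 1) x
  rw [X.eta_q, X.dF_q, X.dF_q, X.eta_q, ← map_neg]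
  have h1 := eq_sub_of_add_eq (X.dh i a)
  have h2 : X.q (i + 1) (C.t • a) = 0 :=
    (hCqZ Λ n C X _ _).2 ⟨a, 0, by rw [smul_zero, add_zero]⟩
  rw [h1, map_sub, h2, zero_sub, map_neg]

private theorem SU2_count (hCF3 : S_CF3) (hCF4 : S_CF4) (hCBo : S_CBo) (hCqF : S_CqF)
    (hCqZ : S_CqZ) (hCOm : S_COm)
    (Λ : Type) [CommRing Λ] (n : ℕ) (C : CycData Λ n) (X : Cx Λ C.t) (m : ℕ)
    (hn0 : 0 < n) (hn : n = 2 * m) (u : ℤ) (hu : (m : ℤ) ∣ u) (hu2 : (2 : ℤ) ∣ u - 1)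
    (S : SplitU X u) (hK : ∀ i (x : X.F (i + 1)), ∃ (a : X.P (i + 1)) (z : X.P i),
      X.d i a = C.N • z ∧ X.q (i + 1) a = S.e (i + 1) x)
    (hB : ∀ i (x : X.F (i + 2)), S.e (i + 1) (X.dF (i + 1) x) = 0)
    (h4 : ∀ i (x : X.P (i + 1)) (z : X.P i), X.d i x = C.N • z →
        ∃ w, u • X.q (i + 1) x = S.e (i + 1) (X.q (i + 1) x) + X.dF (i + 1) w) (i : ℕ) :
    Nat.card {x : X.F (i + 1) // (2 : ℤ) • x = 0 ∧ X.dF i x = 0} =
      Nat.card {x : X.F (i + 1) // ∃ y, S.e (i + 1) y = x} *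
      Nat.card {x : X.F i // ∃ y, S.e i y = x} *
      Nat.card {x : X.F (i + 1) // ∃ y, (2 : ℤ) • y = 0 ∧ X.dF (i + 1) y = x} := by
  obtain ⟨v, hv⟩ := hu2
  have h2u : ∀ i (y : X.F i), (2 : ℤ) • (u • y) = 0 := by
    intro i y
    obtain ⟨j, rfl⟩ := hu
    have h1 : (2 : ℤ) * (m * j) = j * (n : ℤ) := by
      rw [hn]
      push_cast
      ring
    rw [← mul_smul, h1, mul_smul, (hCqF Λ n C X hn0 i).2.1, smul_zero]
  have hTu : ∀ i (x : X.F i), (2 : ℤ) • x = 0 → u • x = x := by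
    intro i x hx
    have h1 : u = 1 + v * 2 := by linarith
    rw [h1, add_smul, one_smul, mul_smul, hx, smul_zero, add_zero]
  have he2 : ∀ i (x : X.F i), (2 : ℤ) • S.e i x = 0 := by
    intro i x
    rw [← S.ue i x]
    exact h2u _ _
  have hs := X.zero
  have hs0 : Subsingleton (X.F 0) := inferInstance
  have hde : ∀ i (x : X.F (i + 1)), X.dF i (S.e (i + 1) x) = 0 := by
    intro i x
    obtain ⟨a, z, h1, h2⟩ := hK i x
    rw [← h2, X.dF_q, h1]
    exact (hCqZ Λ n C X i _).2 ⟨0, z, by rw [smul_zero, zero_add]⟩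
  have hdη : ∀ i (x : X.F i), X.dF i (X.eta i (S.e i x)) = 0 := by
    intro i x
    cases i with
    | zero =>
      have : S.e 0 x = 0 := Subsingleton.elim _ _
      rw [this, map_zero, map_zero]
    | succ j => rw [SU2_eta hCqZ Λ n C X j, hde, map_zero, neg_zero]
  have hdd : ∀ i (x : X.F (i + 2)), X.dF i (X.dF (i + 1) x) = 0 := by
    intro i x
    obtain ⟨a, rfl⟩ := X.q_surj (i + 2) x
    rw [X.dF_q, X.dF_q, X.dd, map_zero]
  have hind : ∀ (k : X.F (i + 1)) (k2 : X.F i) (y : X.F (i + 2)), S.e (i + 1) k = k →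
      S.e i k2 = k2 → k + X.eta i k2 + X.dF (i + 1) y = 0 → k = 0 ∧ k2 = 0 := by
    intro k k2 y h1 h2 h3
    obtain ⟨a, z, h5, h6⟩ := hK i k
    rw [h1] at h6
    obtain ⟨a2, h7, h8⟩ : ∃ a2 : X.P i, X.cyc i a2 ∧ X.q i a2 = k2 := by
      cases i with
      | zero => exact ⟨0, trivial, Subsingleton.elim _ _⟩
      | succ j =>
        obtain ⟨a2, z2, h7, h8⟩ := hK j k2
        exact ⟨a2, ⟨z2, h7⟩, by rw [h8, h2]⟩
    have h9 : X.q (i + 1) a + X.eta i (X.q i a2) = X.dF (i + 1) (-y) := by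
      rw [h6, h8, map_neg]
      exact eq_neg_of_add_eq_zero_left h3
    obtain ⟨w, hw⟩ := hCF4 Λ n C X hn0 i a a2 z h5 h7 (-y) h9
    obtain ⟨w2, hw2⟩ := SU2_CF4 hCqZ Λ n C X hn0 i a a2 z h5 h7 (-y) h9
    constructor
    · rw [← h1, ← h6, hw, hB]
    · cases i with
      | zero => exact Subsingleton.elim _ _
      | succ j => rw [← h2, ← h8, hw2, hB]
  have hηe : ∀ (y : X.P i) (hy : X.cyc i y), ∃ w, u • X.eta i (X.q i y) =
      X.eta i (S.e i (X.q i y)) + X.dF (i + 1) w := by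
    intro y hy
    cases i with
    | zero =>
      refine ⟨0, ?_⟩
      have h1 : X.q 0 y = 0 := Subsingleton.elim _ _
      rw [h1, map_zero, map_zero, map_zero, map_zero, smul_zero, add_zero]
    | succ j =>
      obtain ⟨z, hz⟩ := hy
      obtain ⟨w, hw⟩ := h4 j y z hz
      refine ⟨- X.eta (j + 2) w, ?_⟩
      rw [← map_zsmul, hw, map_add, map_neg, SU2_eta hCqZ Λ n C X (j + 1), neg_neg]
  let f : ({x : X.F (i + 1) // ∃ y, S.e (i + 1) y = x} × {x : X.F i // ∃ y, S.e i y = x}) ×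
      {x : X.F (i + 1) // ∃ y, (2 : ℤ) • y = 0 ∧ X.dF (i + 1) y = x} →
      {x : X.F (i + 1) // (2 : ℤ) • x = 0 ∧ X.dF i x = 0} := fun w =>
    ⟨w.1.1.1 + X.eta i w.1.2.1 + w.2.1, by
      obtain ⟨⟨⟨_, ⟨k, rfl⟩⟩, ⟨_, ⟨k2, rfl⟩⟩⟩, ⟨_, ⟨y, hy, rfl⟩⟩⟩ := w
      constructor
      · change (2 : ℤ) • (S.e (i + 1) k + X.eta i (S.e i k2) + X.dF (i + 1) y) = 0
        rw [smul_add, smul_add, he2, ← map_zsmul, he2, ← map_zsmul, hy, map_zero, map_zero,
          add_zero, add_zero]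
      · change X.dF i (S.e (i + 1) k + X.eta i (S.e i k2) + X.dF (i + 1) y) = 0
        rw [map_add, map_add, hde, hdη, hdd, add_zero, add_zero]⟩
  rw [← Nat.card_prod, ← Nat.card_prod]
  refine (Nat.card_congr (Equiv.ofBijective f ⟨?_, ?_⟩)).symm
  · rintro ⟨⟨⟨_, ⟨k, rfl⟩⟩, ⟨_, ⟨k2, rfl⟩⟩⟩, ⟨_, ⟨y, hy, rfl⟩⟩⟩
      ⟨⟨⟨_, ⟨l, rfl⟩⟩, ⟨_, ⟨l2, rfl⟩⟩⟩, ⟨_, ⟨z, hz, rfl⟩⟩⟩ h
    have h1 : S.e (i + 1) k + X.eta i (S.e i k2) + X.dF (i + 1) y =
        S.e (i + 1) l + X.eta i (S.e i l2) + X.dF (i + 1) z := congrArg Subtype.val h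
    have h2 : S.e (i + 1) (k - l) + X.eta i (S.e i (k2 - l2)) + X.dF (i + 1) (y - z) = 0 := by
      rw [map_sub, map_sub, map_sub, map_sub]
      rw [← sub_eq_zero] at h1
      rw [← h1]
      abel
    obtain ⟨h3, h5⟩ := hind _ _ _ (S.idem _ _) (S.idem _ _) h2
    rw [map_sub, sub_eq_zero] at h3 h5
    rw [h3, h5] at h1
    have h6 := add_left_cancel h1
    refine Prod.ext (Prod.ext (Subtype.ext h3) (Subtype.ext h5)) (Subtype.ext h6)
  · rintro ⟨x, hx2, hx⟩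
    obtain ⟨O⟩ := hCOm Λ n C X hn0
    obtain ⟨a, y, z, ha, hqa, -, -, -⟩ := hCBo Λ n C X hn0 O i x hx
    obtain ⟨hy, z', hz'⟩ := hCF3 Λ n C X hn0 i a y z ha
    obtain ⟨w1, hw1⟩ := h4 i _ z' hz'
    obtain ⟨w3, hw3⟩ := hηe y hy
    have h1 : x = S.e (i + 1) (X.q (i + 1) (a - X.h i y)) + X.eta i (S.e i (X.q i y)) +
        X.dF (i + 1) (w1 + w3) := by
      calc x = u • x := (hTu _ x hx2).symm
        _ = u • X.q (i + 1) (a - X.h i y) + u • X.eta i (X.q i y) := by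
          rw [← smul_add, map_sub, hqa, X.eta_q, sub_add_cancel]
        _ = _ := by
          rw [hw1, hw3, map_add]
          abel
    have h5 : u • X.dF (i + 1) (w1 + w3) = X.dF (i + 1) (w1 + w3) := by
      apply hTu
      have h6 := congrArg (fun t : X.F (i + 1) => (2 : ℤ) • t) h1
      simp only [smul_add (2 : ℤ), hx2, he2, ← map_zsmul (X.eta i)] at h6
      rw [map_zero, zero_add, zero_add] at h6
      exact h6.symm
    refine ⟨⟨⟨⟨_, ⟨X.q (i + 1) (a - X.h i y), rfl⟩⟩, ⟨_, ⟨X.q i y, rfl⟩⟩⟩,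
      ⟨_, ⟨u • (w1 + w3), h2u _ _, rfl⟩⟩⟩, ?_⟩
    apply Subtype.ext
    change S.e (i + 1) (X.q (i + 1) (a - X.h i y)) + X.eta i (S.e i (X.q i y)) +
      X.dF (i + 1) (u • (w1 + w3)) = x
    rw [map_zsmul, h5, ← h1]

theorem sSU2 (hCF1 : S_CF1) (hCF3 : S_CF3) (hCF4 : S_CF4) (hCBo : S_CBo) (hCqF : S_CqF)
    (hCqZ : S_CqZ) (hCOm : S_COm) : S_SU2 := by
  intro Λ _ n C X m hm hn u hu hu2
  have hn0 : 0 < n := by
    have := hm.pos
    omega
  obtain ⟨S, hK, hB, h4⟩ := SU2_split hCF1 hCqZ hCqF Λ n C X m hn0 hn u hu hu2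
  refine ⟨S, ?_⟩
  intro r b hr hb
  have h2u : ∀ i (y : X.F i), (2 : ℤ) • (u • y) = 0 := by
    intro i y
    obtain ⟨j, rfl⟩ := hu
    have h1 : (2 : ℤ) * (m * j) = j * (n : ℤ) := by
      rw [hn]
      push_cast
      ring
    rw [← mul_smul, h1, mul_smul, (hCqF Λ n C X hn0 i).2.1, smul_zero]
  have he2 : ∀ i (x : X.F i), (2 : ℤ) • S.e i x = 0 := by
    intro i x
    rw [← S.ue i x]
    exact h2u _ _
  have hrk : ∀ i, Nat.card {x : X.F i // ∃ y, S.e i y = x} = 2 ^ r i := by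
    intro i
    rw [← hr i, SU2_rk _ (he2 i)]
  have hφ := fun i => SU2_phi hCqZ hCqF Λ n C X m hn0 hn u hu hu2 i
  choose φ hφi hφm hφr using hφ
  have hφd : ∀ i (v : X.V 2 (i + 1)), φ i (X.dV 2 i v) = X.dF i (φ (i + 1) v) := by
    intro i v
    obtain ⟨x, rfl⟩ := Submodule.Quotient.mk_surjective _ v
    rw [hφm, map_zsmul, X.dF_q]
    exact hφm i (X.d i x)
  have hker : ∀ i, Nat.card (LinearMap.ker (X.dV 2 i)) =
      Nat.card {x : X.F (i + 1) // (2 : ℤ) • x = 0 ∧ X.dF i x = 0} := by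
    intro i
    refine Nat.card_congr (Equiv.ofBijective (fun v => ⟨φ (i + 1) v.1, (hφr _ _).1 ⟨_, rfl⟩, by
      rw [← hφd, LinearMap.mem_ker.1 v.2, map_zero]⟩) ⟨?_, ?_⟩)
    · intro v w h
      exact Subtype.ext (hφi _ (congrArg Subtype.val h))
    · rintro ⟨x, hx2, hx⟩
      obtain ⟨v, rfl⟩ := (hφr _ _).2 hx2
      refine ⟨⟨v, ?_⟩, rfl⟩
      rw [LinearMap.mem_ker]
      apply hφi i
      rw [hφd, hx, map_zero]
  have hran : ∀ i, Nat.card (LinearMap.range (X.dV 2 (i + 1))) =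
      Nat.card {x : X.F (i + 1) // ∃ y, (2 : ℤ) • y = 0 ∧ X.dF (i + 1) y = x} := by
    intro i
    refine Nat.card_congr (Equiv.ofBijective (fun v => ⟨φ (i + 1) v.1, by
      obtain ⟨w, hw⟩ := v.2
      exact ⟨φ (i + 2) w, (hφr _ _).1 ⟨_, rfl⟩, by rw [← hφd, hw]⟩⟩) ⟨?_, ?_⟩)
    · intro v w h
      exact Subtype.ext (hφi _ (congrArg Subtype.val h))
    · rintro ⟨_, y, hy, rfl⟩
      obtain ⟨v, rfl⟩ := (hφr _ _).2 hy
      refine ⟨⟨X.dV 2 (i + 1) v, ⟨v, rfl⟩⟩, ?_⟩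
      exact Subtype.ext (hφd (i + 1) v)
  have hfin := fun i => (hCqF Λ n C X hn0 i).1
  have hbr : ∀ i, b (i + 1) = r (i + 1) + r i := by
    intro i
    have h1 := hb.2 i
    rw [hker, hran, SU2_count hCF3 hCF4 hCBo hCqF hCqZ hCOm Λ n C X m hn0 hn u hu hu2 S hK hB h4 i,
      hrk, hrk] at h1
    have h2 : 0 < Nat.card {x : X.F (i + 1) // ∃ y, (2 : ℤ) • y = 0 ∧ X.dF (i + 1) y = x} := by
      have : Nonempty {x : X.F (i + 1) // ∃ y, (2 : ℤ) • y = 0 ∧ X.dF (i + 1) y = x} :=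
        ⟨⟨0, 0, smul_zero _, map_zero _⟩⟩
      exact Nat.card_pos
    have h3 := Nat.eq_of_mul_eq_mul_right h2 h1
    rw [← pow_add] at h3
    exact (Nat.pow_right_injective (le_refl 2) h3).symm
  have hs := X.zero
  have hr0 : r 0 = 0 := by
    have h1 := hrk 0
    have h2 : Nat.card {x : X.F 0 // ∃ y, S.e 0 y = x} ≤ 1 :=
      Finite.card_le_one_iff_subsingleton.2 inferInstance
    rw [h1] at h2
    by_contra h
    have h3 : 1 < 2 ^ r 0 := Nat.one_lt_two_pow h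
    omega
  have hD : b (X.D + 1) = 0 := by
    have h1 := hb.2 X.D
    have h0 := X.bdd (X.D + 1) (Nat.lt_succ_self _)
    have h2 : Nat.card (LinearMap.ker (X.dV 2 X.D)) ≤ 1 :=
      Finite.card_le_one_iff_subsingleton.2 inferInstance
    have h5 : 0 < Nat.card (LinearMap.range (X.dV 2 (X.D + 1))) := by
      have : Finite (LinearMap.range (X.dV 2 (X.D + 1))) := inferInstance
      exact Nat.card_pos
    by_contra h
    have h3 : 1 < 2 ^ b (X.D + 1) := Nat.one_lt_two_pow h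
    have h4 : 1 < 2 ^ b (X.D + 1) * Nat.card (LinearMap.range (X.dV 2 (X.D + 1))) :=
      lt_of_lt_of_le h3 (Nat.le_mul_of_pos_right _ h5)
    omega
  exact SU2_sum r b X.D hr0 hb.1 hbr hD

end HSp
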