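import Pool.Agent.Lib.MP_181146_gt.HS.Spec

/-!
# Project HS: transfer of the homotopy to a homotopy equivalent complex
-/

set_option autoImplicit false

namespace HSp

open CategoryTheory

/-- multiplication of a linear map by a central element -/
private def mulC {Λ : Type} [Ring Λ] (t : Λ) (ht : ∀ a, t * a = a * t) {M N : Type}
    [AddCommGroup M] [Module Λ M] [AddCommGroup N] [Module Λ N] (f : M →ₗ[Λ] N) : M →ₗ[Λ] N where
  toFun x := t • f x
  map_add' x y := by rw [map_add, smul_add]
  map_smul' a x := by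
    change t • f (a • x) = a • t • f x
    rw [map_smul, smul_smul, smul_smul, ht]

private lemma mulC_apply {Λ : Type} [Ring Λ] (t : Λ) (ht : ∀ a, t * a = a * t) {M N : Type}
    [AddCommGroup M] [Module Λ M] [AddCommGroup N] [Module Λ N] (f : M →ₗ[Λ] N) (x : M) :
    mulC t ht f x = t • f x := rfl

theorem sTH : S_TH := by
  intro Λ _ S P E t ht hh h0 h1
  -- the homotopy `f' f ~ 1`
  have hu := E.homotopyHomInvId
  have c0 : ∀ x : P.X 0, (E.inv.f 0).hom ((E.hom.f 0).hom x) =
      (P.d 1 0).hom ((hu.hom 0 1).hom x) + x := by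
    intro x
    have h := hu.comm 0
    rw [Homotopy.dNext_zero_chainComplex, Homotopy.prevD_chainComplex] at h
    have h' := congrArg (fun g => g.hom x) h
    simpa using h'
  have c1 : ∀ (i : ℕ) (x : P.X (i + 1)), (E.inv.f (i + 1)).hom ((E.hom.f (i + 1)).hom x) =
      (hu.hom i (i + 1)).hom ((P.d (i + 1) i).hom x) +
        (P.d (i + 2) (i + 1)).hom ((hu.hom (i + 1) (i + 2)).hom x) + x := by
    intro i x
    have h := hu.comm (i + 1)
    rw [Homotopy.dNext_succ_chainComplex, Homotopy.prevD_chainComplex] at h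
    have h' := congrArg (fun g => g.hom x) h
    simpa using h'
  have k1 : ∀ (i : ℕ) (y : S.X (i + 1)), (P.d (i + 1) i).hom ((E.inv.f (i + 1)).hom y) =
      (E.inv.f i).hom ((S.d (i + 1) i).hom y) := by
    intro i y
    have := E.inv.comm (i + 1) i
    exact congrArg (fun g => g.hom y) this
  have k2 : ∀ (i : ℕ) (y : P.X (i + 1)), (S.d (i + 1) i).hom ((E.hom.f (i + 1)).hom y) =
      (E.hom.f i).hom ((P.d (i + 1) i).hom y) := by
    intro i y
    have := E.hom.comm (i + 1) i
    exact congrArg (fun g => g.hom y) this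
  refine ⟨fun i => (E.inv.f (i + 1)).hom ∘ₗ hh i ∘ₗ (E.hom.f i).hom -
    mulC t ht (hu.hom i (i + 1)).hom, ?_, ?_⟩
  · intro x
    rw [LinearMap.sub_apply, LinearMap.comp_apply, LinearMap.comp_apply, mulC_apply, map_sub,
      map_smul, k1, h0, map_smul, c0, smul_add]
    abel
  · intro i x
    rw [LinearMap.sub_apply, LinearMap.comp_apply, LinearMap.comp_apply, mulC_apply, map_sub,
      map_smul, k1, LinearMap.sub_apply, LinearMap.comp_apply, LinearMap.comp_apply, mulC_apply,
      ← k2]
    have e1 := congrArg (E.inv.f (i + 1)).hom (h1 i ((E.hom.f (i + 1)).hom x))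
    rw [map_add, map_smul, c1] at e1
    have e2 : ∀ a b c d e : P.X (i + 1), a + b = t • (c + d + e) →
        a - t • d + (b - t • c) = t • e := by
      intro a b c d e hab
      have : a - t • d + (b - t • c) = (a + b) - t • d - t • c := by abel
      rw [this, hab, smul_add, smul_add]
      abel
    exact e2 _ _ _ _ _ e1

end HSp
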