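import Pool.Agent.Lib.MP_181146_gt.HS.Spec

set_option autoImplicit false

/-!
# Project HS, TK: the homotopy from the identity to the identity attached to a loop
-/

namespace HSp

open ContinuousMap

private lemma evalAt_trans {Y X : Type} [TopologicalSpace Y] [TopologicalSpace X]
    {f g h : C(Y, X)} (F : f.Homotopy g) (G : g.Homotopy h) (y : Y) :
    (F.trans G).evalAt y = (F.evalAt y).trans (G.evalAt y) := by
  ext t
  change (F.trans G) (t, y) = _
  rw [ContinuousMap.Homotopy.trans_apply, Path.trans_apply]
  rfl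

private lemma evalAt_symm {Y X : Type} [TopologicalSpace Y] [TopologicalSpace X]
    {f g : C(Y, X)} (F : f.Homotopy g) (y : Y) :
    F.symm.evalAt y = (F.evalAt y).symm := rfl

theorem sTK : S_TK := by
  intro X _ e μ hμ c
  obtain ⟨F, hF1, hF2, hF3⟩ := hμ
  -- the two axes of the wedge
  let jy : C(X, Wedge X e) := ⟨fun x => ⟨(e, x), Or.inl rfl⟩, by fun_prop⟩
  let jx : C(X, Wedge X e) := ⟨fun x => ⟨(x, e), Or.inr rfl⟩, by fun_prop⟩
  let g0 : C(X, X) := ⟨fun x => μ (e, x), by fun_prop⟩
  let gx : C(X, X) := ⟨fun x => μ (x, e), by fun_prop⟩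
  let H1 : (ContinuousMap.id X).Homotopy g0 :=
    { toFun := fun z => F (z.1, jy z.2)
      continuous_toFun := by fun_prop
      map_zero_left := fun x => hF2 x
      map_one_left := fun x => hF3 _ }
  let Hx : (ContinuousMap.id X).Homotopy gx :=
    { toFun := fun z => F (z.1, jx z.2)
      continuous_toFun := by fun_prop
      map_zero_left := fun x => hF1 x
      map_one_left := fun x => hF3 _ }
  let H2 : g0.Homotopy g0 :=
    { toFun := fun z => μ (c z.1, z.2)
      continuous_toFun := by fun_prop
      map_zero_left := fun x => by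
        change μ (c 0, x) = μ (e, x)
        rw [c.source]
      map_one_left := fun x => by
        change μ (c 1, x) = μ (e, x)
        rw [c.target] }
  let K : (ContinuousMap.id X).Homotopy (ContinuousMap.id X) := (H1.trans H2).trans H1.symm
  refine ⟨K.toContinuousMap, fun x => K.apply_zero x, fun x => K.apply_one x, K.evalAt e,
    fun s => rfl, ?_⟩
  let δ : Path e (μ (e, e)) := H1.evalAt e
  let m : Path (μ (e, e)) (μ (e, e)) := c.map (map_continuous gx)
  have h1 : K.evalAt e = (δ.trans m).trans δ.symm := by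
    change ((H1.trans H2).trans H1.symm).evalAt e = _
    rw [evalAt_trans, evalAt_trans, evalAt_symm]
    rfl
  have h2 : (δ.trans m).Homotopic (c.trans δ) :=
    (Path.Homotopic.map_trans_evalAt Hx c).symm
  have h3 : ((δ.trans m).trans δ.symm).Homotopic ((c.trans δ).trans δ.symm) :=
    h2.hcomp (Path.Homotopic.refl _)
  have h4 : ((c.trans δ).trans δ.symm).Homotopic (c.trans (δ.trans δ.symm)) :=
    ⟨Path.Homotopy.transAssoc c δ δ.symm⟩
  have h5 : (δ.trans δ.symm).Homotopic (Path.refl e) :=
    ⟨(Path.Homotopy.reflTransSymm δ).symm⟩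
  have h6 : (c.trans (δ.trans δ.symm)).Homotopic (c.trans (Path.refl e)) :=
    (Path.Homotopic.refl c).hcomp h5
  have h7 : (c.trans (Path.refl e)).Homotopic c := ⟨Path.Homotopy.transRefl c⟩
  rw [h1]
  exact h3.trans (h4.trans (h6.trans h7))

end HSp
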