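import Pool.Agent.Lib.MP_181146_gt.HS.Spec

/-!
# Project HS, TN: property (N) for path-connected coverings of H-spaces
-/

set_option autoImplicit false

namespace HSp

theorem sTN (hTK : S_TK) : S_TN := by
  intro X E _ _ _ _ p hp e μ hμ g
  obtain ⟨x0⟩ : Nonempty E := inferInstance
  let σ : Path (p x0) e := PathConnectedSpace.somePath _ _
  have hσ0 : (σ : C(unitInterval, X)) 0 = p x0 := σ.source
  let e' : E := hp.liftPath (σ : C(unitInterval, X)) x0 hσ0 1
  have he' : p e' = e := by
    have h := congr_fun (hp.liftPath_lifts (σ : C(unitInterval, X)) x0 hσ0) 1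
    exact h.trans σ.target
  have hge' : p (g.1 e') = e := (g.2 e').trans he'
  let τ : Path e' (g.1 e') := PathConnectedSpace.somePath _ _
  let c : Path e e := (τ.map hp.continuous).cast he'.symm hge'.symm
  obtain ⟨K, K0, K1, γ, hγ, hγc⟩ := hTK X e μ hμ c
  let KP : C(unitInterval × E, X) :=
    K.comp ((ContinuousMap.id unitInterval).prodMap ⟨p, hp.continuous⟩)
  have hKP : ∀ s x, KP (s, x) = K (s, p x) := fun _ _ => rfl
  have hH0 : ∀ a : E, KP (0, a) = p ((ContinuousMap.id E) a) := fun a => K0 (p a)
  let H : C(unitInterval × E, E) := hp.liftHomotopy KP (ContinuousMap.id E) hH0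
  have hHl : ∀ s x, p (H (s, x)) = K (s, p x) := fun s x =>
    congr_fun (hp.liftHomotopy_lifts KP (ContinuousMap.id E) hH0) (s, x)
  have hHz : ∀ x, H (0, x) = x := fun x => hp.liftHomotopy_zero KP (ContinuousMap.id E) hH0 x
  refine ⟨H, hHz, ?_, ?_⟩
  · have hγ0 : (γ : C(unitInterval, X)) 0 = p e' := γ.source.trans he'.symm
    have hc0 : (c : C(unitInterval, X)) 0 = p e' := c.source.trans he'.symm
    have h1 : H (1, e') = hp.liftPath (γ : C(unitInterval, X)) e' hγ0 1 := by
      have h : (fun s => H (s, e')) = hp.liftPath (γ : C(unitInterval, X)) e' hγ0 := by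
        refine (hp.eq_liftPath_iff hγ0).mpr ⟨by fun_prop, ?_, hHz e'⟩
        funext s
        change p (H (s, e')) = γ s
        rw [hHl, he', hγ]
      exact congr_fun h 1
    have h2 : hp.liftPath (γ : C(unitInterval, X)) e' hγ0 1 =
        hp.liftPath (c : C(unitInterval, X)) e' hc0 1 :=
      hp.liftPath_apply_one_eq_of_homotopicRel hγc e' hγ0 hc0
    have h3 : g.1 e' = hp.liftPath (c : C(unitInterval, X)) e' hc0 1 := by
      have h : (fun s => τ s) = hp.liftPath (c : C(unitInterval, X)) e' hc0 := by
        refine (hp.eq_liftPath_iff hc0).mpr ⟨by fun_prop, ?_, τ.source⟩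
        funext s
        rfl
      exact τ.target.symm.trans (congr_fun h 1)
    have h4 : H (1, e') = g.1 e' := (h1.trans h2).trans h3.symm
    have h5 : (fun x => H (1, x)) = fun x => g.1 x := by
      refine hp.eq_of_comp_eq (by fun_prop) g.1.continuous ?_ e' h4
      funext x
      change p (H (1, x)) = p (g.1 x)
      rw [hHl, K1, g.2 x]
    exact fun x => congr_fun h5 x
  · intro a s x
    have h : (fun s => H (s, a.1 x)) = fun s => a.1 (H (s, x)) := by
      refine hp.eq_of_comp_eq (by fun_prop) (a.1.continuous.comp (by fun_prop)) ?_ 0 ?_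
      · funext s
        change p (H (s, a.1 x)) = p (a.1 (H (s, x)))
        rw [a.2 (H (s, x)), hHl, hHl, a.2 x]
      · rw [hHz, hHz]
    exact congr_fun h s

end HSp
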