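import Pool.Agent.Lib.MP_181146_gt.HS.Spec

set_option autoImplicit false

namespace HSp

namespace TSAux

variable {E : Type} [TopologicalSpace E]

theorem rho_of (Γ : Subgroup (E ≃ₜ E)) (i : ℕ) (g : Γ) :
    rho Γ i (MonoidAlgebra.of ℤ Γ g) = rhoM Γ i g := by
  change MonoidAlgebra.lift ℤ (Module.End ℤ ((SC E).X i)) Γ (rhoM Γ i) _ = _
  exact MonoidAlgebra.lift_of _ _

/-- maps which commute with the group elements are linear over the group ring -/
theorem comm_rho (Γ : Subgroup (E ≃ₜ E)) (i j : ℕ) (f : (SC E).X i →ₗ[ℤ] (SC E).X j)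
    (hf : ∀ (g : Γ) (x : (SC E).X i), f (((SCmap (g.1 : C(E, E))).f i).hom x) =
      ((SCmap (g.1 : C(E, E))).f j).hom (f x)) (a : MonoidAlgebra ℤ Γ) (x : (SC E).X i) :
    f ((rho Γ i a : (SC E).X i →ₗ[ℤ] (SC E).X i) x) =
      (rho Γ j a : (SC E).X j →ₗ[ℤ] (SC E).X j) (f x) := by
  induction a using MonoidAlgebra.induction_on with
  | of g =>
    rw [rho_of, rho_of]
    exact hf g x
  | add a b ha hb =>
    rw [map_add, map_add, LinearMap.add_apply, LinearMap.add_apply, map_add, ha, hb]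
  | smul r a ha =>
    have h2 : ∀ i (y : (SC E).X i), (rho Γ i (r • a) : (SC E).X i →ₗ[ℤ] (SC E).X i) y =
        r • (rho Γ i a : (SC E).X i →ₗ[ℤ] (SC E).X i) y := fun i y => by
      rw [map_zsmul (rho Γ i) r a]
      rfl
    rw [h2, h2, map_zsmul, ha]

/-- the underlying chain -/
def und (Γ : Subgroup (E ≃ₜ E)) (i : ℕ) (x : SX Γ i) : (SC E).X i := x

theorem smul_of_sub (Γ : Subgroup (E ≃ₜ E)) (g : Γ) (i : ℕ) (x : SX Γ i) :
    (MonoidAlgebra.of ℤ Γ g - 1) • x =
      (((SCmap (g.1 : C(E, E))).f i).hom (und Γ i x) - und Γ i x : (SC E).X i) := by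
  rw [sub_smul, one_smul, SX_smul_def, rho_of]
  rfl

end TSAux

open TSAux

theorem sTS (hTS1 : S_TS1) : S_TS := by
  intro E _ Γ hN g
  obtain ⟨H, h0, h1, h2⟩ := hN g
  obtain ⟨hh, e0, e1, e2⟩ := hTS1 E (g.1 : C(E, E)) H h0 h1
  have key : ∀ (i : ℕ) (a : MonoidAlgebra ℤ Γ) (x : (SC E).X i),
      hh i ((rho Γ i a : (SC E).X i →ₗ[ℤ] (SC E).X i) x) =
      (rho Γ (i + 1) a : (SC E).X (i + 1) →ₗ[ℤ] (SC E).X (i + 1)) (hh i x) := by
    intro i a x
    refine comm_rho Γ i (i + 1) (hh i) ?_ a x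
    intro b y
    exact e2 (b.1 : C(E, E)) (fun s x => h2 b s x) i y
  refine ⟨fun i => { toFun := fun x => hh i x
                     map_add' := fun x y => map_add (hh i) x y
                     map_smul' := fun a x => key i a x }, ?_, ?_⟩
  · intro x
    rw [smul_of_sub]
    exact e0 x
  · intro i x
    rw [smul_of_sub]
    exact e1 i x

end HSp
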