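import Pool.Agent.Lib.MP_181146_gt.HS.Spec

/-!
# Project HS: TS1 (the natural chain homotopy attached to a homotopy from the identity)
-/

set_option autoImplicit false

namespace HSp

open CategoryTheory AlgebraicTopology MonoidalCategory Simplicial Opposite Functor.LaxMonoidal

section

variable {E : Type} [TopologicalSpace E]

/-- the homotopy in `TopCat` -/
private noncomputable def ts1H (g : C(E, E)) (H : C(unitInterval × E, E))
    (h0 : ∀ x, H (0, x) = x) (h1 : ∀ x, H (1, x) = g x) :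
    TopCat.Homotopy (𝟙 (TopCat.of E)) (TopCat.ofHom g) where
  toContinuousMap := H
  map_zero_left := h0
  map_one_left := h1

private lemma ts1_top (g : C(E, E)) (H : C(unitInterval × E, E))
    (h0 : ∀ x, H (0, x) = x) (h1 : ∀ x, H (1, x) = g x) (a : C(E, E))
    (ha : ∀ (s : unitInterval) (x : E), H (s, a x) = a (H (s, x))) :
    (TopCat.ofHom a ▷ TopCat.I) ≫ (ts1H g H h0 h1).h = (ts1H g H h0 h1).h ≫ TopCat.ofHom a := by
  ext p
  exact ha _ _

private lemma ts1_sset (g : C(E, E)) (H : C(unitInterval × E, E))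
    (h0 : ∀ x, H (0, x) = x) (h1 : ∀ x, H (1, x) = g x) (a : C(E, E))
    (ha : ∀ (s : unitInterval) (x : E), H (s, a x) = a (H (s, x))) :
    (TopCat.toSSet.map (TopCat.ofHom a) ▷ Δ[1]) ≫ (ts1H g H h0 h1).toSSet.h =
      (ts1H g H h0 h1).toSSet.h ≫ TopCat.toSSet.map (TopCat.ofHom a) := by
  have e := ts1_top g H h0 h1 a ha
  change (TopCat.toSSet.map (TopCat.ofHom a) ▷ Δ[1]) ≫
    (_ ◁ SSet.stdSimplex.toSSetObjI ≫ μ TopCat.toSSet _ _ ≫ TopCat.toSSet.map (ts1H g H h0 h1).h) =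
    (_ ◁ SSet.stdSimplex.toSSetObjI ≫ μ TopCat.toSSet _ _ ≫
      TopCat.toSSet.map (ts1H g H h0 h1).h) ≫ TopCat.toSSet.map (TopCat.ofHom a)
  rw [← whisker_exchange_assoc, Functor.LaxMonoidal.μ_natural_left_assoc]
  simp only [Category.assoc]
  rw [← Functor.map_comp, ← Functor.map_comp, e]

private lemma ts1_simp (g : C(E, E)) (H : C(unitInterval × E, E))
    (h0 : ∀ x, H (0, x) = x) (h1 : ∀ x, H (1, x) = g x) (a : C(E, E))
    (ha : ∀ (s : unitInterval) (x : E), H (s, a x) = a (H (s, x))) (n : ℕ) (k : Fin (n + 1)) :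
    (TopCat.toSSet.map (TopCat.ofHom a)).app (op ⦋n⦌) ≫
        (ts1H g H h0 h1).toSSet.toSimplicialObjectHomotopy.h k =
      (ts1H g H h0 h1).toSSet.toSimplicialObjectHomotopy.h k ≫
        (TopCat.toSSet.map (TopCat.ofHom a)).app (op ⦋n + 1⦌) := by
  have e := ts1_sset g H h0 h1 a ha
  ext x
  change (SSet.yonedaEquiv.symm ((TopCat.toSSet.map (TopCat.ofHom a)).app (op ⦋n⦌) x) ▷ Δ[1] ≫
      (ts1H g H h0 h1).toSSet.h).app _ (SSet.prodStdSimplex.nonDegenerateEquiv₁ k).1 =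
    ((SSet.yonedaEquiv.symm x ▷ Δ[1] ≫ (ts1H g H h0 h1).toSSet.h) ≫
      TopCat.toSSet.map (TopCat.ofHom a)).app _ (SSet.prodStdSimplex.nonDegenerateEquiv₁ k).1
  rw [← SSet.yonedaEquiv_symm_comp, comp_whiskerRight, Category.assoc, Category.assoc, e]

/-- the chain homotopy of Mathlib -/
private noncomputable def ts1K (g : C(E, E)) (H : C(unitInterval × E, E))
    (h0 : ∀ x, H (0, x) = x) (h1 : ∀ x, H (1, x) = g x) :
    _root_.Homotopy
      (((singularChainComplexFunctor (ModuleCat.{0} ℤ)).obj (ModuleCat.of ℤ ℤ)).map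
        (𝟙 (TopCat.of E)))
      (((singularChainComplexFunctor (ModuleCat.{0} ℤ)).obj (ModuleCat.of ℤ ℤ)).map
        (TopCat.ofHom g)) :=
  (ts1H g H h0 h1).singularChainComplexFunctorObjMap (ModuleCat.of ℤ ℤ)

/-- its components -/
private noncomputable def ts1k (g : C(E, E)) (H : C(unitInterval × E, E))
    (h0 : ∀ x, H (0, x) = x) (h1 : ∀ x, H (1, x) = g x) (i : ℕ) :
    (SC E).X i ⟶ (SC E).X (i + 1) :=
  (ts1K g H h0 h1).hom i (i + 1)

private lemma ts1_nat (g : C(E, E)) (H : C(unitInterval × E, E))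
    (h0 : ∀ x, H (0, x) = x) (h1 : ∀ x, H (1, x) = g x) (a : C(E, E))
    (ha : ∀ (s : unitInterval) (x : E), H (s, a x) = a (H (s, x))) (n : ℕ) :
    (SCmap a).f n ≫ ts1k g H h0 h1 n = ts1k g H h0 h1 n ≫ (SCmap a).f (n + 1) := by
  have e := ts1_simp g H h0 h1 a ha n
  have hK : ts1k g H h0 h1 n = -∑ k : Fin (n + 1), ((-1 : ℤ) ^ (k : ℕ)) •
      (Limits.sigmaConst.obj (ModuleCat.of ℤ ℤ)).map
        ((ts1H g H h0 h1).toSSet.toSimplicialObjectHomotopy.h k) :=
    SimplicialObject.Homotopy.ToChainHomotopy.hom_eq _ n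
  have hS : ∀ m : ℕ, (SCmap a).f m = (Limits.sigmaConst.obj (ModuleCat.of ℤ ℤ)).map
      ((TopCat.toSSet.map (TopCat.ofHom a)).app (op ⦋m⦌)) := fun m => rfl
  have key : ∀ k : Fin (n + 1), (Limits.sigmaConst.obj (ModuleCat.of ℤ ℤ)).map
      ((TopCat.toSSet.map (TopCat.ofHom a)).app (op ⦋n⦌)) ≫
      (Limits.sigmaConst.obj (ModuleCat.of ℤ ℤ)).map
        ((ts1H g H h0 h1).toSSet.toSimplicialObjectHomotopy.h k) =
      (Limits.sigmaConst.obj (ModuleCat.of ℤ ℤ)).map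
        ((ts1H g H h0 h1).toSSet.toSimplicialObjectHomotopy.h k) ≫
      (Limits.sigmaConst.obj (ModuleCat.of ℤ ℤ)).map
      ((TopCat.toSSet.map (TopCat.ofHom a)).app (op ⦋n + 1⦌)) := by
    intro k
    rw [← CategoryTheory.Functor.map_comp, ← CategoryTheory.Functor.map_comp, e k]
  rw [hK, hS, hS]
  refine (Preadditive.comp_neg _ _).trans (Eq.trans ?_ (Preadditive.neg_comp _ _).symm)
  refine congrArg (fun f => -f) ?_
  refine (Preadditive.comp_sum _ _ _).trans (Eq.trans ?_ (Preadditive.sum_comp _ _ _).symm)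
  refine Finset.sum_congr rfl fun k _ => ?_
  refine (Preadditive.comp_zsmul _ _ _).trans (Eq.trans ?_ (Preadditive.zsmul_comp _ _ _).symm)
  exact congrArg (fun f => ((-1 : ℤ) ^ (k : ℕ)) • f) (key k)

private lemma ts1_id (i : ℕ) :
    (((singularChainComplexFunctor (ModuleCat.{0} ℤ)).obj (ModuleCat.of ℤ ℤ)).map
        (𝟙 (TopCat.of E))).f i = 𝟙 ((SC E).X i) := by
  rw [CategoryTheory.Functor.map_id]
  rfl

private lemma ts1_zero (g : C(E, E)) (H : C(unitInterval × E, E))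
    (h0 : ∀ x, H (0, x) = x) (h1 : ∀ x, H (1, x) = g x) :
    𝟙 ((SC E).X 0) = ts1k g H h0 h1 0 ≫ (SC E).d 1 0 + (SCmap g).f 0 := by
  have hc := (ts1K g H h0 h1).comm 0
  rw [Homotopy.dNext_zero_chainComplex, zero_add, Homotopy.prevD_chainComplex] at hc
  exact (ts1_id 0).symm.trans hc

private lemma ts1_succ (g : C(E, E)) (H : C(unitInterval × E, E))
    (h0 : ∀ x, H (0, x) = x) (h1 : ∀ x, H (1, x) = g x) (i : ℕ) :
    𝟙 ((SC E).X (i + 1)) = ((SC E).d (i + 1) i ≫ ts1k g H h0 h1 i +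
      ts1k g H h0 h1 (i + 1) ≫ (SC E).d (i + 2) (i + 1)) + (SCmap g).f (i + 1) := by
  have hc := (ts1K g H h0 h1).comm (i + 1)
  rw [Homotopy.dNext_succ_chainComplex, Homotopy.prevD_chainComplex] at hc
  exact (ts1_id (i + 1)).symm.trans hc

end

theorem sTS1 : S_TS1 := by
  intro E _ g H h0 h1
  refine ⟨fun i => -(ts1k g H h0 h1 i).hom, ?_, ?_, ?_⟩
  · intro x
    have hx := congrArg (fun f => f.hom x) (ts1_zero g H h0 h1)
    change x = ((SC E).d 1 0).hom ((ts1k g H h0 h1 0).hom x) + ((SCmap g).f 0).hom x at hx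
    change ((SC E).d 1 0).hom (-((ts1k g H h0 h1 0).hom x)) = ((SCmap g).f 0).hom x - x
    rw [map_neg]
    exact neg_eq_of_add_eq_zero_right (by rw [← add_sub_assoc, ← hx, sub_self])
  · intro i x
    have hx := congrArg (fun f => f.hom x) (ts1_succ g H h0 h1 i)
    change x = ((ts1k g H h0 h1 i).hom (((SC E).d (i + 1) i).hom x) +
      ((SC E).d (i + 2) (i + 1)).hom ((ts1k g H h0 h1 (i + 1)).hom x)) +
      ((SCmap g).f (i + 1)).hom x at hx
    change ((SC E).d (i + 2) (i + 1)).hom (-((ts1k g H h0 h1 (i + 1)).hom x)) +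
      -((ts1k g H h0 h1 i).hom (((SC E).d (i + 1) i).hom x)) = ((SCmap g).f (i + 1)).hom x - x
    rw [map_neg, ← neg_add]
    refine neg_eq_of_add_eq_zero_right ?_
    rw [← add_sub_assoc, add_comm (((SC E).d (i + 2) (i + 1)).hom _), ← hx, sub_self]
  · intro a ha i x
    have hx := congrArg (fun f => f.hom x) (ts1_nat g H h0 h1 a ha i)
    change (ts1k g H h0 h1 i).hom (((SCmap a).f i).hom x) =
      ((SCmap a).f (i + 1)).hom ((ts1k g H h0 h1 i).hom x) at hx
    change -((ts1k g H h0 h1 i).hom (((SCmap a).f i).hom x)) =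
      ((SCmap a).f (i + 1)).hom (-((ts1k g H h0 h1 i).hom x))
    rw [map_neg, hx]

end HSp
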