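import Pool.Agent.Lib.MP_181146_gt.HS.AlgB
import Pool.Agent.Lib.MP_181146_gt.HS.AlgG
import Pool.Agent.Lib.MP_181146_gt.HS.AlgRB
import Pool.Agent.Lib.MP_181146_gt.HS.ArBin
import Pool.Agent.Lib.MP_181146_gt.HS.ArCyc
import Pool.Agent.Lib.MP_181146_gt.HS.ArKN
import Pool.Agent.Lib.MP_181146_gt.HS.ArKT
import Pool.Agent.Lib.MP_181146_gt.HS.ArUnit
import Pool.Agent.Lib.MP_181146_gt.HS.CBo
import Pool.Agent.Lib.MP_181146_gt.HS.CF1
import Pool.Agent.Lib.MP_181146_gt.HS.CF3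
import Pool.Agent.Lib.MP_181146_gt.HS.CF4
import Pool.Agent.Lib.MP_181146_gt.HS.CIdm
import Pool.Agent.Lib.MP_181146_gt.HS.COd
import Pool.Agent.Lib.MP_181146_gt.HS.COm
import Pool.Agent.Lib.MP_181146_gt.HS.CP1
import Pool.Agent.Lib.MP_181146_gt.HS.CP2
import Pool.Agent.Lib.MP_181146_gt.HS.CPc
import Pool.Agent.Lib.MP_181146_gt.HS.CqF
import Pool.Agent.Lib.MP_181146_gt.HS.CqZ
import Pool.Agent.Lib.MP_181146_gt.HS.DAl
import Pool.Agent.Lib.MP_181146_gt.HS.DCo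
import Pool.Agent.Lib.MP_181146_gt.HS.DK
import Pool.Agent.Lib.MP_181146_gt.HS.DLf
import Pool.Agent.Lib.MP_181146_gt.HS.DLp
import Pool.Agent.Lib.MP_181146_gt.HS.DMain
import Pool.Agent.Lib.MP_181146_gt.HS.DRs
import Pool.Agent.Lib.MP_181146_gt.HS.DW
import Pool.Agent.Lib.MP_181146_gt.HS.EGl
import Pool.Agent.Lib.MP_181146_gt.HS.EMat
import Pool.Agent.Lib.MP_181146_gt.HS.EPa
import Pool.Agent.Lib.MP_181146_gt.HS.EQn
import Pool.Agent.Lib.MP_181146_gt.HS.ESL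
import Pool.Agent.Lib.MP_181146_gt.HS.MainB
import Pool.Agent.Lib.MP_181146_gt.HS.PrKt
import Pool.Agent.Lib.MP_181146_gt.HS.PrRk
import Pool.Agent.Lib.MP_181146_gt.HS.PrSec
import Pool.Agent.Lib.MP_181146_gt.HS.PrTN
import Pool.Agent.Lib.MP_181146_gt.HS.PrTf
import Pool.Agent.Lib.MP_181146_gt.HS.SAll
import Pool.Agent.Lib.MP_181146_gt.HS.SBe
import Pool.Agent.Lib.MP_181146_gt.HS.SCb
import Pool.Agent.Lib.MP_181146_gt.HS.SEq
import Pool.Agent.Lib.MP_181146_gt.HS.SEx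
import Pool.Agent.Lib.MP_181146_gt.HS.SFr
import Pool.Agent.Lib.MP_181146_gt.HS.SKap
import Pool.Agent.Lib.MP_181146_gt.HS.SLin
import Pool.Agent.Lib.MP_181146_gt.HS.SOm2
import Pool.Agent.Lib.MP_181146_gt.HS.SPrj
import Pool.Agent.Lib.MP_181146_gt.HS.SU1
import Pool.Agent.Lib.MP_181146_gt.HS.SU2
import Pool.Agent.Lib.MP_181146_gt.HS.TH
import Pool.Agent.Lib.MP_181146_gt.HS.TK
import Pool.Agent.Lib.MP_181146_gt.HS.TN
import Pool.Agent.Lib.MP_181146_gt.HS.TOne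
import Pool.Agent.Lib.MP_181146_gt.HS.TS
import Pool.Agent.Lib.MP_181146_gt.HS.TS1
import Pool.Agent.Lib.MP_181146_gt.HS.Uniq

/-!
# Project HS: assembly of all modules
-/

set_option autoImplicit false

namespace HSp

theorem pPrTf : S_PrTf := sPrTf

theorem pPrTN : S_PrTN := sPrTN pPrTf

theorem pPrKt : S_PrKt := sPrKt

theorem pPrRk : S_PrRk := sPrRk

theorem pPrSec : S_PrSec := sPrSec pPrRk

theorem pCqZ : S_CqZ := sCqZ

theorem pCqF : S_CqF := sCqF pCqZ pPrRk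

theorem pCOm : S_COm := sCOm pPrTN pPrKt pPrSec pCqZ pCqF

theorem pCIdm : S_CIdm := sCIdm

theorem pCOd : S_COd := sCOd pPrKt pPrTN pCqZ

theorem pCPc : S_CPc := sCPc pCOd pCqZ

theorem pCBo : S_CBo := sCBo pPrTN pPrKt pCqZ

theorem pCF3 : S_CF3 := sCF3 pPrTN pPrKt

theorem pCP1 : S_CP1 := sCP1 pCBo pCF3 pCqZ

theorem pCP2 : S_CP2 := sCP2 pCBo pPrTN pPrKt pCqZ

theorem pCF1 : S_CF1 := sCF1 pPrTN pPrKt pCqZ

theorem pCF4 : S_CF4 := sCF4 pPrTN pPrKt pCqZ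

theorem pSU1 : S_SU1 := sSU1 pCPc pCP1 pCP2 pCF1 pCF3 pCF4 pCqF pCBo pCqZ

theorem pSU2 : S_SU2 := sSU2 pCF1 pCF3 pCF4 pCBo pCqF pCqZ pCOm

theorem pSCb : S_SCb := sSCb pCF1 pCqF

theorem pSLin : S_SLin := sSLin

theorem pSKap : S_SKap := sSKap pPrTN pPrKt pCqZ pCqF

theorem pSOm2 : S_SOm2 := sSOm2 pPrTN pPrKt pPrRk pCqZ pCqF

theorem pSBe : S_SBe := sSBe pSLin pSKap pSOm2 pCOd pCqZ pCqF

theorem pSAll : S_SAll := sSAll pCOm pCIdm pCqF pSU1 pSU2 pSCb pSBe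

theorem pSEx : S_SEx := sSEx pCqF pCqZ

theorem pSPrj : S_SPrj := sSPrj

theorem pSFr : S_SFr := sSFr pPrRk pCqZ pCqF

theorem pSEq : S_SEq := sSEq pSPrj pSFr pSEx

theorem pDK : S_DK := sDK

theorem pDLp : S_DLp := sDLp

theorem pDW : S_DW := sDW pDK pDLp

theorem pDRs : S_DRs := sDRs pPrTN

theorem pDCo : S_DCo := sDCo

theorem pDAl : S_DAl := sDAl

theorem pDLf : S_DLf := sDLf

theorem pDMain : S_DMain := sDMain pDW pDRs pDCo pDAl pDLf pDLp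

theorem pESL : S_ESL := sESL

theorem pEGl : S_EGl := sEGl pPrTN pPrKt

theorem pEMat : S_EMat := sEMat

theorem pEPa : S_EPa := sEPa pESL pEGl pEMat pPrRk

theorem pEQn : S_EQn := sEQn

theorem pAlgG : S_AlgG := sAlgG pDMain pEPa pEQn

theorem pAlgB : S_AlgB := sAlgB pSAll pSEx pSEq pAlgG

theorem pArKT : S_ArKT := sArKT

theorem pArKN : S_ArKN := sArKN

theorem pArBin : S_ArBin := sArBin

theorem pArUnit : S_ArUnit := sArUnit

theorem pArCyc : S_ArCyc := sArCyc pArKT pArKN pArBin pArUnit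

theorem pAlgRB : S_AlgRB := sAlgRB pAlgB pArCyc pSAll pSEx

theorem pTS1 : S_TS1 := sTS1

theorem pTS : S_TS := sTS pTS1

theorem pTH : S_TH := sTH

theorem pTOne : S_TOne := sTOne

theorem pMainB : S_MainB := sMainB pAlgRB pTS pTH pTOne

theorem pTK : S_TK := sTK

theorem pTN : S_TN := sTN pTK

end HSp
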