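import Pool.Agent.Lib.MP_181146_gt.HS.Defs
import Pool.Agent.Lib.MP_181146_gt.HS.DefsA

/-!
# Project HS, second part (cyclic groups of arbitrary order): definitions
-/

namespace HSp

section

variable {Λ : Type} [CommRing Λ] {n : ℕ}

/-- `V_i = P_i / (t, p) P_i`. -/
abbrev Cx.V {C : CycData Λ n} (X : Cx Λ C.t) (p : ℕ) (i : ℕ) : Type :=
  X.P i ⧸ (Ideal.span {C.t, (p : Λ)} • (⊤ : Submodule Λ (X.P i)))

/-- The differential of `V`. -/
def Cx.dV {C : CycData Λ n} (X : Cx Λ C.t) (p : ℕ) (i : ℕ) : X.V p (i + 1) →ₗ[Λ] X.V p i :=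
  qmap _ (X.d i)

/-- `b i` is the dimension over `𝔽_p` of the homology of `V` in degree `i` (`V_0 = 0`). -/
def Cx.IsBetti {C : CycData Λ n} (X : Cx Λ C.t) (p : ℕ) (b : ℕ → ℕ) : Prop :=
  b 0 = 0 ∧ ∀ i, Nat.card (LinearMap.ker (X.dV p i)) =
    p ^ b (i + 1) * Nat.card (LinearMap.range (X.dV p (i + 1)))

/-- `r i` is the dimension over `𝔽_p` of the image of `e i` modulo `p`. -/
def IsRk {C : CycData Λ n} {X : Cx Λ C.t} (e : ∀ i, X.F i →ₗ[Λ] X.F i) (p : ℕ) (r : ℕ → ℕ) :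
    Prop :=
  ∀ i, Nat.card (QN (p : Λ) (LinearMap.range (e i))) = p ^ r i

/-- The relation between the ranks of the image of `e` modulo `p` and the Betti numbers. -/
def BRel {C : CycData Λ n} (X : Cx Λ C.t) (e : ∀ i, X.F i →ₗ[Λ] X.F i) (p : ℕ) : Prop :=
  ∀ r b : ℕ → ℕ, IsRk e p r → X.IsBetti p b →
    (∑ i ∈ Finset.range (X.D + 1), (-1 : ℤ) ^ i * (r i : ℤ) =
      - ∑ i ∈ Finset.range (X.D + 1), (-1 : ℤ) ^ i * (i : ℤ) * (b i : ℤ)) ∧
    ∑ i ∈ Finset.range (X.D + 1), (-1 : ℤ) ^ i * (b i : ℤ) = 0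

/-- A chain idempotent `e` of the part `u F` of `F` (`u` an integer, idempotent modulo `n`), such
that `P / N → e F` is a quasi-isomorphism on the `u`-part. -/
structure SplitU {C : CycData Λ n} (X : Cx Λ C.t) (u : ℤ) where
  e : ∀ i, X.F i →ₗ[Λ] X.F i
  idem : ∀ i x, e i (e i x) = e i x
  ue : ∀ i x, u • e i x = e i x
  chain : ∀ i x, X.dF i (e (i + 1) x) = e i (X.dF i x)
  onto : ∀ i (y : X.F (i + 1)), e (i + 1) y = y → X.dF i y = 0 →
    ∃ x : X.P (i + 1), (∃ z, X.d i x = C.N • z) ∧ e (i + 1) (X.q (i + 1) x) = y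
  inj : ∀ i (x : X.P (i + 1)) (z : X.P i) (w : X.F (i + 2)), X.d i x = C.N • z →
    e (i + 1) (X.q (i + 1) x) = X.dF (i + 1) w → ∃ w', u • X.q (i + 1) x = X.dF (i + 1) w'

end

section Gp

variable (Γ : Type) [Group Γ] (p : ℕ)

/-- The subgroup of `M` generated by the elements `g y - y` (`g ∈ Γ`) and `p y`. -/
def CoS (M : Type) [AddCommGroup M] [Module (MonoidAlgebra ℤ Γ) M] : AddSubgroup M :=
  AddSubgroup.closure {x | (∃ (g : Γ) (y : M), x = MonoidAlgebra.of ℤ Γ g • y - y) ∨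
    ∃ y : M, x = (p : ℤ) • y}

/-- `M ⊗ 𝔽_p` (over the group ring, trivial action on `𝔽_p`): coinvariants modulo `p`. -/
abbrev CoV (M : Type) [AddCommGroup M] [Module (MonoidAlgebra ℤ Γ) M] : Type := M ⧸ CoS Γ p M

/-- The map on coinvariants modulo `p`. -/
noncomputable def coMap {M M' : Type} [AddCommGroup M] [Module (MonoidAlgebra ℤ Γ) M] [AddCommGroup M']
    [Module (MonoidAlgebra ℤ Γ) M'] (f : M →ₗ[MonoidAlgebra ℤ Γ] M') : CoV Γ p M →+ CoV Γ p M' :=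
  QuotientAddGroup.map _ _ f.toAddMonoidHom (by
    unfold CoS
    rw [AddSubgroup.closure_le]
    rintro x (⟨g, y, rfl⟩ | ⟨y, rfl⟩)
    · refine AddSubgroup.subset_closure (Or.inl ⟨g, f y, ?_⟩)
      change f _ = _
      rw [map_sub, map_smul]
    · refine AddSubgroup.subset_closure (Or.inr ⟨f y, ?_⟩)
      change f _ = _
      rw [map_zsmul])

/-- `b i` is the dimension over `𝔽_p` of the homology in degree `i` of the complex of coinvariants
modulo `p` of the complex `P`. -/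
def IsBettiP (P : ℕ → Type) [∀ i, AddCommGroup (P i)] [∀ i, Module (MonoidAlgebra ℤ Γ) (P i)]
    (d : ∀ i, P (i + 1) →ₗ[MonoidAlgebra ℤ Γ] P i) (b : ℕ → ℕ) : Prop :=
  Nat.card (CoV Γ p (P 0)) = p ^ b 0 * Nat.card (coMap Γ p (d 0)).range ∧
  ∀ i, Nat.card (coMap Γ p (d i)).ker = p ^ b (i + 1) * Nat.card (coMap Γ p (d (i + 1))).range

end Gp

end HSp
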