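import Pool.Agent.Lib.MP_181146_gt.HS.Slim
import Pool.Agent.Lib.MP_181146_gt.HS.DefsB

/-!
# Project HS: transfer from the short definitions of `Slim.lean` to `singL`, `IsBettiP`
-/

set_option autoImplicit false

namespace HSp

open CategoryTheory

section

variable {G : Type} [Group G] {M N : Type} [AddCommGroup M] [AddCommGroup N]
  [Module (MonoidAlgebra ℤ G) M] [Module (MonoidAlgebra ℤ G) N]

/-- An additive map commuting with the group is linear over the group ring. -/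
noncomputable def linOf (f : M → N) (h : ∀ x y, f (x + y) = f x + f y)
    (hf : ∀ (γ : G) (x : M), f (MonoidAlgebra.of ℤ G γ • x) = MonoidAlgebra.of ℤ G γ • f x) :
    M →ₗ[MonoidAlgebra ℤ G] N where
  toFun := f
  map_add' := h
  map_smul' a x := by
    let f' : M →+ N := AddMonoidHom.mk' f h
    change f' (a • x) = a • f' x
    induction a using MonoidAlgebra.induction_on with
    | of g => exact hf g x
    | add a b ha hb => rw [add_smul, map_add, ha, hb, add_smul]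
    | smul r a ha =>
      have h1 : (r • a) • x = r • (a • x) := by
        rw [zsmul_eq_mul, mul_smul, Int.cast_smul_eq_zsmul]
      have h2 : (r • a) • f' x = r • (a • f' x) := by
        rw [zsmul_eq_mul, mul_smul, Int.cast_smul_eq_zsmul]
      rw [h1, map_zsmul, ha, h2]

end

section

variable {E : Type} [TopologicalSpace E] (Γ : Subgroup (E ≃ₜ E))

lemma of_smul_SX (γ : Γ) (i : ℕ) (x : SX Γ i) :
    MonoidAlgebra.of ℤ Γ γ • x = (show SX Γ i from actS γ.1 i x) := by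
  rw [SX_smul_def]
  have h1 : rho Γ i (MonoidAlgebra.of ℤ Γ γ) = rhoM Γ i γ := by
    change MonoidAlgebra.lift ℤ (Module.End ℤ ((SC E).X i)) Γ (rhoM Γ i) _ = _
    exact MonoidAlgebra.lift_of _ _
  rw [h1]
  rfl

section

variable (P : ℕ → Type) [∀ i, AddCommGroup (P i)] [∀ i, Module (MonoidAlgebra ℤ Γ) (P i)]
  (d : ∀ i, P (i + 1) →ₗ[MonoidAlgebra ℤ Γ] P i) (dd : ∀ i x, d i (d (i + 1) x) = 0)

/-- The complex with the terms `P i` and the differential `d`. -/
noncomputable def cxOf : ChainComplex (ModuleCat.{0} (MonoidAlgebra ℤ Γ)) ℕ :=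
  ChainComplex.of (fun i => ModuleCat.of (MonoidAlgebra ℤ Γ) (P i)) (fun i => ModuleCat.ofHom (d i))
    (fun i => by
      ext x
      exact dd i x)

lemma cxOf_d (i : ℕ) : ((cxOf Γ P d dd).d (i + 1) i).hom = d i := by
  have h : ChainComplex.of.d (fun i => ModuleCat.of (MonoidAlgebra ℤ Γ) (P i))
      (fun i => ModuleCat.ofHom (d i)) (i + 1) i = ModuleCat.ofHom (d i) := ChainComplex.of_d _ _ _
  exact congrArg (fun f => f.hom) h

/-- A homotopy from its components. -/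
noncomputable def htpyOf {C D : ChainComplex (ModuleCat.{0} (MonoidAlgebra ℤ Γ)) ℕ} (u v : C ⟶ D)
    (h : ∀ i, C.X i ⟶ D.X (i + 1)) (h0 : h 0 ≫ D.d 1 0 = u.f 0 - v.f 0)
    (h1 : ∀ i, C.d (i + 1) i ≫ h i + h (i + 1) ≫ D.d (i + 2) (i + 1) = u.f (i + 1) - v.f (i + 1)) :
    Homotopy u v := by
  refine (Homotopy.equivSubZero).symm ?_
  have e : u - v = Homotopy.nullHomotopicMap' (C := C) (D := D)
      (fun i j (hij : (ComplexShape.down ℕ).Rel j i) => h i ≫ eqToHom (congrArg D.X hij)) := by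
    ext1 i
    cases i with
    | zero =>
      rw [Homotopy.nullHomotopicMap'_f_of_not_rel_left (k₁ := 1) (k₀ := 0) rfl
        (fun l hl => Nat.succ_ne_zero l hl)]
      simpa using h0.symm
    | succ i =>
      rw [Homotopy.nullHomotopicMap'_f (k₂ := i + 2) (k₁ := i + 1) (k₀ := i) rfl rfl]
      simpa using (h1 i).symm
  rw [e]
  exact Homotopy.nullHomotopy' _

theorem homotopyEquiv_of (f : ∀ i, P i → SI E i) (g : ∀ i, SI E i → P i)
    (s : ∀ i, P i → P (i + 1)) (t : ∀ i, SI E i → SI E (i + 1))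
    (fa : ∀ i x y, f i (x + y) = f i x + f i y) (ga : ∀ i x y, g i (x + y) = g i x + g i y)
    (sa : ∀ i x y, s i (x + y) = s i x + s i y) (ta : ∀ i x y, t i (x + y) = t i x + t i y)
    (fγ : ∀ i x (γ : Γ), f i (MonoidAlgebra.of ℤ Γ γ • x) = actS γ.1 i (f i x))
    (gγ : ∀ i x (γ : Γ), g i (actS γ.1 i x) = MonoidAlgebra.of ℤ Γ γ • g i x)
    (sγ : ∀ i x (γ : Γ), s i (MonoidAlgebra.of ℤ Γ γ • x) = MonoidAlgebra.of ℤ Γ γ • s i x)
    (tγ : ∀ i x (γ : Γ), t i (actS γ.1 i x) = actS γ.1 (i + 1) (t i x))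
    (hf : ∀ i x, bdS E i (f (i + 1) x) = f i (d i x))
    (hg : ∀ i x, d i (g (i + 1) x) = g i (bdS E i x))
    (hs0 : ∀ x, d 0 (s 0 x) = g 0 (f 0 x) - x)
    (hs1 : ∀ i x, d (i + 1) (s (i + 1) x) + s i (d i x) = g (i + 1) (f (i + 1) x) - x)
    (ht0 : ∀ x, bdS E 0 (t 0 x) = f 0 (g 0 x) - x)
    (ht1 : ∀ i x, bdS E (i + 1) (t (i + 1) x) + t i (bdS E i x) = f (i + 1) (g (i + 1) x) - x) :
    Nonempty (HomotopyEquiv (cxOf Γ P d dd) (singL Γ)) := by
  let F : ∀ i, P i →ₗ[MonoidAlgebra ℤ Γ] SX Γ i := fun i => linOf (N := SX Γ i) (f i) (fa i)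
    (fun γ x => (fγ i x γ).trans (of_smul_SX Γ γ i (f i x)).symm)
  let G : ∀ i, SX Γ i →ₗ[MonoidAlgebra ℤ Γ] P i := fun i => linOf (M := SX Γ i) (g i) (ga i)
    (fun γ x => (congrArg (g i) (of_smul_SX Γ γ i x)).trans (gγ i x γ))
  let s' : ∀ i, P i →ₗ[MonoidAlgebra ℤ Γ] P (i + 1) := fun i => linOf (s i) (sa i)
    (fun γ x => sγ i x γ)
  let t' : ∀ i, SX Γ i →ₗ[MonoidAlgebra ℤ Γ] SX Γ (i + 1) := fun i =>
    linOf (M := SX Γ i) (N := SX Γ (i + 1)) (t i) (ta i)
    (fun γ x => (congrArg (t i) (of_smul_SX Γ γ i x)).trans ((tγ i x γ).trans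
      (of_smul_SX Γ γ (i + 1) (t i x)).symm))
  let Fc : cxOf Γ P d dd ⟶ singL Γ :=
    { f := fun i => ModuleCat.ofHom (F i)
      comm' := by
        rintro i j hij
        obtain rfl : j + 1 = i := hij
        ext x
        change bdS E j (f (j + 1) x) = f j (((cxOf Γ P d dd).d (j + 1) j).hom x)
        rw [cxOf_d]
        exact hf j x }
  let Gc : singL Γ ⟶ cxOf Γ P d dd :=
    { f := fun i => ModuleCat.ofHom (G i)
      comm' := by
        rintro i j hij
        obtain rfl : j + 1 = i := hij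
        ext x
        change ((cxOf Γ P d dd).d (j + 1) j).hom (g (j + 1) x) = g j (bdS E j x)
        rw [cxOf_d]
        exact hg j x }
  refine ⟨⟨Fc, Gc, ?_, ?_⟩⟩
  · refine htpyOf Γ _ _ (fun i => ModuleCat.ofHom (s' i)) ?_ ?_
    · refine ModuleCat.hom_ext (LinearMap.ext fun (x : P 0) => ?_)
      change ((cxOf Γ P d dd).d (0 + 1) 0).hom (s 0 x) = g 0 (f 0 x) - x
      rw [cxOf_d]
      exact hs0 x
    · intro i
      refine ModuleCat.hom_ext (LinearMap.ext fun (x : P (i + 1)) => ?_)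
      have e1 : ((cxOf Γ P d dd).d (i + 1) i).hom x = d i x :=
        LinearMap.congr_fun (cxOf_d Γ P d dd i) x
      have e2 : ((cxOf Γ P d dd).d ((i + 1) + 1) (i + 1)).hom (s (i + 1) x) =
          d (i + 1) (s (i + 1) x) := LinearMap.congr_fun (cxOf_d Γ P d dd (i + 1)) (s (i + 1) x)
      refine (congrArg₂ (fun a b => (s i a + b : P (i + 1))) e1 e2).trans ?_
      exact (add_comm _ _).trans (hs1 i x)
  · refine htpyOf Γ _ _ (fun i => ModuleCat.ofHom (t' i)) ?_ ?_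
    · refine ModuleCat.hom_ext (LinearMap.ext fun (x : SI E 0) => ?_)
      change bdS E 0 (t 0 x) = f 0 (g 0 x) - x
      exact ht0 x
    · intro i
      refine ModuleCat.hom_ext (LinearMap.ext fun (x : SI E (i + 1)) => ?_)
      exact (add_comm (t i (bdS E i x)) (bdS E (i + 1) (t (i + 1) x))).trans (ht1 i x)

end

/-! ## Complexes `C : Cpl (GR Γ)` -/

noncomputable instance instModGR (C : Cpl (GR Γ)) (i : ℕ) : Module (MonoidAlgebra ℤ Γ) (C.X i) :=
  C.md i

variable {Γ}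

/-- The differential as a linear map. -/
noncomputable def Cpl.dL (C : Cpl (GR Γ)) (i : ℕ) : C.X (i + 1) →ₗ[MonoidAlgebra ℤ Γ] C.X i where
  toFun := C.d i
  map_add' := C.d_add i
  map_smul' := C.d_smul i

/-- The complex `C` as an object of the category of chain complexes. -/
noncomputable def Cpl.cx (C : Cpl (GR Γ)) : ChainComplex (ModuleCat.{0} (MonoidAlgebra ℤ Γ)) ℕ :=
  cxOf Γ C.X C.dL C.d_d

lemma Cpl.cx_d (C : Cpl (GR Γ)) (i : ℕ) : (C.cx.d (i + 1) i).hom = C.dL i :=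
  cxOf_d Γ C.X C.dL C.d_d i

theorem Cpl.cx_equiv (C : Cpl (GR Γ)) (h : EqvSing Γ C) :
    Nonempty (HomotopyEquiv C.cx (singL Γ)) := by
  obtain ⟨f, g, s, t, ha, fγ, gγ, sγ, tγ, hf, hg, ⟨hs0, hs1⟩, ⟨ht0, ht1⟩⟩ := h
  exact homotopyEquiv_of Γ C.X C.dL C.d_d f g s t (fun i => (ha i).1) (fun i => (ha i).2.1)
    (fun i => (ha i).2.2.1) (fun i => (ha i).2.2.2) (fun i x γ => fγ i γ x) (fun i x γ => gγ i γ x)
    (fun i x γ => sγ i γ x) (fun i x γ => tγ i γ x) hf hg hs0 hs1 ht0 ht1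

theorem Cpl.IsPerf.fin {C : Cpl (GR Γ)} {K : ℕ} (h : C.IsPerf K) (i : ℕ) :
    Module.Finite (MonoidAlgebra ℤ Γ) (C.cx.X i) := (h i).1

theorem Cpl.IsPerf.proj {C : Cpl (GR Γ)} {K : ℕ} (h : C.IsPerf K) (i : ℕ) :
    Module.Projective (MonoidAlgebra ℤ Γ) (C.cx.X i) := (h i).2.1

theorem Cpl.IsPerf.bdd {C : Cpl (GR Γ)} {K : ℕ} (h : C.IsPerf K) (i : ℕ) (hi : 2 * K ≤ i) :
    Subsingleton (C.cx.X i) := (h i).2.2 hi

/-! ## Betti numbers -/

lemma Cpl.Co_eq (C : Cpl (GR Γ)) (q i : ℕ) : C.Co q i = CoS Γ q (C.X i) := by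
  unfold Cpl.Co CoS
  congr 1
  ext x
  constructor
  · rintro (⟨y, rfl⟩ | ⟨γ, y, rfl⟩)
    · exact Or.inr ⟨y, (natCast_zsmul y q).symm⟩
    · exact Or.inl ⟨γ, y, rfl⟩
  · rintro (⟨γ, y, rfl⟩ | ⟨y, rfl⟩)
    · exact Or.inr ⟨γ, y, rfl⟩
    · exact Or.inl ⟨y, natCast_zsmul y q⟩

lemma relIndex_of_card {A : Type} [AddCommGroup A] (B Z : AddSubgroup A) (hle : B ≤ Z) (q b : ℕ)
    (hB : 0 < Nat.card B) (h : Nat.card Z = q ^ b * Nat.card B) : B.relIndex Z = q ^ b := by
  have h1 := AddSubgroup.relIndex_mul_relIndex ⊥ B Z bot_le hle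
  rw [AddSubgroup.relIndex_bot_left, AddSubgroup.relIndex_bot_left, h, mul_comm] at h1
  exact Nat.eq_of_mul_eq_mul_right hB h1

theorem Cpl.isBetti_of {C : Cpl (GR Γ)} (q : ℕ)
    (hfin : ∀ i, Finite (CoV Γ q (C.X i))) (b : ℕ → ℕ)
    (h : IsBettiP Γ q C.X C.dL b) : C.IsBetti q b := by
  have hpos : ∀ i, 0 < Nat.card (coMap Γ q (C.dL i)).range := fun i => by
    have : Finite (coMap Γ q (C.dL i)).range := inferInstance
    exact Nat.card_pos
  -- the boundaries as a preimage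
  have hB : ∀ i, AddSubgroup.closure (C.Co q i ∪ Set.range (C.d i)) =
      (coMap Γ q (C.dL i)).range.comap (QuotientAddGroup.mk' (CoS Γ q (C.X i))) := by
    intro i
    rw [C.Co_eq]
    apply le_antisymm
    · rw [AddSubgroup.closure_le]
      rintro x (hx | ⟨y, rfl⟩)
      · refine ⟨0, ?_⟩
        rw [map_zero]
        exact ((QuotientAddGroup.eq_zero_iff x).2 hx).symm
      · exact ⟨QuotientAddGroup.mk y, rfl⟩
    · rintro x ⟨y, hy⟩
      obtain ⟨y, rfl⟩ := QuotientAddGroup.mk'_surjective _ y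
      have h1 : x - C.d i y ∈ CoS Γ q (C.X i) := by
        have h2 : QuotientAddGroup.mk' (CoS Γ q (C.X i)) (C.d i y) =
            QuotientAddGroup.mk' (CoS Γ q (C.X i)) x := hy
        rw [← QuotientAddGroup.eq_zero_iff]
        have h3 : QuotientAddGroup.mk' (CoS Γ q (C.X i)) (x - C.d i y) = 0 := by
          rw [map_sub, h2, sub_self]
        exact h3
      have h4 : x = (x - C.d i y) + C.d i y := by abel
      rw [h4]
      exact add_mem (AddSubgroup.subset_closure (Or.inl h1))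
        (AddSubgroup.subset_closure (Or.inr ⟨y, rfl⟩))
  have hZ : ∀ i, AddSubgroup.closure {x | C.d i x ∈ C.Co q i} =
      (coMap Γ q (C.dL i)).ker.comap (QuotientAddGroup.mk' (CoS Γ q (C.X (i + 1)))) := by
    intro i
    rw [C.Co_eq]
    have key : ∀ x : C.X (i + 1), C.d i x ∈ CoS Γ q (C.X i) ↔
        x ∈ (coMap Γ q (C.dL i)).ker.comap (QuotientAddGroup.mk' (CoS Γ q (C.X (i + 1)))) := by
      intro x
      exact (QuotientAddGroup.eq_zero_iff (C.d i x)).symm
    apply le_antisymm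
    · rw [AddSubgroup.closure_le]
      intro x hx
      exact (key x).1 hx
    · intro x hx
      exact AddSubgroup.subset_closure ((key x).2 hx)
  refine ⟨?_, fun i => ?_⟩
  · rw [hB 0, ← AddSubgroup.relIndex_top_right]
    have h1 : (⊤ : AddSubgroup (C.X 0)) =
        (⊤ : AddSubgroup (CoV Γ q (C.X 0))).comap (QuotientAddGroup.mk' (CoS Γ q (C.X 0))) := rfl
    rw [h1, AddSubgroup.relIndex_comap, AddSubgroup.map_comap_eq_self_of_surjective
      (QuotientAddGroup.mk'_surjective _)]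
    refine relIndex_of_card _ _ le_top q (b 0) (hpos 0) ?_
    rw [AddSubgroup.card_top]
    exact h.1
  · rw [hB (i + 1), hZ i, AddSubgroup.relIndex_comap, AddSubgroup.map_comap_eq_self_of_surjective
      (QuotientAddGroup.mk'_surjective _)]
    refine relIndex_of_card _ _ ?_ q (b (i + 1)) (hpos (i + 1)) (h.2 i)
    rintro _ ⟨y, rfl⟩
    obtain ⟨y, rfl⟩ := QuotientAddGroup.mk'_surjective _ y
    change QuotientAddGroup.mk' (CoS Γ q (C.X i)) (C.d i (C.d (i + 1) y)) = 0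
    rw [C.d_d, map_zero]

end

end HSp
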