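import Pool.Agent.Lib.MP_181146_gt.HS.Defs

/-!
# Project HS: short definitions for the statements of the results

`Cpl R`: chain complexes of modules over a ring `R`; `GR Γ`: the group ring `ℤ[Γ]`; `EqvSing Γ C`: the
complex `C` of `ℤ[Γ]`-modules is chain homotopy equivalent over `ℤ[Γ]` to the singular chain complex.
-/

set_option autoImplicit false

namespace HSp

/-- A chain complex of modules over the ring `R`, in degrees `≥ 0`: modules `X i` and linear maps
`d i : X (i + 1) → X i` with `d i (d (i + 1) x) = 0`. -/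
structure Cpl (R : Type) [Ring R] where
  X : ℕ → Type
  [ab : ∀ i, AddCommGroup (X i)]
  [md : ∀ i, Module R (X i)]
  d : ∀ i, X (i + 1) → X i
  d_add : ∀ i x y, d i (x + y) = d i x + d i y
  d_smul : ∀ i (a : R) (x : X (i + 1)), d i (a • x) = a • d i x
  d_d : ∀ i x, d i (d (i + 1) x) = 0

attribute [instance] Cpl.ab Cpl.md

section

variable {R : Type} [Ring R]

/-- All terms of `C` are finitely generated projective modules, and they vanish in degrees
`≥ 2 K`. -/
def Cpl.IsPerf (C : Cpl R) (K : ℕ) : Prop :=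
  ∀ i, Module.Finite R (C.X i) ∧ Module.Projective R (C.X i) ∧
    (2 * K ≤ i → Subsingleton (C.X i))

/-- `(⊕ C_{2j}) ⊕ R^a ≅ (⊕ C_{2j+1}) ⊕ R^b` as `R`-modules, `0 ≤ j < K`. -/
def Cpl.StEq (C : Cpl R) (K a b : ℕ) : Prop :=
  Nonempty (((∀ j : Fin K, C.X (2 * j)) × (Fin a → R)) ≃ₗ[R]
    ((∀ j : Fin K, C.X (2 * j + 1)) × (Fin b → R)))

end

/-! ## Complexes of abelian groups with an action of a group -/

/-- `f` is additive. -/
def IsAdd {A B : Type} [AddCommGroup A] [AddCommGroup B] (f : A → B) : Prop :=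
  ∀ x y, f (x + y) = f x + f y

/-- `s` is a chain homotopy between the identity and `u`. -/
def IsHt {A : ℕ → Type} [∀ i, AddCommGroup (A i)] (d : ∀ i, A (i + 1) → A i)
    (s : ∀ i, A i → A (i + 1)) (u : ∀ i, A i → A i) : Prop :=
  (∀ x, d 0 (s 0 x) = u 0 x - x) ∧ ∀ i x, d (i + 1) (s (i + 1) x) + s i (d i x) = u (i + 1) x - x

/-- The data of a complex of abelian groups in degrees `≥ 0` with an action of a group `G`. -/
structure ACx (G : Type) where
  X : ℕ → Type
  [ab : ∀ i, AddCommGroup (X i)]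
  d : ∀ i, X (i + 1) → X i
  act : ∀ i, G → X i → X i

attribute [instance] ACx.ab

/-- `A` and `B` are chain homotopy equivalent in the category of complexes with an action of `G`:
there are maps `f`, `g` in both directions and homotopies `s` (between the identity of `A` and
`g f`) and `t` (between the identity of `B` and `f g`), all of them additive and commuting with the
action of `G`, `f` and `g` commuting with the differentials. -/
def ACx.Eqv {G : Type} (A B : ACx G) : Prop :=
  ∃ (f : ∀ i, A.X i → B.X i) (g : ∀ i, B.X i → A.X i) (s : ∀ i, A.X i → A.X (i + 1))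
    (t : ∀ i, B.X i → B.X (i + 1)),
    (∀ i, IsAdd (f i) ∧ IsAdd (g i) ∧ IsAdd (s i) ∧ IsAdd (t i)) ∧
    (∀ i γ x, f i (A.act i γ x) = B.act i γ (f i x)) ∧
    (∀ i γ x, g i (B.act i γ x) = A.act i γ (g i x)) ∧
    (∀ i γ x, s i (A.act i γ x) = A.act (i + 1) γ (s i x)) ∧
    (∀ i γ x, t i (B.act i γ x) = B.act (i + 1) γ (t i x)) ∧
    (∀ i x, B.d i (f (i + 1) x) = f i (A.d i x)) ∧
    (∀ i x, A.d i (g (i + 1) x) = g i (B.d i x)) ∧
    IsHt A.d s (fun i x => g i (f i x)) ∧ IsHt B.d t (fun i x => f i (g i x))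

section

variable {E : Type} [TopologicalSpace E]

/-- The group ring `ℤ[Γ]` of a group `Γ` of homeomorphisms of `E`. -/
def GR (Γ : Subgroup (E ≃ₜ E)) : Type := MonoidAlgebra ℤ Γ

noncomputable instance instRingGR (Γ : Subgroup (E ≃ₜ E)) : Ring (GR Γ) := MonoidAlgebra.ring

/-- The element `γ` of the group ring `ℤ[Γ]`. -/
noncomputable def GR.of {Γ : Subgroup (E ≃ₜ E)} (γ : Γ) : GR Γ := MonoidAlgebra.of ℤ Γ γ

/-- `S_i(E)`, the group of singular `i`-chains of `E` (Mathlib's singular chain complex). -/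
def SI (E : Type) [TopologicalSpace E] (i : ℕ) : Type := (SC E).X i

noncomputable instance instSI (E : Type) [TopologicalSpace E] (i : ℕ) : AddCommGroup (SI E i) :=
  ((SC E).X i).isAddCommGroup

/-- The boundary operator `S_{i+1}(E) → S_i(E)`. -/
noncomputable def bdS (E : Type) [TopologicalSpace E] (i : ℕ) (x : SI E (i + 1)) : SI E i :=
  ((SC E).d (i + 1) i).hom x

/-- The map `S_i(E) → S_i(E)` induced by a homeomorphism of `E`. -/
noncomputable def actS (g : E ≃ₜ E) (i : ℕ) (x : SI E i) : SI E i :=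
  ((SCmap (g : C(E, E))).f i).hom x

/-- The singular chain complex of `E` with the action of `Γ`. -/
noncomputable def singA (Γ : Subgroup (E ≃ₜ E)) : ACx Γ where
  X := SI E
  d := bdS E
  act i γ := actS γ.1 i

/-- A complex of modules over the group ring `ℤ[Γ]`, as a complex of abelian groups with an action
of `Γ`. -/
noncomputable def Cpl.toA {Γ : Subgroup (E ≃ₜ E)} (C : Cpl (GR Γ)) : ACx Γ where
  X := C.X
  d := C.d
  act _ γ x := GR.of γ • x

/-- The complex `C` of modules over the group ring `ℤ[Γ]` is chain homotopy equivalent over `ℤ[Γ]`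
to the singular chain complex of `E`. -/
def EqvSing (Γ : Subgroup (E ≃ₜ E)) (C : Cpl (GR Γ)) : Prop := ACx.Eqv C.toA (singA Γ)

/-- The subgroup of `C_i` generated by all `q y` and all `γ y - y`, `γ ∈ Γ`; the quotient is
`C_i ⊗ 𝔽_q` (tensor product over `ℤ[Γ]`). -/
def Cpl.Co {Γ : Subgroup (E ≃ₜ E)} (C : Cpl (GR Γ)) (q i : ℕ) : AddSubgroup (C.X i) :=
  AddSubgroup.closure {x | (∃ y, x = q • y) ∨ ∃ (γ : Γ) (y : C.X i), x = GR.of γ • y - y}

/-- `b i` is the dimension over `𝔽_q` of the homology in degree `i` of `C ⊗ 𝔽_q` (tensor product over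
`ℤ[Γ]`), `q` a prime number: the cycles modulo the boundaries are `q ^ (b i)` many. -/
def Cpl.IsBetti {Γ : Subgroup (E ≃ₜ E)} (C : Cpl (GR Γ)) (q : ℕ) (b : ℕ → ℕ) : Prop :=
  (AddSubgroup.closure (C.Co q 0 ∪ Set.range (C.d 0))).index = q ^ b 0 ∧
  ∀ i, (AddSubgroup.closure (C.Co q (i + 1) ∪ Set.range (C.d (i + 1)))).relIndex
    (AddSubgroup.closure {x | C.d i x ∈ C.Co q i}) = q ^ b (i + 1)

end

end HSp
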