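import Pool.Agent.Lib.MP_181146_gt.HS.SpecB

/-!
# Project HS, second part, AlgB: the algebraic theorem for a cyclic group of arbitrary order
-/

set_option autoImplicit false

namespace HSp

theorem sAlgB (hSAll : S_SAll) (hSEx : S_SEx) (hSEq : S_SEq) (hAlgG : S_AlgG) : S_AlgB := by
  intro Λ _ n C hn X K hK hb
  obtain ⟨S, hB⟩ := hSAll Λ n C X hn
  -- a prime divisor of `n`
  have hp0 : (Nat.minFac n).Prime := Nat.minFac_prime (by omega)
  have hp0n : Nat.minFac n ∣ n := Nat.minFac_dvd n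
  obtain ⟨-, b0, hb0⟩ := hSEx Λ n C X hn S.e (Nat.minFac n) hp0 hp0n
  -- the Euler characteristics of the images of `e` modulo the primes `p ∣ n` agree
  have hχ : ∀ p : ℕ, p.Prime → p ∣ n → ∀ r, IsRk S.e p r →
      ∑ i ∈ Finset.range (X.D + 1), (-1 : ℤ) ^ i * (r i : ℤ) =
        - ∑ i ∈ Finset.range (X.D + 1), (-1 : ℤ) ^ i * (i : ℤ) * (b0 i : ℤ) := by
    intro p hp hpn r hr
    obtain ⟨-, b, hbp⟩ := hSEx Λ n C X hn S.e p hp hpn
    have h1 := (hB p hp hpn r b hr hbp).1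
    have h2 := hb p (Nat.minFac n) hp hpn hp0 hp0n b b0 hbp hb0
    rw [h1, h2]
  obtain ⟨SG⟩ := hSEq Λ n C X hn S _ hχ
  exact hAlgG Λ n C hn X SG K hK

end HSp
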