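import Pool.Agent.Lib.MP_181146_gt.HS.Spec

/-!
# Project HS, AlgR: the algebraic theorem over the group ring
-/

set_option autoImplicit false

namespace HSp

section shift

variable {Λ : Type} [CommRing Λ] (P : ℕ → Type) [∀ i, AddCommGroup (P i)] [∀ i, Module Λ (P i)]

/-- the shifted modules -/
private def algRP (P : ℕ → Type) : ℕ → Type
  | 0 => PUnit
  | i + 1 => P i

private instance algRac : ∀ i, AddCommGroup (algRP P i)
  | 0 => inferInstanceAs (AddCommGroup PUnit)
  | i + 1 => inferInstanceAs (AddCommGroup (P i))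

private instance algRmo : ∀ i, Module Λ (algRP P i)
  | 0 => inferInstanceAs (Module Λ PUnit)
  | i + 1 => inferInstanceAs (Module Λ (P i))

variable {P}

/-- the shifted differential -/
private def algRd (d : ∀ i, P (i + 1) →ₗ[Λ] P i) : ∀ i, algRP P (i + 1) →ₗ[Λ] algRP P i
  | 0 => 0
  | i + 1 => d i

/-- the shifted contraction -/
private def algRh (h : ∀ i, P i →ₗ[Λ] P (i + 1)) : ∀ i, algRP P i →ₗ[Λ] algRP P (i + 1)
  | 0 => 0
  | i + 1 => h i

end shift

/-- the theorem for a commutative ring with the data `C` -/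
private theorem algRgen (hAlgMain : S_AlgMain) (Λ : Type) [CommRing Λ] (n : ℕ)
    (C : CycData Λ n) (q k : ℕ) (hq : q.Prime) (hk : 0 < k) (hn : n = q ^ k) (P : ℕ → Type)
    [∀ i, AddCommGroup (P i)] [∀ i, Module Λ (P i)] [hfi : ∀ i, Module.Finite Λ (P i)]
    [hpr : ∀ i, Module.Projective Λ (P i)] (d : ∀ i, P (i + 1) →ₗ[Λ] P i)
    (h : ∀ i, P i →ₗ[Λ] P (i + 1)) (dd : ∀ i x, d i (d (i + 1) x) = 0)
    (dh0 : ∀ x, d 0 (h 0 x) = C.t • x)
    (dh : ∀ i x, d (i + 1) (h (i + 1) x) + h i (d i x) = C.t • x)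
    (K : ℕ) (hK : ∀ i, 2 * K ≤ i → Subsingleton (P i)) :
    ∃ s : ℕ, Nonempty (((∀ j : Fin K, P (2 * j)) × (Fin s → Λ)) ≃ₗ[Λ]
      ((∀ j : Fin K, P (2 * j + 1)) × (Fin s → Λ))) := by
  let X : Cx Λ C.t :=
    { P := algRP P
      ac := algRac P
      mo := algRmo P
      fi := by
        rintro (_ | i)
        · exact inferInstanceAs (Module.Finite Λ PUnit)
        · exact hfi i
      pr := by
        rintro (_ | i)
        · exact inferInstanceAs (Module.Projective Λ PUnit)
        · exact hpr i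
      d := algRd d
      h := algRh h
      dd := by
        rintro (_ | i) x
        · rfl
        · exact dd i x
      dh := by
        rintro (_ | i) x
        · have h1 : d 0 (h 0 x) + (0 : P 0) = C.t • x := by rw [add_zero]; exact dh0 x
          exact h1
        · exact dh i x
      zero := inferInstanceAs (Subsingleton PUnit)
      D := 2 * K
      bdd := by
        rintro (_ | i) hi
        · exact inferInstanceAs (Subsingleton PUnit)
        · exact hK i (by omega) }
  obtain ⟨s, ⟨e⟩⟩ := hAlgMain Λ n C q k hq hk hn X (K + 1) (by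
    rintro (_ | i) hi
    · omega
    · exact hK i (by omega))
  -- even part
  have e0 : (∀ j : Fin (K + 1), X.P (2 * (j : ℕ))) ≃ₗ[Λ] (∀ j : Fin K, P (2 * (j : ℕ) + 1)) :=
    { toFun := fun f j => f j.succ
      invFun := fun f => Fin.cons (α := fun j : Fin (K + 1) => X.P (2 * (j : ℕ))) PUnit.unit f
      map_add' := fun _ _ => rfl
      map_smul' := fun _ _ => rfl
      left_inv := by
        intro f
        funext j
        refine Fin.cases ?_ (fun i => ?_) j
        · exact Subsingleton.elim (α := PUnit) _ _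
        · rfl
      right_inv := fun _ => rfl }
  have hsub : Subsingleton (P (2 * K)) := hK _ le_rfl
  have e1 : (∀ j : Fin (K + 1), X.P (2 * (j : ℕ) + 1)) ≃ₗ[Λ] (∀ j : Fin K, P (2 * (j : ℕ))) :=
    { toFun := fun f j => f j.castSucc
      invFun := fun f => Fin.snoc (α := fun j : Fin (K + 1) => P (2 * (j : ℕ))) f
        (0 : P (2 * K))
      map_add' := fun _ _ => rfl
      map_smul' := fun _ _ => rfl
      left_inv := by
        intro f
        funext j
        refine Fin.lastCases ?_ (fun i => ?_) j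
        · exact Subsingleton.elim (α := P (2 * K)) _ _
        · exact Fin.snoc_castSucc (α := fun j : Fin (K + 1) => P (2 * (j : ℕ))) _ _ _
      right_inv := by
        intro f
        funext j
        exact Fin.snoc_castSucc (α := fun j : Fin (K + 1) => P (2 * (j : ℕ))) _ _ _ }
  exact ⟨s, ⟨((e1.symm.prodCongr (LinearEquiv.refl Λ _)).trans e.symm).trans
    (e0.prodCongr (LinearEquiv.refl Λ _))⟩⟩

theorem sAlgR (hAlgMain : S_AlgMain) (hArCyc : S_ArCyc) : S_AlgR := by
  intro Γ _ hΓ q k hq hk hn g hg P _ _ _ _ d h dd dh0 dh K hK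
  let _ : CommGroup Γ := IsCyclic.commGroup
  have : Finite Γ := Nat.finite_of_card_ne_zero (by
    rw [hn]; exact pow_ne_zero _ hq.ne_zero)
  have hn1 : 1 < Nat.card Γ := by rw [hn]; exact Nat.one_lt_pow hk.ne' hq.one_lt
  obtain ⟨C, hC⟩ := hArCyc Γ g hg hn1
  exact algRgen hAlgMain (MonoidAlgebra ℤ Γ) (Nat.card Γ) C q k hq hk hn P d h dd
    (fun x => by rw [hC]; exact dh0 x) (fun i x => by rw [hC]; exact dh i x) K hK

end HSp
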