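import Pool.Agent.Lib.MP_181146_gt.HS.SpecR

set_option autoImplicit false

namespace HSp

theorem sRCf1 (h1 : S_RVec) : S_RCf1 := by
  intro S Rb I _ _ _ _ C X u z0 v hu hv
  obtain ⟨hsur, hker, hkt, -, hsep, hρA, -, -⟩ := h1 S Rb I C
  obtain ⟨v', rfl⟩ := hsur v
  have e1 : C.ρ ∘ (u - X.d.mulVec v') = 0 := by
    have e : C.ρ ∘ (u - X.d.mulVec v') = C.ρ ∘ u - C.ρ ∘ X.d.mulVec v' := by
      funext i
      simp
    rw [e, hρA, hv, sub_self]
  obtain ⟨a, b, hab⟩ := hker _ e1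
  have hdd : ∀ x, X.d.mulVec (X.d.mulVec x) = 0 := fun x => by
    rw [Matrix.mulVec_mulVec, X.dd, Matrix.zero_mulVec]
  have e2 : C.N • z0 = C.t • X.d.mulVec a + C.N • X.d.mulVec b := by
    have e := congrArg X.d.mulVec hab
    rw [Matrix.mulVec_sub, hdd, sub_zero, Matrix.mulVec_add, Matrix.mulVec_smul,
      Matrix.mulVec_smul, hu] at e
    exact e
  have e3 : C.t • X.d.mulVec a = C.N • (z0 - X.d.mulVec b) := by
    rw [smul_sub, e2, add_sub_cancel_right]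
  obtain ⟨b', hb'⟩ := hkt _ (hsep _ _ e3)
  have e5 : X.d.mulVec (X.h.mulVec a) + X.h.mulVec (X.d.mulVec a) = C.t • a := by
    rw [Matrix.mulVec_mulVec, Matrix.mulVec_mulVec, ← Matrix.add_mulVec, X.dh,
      Matrix.smul_mulVec, Matrix.one_mulVec]
  refine ⟨v' + X.h.mulVec a, b + X.h.mulVec b', ?_⟩
  rw [Matrix.mulVec_add, smul_add, ← Matrix.mulVec_smul X.h, ← hb', sub_eq_iff_eq_add.1 hab, ← e5]
  abel

end HSp
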