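import Pool.Agent.Lib.MP_181146_gt.HS.SpecR2

/-! MP_181146_gt, module HS/RChi: a character from the complement. -/

set_option autoImplicit false

namespace HSp

private theorem RChi_main (p : ℕ) (k : ℕ) (Γ : Type) [CommGroup Γ] (g : Γ)
    (ho : orderOf g = p ^ k) (Γ' : Subgroup Γ) (hc : IsCompl (Subgroup.zpowers g) Γ') :
    ∃ χ : Γ →* Multiplicative (ZMod (p ^ k)), χ g = Multiplicative.ofAdd 1 := by
  have hpow : zmultiplesHom (Additive (Γ ⧸ Γ')) (Additive.ofMul (QuotientGroup.mk g : Γ ⧸ Γ'))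
      ((p ^ k : ℕ) : ℤ) = 0 := by
    rw [zmultiplesHom_apply, natCast_zsmul, ← ofMul_pow, ← QuotientGroup.mk_pow, ← ho,
      pow_orderOf_eq_one, QuotientGroup.mk_one, ofMul_one]
  set f : ZMod (p ^ k) →+ Additive (Γ ⧸ Γ') := ZMod.lift (p ^ k)
    ⟨zmultiplesHom (Additive (Γ ⧸ Γ')) (Additive.ofMul (QuotientGroup.mk g : Γ ⧸ Γ')), hpow⟩
    with hf
  have hfn : ∀ n : ℤ, f (n : ZMod (p ^ k)) = Additive.ofMul (QuotientGroup.mk (g ^ n) : Γ ⧸ Γ') := by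
    intro n
    rw [hf, ZMod.lift_coe]
    change zmultiplesHom (Additive (Γ ⧸ Γ')) (Additive.ofMul (QuotientGroup.mk g : Γ ⧸ Γ')) n = _
    rw [zmultiplesHom_apply, ← ofMul_zpow, ← QuotientGroup.mk_zpow]
  have hinj : Function.Injective f := by
    rw [injective_iff_map_eq_zero]
    intro a ha
    obtain ⟨n, rfl⟩ := ZMod.intCast_surjective a
    rw [hfn] at ha
    have h1 : (QuotientGroup.mk (g ^ n) : Γ ⧸ Γ') = 1 := ha
    rw [QuotientGroup.eq_one_iff] at h1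
    have h2 : g ^ n ∈ Subgroup.zpowers g ⊓ Γ' := ⟨⟨n, rfl⟩, h1⟩
    rw [hc.inf_eq_bot, Subgroup.mem_bot] at h2
    rw [ZMod.intCast_zmod_eq_zero_iff_dvd, ← ho]
    exact orderOf_dvd_iff_zpow_eq_one.2 h2
  have hsur : Function.Surjective f := by
    intro y
    obtain ⟨x, hx⟩ := QuotientGroup.mk_surjective (Additive.toMul y)
    have h1 : x ∈ Subgroup.zpowers g ⊔ Γ' := by
      rw [hc.sup_eq_top]
      exact Subgroup.mem_top x
    rw [Subgroup.mem_sup] at h1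
    obtain ⟨z, ⟨n, rfl⟩, c, hc1, rfl⟩ := h1
    refine ⟨(n : ZMod (p ^ k)), ?_⟩
    rw [hfn]
    change (QuotientGroup.mk (g ^ n) : Γ ⧸ Γ') = Additive.toMul y
    rw [← hx]
    exact QuotientGroup.eq.2 (by simpa using hc1)
  let e : ZMod (p ^ k) ≃+ Additive (Γ ⧸ Γ') := AddEquiv.ofBijective f ⟨hinj, hsur⟩
  have h1 : e 1 = Additive.ofMul (QuotientGroup.mk g : Γ ⧸ Γ') := by
    have h2 := hfn 1
    rw [Int.cast_one, zpow_one] at h2
    exact h2
  refine ⟨MonoidHom.mk' (fun x => Multiplicative.ofAdd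
    (e.symm (Additive.ofMul (QuotientGroup.mk x : Γ ⧸ Γ')))) ?_, ?_⟩
  · intro a b
    rw [← ofAdd_add, ← map_add]
    rfl
  · change Multiplicative.ofAdd (e.symm (Additive.ofMul (QuotientGroup.mk g : Γ ⧸ Γ'))) = _
    rw [← h1, AddEquiv.symm_apply_apply]

theorem sRChi : S_RChi := by
  intro p _ Γ _ _ hp g hg Γ' hc
  obtain ⟨k, hk⟩ := (IsPGroup.iff_orderOf.1 hp) g
  refine ⟨k, ?_, hk, RChi_main p k Γ g hk Γ' hc⟩
  rw [Nat.pos_iff_ne_zero]
  rintro rfl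
  rw [pow_zero, orderOf_eq_one_iff] at hk
  exact hg hk

end HSp
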