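import Pool.Agent.Lib.MP_181146_gt.HS.SpecR

/-!
# The connecting operator exists
-/

set_option autoImplicit false
set_option linter.unusedSectionVars false

namespace HSp

section

variable {S Rb I : Type} [CommRing S] [CommRing Rb] [Fintype I] [DecidableEq I]

/-- The graph of the connecting operator. -/
private def RCon_Q (C : RC S Rb) (X : TC S I C.t) (x a : Hm (X.d.map C.ρ)) : Prop :=
  ∃ u y z : I → S, ∃ (hu : (X.d.map C.ρ).mulVec (C.ρ ∘ u) = 0)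
    (hy : (X.d.map C.ρ).mulVec (C.ρ ∘ y) = 0), X.d.mulVec u = C.t • y + C.N • z ∧
    cl (X.d.map C.ρ) (C.ρ ∘ u) hu = x ∧ cl (X.d.map C.ρ) (C.ρ ∘ y) hy = a

private lemma RCon_comp_sub (C : RC S Rb) (u v : I → S) : C.ρ ∘ (u - v) = C.ρ ∘ u - C.ρ ∘ v := by
  funext i
  simp only [Function.comp_apply, Pi.sub_apply, map_sub]

private lemma RCon_comp_add (C : RC S Rb) (u v : I → S) : C.ρ ∘ (u + v) = C.ρ ∘ u + C.ρ ∘ v := by
  funext i
  simp only [Function.comp_apply, Pi.add_apply, map_add]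

private lemma RCon_comp_smul (C : RC S Rb) (s : S) (v : I → S) :
    C.ρ ∘ (s • v) = C.ρ s • (C.ρ ∘ v) := by
  funext i
  simp only [Function.comp_apply, Pi.smul_apply, smul_eq_mul, map_mul]

private lemma RCon_key (h1 : S_RVec) (C : RC S Rb) (X : TC S I C.t) (u y z : I → S)
    (huyz : X.d.mulVec u = C.t • y + C.N • z)
    (h : ∃ v, (X.d.map C.ρ).mulVec v = C.ρ ∘ u) : ∃ v, (X.d.map C.ρ).mulVec v = C.ρ ∘ y := by
  obtain ⟨hlift, hker, hkt, -, hsep, hmul, -, -⟩ := h1 S Rb I C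
  obtain ⟨v, hv⟩ := h
  obtain ⟨v', rfl⟩ := hlift v
  have e1 : C.ρ ∘ (u - X.d.mulVec v') = 0 := by
    rw [RCon_comp_sub, hmul, ← hv, sub_self]
  obtain ⟨a, b, hab⟩ := hker _ e1
  have dd : ∀ w, X.d.mulVec (X.d.mulVec w) = 0 := by
    intro w
    rw [Matrix.mulVec_mulVec, X.dd, Matrix.zero_mulVec]
  have e2 : X.d.mulVec u = C.t • X.d.mulVec a + C.N • X.d.mulVec b := by
    have h3 := congrArg X.d.mulVec hab
    rw [Matrix.mulVec_sub, dd, sub_zero, Matrix.mulVec_add, Matrix.mulVec_smul,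
      Matrix.mulVec_smul] at h3
    exact h3
  have e3 : C.t • (y - X.d.mulVec a) = C.N • (X.d.mulVec b - z) := by
    rw [smul_sub, smul_sub, sub_eq_sub_iff_add_eq_add, ← huyz, e2, add_comm]
  obtain ⟨b', hb'⟩ := hkt _ (hsep _ _ e3)
  refine ⟨C.ρ ∘ a, ?_⟩
  have e5 : y = X.d.mulVec a + C.N • b' := by
    rw [← hb']
    abel
  rw [e5, RCon_comp_add, RCon_comp_smul, C.ρN, zero_smul, add_zero, hmul]

private lemma RCon_fun (h1 : S_RVec) (C : RC S Rb) (X : TC S I C.t) (x a b : Hm (X.d.map C.ρ))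
    (ha : RCon_Q C X x a) (hb : RCon_Q C X x b) : a = b := by
  obtain ⟨u, y, z, hu, hy, e, hx, rfl⟩ := ha
  obtain ⟨u', y', z', hu', hy', e', hx', rfl⟩ := hb
  rw [cl_eq_iff]
  have h3 := hx.trans hx'.symm
  rw [cl_eq_iff] at h3
  obtain ⟨v, hv⟩ := h3
  obtain ⟨w, hw⟩ := RCon_key h1 C X (u - u') (y - y') (z - z') (by
    rw [Matrix.mulVec_sub, e, e', smul_sub, smul_sub]
    abel) ⟨v, by rw [hv, RCon_comp_sub]⟩
  exact ⟨w, by rw [hw, RCon_comp_sub]⟩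

private lemma RCon_tot (h2 : S_RCyc) (C : RC S Rb) (X : TC S I C.t) (x : Hm (X.d.map C.ρ)) :
    ∃ a, RCon_Q C X x a := by
  obtain ⟨hcyc, hex⟩ := h2 S Rb I C X
  obtain ⟨v, hv, rfl⟩ := cl_surj _ x
  obtain ⟨u, y, z, rfl, e⟩ := hex v hv
  obtain ⟨hu, hy, -⟩ := hcyc u y z e
  exact ⟨_, u, y, z, hu, hy, e, rfl, rfl⟩

private lemma RCon_add (C : RC S Rb) (X : TC S I C.t) (x a x' a' : Hm (X.d.map C.ρ))
    (h : RCon_Q C X x a) (h' : RCon_Q C X x' a') : RCon_Q C X (x + x') (a + a') := by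
  obtain ⟨u, y, z, hu, hy, e, rfl, rfl⟩ := h
  obtain ⟨u', y', z', hu', hy', e', rfl, rfl⟩ := h'
  have k1 : (X.d.map C.ρ).mulVec (C.ρ ∘ u + C.ρ ∘ u') = 0 := by
    rw [Matrix.mulVec_add, hu, hu', add_zero]
  have k2 : (X.d.map C.ρ).mulVec (C.ρ ∘ y + C.ρ ∘ y') = 0 := by
    rw [Matrix.mulVec_add, hy, hy', add_zero]
  refine ⟨u + u', y + y', z + z', by rw [RCon_comp_add]; exact k1,
    by rw [RCon_comp_add]; exact k2, ?_, ?_, ?_⟩
  · rw [Matrix.mulVec_add, e, e', smul_add, smul_add]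
    abel
  · rw [← cl_add hu hu' k1]
    exact cl_congr (RCon_comp_add C u u')
  · rw [← cl_add hy hy' k2]
    exact cl_congr (RCon_comp_add C y y')

private lemma RCon_smul (C : RC S Rb) (X : TC S I C.t) (r : Rb) (x a : Hm (X.d.map C.ρ))
    (h : RCon_Q C X x a) : RCon_Q C X (r • x) (r • a) := by
  obtain ⟨u, y, z, hu, hy, e, rfl, rfl⟩ := h
  obtain ⟨s, rfl⟩ := C.surj r
  have k1 : (X.d.map C.ρ).mulVec (C.ρ s • (C.ρ ∘ u)) = 0 := by
    rw [Matrix.mulVec_smul, hu, smul_zero]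
  have k2 : (X.d.map C.ρ).mulVec (C.ρ s • (C.ρ ∘ y)) = 0 := by
    rw [Matrix.mulVec_smul, hy, smul_zero]
  refine ⟨s • u, s • y, s • z, by rw [RCon_comp_smul]; exact k1,
    by rw [RCon_comp_smul]; exact k2, ?_, ?_, ?_⟩
  · rw [Matrix.mulVec_smul, e, smul_add, smul_comm s C.t, smul_comm s C.N]
  · rw [← cl_smul (C.ρ s) hu k1]
    exact cl_congr (RCon_comp_smul C s u)
  · rw [← cl_smul (C.ρ s) hy k2]
    exact cl_congr (RCon_comp_smul C s y)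

end

theorem sRCon (h1 : S_RVec) (h2 : S_RCyc) : S_RCon := by
  intro S Rb I _ _ _ _ C X
  choose W hW using RCon_tot h2 C X
  refine ⟨⟨⟨W, fun x y => ?_⟩, fun r x => ?_⟩, fun u y z e => ?_⟩
  · exact RCon_fun h1 C X _ _ _ (hW (x + y)) (RCon_add C X _ _ _ _ (hW x) (hW y))
  · exact RCon_fun h1 C X _ _ _ (hW (r • x)) (RCon_smul C X r _ _ (hW x))
  · obtain ⟨hu, hy, -⟩ := (h2 S Rb I C X).1 u y z e
    exact ⟨hu, hy, RCon_fun h1 C X _ _ _ (hW _) ⟨u, y, z, hu, hy, e, rfl, rfl⟩⟩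

end HSp
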