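import Pool.Agent.Lib.MP_181146_gt.HS.SpecR

/-! Module RCos: the group ring modulo g - 1. -/

set_option autoImplicit false

namespace HSp

section

variable {O G : Type} [CommRing O] [CommGroup G]

/-- the additive section -/
private noncomputable def RCos_tau (O : Type) [CommRing O] (g : G) :
    MonoidAlgebra O (G ⧸ Subgroup.zpowers g) →+ MonoidAlgebra O G where
  toFun := MonoidAlgebra.mapDomain (Quotient.out : G ⧸ Subgroup.zpowers g → G)
  map_zero' := MonoidAlgebra.mapDomain_zero _
  map_add' := MonoidAlgebra.mapDomain_add _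

private lemma RCos_tau_single (g : G) (c : G ⧸ Subgroup.zpowers g) (a : O) :
    RCos_tau O g (MonoidAlgebra.single c a) = MonoidAlgebra.single c.out a :=
  MonoidAlgebra.mapDomain_single

private lemma RCos_out [Finite G] (g h : G) :
    ∃ i : ℕ, h = (h : G ⧸ Subgroup.zpowers g).out * g ^ i := by
  obtain ⟨z, hz⟩ := QuotientGroup.mk_out_eq_mul (Subgroup.zpowers g) h
  have h1 : (z : G)⁻¹ ∈ Subgroup.zpowers g := (Subgroup.zpowers g).inv_mem z.2
  obtain ⟨i, hi⟩ := mem_powers_iff_mem_zpowers.2 h1
  change g ^ i = _ at hi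
  exact ⟨i, by rw [hi, hz, mul_inv_cancel_right]⟩

private lemma RCos_dec [Finite G] (g : G) (x : MonoidAlgebra O G) :
    ∃ y : MonoidAlgebra O G, x = (MonoidAlgebra.of O G g - 1) * y +
      RCos_tau O g
        (MonoidAlgebra.mapDomainRingHom O (QuotientGroup.mk' (Subgroup.zpowers g)) x) := by
  induction x using MonoidAlgebra.induction_linear with
  | zero => exact ⟨0, by rw [map_zero, map_zero, mul_zero, add_zero]⟩
  | add x y hx hy =>
    obtain ⟨x', hx⟩ := hx
    obtain ⟨y', hy⟩ := hy
    refine ⟨x' + y', ?_⟩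
    rw [map_add, map_add, mul_add]
    calc x + y = _ + _ := congrArg₂ (· + ·) hx hy
      _ = _ := by ring
  | single h a =>
    obtain ⟨i, hi⟩ := RCos_out g h
    have h1 : MonoidAlgebra.mapDomainRingHom O (QuotientGroup.mk' (Subgroup.zpowers g))
        (MonoidAlgebra.single h a) =
        MonoidAlgebra.single (h : G ⧸ Subgroup.zpowers g) a := MonoidAlgebra.mapDomain_single
    refine ⟨(∑ j ∈ Finset.range i, MonoidAlgebra.of O G g ^ j) *
      MonoidAlgebra.single ((h : G ⧸ Subgroup.zpowers g).out) a, ?_⟩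
    rw [h1, RCos_tau_single, ← mul_assoc, mul_geom_sum, ← map_pow, sub_mul, one_mul,
      sub_add_cancel, MonoidAlgebra.of_apply, MonoidAlgebra.single_mul_single, one_mul, mul_comm,
      ← hi]

/-- the coefficients of a multiple of the norm element -/
private lemma RCos_coeff (g : G) (n : ℕ) (x : MonoidAlgebra O G) (h : G) :
    ((∑ i ∈ Finset.range n, MonoidAlgebra.of O G g ^ i) * x).coeff h =
      ∑ i ∈ Finset.range n, x.coeff ((g ^ i)⁻¹ * h) := by
  rw [Finset.sum_mul, MonoidAlgebra.coeff_sum, Finsupp.finsetSum_apply]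
  refine Finset.sum_congr rfl fun i _ => ?_
  rw [← map_pow, MonoidAlgebra.of_apply, MonoidAlgebra.coeff_single_mul_apply, one_mul]

private lemma RCos_mk (g : G) (i : ℕ) (h : G) :
    (((g ^ i)⁻¹ * h : G) : G ⧸ Subgroup.zpowers g) = (h : G ⧸ Subgroup.zpowers g) := by
  rw [QuotientGroup.eq]
  have h1 : ((g ^ i)⁻¹ * h)⁻¹ * h = g ^ i := by
    rw [mul_inv_rev, inv_inv, mul_comm h⁻¹, mul_assoc, inv_mul_cancel, mul_one]
  rw [h1]
  exact Subgroup.npow_mem_zpowers g i

end

theorem sRCos : S_RCos := by
  intro O G _ _ _ g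
  classical
  have hn : 0 < orderOf g := orderOf_pos g
  have h4 : (MonoidAlgebra.of O G g - 1) *
      (∑ i ∈ Finset.range (orderOf g), MonoidAlgebra.of O G g ^ i) = 0 := by
    rw [mul_geom_sum, ← map_pow, pow_orderOf_eq_one, map_one, sub_self]
  refine ⟨⟨RCos_tau O g, RCos_dec g⟩, ?_, ?_, h4, ?_⟩
  · intro x hx
    have h1 : MonoidAlgebra.of O G g * x = x := by
      rw [sub_mul, one_mul, sub_eq_zero] at hx
      exact hx
    have h2 : ∀ y : G, x.coeff (g * y) = x.coeff y := by
      intro y
      have h := congrArg (fun z : MonoidAlgebra O G => z.coeff (g * y)) h1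
      simp only [MonoidAlgebra.of_apply, MonoidAlgebra.coeff_single_mul_apply] at h
      simpa using h.symm
    have h3 : ∀ (i : ℕ) (y : G), x.coeff (y * g ^ i) = x.coeff y := by
      intro i y
      induction i with
      | zero => rw [pow_zero, mul_one]
      | succ i ih => rw [pow_succ, ← mul_assoc, mul_comm, h2, ih]
    refine ⟨.ofCoeff (Finsupp.equivFunOnFinite.symm fun h =>
      if h = (h : G ⧸ Subgroup.zpowers g).out then x.coeff h else 0), ?_⟩
    ext h
    rw [RCos_coeff]
    simp only [Finsupp.equivFunOnFinite_symm_apply_apply, RCos_mk]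
    obtain ⟨i, hi⟩ := RCos_out g h
    obtain ⟨c, hc⟩ : ∃ c, c = (h : G ⧸ Subgroup.zpowers g).out := ⟨_, rfl⟩
    rw [← hc] at hi ⊢
    have hi' : h = c * g ^ (i % orderOf g) := by rw [pow_mod_orderOf]; exact hi
    have hlt : i % orderOf g < orderOf g := Nat.mod_lt _ hn
    rw [Finset.sum_eq_single (i % orderOf g)]
    · have h5 : (g ^ (i % orderOf g))⁻¹ * h = c := by
        rw [hi', mul_comm c, inv_mul_cancel_left]
      rw [h5, if_pos rfl, hi, h3]
    · intro j hj hne
      rw [if_neg]
      intro h6
      apply hne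
      have h7 : g ^ j = g ^ (i % orderOf g) := by
        have h8 : h = c * g ^ j := by rw [← h6, mul_comm, mul_inv_cancel_left]
        rw [hi'] at h8
        exact (mul_left_cancel h8).symm
      exact pow_injOn_Iio_orderOf (by simpa using hj) (by simpa using hlt) h7
    · intro h6
      exact absurd (Finset.mem_range.2 hlt) h6
  · intro x hx
    obtain ⟨y, hy⟩ := RCos_dec g x
    obtain ⟨z, hz⟩ : ∃ z, z =
      MonoidAlgebra.mapDomainRingHom O (QuotientGroup.mk' (Subgroup.zpowers g)) x := ⟨_, rfl⟩
    rw [← hz] at hy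
    have h1 : (∑ i ∈ Finset.range (orderOf g), MonoidAlgebra.of O G g ^ i) * RCos_tau O g z = 0 := by
      rw [hy, mul_add, ← mul_assoc, mul_comm _ (MonoidAlgebra.of O G g - 1), h4, zero_mul,
        zero_add] at hx
      exact hx
    have hinj : Function.Injective (Quotient.out : G ⧸ Subgroup.zpowers g → G) :=
      Quotient.out_injective
    have h2 : z = 0 := by
      ext c
      have h3 := congrArg (fun u : MonoidAlgebra O G => u.coeff c.out) h1
      simp only [RCos_coeff] at h3
      rw [Finset.sum_eq_single 0] at h3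
      · rw [pow_zero, inv_one, one_mul] at h3
        have h5 : (RCos_tau O g z).coeff c.out = z.coeff c := Finsupp.mapDomain_apply hinj _ _
        rw [h5] at h3
        exact h3
      · intro j hj hne
        refine Finsupp.mapDomain_of_notMem_range _ _ ?_
        rintro ⟨c', hc'⟩
        apply hne
        have h6 : c' = c := by
          have h7 := congrArg (fun u : G => (u : G ⧸ Subgroup.zpowers g)) hc'
          simp only [RCos_mk, QuotientGroup.out_eq'] at h7
          exact h7
        rw [h6] at hc'
        have h8 : g ^ j = g ^ 0 := by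
          rw [pow_zero]
          have h9 : (g ^ j)⁻¹ = 1 := mul_eq_right.1 hc'.symm
          exact inv_eq_one.1 h9
        exact pow_injOn_Iio_orderOf (by simpa using hj) (by simpa using hn) h8
      · intro h6
        exact absurd (Finset.mem_range.2 hn) h6
    refine ⟨y, ?_⟩
    rw [h2, map_zero, add_zero] at hy
    exact hy
  · refine ⟨∑ i ∈ Finset.range (orderOf g), ∑ j ∈ Finset.range i, MonoidAlgebra.of O G g ^ j, ?_⟩
    rw [Finset.mul_sum]
    simp only [mul_geom_sum]
    rw [Finset.sum_sub_distrib, Finset.sum_const, Finset.card_range, nsmul_eq_mul, mul_one]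
    ring

end HSp
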