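import Pool.Agent.Lib.MP_181146_gt.HS.SpecR

/-!
# Project HS, third part: cycles of `F`
-/

set_option autoImplicit false

namespace HSp

theorem sRCyc (h1 : S_RVec) : S_RCyc := by
  intro S Rb I _ _ _ _ C X
  obtain ⟨v1, v2, v3, v4, v5, v6, -, v8⟩ := h1 S Rb I C
  have hdd : ∀ u : I → S, X.d.mulVec (X.d.mulVec u) = 0 := by
    intro u
    rw [Matrix.mulVec_mulVec, X.dd, Matrix.zero_mulVec]
  have hdh : ∀ u : I → S, X.d.mulVec (X.h.mulVec u) = C.t • u - X.h.mulVec (X.d.mulVec u) := by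
    intro u
    have h := congrArg (fun M : Matrix I I S => M.mulVec u) X.dh
    simp only [Matrix.add_mulVec, ← Matrix.mulVec_mulVec, Matrix.smul_mulVec,
      Matrix.one_mulVec] at h
    exact eq_sub_of_add_eq h
  have hρ0 : ∀ y z : I → S, C.ρ ∘ (C.t • y + C.N • z) = 0 := fun y z => (v8 y z).1
  refine ⟨?_, ?_⟩
  · intro u y z hu
    have hzero : C.t • X.d.mulVec y + C.N • X.d.mulVec z = 0 := by
      rw [← Matrix.mulVec_smul, ← Matrix.mulVec_smul, ← Matrix.mulVec_add, ← hu, hdd]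
    have ht : C.t • X.d.mulVec y = 0 := by
      refine v5 (X.d.mulVec y) (-X.d.mulVec z) ?_
      rw [smul_neg]
      exact eq_neg_of_add_eq_zero_left hzero
    have hN : C.N • X.d.mulVec z = 0 := by
      rw [ht, zero_add] at hzero
      exact hzero
    obtain ⟨b, hb⟩ := v3 _ ht
    obtain ⟨y', hy'⟩ := v4 _ hN
    refine ⟨?_, ?_, ?_, ⟨y', hy'⟩, ?_, b, hb, ?_⟩
    · rw [← v6, hu, hρ0]
    · rw [← v6, hb]
      have h := hρ0 0 b
      rw [smul_zero, zero_add] at h
      exact h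
    · rw [← v6, hy']
      have h := hρ0 y' 0
      rw [smul_zero, add_zero] at h
      exact h
    · rw [hdh, hu, Matrix.mulVec_add, Matrix.mulVec_smul, Matrix.mulVec_smul, smul_sub, smul_neg]
      abel
    · rw [Matrix.mulVec_sub, hu, hdh, hb, Matrix.mulVec_smul, smul_add]
      abel
  · intro x hx
    obtain ⟨u, hu⟩ := v1 x
    have h2 : C.ρ ∘ X.d.mulVec u = 0 := by
      rw [v6, hu, hx]
    obtain ⟨a, b, hab⟩ := v2 _ h2
    exact ⟨u, a, b, hu, hab⟩

end HSp
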