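import Pool.Agent.Lib.MP_181146_gt.HS.SpecR

/-!
# Project HS: RDInst

The augmentation of a group ring, two derivations along it and their second order companion: the four
coordinates of a ring homomorphism into `k[x, y]/(x², y²)`, which maps `h` to
`(1 + χ1 h x) (1 + χ2 h y)`.
-/

set_option autoImplicit false

namespace HSp

/-- The ring `k[x, y]/(x², y²)`. -/
private abbrev RDInst_J (k : Type) [CommRing k] : Type := DualNumber (DualNumber k)

private lemma RDInst_comm {k : Type} [CommRing k] (x y : RDInst_J k) : x * y = y * x := by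
  ext
  · simp [mul_comm]
  · simp [mul_comm, add_comm]
  · simp [mul_comm, add_comm]
  · simp [mul_comm, add_comm]

private lemma RDInst_cm {k A B : Type} [CommRing k] (f : A → RDInst_J k) (g : B → RDInst_J k)
    (x : A) (y : B) : Commute (f x) (g y) := RDInst_comm _ _

private def RDInst_g1 {G k : Type} [CommGroup G] [CommRing k] (χ : G →* Multiplicative k) :
    G →* RDInst_J k where
  toFun h := TrivSqZeroExt.inl (TrivSqZeroExt.inl 1 +
    TrivSqZeroExt.inr (Multiplicative.toAdd (χ h)))
  map_one' := by
    rw [map_one, toAdd_one, TrivSqZeroExt.inr_zero, add_zero, TrivSqZeroExt.inl_one,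
      TrivSqZeroExt.inl_one]
  map_mul' a b := by
    rw [← TrivSqZeroExt.inl_mul]
    congr 1
    rw [map_mul, toAdd_mul]
    ext
    · simp
    · simp [add_comm]

private def RDInst_g2 {G k : Type} [CommGroup G] [CommRing k] (χ : G →* Multiplicative k) :
    G →* RDInst_J k where
  toFun h := TrivSqZeroExt.inl 1 +
    TrivSqZeroExt.inr (TrivSqZeroExt.inl (Multiplicative.toAdd (χ h)))
  map_one' := by
    rw [map_one, toAdd_one, TrivSqZeroExt.inl_zero, TrivSqZeroExt.inr_zero, add_zero,
      TrivSqZeroExt.inl_one]
  map_mul' a b := by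
    rw [map_mul, toAdd_mul]
    ext
    · simp
    · simp
    · simp [add_comm]
    · simp

private def RDInst_g {G k : Type} [CommGroup G] [CommRing k] (χ1 χ2 : G →* Multiplicative k) :
    G →* RDInst_J k where
  toFun h := RDInst_g1 χ1 h * RDInst_g2 χ2 h
  map_one' := by rw [map_one, map_one, mul_one]
  map_mul' a b := by
    rw [map_mul, map_mul, mul_assoc, mul_assoc, ← mul_assoc (RDInst_g1 χ1 b),
      RDInst_comm (RDInst_g1 χ1 b) (RDInst_g2 χ2 a), mul_assoc]

private noncomputable def RDInst_Φ {O G k : Type} [CommRing O] [CommRing k] [CommGroup G] (ε0 : O →+* k)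
    (χ1 χ2 : G →* Multiplicative k) : MonoidAlgebra O G →+* RDInst_J k :=
  MonoidAlgebra.liftNCRingHom
    (((TrivSqZeroExt.inlHom (DualNumber k) (DualNumber k)).comp
      (TrivSqZeroExt.inlHom k k)).comp ε0)
    (RDInst_g χ1 χ2) (RDInst_cm _ _)

private lemma RDInst_single {O G k : Type} [CommRing O] [CommRing k] [CommGroup G] (ε0 : O →+* k)
    (χ1 χ2 : G →* Multiplicative k) (h : G) (a : O) :
    RDInst_Φ ε0 χ1 χ2 (MonoidAlgebra.single h a) =
      TrivSqZeroExt.inl (TrivSqZeroExt.inl (ε0 a)) *
        (TrivSqZeroExt.inl (TrivSqZeroExt.inl 1 +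
          TrivSqZeroExt.inr (Multiplicative.toAdd (χ1 h))) *
        (TrivSqZeroExt.inl 1 +
          TrivSqZeroExt.inr (TrivSqZeroExt.inl (Multiplicative.toAdd (χ2 h))))) := by
  exact MonoidAlgebra.liftNCRingHom_single _ _ _ _ _

theorem sRDInst : S_RDInst := by
  intro O k G _ _ _ ε0 χ1 χ2
  let Φ := RDInst_Φ ε0 χ1 χ2
  let R : RD (MonoidAlgebra O G) k :=
    { ε := ((TrivSqZeroExt.fstHom k k k).toRingHom.comp
        (TrivSqZeroExt.fstHom (DualNumber k) (DualNumber k) (DualNumber k)).toRingHom).comp Φ
      δ1 :=
        { toFun := fun x => (Φ x).fst.snd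
          map_zero' := by simp
          map_add' := fun x y => by simp }
      δ2 :=
        { toFun := fun x => (Φ x).snd.fst
          map_zero' := by simp
          map_add' := fun x y => by simp }
      δ12 :=
        { toFun := fun x => (Φ x).snd.snd
          map_zero' := by simp
          map_add' := fun x y => by simp }
      der1 := fun x y => by
        simp
        ring
      der2 := fun x y => by
        simp
        ring
      der12 := fun x y => by
        simp
        ring }
  refine ⟨R, fun h a => ⟨?_, ?_, ?_, ?_⟩⟩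
  · change (Φ (MonoidAlgebra.single h a)).fst.fst = _
    rw [RDInst_single]
    simp
  · change (Φ (MonoidAlgebra.single h a)).fst.snd = _
    rw [RDInst_single]
    simp
  · change (Φ (MonoidAlgebra.single h a)).snd.fst = _
    rw [RDInst_single]
    simp
  · change (Φ (MonoidAlgebra.single h a)).snd.snd = _
    rw [RDInst_single]
    simp

end HSp
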