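import Pool.Agent.Lib.MP_181146_gt.HS.SpecR

/-! Module RDer: product rules for matrices. -/

set_option autoImplicit false

namespace HSp

theorem sRDer : S_RDer := by
  intro S k I _ _ _ R A B
  refine ⟨Matrix.map_mul, ?_, ?_, ?_⟩
  · ext i j
    simp only [Matrix.map_apply, Matrix.mul_apply, Matrix.add_apply, map_sum, R.der1,
      Finset.sum_add_distrib]
  · ext i j
    simp only [Matrix.map_apply, Matrix.mul_apply, Matrix.add_apply, map_sum, R.der2,
      Finset.sum_add_distrib]
  · ext i j
    simp only [Matrix.map_apply, Matrix.mul_apply, Matrix.add_apply, map_sum, R.der12,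
      Finset.sum_add_distrib]

end HSp
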