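import Pool.Agent.Lib.MP_181146_gt.HS.SpecR

set_option autoImplicit false

namespace HSp

private theorem REP_rk {k A B : Type} [Field k] [AddCommGroup A] [Module k A] [AddCommGroup B]
    [Module k B] (K : Submodule k A) [FiniteDimensional k A] (N : Submodule k B)
    (g : K →ₗ[k] B ⧸ N) : Module.finrank k (LinearMap.range g) +
      Module.finrank k (LinearMap.ker g) = Module.finrank k K :=
  LinearMap.finrank_range_add_finrank_ker g

private theorem REP_half {k I : Type} [Field k] [Fintype I] [DecidableEq I]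
    (D q0 q1 : Matrix I I k) (DD : D * D = 0) (h0 : q0 * q0 = q0)
    (h01 : D * q0 = q1 * D) (h10 : D * q1 = q0 * D) (P0 : Pres D q0) :
    q0.rank = Module.finrank k (LinearMap.range (ind D q0 P0)) +
      Module.finrank k ((LinearMap.range q1.mulVecLin).map D.mulVecLin) +
      Module.finrank k ((LinearMap.range q0.mulVecLin).map D.mulVecLin) := by
  have hq : ∀ x, q0.mulVec (q0.mulVec x) = q0.mulVec x := fun x => by
    rw [Matrix.mulVec_mulVec, h0]
  have hDD : ∀ x, D.mulVec (D.mulVec x) = 0 := fun x => by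
    rw [Matrix.mulVec_mulVec, DD, Matrix.zero_mulVec]
  have hD0 : ∀ x, D.mulVec (q0.mulVec x) = q1.mulVec (D.mulVec x) := fun x => by
    rw [Matrix.mulVec_mulVec, Matrix.mulVec_mulVec, h01]
  have hD1 : ∀ x, D.mulVec (q1.mulVec x) = q0.mulVec (D.mulVec x) := fun x => by
    rw [Matrix.mulVec_mulVec, Matrix.mulVec_mulVec, h10]
  let V0 : Submodule k (I → k) := LinearMap.range q0.mulVecLin
  have hV : ∀ x ∈ V0, q0.mulVec x = x := by
    rintro x ⟨y, rfl⟩
    exact hq y
  let R : V0 →ₗ[k] (I → k) := D.mulVecLin.domRestrict V0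
  have e1 := LinearMap.finrank_range_add_finrank_ker R
  have e2 : LinearMap.range R = V0.map D.mulVecLin := LinearMap.range_domRestrict _ _
  let i : LinearMap.ker R →ₗ[k] (I → k) := V0.subtype ∘ₗ (LinearMap.ker R).subtype
  have hi : ∀ x, i x ∈ Zc D := fun x => x.2
  have hii : Function.Injective i := fun x y h => Subtype.ext (Subtype.ext h)
  let g : LinearMap.ker R →ₗ[k] Hm D := (Bc D).mkQ ∘ₗ (i.codRestrict (Zc D) hi)
  have hi' : ∀ x, D.mulVec (i x) = 0 := fun x => x.2
  have hg : ∀ x, g x = cl D (i x) (hi' x) := fun x => rfl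
  have e3 : Module.finrank k (LinearMap.range g) + Module.finrank k (LinearMap.ker g) =
      Module.finrank k (LinearMap.ker R) := REP_rk (LinearMap.ker R) (Bc D) g
  have e4 : LinearMap.range g = LinearMap.range (ind D q0 P0) := by
    apply le_antisymm
    · rintro _ ⟨x, rfl⟩
      refine ⟨g x, ?_⟩
      rw [hg, ind_cl]
      exact cl_congr (hV _ x.1.2)
    · rintro _ ⟨y, rfl⟩
      obtain ⟨x, hx, rfl⟩ := cl_surj D y
      refine ⟨⟨⟨q0.mulVec x, ⟨x, rfl⟩⟩, P0.1 x hx⟩, ?_⟩
      rw [hg, ind_cl]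
      exact cl_congr rfl
  have e5 : LinearMap.range (i ∘ₗ (LinearMap.ker g).subtype) =
      (LinearMap.range q1.mulVecLin).map D.mulVecLin := by
    apply le_antisymm
    · rintro _ ⟨⟨x, hx⟩, rfl⟩
      rw [LinearMap.mem_ker, hg, cl_zero_iff] at hx
      obtain ⟨v, hv⟩ := hx
      refine ⟨q1.mulVec v, ⟨v, rfl⟩, ?_⟩
      change D.mulVec (q1.mulVec v) = i x
      rw [hD1, hv]
      exact hV _ x.1.2
    · rintro _ ⟨_, ⟨v, rfl⟩, rfl⟩
      have h2 : D.mulVec (q1.mulVec v) = q0.mulVec (D.mulVec v) := hD1 v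
      let z : LinearMap.ker R := ⟨⟨D.mulVec (q1.mulVec v), ⟨D.mulVec v, h2.symm⟩⟩, hDD _⟩
      have hz : z ∈ LinearMap.ker g := by
        rw [LinearMap.mem_ker, hg, cl_zero_iff]
        exact ⟨q1.mulVec v, rfl⟩
      exact ⟨⟨z, hz⟩, rfl⟩
  have e6 : Module.finrank k (LinearMap.range (i ∘ₗ (LinearMap.ker g).subtype)) =
      Module.finrank k (LinearMap.ker g) :=
    LinearMap.finrank_range_of_inj (hii.comp Subtype.val_injective)
  rw [e5] at e6
  rw [e4] at e3
  rw [e2] at e1
  change Module.finrank k V0 = _ + _ + Module.finrank k (V0.map D.mulVecLin)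
  omega

theorem sREP : S_REP := by
  intro k I _ _ _ D q0 q1 DD h0 h1 h01 h10 P0 P1
  have a := REP_half D q0 q1 DD h0 h01 h10 P0
  have b := REP_half D q1 q0 DD h1 h10 h01 P1
  omega

end HSp
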