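import Pool.Agent.Lib.MP_181146_gt.HS.SpecR

/-!
# Project HS, RFin: the relative result for a graded complex
-/

set_option autoImplicit false

namespace HSp

private lemma RFin_cs {A : Type} [CommRing A] {r : ℕ → ℕ} {D : ℕ} (t : A) (x : TI r D → A)
    (i : ℕ) : cmpT D (t • x) i = t • cmpT D x i := by
  funext a
  unfold cmpT
  by_cases h : i < D + 1
  · simp [h]
  · simp [h]

private lemma RFin_ca {A : Type} [CommRing A] {r : ℕ → ℕ} {D : ℕ} (x y : TI r D → A) (i : ℕ) :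
    cmpT D (x + y) i = cmpT D x i + cmpT D y i := by
  funext a
  unfold cmpT
  by_cases h : i < D + 1
  · simp [h]
  · simp [h]

private lemma RFin_c0 {A : Type} [CommRing A] {r : ℕ → ℕ} {D : ℕ} (i : ℕ) :
    cmpT D (0 : TI r D → A) i = 0 := by
  funext a
  unfold cmpT
  by_cases h : i < D + 1
  · simp [h]
  · simp [h]

private lemma RFin_cf {A B : Type} [CommRing A] [CommRing B] {r : ℕ → ℕ} {D : ℕ} (f : A → B)
    (f0 : f 0 = 0) (x : TI r D → A) (i : ℕ) : cmpT D (f ∘ x) i = f ∘ cmpT D x i := by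
  funext a
  unfold cmpT
  by_cases h : i < D + 1
  · simp [h]
  · simp [h, f0]

private lemma RFin_f0 {A B I : Type} [CommRing A] [CommRing B] (f : A → B) (f0 : f 0 = 0) :
    f ∘ (0 : I → A) = 0 := by
  funext a
  exact f0

private lemma RFin_bm {A B : Type} [CommRing A] [CommRing B] {r : ℕ → ℕ} {D : ℕ} (f : A → B)
    (f0 : f 0 = 0) (e : Matrix (TI r D) (TI r D) A) (i : ℕ) :
    blkT D (e.map f) i = (blkT D e i).map f := by
  ext a b
  rw [Matrix.map_apply]
  unfold blkT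
  by_cases h : i < D + 1
  · rw [dif_pos h, dif_pos h]
    rfl
  · rw [dif_neg h, dif_neg h, f0]

private lemma RFin_pow {A : Type} [CommRing A] {r : ℕ → ℕ} {D : ℕ}
    (M : Matrix (TI r D) (TI r D) A) (hM : ∀ a b : TI r D, a.1.val ≠ b.1.val → M a b = 0)
    (m : ℕ) : ∀ a b : TI r D, a.1.val ≠ b.1.val → (M ^ m) a b = 0 := by
  induction m with
  | zero =>
    intro a b hab
    rw [pow_zero, Matrix.one_apply_ne]
    rintro rfl
    exact hab rfl
  | succ m ih =>
    intro a b hab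
    rw [pow_succ, Matrix.mul_apply]
    refine Finset.sum_eq_zero fun c _ => ?_
    by_cases hc : a.1.val = c.1.val
    · rw [hM c b (by rw [← hc]; exact hab), mul_zero]
    · rw [ih a c hc, zero_mul]

private lemma RFin_phi {S Rb : Type} [CommRing S] [CommRing Rb] {r : ℕ → ℕ} {D : ℕ}
    (C : RC S Rb) (X : TC S (TI r D) C.t) (hX : ∀ x, X.deg x = x.1.val) :
    ∀ a b : TI r D, a.1.val ≠ b.1.val → X.phi C a b = 0 := by
  intro a b hab
  unfold TC.phi
  rw [Matrix.sub_apply, Matrix.one_apply_ne (by rintro rfl; exact hab rfl), Matrix.mul_apply]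
  rw [Finset.sum_eq_zero, sub_zero]
  intro c _
  rw [Matrix.map_apply, Matrix.map_apply]
  by_cases h1 : X.deg a = X.deg c + 1
  · by_cases h2 : X.deg b = X.deg c + 1
    · rw [hX] at h1 h2
      exact absurd (h1.trans h2.symm) hab
    · rw [X.dl c b h2, map_zero, mul_zero]
  · rw [X.hr a c h1, map_zero, zero_mul]

private lemma RFin_fin {n : ℕ} [NeZero n] (Q : Type) [Finite Q] [CommGroup Q] :
    Finite (MonoidAlgebra (ZMod n) Q) := by
  have : Finite (Q →₀ ZMod n) := Finite.of_injective (fun f => (f : Q → ZMod n))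
    DFunLike.coe_injective
  exact Finite.of_injective MonoidAlgebra.coeff MonoidAlgebra.coeff_injective

/-- The relative part without the group rings. -/
private lemma RFin_rel (h1 : S_RTot) (h8 : S_RGrA) (h9 : S_RGrB) {S Rb : Type} [CommRing S]
    [CommRing Rb] (C : RC S Rb) (r : ℕ → ℕ) (D : ℕ) (r0 : r 0 = 0) (rD : ∀ i, D < i → r i = 0)
    (d : ∀ i, Matrix (Fin (r i)) (Fin (r (i + 1))) S) (X : TC S (TI r D) C.t)
    (hX : ∀ x, X.deg x = x.1.val) (hd : X.d = dT D d)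
    (m : ℕ) (hm : 0 < m) (he : X.phi C ^ m * X.phi C ^ m = X.phi C ^ m) :
      (∀ i, blkT D (X.phi C ^ m) i * blkT D (X.phi C ^ m) i = blkT D (X.phi C ^ m) i) ∧
      (∀ i, (d i).map C.ρ * blkT D (X.phi C ^ m) (i + 1) =
        blkT D (X.phi C ^ m) i * (d i).map C.ρ) ∧
      (∀ i (y : Fin (r (i + 1)) → Rb),
        (blkT D (X.phi C ^ m) (i + 1)).mulVec y = y → ((d i).map C.ρ).mulVec y = 0 →
        ∃ (x : Fin (r (i + 1)) → S) (z : Fin (r i) → S),
          (d i).mulVec x = C.N • z ∧ (blkT D (X.phi C ^ m) (i + 1)).mulVec (C.ρ ∘ x) = y) ∧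
      (∀ i (x : Fin (r (i + 1)) → S) (z : Fin (r i) → S) (w : Fin (r (i + 2)) → Rb),
        (d i).mulVec x = C.N • z →
        (blkT D (X.phi C ^ m) (i + 1)).mulVec (C.ρ ∘ x) = ((d (i + 1)).map C.ρ).mulVec w →
        ∃ (u : Fin (r (i + 2)) → S) (v : Fin (r (i + 1)) → S),
          x = (d (i + 1)).mulVec u + C.N • v) := by
  have ρ0 : C.ρ 0 = 0 := map_zero _
  obtain ⟨hch, hon, hin⟩ := h1 S Rb (TI r D) C X m hm he
  obtain ⟨b1, b2, b3, b4, b5⟩ := h9 Rb r D rD (X.phi C ^ m) (RFin_pow _ (RFin_phi C X hX) m)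
  have hS : ∀ (v : TI r D → S) (w : TI r D → S), (∀ i, cmpT D v i = cmpT D w i) → v = w :=
    (h9 S r D rD 0 (fun _ _ _ => rfl)).2.2.2.1
  have hS2 : ∀ (i : ℕ) (v : Fin (r i) → S), cmpT D (embT D i v) i = v :=
    (h9 S r D rD 0 (fun _ _ _ => rfl)).2.1
  have hS3 : ∀ (i j : ℕ) (v : Fin (r i) → S), j ≠ i → cmpT D (embT D i v) j = 0 :=
    (h9 S r D rD 0 (fun _ _ _ => rfl)).2.2.1
  have hdS : ∀ (x : TI r D → S) (i : ℕ), cmpT D (X.d.mulVec x) i =
      (d i).mulVec (cmpT D x (i + 1)) := by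
    rw [hd]
    exact (h8 S r D r0 rD d (fun _ => 0) 0).2.2.2.2.1
  have hdR : ∀ (x : TI r D → Rb) (i : ℕ), cmpT D ((X.d.map C.ρ).mulVec x) i =
      ((d i).map C.ρ).mulVec (cmpT D x (i + 1)) := by
    rw [hd, ((h8 S r D r0 rD d (fun _ => 0) 0).2.2.2.2.2 Rb C.ρ ρ0).1]
    exact (h8 Rb r D r0 rD (fun i => (d i).map C.ρ) (fun _ => 0) 0).2.2.2.2.1
  refine ⟨b5 he, fun i => ?_, fun i y hy hdy => ?_, fun i x z w hx hw => ?_⟩
  · refine Matrix.ext_of_mulVec_single fun j => ?_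
    have := congrArg (fun M => cmpT D (Matrix.mulVec M (embT D (i + 1) (Pi.single j 1))) i) hch
    rw [← Matrix.mulVec_mulVec, ← Matrix.mulVec_mulVec, hdR, b1, b1, hdR, b2] at this
    rw [← Matrix.mulVec_mulVec, ← Matrix.mulVec_mulVec]
    exact this
  · obtain ⟨x, z, hx, he'⟩ := hon (embT D (i + 1) y) (b4 _ _ fun j => by
      rw [b1]
      by_cases hj : j = i + 1
      · subst hj
        rw [b2, hy]
      · rw [b3 _ _ _ hj, Matrix.mulVec_zero]) (b4 _ _ fun j => by
      rw [hdR, RFin_c0]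
      by_cases hj : j = i
      · subst hj
        rw [b2, hdy]
      · rw [b3 _ _ _ (by omega), Matrix.mulVec_zero])
    refine ⟨cmpT D x (i + 1), cmpT D z i, ?_, ?_⟩
    · rw [← hdS, hx, RFin_cs]
    · rw [← RFin_cf C.ρ ρ0, ← b1, he', b2]
  · obtain ⟨u, v, huv⟩ := hin (embT D (i + 1) x) (embT D i z) (embT D (i + 2) w)
      (hS _ _ fun j => by
        rw [hdS, RFin_cs]
        by_cases hj : j = i
        · subst hj
          rw [hS2, hS2, hx]
        · rw [hS3 _ _ _ hj, hS3 _ _ _ (by omega), Matrix.mulVec_zero, smul_zero])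
      (b4 _ _ fun j => by
        rw [b1, hdR, RFin_cf C.ρ ρ0]
        by_cases hj : j = i + 1
        · subst hj
          rw [hS2, b2, hw]
        · rw [hS3 _ _ _ hj, b3 _ _ _ (by omega), RFin_f0 C.ρ ρ0, Matrix.mulVec_zero,
            Matrix.mulVec_zero])
    refine ⟨cmpT D u (i + 2), cmpT D v (i + 1), ?_⟩
    rw [← hdS, ← RFin_cs, ← RFin_ca, ← huv, hS2]

theorem sRFin (h1 : S_RTot) (h2 : S_RIdm) (h3 : S_RRank) (h4 : S_RInst) (h5 : S_RDInst)
    (h6 : S_RLocA) (h7 : S_RLocB) (h8 : S_RGrA) (h9 : S_RGrB) (h10 : S_RGrC) : S_RFin := by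
  intro O G _ _ _ p k _ hk hG q hq g g' hg χ hχ χ' hχ1 hχ2 r D r0 rD d h h' dd dh dh'
  have hp1 : 1 < p ^ k := Nat.one_lt_pow hk.ne' (Fact.out : p.Prime).one_lt
  obtain ⟨C, hCt, hCN, hCρ, hCσ⟩ := h4 O G g (p ^ k) hp1 hg q hq χ hχ
  have hA := h8 (MonoidAlgebra O G) r D r0 rD d h C.t
  have hA' := h8 (MonoidAlgebra O G) r D r0 rD d h' (MonoidAlgebra.of O G g' - 1)
  let X : TC (MonoidAlgebra O G) (TI r D) C.t :=
    { d := dT D d
      h := hT D h
      deg := fun x => x.1.val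
      dd := hA.1 dd
      dh := hA.2.1 (by rw [hCt]; exact dh)
      dl := hA.2.2.1
      hr := hA.2.2.2.1 }
  have : NeZero (p ^ k) := ⟨by omega⟩
  have hfin : Finite (MonoidAlgebra (ZMod (p ^ k)) (G ⧸ Subgroup.zpowers g)) := RFin_fin _
  obtain ⟨m, hm, he⟩ := h2 (MonoidAlgebra (ZMod (p ^ k)) (G ⧸ Subgroup.zpowers g)) (TI r D)
    (X.phi C)
  obtain ⟨c1, c2, c3, c4⟩ := RFin_rel h1 h8 h9 C r D r0 rD d X (fun _ => rfl) rfl m hm he
  obtain ⟨π, -, hπ, hπs⟩ := h6 p k hk (G ⧸ Subgroup.zpowers g) (hG.to_quotient _)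
  have hloc := fun i => h7 (MonoidAlgebra (ZMod (p ^ k)) (G ⧸ Subgroup.zpowers g)) (ZMod p) π hπ
    (r i) (blkT D (X.phi C ^ m) i) (c1 i)
  choose gk hgk hrk using hloc
  refine ⟨C, fun i => blkT D (X.phi C ^ m) i, gk, hCt, hCN, c1, c2, c3, c4, hgk, ?_⟩
  -- the Euler characteristic
  obtain ⟨R, hR⟩ := h5 O (ZMod p) G ((ZMod.castHom (dvd_pow_self p hk.ne') (ZMod p)).comp q)
    ((AddMonoidHom.toMultiplicative
      (ZMod.castHom (dvd_pow_self p hk.ne') (ZMod p)).toAddMonoidHom).comp χ) χ'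
  have hε : ∀ x, π (C.ρ x) = R.ε x := by
    have : π.toAddMonoidHom.comp C.ρ.toAddMonoidHom = R.ε.toAddMonoidHom := by
      refine MonoidAlgebra.addMonoidHom_ext fun x a => ?_
      change π (C.ρ _) = R.ε _
      rw [hCρ, hπs, (hR x a).1]
      rfl
    exact fun x => DFunLike.congr_fun this x
  have hδ : ∀ x, π (C.σ x) = R.δ1 x := by
    have : π.toAddMonoidHom.comp C.σ = R.δ1 := by
      refine MonoidAlgebra.addMonoidHom_ext fun x a => ?_
      change π (C.σ _) = R.δ1 _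
      rw [hCσ, hπs, (hR x a).2.1, map_mul]
      rfl
    exact fun x => DFunLike.congr_fun this x
  have hof : ∀ x : G, MonoidAlgebra.of O G x = MonoidAlgebra.single x 1 := fun x => rfl
  have hone : (1 : MonoidAlgebra O G) = MonoidAlgebra.single 1 1 := rfl
  have hphi : (X.phi C).map π = 1 - X.h.map R.ε * X.d.map R.δ1 := by
    unfold TC.phi
    rw [Matrix.map_sub π (map_sub π), Matrix.map_mul, Matrix.map_one π (map_zero π) (map_one π),
      Matrix.map_map, Matrix.map_map]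
    congr 2
    · ext a b
      exact hε _
    · ext a b
      exact hδ _
  have hpow : (X.phi C ^ m).map π = (1 - X.h.map R.ε * X.d.map R.δ1) ^ m := by
    rw [← hphi]
    exact map_pow π.mapMatrix (X.phi C) m
  have hrank := h3 (MonoidAlgebra O G) (ZMod p) (TI r D) R C.t (MonoidAlgebra.of O G g' - 1) X
    (hT D h') (hA'.2.1 dh') hA'.2.2.2.1
    (by rw [hCt, map_sub, map_one, hof, (hR g 1).1, map_one, sub_self])
    (by rw [map_sub, map_one, hof, (hR g' 1).1, map_one, sub_self])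
    (by rw [hCt, map_sub, hof, hone, (hR g 1).2.2.1, (hR 1 1).2.2.1, hχ1, map_one χ', sub_self])
    (by rw [map_sub, hof, hone, (hR g' 1).2.2.1, (hR 1 1).2.2.1, hχ2, map_one χ', map_one, toAdd_ofAdd,
          toAdd_one, mul_one, mul_zero, sub_zero]) m hm
    (by
      rw [← hpow, ← Matrix.map_mul, he])
  rw [← hpow] at hrank
  have hdeg : ∀ a b : TI r D, a.1.val ≠ b.1.val → (X.phi C ^ m).map π a b = 0 := by
    intro a b hab
    rw [Matrix.map_apply, RFin_pow _ (RFin_phi C X fun _ => rfl) m a b hab, map_zero]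
  have hct := h10 (ZMod p) r D rD ((X.phi C ^ m).map π) hdeg true
  have hcf := h10 (ZMod p) r D rD ((X.phi C ^ m).map π) hdeg false
  have hgr : ∀ i, (blkT D ((X.phi C ^ m).map π) i).rank = gk i := fun i => by
    rw [RFin_bm π (map_zero π), hrk]
  have hmain : ∑ i ∈ (Finset.range (D + 1)).filter (fun i => decide (Even i) = true), gk i =
      ∑ i ∈ (Finset.range (D + 1)).filter (fun i => decide (Even i) = false), gk i := by
    rw [← Finset.sum_congr rfl fun i _ => hgr i, ← hct]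
    rw [← Finset.sum_congr rfl fun i _ => hgr i, ← hcf]
    exact hrank
  rw [← Finset.sum_filter_add_sum_filter_not (Finset.range (D + 1))
    (fun i => decide (Even i) = true)]
  have e1 : ∑ i ∈ (Finset.range (D + 1)).filter (fun i => decide (Even i) = true),
      (-1 : ℤ) ^ i * (gk i : ℤ) =
      ((∑ i ∈ (Finset.range (D + 1)).filter (fun i => decide (Even i) = true), gk i : ℕ) : ℤ) := by
    rw [Nat.cast_sum]
    refine Finset.sum_congr rfl fun i hi => ?_
    have hi' : Even i := by simpa using (Finset.mem_filter.1 hi).2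
    rw [hi'.neg_one_pow, one_mul]
  have e2 : ∑ i ∈ (Finset.range (D + 1)).filter (fun i => ¬ decide (Even i) = true),
      (-1 : ℤ) ^ i * (gk i : ℤ) =
      -((∑ i ∈ (Finset.range (D + 1)).filter (fun i => decide (Even i) = false), gk i : ℕ) : ℤ) := by
    rw [Nat.cast_sum, ← Finset.sum_neg_distrib]
    refine Finset.sum_congr (Finset.filter_congr fun i _ => by simp) fun i hi => ?_
    have hi' : Odd i := by simpa using (Finset.mem_filter.1 hi).2
    rw [hi'.neg_one_pow, neg_one_mul]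
  rw [e1, e2, hmain, add_neg_cancel]

end HSp
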