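import Pool.Agent.Lib.MP_181146_gt.HS.SpecR

/-!
# Project HS, RGrB: matrices of degree `0`
-/

set_option autoImplicit false

namespace HSp

lemma RGrB_sum {A : Type} [CommRing A] {r : ℕ → ℕ} {D : ℕ} (i : ℕ) (h : i < D + 1)
    (f : TI r D → A) (hf : ∀ y : TI r D, y.1.val ≠ i → f y = 0) :
    ∑ y, f y = ∑ b : Fin (r i), f ⟨⟨i, h⟩, b⟩ := by
  rw [Fintype.sum_sigma]
  refine (Finset.sum_eq_single (⟨i, h⟩ : Fin (D + 1)) ?_ ?_).trans rfl
  · intro j _ hj
    refine Finset.sum_eq_zero fun b _ => hf _ ?_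
    intro h'
    exact hj (Fin.ext h')
  · intro h'
    exact absurd (Finset.mem_univ _) h'

lemma RGrB_elim {r : ℕ → ℕ} {D : ℕ} (rD : ∀ i, D < i → r i = 0) (i : ℕ) (h : ¬ i < D + 1)
    (a : Fin (r i)) : False := by
  have h1 := a.2
  have h2 := rD i (by omega)
  omega

theorem sRGrB : S_RGrB := by
  intro A _ r D rD e he
  refine ⟨?_, ?_, ?_, ?_, ?_⟩
  · intro x i
    funext a
    by_cases h : i < D + 1
    · unfold cmpT blkT
      simp only [h, dif_pos, Matrix.mulVec, dotProduct]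
      exact RGrB_sum i h (fun y => e ⟨⟨i, h⟩, a⟩ y * x y) fun y hy => by
        rw [he _ _ (Ne.symm hy), zero_mul]
    · exact (RGrB_elim rD i h a).elim
  · intro i v
    funext a
    by_cases h : i < D + 1
    · unfold cmpT embT
      simp [h]
    · exact (RGrB_elim rD i h a).elim
  · intro i j v hji
    funext a
    unfold cmpT embT
    by_cases h : j < D + 1
    · simp [h, hji]
    · simp [h]
  · intro x y hxy
    funext z
    obtain ⟨⟨i, h⟩, a⟩ := z
    have := congr_fun (hxy i) a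
    unfold cmpT at this
    simpa only [h, dif_pos] using this
  · intro hee i
    ext a b
    by_cases h : i < D + 1
    · have h1 := congrFun (congrFun hee ⟨⟨i, h⟩, a⟩) ⟨⟨i, h⟩, b⟩
      rw [Matrix.mul_apply] at h1 ⊢
      rw [RGrB_sum i h (fun y => e ⟨⟨i, h⟩, a⟩ y * e y ⟨⟨i, h⟩, b⟩) fun y hy => by
        rw [he _ _ (Ne.symm hy), zero_mul]] at h1
      unfold blkT
      simpa only [h, dif_pos] using h1
    · exact (RGrB_elim rD i h a).elim

end HSp
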