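import Pool.Agent.Lib.MP_181146_gt.HS.SpecR

set_option autoImplicit false

namespace HSp

private lemma RGrC_cmp {k : Type} [Field k] {r : ℕ → ℕ} (D : ℕ) (b : Bool) (x : TI r D → k)
    (i : ℕ) : cmpT D ((PP k (fun x : TI r D => x.1.val) b).mulVec x) i =
      if decide (Even i) = b then cmpT D x i else 0 := by
  funext a
  unfold cmpT PP
  by_cases h : i < D + 1
  · rw [dif_pos h, Matrix.mulVec_diagonal]
    by_cases hb : decide (Even i) = b
    · rw [if_pos hb, if_pos hb, one_mul, dif_pos h]
    · rw [if_neg hb, if_neg hb, zero_mul]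
      rfl
  · rw [dif_neg h]
    by_cases hb : decide (Even i) = b
    · rw [if_pos hb, dif_neg h]
    · rw [if_neg hb]
      rfl

private lemma RGrC_fin {k : Type} {r : ℕ → ℕ} {D : ℕ} [CommRing k] (y : TI r D → k)
    (i : Fin (D + 1)) : cmpT D y i.val = fun a => y ⟨i, a⟩ := by
  funext a
  unfold cmpT
  rw [dif_pos i.isLt]

theorem sRGrC (h1 : S_RGrB) : S_RGrC := by
  intro k _ r D rD e he b
  classical
  obtain ⟨g1, -, -, g4, -⟩ := h1 k r D rD e he
  let Q : ∀ i : Fin (D + 1), Submodule k (Fin (r i.val) → k) := fun i =>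
    if decide (Even i.val) = b then LinearMap.range (blkT D e i.val).mulVecLin else ⊥
  let Φ : (∀ i : Fin (D + 1), Q i) →ₗ[k] (TI r D → k) :=
    { toFun := fun f x => (f x.1).1 x.2
      map_add' := fun f g => rfl
      map_smul' := fun c f => rfl }
  have hΦ : ∀ f x, Φ f x = (f x.1).1 x.2 := fun f x => rfl
  have hinj : Function.Injective Φ := by
    intro f g hfg
    funext i
    apply Subtype.ext
    funext a
    have := congrFun hfg ⟨i, a⟩
    rwa [hΦ, hΦ] at this
  have hE : ∀ (x : TI r D → k) (i : ℕ),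
      cmpT D ((e * PP k (fun x : TI r D => x.1.val) b).mulVec x) i =
        if decide (Even i) = b then (blkT D e i).mulVec (cmpT D x i) else 0 := by
    intro x i
    rw [← Matrix.mulVec_mulVec, g1, RGrC_cmp]
    by_cases hb : decide (Even i) = b
    · rw [if_pos hb, if_pos hb]
    · rw [if_neg hb, if_neg hb, Matrix.mulVec_zero]
  have hrange : LinearMap.range Φ =
      LinearMap.range (e * PP k (fun x : TI r D => x.1.val) b).mulVecLin := by
    apply le_antisymm
    · rintro _ ⟨f, rfl⟩
      have hv : ∀ i : Fin (D + 1), ∃ v : Fin (r i.val) → k,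
          (if decide (Even i.val) = b then (blkT D e i.val).mulVec v else 0) = (f i).1 := by
        intro i
        obtain ⟨w, hw⟩ : ∃ w, w = (f i).1 := ⟨_, rfl⟩
        have hm : w ∈ Q i := by
          rw [hw]
          exact (f i).2
        rw [← hw]
        by_cases hb : decide (Even i.val) = b
        · have hQ : Q i = LinearMap.range (blkT D e i.val).mulVecLin := if_pos hb
          rw [hQ] at hm
          obtain ⟨v, hv⟩ := hm
          refine ⟨v, ?_⟩
          rw [if_pos hb]
          exact hv
        · have hQ : Q i = ⊥ := if_neg hb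
          rw [hQ, Submodule.mem_bot] at hm
          exact ⟨0, by rw [if_neg hb, hm]⟩
      choose v hv using hv
      refine ⟨fun x => v x.1 x.2, ?_⟩
      rw [Matrix.mulVecLin_apply]
      refine g4 _ _ fun i => ?_
      rw [hE]
      by_cases hi : i < D + 1
      · have h2 := RGrC_fin (fun x : TI r D => v x.1 x.2) ⟨i, hi⟩
        have h3 := RGrC_fin (Φ f) ⟨i, hi⟩
        have h4 := hv ⟨i, hi⟩
        simp only at h2 h3 h4
        rw [h2, h3]
        have h5 : (fun a => Φ f ⟨⟨i, hi⟩, a⟩) = (f ⟨i, hi⟩).1 := rfl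
        rw [h5, ← h4]
      · have hr : r i = 0 := rD i (by omega)
        funext a
        exact absurd a.isLt (by omega)
    · rintro _ ⟨x, rfl⟩
      rw [Matrix.mulVecLin_apply]
      obtain ⟨y, hy⟩ : ∃ y, y = (e * PP k (fun x : TI r D => x.1.val) b).mulVec x := ⟨_, rfl⟩
      rw [← hy]
      have hmem : ∀ i : Fin (D + 1), cmpT D y i.val ∈ Q i := by
        intro i
        rw [hy, hE]
        by_cases hb : decide (Even i.val) = b
        · have hQ : Q i = LinearMap.range (blkT D e i.val).mulVecLin := if_pos hb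
          rw [if_pos hb, hQ]
          exact ⟨_, rfl⟩
        · rw [if_neg hb]
          exact Submodule.zero_mem _
      refine ⟨fun i => ⟨cmpT D y i.val, hmem i⟩, ?_⟩
      funext p
      obtain ⟨i, a⟩ := p
      rw [hΦ]
      show cmpT D y i.val a = y ⟨i, a⟩
      rw [RGrC_fin y i]
  have hrank : (e * PP k (fun x : TI r D => x.1.val) b).rank =
      ∑ i : Fin (D + 1), Module.finrank k (Q i) := by
    rw [Matrix.rank, ← hrange, LinearMap.finrank_range_of_inj hinj, Module.finrank_pi_fintype]
  rw [hrank, Finset.sum_filter, Finset.sum_range]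
  refine Finset.sum_congr rfl fun i _ => ?_
  by_cases hb : decide (Even i.val) = b
  · have hQ : Q i = LinearMap.range (blkT D e i.val).mulVecLin := if_pos hb
    rw [if_pos hb, hQ]
    rfl
  · have hQ : Q i = ⊥ := if_neg hb
    rw [if_neg hb, hQ, finrank_bot]

end HSp
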