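import Pool.Agent.Lib.MP_181146_gt.HS.SpecR

set_option autoImplicit false

namespace HSp

private lemma RIdm_per {M : Type} [Monoid M] (x : M) (a b : ℕ) (h : x ^ (a + b) = x ^ a) :
    ∀ k j : ℕ, x ^ (a + j + k * b) = x ^ (a + j) := by
  intro k
  induction k with
  | zero => intro j; simp
  | succ k ih =>
    intro j
    have h1 : a + j + (k + 1) * b = (a + b) + (j + k * b) := by ring
    rw [h1, pow_add, h, ← pow_add, ← add_assoc]
    exact ih j

private lemma RIdm_mon {M : Type} [Monoid M] [Finite M] (x : M) :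
    ∃ m : ℕ, 0 < m ∧ x ^ m * x ^ m = x ^ m := by
  obtain ⟨i, j, hij, h⟩ := Finite.exists_ne_map_eq_of_infinite fun n : ℕ => x ^ n
  wlog hlt : i < j generalizing i j
  · exact this j i hij.symm h.symm (lt_of_le_of_ne (not_lt.mp hlt) hij.symm)
  obtain ⟨b, rfl⟩ := Nat.exists_eq_add_of_lt hlt
  have h' : x ^ (i + (b + 1)) = x ^ i := by
    simpa [add_assoc] using h.symm
  have hp := RIdm_per x i (b + 1) h' (i + 1) (i + 1 + (i + 1) * b - i)
  refine ⟨(i + 1) * (b + 1), by positivity, ?_⟩
  have e1 : i + (i + 1 + (i + 1) * b - i) = (i + 1) * (b + 1) := by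
    have : i ≤ i + 1 + (i + 1) * b := by omega
    rw [Nat.add_sub_cancel' this]
    ring
  rw [e1, pow_add] at hp
  exact hp

theorem sRIdm : S_RIdm := by
  intro R I _ _ _ _ A
  exact RIdm_mon A

end HSp
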