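import Pool.Agent.Lib.MP_181146_gt.HS.SpecR

/-! Module RInst: the group ring is an `RC`. -/

set_option autoImplicit false

namespace HSp

section

variable {O G : Type} [CommRing O] [CommGroup G]

/-- the projection -/
private noncomputable def RInst_rho (g : G) {n : ℕ} (q : O →+* ZMod n) :
    MonoidAlgebra O G →+* MonoidAlgebra (ZMod n) (G ⧸ Subgroup.zpowers g) :=
  (MonoidAlgebra.mapRingHom (G ⧸ Subgroup.zpowers g) q).comp
    (MonoidAlgebra.mapDomainRingHom O (QuotientGroup.mk' (Subgroup.zpowers g)))

private lemma RInst_rho_single (g : G) {n : ℕ} (q : O →+* ZMod n) (h : G) (a : O) :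
    RInst_rho g q (MonoidAlgebra.single h a) =
      MonoidAlgebra.single (h : G ⧸ Subgroup.zpowers g) (q a) := by
  have h1 : MonoidAlgebra.mapDomainRingHom O (QuotientGroup.mk' (Subgroup.zpowers g))
      (MonoidAlgebra.single h a) =
      MonoidAlgebra.single (h : G ⧸ Subgroup.zpowers g) a := MonoidAlgebra.mapDomain_single
  unfold RInst_rho
  rw [RingHom.comp_apply, h1, MonoidAlgebra.mapRingHom_single]

/-- the derivation -/
private noncomputable def RInst_sig (g : G) {n : ℕ} (q : O →+* ZMod n)
    (χ : G →* Multiplicative (ZMod n)) :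
    MonoidAlgebra O G →+ MonoidAlgebra (ZMod n) (G ⧸ Subgroup.zpowers g) :=
  (Finsupp.liftAddHom (fun h : G =>
    (MonoidAlgebra.singleAddHom (h : G ⧸ Subgroup.zpowers g)).comp
      ((AddMonoidHom.mulRight (Multiplicative.toAdd (χ h))).comp q.toAddMonoidHom))).comp
    (MonoidAlgebra.coeffAddEquiv (R := O) (M := G)).toAddMonoidHom

private lemma RInst_sig_single (g : G) {n : ℕ} (q : O →+* ZMod n)
    (χ : G →* Multiplicative (ZMod n)) (h : G) (a : O) :
    RInst_sig g q χ (MonoidAlgebra.single h a) =
      MonoidAlgebra.single (h : G ⧸ Subgroup.zpowers g) (q a * Multiplicative.toAdd (χ h)) := by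
  have h1 := Finsupp.liftAddHom_apply_single (fun h : G =>
    (MonoidAlgebra.singleAddHom (h : G ⧸ Subgroup.zpowers g)).comp
      ((AddMonoidHom.mulRight (Multiplicative.toAdd (χ h))).comp q.toAddMonoidHom)) h a
  exact h1

private lemma RInst_der (g : G) {n : ℕ} (q : O →+* ZMod n) (χ : G →* Multiplicative (ZMod n))
    (x y : MonoidAlgebra O G) :
    RInst_sig g q χ (x * y) = RInst_sig g q χ x * RInst_rho g q y +
      RInst_rho g q x * RInst_sig g q χ y := by
  induction x using MonoidAlgebra.induction_linear with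
  | zero => simp
  | add x x' hx hx' =>
    rw [add_mul, map_add, map_add, map_add, hx, hx']
    ring
  | single h a =>
    induction y using MonoidAlgebra.induction_linear with
    | zero => simp
    | add y y' hy hy' =>
      rw [mul_add, map_add, map_add, map_add, hy, hy']
      ring
    | single h' b =>
      rw [MonoidAlgebra.single_mul_single]
      simp only [RInst_sig_single, RInst_rho_single, MonoidAlgebra.single_mul_single]
      rw [QuotientGroup.mk_mul, ← MonoidAlgebra.single_add, map_mul, map_mul, toAdd_mul]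
      congr 1
      ring

private lemma RInst_nat {R M : Type} [CommRing R] [CommMonoid M] (n : ℕ) (x : MonoidAlgebra R M)
    (h : M) : ((n : MonoidAlgebra R M) * x).coeff h = (n : R) * x.coeff h := by
  rw [← nsmul_eq_mul, ← nsmul_eq_mul]
  have h1 : (n • x).coeff = n • x.coeff := map_nsmul (MonoidAlgebra.coeffAddEquiv (R := R) (M := M)) n x
  rw [h1]
  rfl

end

theorem sRInst (h1 : S_RCos) : S_RInst := by
  intro O G _ _ _ g n hn hg q hq χ hχ
  classical
  obtain ⟨⟨τ, hτ⟩, kt, kN, tN, y0, hy0⟩ := h1 O G g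
  rw [hg] at kt kN tN hy0
  have hN2 : (∑ i ∈ Finset.range n, MonoidAlgebra.of O G g ^ i) *
      (∑ i ∈ Finset.range n, MonoidAlgebra.of O G g ^ i) =
      (n : MonoidAlgebra O G) * ∑ i ∈ Finset.range n, MonoidAlgebra.of O G g ^ i := by
    obtain ⟨N, hN⟩ : ∃ N, N = ∑ i ∈ Finset.range n, MonoidAlgebra.of O G g ^ i := ⟨_, rfl⟩
    rw [← hN] at hy0 tN ⊢
    calc N * N = ((n : MonoidAlgebra O G) + (MonoidAlgebra.of O G g - 1) * y0) * N := by
          rw [← hy0]
      _ = (n : MonoidAlgebra O G) * N + y0 * ((MonoidAlgebra.of O G g - 1) * N) := by ring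
      _ = (n : MonoidAlgebra O G) * N := by rw [tN, mul_zero, add_zero]
  have rt : RInst_rho g q (MonoidAlgebra.of O G g) = 1 := by
    rw [MonoidAlgebra.of_apply, RInst_rho_single, map_one, MonoidAlgebra.one_def]
    congr 1
    exact (QuotientGroup.eq_one_iff g).2 (Subgroup.mem_zpowers g)
  refine ⟨{ t := MonoidAlgebra.of O G g - 1
            N := ∑ i ∈ Finset.range n, MonoidAlgebra.of O G g ^ i
            c := RInst_sig g q χ (∑ i ∈ Finset.range n, MonoidAlgebra.of O G g ^ i)
            ρ := RInst_rho g q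
            σ := RInst_sig g q χ
            surj := ?_
            ρt := ?_
            ρN := ?_
            ker := ?_
            der := RInst_der g q χ
            σt := ?_
            σN := rfl
            tN := tN
            ker_t := kt
            ker_N := kN
            sep := ?_ }, rfl, rfl, RInst_rho_single g q, RInst_sig_single g q χ⟩
  · intro y
    induction y using MonoidAlgebra.induction_linear with
    | zero => exact ⟨0, map_zero _⟩
    | add y y' hy hy' =>
      obtain ⟨x, rfl⟩ := hy
      obtain ⟨x', rfl⟩ := hy'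
      exact ⟨x + x', map_add _ _ _⟩
    | single c b =>
      obtain ⟨h, rfl⟩ := QuotientGroup.mk_surjective c
      obtain ⟨a, rfl⟩ := hq.surj b
      exact ⟨MonoidAlgebra.single h a, RInst_rho_single g q h a⟩
  · rw [map_sub, rt, map_one, sub_self]
  · rw [map_sum]
    simp only [map_pow, rt, one_pow]
    rw [Finset.sum_const, Finset.card_range, nsmul_eq_mul, mul_one]
    ext c
    have h2 := RInst_nat (R := ZMod n) (M := G ⧸ Subgroup.zpowers g) n 1 c
    rw [mul_one] at h2
    rw [h2, ZMod.natCast_self, zero_mul]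
    rfl
  · intro x hx
    obtain ⟨y, hy⟩ := hτ x
    obtain ⟨z, hz⟩ : ∃ z, z =
      MonoidAlgebra.mapDomainRingHom O (QuotientGroup.mk' (Subgroup.zpowers g)) x := ⟨_, rfl⟩
    have hx' : MonoidAlgebra.mapRingHom (G ⧸ Subgroup.zpowers g) q z = 0 := by
      rw [hz]
      exact hx
    rw [← hz] at hy
    have hc : ∀ c : G ⧸ Subgroup.zpowers g, ∃ b, z.coeff c = (n : O) * b := by
      intro c
      apply hq.ker
      have h2 := congrArg (fun u : MonoidAlgebra (ZMod n) (G ⧸ Subgroup.zpowers g) => u.coeff c) hx'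
      simp only [MonoidAlgebra.coeff_mapRingHom] at h2
      simpa using h2
    choose b hb using hc
    have hzb : z = (n : MonoidAlgebra O (G ⧸ Subgroup.zpowers g)) *
        MonoidAlgebra.ofCoeff (Finsupp.equivFunOnFinite.symm b) := by
      ext c
      rw [RInst_nat, hb]
      simp
    obtain ⟨w, hw⟩ : ∃ w, w = MonoidAlgebra.ofCoeff (Finsupp.equivFunOnFinite.symm b) := ⟨_, rfl⟩
    rw [← hw] at hzb
    have hτz : τ z = (n : MonoidAlgebra O G) * τ w := by
      rw [hzb, ← nsmul_eq_mul, map_nsmul, nsmul_eq_mul]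
    refine ⟨y - y0 * τ w, τ w, ?_⟩
    have hn' : (n : MonoidAlgebra O G) = (∑ i ∈ Finset.range n, MonoidAlgebra.of O G g ^ i) -
        (MonoidAlgebra.of O G g - 1) * y0 := by
      rw [hy0]
      ring
    calc x = (MonoidAlgebra.of O G g - 1) * y + τ z := hy
      _ = _ := by
        rw [hτz, hn']
        ring
  · have h2 : RInst_sig g q χ (1 : MonoidAlgebra O G) = 0 := by
      rw [MonoidAlgebra.one_def, RInst_sig_single, map_one χ, toAdd_one, mul_zero,
        MonoidAlgebra.single_zero]
    rw [map_sub, h2, sub_zero, MonoidAlgebra.of_apply, RInst_sig_single, hχ, map_one q,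
      toAdd_ofAdd, mul_one, MonoidAlgebra.one_def]
    congr 1
    exact (QuotientGroup.eq_one_iff g).2 (Subgroup.mem_zpowers g)
  · intro x y hxy
    have h2 : (n : MonoidAlgebra O G) *
        ((∑ i ∈ Finset.range n, MonoidAlgebra.of O G g ^ i) * y) = 0 := by
      rw [← mul_assoc, ← hN2, mul_assoc, ← hxy, ← mul_assoc, mul_comm _ (MonoidAlgebra.of O G g - 1),
        tN, zero_mul]
    rw [hxy]
    ext h
    have h3 := congrArg (fun u : MonoidAlgebra O G => u.coeff h) h2
    simp only [RInst_nat] at h3
    exact hq.tf _ h3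

end HSp
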