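import Pool.Agent.Lib.MP_181146_gt.HS.SpecR

set_option autoImplicit false

namespace HSp

private lemma RLocA_nilcoef (p k : ℕ) [Fact p.Prime] (hk : 0 < k) (a : ZMod (p ^ k))
    (ha : ZMod.castHom (dvd_pow_self p hk.ne') (ZMod p) a = 0) : a ^ k = 0 := by
  haveI : NeZero (p ^ k) := ⟨(pow_pos (Fact.out : p.Prime).pos k).ne'⟩
  have h1 : ((a.val : ℕ) : ZMod (p ^ k)) = a := ZMod.natCast_zmod_val a
  rw [← h1, map_natCast, ZMod.natCast_eq_zero_iff] at ha
  obtain ⟨m, hm⟩ := ha
  rw [← h1, hm, Nat.cast_mul, mul_pow]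
  have h2 : ((p : ZMod (p ^ k))) ^ k = 0 := by
    rw [← Nat.cast_pow, ZMod.natCast_self]
  rw [h2, zero_mul]

theorem sRLocA : S_RLocA := by
  intro p k hp hk Q _ _ hQ
  classical
  have hdv : p ∣ p ^ k := dvd_pow_self p hk.ne'
  let q : ZMod (p ^ k) →+* ZMod p := ZMod.castHom hdv (ZMod p)
  let π : MonoidAlgebra (ZMod (p ^ k)) Q →+* ZMod p :=
    MonoidAlgebra.liftNCRingHom q (1 : Q →* ZMod p) (fun _ _ => Commute.all _ _)
  have hπs : ∀ (h : Q) (a : ZMod (p ^ k)), π (MonoidAlgebra.single h a) = q a := by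
    intro h a
    change MonoidAlgebra.liftNC _ _ (MonoidAlgebra.single h a) = _
    rw [MonoidAlgebra.liftNC_single]
    simp
  have hπ : Function.Surjective π := by
    intro y
    obtain ⟨a, ha⟩ := ZMod.castHom_surjective hdv y
    exact ⟨MonoidAlgebra.single 1 a, (hπs 1 a).trans ha⟩
  obtain ⟨j, hj⟩ := IsPGroup.iff_card.1 hQ
  have hexp : ∀ h : Q, h ^ (p ^ j) = 1 := fun h => by
    rw [← hj]
    exact pow_card_eq_one'
  let φ : MonoidAlgebra (ZMod (p ^ k)) Q →+* MonoidAlgebra (ZMod p) Q :=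
    MonoidAlgebra.mapRingHom Q q
  haveI : CharP (MonoidAlgebra (ZMod p) Q) p := by
    refine charP_of_injective_algebraMap (R := ZMod p) ?_ p
    exact (algebraMap (ZMod p) (MonoidAlgebra (ZMod p) Q)).injective
  have hfrob : ∀ x : MonoidAlgebra (ZMod (p ^ k)) Q,
      φ x ^ (p ^ j) = MonoidAlgebra.single 1 (π x) ^ (p ^ j) := by
    intro x
    have key : (iterateFrobenius (MonoidAlgebra (ZMod p) Q) p j).comp φ
        = ((iterateFrobenius (MonoidAlgebra (ZMod p) Q) p j).comp
          (MonoidAlgebra.singleOneRingHom)).comp π := by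
      apply MonoidAlgebra.ringHom_ext
      · intro a
        simp only [RingHom.comp_apply, iterateFrobenius_def]
        rw [hπs]
        simp [φ, MonoidAlgebra.mapRingHom_single]
      · intro h
        simp only [RingHom.comp_apply, iterateFrobenius_def]
        rw [hπs]
        simp [φ, MonoidAlgebra.mapRingHom_single, MonoidAlgebra.single_pow, hexp]
    have := congrArg (fun f => f x) key
    simpa [RingHom.comp_apply, iterateFrobenius_def] using this
  have hnil : ∀ x : MonoidAlgebra (ZMod (p ^ k)) Q, π x = 0 → IsNilpotent x := by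
    intro x hx
    have h1 : φ (x ^ (p ^ j)) = 0 := by
      rw [map_pow, hfrob, hx, MonoidAlgebra.single_zero, zero_pow (pow_pos hp.out.pos j).ne']
    have h2 : IsNilpotent (x ^ (p ^ j)) := by
      set y := x ^ (p ^ j) with hy
      have h3 : ∀ h, q (y.coeff h) = 0 := fun h => by
        have := congrArg (fun f : MonoidAlgebra (ZMod p) Q => f.coeff h) h1
        simpa [φ] using this
      rw [← MonoidAlgebra.sum_coeff_single y]
      refine isNilpotent_sum fun h _ => ⟨k, ?_⟩
      rw [MonoidAlgebra.single_pow, RLocA_nilcoef p k hk _ (h3 h)]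
      simp
    obtain ⟨m, hm⟩ := h2
    exact ⟨p ^ j * m, by rw [pow_mul, hm]⟩
  refine ⟨π, hπ, fun x hx => ?_, fun h a => hπs h a⟩
  obtain ⟨x', hx'⟩ := hπ (π x)⁻¹
  have h1 : π (x * x' - 1) = 0 := by
    rw [map_sub, map_mul, hx', map_one, mul_inv_cancel₀ hx, sub_self]
  have h2 : IsUnit (1 + (x * x' - 1)) := (hnil _ h1).isUnit_one_add
  rw [add_sub_cancel] at h2
  exact isUnit_of_mul_isUnit_left h2

end HSp
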