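import Pool.Agent.Lib.MP_181146_gt.HS.SpecR

set_option autoImplicit false

namespace HSp

theorem sRLocB : S_RLocB := by
  intro Rb k _ _ π hπ r e he
  have hu : ∀ x : Rb, IsUnit x → π x ≠ 0 := fun x hx => (hx.map π).ne_zero
  haveI : Nontrivial Rb := by
    refine ⟨⟨1, 0, fun h => ?_⟩⟩
    have := congrArg π h
    rw [map_one, map_zero] at this
    exact one_ne_zero this
  have hz : ∀ x : Rb, ¬ IsUnit x → π x = 0 := fun x hx => by
    by_contra h
    exact hx (hπ x h)
  haveI : IsLocalRing Rb := IsLocalRing.of_nonunits_add fun a b ha hb hab => by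
    have h1 := hu _ hab
    rw [map_add, hz a ha, hz b hb, add_zero] at h1
    exact h1 rfl
  have hE : ∀ x, e.mulVec (e.mulVec x) = e.mulVec x := fun x => by
    rw [Matrix.mulVec_mulVec, he]
  have hs : (e.mulVecLin.rangeRestrict) ∘ₗ (LinearMap.range e.mulVecLin).subtype
      = LinearMap.id := by
    ext ⟨x, ⟨v, hv⟩⟩ : 1
    apply Subtype.ext
    change e.mulVec x = x
    rw [← hv]
    exact hE v
  haveI : Module.Projective Rb (LinearMap.range e.mulVecLin) :=
    Module.Projective.of_split _ _ hs
  haveI : Module.Free Rb (LinearMap.range e.mulVecLin) := Module.free_of_flat_of_isLocalRing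
  set M := LinearMap.range e.mulVecLin with hM
  let E : M ≃ₗ[Rb] (Fin (Module.finrank Rb M) → Rb) := (Module.finBasis Rb M).equivFun
  refine ⟨Module.finrank Rb M, ⟨E⟩, ?_⟩
  let fA : (Fin (Module.finrank Rb M) → Rb) →ₗ[Rb] (Fin r → Rb) := M.subtype ∘ₗ E.symm.toLinearMap
  let fB : (Fin r → Rb) →ₗ[Rb] (Fin (Module.finrank Rb M) → Rb) :=
    E.toLinearMap ∘ₗ e.mulVecLin.rangeRestrict
  have hAB : fA ∘ₗ fB = e.mulVecLin := by
    apply LinearMap.ext
    intro x
    change (E.symm (E (e.mulVecLin.rangeRestrict x)) : Fin r → Rb) = e.mulVecLin x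
    rw [LinearEquiv.symm_apply_apply]
    rfl
  have hBA : fB ∘ₗ fA = LinearMap.id := by
    apply LinearMap.ext
    intro x
    change E ((e.mulVecLin.rangeRestrict) (M.subtype (E.symm x))) = x
    have h1 := congrArg (fun f => f (E.symm x)) hs
    change e.mulVecLin.rangeRestrict (M.subtype (E.symm x)) = E.symm x at h1
    rw [h1, LinearEquiv.apply_symm_apply]
  set A := LinearMap.toMatrix' fA with hA
  set B := LinearMap.toMatrix' fB with hB
  have h1 : A * B = e := by
    rw [hA, hB, ← LinearMap.toMatrix'_comp, hAB]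
    exact LinearMap.toMatrix'_toLin' e
  have h2 : B * A = 1 := by
    rw [hA, hB, ← LinearMap.toMatrix'_comp, hBA, LinearMap.toMatrix'_id]
  have h1' : A.map π * B.map π = e.map π := by rw [← Matrix.map_mul, h1]
  have h2' : B.map π * A.map π = 1 := by
    rw [← Matrix.map_mul, h2, Matrix.map_one _ (map_zero π) (map_one π)]
  apply le_antisymm
  · rw [← h1']
    refine (Matrix.rank_mul_le_right _ _).trans ?_
    simpa using Matrix.rank_le_height (B.map π)
  · have h3 : B.map π * (e.map π * A.map π) = 1 := by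
      rw [← h1', Matrix.mul_assoc (A.map π), h2', Matrix.mul_one, h2']
    have h4 : (1 : Matrix (Fin (Module.finrank Rb M)) (Fin (Module.finrank Rb M)) k).rank
        = Module.finrank Rb M := by
      rw [Matrix.rank_one, Fintype.card_fin]
    rw [← h4, ← h3]
    exact (Matrix.rank_mul_le_right _ _).trans (Matrix.rank_mul_le_left _ _)

end HSp
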