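import Pool.Agent.Lib.MP_181146_gt.HS.SpecR

/-!
# Project HS, third part: relations for `ρ(d)`, `σ(d)`, `ρ(h)`
-/

set_option autoImplicit false

namespace HSp

private lemma RMat_sig {S Rb I : Type} [CommRing S] [CommRing Rb] [Fintype I] (C : RC S Rb)
    (A B : Matrix I I S) :
    (A * B).map C.σ = A.map C.σ * B.map C.ρ + A.map C.ρ * B.map C.σ := by
  ext i j
  rw [Matrix.map_apply, Matrix.mul_apply, map_sum, Matrix.add_apply, Matrix.mul_apply,
    Matrix.mul_apply, ← Finset.sum_add_distrib]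
  refine Finset.sum_congr rfl fun k _ => ?_
  rw [C.der]
  rfl

theorem sRMat : S_RMat := by
  intro S Rb I _ _ _ _ C X
  have h1 : X.d.map C.ρ * X.d.map C.ρ = 0 := by
    rw [← Matrix.map_mul, X.dd]
    exact Matrix.map_zero _ (map_zero C.ρ)
  have h2 : X.d.map C.ρ * X.d.map C.σ + X.d.map C.σ * X.d.map C.ρ = 0 := by
    have h := RMat_sig C X.d X.d
    rw [X.dd, Matrix.map_zero _ (map_zero C.σ)] at h
    rw [add_comm]
    exact h.symm
  have h3 : X.d.map C.ρ * X.h.map C.ρ + X.h.map C.ρ * X.d.map C.ρ = 0 := by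
    rw [← Matrix.map_mul, ← Matrix.map_mul, ← Matrix.map_add _ (map_add C.ρ), X.dh]
    ext i j
    rw [Matrix.map_apply, Matrix.smul_apply, smul_eq_mul, map_mul, C.ρt, zero_mul]
    rfl
  refine ⟨h1, h2, h3, ?_⟩
  unfold TC.phi
  rw [mul_sub, sub_mul, mul_one, one_mul]
  congr 1
  have h4 : X.d.map C.ρ * X.h.map C.ρ = -(X.h.map C.ρ * X.d.map C.ρ) := eq_neg_of_add_eq_zero_left h3
  have h5 : X.d.map C.ρ * X.d.map C.σ = -(X.d.map C.σ * X.d.map C.ρ) := eq_neg_of_add_eq_zero_left h2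
  rw [← mul_assoc, h4, neg_mul, mul_assoc, h5, mul_neg, neg_neg, mul_assoc]

end HSp
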