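import Pool.Agent.Lib.MP_181146_gt.HS.SpecR

/-!
# Project HS, third part: matrices of degree `-1` or `1` are nilpotent
-/

set_option autoImplicit false

namespace HSp

private lemma RNil_aux {R I : Type} [CommRing R] [Fintype I] [DecidableEq I] (deg : I → ℕ)
    (A : Matrix I I R) (hA : ∀ a b, deg b ≠ deg a + 1 → A a b = 0) : IsNilpotent A := by
  have key : ∀ (k : ℕ) (a b : I), deg b ≠ deg a + k → (A ^ k) a b = 0 := by
    intro k
    induction k with
    | zero =>
      intro a b hab
      rw [pow_zero]
      refine Matrix.one_apply_ne fun h => hab ?_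
      rw [h, add_zero]
    | succ k ih =>
      intro a b hab
      rw [pow_succ, Matrix.mul_apply]
      refine Finset.sum_eq_zero fun c _ => ?_
      by_cases hc : deg c = deg a + k
      · rw [hA c b (by omega), mul_zero]
      · rw [ih a c hc, zero_mul]
  refine ⟨Finset.univ.sup deg + 1, ?_⟩
  ext a b
  rw [Matrix.zero_apply]
  refine key _ a b ?_
  have h1 : deg b ≤ Finset.univ.sup deg := Finset.le_sup (Finset.mem_univ b)
  omega

theorem sRNil : S_RNil := by
  intro R I _ _ _ deg A
  refine ⟨RNil_aux deg A, fun hA => ?_⟩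
  obtain ⟨k, hk⟩ := RNil_aux deg A.transpose fun a b hab => hA b a hab
  refine ⟨k, ?_⟩
  rw [← Matrix.transpose_pow, Matrix.transpose_eq_zero] at hk
  exact hk

end HSp
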