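import Pool.Agent.Lib.MP_181146_gt.HS.SpecR

set_option autoImplicit false

namespace HSp

private lemma ROp_aux {k H : Type} [Field k] [AddCommGroup H] [Module k H]
    [FiniteDimensional k H] (p0 p1 e W E : Module.End k H)
    (hW0 : W * p0 = p1 * W) (hE0 : E * p0 = p1 * E) (ee : e * e = e) (ep : e * p0 = p0 * e)
    (ep1 : e * p1 = p1 * e) (eW : e * W = W * e)
    (WE : W * E + E * W = 1) (nW : IsNilpotent W) (nE : IsNilpotent (e * E * e)) :
    Module.finrank k (LinearMap.range (e * p0)) ≤ Module.finrank k (LinearMap.range (e * p1)) := by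
  obtain ⟨W', hW'⟩ : ∃ W' : Module.End k H, W' = e * W := ⟨_, rfl⟩
  obtain ⟨E', hE'⟩ : ∃ E' : Module.End k H, E' = e * E * e := ⟨_, rfl⟩
  rw [← hE'] at nE
  have eW' : e * W' = W' := by rw [hW', ← mul_assoc, ee]
  have W'e : W' * e = W' := by rw [hW', eW, mul_assoc, ee]
  have eE' : e * E' = E' := by rw [hE', ← mul_assoc, ← mul_assoc, ee]
  have E'e : E' * e = E' := by rw [hE', mul_assoc, ee]
  have h1 : W' * E' + E' * W' = e := by
    have e1 : W' * E' = e * (W * E) * e := by
      rw [hE', ← mul_assoc, ← mul_assoc, W'e, hW']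
      simp only [mul_assoc]
    have e2 : E' * W' = e * (E * W) * e := by
      rw [hW', ← mul_assoc, E'e, hE', mul_assoc, eW]
      simp only [mul_assoc]
    rw [e1, e2, ← add_mul, ← mul_add, WE, mul_one, ee]
  have h2 : W' * W' * E' = E' * (W' * W') := by
    have e1 : W' * E' = e - E' * W' := eq_sub_of_add_eq h1
    have e2 : E' * W' = e - W' * E' := eq_sub_of_add_eq' h1
    calc W' * W' * E' = W' * (W' * E') := by rw [mul_assoc]
      _ = W' * e - W' * E' * W' := by rw [e1, mul_sub, ← mul_assoc W' E' W', e1]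
      _ = e * W' - W' * E' * W' := by rw [W'e, eW']
      _ = (e - W' * E') * W' := by rw [sub_mul]
      _ = E' * (W' * W') := by rw [← e2, mul_assoc]
  have nW' : IsNilpotent W' := by
    have hc : Commute e W := eW
    rw [hW']
    exact hc.isNilpotent_mul_left nW
  have nν : IsNilpotent (W' * W' + E' * E') := by
    have hc : Commute (W' * W') E' := h2
    refine Commute.isNilpotent_add (hc.mul_right hc) ?_ ?_
    · exact (Commute.refl W').isNilpotent_mul_left nW'
    · exact (Commute.refl E').isNilpotent_mul_left nE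
  have hY2 : (W' + E') * (W' + E') = (W' * W' + E' * E') + e := by
    rw [← h1, mul_add, add_mul, add_mul]
    abel
  have hinj : ∀ x, e x = x → (W' + E') x = 0 → x = 0 := by
    intro x hx hY
    have e1 : ((W' + E') * (W' + E')) x = 0 := by
      rw [Module.End.mul_apply, hY, map_zero]
    rw [hY2, LinearMap.add_apply, hx] at e1
    have hu := nν.isUnit_one_add
    obtain ⟨u, hu⟩ := hu
    have e2 : (u : Module.End k H) x = 0 := by
      rw [hu, LinearMap.add_apply, Module.End.one_apply, add_comm]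
      exact e1
    calc x = (1 : Module.End k H) x := rfl
      _ = ((↑u⁻¹ : Module.End k H) * u) x := by rw [Units.inv_mul]
      _ = 0 := by rw [Module.End.mul_apply, e2, map_zero]
  have hYp : (W' + E') * (e * p0) = e * p1 * (W + E * e) := by
    have e1 : W' * (e * p0) = e * p1 * W := by
      rw [← mul_assoc, W'e, hW', mul_assoc, hW0, mul_assoc]
    have e2 : E' * (e * p0) = e * p1 * (E * e) := by
      rw [← mul_assoc, E'e, hE', mul_assoc, ep, ← mul_assoc, mul_assoc e E p0, hE0]
      simp only [mul_assoc]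
    rw [add_mul, e1, e2, mul_add]
  have hmap : ∀ x ∈ LinearMap.range (e * p0), (W' + E') x ∈ LinearMap.range (e * p1) := by
    rintro _ ⟨y, rfl⟩
    refine ⟨(W + E * e) y, ?_⟩
    rw [← Module.End.mul_apply, ← Module.End.mul_apply, hYp]
  have hfix : ∀ x ∈ LinearMap.range (e * p0), e x = x := by
    rintro _ ⟨y, rfl⟩
    rw [← Module.End.mul_apply, ← mul_assoc, ee]
  refine LinearMap.finrank_le_finrank_of_injective
    (f := ((W' + E') : H →ₗ[k] H).restrict hmap) ?_
  rw [← LinearMap.ker_eq_bot, LinearMap.ker_eq_bot']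
  rintro ⟨x, hx⟩ h0
  have e1 : (W' + E') x = 0 := congrArg Subtype.val h0
  exact Subtype.ext (hinj x (hfix x hx) e1)

theorem sROp : S_ROp := by
  intro k H _ _ _ _ p0 p1 e W E h01 hp hp' hW0 hW1 hE0 hE1 ee ep eW WE nW nE
  have hp1 : p1 = 1 - p0 := by rw [← h01]; abel
  have ep1 : e * p1 = p1 * e := by rw [hp1, mul_sub, sub_mul, ep, mul_one, one_mul]
  exact le_antisymm (ROp_aux p0 p1 e W E hW0 hE0 ee ep ep1 eW WE nW nE)
    (ROp_aux p1 p0 e W E hW1 hE1 ee ep1 ep eW WE nW nE)

end HSp
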