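import Pool.Agent.Lib.MP_181146_gt.HS.SpecR2

/-! Project HS, third part, module RQ: the relative part over `ℤ_(p)[Γ]`. -/

set_option autoImplicit false

namespace HSp

theorem sRQ (h1 : S_RFin) (h2 : S_RChi) (h3 : S_RZq) (h4 : S_RQot) : S_RQ := by
  intro p _ Γ _ _ hp g g' hg Γ' hc l l1 l2 r hr0 D hD d h h' dd dh dh'
  obtain ⟨k, hk, ho, χ, hχ⟩ := h2 p Γ hp g hg Γ' hc
  obtain ⟨q, hq⟩ := h3 p k
  obtain ⟨C, e, gk, hCt, hCN, idem, chain, onto, inj, hφ, hsum⟩ :=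
    h1 (ZL p) Γ p k hk hp q hq g g' ho χ hχ l l1 l2 r D hr0 hD d h h' dd dh dh'
  have hN : C.N = nrC (ZL p) g := by
    rw [hCN, nrC, ho]
  rw [hN] at onto inj
  obtain ⟨e', a1, a2, a3, a4, a5⟩ := h4 (MonoidAlgebra (ZL p) Γ)
    (MonoidAlgebra (ZMod (p ^ k)) (Γ ⧸ Subgroup.zpowers g)) (MonoidAlgebra.of (ZL p) Γ g - 1)
    (nrC (ZL p) g) C.ρ C.surj (by rw [← hCt]; exact C.ρt) (by rw [← hN]; exact C.ρN)
    (fun x hx => by
      obtain ⟨a, b, hab⟩ := C.ker x hx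
      refine ⟨a, b, ?_⟩
      rw [← hCt, ← hN]
      exact hab) r gk d e idem chain onto inj hφ
  exact ⟨e', gk, a1, a2, a3, a4, a5, hsum⟩

end HSp
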