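import Pool.Agent.Lib.MP_181146_gt.HS.SpecR

/-!
# Project HS, task RRank: the even and the odd rank of the idempotent agree
-/

set_option autoImplicit false

namespace HSp

/-- the matrix `A` has degree `j` -/
def RRank_Dg {R I : Type} [CommRing R] (deg : I → ℕ) (j : ℤ) (A : Matrix I I R) : Prop :=
  ∀ a b, (deg b : ℤ) ≠ deg a + j → A a b = 0

section

variable {R I : Type} [CommRing R] [Fintype I] [DecidableEq I] {deg : I → ℕ}

omit [Fintype I] in
private lemma RRank_one : RRank_Dg deg 0 (1 : Matrix I I R) := by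
  intro a b h
  refine Matrix.one_apply_ne fun hab => h ?_
  rw [hab, add_zero]

omit [DecidableEq I] in
private lemma RRank_mul {i j : ℤ} {A B : Matrix I I R} (hA : RRank_Dg deg i A)
    (hB : RRank_Dg deg j B) : RRank_Dg deg (i + j) (A * B) := by
  intro a b h
  rw [Matrix.mul_apply]
  refine Finset.sum_eq_zero fun c _ => ?_
  by_cases hc : (deg c : ℤ) = deg a + i
  · rw [hB c b (by rw [hc]; intro h'; exact h (by rw [h']; ring)), mul_zero]
  · rw [hA a c hc, zero_mul]

omit [Fintype I] [DecidableEq I] in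
private lemma RRank_sub {i : ℤ} {A B : Matrix I I R} (hA : RRank_Dg deg i A)
    (hB : RRank_Dg deg i B) : RRank_Dg deg i (A - B) := by
  intro a b h
  rw [Matrix.sub_apply, hA a b h, hB a b h, sub_zero]

private lemma RRank_pow {A : Matrix I I R} (hA : RRank_Dg deg 0 A) (m : ℕ) :
    RRank_Dg deg 0 (A ^ m) := by
  induction m with
  | zero => rw [pow_zero]; exact RRank_one
  | succ m ih =>
    rw [pow_succ]
    have := RRank_mul ih hA
    rwa [add_zero] at this

private lemma RRank_odd {i : ℤ} (hi : Odd i) {A : Matrix I I R} (hA : RRank_Dg deg i A)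
    (b : Bool) : A * PP R deg b = PP R deg (!b) * A := by
  ext x y
  unfold PP
  rw [Matrix.mul_diagonal, Matrix.diagonal_mul]
  by_cases h : (deg y : ℤ) = deg x + i
  · have hp : Even (deg y) ↔ ¬ Even (deg x) := by
      rw [← Int.even_coe_nat, h, Int.even_add, Int.even_coe_nat]
      have hi' : ¬ Even i := Int.not_even_iff_odd.2 hi
      tauto
    have h2 : (decide (Even (deg y)) = b) ↔ (decide (Even (deg x)) = !b) := by
      cases b <;> simp [hp]
    by_cases h3 : decide (Even (deg y)) = b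
    · rw [if_pos h3, if_pos (h2.1 h3), mul_one, one_mul]
    · rw [if_neg h3, if_neg (fun h' => h3 (h2.2 h')), mul_zero, zero_mul]
  · rw [hA x y h, zero_mul, mul_zero]

private lemma RRank_even {A : Matrix I I R} (hA : RRank_Dg deg 0 A)
    (b : Bool) : A * PP R deg b = PP R deg b * A := by
  ext x y
  unfold PP
  rw [Matrix.mul_diagonal, Matrix.diagonal_mul]
  by_cases h : (deg y : ℤ) = deg x + 0
  · have h' : deg y = deg x := by omega
    rw [h', mul_comm]
  · rw [hA x y h, zero_mul, mul_zero]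

omit [Fintype I] in
private lemma RRank_PPadd : PP R deg true + PP R deg false = (1 : Matrix I I R) := by
  unfold PP
  rw [Matrix.diagonal_add, ← Matrix.diagonal_one]
  congr 1
  ext a
  by_cases h : Even (deg a) <;> simp [h]

private lemma RRank_PPmul (b : Bool) : PP R deg b * PP R deg (!b) = (0 : Matrix I I R) := by
  unfold PP
  rw [Matrix.diagonal_mul_diagonal, ← Matrix.diagonal_zero]
  congr 1
  ext a
  by_cases h : Even (deg a) <;> cases b <;> simp [h]

private lemma RRank_PPidem (b : Bool) : PP R deg b * PP R deg b = (PP R deg b : Matrix I I R) := by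
  unfold PP
  rw [Matrix.diagonal_mul_diagonal]
  congr 1
  ext a
  by_cases h : Even (deg a) <;> cases b <;> simp [h]

end

private lemma RRank_map_smul_one {S k I : Type} [CommRing S] [CommRing k] [Fintype I]
    [DecidableEq I] (f : S →+ k) (t : S) :
    (t • (1 : Matrix I I S)).map f = f t • (1 : Matrix I I k) := by
  ext a b
  rw [Matrix.map_apply, Matrix.smul_apply, Matrix.smul_apply]
  by_cases h : a = b
  · rw [h, Matrix.one_apply_eq, Matrix.one_apply_eq, smul_eq_mul, smul_eq_mul, mul_one, mul_one]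
  · rw [Matrix.one_apply_ne h, Matrix.one_apply_ne h, smul_zero, smul_zero, map_zero]

private lemma RRank_comm_pow {A : Type} [Ring A] {x y : A} (h : x * y = y * x) (m : ℕ) :
    x * (1 - y) ^ m = (1 - y) ^ m * x :=
  ((Commute.one_right x).sub_right h).pow_right m

private lemma RRank_ring {A : Type} [Ring A] (w1 w2 n1 : A) (r1 : w1 * w2 = -(w2 * w1))
    (r2 : w2 * n1 = -(n1 * w2)) : w2 * (n1 * w1) = (n1 * w1) * w2 := by
  rw [← mul_assoc, r2, mul_assoc n1 w1 w2, r1, neg_mul, mul_neg, mul_assoc]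

theorem sRRank (h1 : S_RNil) (h2 : S_RDer) (h3 : S_ROp) (h4 : S_REP) : S_RRank := by
  intro S k I _ _ _ _ R t1 t2 X H2 hd2 hr2 e1 e2 d1 d2 m hm he
  set D : Matrix I I k := X.d.map R.ε with hD
  set W1 : Matrix I I k := X.d.map R.δ1 with hW1
  set W2 : Matrix I I k := X.d.map R.δ2 with hW2
  set L : Matrix I I k := X.d.map R.δ12 with hL
  set E1 : Matrix I I k := X.h.map R.ε with hE1
  set E2 : Matrix I I k := H2.map R.ε with hE2
  set K : Matrix I I k := X.h.map R.δ2 with hK
  set K' : Matrix I I k := H2.map R.δ2 with hK'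
  have mz : ∀ f : S →+ k, (0 : Matrix I I S).map f = 0 := fun f => by
    ext a b
    simp
  have madd : ∀ (f : S →+ k) (A B : Matrix I I S), (A + B).map f = A.map f + B.map f :=
    fun f A B => by
      ext a b
      simp
  -- the relations from `d d = 0`
  obtain ⟨a1, a2, a3, a4⟩ := h2 S k I R X.d X.d
  rw [X.dd] at a1 a2 a3 a4
  have b1 : D * D = 0 := by
    rw [← a1]
    exact mz R.ε.toAddMonoidHom
  have b2 : D * W1 + W1 * D = 0 := by
    rw [add_comm, ← a2]
    exact mz R.δ1
  have b3 : D * W2 + W2 * D = 0 := by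
    rw [add_comm, ← a3]
    exact mz R.δ2
  have b4 : L * D + W1 * W2 + W2 * W1 + D * L = 0 := by
    rw [← a4]
    exact mz R.δ12
  -- the relations from the contraction of t1
  obtain ⟨c1, -, c3, -⟩ := h2 S k I R X.d X.h
  obtain ⟨c1', -, c3', -⟩ := h2 S k I R X.h X.d
  have b5 : D * E1 + E1 * D = 0 := by
    rw [← c1, ← c1']
    have := congrArg (fun M : Matrix I I S => M.map R.ε.toAddMonoidHom) X.dh
    rw [madd, RRank_map_smul_one] at this
    have e1' : R.ε.toAddMonoidHom t1 = 0 := e1
    rw [e1', zero_smul] at this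
    exact this
  have b6 : (W2 * E1 + D * K) + (K * D + E1 * W2) = 0 := by
    rw [← c3, ← c3']
    have := congrArg (fun M : Matrix I I S => M.map R.δ2) X.dh
    rw [madd, RRank_map_smul_one, d1, zero_smul] at this
    exact this
  obtain ⟨g1, -, g3, -⟩ := h2 S k I R X.d H2
  obtain ⟨g1', -, g3', -⟩ := h2 S k I R H2 X.d
  have b7 : D * E2 + E2 * D = 0 := by
    rw [← g1, ← g1']
    have := congrArg (fun M : Matrix I I S => M.map R.ε.toAddMonoidHom) hd2
    rw [madd, RRank_map_smul_one] at this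
    have e2' : R.ε.toAddMonoidHom t2 = 0 := e2
    rw [e2', zero_smul] at this
    exact this
  have b8 : (W2 * E2 + D * K') + (K' * D + E2 * W2) = 1 := by
    rw [← g3, ← g3']
    have := congrArg (fun M : Matrix I I S => M.map R.δ2) hd2
    rw [madd, RRank_map_smul_one, d2, one_smul] at this
    exact this
  -- degrees
  have dgD : RRank_Dg X.deg 1 D := fun a b h => by
    rw [hD, Matrix.map_apply, X.dl a b (by intro h'; exact h (by rw [h']; push_cast; ring)),
      map_zero]
  have dgW1 : RRank_Dg X.deg 1 W1 := fun a b h => by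
    rw [hW1, Matrix.map_apply, X.dl a b (by intro h'; exact h (by rw [h']; push_cast; ring)),
      map_zero]
  have dgW2 : RRank_Dg X.deg 1 W2 := fun a b h => by
    rw [hW2, Matrix.map_apply, X.dl a b (by intro h'; exact h (by rw [h']; push_cast; ring)),
      map_zero]
  have dgE1 : RRank_Dg X.deg (-1) E1 := fun a b h => by
    rw [hE1, Matrix.map_apply, X.hr a b (by intro h'; exact h (by rw [h']; push_cast; ring)),
      map_zero]
  have dgE2 : RRank_Dg X.deg (-1) E2 := fun a b h => by
    rw [hE2, Matrix.map_apply, hr2 a b (by intro h'; exact h (by rw [h']; push_cast; ring)),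
      map_zero]
  have dgA : RRank_Dg X.deg 0 (E1 * W1) := by
    have := RRank_mul dgE1 dgW1
    rwa [neg_add_cancel] at this
  have dge : RRank_Dg X.deg 0 ((1 - E1 * W1) ^ m) := RRank_pow (RRank_sub RRank_one dgA) m
  have dgF : RRank_Dg X.deg (-1) ((1 - E1 * W1) ^ m * E2 * (1 - E1 * W1) ^ m) := by
    have := RRank_mul (RRank_mul dge dgE2) dge
    rwa [zero_add, add_zero] at this
  -- Pres
  have pW1 : Pres D W1 := pres_anti b2
  have pW2 : Pres D W2 := pres_anti b3
  have pE1 : Pres D E1 := pres_anti b5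
  have pE2 : Pres D E2 := pres_anti b7
  have pA : Pres D (E1 * W1) := pres_mul pE1 pW1
  have pB : Pres D (1 - E1 * W1) := pres_sub pres_one pA
  have pe : Pres D ((1 - E1 * W1) ^ m) := pres_pow pB m
  have o1 : Odd (1 : ℤ) := odd_one
  have o2 : Odd (-1 : ℤ) := by decide
  have pP : ∀ b : Bool, Pres D (PP k X.deg b) := fun b => by
    refine pres_of (Y := PP k X.deg (!b)) (Z := PP k X.deg (!b)) (RRank_odd o1 dgD b) ?_
    have := RRank_odd o1 dgD (!b)
    rwa [Bool.not_not] at this
  set w1 := ind D W1 pW1 with hw1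
  set w2 := ind D W2 pW2 with hw2
  set n1 := ind D E1 pE1 with hn1
  set n2 := ind D E2 pE2 with hn2
  set ee := ind D ((1 - E1 * W1) ^ m) pe with hee
  have hee' : ee = (1 - n1 * w1) ^ m := by
    rw [hee, ind_pow pB m pe, ind_sub pres_one pA pB, ind_one, ind_mul pE1 pW1 pA]
  have r1 : w1 * w2 = -(w2 * w1) := by
    have p : Pres D (W1 * W2 + W2 * W1) := pres_add (pres_mul pW1 pW2) (pres_mul pW2 pW1)
    have h := ind_null (W1 * W2 + W2 * W1) (-L) p (by
      rw [mul_neg, neg_mul, ← sub_eq_zero, ← b4]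
      abel)
    rw [ind_add (pres_mul pW1 pW2) (pres_mul pW2 pW1), ind_mul pW1 pW2, ind_mul pW2 pW1] at h
    exact eq_neg_of_add_eq_zero_left h
  have r2 : w2 * n1 = -(n1 * w2) := by
    have p : Pres D (W2 * E1 + E1 * W2) := pres_add (pres_mul pW2 pE1) (pres_mul pE1 pW2)
    have h := ind_null (W2 * E1 + E1 * W2) (-K) p (by
      rw [mul_neg, neg_mul, ← sub_eq_zero, ← b6]
      abel)
    rw [ind_add (pres_mul pW2 pE1) (pres_mul pE1 pW2), ind_mul pW2 pE1, ind_mul pE1 pW2] at h
    exact eq_neg_of_add_eq_zero_left h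
  have r3 : w2 * n2 + n2 * w2 = 1 := by
    have p1 : Pres D (W2 * E2 + E2 * W2) := pres_add (pres_mul pW2 pE2) (pres_mul pE2 pW2)
    have p : Pres D (W2 * E2 + E2 * W2 - 1) := pres_sub p1 pres_one
    have h := ind_null (W2 * E2 + E2 * W2 - 1) (-K') p (by
      rw [mul_neg, neg_mul, ← b8]
      abel)
    rw [ind_sub p1 pres_one, ind_one, ind_add (pres_mul pW2 pE2) (pres_mul pE2 pW2),
      ind_mul pW2 pE2, ind_mul pE2 pW2] at h
    exact sub_eq_zero.1 h
  have r4 : w2 * (n1 * w1) = (n1 * w1) * w2 := RRank_ring w1 w2 n1 r1 r2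
  have cew : ee * w2 = w2 * ee := by
    rw [hee']
    exact (RRank_comm_pow r4 m).symm
  have cee : ee * ee = ee := by
    have := ind_mul pe pe (pres_mul pe pe)
    rw [← hee] at this
    rw [← this, hee]
    exact ind_congr _ _ he
  set p0 := ind D (PP k X.deg true) (pP true) with hp0
  set p1 := ind D (PP k X.deg false) (pP false) with hp1
  have s1 : p0 + p1 = 1 := by
    rw [hp0, hp1, ← ind_add (pP true) (pP false) (pres_add (pP true) (pP false))]
    rw [ind_congr _ pres_one RRank_PPadd, ind_one]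
  have s2 : p0 * p1 = 0 := by
    rw [hp0, hp1, ← ind_mul (pP true) (pP false) (pres_mul (pP true) (pP false))]
    have hz : PP k X.deg true * PP k X.deg false = 0 := RRank_PPmul true
    rw [ind_congr _ pres_zero hz]
    exact ind_null 0 0 _ (by rw [mul_zero, zero_mul, add_zero])
  have s3 : p1 * p0 = 0 := by
    rw [hp0, hp1, ← ind_mul (pP false) (pP true) (pres_mul (pP false) (pP true))]
    have hz : PP k X.deg false * PP k X.deg true = 0 := RRank_PPmul false
    rw [ind_congr _ pres_zero hz]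
    exact ind_null 0 0 _ (by rw [mul_zero, zero_mul, add_zero])
  have sw : ∀ (Y : Matrix I I k) (pY : Pres D Y) (b : Bool),
      Y * PP k X.deg b = PP k X.deg (!b) * Y →
      ind D Y pY * ind D (PP k X.deg b) (pP b) = ind D (PP k X.deg (!b)) (pP (!b)) * ind D Y pY :=
    fun Y pY b h => by
      rw [← ind_mul pY (pP b) (pres_mul pY (pP b)), ← ind_mul (pP (!b)) pY (pres_mul (pP (!b)) pY)]
      exact ind_congr _ _ h
  have se : ee * p0 = p0 * ee := by
    rw [hee, hp0, ← ind_mul pe (pP true) (pres_mul pe (pP true)),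
      ← ind_mul (pP true) pe (pres_mul (pP true) pe)]
    exact ind_congr _ _ (RRank_even dge true)
  have nW2 : IsNilpotent W2 := (h1 k I X.deg W2).1 fun a b h =>
    dgW2 a b (fun h' => h (by exact_mod_cast h'))
  have nF : IsNilpotent ((1 - E1 * W1) ^ m * E2 * (1 - E1 * W1) ^ m) :=
    (h1 k I X.deg _).2 fun a b h => dgF a b (fun h' => h (by omega))
  have nil : ∀ (Y : Matrix I I k) (pY : Pres D Y), IsNilpotent Y → IsNilpotent (ind D Y pY) := by
    rintro Y pY ⟨n, hn⟩
    refine ⟨n, ?_⟩
    rw [← ind_pow pY n (pres_pow pY n), ind_congr _ pres_zero hn]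
    exact ind_null 0 0 _ (by rw [mul_zero, zero_mul, add_zero])
  have nF' : IsNilpotent (ee * n2 * ee) := by
    have pF := pres_mul (pres_mul pe pE2) pe
    have := nil _ pF nF
    rwa [ind_mul (pres_mul pe pE2) pe, ind_mul pe pE2] at this
  have hop := h3 k (Hm D) p0 p1 ee w2 n2 s1 s2 s3 (sw W2 pW2 true (RRank_odd o1 dgW2 true))
    (sw W2 pW2 false (RRank_odd o1 dgW2 false)) (sw E2 pE2 true (RRank_odd o2 dgE2 true))
    (sw E2 pE2 false (RRank_odd o2 dgE2 false)) cee se cew r3 (nil W2 pW2 nW2) nF'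
  -- the ranks
  have cD : D * (E1 * W1) = (E1 * W1) * D := by
    have x1 : D * E1 = -(E1 * D) := eq_neg_of_add_eq_zero_left b5
    have x2 : D * W1 = -(W1 * D) := eq_neg_of_add_eq_zero_left b2
    rw [← mul_assoc, x1, neg_mul, mul_assoc E1 D W1, x2, mul_neg, neg_neg, mul_assoc]
  have cDe : D * (1 - E1 * W1) ^ m = (1 - E1 * W1) ^ m * D := RRank_comm_pow cD m
  have pq : ∀ b : Bool, Pres D ((1 - E1 * W1) ^ m * PP k X.deg b) := fun b => pres_mul pe (pP b)
  have hq : ∀ b : Bool, ((1 - E1 * W1) ^ m * PP k X.deg b) * ((1 - E1 * W1) ^ m * PP k X.deg b) =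
      (1 - E1 * W1) ^ m * PP k X.deg b := fun b => by
    rw [mul_assoc, ← mul_assoc (PP k X.deg b), ← RRank_even dge b, mul_assoc, RRank_PPidem,
      ← mul_assoc, he]
  have hdq : ∀ b : Bool, D * ((1 - E1 * W1) ^ m * PP k X.deg b) =
      ((1 - E1 * W1) ^ m * PP k X.deg (!b)) * D := fun b => by
    rw [← mul_assoc, cDe, mul_assoc, RRank_odd o1 dgD b, mul_assoc]
  have hep := h4 k I D ((1 - E1 * W1) ^ m * PP k X.deg true) ((1 - E1 * W1) ^ m * PP k X.deg false)
    b1 (hq true) (hq false) (hdq true) (hdq false) (pq true) (pq false)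
  rw [ind_mul pe (pP false) (pq false), ind_mul pe (pP true) (pq true)] at hep
  have hop' : Module.finrank k (LinearMap.range (ee * p0)) =
    Module.finrank k (LinearMap.range (ee * p1)) := hop
  rw [← hee, ← hp0, ← hp1, ← hop'] at hep
  exact Nat.add_right_cancel hep

end HSp
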