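import Pool.Agent.Lib.MP_181146_gt.HS.SpecR

/-!
# Project HS: relations of the operators on the homology
-/

set_option autoImplicit false

namespace HSp

/-- The class of a difference. -/
private lemma RRel_sub {R I : Type} [CommRing R] [Fintype I] {D : Matrix I I R} {x y : I → R}
    (hx : D.mulVec x = 0) (hy : D.mulVec y = 0) (hxy : D.mulVec (x - y) = 0) :
    cl D (x - y) hxy = cl D x hx - cl D y hy := rfl

/-- Homologous cycles with a multiple. -/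
private lemma RRel_lin {R I : Type} [CommRing R] [Fintype I] {D : Matrix I I R} {a x y s : I → R}
    {c : R} (ha : D.mulVec a = 0) (hx : D.mulVec x = 0) (hy : D.mulVec y = 0)
    (e : a + D.mulVec s = x + c • y) : cl D a ha = cl D x hx + c • cl D y hy := by
  have hcy : D.mulVec (c • y) = 0 := by rw [Matrix.mulVec_smul, hy, smul_zero]
  have hxcy : D.mulVec (x + c • y) = 0 := by rw [Matrix.mulVec_add, hx, hcy, add_zero]
  have h1 : cl D a ha = cl D (x + c • y) hxcy := by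
    rw [cl_eq_iff]
    refine ⟨-s, ?_⟩
    rw [Matrix.mulVec_neg, ← e]
    abel
  rw [h1, cl_add hx hcy hxcy, cl_smul c hy hcy]

theorem sRRel (h1 : S_RVec) (h2 : S_RCyc) : S_RRel := by
  intro S Rb I _ _ _ _ C X W hW pw pη w η
  obtain ⟨-, -, -, -, -, hρA, hσA, hcomb⟩ := h1 S Rb I C
  obtain ⟨hcyc, hex⟩ := h2 S Rb I C X
  have hρ0 : C.ρ ∘ (0 : I → S) = 0 := by
    funext i
    simp
  have hρn : ∀ x : I → S, C.ρ ∘ (-x) = -(C.ρ ∘ x) := fun x => by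
    funext i
    simp
  have hρs : ∀ x y : I → S, C.ρ ∘ (x - y) = C.ρ ∘ x - C.ρ ∘ y := fun x y => by
    funext i
    simp
  -- W on classes
  have hWc : ∀ u y z : I → S, X.d.mulVec u = C.t • y + C.N • z →
      ∀ (hu : (X.d.map C.ρ).mulVec (C.ρ ∘ u) = 0) (hy : (X.d.map C.ρ).mulVec (C.ρ ∘ y) = 0),
      W (cl (X.d.map C.ρ) (C.ρ ∘ u) hu) = cl (X.d.map C.ρ) (C.ρ ∘ y) hy := by
    intro u y z e hu hy
    obtain ⟨_, _, h⟩ := hW u y z e
    exact h
  -- η on classes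
  have hηc : ∀ u : I → S, ∀ (hu : (X.d.map C.ρ).mulVec (C.ρ ∘ u) = 0)
      (hhu : (X.d.map C.ρ).mulVec (C.ρ ∘ X.h.mulVec u) = 0),
      η (cl (X.d.map C.ρ) (C.ρ ∘ u) hu) = cl (X.d.map C.ρ) (C.ρ ∘ X.h.mulVec u) hhu := by
    intro u hu hhu
    exact cl_congr (hρA X.h u).symm
  -- w on classes
  have hwc : ∀ u y z : I → S, X.d.mulVec u = C.t • y + C.N • z →
      ∀ (hu : (X.d.map C.ρ).mulVec (C.ρ ∘ u) = 0) (hy : (X.d.map C.ρ).mulVec (C.ρ ∘ y) = 0)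
      (hz : (X.d.map C.ρ).mulVec (C.ρ ∘ z) = 0),
      w (cl (X.d.map C.ρ) (C.ρ ∘ u) hu) = cl (X.d.map C.ρ) (C.ρ ∘ y) hy +
        C.c • cl (X.d.map C.ρ) (C.ρ ∘ z) hz := by
    intro u y z e hu hy hz
    have e1 := hσA X.d u
    rw [e, (hcomb y z).2] at e1
    exact RRel_lin (pw.1 _ hu) hy hz e1.symm
  -- the difference on classes
  have hdc : ∀ u y z : I → S, X.d.mulVec u = C.t • y + C.N • z →
      ∀ (hu : (X.d.map C.ρ).mulVec (C.ρ ∘ u) = 0)
      (hz : (X.d.map C.ρ).mulVec (C.ρ ∘ z) = 0),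
      (w - W) (cl (X.d.map C.ρ) (C.ρ ∘ u) hu) = C.c • cl (X.d.map C.ρ) (C.ρ ∘ z) hz := by
    intro u y z e hu hz
    obtain ⟨-, hy, -⟩ := hcyc u y z e
    rw [LinearMap.sub_apply, hwc u y z e hu hy hz, hWc u y z e hu hy, add_sub_cancel_left]
  have hcl0 : ∀ (h : (X.d.map C.ρ).mulVec (C.ρ ∘ (0 : I → S)) = 0),
      cl (X.d.map C.ρ) (C.ρ ∘ (0 : I → S)) h = 0 := by
    intro h
    rw [cl_zero_iff]
    exact ⟨0, by rw [Matrix.mulVec_zero, hρ0]⟩
  -- (1)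
  have r1 : W * W = 0 := by
    refine ind_ext fun x hx => ?_
    obtain ⟨u, y, z, rfl, e⟩ := hex x hx
    obtain ⟨hu, hy, -, -, -, b, hb, -⟩ := hcyc u y z e
    have e2 : X.d.mulVec y = C.t • (0 : I → S) + C.N • b := by rw [smul_zero, zero_add, hb]
    have h0 : (X.d.map C.ρ).mulVec (C.ρ ∘ (0 : I → S)) = 0 := by rw [hρ0, Matrix.mulVec_zero]
    rw [Module.End.mul_apply, hWc u y z e hx hy, hWc y 0 b e2 hy h0, hcl0 h0,
      LinearMap.zero_apply]
  -- (2)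
  have r2 : W * η + η * W = 1 := by
    refine ind_ext fun x hx => ?_
    obtain ⟨u, y, z, rfl, e⟩ := hex x hx
    obtain ⟨hu, hy, hz, -, e3, b, hb, -⟩ := hcyc u y z e
    obtain ⟨hhu, hd, hnz, -⟩ := hcyc _ _ _ e3
    have e2 : X.d.mulVec y = C.t • (0 : I → S) + C.N • b := by rw [smul_zero, zero_add, hb]
    obtain ⟨-, -, -, -, e4, -⟩ := hcyc y 0 b e2
    obtain ⟨hhy, -⟩ := hcyc _ _ _ e4
    rw [LinearMap.add_apply, Module.End.mul_apply, Module.End.mul_apply, hηc u hx hhu,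
      hWc _ _ _ e3 hhu hd, hWc u y z e hx hy, hηc y hy hhy, Module.End.one_apply]
    have e5 : cl (X.d.map C.ρ) (C.ρ ∘ (u - X.h.mulVec y)) hd =
        cl (X.d.map C.ρ) (C.ρ ∘ u - C.ρ ∘ X.h.mulVec y) (by rw [← hρs]; exact hd) :=
      cl_congr (hρs _ _)
    rw [e5, RRel_sub hx hhy, sub_add_cancel]
  -- (3)
  have r3 : (w - W) * η + η * (w - W) = 0 := by
    refine ind_ext fun x hx => ?_
    obtain ⟨u, y, z, rfl, e⟩ := hex x hx
    obtain ⟨hu, hy, hz, ⟨y', hy'⟩, e3, -⟩ := hcyc u y z e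
    obtain ⟨hhu, hd, hnz, -⟩ := hcyc _ _ _ e3
    have hhz : (X.d.map C.ρ).mulVec (C.ρ ∘ X.h.mulVec z) = 0 := by
      have h := hnz
      rw [hρn, Matrix.mulVec_neg, neg_eq_zero] at h
      exact h
    rw [LinearMap.add_apply, Module.End.mul_apply, Module.End.mul_apply, hηc u hx hhu,
      hdc _ _ _ e3 hhu hnz, hdc u y z e hx hz, map_smul, hηc z hz hhz, LinearMap.zero_apply]
    have e5 : cl (X.d.map C.ρ) (C.ρ ∘ (-X.h.mulVec z)) hnz =
        cl (X.d.map C.ρ) (0 - C.ρ ∘ X.h.mulVec z) (by rw [zero_sub, ← hρn]; exact hnz) :=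
      cl_congr (by rw [hρn, zero_sub])
    have h0 : (X.d.map C.ρ).mulVec (0 : I → Rb) = 0 := Matrix.mulVec_zero _
    have e6 : cl (X.d.map C.ρ) (0 : I → Rb) h0 = 0 := by
      rw [cl_zero_iff]
      exact ⟨0, Matrix.mulVec_zero _⟩
    rw [e5, RRel_sub h0 hhz, e6, zero_sub, smul_neg, neg_add_cancel]
  refine ⟨r1, r2, ?_, ?_⟩
  · have h3 : w * η + η * w = ((w - W) * η + η * (w - W)) + (W * η + η * W) := by
      rw [sub_mul, mul_sub]
      abel
    rw [h3, r3, r2, zero_add]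
  · refine ind_ext fun x hx => ?_
    obtain ⟨u, y, z, rfl, e⟩ := hex x hx
    obtain ⟨hu, hy, hz, ⟨y', hy'⟩, -⟩ := hcyc u y z e
    have e2 : X.d.mulVec z = C.t • y' + C.N • (0 : I → S) := by rw [smul_zero, add_zero, hy']
    have h0 : (X.d.map C.ρ).mulVec (C.ρ ∘ (0 : I → S)) = 0 := by rw [hρ0, Matrix.mulVec_zero]
    rw [Module.End.mul_apply, hdc u y z e hx hz, map_smul, hdc z y' 0 e2 hz h0, hcl0 h0,
      smul_zero, smul_zero, LinearMap.zero_apply]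

end HSp
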