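import Pool.Agent.Lib.MP_181146_gt.HS.SpecR

/-!
# HS, module RRing: the computation in a noncommutative ring
-/

set_option autoImplicit false

namespace HSp

section RRing

variable {A : Type} [Ring A]

private lemma RRing_pow (a κ η : A) (hκη : κ * η = η * κ) (hκa : κ * a = a * κ)
    (haa : a * a = a - κ * (η * η)) :
    ∀ k : ℕ, ∃ z : A, a ^ (k + 1) = a + κ * z ∧ κ * z = z * κ := by
  intro k
  induction k with
  | zero => exact ⟨0, by simp, by simp⟩
  | succ k ih =>
    obtain ⟨z, hz, hc⟩ := ih
    refine ⟨a * z - η * η, ?_, ?_⟩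
    · rw [pow_succ', hz]
      linear_combination (norm := noncomm_ring) haa - hκa * z
    · linear_combination (norm := noncomm_ring) hκa * z + a * hc - hκη * η - η * hκη

private lemma RRing_sq (κ η f g z : A) (hκη : κ * η = η * κ)
    (hκf : κ * f = f * κ) (hκg : κ * g = g * κ) (hz : κ * z = z * κ)
    (hgg : g * (1 - 2 * f) * g = - (2 * (κ * (η * η * g)))) :
    ∃ y : A, (g * (1 - 2 * f) + κ * z) * (g * (1 - 2 * f) + κ * z) = κ * y ∧ κ * y = y * κ := by
  have hp : κ * (g * (1 - 2 * f)) = g * (1 - 2 * f) * κ := by
    linear_combination (norm := noncomm_ring) hκg * (1 - 2 * f) - 2 * (g * hκf)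
  have hq : κ * (η * η * g) = (η * η * g) * κ := by
    linear_combination (norm := noncomm_ring) hκη * (η * g) + η * hκη * g + η * η * hκg
  refine ⟨-(2 * ((η * η * g) * (1 - 2 * f))) + g * (1 - 2 * f) * z + z * (g * (1 - 2 * f)) +
    κ * (z * z), ?_, ?_⟩
  · linear_combination (norm := noncomm_ring) hgg * (1 - 2 * f) - hp * z - κ * hz * z
  · have hr : κ * (1 - 2 * f) = (1 - 2 * f) * κ := by
      linear_combination (norm := noncomm_ring) - 2 * hκf
    linear_combination (norm := noncomm_ring) - 2 * (hq * (1 - 2 * f)) -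
      2 * ((η * η * g) * hr) + hp * z + (g * (1 - 2 * f)) * hz + hz * (g * (1 - 2 * f)) +
      z * hp + κ * hz * z + κ * z * hz

end RRing

theorem sRRing : S_RRing := by
  intro A _ w w' η h1 h2 h3 h4 hn m hm he
  obtain ⟨k, rfl⟩ : ∃ k, m = k + 1 := ⟨m - 1, by omega⟩
  have hκη : (w * w) * η = η * (w * w) := by
    linear_combination (norm := noncomm_ring) w * h3 - h3 * w
  have hκw' : (w * w) * w' = w' * (w * w) := by
    linear_combination (norm := noncomm_ring) h4 * w' - w' * h4 + w * h1 - h1 * w
  have hκa : (w * w) * (1 - η * w) = (1 - η * w) * (w * w) := by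
    linear_combination (norm := noncomm_ring) - hκη * w
  have haa : (1 - η * w) * (1 - η * w) = (1 - η * w) - (w * w) * (η * η) := by
    linear_combination (norm := noncomm_ring) η * h3 * w + hκη * η + η * hκη
  obtain ⟨z, hz, hzc⟩ := RRing_pow (1 - η * w) (w * w) η hκη hκa haa k
  have hff : (1 - η * w') * (1 - η * w') = 1 - η * w' := by
    linear_combination (norm := noncomm_ring) η * h2 * w' - η * η * h1
  have hκβ : (w * w) * (w - w') = (w - w') * (w * w) := by
    linear_combination (norm := noncomm_ring) - hκw'
  have hκf : (w * w) * (1 - η * w') = (1 - η * w') * (w * w) := by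
    linear_combination (norm := noncomm_ring) - hκη * w' - η * hκw'
  have hκg : (w * w) * (η * (w - w')) = (η * (w - w')) * (w * w) := by
    linear_combination (norm := noncomm_ring) hκη * (w - w') + η * hκβ
  have hβη : (w - w') * η = - (η * (w - w')) := by
    linear_combination (norm := noncomm_ring) h3 - h2
  have hfw : 1 - η * w' = w' * η := by
    linear_combination (norm := noncomm_ring) - h2
  have hκd : w * w = (w - w') * w' + w' * (w - w') := by
    linear_combination (norm := noncomm_ring) h4 + h1
  have hβηη : (w - w') * (η * η) = η * η * (w - w') := by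
    linear_combination (norm := noncomm_ring) hβη * η - η * hβη
  have g2 : (η * (w - w')) * (η * (w - w')) = 0 := by
    linear_combination (norm := noncomm_ring) η * hβη * (w - w') - η * η * h4
  have gfg : (η * (w - w')) * (w' * η) * (η * (w - w')) =
      (w * w) * (η * η * (η * (w - w'))) := by
    have e1 : (w - w') * w' = w * w - w' * (w - w') := by rw [hκd]; noncomm_ring
    calc (η * (w - w')) * (w' * η) * (η * (w - w'))
        = η * ((w - w') * w') * (η * η * (w - w')) := by noncomm_ring
      _ = η * (w * w) * (η * η * (w - w')) - η * w' * ((w - w') * (η * η)) * (w - w') := by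
          rw [e1]; noncomm_ring
      _ = η * (w * w) * (η * η * (w - w')) - η * w' * (η * η) * ((w - w') * (w - w')) := by
          rw [hβηη]; noncomm_ring
      _ = (w * w) * (η * η * (η * (w - w'))) := by
          rw [h4, ← hκη]; noncomm_ring
  have hgg : (η * (w - w')) * (1 - 2 * (1 - η * w')) * (η * (w - w')) =
      - (2 * ((w * w) * (η * η * (η * (w - w'))))) := by
    rw [← gfg, hfw]
    linear_combination (norm := noncomm_ring) g2
  set e := (1 - η * w) ^ (k + 1) with hed
  set f := 1 - η * w' with hfd
  have hz' : (w * w) * (2 * (z * f) - z) = (2 * (z * f) - z) * (w * w) := by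
    linear_combination (norm := noncomm_ring) 2 * (hzc * f) + 2 * (z * hκf) - hzc
  obtain ⟨y, hy, hyc⟩ := RRing_sq (w * w) η f (η * (w - w')) (2 * (z * f) - z) hκη hκf
    hκg hz' hgg
  have hu1 : e * f + (1 - e) * (1 - f) - 1 =
      (η * (w - w')) * (1 - 2 * f) + (w * w) * (2 * (z * f) - z) := by
    have hfg : (1 - η * w) = f - η * (w - w') := by rw [hfd]; noncomm_ring
    rw [hz, hfg]
    linear_combination (norm := noncomm_ring) 2 * hff
  have hnil : IsNilpotent (e * f + (1 - e) * (1 - f) - 1) := by
    have hκn : IsNilpotent (w * w) := (Commute.refl w).isNilpotent_mul_right hn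
    have h5 : IsNilpotent ((w * w) * y) :=
      Commute.isNilpotent_mul_right (show Commute (w * w) y from hyc) hκn
    obtain ⟨n, hn5⟩ := h5
    refine ⟨2 * n, ?_⟩
    rw [pow_mul, pow_two, hu1, hy, hn5]
  have hunit : IsUnit (e * f + (1 - e) * (1 - f)) := by
    have := hnil.isUnit_one_add
    rwa [add_sub_cancel] at this
  obtain ⟨U, hU⟩ := hunit
  refine ⟨(U : A), ((U⁻¹ : Aˣ) : A), by simp, by simp, ?_, ?_⟩
  · rw [hU]
    linear_combination (norm := noncomm_ring) (1 - e) * hff - e * hff
  · rw [hU]
    linear_combination (norm := noncomm_ring) he * (1 - f) - he * f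

end HSp
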