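import Pool.Agent.Lib.MP_181146_gt.HS.SpecR

/-! # RTot: the total form of part (a) (author helper12) -/

set_option autoImplicit false

namespace HSp

/-- Every cycle whose class is killed by `W` lifts to a relative cycle. -/
private theorem RTot_factK (h1 : S_RVec) (h2 : S_RMat) (h5 : S_RCyc) {S Rb I : Type} [CommRing S]
    [CommRing Rb] [Fintype I] [DecidableEq I] (C : RC S Rb) (X : TC S I C.t)
    (W : Module.End Rb (Hm (X.d.map C.ρ))) (hW : IsCon C X W) (x : I → Rb)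
    (hx : (X.d.map C.ρ).mulVec x = 0) (h0 : W (cl (X.d.map C.ρ) x hx) = 0) :
    ∃ x' z : I → S, X.d.mulVec x' = C.N • z ∧ C.ρ ∘ x' = x := by
  obtain ⟨q1, -, -, -, -, q6, -, -⟩ := h1 S Rb I C
  obtain ⟨p1, -, p3, -⟩ := h2 S Rb I C X
  obtain ⟨c1, c2⟩ := h5 S Rb I C X
  obtain ⟨u, y, z, hu, hd⟩ := c2 x hx
  obtain ⟨hu', hy', e1⟩ := hW u y z hd
  have e2 : cl (X.d.map C.ρ) (C.ρ ∘ y) hy' = 0 := by
    rw [← e1, ← h0]
    exact congrArg W (cl_congr hu)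
  rw [cl_zero_iff] at e2
  obtain ⟨v, hv⟩ := e2
  obtain ⟨-, -, -, -, -, b, hb1, hb2⟩ := c1 u y z hd
  obtain ⟨v', hv'⟩ := q1 ((X.h.map C.ρ).mulVec v)
  refine ⟨u - X.h.mulVec y - X.d.mulVec v', z + X.h.mulVec b, ?_, ?_⟩
  · rw [Matrix.mulVec_sub, hb2, Matrix.mulVec_mulVec, X.dd, Matrix.zero_mulVec, sub_zero]
  · have e3 : C.ρ ∘ (u - X.h.mulVec y - X.d.mulVec v') =
        C.ρ ∘ u - C.ρ ∘ X.h.mulVec y - C.ρ ∘ X.d.mulVec v' := by
      funext i
      simp only [Function.comp_apply, Pi.sub_apply, map_sub]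
    have e4 : (X.d.map C.ρ).mulVec ((X.h.map C.ρ).mulVec v) +
        (X.h.map C.ρ).mulVec ((X.d.map C.ρ).mulVec v) = 0 := by
      rw [Matrix.mulVec_mulVec, Matrix.mulVec_mulVec, ← Matrix.add_mulVec, p3,
        Matrix.zero_mulVec]
    rw [e3, q6, q6, hv', hu, ← hv, sub_sub, add_comm, e4, sub_zero]

theorem sRTot (h1 : S_RVec) (h2 : S_RMat) (h3 : S_RNil) (h4 : S_RCf1) (h5 : S_RCyc)
    (h6 : S_RCon) (h7 : S_RRel) (h8 : S_RRing) : S_RTot := by
  intro S Rb I _ _ _ _ C X m hm he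
  obtain ⟨p1, p2, p3, p4⟩ := h2 S Rb I C X
  have hc : X.d.map C.ρ * X.phi C ^ m = X.phi C ^ m * X.d.map C.ρ :=
    (Commute.pow_right (show Commute (X.d.map C.ρ) (X.phi C) from p4) m).eq
  have pw : Pres (X.d.map C.ρ) (X.d.map C.σ) := pres_anti p2
  have pη : Pres (X.d.map C.ρ) (X.h.map C.ρ) := pres_anti p3
  have pφ : Pres (X.d.map C.ρ) (X.phi C) := pres_comm p4
  have pe : Pres (X.d.map C.ρ) (X.phi C ^ m) := pres_pow pφ m
  obtain ⟨W, hW⟩ := h6 S Rb I C X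
  have hr := h7 S Rb I C X W hW pw pη
  simp only at hr
  obtain ⟨r1, r2, r3, r4⟩ := hr
  -- nilpotence
  have hnil : IsNilpotent (ind (X.d.map C.ρ) (X.d.map C.σ) pw) := by
    obtain ⟨n, hn⟩ := (h3 Rb I X.deg (X.d.map C.σ)).1 fun a b hab => by
      rw [Matrix.map_apply, X.dl a b hab, map_zero]
    refine ⟨n, ?_⟩
    rw [← ind_pow pw n (pres_pow pw n)]
    exact ind_null _ 0 _ (by rw [hn, mul_zero, zero_mul, add_zero])
  -- the operator induced by `e`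
  have hφ : ind (X.d.map C.ρ) (X.phi C) pφ = 1 - ind (X.d.map C.ρ) (X.h.map C.ρ) pη *
      ind (X.d.map C.ρ) (X.d.map C.σ) pw := by
    have e1 : ind (X.d.map C.ρ) (1 - X.h.map C.ρ * X.d.map C.σ)
        (pres_sub pres_one (pres_mul pη pw)) = 1 - ind (X.d.map C.ρ) (X.h.map C.ρ) pη *
        ind (X.d.map C.ρ) (X.d.map C.σ) pw := by
      rw [ind_sub pres_one (pres_mul pη pw), ind_one, ind_mul pη pw]
    exact e1
  have heI : ind (X.d.map C.ρ) (X.phi C ^ m) pe = (1 - ind (X.d.map C.ρ) (X.h.map C.ρ) pη *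
      ind (X.d.map C.ρ) (X.d.map C.σ) pw) ^ m := by
    rw [ind_pow pφ m pe, hφ]
  have hee : ind (X.d.map C.ρ) (X.phi C ^ m) pe * ind (X.d.map C.ρ) (X.phi C ^ m) pe =
      ind (X.d.map C.ρ) (X.phi C ^ m) pe := by
    rw [← ind_mul pe pe (pres_mul pe pe)]
    exact ind_congr _ _ he
  obtain ⟨u, v, huv, hvu, g1, g2⟩ := h8 (Module.End Rb (Hm (X.d.map C.ρ)))
    (ind (X.d.map C.ρ) (X.d.map C.σ) pw) W (ind (X.d.map C.ρ) (X.h.map C.ρ) pη) r1 r2 r3 r4 hnil m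
    hm (by rw [← heI]; exact hee)
  rw [← heI] at g1 g2
  refine ⟨hc, fun y hy1 hy2 => ?_, fun x z w hx hw => ?_⟩
  · -- onto
    have hWf : W * (1 - ind (X.d.map C.ρ) (X.h.map C.ρ) pη * W) = 0 := by
      have e1 : W * (ind (X.d.map C.ρ) (X.h.map C.ρ) pη * W) = W := by
        have e2 : (W * ind (X.d.map C.ρ) (X.h.map C.ρ) pη +
            ind (X.d.map C.ρ) (X.h.map C.ρ) pη * W) * W = W := by rw [r2, one_mul]
        rwa [add_mul, mul_assoc, mul_assoc, r1, mul_zero, add_zero] at e2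
      rw [mul_sub, mul_one, e1, sub_self]
    have hey : ind (X.d.map C.ρ) (X.phi C ^ m) pe (cl _ y hy2) = cl _ y hy2 := by
      rw [ind_cl]
      exact cl_congr hy1
    obtain ⟨x, hx, hxe⟩ := cl_surj (X.d.map C.ρ)
      (((1 - ind (X.d.map C.ρ) (X.h.map C.ρ) pη * W) * v) (cl _ y hy2))
    have hWx : W (cl _ x hx) = 0 := by
      rw [← hxe, ← Module.End.mul_apply, ← mul_assoc, hWf, zero_mul, LinearMap.zero_apply]
    have hex : ind (X.d.map C.ρ) (X.phi C ^ m) pe (cl _ x hx) = cl _ y hy2 := by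
      rw [← hxe, ← Module.End.mul_apply, ← mul_assoc, g2, mul_assoc, huv, mul_one]
      exact hey
    rw [ind_cl, cl_eq_iff] at hex
    obtain ⟨s, hs⟩ := hex
    have hx1 : (X.d.map C.ρ).mulVec (x - (X.d.map C.ρ).mulVec s) = 0 := by
      rw [Matrix.mulVec_sub, hx, Matrix.mulVec_mulVec, p1, Matrix.zero_mulVec, sub_zero]
    have hW1 : W (cl (X.d.map C.ρ) (x - (X.d.map C.ρ).mulVec s) hx1) = 0 := by
      rw [← hWx]
      refine congrArg W (cl_eq_iff.2 ⟨-s, ?_⟩)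
      rw [Matrix.mulVec_neg]
      abel
    obtain ⟨x', z, e1, e2⟩ := RTot_factK h1 h2 h5 C X W hW _ hx1 hW1
    refine ⟨x', z, e1, ?_⟩
    have e3 : (X.phi C ^ m).mulVec ((X.phi C ^ m).mulVec x) = (X.phi C ^ m).mulVec x := by
      rw [Matrix.mulVec_mulVec, he]
    have e4 : (X.phi C ^ m).mulVec ((X.d.map C.ρ).mulVec s) = (X.phi C ^ m).mulVec x - y := by
      rw [hs, Matrix.mulVec_sub, e3, hy1]
    rw [e2, Matrix.mulVec_sub, e4, sub_sub_cancel]
  · -- injectivity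
    obtain ⟨hu, hy, e1⟩ := hW x 0 z (by rw [smul_zero, zero_add]; exact hx)
    have e0 : cl (X.d.map C.ρ) (C.ρ ∘ (0 : I → S)) hy = 0 := by
      rw [cl_zero_iff]
      refine ⟨0, ?_⟩
      rw [Matrix.mulVec_zero]
      funext i
      exact (map_zero C.ρ).symm
    rw [e0] at e1
    have e2 : (1 - ind (X.d.map C.ρ) (X.h.map C.ρ) pη * W) (cl _ (C.ρ ∘ x) hu) =
        cl _ (C.ρ ∘ x) hu := by
      rw [LinearMap.sub_apply, Module.End.one_apply, Module.End.mul_apply, e1, map_zero, sub_zero]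
    have e3 : ind (X.d.map C.ρ) (X.phi C ^ m) pe (cl _ (C.ρ ∘ x) hu) = 0 := by
      rw [ind_cl, cl_zero_iff]
      exact ⟨w, hw.symm⟩
    have e4 : u (cl _ (C.ρ ∘ x) hu) = 0 := by
      have e5 := congrArg (fun f : Module.End Rb (Hm (X.d.map C.ρ)) => f (cl _ (C.ρ ∘ x) hu)) g1
      simp only [Module.End.mul_apply] at e5
      rw [e2, e3] at e5
      exact e5.symm
    have e6 : cl (X.d.map C.ρ) (C.ρ ∘ x) hu = 0 := by
      have e7 := congrArg (fun f : Module.End Rb (Hm (X.d.map C.ρ)) => f (cl _ (C.ρ ∘ x) hu)) hvu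
      simp only [Module.End.mul_apply, Module.End.one_apply] at e7
      rw [e4, map_zero] at e7
      exact e7.symm
    rw [cl_zero_iff] at e6
    obtain ⟨v0, hv0⟩ := e6
    exact h4 S Rb I C X x z v0 hx hv0.symm

end HSp
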