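import Pool.Agent.Lib.MP_181146_gt.HS.SpecR

/-! Module `RVec` (helper46): the properties of `RC` for vectors and matrices. -/

set_option autoImplicit false

namespace HSp

theorem sRVec : S_RVec := by
  intro S Rb I _ _ _ _ C
  refine ⟨fun v => ?_, fun u hu => ?_, fun u hu => ?_, fun u hu => ?_, fun x y hxy => ?_,
    fun A u => ?_, fun A u => ?_, fun y z => ⟨?_, ?_⟩⟩
  · choose u hu using fun i => C.surj (v i)
    exact ⟨u, funext hu⟩
  · choose a b hab using fun i => C.ker (u i) (congrFun hu i)
    exact ⟨a, b, funext hab⟩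
  · choose y hy using fun i => C.ker_t (u i) (congrFun hu i)
    exact ⟨y, funext hy⟩
  · choose y hy using fun i => C.ker_N (u i) (congrFun hu i)
    exact ⟨y, funext hy⟩
  · exact funext fun i => C.sep (x i) (y i) (congrFun hxy i)
  · funext i
    change C.ρ (∑ j, A i j * u j) = ∑ j, C.ρ (A i j) * C.ρ (u j)
    rw [map_sum]
    exact Finset.sum_congr rfl fun j _ => map_mul _ _ _
  · funext i
    change C.σ (∑ j, A i j * u j) =
      ∑ j, C.σ (A i j) * C.ρ (u j) + ∑ j, C.ρ (A i j) * C.σ (u j)
    rw [map_sum, ← Finset.sum_add_distrib]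
    exact Finset.sum_congr rfl fun j _ => C.der _ _
  · funext i
    change C.ρ (C.t * y i + C.N * z i) = 0
    rw [map_add, map_mul, map_mul, C.ρt, C.ρN, zero_mul, zero_mul, add_zero]
  · funext i
    change C.σ (C.t * y i + C.N * z i) = C.ρ (y i) + C.c * C.ρ (z i)
    rw [map_add, C.der, C.der, C.ρt, C.ρN, C.σt, C.σN, zero_mul, zero_mul, add_zero, add_zero,
      one_mul]

end HSp
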