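import Pool.Agent.Lib.MP_181146_gt.HS.SpecR2

/-!
# Project HS, RZq: `ℤ_(p)` modulo `p^k`
-/

set_option autoImplicit false

namespace HSp

lemma RZq_unit (p k : ℕ) [hp : Fact p.Prime] (s : ℤ) (hs : ¬ (p : ℤ) ∣ s) :
    IsUnit (s : ZMod (p ^ k)) := by
  rw [ZMod.coe_int_isUnit_iff_isCoprime]
  push_cast
  exact (((Nat.prime_iff_prime_int.1 hp.out).coprime_iff_not_dvd).2 hs).pow_left

/-- The value of the projection. -/
noncomputable def RZq_q (p k : ℕ) [Fact p.Prime] (x : ZL p) : ZMod (p ^ k) :=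
  (x.2.choose_spec.choose : ZMod (p ^ k)) * ((x.2.choose : ℤ) : ZMod (p ^ k))⁻¹

lemma RZq_spec (p k : ℕ) [hp : Fact p.Prime] (x : ZL p) (s z : ℤ) (_hs : ¬ (p : ℤ) ∣ s)
    (h : (s : ℚ) * x.1 = z) : RZq_q p k x * (s : ZMod (p ^ k)) = z := by
  obtain ⟨h0, h1⟩ := x.2.choose_spec.choose_spec
  set s0 : ℤ := x.2.choose with hs0
  set z0 : ℤ := x.2.choose_spec.choose with hz0
  have hq : RZq_q p k x = (z0 : ZMod (p ^ k)) * (s0 : ZMod (p ^ k))⁻¹ := rfl
  have hu := RZq_unit p k s0 h0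
  have hi : (s0 : ZMod (p ^ k)) * (s0 : ZMod (p ^ k))⁻¹ = 1 := ZMod.mul_inv_of_unit _ hu
  have he : (s : ℚ) * z0 = s0 * z := by
    rw [← h1, ← h]
    ring
  have he' : s * z0 = s0 * z := by exact_mod_cast he
  have he2 : (s : ZMod (p ^ k)) * z0 = s0 * z := by exact_mod_cast congrArg (Int.cast (R := ZMod (p ^ k))) he'
  rw [hq]
  calc (z0 : ZMod (p ^ k)) * (s0 : ZMod (p ^ k))⁻¹ * s
      = (s * z0) * (s0 : ZMod (p ^ k))⁻¹ := by ring
    _ = z * ((s0 : ZMod (p ^ k)) * (s0 : ZMod (p ^ k))⁻¹) := by rw [he2]; ring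
    _ = z := by rw [hi, mul_one]

lemma RZq_eq (p k : ℕ) [hp : Fact p.Prime] (x : ZL p) (s z : ℤ) (hs : ¬ (p : ℤ) ∣ s)
    (h : (s : ℚ) * x.1 = z) (y : ZMod (p ^ k)) (hy : y * (s : ZMod (p ^ k)) = z) :
    RZq_q p k x = y := by
  have h1 := RZq_spec p k x s z hs h
  exact (RZq_unit p k s hs).mul_right_cancel (h1.trans hy.symm)

lemma RZq_notdvd_one (p : ℕ) [hp : Fact p.Prime] : ¬ (p : ℤ) ∣ 1 := fun h =>
  (Nat.prime_iff_prime_int.1 hp.out).not_isUnit (isUnit_of_dvd_one h)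

lemma RZq_notdvd_mul (p : ℕ) [hp : Fact p.Prime] {s s' : ℤ} (hs : ¬ (p : ℤ) ∣ s)
    (hs' : ¬ (p : ℤ) ∣ s') : ¬ (p : ℤ) ∣ s * s' := fun hd =>
  ((Nat.prime_iff_prime_int.1 hp.out).dvd_or_dvd hd).elim hs hs'

theorem sRZq : S_RZq := by
  intro p k hp
  have hn0 : ((p ^ k : ℕ) : ℚ) ≠ 0 := by
    exact_mod_cast pow_ne_zero k hp.out.ne_zero
  let q : ZL p →+* ZMod (p ^ k) :=
    { toFun := RZq_q p k
      map_one' := RZq_eq p k 1 1 1 (RZq_notdvd_one p) (by simp) 1 (by simp)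
      map_zero' := RZq_eq p k 0 1 0 (RZq_notdvd_one p) (by simp) 0 (by simp)
      map_mul' := by
        intro x y
        obtain ⟨s, z, hs, h⟩ := x.2
        obtain ⟨s', z', hs', h'⟩ := y.2
        refine RZq_eq p k (x * y) (s * s') (z * z') (RZq_notdvd_mul p hs hs') ?_ _ ?_
        · push_cast
          rw [← h, ← h']
          ring
        · push_cast
          rw [← RZq_spec p k x s z hs h, ← RZq_spec p k y s' z' hs' h']
          ring
      map_add' := by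
        intro x y
        obtain ⟨s, z, hs, h⟩ := x.2
        obtain ⟨s', z', hs', h'⟩ := y.2
        refine RZq_eq p k (x + y) (s * s') (z * s' + s * z') (RZq_notdvd_mul p hs hs') ?_ _ ?_
        · push_cast
          rw [← h, ← h']
          ring
        · push_cast
          rw [← RZq_spec p k x s z hs h, ← RZq_spec p k y s' z' hs' h']
          ring }
  have hq : ∀ x, q x = RZq_q p k x := fun _ => rfl
  refine ⟨q, ?_, ?_, ?_⟩
  · intro a
    obtain ⟨z, rfl⟩ := ZMod.intCast_surjective a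
    refine ⟨(z : ZL p), ?_⟩
    rw [map_intCast]
  · intro x hx
    obtain ⟨s, z, hs, h⟩ := x.2
    have h1 := RZq_spec p k x s z hs h
    rw [← hq, hx, zero_mul] at h1
    obtain ⟨c, hc⟩ := (ZMod.intCast_zmod_eq_zero_iff_dvd z (p ^ k)).1 h1.symm
    have hy : (s : ℚ) * (x.1 / ((p ^ k : ℕ) : ℚ)) = c := by
      rw [← mul_div_assoc, h, div_eq_iff hn0, hc]
      push_cast
      ring
    refine ⟨⟨x.1 / ((p ^ k : ℕ) : ℚ), s, c, hs, hy⟩, ?_⟩
    apply Subtype.ext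
    change x.1 = ((p ^ k : ℕ) : ℚ) * (x.1 / ((p ^ k : ℕ) : ℚ))
    rw [mul_div_cancel₀ _ hn0]
  · intro x hx
    have h1 : ((p ^ k : ℕ) : ℚ) * x.1 = 0 := congrArg Subtype.val hx
    exact Subtype.ext ((mul_eq_zero.1 h1).resolve_left hn0)

end HSp
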