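import Pool.Agent.Lib.MP_181146_gt.HS.SpecT

/-!
# Project HS, module TAdp: adapted bases over a local quotient, lifting
-/

set_option autoImplicit false

namespace HSp

/-- adapted bases over a local ring -/
private lemma TAdp_basis {Rb : Type} [CommRing Rb] [IsLocalRing Rb] (r g : ℕ)
    (e : Matrix (Fin r) (Fin r) Rb) (he : e * e = e)
    (φ : LinearMap.range e.mulVecLin ≃ₗ[Rb] (Fin g → Rb)) :
    g ≤ r ∧ ∃ A A' : Matrix (Fin r) (Fin r) Rb, A * A' = 1 ∧
      e * A = A * Matrix.diagonal (fun i : Fin r => if (i : ℕ) < g then (1 : Rb) else 0) := by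
  have hid : IsIdempotentElem e.mulVecLin := by
    show e.mulVecLin ∘ₗ e.mulVecLin = e.mulVecLin
    rw [← Matrix.mulVecLin_mul, he]
  have hc : IsCompl (LinearMap.range e.mulVecLin) (LinearMap.ker e.mulVecLin) :=
    LinearMap.IsIdempotentElem.isCompl hid
  have hfinK : Module.Finite Rb (LinearMap.ker e.mulVecLin) := by
    have hsur : Function.Surjective
        ((LinearMap.snd Rb (LinearMap.range e.mulVecLin) (LinearMap.ker e.mulVecLin)) ∘ₗ
          (Submodule.prodEquivOfIsCompl _ _ hc).symm.toLinearMap) := by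
      rw [LinearMap.coe_comp]
      exact Prod.snd_surjective.comp (Submodule.prodEquivOfIsCompl _ _ hc).symm.surjective
    exact Module.Finite.of_surjective _ hsur
  have hproj : Module.Projective Rb (LinearMap.ker e.mulVecLin) := by
    refine Module.Projective.of_split
      ((Submodule.prodEquivOfIsCompl _ _ hc).toLinearMap ∘ₗ
        LinearMap.inr Rb (LinearMap.range e.mulVecLin) (LinearMap.ker e.mulVecLin))
      ((LinearMap.snd Rb (LinearMap.range e.mulVecLin) (LinearMap.ker e.mulVecLin)) ∘ₗ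
          (Submodule.prodEquivOfIsCompl _ _ hc).symm.toLinearMap) ?_
    ext x
    simp
  have hfp : Module.FinitePresentation Rb (LinearMap.ker e.mulVecLin) :=
    Module.finitePresentation_of_projective _ _
  have hfree : Module.Free Rb (LinearMap.ker e.mulVecLin) := Module.free_of_flat_of_isLocalRing
  obtain ⟨k, ⟨bK⟩⟩ : ∃ k, Nonempty (Module.Basis (Fin k) Rb (LinearMap.ker e.mulVecLin)) :=
    ⟨_, ⟨Module.finBasis Rb (LinearMap.ker e.mulVecLin)⟩⟩
  have bR : Module.Basis (Fin g) Rb (LinearMap.range e.mulVecLin) := Module.Basis.ofEquivFun φ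
  let b := (bR.prod bK).map (Submodule.prodEquivOfIsCompl _ _ hc)
  have hr : r = g + k := by
    have h1 := Module.finrank_eq_card_basis b
    have h2 := Module.finrank_eq_card_basis (Pi.basisFun Rb (Fin r))
    rw [h2] at h1
    simpa using h1
  subst hr
  refine ⟨by omega, ?_⟩
  let c := b.reindex finSumFinEquiv
  refine ⟨(Pi.basisFun Rb (Fin (g + k))).toMatrix c, c.toMatrix (Pi.basisFun Rb (Fin (g + k))),
    Module.Basis.toMatrix_mul_toMatrix_flip _ _, ?_⟩
  have hcol : ∀ j : Fin (g + k), e.mulVec (c j) = if (j : ℕ) < g then c j else 0 := by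
    intro j
    obtain ⟨s, rfl⟩ := finSumFinEquiv.surjective j
    have hcs : c (finSumFinEquiv s) = b s := by
      simp [c]
    rw [hcs]
    rcases s with i | i
    · have hb : b (Sum.inl i) = (bR i : Fin (g + k) → Rb) := by
        simp [b]
      have hlt : ((finSumFinEquiv (Sum.inl i) : Fin (g + k)) : ℕ) < g := by
        simp
      rw [if_pos hlt, hb]
      have hm := (LinearMap.IsIdempotentElem.mem_range_iff hid).1 (bR i).2
      exact hm
    · have hb : b (Sum.inr i) = (bK i : Fin (g + k) → Rb) := by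
        simp [b]
      have hlt : ¬ ((finSumFinEquiv (Sum.inr i) : Fin (g + k)) : ℕ) < g := by
        simp
      rw [if_neg hlt, hb]
      exact LinearMap.mem_ker.1 (bK i).2
  ext i j
  rw [Matrix.mul_diagonal]
  have h1 : (e * (Pi.basisFun Rb (Fin (g + k))).toMatrix c) i j = e.mulVec (c j) i := by
    simp [Matrix.mul_apply, Matrix.mulVec, dotProduct, Module.Basis.toMatrix_apply]
  rw [h1, hcol j]
  simp only [Module.Basis.toMatrix_apply, Pi.basisFun_repr]
  split_ifs
  · rw [mul_one]
  · rw [mul_zero]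
    rfl

theorem sTAdp : S_TAdp := by
  intro B Rb _ _ _ ρ hs hl r g e he hφ
  obtain ⟨φ⟩ := hφ
  obtain ⟨hgr, A0, A0', hA0, hA1⟩ := TAdp_basis r g e he φ
  obtain ⟨σ, hσ⟩ := hs.hasRightInverse
  have hmap : (A0.map σ).map ρ = A0 := by
    ext i j
    simp only [Matrix.map_apply]
    exact hσ _
  have hdet : IsUnit (A0.map σ).det := by
    apply hl
    have h1 : ρ (A0.map σ).det = A0.det := by
      rw [RingHom.map_det, RingHom.mapMatrix_apply, hmap]
    rw [h1]
    have h2 := congrArg Matrix.det hA0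
    rw [Matrix.det_mul, Matrix.det_one] at h2
    exact IsUnit.of_mul_eq_one _ h2
  refine ⟨A0.map σ, (A0.map σ)⁻¹, Matrix.mul_nonsing_inv _ hdet, Matrix.nonsing_inv_mul _ hdet,
    ?_, hgr⟩
  rw [hmap]
  exact hA1

end HSp
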