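import Pool.Agent.Lib.MP_181146_gt.HS.SpecT

/-!
# Project HS: property (N) implies commutativity
-/

set_option autoImplicit false

namespace HSp

theorem sTCom : S_TCom := by
  intro E _ Γ hN a b
  obtain ⟨H, -, h1, hc⟩ := hN a
  apply Subtype.ext
  apply Homeomorph.ext
  intro x
  change a.1 (b.1 x) = b.1 (a.1 x)
  rw [← h1, ← h1]
  exact hc b 1 x

end HSp
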