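import Pool.Agent.Lib.MP_181146_gt.HS.SpecT

/-!
# Project HS, third part: criterion for a unit of `ℚ[Γ]` which is locally a unit of `ℤ_(p)[Γ]`
-/

set_option autoImplicit false

namespace HSp

section TCrit

private lemma TCrit_aug_single (A : Type) [CommRing A] (Γ : Type) [CommGroup Γ] (h : Γ) (a : A) :
    aug A Γ (MonoidAlgebra.single h a) = a := by
  unfold aug
  change MonoidAlgebra.lift A A Γ (1 : Γ →* A) (MonoidAlgebra.single h a) = a
  rw [MonoidAlgebra.lift_single, MonoidHom.one_apply, smul_eq_mul, mul_one]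

private lemma TCrit_aug_of (A : Type) [CommRing A] (Γ : Type) [CommGroup Γ] (h : Γ) :
    aug A Γ (MonoidAlgebra.of A Γ h) = 1 := TCrit_aug_single A Γ h 1

private lemma TCrit_nrG (A : Type) [CommRing A] (Γ : Type) [CommGroup Γ] [Fintype Γ] :
    nrG A Γ = ∑ γ : Γ, MonoidAlgebra.of A Γ γ := finsum_eq_sum_of_fintype _

private lemma TCrit_aug_smul (A : Type) [CommRing A] (Γ : Type) [CommGroup Γ] (a : A)
    (x : MonoidAlgebra A Γ) : aug A Γ (a • x) = a * aug A Γ x := by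
  unfold aug
  exact map_smul (MonoidAlgebra.lift A A Γ (1 : Γ →* A)) a x

private lemma TCrit_mul (A : Type) [CommRing A] (Γ : Type) [CommGroup Γ] [Finite Γ]
    (x : MonoidAlgebra A Γ) : x * nrG A Γ = aug A Γ x • nrG A Γ := by
  have := Fintype.ofFinite Γ
  induction x using MonoidAlgebra.induction_linear with
  | zero => rw [zero_mul, map_zero, zero_smul]
  | add f g hf hg => rw [add_mul, hf, hg, map_add, add_smul]
  | single h a =>
    rw [TCrit_aug_single, TCrit_nrG, Finset.mul_sum, Finset.smul_sum]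
    refine Fintype.sum_equiv (Equiv.mulLeft h) _ _ fun γ => ?_
    rw [MonoidAlgebra.of_apply, MonoidAlgebra.of_apply, MonoidAlgebra.single_mul_single,
      MonoidAlgebra.smul_single, Equiv.coe_mulLeft, smul_eq_mul]

private lemma TCrit_aug_nrG (A : Type) [CommRing A] (Γ : Type) [CommGroup Γ] [Finite Γ] :
    aug A Γ (nrG A Γ) = (Nat.card Γ : A) := by
  have := Fintype.ofFinite Γ
  rw [TCrit_nrG, map_sum, Finset.sum_congr rfl fun γ _ => TCrit_aug_of A Γ γ, Finset.sum_const,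
    Finset.card_univ, nsmul_eq_mul, mul_one, Nat.card_eq_fintype_card]

private lemma TCrit_coeff (A : Type) [CommRing A] (Γ : Type) [CommGroup Γ] [Finite Γ] (γ : Γ) :
    (nrG A Γ).coeff γ = 1 := by
  classical
  have := Fintype.ofFinite Γ
  rw [TCrit_nrG, MonoidAlgebra.coeff_sum, Finsupp.finsetSum_apply]
  rw [Finset.sum_eq_single γ]
  · rw [MonoidAlgebra.of_apply, MonoidAlgebra.coeff_single, Finsupp.single_eq_same]
  · intro b _ hb
    rw [MonoidAlgebra.of_apply, MonoidAlgebra.coeff_single, Finsupp.single_apply, if_neg hb]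
  · intro h
    exact absurd (Finset.mem_univ γ) h

variable (p : ℕ) [Fact p.Prime] (Γ : Type) [CommGroup Γ]

private lemma TCrit_sk_coeff (s : MonoidAlgebra (ZL p) Γ) (γ : Γ) :
    (sk p Γ s).coeff γ = ((s.coeff γ : ZL p) : ℚ) := by
  unfold sk
  rw [MonoidAlgebra.coeff_mapRingHom]
  rfl

private lemma TCrit_sk_single (h : Γ) (a : ZL p) :
    sk p Γ (MonoidAlgebra.single h a) = MonoidAlgebra.single h (a : ℚ) := by
  unfold sk
  rw [MonoidAlgebra.mapRingHom_single]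
  rfl

private lemma TCrit_aug_sk (s : MonoidAlgebra (ZL p) Γ) :
    aug ℚ Γ (sk p Γ s) = ((aug (ZL p) Γ s : ZL p) : ℚ) := by
  induction s using MonoidAlgebra.induction_linear with
  | zero => rw [map_zero, map_zero, map_zero]; rfl
  | add f g hf hg => rw [map_add, map_add, hf, hg, map_add]; rfl
  | single h a => rw [TCrit_sk_single, TCrit_aug_single, TCrit_aug_single]

private lemma TCrit_sk_smul (a : ZL p) (s : MonoidAlgebra (ZL p) Γ) :
    sk p Γ (a • s) = (a : ℚ) • sk p Γ s := by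
  ext γ
  rw [TCrit_sk_coeff, MonoidAlgebra.coeff_smul, MonoidAlgebra.coeff_smul, Finsupp.smul_apply,
    Finsupp.smul_apply, TCrit_sk_coeff]
  rfl

private lemma TCrit_sk_nrG [Finite Γ] : sk p Γ (nrG (ZL p) Γ) = nrG ℚ Γ := by
  ext γ
  rw [TCrit_sk_coeff, TCrit_coeff, TCrit_coeff]
  rfl

private lemma TCrit_lift (y : MonoidAlgebra ℚ Γ) (h : ∀ γ, y.coeff γ ∈ ZL p) :
    ∃ s : MonoidAlgebra (ZL p) Γ, sk p Γ s = y := by
  have h1 : y ∈ Set.range (MonoidAlgebra.map (M := Γ) ((ZL p).subtype : ZL p →+ ℚ)) := by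
    rw [MonoidAlgebra.range_map]
    intro γ
    exact ⟨⟨y.coeff γ, h γ⟩, rfl⟩
  exact h1

/-- The elements `(γ - 1) y` are in the image of `S` for all `γ` if they are for generators. -/
private lemma TCrit_gen (y : MonoidAlgebra ℚ Γ) (G : Set Γ) (hG : Subgroup.closure G = ⊤)
    (h : ∀ g ∈ G, ∃ s : MonoidAlgebra (ZL p) Γ, sk p Γ s = (MonoidAlgebra.of ℚ Γ g - 1) * y)
    (γ : Γ) : ∃ s : MonoidAlgebra (ZL p) Γ, sk p Γ s = (MonoidAlgebra.of ℚ Γ γ - 1) * y := by
  have hof : ∀ g : Γ, sk p Γ (MonoidAlgebra.of (ZL p) Γ g) = MonoidAlgebra.of ℚ Γ g := by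
    intro g
    rw [MonoidAlgebra.of_apply, TCrit_sk_single]
    rfl
  have hγ : γ ∈ Subgroup.closure G := by
    rw [hG]
    exact Subgroup.mem_top γ
  induction hγ using Subgroup.closure_induction with
  | mem x hx => exact h x hx
  | one => exact ⟨0, by rw [map_zero, map_one, sub_self, zero_mul]⟩
  | mul a b _ _ ha hb =>
    obtain ⟨s, hs⟩ := ha
    obtain ⟨t, ht⟩ := hb
    refine ⟨MonoidAlgebra.of (ZL p) Γ a * t + s, ?_⟩
    rw [map_add, map_mul, hs, ht, hof, map_mul]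
    ring
  | inv a _ ha =>
    obtain ⟨s, hs⟩ := ha
    refine ⟨-(MonoidAlgebra.of (ZL p) Γ a⁻¹ * s), ?_⟩
    rw [map_neg, map_mul, hs, hof]
    have h1 : MonoidAlgebra.of ℚ Γ a⁻¹ * MonoidAlgebra.of ℚ Γ a = 1 := by
      rw [← map_mul, inv_mul_cancel, map_one]
    linear_combination (-y) * h1

private lemma TCrit_dec [Finite Γ] (y : MonoidAlgebra ℚ Γ)
    (h : ∀ γ : Γ, ∃ s : MonoidAlgebra (ZL p) Γ, sk p Γ s = (MonoidAlgebra.of ℚ Γ γ - 1) * y) :
    ∃ (s : MonoidAlgebra (ZL p) Γ) (c : ℚ), y = sk p Γ s + c • nrG ℚ Γ := by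
  obtain ⟨s, hs⟩ := TCrit_lift p Γ (y - (y.coeff 1) • nrG ℚ Γ) (by
    intro γ
    obtain ⟨t, ht⟩ := h γ⁻¹
    have h1 := congrArg (fun z : MonoidAlgebra ℚ Γ => z.coeff 1) ht
    simp only [sub_mul, one_mul, MonoidAlgebra.coeff_sub, Finsupp.sub_apply,
      MonoidAlgebra.of_apply, MonoidAlgebra.coeff_single_mul_apply, inv_inv, mul_one] at h1
    rw [TCrit_sk_coeff] at h1
    rw [MonoidAlgebra.coeff_sub, MonoidAlgebra.coeff_smul, Finsupp.sub_apply,
      Finsupp.smul_apply, TCrit_coeff, smul_eq_mul, mul_one, ← h1]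
    exact (t.coeff 1).2)
  exact ⟨s, y.coeff 1, by rw [hs, sub_add_cancel]⟩

private lemma TCrit_nat (a : ℕ) (ha : a.Coprime p) (ha0 : 0 < a) : IsUnit (a : ZL p) := by
  have hp : ¬ (p : ℤ) ∣ (a : ℤ) := by
    intro h1
    have h2 : p ∣ a := Int.natCast_dvd_natCast.mp h1
    have h3 : p ∣ Nat.gcd a p := Nat.dvd_gcd h2 dvd_rfl
    rw [ha] at h3
    exact (Fact.out : p.Prime).one_lt.ne' (Nat.dvd_one.mp h3)
  have ha' : (a : ℚ) ≠ 0 := by
    exact_mod_cast ha0.ne'
  have hmem : (a : ℚ)⁻¹ ∈ ZL p := ⟨a, 1, hp, by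
    push_cast
    exact mul_inv_cancel₀ ha'⟩
  refine IsUnit.of_mul_eq_one ⟨(a : ℚ)⁻¹, hmem⟩ ?_
  apply Subtype.ext
  push_cast
  exact mul_inv_cancel₀ ha'

end TCrit

theorem sTCrit (hTLoc : S_TLoc) (hTZL : S_TZL) : S_TCrit := by
  intro p _ Γ _ _ hp x x' hx hε G hG h
  obtain ⟨b, hb, hb'⟩ := hε
  obtain ⟨z1, z2, -, z4⟩ := hTZL p
  obtain ⟨k, hk⟩ := IsPGroup.iff_card.mp hp
  have hn0 : (Nat.card Γ : ℚ) ≠ 0 := by
    have : 0 < Nat.card Γ := Nat.card_pos
    exact_mod_cast this.ne'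
  have hNN : ∀ (A : Type) [CommRing A], nrG A Γ * nrG A Γ = (Nat.card Γ : A) • nrG A Γ := by
    intro A _
    rw [TCrit_mul, TCrit_aug_nrG]
  -- the two decompositions
  have hof : ∀ g : Γ, sk p Γ (MonoidAlgebra.of (ZL p) Γ g) = MonoidAlgebra.of ℚ Γ g := by
    intro g
    rw [MonoidAlgebra.of_apply, TCrit_sk_single]
    rfl
  -- first claim
  have claim : ∃ (u1 : MonoidAlgebra (ZL p) Γ) (c : ℚ), IsUnit (aug (ZL p) Γ u1) ∧
      x = sk p Γ u1 + c • nrG ℚ Γ := by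
    rcases subsingleton_or_nontrivial Γ with hs | hs
    · refine ⟨MonoidAlgebra.single 1 b, 0, ?_, ?_⟩
      · rw [TCrit_aug_single]
        exact hb
      · rw [zero_smul, add_zero, TCrit_sk_single, ← hb']
        have key : ∀ y : MonoidAlgebra ℚ Γ, y = MonoidAlgebra.single 1 (aug ℚ Γ y) := by
          intro y
          induction y using MonoidAlgebra.induction_linear with
          | zero => rw [map_zero, MonoidAlgebra.single_zero]
          | add f g hf hg => rw [map_add, MonoidAlgebra.single_add, ← hf, ← hg]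
          | single h a => rw [TCrit_aug_single, Subsingleton.elim h 1]
        exact key x
    · have hx1 : ∀ g ∈ G, ∃ s : MonoidAlgebra (ZL p) Γ,
          sk p Γ s = (MonoidAlgebra.of ℚ Γ g - 1) * x := by
        intro g hg
        obtain ⟨u, v, h1, h2⟩ := h g hg
        refine ⟨(MonoidAlgebra.of (ZL p) Γ g - 1) * u, ?_⟩
        rw [map_mul, map_sub, map_one, hof, h1]
      have hx2 : ∀ g ∈ G, ∃ s : MonoidAlgebra (ZL p) Γ,
          sk p Γ s = (MonoidAlgebra.of ℚ Γ g - 1) * x' := by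
        intro g hg
        obtain ⟨u, v, h1, h2⟩ := h g hg
        refine ⟨(MonoidAlgebra.of (ZL p) Γ g - 1) * v, ?_⟩
        rw [map_mul, map_sub, map_one, hof]
        rw [map_mul] at h2
        linear_combination (-(MonoidAlgebra.of ℚ Γ g - 1) * sk p Γ v) * hx +
          (x' * sk p Γ v) * h1 + x' * h2
      obtain ⟨u1, c, hu1⟩ := TCrit_dec p Γ x (TCrit_gen p Γ x G hG hx1)
      obtain ⟨v1, c', hv1⟩ := TCrit_dec p Γ x' (TCrit_gen p Γ x' G hG hx2)
      refine ⟨u1, c, ?_, hu1⟩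
      obtain ⟨c2, hc2⟩ : ∃ c2 : ℚ, c2 = -(c' * aug ℚ Γ x) - c * aug ℚ Γ x' +
          c * c' * (Nat.card Γ : ℚ) := ⟨_, rfl⟩
      have huv : sk p Γ (u1 * v1) = 1 + c2 • nrG ℚ Γ := by
        have e1 : sk p Γ u1 = x - c • nrG ℚ Γ := by rw [hu1]; abel
        have e2 : sk p Γ v1 = x' - c' • nrG ℚ Γ := by rw [hv1]; abel
        have e3 : (x - c • nrG ℚ Γ) * (x' - c' • nrG ℚ Γ) = x * x' - c' • (x * nrG ℚ Γ) -
            c • (x' * nrG ℚ Γ) + (c * c') • (nrG ℚ Γ * nrG ℚ Γ) := by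
          rw [sub_mul, mul_sub, mul_sub, mul_smul_comm, smul_mul_assoc, smul_mul_assoc,
            mul_smul_comm, mul_comm (nrG ℚ Γ) x', mul_smul]
          abel
        rw [map_mul, e1, e2, e3, hx, TCrit_mul, TCrit_mul, hNN, hc2, smul_smul, smul_smul,
          smul_smul, add_smul, sub_smul, neg_smul]
        abel
      have hc2m : c2 ∈ ZL p := by
        have h1 := congrArg (fun z : MonoidAlgebra ℚ Γ => z.coeff 1) huv
        simp only [MonoidAlgebra.coeff_add, Finsupp.add_apply, MonoidAlgebra.coeff_one_one,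
          MonoidAlgebra.coeff_smul, Finsupp.smul_apply, smul_eq_mul] at h1
        rw [TCrit_sk_coeff, TCrit_coeff, mul_one] at h1
        have h2 : c2 = (((u1 * v1).coeff 1 : ZL p) : ℚ) - 1 := by rw [h1]; ring
        rw [h2]
        exact sub_mem ((u1 * v1).coeff 1).2 (one_mem _)
      obtain ⟨w, hw⟩ : ∃ w : ZL p, (w : ℚ) = c2 := ⟨⟨c2, hc2m⟩, rfl⟩
      have haug : aug (ZL p) Γ u1 * aug (ZL p) Γ v1 = 1 + (Nat.card Γ : ZL p) * w := by
        apply Subtype.ext
        have h1 := congrArg (aug ℚ Γ) huv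
        rw [TCrit_aug_sk, map_mul, map_add, map_one, TCrit_aug_smul, TCrit_aug_nrG] at h1
        rw [h1]
        push_cast
        rw [hw]
        ring
      have hk0 : k ≠ 0 := by
        rintro rfl
        rw [pow_zero] at hk
        have := Finite.one_lt_card_iff_nontrivial.mpr hs
        omega
      obtain ⟨k', rfl⟩ := Nat.exists_eq_succ_of_ne_zero hk0
      have hunit : IsUnit (aug (ZL p) Γ u1 * aug (ZL p) Γ v1) := by
        rcases z1 (aug (ZL p) Γ u1 * aug (ZL p) Γ v1) with h1 | ⟨y, hy⟩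
        · exact h1
        · exfalso
          apply z2
          refine IsUnit.of_mul_eq_one (y - (p : ZL p) ^ k' * w) ?_
          rw [haug, hk] at hy
          push_cast at hy
          rw [Nat.succ_eq_add_one, pow_succ] at hy
          linear_combination -hy
      exact isUnit_of_mul_isUnit_left hunit
  obtain ⟨u1, c, hu, hu1⟩ := claim
  obtain ⟨β, hβ⟩ := hu.exists_right_inv
  have hβ' : ((aug (ZL p) Γ u1 : ZL p) : ℚ) * (β : ℚ) = 1 := by
    have := congrArg (fun z : ZL p => (z : ℚ)) hβ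
    simpa using this
  have hβu : IsUnit β := IsUnit.of_mul_eq_one (aug (ZL p) Γ u1) (by rw [mul_comm]; exact hβ)
  have hru : IsUnit (b * β) := hb.mul hβu
  obtain ⟨a, ha0, ha, y, hy⟩ := z4 (b * β) hru k
  have hb2 : (b : ℚ) = ((aug (ZL p) Γ u1 : ZL p) : ℚ) + c * (Nat.card Γ : ℚ) := by
    rw [← hb', hu1, map_add, TCrit_aug_smul, TCrit_aug_nrG, TCrit_aug_sk]
  have hy' : (a : ℚ) * ((b : ℚ) * (β : ℚ)) - 1 = (Nat.card Γ : ℚ) * (y : ℚ) := by
    have h1 := congrArg (fun z : ZL p => (z : ℚ)) hy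
    rw [hk]
    push_cast at h1 ⊢
    exact h1
  have hr : (b : ℚ) * (β : ℚ) = 1 + (Nat.card Γ : ℚ) * (c * (β : ℚ)) := by
    rw [hb2]
    linear_combination hβ'
  have hyq : c * (β : ℚ) + ((a : ℚ) - 1) / (Nat.card Γ : ℚ) +
      c * (β : ℚ) * (((a : ℚ) - 1) / (Nat.card Γ : ℚ)) * (Nat.card Γ : ℚ) = (y : ℚ) := by
    rw [hr] at hy'
    have h2 : (Nat.card Γ : ℚ) * (c * (β : ℚ) + ((a : ℚ) - 1) / (Nat.card Γ : ℚ) +
        c * (β : ℚ) * (((a : ℚ) - 1) / (Nat.card Γ : ℚ)) * (Nat.card Γ : ℚ)) =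
        (Nat.card Γ : ℚ) * (y : ℚ) := by
      rw [← hy']
      field_simp
      ring
    exact mul_left_cancel₀ hn0 h2
  refine ⟨a, ha0, ha, u1 * (1 + y • nrG (ZL p) Γ), ?_, ?_⟩
  · refine (hTLoc p Γ hp u1 hu).mul (hTLoc p Γ hp _ ?_)
    rw [map_add, map_one, TCrit_aug_smul, TCrit_aug_nrG]
    have h1 : (1 : ZL p) + y * (Nat.card Γ : ZL p) = (a : ZL p) * (b * β) := by
      rw [hk]
      push_cast
      linear_combination -hy
    rw [h1]
    exact (TCrit_nat p a ha ha0).mul hru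
  · have e1 : x = sk p Γ u1 * (1 + (c * (β : ℚ)) • nrG ℚ Γ) := by
      rw [mul_add, mul_one, mul_smul_comm, TCrit_mul, TCrit_aug_sk, smul_smul]
      have h1 : c * (β : ℚ) * ((aug (ZL p) Γ u1 : ZL p) : ℚ) = c := by
        linear_combination c * hβ'
      rw [h1]
      exact hu1
    have e2 : (1 + (c * (β : ℚ)) • nrG ℚ Γ) *
        (1 + (((a : ℚ) - 1) / (Nat.card Γ : ℚ)) • nrG ℚ Γ) = 1 + (y : ℚ) • nrG ℚ Γ := by
      rw [← hyq, add_mul, one_mul, mul_add, mul_one, smul_mul_smul_comm, hNN, smul_smul, add_smul,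
        add_smul]
      abel
    rw [map_mul, map_add, map_one, TCrit_sk_smul, TCrit_sk_nrG, ← e2, ← mul_assoc, ← e1]

end HSp
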