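import Pool.Agent.Lib.MP_181146_gt.HS.SpecT

/-!
# Project HS, third part, module TCtr: contraction of an exact complex of free modules
-/

set_option autoImplicit false

namespace HSp

private theorem tctr_lift {B : Type} [CommRing B] {m n l : ℕ} (D : Matrix (Fin m) (Fin n) B)
    (N : Matrix (Fin m) (Fin l) B) (h : ∀ j, ∃ y, D.mulVec y = fun i => N i j) :
    ∃ K : Matrix (Fin n) (Fin l) B, D * K = N := by
  choose y hy using h
  refine ⟨Matrix.of fun i j => y j i, ?_⟩
  ext i j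
  have h1 := congrFun (hy j) i
  rw [Matrix.mul_apply]
  exact h1

private theorem tctr_cyc {B : Type} [CommRing B] {m n l : ℕ} (D : Matrix (Fin m) (Fin n) B)
    (N : Matrix (Fin n) (Fin l) B) (h : D * N = 0) (j : Fin l) :
    D.mulVec (fun i => N i j) = 0 := by
  funext i
  have h1 := congrFun (congrFun h i) j
  rw [Matrix.mul_apply] at h1
  exact h1

theorem sTCtr : S_TCtr := by
  intro B _ r d dd h0 hex
  obtain ⟨k0, hk0⟩ := tctr_lift (d 0) (1 : Matrix (Fin (r 0)) (Fin (r 0)) B) fun j => h0 _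
  have hstep : ∀ (i : ℕ) (k : {k : Matrix (Fin (r (i + 1))) (Fin (r i)) B // d i * k * d i = d i}),
      ∃ k' : {k : Matrix (Fin (r (i + 1 + 1))) (Fin (r (i + 1))) B //
        d (i + 1) * k * d (i + 1) = d (i + 1)}, d (i + 1) * k'.1 = 1 - k.1 * d i := by
    intro i k
    have h1 : d i * (1 - k.1 * d i) = 0 := by
      rw [Matrix.mul_sub, Matrix.mul_one, ← Matrix.mul_assoc, k.2, sub_self]
    obtain ⟨k', hk'⟩ := tctr_lift (d (i + 1)) (1 - k.1 * d i) fun j =>
      hex i _ (tctr_cyc (d i) _ h1 j)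
    refine ⟨⟨k', ?_⟩, hk'⟩
    rw [hk', Matrix.sub_mul, Matrix.one_mul, Matrix.mul_assoc, dd i, Matrix.mul_zero, sub_zero]
  choose f hf using hstep
  let s : ∀ i : ℕ, {k : Matrix (Fin (r (i + 1))) (Fin (r i)) B // d i * k * d i = d i} := fun i =>
    Nat.rec ⟨k0, by rw [hk0, Matrix.one_mul]⟩ (fun i k => f i k) i
  refine ⟨fun i => (s i).1, hk0, fun i => ?_⟩
  have h1 : d (i + 1) * (s (i + 1)).1 = 1 - (s i).1 * d i := hf i (s i)
  rw [h1, sub_add_cancel]

end HSp
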