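import Pool.Agent.Lib.MP_181146_gt.HS.SpecT

/-!
# Project HS, third part: determinants of two complexes related by `ι`
-/

set_option autoImplicit false

namespace HSp

section aux

variable {A : Type} [CommRing A] {L : Type} [CommRing L]

private theorem mextI {ρ : ℕ} {M N : Matrix (Fin ρ) (Fin ρ) A}
    (h : ∀ v, M.mulVec v = N.mulVec v) : M = N :=
  Matrix.toLin'.injective (LinearMap.ext fun v => by
    rw [Matrix.toLin'_apply, Matrix.toLin'_apply, h v])

/-- the block matrix of a family of square matrices -/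
private noncomputable def PM {r : ℕ → ℕ} {ρ : ℕ} (s : (Σ j : ℕ, Fin (r j)) ≃ Fin ρ)
    (M : ∀ j, Matrix (Fin (r j)) (Fin (r j)) A) : Matrix (Fin ρ) (Fin ρ) A :=
  LinearMap.toMatrix' (((cP s).symm.toLinearMap ∘ₗ
    (LinearMap.pi fun j => (M j).mulVecLin ∘ₗ LinearMap.proj j :
      (∀ j : ℕ, Fin (r j) → A) →ₗ[A] (∀ j : ℕ, Fin (r j) → A))) ∘ₗ (cP s).toLinearMap)

private theorem PM_mulVec {r : ℕ → ℕ} {ρ : ℕ} (s : (Σ j : ℕ, Fin (r j)) ≃ Fin ρ)
    (M : ∀ j, Matrix (Fin (r j)) (Fin (r j)) A) (v : Fin ρ → A) :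
    (PM s M).mulVec v = (cP s).symm (fun j => (M j).mulVec (cP s v j)) := by
  unfold PM
  rw [LinearMap.toMatrix'_mulVec]
  rfl

private theorem PM_mul {r : ℕ → ℕ} {ρ : ℕ} (s : (Σ j : ℕ, Fin (r j)) ≃ Fin ρ)
    (M M' : ∀ j, Matrix (Fin (r j)) (Fin (r j)) A) :
    PM s M * PM s M' = PM s (fun j => M j * M' j) := by
  refine mextI fun v => ?_
  rw [← Matrix.mulVec_mulVec, PM_mulVec, PM_mulVec, PM_mulVec, LinearEquiv.apply_symm_apply]
  congr 1
  funext j
  rw [Matrix.mulVec_mulVec]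

private theorem PM_one {r : ℕ → ℕ} {ρ : ℕ} (s : (Σ j : ℕ, Fin (r j)) ≃ Fin ρ) :
    PM s (fun j => (1 : Matrix (Fin (r j)) (Fin (r j)) A)) = 1 := by
  refine mextI fun v => ?_
  rw [PM_mulVec, Matrix.one_mulVec]
  have h1 : (fun j => (1 : Matrix (Fin (r j)) (Fin (r j)) A).mulVec (cP s v j)) = cP s v := by
    funext j
    rw [Matrix.one_mulVec]
  rw [h1, LinearEquiv.symm_apply_apply]

private theorem PM_diag {r : ℕ → ℕ} {ρ : ℕ} (s : (Σ j : ℕ, Fin (r j)) ≃ Fin ρ)
    (w : ∀ j, Fin (r j) → A) :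
    PM s (fun j => Matrix.diagonal (w j)) =
      Matrix.diagonal (fun c => w (s.symm c).1 (s.symm c).2) := by
  refine mextI fun v => ?_
  rw [PM_mulVec]
  funext c
  rw [Matrix.mulVec_diagonal]
  change (Matrix.diagonal (w (s.symm c).1)).mulVec (cP s v (s.symm c).1) (s.symm c).2 = _
  rw [Matrix.mulVec_diagonal]
  change _ * v (s (s.symm c)) = _
  rw [s.apply_symm_apply]

/-- comparison of matrices over two rings -/
private theorem map_of {ρ : ℕ} (f : A →+* L) {M : Matrix (Fin ρ) (Fin ρ) A}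
    {N : Matrix (Fin ρ) (Fin ρ) L}
    (h : ∀ (v : Fin ρ → A) (c : Fin ρ), f (M.mulVec v c) = N.mulVec (fun i => f (v i)) c) :
    N = M.map f := by
  ext c c'
  have h1 := h (Pi.single c' 1) c
  have h2 : (fun i => f ((Pi.single c' 1 : Fin ρ → A) i)) = Pi.single c' 1 := by
    funext i
    by_cases hi : i = c'
    · subst hi
      rw [Pi.single_eq_same, Pi.single_eq_same, map_one]
    · rw [Pi.single_eq_of_ne hi, Pi.single_eq_of_ne hi, map_zero]
  rw [h2, Matrix.mulVec_single_one, Matrix.mulVec_single_one] at h1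
  exact h1.symm

private theorem PM_map {r : ℕ → ℕ} {ρ : ℕ} (s : (Σ j : ℕ, Fin (r j)) ≃ Fin ρ) (f : A →+* L)
    (M : ∀ j, Matrix (Fin (r j)) (Fin (r j)) A) :
    PM s (fun j => (M j).map f) = (PM s M).map f := by
  refine map_of f fun v c => ?_
  rw [PM_mulVec, PM_mulVec]
  exact RingHom.map_mulVec f (M (s.symm c).1) (cP s v (s.symm c).1) (s.symm c).2

private theorem OEm_mulVec {r : ℕ → ℕ} {ρ : ℕ} (sO : (Σ j : ℕ, Fin (r (2 * j + 1))) ≃ Fin ρ)
    (sE : (Σ j : ℕ, Fin (r (2 * j))) ≃ Fin ρ)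
    (d : ∀ i, Matrix (Fin (r i)) (Fin (r (i + 1))) A)
    (k : ∀ i, Matrix (Fin (r (i + 1))) (Fin (r i)) A) (v : Fin ρ → A) :
    (OEm sO sE d k).mulVec v = (cP sE).symm (oe (N := fun i => Fin (r i) → A)
      (fun i => (d i).mulVecLin) (fun i => (k i).mulVecLin) (cP sO v)) := by
  unfold OEm
  rw [LinearMap.toMatrix'_mulVec]
  rfl

private theorem oe_map {r : ℕ → ℕ} (f : A →+* L)
    (d : ∀ i, Matrix (Fin (r i)) (Fin (r (i + 1))) A)
    (k : ∀ i, Matrix (Fin (r (i + 1))) (Fin (r i)) A) (x : ∀ j : ℕ, Fin (r (2 * j + 1)) → A) :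
    ∀ (j : ℕ) (a : Fin (r (2 * j))),
      f (oe (N := fun i => Fin (r i) → A) (fun i => (d i).mulVecLin)
        (fun i => (k i).mulVecLin) x j a) =
      oe (N := fun i => Fin (r i) → L) (fun i => ((d i).map f).mulVecLin)
        (fun i => ((k i).map f).mulVecLin) (fun j a => f (x j a)) j a
  | 0, a => RingHom.map_mulVec f (d 0) (x 0) a
  | j + 1, a => by
    change f ((d (2 * (j + 1))).mulVec (x (j + 1)) a + (k (2 * j + 1)).mulVec (x j) a) =
      ((d (2 * (j + 1))).map f).mulVec (fun a => f (x (j + 1) a)) a +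
        ((k (2 * j + 1)).map f).mulVec (fun a => f (x j a)) a
    rw [map_add]
    exact congrArg₂ (· + ·) (RingHom.map_mulVec f (d (2 * (j + 1))) (x (j + 1)) a)
      (RingHom.map_mulVec f (k (2 * j + 1)) (x j) a)

private theorem OEm_map {r : ℕ → ℕ} {ρ : ℕ} (sO : (Σ j : ℕ, Fin (r (2 * j + 1))) ≃ Fin ρ)
    (sE : (Σ j : ℕ, Fin (r (2 * j))) ≃ Fin ρ) (f : A →+* L)
    (d : ∀ i, Matrix (Fin (r i)) (Fin (r (i + 1))) A)
    (k : ∀ i, Matrix (Fin (r (i + 1))) (Fin (r i)) A) :
    OEm sO sE (fun i => (d i).map f) (fun i => (k i).map f) = (OEm sO sE d k).map f := by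
  refine map_of f fun v c => ?_
  rw [OEm_mulVec, OEm_mulVec]
  exact oe_map f d k (cP sO v) (sE.symm c).1 (sE.symm c).2

private theorem OEm_inter {r : ℕ → ℕ} {ρ : ℕ} (sO : (Σ j : ℕ, Fin (r (2 * j + 1))) ≃ Fin ρ)
    (sE : (Σ j : ℕ, Fin (r (2 * j))) ≃ Fin ρ)
    (d dZ : ∀ i, Matrix (Fin (r i)) (Fin (r (i + 1))) A)
    (k kZ : ∀ i, Matrix (Fin (r (i + 1))) (Fin (r i)) A)
    (ι : ∀ i, Matrix (Fin (r i)) (Fin (r i)) A) (h1 : ∀ i, d i * ι (i + 1) = ι i * dZ i)
    (h2 : ∀ i, k i * ι i = ι (i + 1) * kZ i) :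
    OEm sO sE d k * PM sO (fun j => ι (2 * j + 1)) =
      PM sE (fun j => ι (2 * j)) * OEm sO sE dZ kZ := by
  refine mextI fun v => ?_
  rw [← Matrix.mulVec_mulVec, ← Matrix.mulVec_mulVec, OEm_mulVec, PM_mulVec, OEm_mulVec, PM_mulVec,
    LinearEquiv.apply_symm_apply, LinearEquiv.apply_symm_apply]
  congr 1
  funext j
  cases j with
  | zero =>
    change (d 0).mulVec ((ι 1).mulVec (cP sO v 0)) = (ι 0).mulVec ((dZ 0).mulVec (cP sO v 0))
    rw [Matrix.mulVec_mulVec, Matrix.mulVec_mulVec, h1 0]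
  | succ j =>
    change (d (2 * (j + 1))).mulVec ((ι (2 * (j + 1) + 1)).mulVec (cP sO v (j + 1))) +
        (k (2 * j + 1)).mulVec ((ι (2 * j + 1)).mulVec (cP sO v j)) =
      (ι (2 * (j + 1))).mulVec ((dZ (2 * (j + 1))).mulVec (cP sO v (j + 1)) +
        (kZ (2 * j + 1)).mulVec (cP sO v j))
    rw [Matrix.mulVec_add, Matrix.mulVec_mulVec, Matrix.mulVec_mulVec, Matrix.mulVec_mulVec,
      h1 (2 * (j + 1)), h2 (2 * j + 1)]
    refine congrArg₂ (· + ·) rfl ?_
    exact (Matrix.mulVec_mulVec (cP sO v j) (ι (2 * j + 1 + 1)) (kZ (2 * j + 1))).symm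

private theorem prod_ite (n m : ℕ) (h : m ≤ n) (T : A) :
    ∏ a : Fin n, (if (a : ℕ) < m then T else 1) = T ^ m := by
  rw [Finset.prod_ite, Finset.prod_const_one, mul_one, Finset.prod_const]
  congr 1
  have h1 : (Finset.univ.filter fun a : Fin n => (a : ℕ) < m) =
      Finset.univ.map (Fin.castLEEmb h) := by
    ext a
    simp only [Finset.mem_filter, Finset.mem_univ, true_and, Finset.mem_map, Fin.castLEEmb_apply]
    constructor
    · intro ha
      exact ⟨⟨a, ha⟩, Fin.ext rfl⟩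
    · rintro ⟨b, rfl⟩
      exact b.2
  rw [h1, Finset.card_map, Finset.card_univ, Fintype.card_fin]

private theorem det_diag {r : ℕ → ℕ} {ρ : ℕ} (s : (Σ j : ℕ, Fin (r j)) ≃ Fin ρ) (g : ℕ → ℕ)
    (J : ℕ) (hJ : ∀ j, J ≤ j → r j = 0) (hg : ∀ j, g j ≤ r j) (T : A) :
    (PM s (fun j => Matrix.diagonal (fun a : Fin (r j) => if (a : ℕ) < g j then T else 1))).det =
      T ^ ∑ j ∈ Finset.range J, g j := by
  rw [PM_diag s (fun j (a : Fin (r j)) => if (a : ℕ) < g j then T else 1), Matrix.det_diagonal,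
    ← Finset.prod_pow_eq_pow_sum]
  have h1 : ∀ j ∈ Finset.range J, T ^ g j = ∏ a : Fin (r j), (if (a : ℕ) < g j then T else 1) :=
    fun j _ => (prod_ite (r j) (g j) (hg j) T).symm
  rw [Finset.prod_congr rfl h1, ← Finset.prod_sigma (Finset.range J)
    (fun j => (Finset.univ : Finset (Fin (r j))))
    (fun x : (Σ j : ℕ, Fin (r j)) => if (x.2 : ℕ) < g x.1 then T else 1)]
  refine Finset.prod_bij' (fun c _ => s.symm c) (fun x _ => s x) ?_ ?_ ?_ ?_ ?_
  · intro c _
    rw [Finset.mem_sigma]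
    refine ⟨?_, Finset.mem_univ _⟩
    rw [Finset.mem_range]
    by_contra h
    have h2 := hJ _ (not_lt.1 h)
    have h3 := (s.symm c).2.2
    omega
  · intro x _
    exact Finset.mem_univ _
  · intro c _
    exact s.apply_symm_apply c
  · intro x _
    exact s.symm_apply_apply x
  · intro c _
    rfl

private theorem sum_even_odd (f : ℕ → ℤ) (n : ℕ) : ∑ i ∈ Finset.range (2 * n), f i =
    ∑ j ∈ Finset.range n, f (2 * j) + ∑ j ∈ Finset.range n, f (2 * j + 1) := by
  induction n with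
  | zero => simp
  | succ n ih =>
    rw [Finset.sum_range_succ, Finset.sum_range_succ, show 2 * (n + 1) = 2 * n + 1 + 1 from rfl,
      Finset.sum_range_succ, Finset.sum_range_succ, ih]
    ring

private theorem sum_eq (g : ℕ → ℕ) (D : ℕ) (hD : ∀ i, D < i → g i = 0)
    (hsum : ∑ i ∈ Finset.range (D + 1), (-1 : ℤ) ^ i * (g i : ℤ) = 0) :
    ∑ j ∈ Finset.range (D + 1), g (2 * j + 1) = ∑ j ∈ Finset.range (D + 1), g (2 * j) := by
  have h1 : ∑ i ∈ Finset.range (2 * (D + 1)), (-1 : ℤ) ^ i * (g i : ℤ) = 0 := by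
    rw [← hsum]
    symm
    refine Finset.sum_subset ?_ ?_
    · intro i hi
      rw [Finset.mem_range] at hi ⊢
      omega
    · intro i _ hi
      rw [Finset.mem_range, not_lt] at hi
      rw [hD i (by omega), Nat.cast_zero, mul_zero]
  rw [sum_even_odd] at h1
  have h2 : ∑ j ∈ Finset.range (D + 1), (-1 : ℤ) ^ (2 * j) * (g (2 * j) : ℤ) =
      ((∑ j ∈ Finset.range (D + 1), g (2 * j) : ℕ) : ℤ) := by
    push_cast
    refine Finset.sum_congr rfl fun j _ => ?_
    rw [pow_mul]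
    norm_num
  have h3 : ∑ j ∈ Finset.range (D + 1), (-1 : ℤ) ^ (2 * j + 1) * (g (2 * j + 1) : ℤ) =
      -((∑ j ∈ Finset.range (D + 1), g (2 * j + 1) : ℕ) : ℤ) := by
    push_cast
    rw [← Finset.sum_neg_distrib]
    refine Finset.sum_congr rfl fun j _ => ?_
    rw [pow_succ, pow_mul]
    norm_num
  rw [h2, h3] at h1
  have h4 : ((∑ j ∈ Finset.range (D + 1), g (2 * j + 1) : ℕ) : ℤ) =
      ((∑ j ∈ Finset.range (D + 1), g (2 * j) : ℕ) : ℤ) := by linarith
  exact_mod_cast h4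

end aux

theorem sTDetI (hTDet : S_TDet) (hTUn : S_TUn) : S_TDetI := by
  intro B L _ _ _ j t hjt r g D hD hg hsum d dZ dd dZZ A A' hA hA' hι kZ hkZ k hk ρ sO sE
  obtain ⟨T', hT'⟩ : ∃ T' : L, j t * T' = 1 := ⟨_, hjt.mul_val_inv⟩
  -- the maps over `L`
  obtain ⟨Dg, hDg⟩ : ∃ Dg : ∀ i, Matrix (Fin (r i)) (Fin (r i)) L,
      Dg = fun i => Matrix.diagonal (fun a : Fin (r i) => if (a : ℕ) < g i then j t else 1) :=
    ⟨_, rfl⟩
  obtain ⟨Dg', hDg'⟩ : ∃ Dg' : ∀ i, Matrix (Fin (r i)) (Fin (r i)) L,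
      Dg' = fun i => Matrix.diagonal (fun a : Fin (r i) => if (a : ℕ) < g i then T' else 1) :=
    ⟨_, rfl⟩
  have hDD : ∀ i, Dg i * Dg' i = 1 := by
    intro i
    rw [hDg, hDg', Matrix.diagonal_mul_diagonal, ← Matrix.diagonal_one]
    congr 1
    funext a
    split_ifs
    · exact hT'
    · exact mul_one _
  have hDD' : ∀ i, Dg' i * Dg i = 1 := fun i => mul_eq_one_comm.1 (hDD i)
  have hAL : ∀ i, (A i).map j * (A' i).map j = 1 := by
    intro i
    rw [← Matrix.map_mul, hA i, Matrix.map_one _ (map_zero j) (map_one j)]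
  have hAL' : ∀ i, (A' i).map j * (A i).map j = 1 := fun i => mul_eq_one_comm.1 (hAL i)
  obtain ⟨ι, hιd⟩ : ∃ ι : ∀ i, Matrix (Fin (r i)) (Fin (r i)) L,
      ι = fun i => (A i).map j * Dg i := ⟨_, rfl⟩
  obtain ⟨ι', hιd'⟩ : ∃ ι' : ∀ i, Matrix (Fin (r i)) (Fin (r i)) L,
      ι' = fun i => Dg' i * (A' i).map j := ⟨_, rfl⟩
  have hii : ∀ i, ι i * ι' i = 1 := by
    intro i
    rw [hιd, hιd']
    calc (A i).map j * Dg i * (Dg' i * (A' i).map j)
        = (A i).map j * (Dg i * Dg' i) * (A' i).map j := by simp only [Matrix.mul_assoc]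
      _ = 1 := by rw [hDD i, Matrix.mul_one, hAL i]
  have hii' : ∀ i, ι' i * ι i = 1 := fun i => mul_eq_one_comm.1 (hii i)
  have hmapι : ∀ i, (A i * Matrix.diagonal (fun a : Fin (r i) => if (a : ℕ) < g i then t else 1)).map
      j = ι i := by
    intro i
    have h1 : (fun m : Fin (r i) => j (if (m : ℕ) < g i then t else 1)) =
        fun m : Fin (r i) => if (m : ℕ) < g i then j t else 1 := by
      funext a
      split_ifs
      · rfl
      · exact map_one j
    rw [hιd, hDg, Matrix.map_mul, Matrix.diagonal_map (map_zero j), h1]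
  have hcomm : ∀ i, (d i).map j * ι (i + 1) = ι i * (dZ i).map j := by
    intro i
    rw [← hmapι i, ← hmapι (i + 1), ← Matrix.map_mul, ← Matrix.map_mul, hι i]
  have hcomm' : ∀ i, ι' i * (d i).map j = (dZ i).map j * ι' (i + 1) := by
    intro i
    calc ι' i * (d i).map j = ι' i * ((d i).map j * (ι (i + 1) * ι' (i + 1))) := by
          rw [hii, Matrix.mul_one]
      _ = ι' i * (((d i).map j * ι (i + 1)) * ι' (i + 1)) := by simp only [Matrix.mul_assoc]
      _ = (ι' i * ι i) * ((dZ i).map j * ι' (i + 1)) := by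
          rw [hcomm i]
          simp only [Matrix.mul_assoc]
      _ = (dZ i).map j * ι' (i + 1) := by rw [hii', Matrix.one_mul]
  -- the contraction `k1`
  obtain ⟨k1, hk1⟩ : ∃ k1 : ∀ i, Matrix (Fin (r (i + 1))) (Fin (r i)) L,
      k1 = fun i => ι (i + 1) * (kZ i).map j * ι' i := ⟨_, rfl⟩
  have hdk : ∀ i, (d i).map j * k1 i = ι i * ((dZ i * kZ i).map j) * ι' i := by
    intro i
    rw [hk1, Matrix.map_mul]
    calc (d i).map j * (ι (i + 1) * (kZ i).map j * ι' i)
        = ((d i).map j * ι (i + 1)) * (kZ i).map j * ι' i := by simp only [Matrix.mul_assoc]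
      _ = ι i * ((dZ i).map j * (kZ i).map j) * ι' i := by
          rw [hcomm i]
          simp only [Matrix.mul_assoc]
  have hkd : ∀ i, k1 i * (d i).map j = ι (i + 1) * ((kZ i * dZ i).map j) * ι' (i + 1) := by
    intro i
    rw [hk1, Matrix.map_mul]
    calc ι (i + 1) * (kZ i).map j * ι' i * (d i).map j
        = ι (i + 1) * (kZ i).map j * (ι' i * (d i).map j) := by simp only [Matrix.mul_assoc]
      _ = ι (i + 1) * ((kZ i).map j * (dZ i).map j) * ι' (i + 1) := by
          rw [hcomm' i]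
          simp only [Matrix.mul_assoc]
  have hctr : IsCtr (fun i => (d i).map j) k1 := by
    constructor
    · change (d 0).map j * k1 0 = 1
      rw [hdk 0, hkZ.1, Matrix.map_one _ (map_zero j) (map_one j), Matrix.mul_one, hii]
    · intro i
      change (d (i + 1)).map j * k1 (i + 1) + k1 i * (d i).map j = 1
      rw [hdk (i + 1), hkd i, ← Matrix.add_mul, ← Matrix.mul_add,
        ← Matrix.map_add j (map_add j), hkZ.2 i,
        Matrix.map_one _ (map_zero j) (map_one j), Matrix.mul_one, hii]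
  have hkι : ∀ i, k1 i * ι i = ι (i + 1) * (kZ i).map j := by
    intro i
    rw [hk1]
    calc ι (i + 1) * (kZ i).map j * ι' i * ι i
        = ι (i + 1) * (kZ i).map j * (ι' i * ι i) := by simp only [Matrix.mul_assoc]
      _ = ι (i + 1) * (kZ i).map j := by rw [hii', Matrix.mul_one]
  -- determinants
  have hint := OEm_inter sO sE (fun i => (d i).map j) (fun i => (dZ i).map j) k1
    (fun i => (kZ i).map j) ι hcomm hkι
  rw [OEm_map] at hint
  have hdet := congrArg Matrix.det hint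
  rw [Matrix.det_mul, Matrix.det_mul] at hdet
  have hg0 : ∀ i, D < i → g i = 0 := fun i hi => by
    have h1 := hg i
    rw [hD i hi] at h1
    omega
  have hPO : (PM sO (fun j => ι (2 * j + 1))).det =
      j (PM sO (fun i => A (2 * i + 1))).det *
        j t ^ ∑ i ∈ Finset.range (D + 1), g (2 * i + 1) := by
    have h1 : (fun i => ι (2 * i + 1)) = fun i => (A (2 * i + 1)).map j * Dg (2 * i + 1) := by
      rw [hιd]
    rw [h1, ← PM_mul sO (fun i => (A (2 * i + 1)).map j) (fun i => Dg (2 * i + 1)),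
      Matrix.det_mul, PM_map sO j (fun i => A (2 * i + 1)), ← RingHom.mapMatrix_apply,
      ← RingHom.map_det, hDg,
      det_diag sO (fun i => g (2 * i + 1)) (D + 1) (fun i hi => hD _ (by omega))
        (fun i => hg _) (j t)]
  have hPE : (PM sE (fun j => ι (2 * j))).det =
      j (PM sE (fun i => A (2 * i))).det *
        j t ^ ∑ i ∈ Finset.range (D + 1), g (2 * i) := by
    have h1 : (fun i => ι (2 * i)) = fun i => (A (2 * i)).map j * Dg (2 * i) := by
      rw [hιd]
    rw [h1, ← PM_mul sE (fun i => (A (2 * i)).map j) (fun i => Dg (2 * i)),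
      Matrix.det_mul, PM_map sE j (fun i => A (2 * i)), ← RingHom.mapMatrix_apply,
      ← RingHom.map_det, hDg,
      det_diag sE (fun i => g (2 * i)) (D + 1) (fun i hi => hD _ (by omega))
        (fun i => hg _) (j t)]
  have hsum' := sum_eq g D hg0 hsum
  rw [hPO, hPE, hsum', ← RingHom.mapMatrix_apply, ← RingHom.map_det] at hdet
  -- units of `B`
  have hUO : (PM sO (fun i => A (2 * i + 1))).det * (PM sO (fun i => A' (2 * i + 1))).det = 1 := by
    rw [← Matrix.det_mul, PM_mul]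
    have h1 : (fun i => A (2 * i + 1) * A' (2 * i + 1)) = fun i => 1 := funext fun i => hA _
    rw [h1, PM_one, Matrix.det_one]
  have hUE : IsUnit (PM sE (fun i => A (2 * i))).det := by
    refine IsUnit.of_mul_eq_one (PM sE (fun i => A' (2 * i))).det ?_
    rw [← Matrix.det_mul, PM_mul]
    have h1 : (fun i => A (2 * i) * A' (2 * i)) = fun i => 1 := funext fun i => hA _
    rw [h1, PM_one, Matrix.det_one]
  have hUZ : IsUnit (OEm sO sE dZ kZ).det := hTUn B r D hD dZ dZZ kZ hkZ ρ sO sE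
  obtain ⟨e, he⟩ : ∃ e, e = ∑ i ∈ Finset.range (D + 1), g (2 * i) := ⟨_, rfl⟩
  rw [← he] at hdet
  have hTe : j t ^ e * T' ^ e = 1 := by rw [← mul_pow, hT', one_pow]
  have hdet2 : (OEm sO sE (fun i => (d i).map j) k1).det =
      j ((PM sE (fun i => A (2 * i))).det * (OEm sO sE dZ kZ).det *
        (PM sO (fun i => A' (2 * i + 1))).det) := by
    have hUO' : j (PM sO (fun i => A (2 * i + 1))).det * j (PM sO (fun i => A' (2 * i + 1))).det
        = 1 := by rw [← map_mul, hUO, map_one]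
    rw [map_mul, map_mul]
    calc (OEm sO sE (fun i => (d i).map j) k1).det
        = (OEm sO sE (fun i => (d i).map j) k1).det *
            (j (PM sO (fun i => A (2 * i + 1))).det * j t ^ e) *
            (j (PM sO (fun i => A' (2 * i + 1))).det * T' ^ e) := by
          rw [mul_assoc, mul_mul_mul_comm (j (PM sO (fun i => A (2 * i + 1))).det), hUO', hTe,
            mul_one, mul_one]
      _ = j (PM sE (fun i => A (2 * i))).det * j t ^ e * j (OEm sO sE dZ kZ).det *
            (j (PM sO (fun i => A' (2 * i + 1))).det * T' ^ e) := by rw [hdet]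
      _ = j (PM sE (fun i => A (2 * i))).det * j (OEm sO sE dZ kZ).det *
            j (PM sO (fun i => A' (2 * i + 1))).det * (j t ^ e * T' ^ e) := by ring
      _ = _ := by rw [hTe, mul_one]
  -- comparison of `k` and `k1`
  have ddL : ∀ i, (d i).map j * (d (i + 1)).map j = 0 := by
    intro i
    rw [← Matrix.map_mul, dd i, Matrix.map_zero _ (map_zero j)]
  have hc1 := hTDet L r D hD (fun i => (d i).map j) ddL k k1 hk hctr ρ sO sE
  have hc2 := hTDet L r D hD (fun i => (d i).map j) ddL k k hk hk ρ sO sE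
  have hfin : (OEm sO sE (fun i => (d i).map j) k).det =
      (OEm sO sE (fun i => (d i).map j) k1).det := by
    calc (OEm sO sE (fun i => (d i).map j) k).det
        = (OEm sO sE (fun i => (d i).map j) k).det *
            ((OEm sO sE (fun i => (d i).map j) k1).det *
              (EOm sO sE (fun i => (d i).map j) k).det) := by rw [hc1, mul_one]
      _ = (OEm sO sE (fun i => (d i).map j) k1).det *
            ((OEm sO sE (fun i => (d i).map j) k).det *
              (EOm sO sE (fun i => (d i).map j) k).det) := by ring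
      _ = _ := by rw [hc2, mul_one]
  refine ⟨_, ?_, hfin.trans hdet2⟩
  refine (hUE.mul hUZ).mul ?_
  refine IsUnit.of_mul_eq_one (PM sO (fun i => A (2 * i + 1))).det ?_
  rw [mul_comm]
  exact hUO

end HSp
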