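import Pool.Agent.Lib.MP_181146_gt.HS.SpecT

/-!
# Project HS, third part: the determinant modulo the norm is a unit of the `p`-local group ring
-/

set_option autoImplicit false

namespace HSp

section TDetS

private lemma TDetS_map_mulVec {S B m n : Type} [CommRing S] [CommRing B] [Fintype n]
    (f : S →+* B) (A : Matrix m n S) (x : n → S) :
    (A.map f).mulVec (fun a => f (x a)) = fun a => f (A.mulVec x a) := by
  funext a
  change ∑ b, f (A a b) * f (x b) = f (∑ b, A a b * x b)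
  rw [map_sum]
  exact Finset.sum_congr rfl fun b _ => (map_mul f _ _).symm

private lemma TDetS_abs (hTAdp : S_TAdp) (hTRst : S_TRst) (hTCtr : S_TCtr) (hTDetI : S_TDetI)
    {S K : Type} [CommRing S] [CommRing K] (f : S →+* K) (t N : S) (tK NK : K)
    (htK : f t = tK) (hNK : f N = NK)
    (h1 : ∀ x, t * x = 0 → ∃ y, x = N * y) (h2 : ∀ x y, t * x = N * y → t * x = 0)
    (h3 : tK * NK = 0)
    (hloc : IsLocalRing (S ⧸ Ideal.span {t, N}))
    (hl : ∀ s : S, IsUnit (Ideal.Quotient.mk (Ideal.span {t, N}) s) → IsUnit s)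
    (hred : IsReduced (K ⧸ Ideal.span {NK}))
    (hjt : IsUnit (Ideal.Quotient.mk (Ideal.span {NK}) tK))
    (r gk : ℕ → ℕ) (hr0 : r 0 = 0) (D : ℕ) (hD : ∀ i, D < i → r i = 0)
    (d : ∀ i, Matrix (Fin (r i)) (Fin (r (i + 1))) S) (dd : ∀ i, d i * d (i + 1) = 0)
    (e : ∀ i, Matrix (Fin (r i)) (Fin (r i)) (S ⧸ Ideal.span {t, N}))
    (idem : ∀ i, e i * e i = e i)
    (chain : ∀ i, (d i).map (Ideal.Quotient.mk _) * e (i + 1) = e i * (d i).map (Ideal.Quotient.mk _))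
    (onto : ∀ i (y : Fin (r (i + 1)) → S ⧸ Ideal.span {t, N}),
      (e (i + 1)).mulVec y = y → ((d i).map (Ideal.Quotient.mk _)).mulVec y = 0 →
      ∃ (x : Fin (r (i + 1)) → S) (z : Fin (r i) → S), (d i).mulVec x = N • z ∧
        (e (i + 1)).mulVec (fun a => Ideal.Quotient.mk _ (x a)) = y)
    (inj : ∀ i (x : Fin (r (i + 1)) → S) (z : Fin (r i) → S), (d i).mulVec x = N • z →
      (e (i + 1)).mulVec (fun a => Ideal.Quotient.mk _ (x a)) = 0 →
      ∃ u v, x = (d (i + 1)).mulVec u + N • v)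
    (hφ : ∀ i, Nonempty (LinearMap.range (e i).mulVecLin ≃ₗ[S ⧸ Ideal.span {t, N}]
      (Fin (gk i) → S ⧸ Ideal.span {t, N})))
    (hsum : ∑ i ∈ Finset.range (D + 1), (-1 : ℤ) ^ i * (gk i : ℤ) = 0)
    (ρ : ℕ) (sO : (Σ j : ℕ, Fin (r (2 * j + 1))) ≃ Fin ρ) (sE : (Σ j : ℕ, Fin (r (2 * j))) ≃ Fin ρ)
    (T : Matrix (Fin ρ) (Fin ρ) K)
    (k : ∀ i, Matrix (Fin (r (i + 1))) (Fin (r i)) (K ⧸ Ideal.span {NK}))
    (hk : IsCtr (fun i => ((d i).map f).map (Ideal.Quotient.mk (Ideal.span {NK}))) k)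
    (hT : T.map (Ideal.Quotient.mk (Ideal.span {NK})) =
      OEm sO sE (fun i => ((d i).map f).map (Ideal.Quotient.mk (Ideal.span {NK}))) k) :
    ∃ u v : S, tK * T.det = tK * f u ∧ tK * (f (u * v) - 1) = 0 := by
  have hle : Ideal.span {N} ≤ Ideal.span {t, N} :=
    Ideal.span_mono (Set.singleton_subset_iff.mpr (Set.mem_insert_of_mem t rfl))
  have hle' : Ideal.span {N} ≤ (Ideal.span {NK}).comap f := by
    rw [Ideal.span_singleton_le_iff_mem, Ideal.mem_comap, hNK]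
    exact Ideal.mem_span_singleton_self NK
  obtain ⟨ρ0, hρ0⟩ : ∃ ρ0 : S ⧸ Ideal.span {N} →+* S ⧸ Ideal.span {t, N},
      ∀ x, ρ0 (Ideal.Quotient.mk _ x) = Ideal.Quotient.mk _ x :=
    ⟨Ideal.Quotient.factor hle, fun x => rfl⟩
  obtain ⟨j, hj⟩ : ∃ j : S ⧸ Ideal.span {N} →+* K ⧸ Ideal.span {NK},
      ∀ x, j (Ideal.Quotient.mk _ x) = Ideal.Quotient.mk _ (f x) :=
    ⟨Ideal.quotientMap _ f hle', fun x => rfl⟩
  have hmk : ∀ (x : S), Ideal.Quotient.mk (Ideal.span {N}) x = 0 ↔ ∃ y, x = N * y := by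
    intro x
    rw [Ideal.Quotient.eq_zero_iff_mem, Ideal.mem_span_singleton]
    rfl
  have hsurjB : Function.Surjective (Ideal.Quotient.mk (Ideal.span {N})) :=
    Ideal.Quotient.mk_surjective
  have hsR : Function.Surjective ρ0 := by
    intro y
    obtain ⟨x, rfl⟩ := Ideal.Quotient.mk_surjective y
    exact ⟨Ideal.Quotient.mk _ x, hρ0 x⟩
  have hlB : ∀ x, IsUnit (ρ0 x) → IsUnit x := by
    intro x hx
    obtain ⟨s, rfl⟩ := hsurjB x
    rw [hρ0] at hx
    exact (hl s hx).map _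
  have ht : ∀ x : S ⧸ Ideal.span {N}, Ideal.Quotient.mk _ t * x = 0 → x = 0 := by
    intro x hx
    obtain ⟨s, rfl⟩ := hsurjB x
    rw [← map_mul, hmk] at hx
    obtain ⟨y, hy⟩ := hx
    rw [hmk]
    exact h1 s (h2 s y hy)
  have hρt : ρ0 (Ideal.Quotient.mk _ t) = 0 := by
    rw [hρ0, Ideal.Quotient.eq_zero_iff_mem]
    exact Ideal.subset_span (Set.mem_insert t _)
  have hker : ∀ x, ρ0 x = 0 → ∃ y, x = Ideal.Quotient.mk _ t * y := by
    intro x hx
    obtain ⟨s, rfl⟩ := hsurjB x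
    rw [hρ0, Ideal.Quotient.eq_zero_iff_mem, Ideal.mem_span_pair] at hx
    obtain ⟨a, b, rfl⟩ := hx
    refine ⟨Ideal.Quotient.mk _ a, ?_⟩
    have h4 : Ideal.Quotient.mk (Ideal.span {N}) (b * N) = 0 := (hmk _).mpr ⟨b, mul_comm _ _⟩
    rw [map_add, h4, add_zero, map_mul, mul_comm]
  -- adapted bases
  choose A A' hA hA' hAe hg using fun i => hTAdp (S ⧸ Ideal.span {N}) (S ⧸ Ideal.span {t, N}) ρ0
    hsR hlB (r i) (gk i) (e i) (idem i) (hφ i)
  have hmap : ∀ i, ((d i).map (Ideal.Quotient.mk (Ideal.span {N}))).map ρ0 =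
      (d i).map (Ideal.Quotient.mk (Ideal.span {t, N})) := by
    intro i
    ext a b
    exact hρ0 _
  have hmapj : ∀ i, ((d i).map (Ideal.Quotient.mk (Ideal.span {N}))).map j =
      ((d i).map f).map (Ideal.Quotient.mk (Ideal.span {NK})) := by
    intro i
    ext a b
    exact hj _
  have ddB : ∀ i, (d i).map (Ideal.Quotient.mk (Ideal.span {N})) *
      (d (i + 1)).map (Ideal.Quotient.mk (Ideal.span {N})) = 0 := by
    intro i
    rw [← Matrix.map_mul, dd i]
    exact Matrix.map_zero _ (map_zero _)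
  obtain ⟨dZ, hι, dZZ, hex⟩ := hTRst (S ⧸ Ideal.span {N}) (S ⧸ Ideal.span {t, N}) ρ0
    (Ideal.Quotient.mk _ t) ht hρt hker r gk hr0
    (fun i => (d i).map (Ideal.Quotient.mk (Ideal.span {N}))) ddB e idem
    (by
      intro i
      rw [hmap]
      exact chain i)
    (by
      intro i y hy1 hy2
      rw [hmap] at hy2
      obtain ⟨x, z, hx, hxy⟩ := onto i y hy1 hy2
      refine ⟨fun a => Ideal.Quotient.mk _ (x a), ?_, ?_⟩
      · rw [TDetS_map_mulVec]
        funext a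
        rw [hx]
        exact (hmk _).mpr ⟨z a, rfl⟩
      · rw [← hxy]
        congr 1
        funext a
        exact hρ0 _)
    (by
      intro i x hx1 hx2
      choose s hs using fun a => hsurjB (x a)
      obtain rfl : (fun a => Ideal.Quotient.mk (Ideal.span {N}) (s a)) = x := funext hs
      rw [TDetS_map_mulVec] at hx1
      have h4 : ∀ a, ∃ y, (d i).mulVec s a = N * y := fun a => (hmk _).mp (congrFun hx1 a)
      choose z hz using h4
      obtain ⟨u, v, huv⟩ := inj i s z (funext hz) (by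
        rw [← hx2]
        congr 1
        funext a
        exact (hρ0 _).symm)
      refine ⟨fun a => Ideal.Quotient.mk _ (u a), ?_⟩
      rw [TDetS_map_mulVec]
      funext a
      rw [huv]
      have h5 : Ideal.Quotient.mk (Ideal.span {N}) ((N • v) a) = 0 := (hmk _).mpr ⟨v a, rfl⟩
      rw [Pi.add_apply, map_add, h5, add_zero])
    A A' hA hA' hAe
  have hemp : IsEmpty (Fin (r 0)) := by
    rw [hr0]
    infer_instance
  obtain ⟨kZ, hkZ⟩ := hTCtr (S ⧸ Ideal.span {N}) r dZ dZZ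
    (fun x => ⟨0, funext fun a => hemp.elim a⟩) hex
  obtain ⟨u, hu, hdet⟩ := hTDetI (S ⧸ Ideal.span {N}) (K ⧸ Ideal.span {NK}) j
    (Ideal.Quotient.mk _ t) (by rw [hj, htK]; exact hjt) r gk D hD hg hsum
    (fun i => (d i).map (Ideal.Quotient.mk (Ideal.span {N}))) dZ ddB dZZ A A' hA hA' hι kZ hkZ k
    (by
      have h4 : (fun i => ((d i).map (Ideal.Quotient.mk (Ideal.span {N}))).map j) =
        fun i => ((d i).map f).map (Ideal.Quotient.mk (Ideal.span {NK})) := funext hmapj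
      rw [h4]
      exact hk) ρ sO sE
  have h4 : (fun i => ((d i).map (Ideal.Quotient.mk (Ideal.span {N}))).map j) =
    fun i => ((d i).map f).map (Ideal.Quotient.mk (Ideal.span {NK})) := funext hmapj
  rw [h4, ← hT] at hdet
  have hdet2 : Ideal.Quotient.mk (Ideal.span {NK}) T.det = j u := by
    rw [RingHom.map_det]
    exact hdet
  obtain ⟨s, rfl⟩ := hsurjB u
  obtain ⟨u', hu'⟩ := hu.exists_right_inv
  obtain ⟨v, rfl⟩ := hsurjB u'
  refine ⟨s, v, ?_, ?_⟩
  · rw [hj, Ideal.Quotient.eq, Ideal.mem_span_singleton] at hdet2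
    obtain ⟨y, hy⟩ := hdet2
    linear_combination tK * hy + y * h3
  · rw [← map_mul, ← map_one (Ideal.Quotient.mk (Ideal.span {N})), Ideal.Quotient.eq,
      Ideal.mem_span_singleton] at hu'
    obtain ⟨y, hy⟩ := hu'
    have h5 : f (s * v) - 1 = NK * f y := by
      rw [← hNK, ← map_mul, ← hy, map_sub, map_one]
    rw [h5]
    linear_combination f y * h3

private lemma TDetS_unit (p : ℕ) [hp : Fact p.Prime] (x : ZL p) (s z : ℤ) (hz : ¬ (p : ℤ) ∣ z)
    (h : (s : ℚ) * (x : ℚ) = z) : IsUnit x := by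
  have hz0 : (z : ℚ) ≠ 0 := by
    intro h0
    apply hz
    have h1 : z = 0 := by exact_mod_cast h0
    rw [h1]
    exact dvd_zero _
  have hmem : (s : ℚ) / z ∈ ZL p := ⟨z, s, hz, mul_div_cancel₀ _ hz0⟩
  refine IsUnit.of_mul_eq_one ⟨(s : ℚ) / z, hmem⟩ (Subtype.ext ?_)
  push_cast
  rw [mul_div_assoc', mul_comm, h, div_self hz0]

private lemma TDetS_loc (p : ℕ) [hp : Fact p.Prime] (x : ZL p) : IsUnit x ∨ IsUnit (1 - x) := by
  obtain ⟨s, z, hs, h⟩ := x.2
  by_cases hz : (p : ℤ) ∣ z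
  · right
    refine TDetS_unit p (1 - x) s (s - z) ?_ ?_
    · intro h1
      apply hs
      have h2 := dvd_add h1 hz
      rwa [sub_add_cancel] at h2
    · push_cast
      rw [mul_sub, mul_one, h]
  · left
    exact TDetS_unit p x s z hz h

private lemma TDetS_p (p : ℕ) [hp : Fact p.Prime] : ¬ IsUnit (p : ZL p) := by
  intro h
  obtain ⟨y, hy⟩ := h.exists_right_inv
  obtain ⟨s, z, hs, h1⟩ := y.2
  have h2 : (p : ℚ) * (y : ℚ) = 1 := by
    have := congrArg (fun x : ZL p => (x : ℚ)) hy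
    simpa using this
  apply hs
  refine ⟨z, ?_⟩
  have h3 : (s : ℚ) = (p : ℚ) * z := by
    rw [← h1]
    linear_combination (-(s : ℚ)) * h2
  exact_mod_cast h3

/-- `1 + p x` is a unit of `ℤ_(p)`. -/
private lemma TDetS_one (p : ℕ) [hp : Fact p.Prime] (x : ZL p) : IsUnit (1 + (p : ZL p) * x) := by
  rcases TDetS_loc p (-((p : ZL p) * x)) with h | h
  · exfalso
    rw [IsUnit.neg_iff] at h
    exact TDetS_p p (isUnit_of_mul_isUnit_left h)
  · rwa [sub_neg_eq_add] at h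

private lemma TDetS_aug_of (A : Type) [CommRing A] (Γ : Type) [CommGroup Γ] (h : Γ) :
    aug A Γ (MonoidAlgebra.of A Γ h) = 1 := by
  unfold aug
  change MonoidAlgebra.lift A A Γ (1 : Γ →* A) (MonoidAlgebra.single h 1) = 1
  rw [MonoidAlgebra.lift_single, MonoidHom.one_apply, smul_eq_mul, mul_one]

private lemma TDetS_aug_nrC (A : Type) [CommRing A] (Γ : Type) [CommGroup Γ] (g : Γ) :
    aug A Γ (nrC A g) = (orderOf g : A) := by
  unfold nrC
  rw [map_sum, Finset.sum_congr rfl fun i _ => by rw [map_pow, TDetS_aug_of, one_pow],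
    Finset.sum_const, Finset.card_range, nsmul_eq_mul, mul_one]

end TDetS

theorem sTDetS (hTAdp : S_TAdp) (hTRst : S_TRst) (hTCtr : S_TCtr) (hTDetI : S_TDetI)
    (hTLoc : S_TLoc) (hTRg : S_TRg) (hTRed : S_TRed) : S_TDetS := by
  intro p hpp Γ _ _ hp g hg r gk hr0 D hD d dd e idem chain onto inj hφ hsum ρ sO sE T k hk hT
  obtain ⟨r1, r2, -, r4, ⟨s0, hs0⟩, r6, -⟩ := hTRg p Γ g
  obtain ⟨m, hm⟩ := (IsPGroup.iff_orderOf.mp hp) g
  have hm0 : m ≠ 0 := by
    rintro rfl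
    rw [pow_zero, orderOf_eq_one_iff] at hm
    exact hg hm
  obtain ⟨m', rfl⟩ := Nat.exists_eq_succ_of_ne_zero hm0
  have haug : ∀ a b : MonoidAlgebra (ZL p) Γ, aug (ZL p) Γ
      (a * (MonoidAlgebra.of (ZL p) Γ g - 1) + b * nrC (ZL p) g) =
        (p : ZL p) * ((p : ZL p) ^ m' * aug (ZL p) Γ b) := by
    intro a b
    rw [map_add, map_mul, map_mul, map_sub, TDetS_aug_of, map_one, sub_self, mul_zero, zero_add,
      TDetS_aug_nrC, hm]
    push_cast
    rw [Nat.succ_eq_add_one, pow_succ]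
    ring
  have hl : ∀ s : MonoidAlgebra (ZL p) Γ, IsUnit (Ideal.Quotient.mk (Ideal.span
      {MonoidAlgebra.of (ZL p) Γ g - 1, nrC (ZL p) g}) s) → IsUnit s := by
    intro s hs
    obtain ⟨s', hs'⟩ := hs.exists_right_inv
    obtain ⟨v, rfl⟩ := Ideal.Quotient.mk_surjective s'
    rw [← map_mul, ← map_one (Ideal.Quotient.mk _), Ideal.Quotient.eq,
      Ideal.mem_span_pair] at hs'
    obtain ⟨a, b, hab⟩ := hs'
    apply hTLoc p Γ hp
    have h1 := congrArg (aug (ZL p) Γ) hab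
    rw [haug, map_sub, map_mul, map_one] at h1
    have h2 : aug (ZL p) Γ s * aug (ZL p) Γ v = 1 + (p : ZL p) * ((p : ZL p) ^ m' * aug (ZL p) Γ b) := by
      rw [h1]
      ring
    refine isUnit_of_mul_isUnit_left (y := aug (ZL p) Γ v) ?_
    rw [h2]
    exact TDetS_one p _
  have hnt : Nontrivial (MonoidAlgebra (ZL p) Γ ⧸
      Ideal.span {MonoidAlgebra.of (ZL p) Γ g - 1, nrC (ZL p) g}) := by
    rw [Ideal.Quotient.nontrivial_iff, Ne, Ideal.eq_top_iff_one, Ideal.mem_span_pair]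
    rintro ⟨a, b, hab⟩
    have h1 := congrArg (aug (ZL p) Γ) hab
    rw [haug, map_one] at h1
    exact TDetS_p p (IsUnit.of_mul_eq_one _ h1)
  have hloc : IsLocalRing (MonoidAlgebra (ZL p) Γ ⧸
      Ideal.span {MonoidAlgebra.of (ZL p) Γ g - 1, nrC (ZL p) g}) := by
    refine IsLocalRing.of_isUnit_or_isUnit_one_sub_self fun x => ?_
    obtain ⟨s, rfl⟩ := Ideal.Quotient.mk_surjective x
    rcases TDetS_loc p (aug (ZL p) Γ s) with h | h
    · left
      exact (hTLoc p Γ hp s h).map _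
    · right
      rw [← map_one (Ideal.Quotient.mk _), ← map_sub]
      refine IsUnit.map _ (hTLoc p Γ hp (1 - s) ?_)
      rw [map_sub, map_one]
      exact h
  have hjt : IsUnit (Ideal.Quotient.mk (Ideal.span {nrC ℚ g}) (MonoidAlgebra.of ℚ Γ g - 1)) := by
    have hn0 : (orderOf g : ℚ) ≠ 0 := by
      have : 0 < orderOf g := orderOf_pos g
      exact_mod_cast this.ne'
    refine IsUnit.of_mul_eq_one (Ideal.Quotient.mk _ (s0 * ((orderOf g : ℚ)⁻¹ • 1))) ?_
    rw [← map_mul, ← map_one (Ideal.Quotient.mk _), Ideal.Quotient.eq,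
      Ideal.mem_span_singleton]
    refine ⟨-((orderOf g : ℚ)⁻¹ • 1), ?_⟩
    rw [← mul_assoc, hs0, sub_mul, smul_mul_smul_comm, mul_inv_cancel₀ hn0, one_smul, one_mul]
    ring
  have hf1 : sk p Γ (MonoidAlgebra.of (ZL p) Γ g - 1) = MonoidAlgebra.of ℚ Γ g - 1 := by
    rw [map_sub, map_one, MonoidAlgebra.of_apply]
    unfold sk
    rw [MonoidAlgebra.mapRingHom_single, map_one]
    rfl
  exact TDetS_abs hTAdp hTRst hTCtr hTDetI (sk p Γ) (MonoidAlgebra.of (ZL p) Γ g - 1)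
    (nrC (ZL p) g) (MonoidAlgebra.of ℚ Γ g - 1) (nrC ℚ g) hf1 r6 r1 r2 r4 hloc hl
    ((hTRed Γ).2.2 g) hjt r gk hr0 D hD d dd e idem chain onto inj hφ hsum ρ sO sE T k hk hT

end HSp
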