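import Pool.Agent.Lib.MP_181146_gt.HS.SpecT

/-!
# Project HS, third part: TFr (p-local coordinates of a projective module)
-/

set_option autoImplicit false

namespace HSp

open TensorProduct in
private lemma tfrGen (R S M : Type) [CommRing R] [CommRing S] [Algebra R S] [IsLocalRing S]
    [AddCommGroup M] [Module R M] [Module.Finite R M] [Module.Projective R M]
    (hinj : Function.Injective (algebraMap R S)) (Q : ℤ → Prop) (hQ1 : Q 1)
    (hQm : ∀ s t, Q s → Q t → Q (s * t))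
    (hden : ∀ σ : S, ∃ s : ℤ, Q s ∧ ∃ r : R, s • σ = algebraMap R S r) :
    ∃ (ρ : ℕ) (κ : M →+ (Fin ρ → S)), (∀ (a : R) (x : M), κ (a • x) = algebraMap R S a • κ x) ∧
      Function.Injective κ ∧ ∀ y : Fin ρ → S, ∃ s : ℤ, Q s ∧ ∃ x : M, κ x = s • y := by
  have : Module.FinitePresentation S (S ⊗[R] M) := Module.finitePresentation_of_projective _ _
  have : Module.Free S (S ⊗[R] M) := Module.free_of_flat_of_isLocalRing
  let b := Module.finBasis S (S ⊗[R] M)
  have hd : ∀ t : S ⊗[R] M, ∃ s : ℤ, Q s ∧ ∃ x : M, (1 : S) ⊗ₜ[R] x = s • t := by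
    intro t
    induction t using TensorProduct.induction_on with
    | zero => exact ⟨1, hQ1, 0, by simp⟩
    | tmul σ x =>
      obtain ⟨s, hs, r, hr⟩ := hden σ
      refine ⟨s, hs, r • x, ?_⟩
      rw [← TensorProduct.smul_tmul, Algebra.smul_def, mul_one, ← hr, TensorProduct.smul_tmul']
    | add t t' h h' =>
      obtain ⟨s, hs, x, hx⟩ := h
      obtain ⟨s', hs', x', hx'⟩ := h'
      refine ⟨s * s', hQm _ _ hs hs', s' • x + s • x', ?_⟩
      rw [TensorProduct.tmul_add, TensorProduct.tmul_smul, TensorProduct.tmul_smul, hx, hx',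
        smul_smul, smul_smul, smul_add, mul_comm s' s]
  refine ⟨Module.finrank S (S ⊗[R] M), ⟨⟨fun x => b.equivFun ((1 : S) ⊗ₜ[R] x), ?_⟩, ?_⟩, ?_, ?_, ?_⟩
  · rw [TensorProduct.tmul_zero, map_zero]
  · intro x y
    change b.equivFun _ = b.equivFun _ + b.equivFun _
    rw [TensorProduct.tmul_add, map_add]
  · intro a x
    change b.equivFun _ = algebraMap R S a • b.equivFun _
    rw [TensorProduct.tmul_smul, ← map_smul, algebraMap_smul]
  · intro x y hxy
    have h1 : (1 : S) ⊗ₜ[R] x = (1 : S) ⊗ₜ[R] y := b.equivFun.injective hxy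
    have h2 := Module.Flat.rTensor_preserves_injective_linearMap (M := M)
      (Algebra.linearMap R S) hinj
    have h3 : (1 : R) ⊗ₜ[R] x = (1 : R) ⊗ₜ[R] y := by
      apply h2
      rw [LinearMap.rTensor_tmul, LinearMap.rTensor_tmul, Algebra.linearMap_apply, map_one]
      exact h1
    have h4 := congrArg (TensorProduct.lid R M) h3
    rwa [TensorProduct.lid_tmul, TensorProduct.lid_tmul, one_smul, one_smul] at h4
  · intro y
    obtain ⟨s, hs, x, hx⟩ := hd (b.equivFun.symm y)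
    refine ⟨s, hs, x, ?_⟩
    change b.equivFun _ = _
    rw [hx, map_zsmul, LinearEquiv.apply_symm_apply]

private lemma tfrDen (p : ℕ) [hp : Fact p.Prime] (Γ : Type) [CommGroup Γ]
    (σ : MonoidAlgebra (ZL p) Γ) :
    ∃ s : ℤ, ¬ (p : ℤ) ∣ s ∧ ∃ r : MonoidAlgebra ℤ Γ, s • σ = ls p Γ r := by
  have hpr := Nat.prime_iff_prime_int.1 hp.out
  induction σ using MonoidAlgebra.induction_on with
  | of γ =>
    refine ⟨1, fun h => hpr.not_isUnit (isUnit_of_dvd_one h), MonoidAlgebra.of ℤ Γ γ, ?_⟩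
    rw [one_smul]
    change _ = MonoidAlgebra.mapRingHom Γ (Int.castRingHom (ZL p)) _
    simp [MonoidAlgebra.of_apply]
  | add x y hx hy =>
    obtain ⟨s, hs, r, hr⟩ := hx
    obtain ⟨s', hs', r', hr'⟩ := hy
    refine ⟨s * s', ?_, s' • r + s • r', ?_⟩
    · intro hd
      rcases hpr.dvd_or_dvd hd with h1 | h1
      · exact hs h1
      · exact hs' h1
    · rw [map_add, map_zsmul, map_zsmul, ← hr, ← hr', smul_add, smul_smul, smul_smul,
        mul_comm s' s]
  | smul c x hx =>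
    obtain ⟨s, hs, r, hr⟩ := hx
    obtain ⟨s', z, hs', hz⟩ := c.2
    refine ⟨s' * s, ?_, z • r, ?_⟩
    · intro hd
      rcases hpr.dvd_or_dvd hd with h1 | h1
      · exact hs' h1
      · exact hs h1
    · have h1 : s' • c = ((z : ℤ) : ZL p) := by
        apply Subtype.ext
        push_cast
        rw [zsmul_eq_mul]
        exact hz
      rw [map_zsmul, ← hr, mul_comm s' s, mul_smul, ← smul_assoc s' c x, h1,
        Int.cast_smul_eq_zsmul, smul_comm s z]

theorem sTFr (hTLoc : S_TLoc) (hTZL : S_TZL) : S_TFr := by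
  intro p hpf Γ _ _ hp M _ _ _ _
  obtain ⟨z1, z2, -, -⟩ := hTZL p
  have hpr := Nat.prime_iff_prime_int.1 hpf.out
  have hnon : ∀ x : MonoidAlgebra (ZL p) Γ, ¬ IsUnit x → ∃ y : ZL p, aug (ZL p) Γ x = p * y := by
    intro x hx
    rcases z1 (aug (ZL p) Γ x) with h | h
    · exact absurd (hTLoc p Γ hp x h) hx
    · exact h
  have hloc : IsLocalRing (MonoidAlgebra (ZL p) Γ) := by
    refine IsLocalRing.of_nonunits_add ?_
    intro x y hx hy
    obtain ⟨c, hc⟩ := hnon x hx
    obtain ⟨d, hd⟩ := hnon y hy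
    intro hu
    have h1 := hu.map (aug (ZL p) Γ)
    rw [map_add, hc, hd, ← mul_add] at h1
    exact z2 (isUnit_of_mul_isUnit_left h1)
  let _ : Algebra (MonoidAlgebra ℤ Γ) (MonoidAlgebra (ZL p) Γ) := (ls p Γ).toAlgebra
  have hinj : Function.Injective (algebraMap (MonoidAlgebra ℤ Γ) (MonoidAlgebra (ZL p) Γ)) := by
    rw [RingHom.algebraMap_toAlgebra]
    rw [injective_iff_map_eq_zero]
    intro x hx
    ext γ
    have h1 : (ls p Γ x).coeff γ = ((x.coeff γ : ℤ) : ZL p) := by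
      unfold ls
      rw [MonoidAlgebra.coeff_mapRingHom]
      rfl
    rw [hx] at h1
    have h2 : ((x.coeff γ : ℤ) : ZL p) = 0 := h1.symm.trans rfl
    exact_mod_cast h2
  obtain ⟨ρ, κ, h1, h2, h3⟩ := tfrGen (MonoidAlgebra ℤ Γ) (MonoidAlgebra (ZL p) Γ) M hinj
    (fun s => ¬ (p : ℤ) ∣ s) (fun h => hpr.not_isUnit (isUnit_of_dvd_one h))
    (fun s t hs ht hd => by
      rcases hpr.dvd_or_dvd hd with h1 | h1
      · exact hs h1
      · exact ht h1) (fun σ => tfrDen p Γ σ)
  exact ⟨ρ, ⟨⟨κ, h1, h2, h3⟩⟩⟩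

end HSp
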