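import Pool.Agent.Lib.MP_181146_gt.HS.SpecT

/-!
# Project HS, third part: TGen (generators of direct factors)
-/

set_option autoImplicit false

namespace HSp

private lemma tgPw (k : ℕ) (c : Multiplicative (ZMod k)) :
    ∃ z : ℤ, (Multiplicative.ofAdd (1 : ZMod k)) ^ z = c := by
  refine ⟨(Multiplicative.toAdd c).cast, ?_⟩
  rw [← ofAdd_zsmul, zsmul_one, ZMod.intCast_zmod_cast]
  exact ofAdd_toAdd c

private lemma tgSingle {ι : Type} [DecidableEq ι] (n : ι → ℕ) (i : ι) (z : ℤ) :
    (Pi.mulSingle i (Multiplicative.ofAdd (1 : ZMod (n i))) :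
      (i : ι) → Multiplicative (ZMod (n i))) ^ z =
      Pi.mulSingle i ((Multiplicative.ofAdd (1 : ZMod (n i))) ^ z) := by
  have := map_zpow (MonoidHom.mulSingle (fun i => Multiplicative (ZMod (n i))) i)
    (Multiplicative.ofAdd (1 : ZMod (n i))) z
  exact this.symm

theorem sTGen : S_TGen := by
  intro p hpf Γ _ _ hp hnc
  classical
  obtain ⟨ι, hι, n, hn, ⟨e⟩⟩ := CommGroup.equiv_prod_multiplicative_zmod_of_finite Γ
  let gg : ι → Γ := fun i => e.symm (Pi.mulSingle i (Multiplicative.ofAdd (1 : ZMod (n i))))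
  have hgg : ∀ i, e (gg i) = Pi.mulSingle i (Multiplicative.ofAdd (1 : ZMod (n i))) :=
    fun i => e.apply_symm_apply _
  have hpow : ∀ (i : ι) (z : ℤ), e (gg i ^ z) =
      Pi.mulSingle i ((Multiplicative.ofAdd (1 : ZMod (n i))) ^ z) := by
    intro i z
    rw [map_zpow, hgg, tgSingle]
  have hsame : ∀ i, e (gg i) i = Multiplicative.ofAdd (1 : ZMod (n i)) := fun i => by
    rw [hgg, Pi.mulSingle_eq_same]
  have hone : ∀ i, (Multiplicative.ofAdd (1 : ZMod (n i))) ≠ 1 := by
    intro i h
    have h1 : (1 : ZMod (n i)) = 0 := by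
      have := congrArg Multiplicative.toAdd h
      simpa using this
    have : Fact (1 < n i) := ⟨hn i⟩
    exact one_ne_zero h1
  have hdvd : ∀ i, p ∣ n i := by
    intro i
    obtain ⟨k, hk⟩ := hp (gg i)
    have h1 : (Multiplicative.ofAdd (1 : ZMod (n i))) ^ (p ^ k) = 1 := by
      have h2 : e (gg i ^ p ^ k) i = 1 := by rw [hk, map_one]; rfl
      rw [map_pow, Pi.pow_apply, hsame] at h2
      exact h2
    have h3 : ((p ^ k : ℕ) : ZMod (n i)) = 0 := by
      have := congrArg Multiplicative.toAdd h1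
      rw [toAdd_pow, toAdd_ofAdd, toAdd_one, nsmul_one] at this
      exact this
    have h4 : n i ∣ p ^ k := (ZMod.natCast_eq_zero_iff _ _).1 h3
    obtain ⟨j, _, hj⟩ := (Nat.dvd_prime_pow hpf.out).1 h4
    rw [hj]
    refine dvd_pow_self p ?_
    rintro rfl
    have := hn i
    rw [hj] at this
    simp at this
  -- the coordinate characters
  let ch : ι → (Γ →* Multiplicative (ZMod p)) := fun i =>
    ((ZMod.castHom (hdvd i) (ZMod p)).toAddMonoidHom.toMultiplicative.comp
      (Pi.evalMonoidHom (fun i => Multiplicative (ZMod (n i))) i)).comp e.toMonoidHom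
  have hch1 : ∀ i, ch i (gg i) = Multiplicative.ofAdd 1 := by
    intro i
    change Multiplicative.ofAdd (ZMod.castHom (hdvd i) (ZMod p)
      (Multiplicative.toAdd (e (gg i) i))) = _
    rw [hsame, toAdd_ofAdd, map_one]
  have hch0 : ∀ i x, e x i = 1 → ch i x = 1 := by
    intro i x hx
    change Multiplicative.ofAdd (ZMod.castHom (hdvd i) (ZMod p)
      (Multiplicative.toAdd (e x i))) = _
    rw [hx, toAdd_one, map_zero]
    rfl
  refine ⟨Set.range gg, ?_, ?_⟩
  · rw [eq_top_iff]
    rintro x -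
    have h1 : x = ∏ i, e.symm (Pi.mulSingle i (e x i)) := by
      apply e.injective
      rw [map_prod]
      rw [Finset.prod_congr rfl fun i _ => e.apply_symm_apply (Pi.mulSingle i (e x i))]
      exact (Finset.univ_prod_mulSingle (e x)).symm
    rw [h1]
    refine Subgroup.prod_mem _ fun i _ => ?_
    obtain ⟨z, hz⟩ := tgPw (n i) (e x i)
    have h2 : e.symm (Pi.mulSingle i (e x i)) = gg i ^ z := by
      apply e.injective
      rw [e.apply_symm_apply, hpow, hz]
    rw [h2]
    exact Subgroup.zpow_mem _ (Subgroup.subset_closure (Set.mem_range_self i)) z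
  · rintro _ ⟨i, rfl⟩
    have hg1 : gg i ≠ 1 := by
      intro h
      apply hone i
      rw [← hsame, h, map_one]
      rfl
    refine ⟨hg1, ((Pi.evalMonoidHom (fun i => Multiplicative (ZMod (n i))) i).comp
      e.toMonoidHom).ker, IsCompl.mk ?_ ?_, ⟨ch i, hch1 i, ?_⟩, ?_⟩
    · rw [Subgroup.disjoint_def]
      rintro x ⟨z, rfl⟩ hx
      have hx' : e (gg i ^ z) i = 1 := hx
      rw [hpow, Pi.mulSingle_eq_same] at hx'
      apply e.injective
      change e (gg i ^ z) = e 1
      rw [hpow, hx', Pi.mulSingle_one, map_one]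
    · rw [codisjoint_iff, eq_top_iff]
      rintro x -
      obtain ⟨z, hz⟩ := tgPw (n i) (e x i)
      have h2 : x = gg i ^ z * (gg i ^ (-z) * x) := by
        rw [zpow_neg, mul_inv_cancel_left]
      rw [h2]
      refine Subgroup.mul_mem_sup (Subgroup.zpow_mem _ (Subgroup.mem_zpowers _) z) ?_
      change e (gg i ^ (-z) * x) i = 1
      rw [map_mul, Pi.mul_apply, hpow, Pi.mulSingle_eq_same, zpow_neg, hz, inv_mul_cancel]
    · intro y hy
      exact hch0 i y hy
    · have h3 : ∃ i', i' ≠ i := by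
        by_contra hcon
        push Not at hcon
        apply hnc
        refine ⟨gg i, fun x => ?_⟩
        obtain ⟨z, hz⟩ := tgPw (n i) (e x i)
        refine ⟨z, ?_⟩
        apply e.injective
        change e (gg i ^ z) = e x
        rw [hpow, hz]
        funext j
        obtain rfl := hcon j
        rw [Pi.mulSingle_eq_same]
      obtain ⟨i', hi'⟩ := h3
      refine ⟨gg i', ?_, ch i', hch0 i' _ ?_, hch1 i'⟩
      · change e (gg i') i = 1
        rw [hgg, Pi.mulSingle_eq_of_ne hi'.symm]
      · rw [hgg, Pi.mulSingle_eq_of_ne hi']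

end HSp
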