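import Pool.Agent.Lib.MP_181146_gt.HS.SpecT

/-!
# The `1/p`-parts of the odd and the even lattice
-/

set_option autoImplicit false

namespace HSp

section GroupRing

private theorem TInc_ls_of (p : ℕ) [Fact p.Prime] (Γ : Type) [CommGroup Γ] (γ : Γ) :
    ls p Γ (MonoidAlgebra.of ℤ Γ γ) = MonoidAlgebra.of (ZL p) Γ γ := by
  unfold ls
  simp [MonoidAlgebra.of_apply]

private theorem TInc_sk_of (p : ℕ) [Fact p.Prime] (Γ : Type) [CommGroup Γ] (γ : Γ) :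
    sk p Γ (MonoidAlgebra.of (ZL p) Γ γ) = MonoidAlgebra.of ℚ Γ γ := by
  unfold sk
  simp [MonoidAlgebra.of_apply]

private theorem TInc_nrG (Γ : Type) [CommGroup Γ] (A : Type) [CommRing A] [Fintype Γ] :
    nrG A Γ = ∑ γ : Γ, MonoidAlgebra.of A Γ γ := by
  unfold nrG
  rw [finsum_eq_sum_of_fintype]

private theorem TInc_ls_nrG (p : ℕ) [Fact p.Prime] (Γ : Type) [CommGroup Γ] [Finite Γ] :
    ls p Γ (nrG ℤ Γ) = nrG (ZL p) Γ := by
  classical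
  have := Fintype.ofFinite Γ
  rw [TInc_nrG, TInc_nrG, map_sum]
  simp only [TInc_ls_of]

private theorem TInc_sk_nrG (p : ℕ) [Fact p.Prime] (Γ : Type) [CommGroup Γ] [Finite Γ] :
    sk p Γ (nrG (ZL p) Γ) = nrG ℚ Γ := by
  classical
  have := Fintype.ofFinite Γ
  rw [TInc_nrG, TInc_nrG, map_sum]
  simp only [TInc_sk_of]

private theorem TInc_aug_of (Γ : Type) [CommGroup Γ] (A : Type) [CommRing A] (γ : Γ) :
    aug A Γ (MonoidAlgebra.of A Γ γ) = 1 := by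
  unfold aug
  simp

private theorem TInc_aug_smul (Γ : Type) [CommGroup Γ] (A : Type) [CommRing A] (a : A)
    (f : MonoidAlgebra A Γ) : aug A Γ (a • f) = a * aug A Γ f := by
  unfold aug
  simp

private theorem TInc_nrG_mul (Γ : Type) [CommGroup Γ] [Finite Γ] (A : Type) [CommRing A]
    (s : MonoidAlgebra A Γ) : nrG A Γ * s = aug A Γ s • nrG A Γ := by
  classical
  have := Fintype.ofFinite Γ
  induction s using MonoidAlgebra.induction_on with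
  | of γ =>
    rw [TInc_aug_of, one_smul, TInc_nrG, Finset.sum_mul]
    simp only [← map_mul]
    exact Fintype.sum_equiv (Equiv.mulRight γ) _ _ fun x => rfl
  | add f g hf hg => rw [mul_add, hf, hg, map_add, add_smul]
  | smul a f hf => rw [TInc_aug_smul, mul_smul_comm, hf, smul_smul]

private theorem TInc_aug_nrG (Γ : Type) [CommGroup Γ] [Finite Γ] (A : Type) [CommRing A] :
    aug A Γ (nrG A Γ) = (Nat.card Γ : A) := by
  classical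
  have := Fintype.ofFinite Γ
  rw [TInc_nrG, map_sum]
  simp only [TInc_aug_of]
  simp [Nat.card_eq_fintype_card]

private theorem TInc_aug_ls (p : ℕ) [Fact p.Prime] (Γ : Type) [CommGroup Γ] [Finite Γ]
    (s : MonoidAlgebra ℤ Γ) : aug (ZL p) Γ (ls p Γ s) = ((aug ℤ Γ s : ℤ) : ZL p) := by
  induction s using MonoidAlgebra.induction_on with
  | of γ => rw [TInc_ls_of, TInc_aug_of, TInc_aug_of, Int.cast_one]
  | add f g hf hg => rw [map_add, map_add, map_add, hf, hg, Int.cast_add]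
  | smul a f hf =>
    rw [TInc_aug_smul, Int.cast_mul, ← hf, zsmul_eq_mul, map_mul, map_mul]
    simp

private theorem TInc_aug_sk (p : ℕ) [Fact p.Prime] (Γ : Type) [CommGroup Γ] [Finite Γ]
    (s : MonoidAlgebra (ZL p) Γ) : aug ℚ Γ (sk p Γ s) = ((aug (ZL p) Γ s : ZL p) : ℚ) := by
  induction s using MonoidAlgebra.induction_on with
  | of γ => rw [TInc_sk_of, TInc_aug_of, TInc_aug_of, Subring.coe_one]
  | add f g hf hg => rw [map_add, map_add, map_add, hf, hg, Subring.coe_add]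
  | smul a f hf =>
    have h1 : sk p Γ (a • f) = (a : ℚ) • sk p Γ f := by
      unfold sk
      ext x
      simp
    rw [h1, TInc_aug_smul, TInc_aug_smul, Subring.coe_mul, hf]

/-- The element `n - N`. -/
private noncomputable def TInc_c (Γ : Type) [CommGroup Γ] : MonoidAlgebra ℤ Γ :=
  (Nat.card Γ : MonoidAlgebra ℤ Γ) - nrG ℤ Γ

private theorem TInc_NN (Γ : Type) [CommGroup Γ] [Finite Γ] :
    nrG ℤ Γ * nrG ℤ Γ = (Nat.card Γ : MonoidAlgebra ℤ Γ) * nrG ℤ Γ := by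
  rw [TInc_nrG_mul, TInc_aug_nrG, Nat.cast_smul_eq_nsmul, nsmul_eq_mul]

private theorem TInc_cN (Γ : Type) [CommGroup Γ] [Finite Γ] : TInc_c Γ * nrG ℤ Γ = 0 := by
  unfold TInc_c
  rw [sub_mul, TInc_NN, sub_self]

private theorem TInc_cc (Γ : Type) [CommGroup Γ] [Finite Γ] :
    TInc_c Γ * TInc_c Γ = (Nat.card Γ : MonoidAlgebra ℤ Γ) * TInc_c Γ := by
  have h1 := TInc_cN Γ
  calc TInc_c Γ * TInc_c Γ = TInc_c Γ * ((Nat.card Γ : MonoidAlgebra ℤ Γ) - nrG ℤ Γ) := rfl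
    _ = (Nat.card Γ : MonoidAlgebra ℤ Γ) * TInc_c Γ - TInc_c Γ * nrG ℤ Γ := by ring
    _ = _ := by rw [h1, sub_zero]

private theorem TInc_lsc (p : ℕ) [Fact p.Prime] (Γ : Type) [CommGroup Γ] [Finite Γ] :
    ls p Γ (TInc_c Γ) = (Nat.card Γ : MonoidAlgebra (ZL p) Γ) - nrG (ZL p) Γ := by
  unfold TInc_c
  rw [map_sub, map_natCast, TInc_ls_nrG]

private theorem TInc_augc (p : ℕ) [Fact p.Prime] (Γ : Type) [CommGroup Γ] [Finite Γ] :
    aug (ZL p) Γ (ls p Γ (TInc_c Γ)) = 0 := by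
  rw [TInc_lsc, map_sub, map_natCast, TInc_aug_nrG, sub_self]

end GroupRing

section Modules

variable (p : ℕ) [Fact p.Prime] (Γ : Type) [CommGroup Γ] [Finite Γ] {X : ℕ → Type}
  [∀ i, AddCommGroup (X i)] [∀ i, Module (MonoidAlgebra ℤ Γ) (X i)] {r : ℕ → ℕ}
  (C : ∀ i, PCo p Γ (X i) (r i))
  (dx : ∀ i, X (i + 1) →ₗ[MonoidAlgebra ℤ Γ] X i) (hx : ∀ i, X i →ₗ[MonoidAlgebra ℤ Γ] X (i + 1))
  (d : ∀ i, Matrix (Fin (r i)) (Fin (r (i + 1))) (MonoidAlgebra (ZL p) Γ))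
  (h : ∀ i, Matrix (Fin (r (i + 1))) (Fin (r i)) (MonoidAlgebra (ZL p) Γ))

/-- `n d`. -/
private noncomputable def TInc_dn (dx : ∀ i, X (i + 1) →ₗ[MonoidAlgebra ℤ Γ] X i) :
    ∀ i, X (i + 1) →ₗ[MonoidAlgebra ℤ Γ] X i := fun i => (Nat.card Γ : MonoidAlgebra ℤ Γ) • dx i

/-- `h h` on the even part. -/
private noncomputable def TInc_sh (hx : ∀ i, X i →ₗ[MonoidAlgebra ℤ Γ] X (i + 1)) (y : ∀ j, X (2 * j)) :
    ∀ j, X (2 * j) := fun j => match j with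
  | 0 => 0
  | j + 1 => hx (2 * j + 1) (hx (2 * j) (y j))

omit [Finite Γ] in
private theorem TInc_dd (hdx : ∀ i x, (C i).κ (dx i x) = (d i).mulVec ((C (i + 1)).κ x))
    (dd : ∀ i, d i * d (i + 1) = 0) (i : ℕ) (x : X (i + 1 + 1)) : dx i (dx (i + 1) x) = 0 := by
  apply (C i).inj
  rw [hdx, hdx, Matrix.mulVec_mulVec, dd, Matrix.zero_mulVec, map_zero]

private theorem TInc_smc {ρ : ℕ} (w : Fin ρ → MonoidAlgebra (ZL p) Γ) :
    Matrix.mulVec (((Nat.card Γ : MonoidAlgebra (ZL p) Γ) - nrG (ZL p) Γ) •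
      (1 : Matrix (Fin ρ) (Fin ρ) (MonoidAlgebra (ZL p) Γ))) w = ls p Γ (TInc_c Γ) • w := by
  rw [Matrix.smul_mulVec, Matrix.one_mulVec, TInc_lsc]

private theorem TInc_dh0 (hdx : ∀ i x, (C i).κ (dx i x) = (d i).mulVec ((C (i + 1)).κ x))
    (hhx : ∀ i x, (C (i + 1)).κ (hx i x) = (h i).mulVec ((C i).κ x))
    (dh0 : d 0 * h 0 = ((Nat.card Γ : MonoidAlgebra (ZL p) Γ) - nrG (ZL p) Γ) • 1) (x : X 0) :
    dx 0 (hx 0 x) = TInc_c Γ • x := by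
  apply (C 0).inj
  rw [hdx, hhx, Matrix.mulVec_mulVec, dh0, TInc_smc, (C 0).smul]

private theorem TInc_dh (hdx : ∀ i x, (C i).κ (dx i x) = (d i).mulVec ((C (i + 1)).κ x))
    (hhx : ∀ i x, (C (i + 1)).κ (hx i x) = (h i).mulVec ((C i).κ x))
    (dh : ∀ i, d (i + 1) * h (i + 1) + h i * d i =
      ((Nat.card Γ : MonoidAlgebra (ZL p) Γ) - nrG (ZL p) Γ) • 1) (i : ℕ) (x : X (i + 1)) :
    dx (i + 1) (hx (i + 1) x) + hx i (dx i x) = TInc_c Γ • x := by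
  apply (C (i + 1)).inj
  rw [map_add, hdx, hhx, Matrix.mulVec_mulVec, hhx, hdx, Matrix.mulVec_mulVec, ← Matrix.add_mulVec,
    dh, TInc_smc, (C (i + 1)).smul]

omit [Finite Γ] in
private theorem TInc_oeeo (hd : ∀ i (x : X (i + 1 + 1)), dx i (dx (i + 1) x) = 0)
    (h0 : ∀ x : X 0, dx 0 (hx 0 x) = TInc_c Γ • x)
    (h1 : ∀ i (x : X (i + 1)), dx (i + 1) (hx (i + 1) x) + hx i (dx i x) = TInc_c Γ • x)
    (y : ∀ j, X (2 * j)) :
    oe (TInc_dn Γ dx) hx (eo (TInc_dn Γ dx) hx y) =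
      ((Nat.card Γ : MonoidAlgebra ℤ Γ) * TInc_c Γ) • y + TInc_sh Γ hx y := by
  funext j
  cases j with
  | zero =>
    change (Nat.card Γ : MonoidAlgebra ℤ Γ) •
        dx 0 (hx 0 (y 0) + (Nat.card Γ : MonoidAlgebra ℤ Γ) • dx 1 (y 1)) =
      ((Nat.card Γ : MonoidAlgebra ℤ Γ) * TInc_c Γ) • y 0 + 0
    have e1 : dx 0 (dx 1 (y 1)) = 0 := hd 0 (y 1)
    rw [map_add, map_smul, e1, h0, smul_zero, add_zero, add_zero, smul_smul]
  | succ j =>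
    change (Nat.card Γ : MonoidAlgebra ℤ Γ) •
        dx (2 * (j + 1)) (hx (2 * (j + 1)) (y (j + 1)) +
          (Nat.card Γ : MonoidAlgebra ℤ Γ) • dx (2 * (j + 1) + 1) (y (j + 1 + 1))) +
        hx (2 * j + 1) (hx (2 * j) (y j) +
          (Nat.card Γ : MonoidAlgebra ℤ Γ) • dx (2 * j + 1) (y (j + 1))) =
      ((Nat.card Γ : MonoidAlgebra ℤ Γ) * TInc_c Γ) • y (j + 1) +
        hx (2 * j + 1) (hx (2 * j) (y j))
    have e1 : dx (2 * (j + 1)) (dx (2 * (j + 1) + 1) (y (j + 1 + 1))) = 0 :=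
      hd (2 * (j + 1)) (y (j + 1 + 1))
    have e2 : dx (2 * (j + 1)) (hx (2 * (j + 1)) (y (j + 1))) +
        hx (2 * j + 1) (dx (2 * j + 1) (y (j + 1))) = TInc_c Γ • y (j + 1) :=
      h1 (2 * j + 1) (y (j + 1))
    rw [map_add, map_smul, e1, smul_zero, add_zero, map_add, map_smul, ← smul_smul, ← e2, smul_add]
    abel

omit [Finite Γ] in
private theorem TInc_skn {M : Type} [AddCommGroup M] [Module (MonoidAlgebra ℤ Γ) M] {ρ : ℕ}
    (C : PCo p Γ M ρ) (z : M) (i : Fin ρ) :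
    sk p Γ (C.κ ((Nat.card Γ : MonoidAlgebra ℤ Γ) • z) i) =
      (Nat.card Γ : ℚ) • sk p Γ (C.κ z i) := by
  rw [C.smul, map_natCast]
  change sk p Γ ((Nat.card Γ : MonoidAlgebra (ZL p) Γ) * C.κ z i) = _
  rw [map_mul, map_natCast, Nat.cast_smul_eq_nsmul, nsmul_eq_mul]

omit [Finite Γ] in
private theorem TInc_O1 (hdx : ∀ i x, (C i).κ (dx i x) = (d i).mulVec ((C (i + 1)).κ x))
    (hhx : ∀ i x, (C (i + 1)).κ (hx i x) = (h i).mulVec ((C i).κ x)) (hn : (Nat.card Γ : ℚ) ≠ 0)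
    (x : ∀ j, X (2 * j + 1)) (j : ℕ) (a : Fin (r (2 * j))) :
    (Nat.card Γ : ℚ) • (oe (N := fun i => Fin (r i) → MonoidAlgebra ℚ Γ)
        (fun i => ((d i).map (sk p Γ)).mulVecLin)
        (fun i => (((1 : ℚ) / (Nat.card Γ : ℚ)) • (h i).map (sk p Γ)).mulVecLin)
        (fun j a => sk p Γ ((C (2 * j + 1)).κ (x j) a)) j a) =
      sk p Γ ((C (2 * j)).κ (oe (TInc_dn Γ dx) hx x j) a) := by
  cases j with
  | zero =>
    change (Nat.card Γ : ℚ) • (((d 0).map (sk p Γ)).mulVec (sk p Γ ∘ (C 1).κ (x 0)) a) =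
      sk p Γ ((C 0).κ ((Nat.card Γ : MonoidAlgebra ℤ Γ) • dx 0 (x 0)) a)
    rw [TInc_skn, ← RingHom.map_mulVec]
    have e1 := hdx 0 (x 0)
    rw [e1]
  | succ j =>
    change (Nat.card Γ : ℚ) • (((d (2 * (j + 1))).map (sk p Γ)).mulVec
          (sk p Γ ∘ (C (2 * (j + 1) + 1)).κ (x (j + 1))) a +
        ((((1 : ℚ) / (Nat.card Γ : ℚ)) • (h (2 * j + 1)).map (sk p Γ)).mulVec
          (sk p Γ ∘ (C (2 * j + 1)).κ (x j))) a) =
      sk p Γ ((C (2 * (j + 1))).κ ((Nat.card Γ : MonoidAlgebra ℤ Γ) • dx (2 * (j + 1)) (x (j + 1)) +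
        hx (2 * j + 1) (x j)) a)
    rw [map_add, Pi.add_apply, map_add, TInc_skn, smul_add, Matrix.smul_mulVec, Pi.smul_apply,
      smul_smul, mul_one_div_cancel hn, one_smul]
    have e1 := hdx (2 * (j + 1)) (x (j + 1))
    have e2 : (C (2 * (j + 1))).κ (hx (2 * j + 1) (x j)) =
      (h (2 * j + 1)).mulVec ((C (2 * j + 1)).κ (x j)) := hhx (2 * j + 1) (x j)
    rw [e1, e2, RingHom.map_mulVec, RingHom.map_mulVec]

omit [Finite Γ] in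
private theorem TInc_O {ρ : ℕ} (sO : (Σ j : ℕ, Fin (r (2 * j + 1))) ≃ Fin ρ)
    (sE : (Σ j : ℕ, Fin (r (2 * j))) ≃ Fin ρ)
    (CO : PCo p Γ (∀ j, X (2 * j + 1)) ρ) (CE : PCo p Γ (∀ j, X (2 * j)) ρ)
    (hCO : ∀ x, CO.κ x = (cP sO).symm (fun j => (C (2 * j + 1)).κ (x j)))
    (hCE : ∀ x, CE.κ x = (cP sE).symm (fun j => (C (2 * j)).κ (x j)))
    (hdx : ∀ i x, (C i).κ (dx i x) = (d i).mulVec ((C (i + 1)).κ x))
    (hhx : ∀ i x, (C (i + 1)).κ (hx i x) = (h i).mulVec ((C i).κ x)) (hn : (Nat.card Γ : ℚ) ≠ 0)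
    (x : ∀ j, X (2 * j + 1)) :
    (Nat.card Γ : ℚ) • (OEm sO sE (fun i => (d i).map (sk p Γ))
        (fun i => ((1 : ℚ) / (Nat.card Γ : ℚ)) • (h i).map (sk p Γ))).mulVec
        (fun i => sk p Γ (CO.κ x i)) =
      fun i => sk p Γ (CE.κ (oe (TInc_dn Γ dx) hx x) i) := by
  have hcP : cP sO (fun i => sk p Γ (CO.κ x i)) =
      fun j a => sk p Γ ((C (2 * j + 1)).κ (x j) a) := by
    funext j a
    change sk p Γ (CO.κ x (sO ⟨j, a⟩)) = _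
    rw [hCO]
    change sk p Γ ((C (2 * (sO.symm (sO ⟨j, a⟩)).1 + 1)).κ (x (sO.symm (sO ⟨j, a⟩)).1)
      (sO.symm (sO ⟨j, a⟩)).2) = _
    rw [sO.symm_apply_apply]
  funext c
  rw [hCE]
  unfold OEm
  rw [Pi.smul_apply, LinearMap.toMatrix'_mulVec]
  simp only [LinearMap.coe_comp, LinearEquiv.coe_coe, Function.comp_apply]
  rw [hcP]
  exact TInc_O1 p Γ C dx hx d h hdx hhx hn x (sE.symm c).1 (sE.symm c).2

omit [Finite Γ] in
private theorem TInc_ns (y : MonoidAlgebra ℚ Γ) :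
    (Nat.card Γ : ℚ) • y = (Nat.card Γ : MonoidAlgebra ℚ Γ) * y := by
  rw [Nat.cast_smul_eq_nsmul, nsmul_eq_mul]

private theorem TInc_N {ρ : ℕ} (T0 : Matrix (Fin ρ) (Fin ρ) (ZL p))
    (w z : Fin ρ → MonoidAlgebra (ZL p) Γ)
    (hwz : T0.mulVec (fun i => aug (ZL p) Γ (w i)) = fun i => aug (ZL p) Γ (z i)) (i : Fin ρ) :
    nrG ℚ Γ * (((T0.map (ZL p).subtype).map (algebraMap ℚ (MonoidAlgebra ℚ Γ))).mulVec
      (fun i => sk p Γ (w i)) i) = nrG ℚ Γ * sk p Γ (z i) := by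
  have h1 : ∀ a : ℚ, aug ℚ Γ (algebraMap ℚ (MonoidAlgebra ℚ Γ) a) = a := by
    intro a
    unfold aug
    simp
  rw [TInc_nrG_mul, TInc_nrG_mul]
  congr 1
  change aug ℚ Γ (∑ k, algebraMap ℚ (MonoidAlgebra ℚ Γ) ((T0 i k : ZL p) : ℚ) * sk p Γ (w k)) = _
  rw [map_sum, TInc_aug_sk, ← congrFun hwz i]
  change _ = (((∑ k, T0 i k * aug (ZL p) Γ (w k) : ZL p)) : ℚ)
  rw [AddSubmonoidClass.coe_finsetSum]
  refine Finset.sum_congr rfl fun k _ => ?_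
  rw [map_mul, h1, TInc_aug_sk, Subring.coe_mul]

private theorem TInc_F {ρ : ℕ} (sO : (Σ j : ℕ, Fin (r (2 * j + 1))) ≃ Fin ρ)
    (sE : (Σ j : ℕ, Fin (r (2 * j))) ≃ Fin ρ)
    (CO : PCo p Γ (∀ j, X (2 * j + 1)) ρ) (CE : PCo p Γ (∀ j, X (2 * j)) ρ)
    (hCO : ∀ x, CO.κ x = (cP sO).symm (fun j => (C (2 * j + 1)).κ (x j)))
    (hCE : ∀ x, CE.κ x = (cP sE).symm (fun j => (C (2 * j)).κ (x j)))
    (hdx : ∀ i x, (C i).κ (dx i x) = (d i).mulVec ((C (i + 1)).κ x))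
    (hhx : ∀ i x, (C (i + 1)).κ (hx i x) = (h i).mulVec ((C i).κ x)) (hn : (Nat.card Γ : ℚ) ≠ 0)
    (T0 : Matrix (Fin ρ) (Fin ρ) (ZL p))
    (e0 : MonoidAlgebra ℚ Γ) (he0 : (Nat.card Γ : ℚ) • e0 = nrG ℚ Γ)
    (T : Matrix (Fin ρ) (Fin ρ) (MonoidAlgebra ℚ Γ))
    (hT : T = (1 - e0) • OEm sO sE (fun i => (d i).map (sk p Γ))
        (fun i => ((1 : ℚ) / (Nat.card Γ : ℚ)) • (h i).map (sk p Γ)) +
      e0 • (T0.map (ZL p).subtype).map (algebraMap ℚ (MonoidAlgebra ℚ Γ)))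
    (x : ∀ j, X (2 * j + 1)) (z : ∀ j, X (2 * j))
    (hxz : T0.mulVec (fun i => aug (ZL p) Γ (CO.κ x i)) = fun i => aug (ZL p) Γ (CE.κ z i)) :
    ((Nat.card Γ : ℚ) ^ 2) • T.mulVec (fun i => sk p Γ (CO.κ x i)) =
      fun i => sk p Γ (CE.κ (TInc_c Γ • oe (TInc_dn Γ dx) hx x +
        ((Nat.card Γ : MonoidAlgebra ℤ Γ) * nrG ℤ Γ) • z) i) := by
  have hA := TInc_O p Γ C dx hx d h sO sE CO CE hCO hCE hdx hhx hn x
  have hB := TInc_N p Γ T0 (CO.κ x) (CE.κ z) hxz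
  funext i
  have hA' := congrFun hA i
  have hB' := hB i
  rw [hT, Matrix.add_mulVec, Matrix.smul_mulVec, Matrix.smul_mulVec]
  rw [Pi.smul_apply] at hA' ⊢
  rw [Pi.add_apply, Pi.smul_apply, Pi.smul_apply, map_add, CE.smul, CE.smul, Pi.add_apply,
    Pi.smul_apply, Pi.smul_apply, smul_eq_mul, smul_eq_mul, smul_eq_mul, smul_eq_mul, map_add,
    map_mul, map_mul, map_mul, map_mul, TInc_lsc, map_sub, TInc_ls_nrG, TInc_sk_nrG, map_natCast,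
    map_natCast, map_natCast, pow_two, ← smul_smul, TInc_ns, TInc_ns, ← hA', TInc_ns]
  rw [TInc_ns] at he0
  linear_combination (Nat.card Γ : MonoidAlgebra ℚ Γ) * hB' -
    (Nat.card Γ : MonoidAlgebra ℚ Γ) * he0 *
      (OEm sO sE (fun i => (d i).map (sk p Γ))
        (fun i => ((1 : ℚ) / (Nat.card Γ : ℚ)) • (h i).map (sk p Γ))).mulVec
        (fun i => sk p Γ (CO.κ x i)) i +
    (Nat.card Γ : MonoidAlgebra ℚ Γ) * he0 *
      (((T0.map (ZL p).subtype).map (algebraMap ℚ (MonoidAlgebra ℚ Γ))).mulVec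
      (fun i => sk p Γ (CO.κ x i)) i)

/-- The coordinates over `ℚ[Γ]`. -/
private noncomputable def TInc_φ {M : Type} [AddCommGroup M] [Module (MonoidAlgebra ℤ Γ) M] {ρ : ℕ}
    (C : PCo p Γ M ρ) : M →+ (Fin ρ → MonoidAlgebra ℚ Γ) where
  toFun x := fun i => sk p Γ (C.κ x i)
  map_zero' := by
    funext i
    rw [map_zero, Pi.zero_apply, map_zero, Pi.zero_apply]
  map_add' x y := by
    funext i
    rw [map_add, Pi.add_apply, map_add, Pi.add_apply]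

private theorem TInc_S {ρ : ℕ} (sO : (Σ j : ℕ, Fin (r (2 * j + 1))) ≃ Fin ρ)
    (sE : (Σ j : ℕ, Fin (r (2 * j))) ≃ Fin ρ)
    (CO : PCo p Γ (∀ j, X (2 * j + 1)) ρ) (CE : PCo p Γ (∀ j, X (2 * j)) ρ)
    (hCO : ∀ x, CO.κ x = (cP sO).symm (fun j => (C (2 * j + 1)).κ (x j)))
    (hCE : ∀ x, CE.κ x = (cP sE).symm (fun j => (C (2 * j)).κ (x j)))
    (hdx : ∀ i x, (C i).κ (dx i x) = (d i).mulVec ((C (i + 1)).κ x))
    (hhx : ∀ i x, (C (i + 1)).κ (hx i x) = (h i).mulVec ((C i).κ x)) (hn : (Nat.card Γ : ℚ) ≠ 0)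
    (dd : ∀ i, d i * d (i + 1) = 0)
    (dh0 : d 0 * h 0 = ((Nat.card Γ : MonoidAlgebra (ZL p) Γ) - nrG (ZL p) Γ) • 1)
    (dh : ∀ i, d (i + 1) * h (i + 1) + h i * d i =
      ((Nat.card Γ : MonoidAlgebra (ZL p) Γ) - nrG (ZL p) Γ) • 1)
    (T0 : Matrix (Fin ρ) (Fin ρ) (ZL p))
    (e0 : MonoidAlgebra ℚ Γ) (he0 : (Nat.card Γ : ℚ) • e0 = nrG ℚ Γ)
    (T : Matrix (Fin ρ) (Fin ρ) (MonoidAlgebra ℚ Γ))
    (hT : T = (1 - e0) • OEm sO sE (fun i => (d i).map (sk p Γ))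
        (fun i => ((1 : ℚ) / (Nat.card Γ : ℚ)) • (h i).map (sk p Γ)) +
      e0 • (T0.map (ZL p).subtype).map (algebraMap ℚ (MonoidAlgebra ℚ Γ)))
    (x : ∀ j, X (2 * j + 1)) (y : ∀ j, X (2 * j))
    (hxy : T0.mulVec (fun i => aug (ZL p) Γ (CO.κ x i)) = fun i => aug (ZL p) Γ (CE.κ y i)) :
    ((Nat.card Γ : ℚ) ^ 2) • T.mulVec (fun i => sk p Γ (CO.κ
        (TInc_c Γ • eo (TInc_dn Γ dx) hx y + ((Nat.card Γ : MonoidAlgebra ℤ Γ) * nrG ℤ Γ) • x) i)) =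
      fun i => sk p Γ (CE.κ (((Nat.card Γ : MonoidAlgebra ℤ Γ) ^ 4) • y +
        ((Nat.card Γ : MonoidAlgebra ℤ Γ) * TInc_c Γ) • TInc_sh Γ hx y) i) := by
  have hN := TInc_cN Γ
  have hcc := TInc_cc Γ
  have hF := TInc_F p Γ C dx hx d h sO sE CO CE hCO hCE hdx hhx hn T0 e0 he0 T hT
    (TInc_c Γ • eo (TInc_dn Γ dx) hx y + ((Nat.card Γ : MonoidAlgebra ℤ Γ) * nrG ℤ Γ) • x)
    (((Nat.card Γ : MonoidAlgebra ℤ Γ) * (Nat.card Γ : MonoidAlgebra ℤ Γ)) • y) ?_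
  · have hE : TInc_c Γ • oe (TInc_dn Γ dx) hx
          (TInc_c Γ • eo (TInc_dn Γ dx) hx y + ((Nat.card Γ : MonoidAlgebra ℤ Γ) * nrG ℤ Γ) • x) +
        ((Nat.card Γ : MonoidAlgebra ℤ Γ) * nrG ℤ Γ) •
          (((Nat.card Γ : MonoidAlgebra ℤ Γ) * (Nat.card Γ : MonoidAlgebra ℤ Γ)) • y) =
        ((Nat.card Γ : MonoidAlgebra ℤ Γ) ^ 4) • y +
        ((Nat.card Γ : MonoidAlgebra ℤ Γ) * TInc_c Γ) • TInc_sh Γ hx y := by
      have hoe := TInc_oeeo Γ dx hx (TInc_dd p Γ C dx d hdx dd)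
        (TInc_dh0 p Γ C dx hx d h hdx hhx dh0) (TInc_dh p Γ C dx hx d h hdx hhx dh) y
      rw [map_add, map_smul, map_smul, hoe]
      simp only [smul_add, smul_smul]
      have e1 : TInc_c Γ * (TInc_c Γ * ((Nat.card Γ : MonoidAlgebra ℤ Γ) * TInc_c Γ)) =
          (Nat.card Γ : MonoidAlgebra ℤ Γ) ^ 3 * TInc_c Γ := by
        linear_combination (Nat.card Γ : MonoidAlgebra ℤ Γ) * (TInc_c Γ * hcc) +
          (Nat.card Γ : MonoidAlgebra ℤ Γ) ^ 2 * hcc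
      have e2 : TInc_c Γ * ((Nat.card Γ : MonoidAlgebra ℤ Γ) * nrG ℤ Γ) = 0 := by
        linear_combination (Nat.card Γ : MonoidAlgebra ℤ Γ) * hN
      have e3 : (Nat.card Γ : MonoidAlgebra ℤ Γ) ^ 4 = (Nat.card Γ : MonoidAlgebra ℤ Γ) ^ 3 *
          TInc_c Γ + (Nat.card Γ : MonoidAlgebra ℤ Γ) * nrG ℤ Γ *
            ((Nat.card Γ : MonoidAlgebra ℤ Γ) * (Nat.card Γ : MonoidAlgebra ℤ Γ)) := by
        unfold TInc_c
        ring
      rw [e1, e2, hcc, e3, zero_smul, add_smul]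
      abel
    rw [hE] at hF
    exact hF
  · funext i
    have hx' := congrFun hxy i
    have e1 : (fun i => aug (ZL p) Γ (CO.κ (TInc_c Γ • eo (TInc_dn Γ dx) hx y +
        ((Nat.card Γ : MonoidAlgebra ℤ Γ) * nrG ℤ Γ) • x) i)) =
        ((Nat.card Γ : ZL p) * (Nat.card Γ : ZL p)) • fun i => aug (ZL p) Γ (CO.κ x i) := by
      funext k
      rw [map_add, CO.smul, CO.smul, Pi.add_apply, Pi.smul_apply, Pi.smul_apply, Pi.smul_apply,
        smul_eq_mul, smul_eq_mul, smul_eq_mul, map_add, map_mul, map_mul, TInc_augc, map_mul,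
        map_mul, TInc_ls_nrG, TInc_aug_nrG, map_natCast, map_natCast, zero_mul, zero_add]
    rw [e1, Matrix.mulVec_smul, Pi.smul_apply, hx', CE.smul, Pi.smul_apply, smul_eq_mul,
      smul_eq_mul, map_mul, map_mul, map_mul, map_natCast, map_natCast]

private theorem TInc_ind {ρ : ℕ} (sO : (Σ j : ℕ, Fin (r (2 * j + 1))) ≃ Fin ρ)
    (sE : (Σ j : ℕ, Fin (r (2 * j))) ≃ Fin ρ) (D : ℕ) (hD : ∀ i, D < i → r i = 0)
    (CO : PCo p Γ (∀ j, X (2 * j + 1)) ρ) (CE : PCo p Γ (∀ j, X (2 * j)) ρ)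
    (hCO : ∀ x, CO.κ x = (cP sO).symm (fun j => (C (2 * j + 1)).κ (x j)))
    (hCE : ∀ x, CE.κ x = (cP sE).symm (fun j => (C (2 * j)).κ (x j)))
    (hdx : ∀ i x, (C i).κ (dx i x) = (d i).mulVec ((C (i + 1)).κ x))
    (hhx : ∀ i x, (C (i + 1)).κ (hx i x) = (h i).mulVec ((C i).κ x)) (hn : (Nat.card Γ : ℚ) ≠ 0)
    (dd : ∀ i, d i * d (i + 1) = 0)
    (dh0 : d 0 * h 0 = ((Nat.card Γ : MonoidAlgebra (ZL p) Γ) - nrG (ZL p) Γ) • 1)
    (dh : ∀ i, d (i + 1) * h (i + 1) + h i * d i =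
      ((Nat.card Γ : MonoidAlgebra (ZL p) Γ) - nrG (ZL p) Γ) • 1)
    (T0 : Matrix (Fin ρ) (Fin ρ) (ZL p))
    (hy' : ∀ y, ∃ x, T0.mulVec (fun i => aug (ZL p) Γ (CO.κ x i)) =
      fun i => aug (ZL p) Γ (CE.κ y i))
    (e0 : MonoidAlgebra ℚ Γ) (he0 : (Nat.card Γ : ℚ) • e0 = nrG ℚ Γ)
    (T : Matrix (Fin ρ) (Fin ρ) (MonoidAlgebra ℚ Γ))
    (hT : T = (1 - e0) • OEm sO sE (fun i => (d i).map (sk p Γ))
        (fun i => ((1 : ℚ) / (Nat.card Γ : ℚ)) • (h i).map (sk p Γ)) +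
      e0 • (T0.map (ZL p).subtype).map (algebraMap ℚ (MonoidAlgebra ℚ Γ)))
    (m : ℕ) (hm : Nat.card Γ = p ^ m) (s : ℕ) :
    ∀ (t : ℕ), D < t + s → ∀ y : ∀ j, X (2 * j), (∀ j, j < t → y j = 0) →
      ∃ (j : ℕ) (x : ∀ j, X (2 * j + 1)),
        T.mulVec (TInc_φ p Γ CO x) = ((p : ℚ) ^ j) • TInc_φ p Γ CE y := by
  induction s with
  | zero =>
    intro t ht y hy
    have hy0 : y = 0 := by
      funext j
      rcases lt_or_ge j t with hj | hj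
      · exact hy j hj
      · apply (C (2 * j)).inj
        funext a
        have h0 := hD (2 * j) (by omega)
        exact absurd a.2 (by omega)
    refine ⟨0, 0, ?_⟩
    rw [hy0, map_zero, map_zero, Matrix.mulVec_zero, smul_zero]
  | succ s ih =>
    intro t ht y hy
    obtain ⟨x', hx'⟩ := hy' y
    have hS := TInc_S p Γ C dx hx d h sO sE CO CE hCO hCE hdx hhx hn dd dh0 dh T0 e0 he0 T hT x' y
      hx'
    obtain ⟨j, x2, hx2⟩ := ih (t + 1) (by omega)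
      (((Nat.card Γ : MonoidAlgebra ℤ Γ) * TInc_c Γ) • TInc_sh Γ hx y) (by
        intro i hi
        have h1 : TInc_sh Γ hx y i = 0 := by
          cases i with
          | zero => rfl
          | succ i =>
            change hx (2 * i + 1) (hx (2 * i) (y i)) = 0
            rw [hy i (by omega), map_zero, map_zero]
        rw [Pi.smul_apply, h1, smul_zero])
    generalize TInc_c Γ • eo (TInc_dn Γ dx) hx y +
      ((Nat.card Γ : MonoidAlgebra ℤ Γ) * nrG ℤ Γ) • x' = x1 at hS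
    generalize ((Nat.card Γ : MonoidAlgebra ℤ Γ) * TInc_c Γ) • TInc_sh Γ hx y = y' at hS hx2
    have hS' : ((Nat.card Γ : ℚ) ^ 2) • T.mulVec (TInc_φ p Γ CO x1) =
        ((Nat.card Γ : ℚ) ^ 4) • TInc_φ p Γ CE y + TInc_φ p Γ CE y' := by
      have h1 : TInc_φ p Γ CE (((Nat.card Γ : MonoidAlgebra ℤ Γ) ^ 4) • y + y') =
          ((Nat.card Γ : ℚ) ^ 4) • TInc_φ p Γ CE y + TInc_φ p Γ CE y' := by
        rw [map_add]
        congr 1
        have h2 : ((Nat.card Γ : MonoidAlgebra ℤ Γ) ^ 4) • y = (Nat.card Γ ^ 4) • y := by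
          rw [← Nat.cast_pow, Nat.cast_smul_eq_nsmul]
        rw [h2, map_nsmul, ← Nat.cast_pow, Nat.cast_smul_eq_nsmul]
      exact hS.trans h1
    refine ⟨j + 4 * m, (Nat.card Γ ^ 2 * p ^ j) • x1 - x2, ?_⟩
    rw [map_sub, Matrix.mulVec_sub, map_nsmul, Matrix.mulVec_smul, hx2,
      ← Nat.cast_smul_eq_nsmul ℚ (Nat.card Γ ^ 2 * p ^ j)]
    have h3 : ((Nat.card Γ ^ 2 * p ^ j : ℕ) : ℚ) = (p : ℚ) ^ j * (Nat.card Γ : ℚ) ^ 2 := by
      push_cast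
      ring
    have h4 : (p : ℚ) ^ (j + 4 * m) = (p : ℚ) ^ j * (Nat.card Γ : ℚ) ^ 4 := by
      rw [hm]
      push_cast
      ring
    rw [h3, mul_smul, hS', h4, smul_add, mul_smul, add_sub_cancel_right]

end Modules

theorem sTInc (_hTNil : S_TNil) : S_TInc := by
  intro p _ Γ _ _ hp X _ _ r C D hD dx hx d h hdx hhx dd dh0 dh ρ sO sE CO CE hCO hCE T0 T0' hT0
    hT0' hy hy' e0 he0 T hT
  obtain ⟨m, hm⟩ := IsPGroup.iff_card.mp hp
  have hn : (Nat.card Γ : ℚ) ≠ 0 := Nat.cast_ne_zero.mpr Nat.card_pos.ne'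
  constructor
  · intro x
    obtain ⟨y, hxy⟩ := hy x
    have hF := TInc_F p Γ C dx hx d h sO sE CO CE hCO hCE hdx hhx hn T0 e0 he0 T hT x y hxy
    refine ⟨2 * m, TInc_c Γ • oe (TInc_dn Γ dx) hx x +
      ((Nat.card Γ : MonoidAlgebra ℤ Γ) * nrG ℤ Γ) • y, ?_⟩
    rw [← hF]
    congr 1
    rw [hm]
    push_cast
    ring
  · intro y
    obtain ⟨j, x, h1⟩ := TInc_ind p Γ C dx hx d h sO sE D hD CO CE hCO hCE hdx hhx hn dd dh0 dh T0
      hy' e0 he0 T hT m hm (D + 1) 0 (by omega) y (by omega)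
    exact ⟨j, x, h1⟩

end HSp
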