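import Pool.Agent.Lib.MP_181146_gt.HS.SpecT

/-! # Project HS, module TInt (helper69) -/

set_option autoImplicit false

namespace HSp

theorem sTInt : S_TInt := by
  intro p hp Γ _ _ M _ m θ i2 T T' hT ii2 v h1 h2
  obtain ⟨j, y, hy⟩ := h1
  obtain ⟨w, hw⟩ := h2
  obtain ⟨j', x, hx⟩ := i2 y
  obtain ⟨s, hs, x', hx'⟩ := ii2 w
  have e1 : θ x = ((p : ℚ) ^ (j' + j)) • v := by
    rw [hx, ← hy, smul_smul, pow_add]
  have e2 : θ x' = (s : ℚ) • v := by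
    rw [hx', ← hw, Matrix.mulVec_mulVec, hT, Matrix.one_mulVec]
  have hpp : Prime (p : ℤ) := Nat.prime_iff_prime_int.1 hp.out
  have hc : IsCoprime ((p : ℤ) ^ (j' + j)) s :=
    IsCoprime.pow_left ((Prime.coprime_iff_not_dvd hpp).2 hs)
  obtain ⟨α, β, hab⟩ := hc
  refine ⟨α • x + β • x', ?_⟩
  have hab' : (α : ℚ) * (p : ℚ) ^ (j' + j) + (β : ℚ) * (s : ℚ) = 1 := by
    exact_mod_cast hab
  rw [map_add, map_zsmul, map_zsmul, e1, e2, ← Int.cast_smul_eq_zsmul ℚ α,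
    ← Int.cast_smul_eq_zsmul ℚ β, smul_smul, smul_smul, ← add_smul, hab', one_smul]

end HSp
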