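import Pool.Agent.Lib.MP_181146_gt.HS.SpecT

set_option autoImplicit false

namespace HSp

namespace TLocAux

private lemma p_jac (p : ℕ) [hp : Fact p.Prime] : (p : ZL p) ∈ (⊥ : Ideal (ZL p)).jacobson := by
  rw [Ideal.mem_jacobson_bot]
  rintro ⟨y, s, z, hs, h⟩
  have hsp : ¬ (p : ℤ) ∣ (s + p * z) := by
    intro hd
    exact hs ((Int.dvd_add_left (Dvd.intro _ rfl)).mp hd)
  have hne : ((s + p * z : ℤ) : ℚ) ≠ 0 := by
    intro h0
    apply hsp
    have h1 : s + p * z = 0 := by exact_mod_cast h0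
    rw [h1]
    exact dvd_zero _
  have hs0 : (s : ℚ) ≠ 0 := by
    intro h0
    apply hs
    have h1 : s = 0 := by exact_mod_cast h0
    rw [h1]
    exact dvd_zero _
  have hmem : (s : ℚ) / ((s + p * z : ℤ) : ℚ) ∈ ZL p :=
    ⟨s + p * z, s, hsp, by field_simp⟩
  refine IsUnit.of_mul_eq_one (⟨(s : ℚ) / ((s + p * z : ℤ) : ℚ), hmem⟩ : ZL p) ?_
  apply Subtype.ext
  have hy : y = z / s := by
    rw [eq_div_iff hs0, mul_comm]
    exact h
  push_cast at hne ⊢
  rw [hy]
  field_simp
  ring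

private lemma add_unit (p : ℕ) [hp : Fact p.Prime] (Γ : Type) [CommGroup Γ] [Finite Γ]
    (a y : MonoidAlgebra (ZL p) Γ) (ha : IsUnit a) : IsUnit (a + (p : MonoidAlgebra (ZL p) Γ) * y) := by
  by_contra hn
  obtain ⟨M, hM, hx⟩ := exists_max_ideal_of_mem_nonunits hn
  have hc : (Ideal.comap (algebraMap (ZL p) (MonoidAlgebra (ZL p) Γ)) M).IsMaximal :=
    Ideal.isMaximal_comap_of_isIntegral_of_isMaximal M
  have hpm : (p : ZL p) ∈ Ideal.comap (algebraMap (ZL p) (MonoidAlgebra (ZL p) Γ)) M := by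
    have h1 := p_jac p
    rw [Ideal.jacobson, Ideal.mem_sInf] at h1
    exact h1 ⟨bot_le, hc⟩
  have hpM : (p : MonoidAlgebra (ZL p) Γ) ∈ M := by
    rw [Ideal.mem_comap, map_natCast] at hpm
    exact hpm
  have haM : a ∈ M := by
    have h2 : a = (a + (p : MonoidAlgebra (ZL p) Γ) * y) - (p : MonoidAlgebra (ZL p) Γ) * y := by
      ring
    rw [h2]
    exact M.sub_mem hx (M.mul_mem_right _ hpM)
  exact hM.ne_top (Ideal.eq_top_of_isUnit_mem _ haM ha)

end TLocAux

open TLocAux in
theorem sTLoc : S_TLoc := by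
  intro p hp Γ _ _ hpG x hx
  obtain ⟨n, hn⟩ := IsPGroup.iff_card.mp hpG
  have key : x ^ p ^ n - algebraMap (ZL p) (MonoidAlgebra (ZL p) Γ) (aug (ZL p) Γ x) ^ p ^ n ∈
      Ideal.span {(p : MonoidAlgebra (ZL p) Γ)} := by
    set I : Ideal (MonoidAlgebra (ZL p) Γ) := Ideal.span {(p : MonoidAlgebra (ZL p) Γ)} with hI
    rw [← Ideal.Quotient.eq, map_pow, map_pow]
    rcases subsingleton_or_nontrivial (MonoidAlgebra (ZL p) Γ ⧸ I) with hs | hs
    · exact Subsingleton.elim _ _
    · have h0 : ((p : ℕ) : MonoidAlgebra (ZL p) Γ ⧸ I) = 0 := by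
        rw [← map_natCast (Ideal.Quotient.mk I) p, Ideal.Quotient.eq_zero_iff_mem]
        exact Ideal.subset_span rfl
      have : CharP (MonoidAlgebra (ZL p) Γ ⧸ I) p := (CharP.charP_iff_prime_eq_zero hp.out).mpr h0
      have : ExpChar (MonoidAlgebra (ZL p) Γ ⧸ I) p := ExpChar.prime hp.out
      have hom : (iterateFrobenius (MonoidAlgebra (ZL p) Γ ⧸ I) p n).comp (Ideal.Quotient.mk I) =
          (iterateFrobenius (MonoidAlgebra (ZL p) Γ ⧸ I) p n).comp ((Ideal.Quotient.mk I).comp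
            ((algebraMap (ZL p) (MonoidAlgebra (ZL p) Γ)).comp (aug (ZL p) Γ))) := by
        apply MonoidAlgebra.ringHom_ext
        · intro r
          simp only [RingHom.comp_apply]
          have h1 : aug (ZL p) Γ (MonoidAlgebra.single 1 r) = r := by
            simp [aug, MonoidAlgebra.lift_single]
          rw [h1]
          rfl
        · intro g
          simp only [RingHom.comp_apply, iterateFrobenius_def]
          have h1 : aug (ZL p) Γ (MonoidAlgebra.single g 1) = 1 := by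
            simp [aug, MonoidAlgebra.lift_single]
          rw [h1, map_one, map_one, one_pow, ← map_pow, MonoidAlgebra.single_pow, one_pow, ← hn,
            pow_card_eq_one']
          exact map_one _
      have h2 := RingHom.congr_fun hom x
      simp only [RingHom.comp_apply, iterateFrobenius_def] at h2
      exact h2
  obtain ⟨y, hy⟩ := Ideal.mem_span_singleton'.mp key
  have hu : IsUnit (x ^ p ^ n) := by
    have h3 : x ^ p ^ n = algebraMap (ZL p) (MonoidAlgebra (ZL p) Γ) (aug (ZL p) Γ x) ^ p ^ n + (p : MonoidAlgebra (ZL p) Γ) * y := by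
      rw [mul_comm, hy]
      ring
    rw [h3]
    exact add_unit p Γ _ y ((hx.map (algebraMap (ZL p) (MonoidAlgebra (ZL p) Γ))).pow _)
  exact (isUnit_pow_iff (pow_ne_zero _ hp.out.ne_zero)).mp hu

end HSp
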