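import Pool.Agent.Lib.MP_181146_gt.HS.Defs

/-!
# Project HS, third part (abelian `p`-groups, Swan subgroup): definitions

`ZL p` is `ℤ_(p)`, `MonoidAlgebra (ZL p) Γ` the `p`-local group ring, `MonoidAlgebra ℚ Γ` the rational
group ring.
-/

set_option autoImplicit false

namespace HSp

/-- `ℤ_(p)` as a subring of `ℚ`. -/
def ZL (p : ℕ) [hp : Fact p.Prime] : Subring ℚ where
  carrier := {x | ∃ s z : ℤ, ¬ (p : ℤ) ∣ s ∧ (s : ℚ) * x = z}
  mul_mem' := by
    rintro x y ⟨s, z, hs, h⟩ ⟨s', z', hs', h'⟩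
    refine ⟨s * s', z * z', ?_, ?_⟩
    · intro hd
      rcases (Nat.prime_iff_prime_int.1 hp.out).dvd_or_dvd hd with h1 | h1
      · exact hs h1
      · exact hs' h1
    · push_cast
      rw [← h, ← h']
      ring
  one_mem' := ⟨1, 1, fun h => (Nat.prime_iff_prime_int.1 hp.out).not_isUnit (isUnit_of_dvd_one h),
    by norm_num⟩
  add_mem' := by
    rintro x y ⟨s, z, hs, h⟩ ⟨s', z', hs', h'⟩
    refine ⟨s * s', z * s' + s * z', ?_, ?_⟩
    · intro hd
      rcases (Nat.prime_iff_prime_int.1 hp.out).dvd_or_dvd hd with h1 | h1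
      · exact hs h1
      · exact hs' h1
    · push_cast
      rw [← h, ← h']
      ring
  zero_mem' := ⟨1, 0, fun h => (Nat.prime_iff_prime_int.1 hp.out).not_isUnit (isUnit_of_dvd_one h),
    by norm_num⟩
  neg_mem' := by
    rintro x ⟨s, z, hs, h⟩
    refine ⟨s, -z, hs, ?_⟩
    push_cast
    rw [← h]
    ring

section Rings

/-- The augmentation of a group ring. -/
noncomputable def aug (A : Type) [CommRing A] (Γ : Type) [Group Γ] : MonoidAlgebra A Γ →+* A :=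
  (MonoidAlgebra.lift A A Γ (1 : Γ →* A)).toRingHom

/-- `ℤ[Γ] → ℚ[Γ]`. -/
noncomputable def lk (Γ : Type) [Group Γ] : MonoidAlgebra ℤ Γ →+* MonoidAlgebra ℚ Γ :=
  MonoidAlgebra.mapRingHom Γ (Int.castRingHom ℚ)

/-- `ℤ_(p)[Γ] → ℚ[Γ]`. -/
noncomputable def sk (p : ℕ) [Fact p.Prime] (Γ : Type) [Group Γ] :
    MonoidAlgebra (ZL p) Γ →+* MonoidAlgebra ℚ Γ :=
  MonoidAlgebra.mapRingHom Γ (ZL p).subtype

/-- `ℤ[Γ] → ℤ_(p)[Γ]`. -/
noncomputable def ls (p : ℕ) [Fact p.Prime] (Γ : Type) [Group Γ] :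
    MonoidAlgebra ℤ Γ →+* MonoidAlgebra (ZL p) Γ :=
  MonoidAlgebra.mapRingHom Γ (Int.castRingHom (ZL p))

/-- The norm element of the cyclic group generated by `g`. -/
noncomputable def nrC (A : Type) [CommRing A] {Γ : Type} [Group Γ] (g : Γ) : MonoidAlgebra A Γ :=
  ∑ i ∈ Finset.range (orderOf g), MonoidAlgebra.of A Γ g ^ i

/-- The norm element of a finite group. -/
noncomputable def nrG (A : Type) [CommRing A] (Γ : Type) [Group Γ] : MonoidAlgebra A Γ :=
  ∑ᶠ γ : Γ, MonoidAlgebra.of A Γ γ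

/-- The ideal `J_a` of all `x` in `ℤ[Γ]` whose augmentation is divisible by `a` (the kernel of the
projection of `ℤ[Γ]` onto the trivial module `ℤ / a`). -/
noncomputable def SwJ (Γ : Type) [Group Γ] (a : ℕ) : Ideal (MonoidAlgebra ℤ Γ) :=
  (Ideal.span {(a : ℤ)}).comap (aug ℤ Γ)

/-- Coordinates of a module `M` over `ℤ[Γ]` in a `p`-local basis: a semilinear injective map to
`ℤ_(p)[Γ]^ρ` with dense image. -/
structure PCo (p : ℕ) [Fact p.Prime] (Γ : Type) [Group Γ] (M : Type) [AddCommGroup M]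
    [Module (MonoidAlgebra ℤ Γ) M] (ρ : ℕ) where
  κ : M →+ (Fin ρ → MonoidAlgebra (ZL p) Γ)
  smul : ∀ (a : MonoidAlgebra ℤ Γ) (x : M), κ (a • x) = ls p Γ a • κ x
  inj : Function.Injective κ
  dense : ∀ y : Fin ρ → MonoidAlgebra (ZL p) Γ, ∃ s : ℤ, ¬ (p : ℤ) ∣ s ∧ ∃ x : M, κ x = s • y

end Rings

section Parity

variable {A : Type} [CommRing A] {N : ℕ → Type} [∀ i, AddCommGroup (N i)] [∀ i, Module A (N i)]

/-- The map `d + k` from the odd part to the even part. -/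
def oe (d : ∀ i, N (i + 1) →ₗ[A] N i) (k : ∀ i, N i →ₗ[A] N (i + 1)) :
    (∀ j : ℕ, N (2 * j + 1)) →ₗ[A] (∀ j : ℕ, N (2 * j)) where
  toFun x := fun j => match j with
    | 0 => d 0 (x 0)
    | j + 1 => d (2 * (j + 1)) (x (j + 1)) + k (2 * j + 1) (x j)
  map_add' x y := by
    funext j
    cases j with
    | zero => exact map_add (d 0) _ _
    | succ j =>
      change d (2 * (j + 1)) (x (j + 1) + y (j + 1)) + k (2 * j + 1) (x j + y j) =
        (d (2 * (j + 1)) (x (j + 1)) + k (2 * j + 1) (x j)) +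
          (d (2 * (j + 1)) (y (j + 1)) + k (2 * j + 1) (y j))
      rw [map_add, map_add]
      abel
  map_smul' a x := by
    funext j
    cases j with
    | zero => exact map_smul (d 0) _ _
    | succ j =>
      change d (2 * (j + 1)) (a • x (j + 1)) + k (2 * j + 1) (a • x j) =
        a • (d (2 * (j + 1)) (x (j + 1)) + k (2 * j + 1) (x j))
      rw [map_smul, map_smul, smul_add]

/-- The map `d + k` from the even part to the odd part. -/
def eo (d : ∀ i, N (i + 1) →ₗ[A] N i) (k : ∀ i, N i →ₗ[A] N (i + 1)) :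
    (∀ j : ℕ, N (2 * j)) →ₗ[A] (∀ j : ℕ, N (2 * j + 1)) where
  toFun x := fun j => k (2 * j) (x j) + d (2 * j + 1) (x (j + 1))
  map_add' x y := by
    funext j
    change k (2 * j) (x j + y j) + d (2 * j + 1) (x (j + 1) + y (j + 1)) =
      (k (2 * j) (x j) + d (2 * j + 1) (x (j + 1))) +
        (k (2 * j) (y j) + d (2 * j + 1) (y (j + 1)))
    rw [map_add, map_add]
    abel
  map_smul' a x := by
    funext j
    change k (2 * j) (a • x j) + d (2 * j + 1) (a • x (j + 1)) =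
      a • (k (2 * j) (x j) + d (2 * j + 1) (x (j + 1)))
    rw [map_smul, map_smul, smul_add]

end Parity

section Coord

variable {A : Type} [CommRing A]

/-- Enumeration of the coordinates of a product of free modules. -/
def cP {r : ℕ → ℕ} {ρ : ℕ} (s : (Σ j : ℕ, Fin (r j)) ≃ Fin ρ) :
    (Fin ρ → A) ≃ₗ[A] (∀ j : ℕ, Fin (r j) → A) where
  toFun y := fun j a => y (s ⟨j, a⟩)
  invFun x := fun c => x (s.symm c).1 (s.symm c).2
  map_add' _ _ := rfl
  map_smul' _ _ := rfl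
  left_inv y := by
    funext c
    change y (s (s.symm c)) = y c
    rw [s.apply_symm_apply]
  right_inv x := by
    funext j a
    change x (s.symm (s ⟨j, a⟩)).1 (s.symm (s ⟨j, a⟩)).2 = x j a
    rw [s.symm_apply_apply]

/-- The matrix of `d + k : odd → even`. -/
noncomputable def OEm {r : ℕ → ℕ} {ρ : ℕ} (sO : (Σ j : ℕ, Fin (r (2 * j + 1))) ≃ Fin ρ)
    (sE : (Σ j : ℕ, Fin (r (2 * j))) ≃ Fin ρ)
    (d : ∀ i, Matrix (Fin (r i)) (Fin (r (i + 1))) A)
    (k : ∀ i, Matrix (Fin (r (i + 1))) (Fin (r i)) A) : Matrix (Fin ρ) (Fin ρ) A :=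
  LinearMap.toMatrix' (((cP sE).symm.toLinearMap ∘ₗ
    oe (N := fun i => Fin (r i) → A) (fun i => (d i).mulVecLin) (fun i => (k i).mulVecLin)) ∘ₗ
      (cP sO).toLinearMap)

/-- The matrix of `d + k : even → odd`. -/
noncomputable def EOm {r : ℕ → ℕ} {ρ : ℕ} (sO : (Σ j : ℕ, Fin (r (2 * j + 1))) ≃ Fin ρ)
    (sE : (Σ j : ℕ, Fin (r (2 * j))) ≃ Fin ρ)
    (d : ∀ i, Matrix (Fin (r i)) (Fin (r (i + 1))) A)
    (k : ∀ i, Matrix (Fin (r (i + 1))) (Fin (r i)) A) : Matrix (Fin ρ) (Fin ρ) A :=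
  LinearMap.toMatrix' (((cP sO).symm.toLinearMap ∘ₗ
    eo (N := fun i => Fin (r i) → A) (fun i => (d i).mulVecLin) (fun i => (k i).mulVecLin)) ∘ₗ
      (cP sE).toLinearMap)

/-- `k` is a contraction of the complex `d`. -/
def IsCtr {r : ℕ → ℕ} (d : ∀ i, Matrix (Fin (r i)) (Fin (r (i + 1))) A)
    (k : ∀ i, Matrix (Fin (r (i + 1))) (Fin (r i)) A) : Prop :=
  d 0 * k 0 = 1 ∧ ∀ i, d (i + 1) * k (i + 1) + k i * d i = 1

end Coord

end HSp
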