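import Pool.Agent.Lib.MP_181146_gt.HS.SpecR
import Pool.Agent.Lib.MP_181146_gt.HS.DefsC

/-!
# Project HS, third part: the bridge from `S_RFin` (file SpecR) to the hypotheses of `S_TDetS` (file
SpecT)
-/

set_option autoImplicit false
set_option linter.unusedVariables false

namespace HSp

/-- **RChi**.  A character from the complement.  Proof.  `orderOf g = p ^ k` (`IsPGroup.iff_orderOf`),
`k > 0`
as `g ≠ 1`.  `Γ ⧸ Γ' ≃* zpowers g` (`Subgroup.IsComplement'.QuotientMulEquiv` or similar; from `hc`: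
`Subgroup.isComplement'_of_disjoint_and_mul_eq_univ`, or work with `zpowers g → Γ ⧸ Γ'`, bijective), and
`zpowers g ≃* Multiplicative (ZMod (p ^ k))` with `g ↦ 1` (`zmodCyclicMulEquiv`, or
`zmultiplesEquiv`-like;
or directly: `Multiplicative (ZMod (p ^ k)) →* Γ ⧸ Γ'`, `i ↦ mk g ^ i` by `ZMod.lift`, is bijective). -/
def S_RChi : Prop :=
  ∀ (p : ℕ) [Fact p.Prime] (Γ : Type) [CommGroup Γ] [Finite Γ] (hp : IsPGroup p Γ) (g : Γ)
    (hg : g ≠ 1) (Γ' : Subgroup Γ) (hc : IsCompl (Subgroup.zpowers g) Γ'),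
    ∃ k : ℕ, 0 < k ∧ orderOf g = p ^ k ∧
      ∃ χ : Γ →* Multiplicative (ZMod (p ^ k)), χ g = Multiplicative.ofAdd 1

/-- **RZq**.  `ℤ_(p)` modulo `p^k`.  Proof.  Let `A = ZL p ⧸ (p^k)`.  For an integer `m`: `m ∈ p^k ZL p`
iff
`p^k ∣ m` (`m = p^k x`, `s x = z`, `p ∤ s`: `s m = p^k z`, and `s` is prime to `p^k`), so `A` has
characteristic
`p^k` and `ZMod (p^k) → A` (`ZMod.castHom`) is injective; it is onto: `s x = z` and `s' s = 1 + p^k c`
give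
`x = s' z - p^k (c x)`.  `q` = the projection composed with the inverse.  `tf`: `ZL p ⊆ ℚ`. -/
def S_RZq : Prop :=
  ∀ (p k : ℕ) [Fact p.Prime], ∃ q : ZL p →+* ZMod (p ^ k), CoefRing (ZL p) (p ^ k) q

/-- **RQot**.  Transport to the quotient ring `Q = S / (t, N)`.  Proof.  `ker ρ = span {t, N}`
(`Ideal.mem_span_pair`), so there is a ring isomorphism `φ : Rb ≃+* Q` with `φ (ρ x) = mk x`
(`RingHom.quotientKerEquivOfSurjective`, `Ideal.quotEquivOfEq`).  `e' i = (e i).map φ`.  `idem'`,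
`chain'`: apply
`Matrix.map_mul`.  `onto'`: for `y` over `Q` apply `onto` to `φ.symm ∘ y` (`φ` of a `mulVec` is the
`mulVec` of
the images: `RingHom.map_mulVec`), and apply `φ`.  `inj'`: `inj` with `w = 0`.  `hφ'`: the map `x ↦ φ ∘
x` is a bijection
from `range (e i)` to `range (e' i)`, semilinear along `φ`; the composition of `y ↦ φ.symm ∘ y`, the
given isomorphism
and `φ ∘ ·` is linear over `Q`. -/
def S_RQot : Prop :=
  ∀ (S Rb : Type) [CommRing S] [CommRing Rb] (t N : S) (ρ : S →+* Rb)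
    (hs : Function.Surjective ρ) (ht : ρ t = 0) (hN : ρ N = 0)
    (hk : ∀ x, ρ x = 0 → ∃ a b, x = t * a + N * b) (r gk : ℕ → ℕ)
    (d : ∀ i, Matrix (Fin (r i)) (Fin (r (i + 1))) S)
    (e : ∀ i, Matrix (Fin (r i)) (Fin (r i)) Rb) (idem : ∀ i, e i * e i = e i)
    (chain : ∀ i, (d i).map ρ * e (i + 1) = e i * (d i).map ρ)
    (onto : ∀ i (y : Fin (r (i + 1)) → Rb), (e (i + 1)).mulVec y = y →
      ((d i).map ρ).mulVec y = 0 → ∃ (x : Fin (r (i + 1)) → S) (z : Fin (r i) → S),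
        (d i).mulVec x = N • z ∧ (e (i + 1)).mulVec (ρ ∘ x) = y)
    (inj : ∀ i (x : Fin (r (i + 1)) → S) (z : Fin (r i) → S) (w : Fin (r (i + 2)) → Rb),
      (d i).mulVec x = N • z → (e (i + 1)).mulVec (ρ ∘ x) = ((d (i + 1)).map ρ).mulVec w →
      ∃ (u : Fin (r (i + 2)) → S) (v : Fin (r (i + 1)) → S), x = (d (i + 1)).mulVec u + N • v)
    (hφ : ∀ i, Nonempty (LinearMap.range (e i).mulVecLin ≃ₗ[Rb] (Fin (gk i) → Rb))),
    ∃ e' : ∀ i, Matrix (Fin (r i)) (Fin (r i)) (S ⧸ Ideal.span {t, N}),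
      (∀ i, e' i * e' i = e' i) ∧
      (∀ i, (d i).map (Ideal.Quotient.mk (Ideal.span {t, N})) * e' (i + 1) =
        e' i * (d i).map (Ideal.Quotient.mk (Ideal.span {t, N}))) ∧
      (∀ i (y : Fin (r (i + 1)) → S ⧸ Ideal.span {t, N}), (e' (i + 1)).mulVec y = y →
        ((d i).map (Ideal.Quotient.mk (Ideal.span {t, N}))).mulVec y = 0 →
        ∃ (x : Fin (r (i + 1)) → S) (z : Fin (r i) → S), (d i).mulVec x = N • z ∧
          (e' (i + 1)).mulVec (fun a => Ideal.Quotient.mk (Ideal.span {t, N}) (x a)) = y) ∧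
      (∀ i (x : Fin (r (i + 1)) → S) (z : Fin (r i) → S), (d i).mulVec x = N • z →
        (e' (i + 1)).mulVec (fun a => Ideal.Quotient.mk (Ideal.span {t, N}) (x a)) = 0 →
        ∃ u v, x = (d (i + 1)).mulVec u + N • v) ∧
      ∀ i, Nonempty (LinearMap.range (e' i).mulVecLin ≃ₗ[S ⧸ Ideal.span {t, N}]
        (Fin (gk i) → S ⧸ Ideal.span {t, N}))

/-- **RQ** (from RFin, RChi, RZq, RQot).  The relative part over `ℤ_(p)[Γ]`, in the form needed for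
`S_TDetS`.
Proof.  `k`, `χ` from RChi, `q` from RZq (`CoefRing`), RFin with `O = ZL p`; RQot with `ρ = C.ρ`,
`t = C.t`, `N = C.N` (`nrC (ZL p) g` unfolds to `∑ i ∈ range (orderOf g), of g ^ i`, rewrite `orderOf g
= p ^ k`;
`C.surj`, `C.ρt`, `C.ρN`, `C.ker`). -/
def S_RQ : Prop :=
  ∀ (p : ℕ) [Fact p.Prime] (Γ : Type) [CommGroup Γ] [Finite Γ] (hp : IsPGroup p Γ) (g g' : Γ)
    (hg : g ≠ 1) (Γ' : Subgroup Γ) (hc : IsCompl (Subgroup.zpowers g) Γ')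
    (l : Γ →* Multiplicative (ZMod p)) (l1 : l g = 1) (l2 : l g' = Multiplicative.ofAdd 1)
    (r : ℕ → ℕ) (hr0 : r 0 = 0) (D : ℕ) (hD : ∀ i, D < i → r i = 0)
    (d : ∀ i, Matrix (Fin (r i)) (Fin (r (i + 1))) (MonoidAlgebra (ZL p) Γ))
    (h h' : ∀ i, Matrix (Fin (r (i + 1))) (Fin (r i)) (MonoidAlgebra (ZL p) Γ))
    (dd : ∀ i, d i * d (i + 1) = 0)
    (dh : ∀ i, d (i + 1) * h (i + 1) + h i * d i = (MonoidAlgebra.of (ZL p) Γ g - 1) • 1)
    (dh' : ∀ i, d (i + 1) * h' (i + 1) + h' i * d i = (MonoidAlgebra.of (ZL p) Γ g' - 1) • 1),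
    ∃ (e : ∀ i, Matrix (Fin (r i)) (Fin (r i)) (MonoidAlgebra (ZL p) Γ ⧸
      Ideal.span {MonoidAlgebra.of (ZL p) Γ g - 1, nrC (ZL p) g})) (gk : ℕ → ℕ),
      (∀ i, e i * e i = e i) ∧
      (∀ i, (d i).map (Ideal.Quotient.mk _) * e (i + 1) = e i * (d i).map (Ideal.Quotient.mk _)) ∧
      (∀ i (y : Fin (r (i + 1)) → MonoidAlgebra (ZL p) Γ ⧸
          Ideal.span {MonoidAlgebra.of (ZL p) Γ g - 1, nrC (ZL p) g}),
        (e (i + 1)).mulVec y = y → ((d i).map (Ideal.Quotient.mk _)).mulVec y = 0 →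
        ∃ (x : Fin (r (i + 1)) → MonoidAlgebra (ZL p) Γ) (z : Fin (r i) → MonoidAlgebra (ZL p) Γ),
          (d i).mulVec x = nrC (ZL p) g • z ∧
          (e (i + 1)).mulVec (fun a => Ideal.Quotient.mk _ (x a)) = y) ∧
      (∀ i (x : Fin (r (i + 1)) → MonoidAlgebra (ZL p) Γ)
        (z : Fin (r i) → MonoidAlgebra (ZL p) Γ), (d i).mulVec x = nrC (ZL p) g • z →
        (e (i + 1)).mulVec (fun a => Ideal.Quotient.mk _ (x a)) = 0 →
        ∃ u v, x = (d (i + 1)).mulVec u + nrC (ZL p) g • v) ∧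
      (∀ i, Nonempty (LinearMap.range (e i).mulVecLin ≃ₗ[MonoidAlgebra (ZL p) Γ ⧸
        Ideal.span {MonoidAlgebra.of (ZL p) Γ g - 1, nrC (ZL p) g}] (Fin (gk i) →
          MonoidAlgebra (ZL p) Γ ⧸ Ideal.span {MonoidAlgebra.of (ZL p) Γ g - 1, nrC (ZL p) g}))) ∧
      ∑ i ∈ Finset.range (D + 1), (-1 : ℤ) ^ i * (gk i : ℤ) = 0

end HSp
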