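import Pool.Agent.Lib.MP_181146_gt.HS.SpecT
import Pool.Agent.Lib.MP_181146_gt.HS.SpecR2

/-!
# Project HS, third part: the algebraic theorem for complexes, assembled
-/

set_option linter.unusedSectionVars false
set_option autoImplicit false

namespace HSp

/-! ## The total matrix and ring homomorphisms -/

private lemma tm_oe_map {A B : Type} [CommRing A] [CommRing B] (f : A →+* B) {r : ℕ → ℕ}
    (d : ∀ i, Matrix (Fin (r i)) (Fin (r (i + 1))) A)
    (k : ∀ i, Matrix (Fin (r (i + 1))) (Fin (r i)) A)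
    (x : ∀ j : ℕ, Fin (r (2 * j + 1)) → A) (j : ℕ) (a : Fin (r (2 * j))) :
    f (oe (N := fun i => Fin (r i) → A) (fun i => (d i).mulVecLin) (fun i => (k i).mulVecLin) x j
      a) =
    oe (N := fun i => Fin (r i) → B) (fun i => ((d i).map f).mulVecLin)
      (fun i => ((k i).map f).mulVecLin) (fun j b => f (x j b)) j a := by
  cases j with
  | zero =>
    change f ((d 0).mulVec (x 0) a) = ((d 0).map f).mulVec (fun b => f (x 0 b)) a
    exact RingHom.map_mulVec f (d 0) (x 0) a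
  | succ j =>
    change f ((d (2 * (j + 1))).mulVec (x (j + 1)) a + (k (2 * j + 1)).mulVec (x j) a) =
      ((d (2 * (j + 1))).map f).mulVec (fun b => f (x (j + 1) b)) a +
        ((k (2 * j + 1)).map f).mulVec (fun b => f (x j b)) a
    rw [map_add]
    exact congrArg₂ (· + ·) (RingHom.map_mulVec f (d (2 * (j + 1))) (x (j + 1)) a)
      (RingHom.map_mulVec f (k (2 * j + 1)) (x j) a)

private lemma tm_OEm_map {A B : Type} [CommRing A] [CommRing B] (f : A →+* B) {r : ℕ → ℕ} {ρ : ℕ}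
    (sO : (Σ j : ℕ, Fin (r (2 * j + 1))) ≃ Fin ρ) (sE : (Σ j : ℕ, Fin (r (2 * j))) ≃ Fin ρ)
    (d : ∀ i, Matrix (Fin (r i)) (Fin (r (i + 1))) A)
    (k : ∀ i, Matrix (Fin (r (i + 1))) (Fin (r i)) A) :
    (OEm sO sE d k).map f = OEm sO sE (fun i => (d i).map f) (fun i => (k i).map f) := by
  ext a b
  have h1 : ∀ (C : Type) [CommRing C] (d : ∀ i, Matrix (Fin (r i)) (Fin (r (i + 1))) C)
      (k : ∀ i, Matrix (Fin (r (i + 1))) (Fin (r i)) C), OEm sO sE d k a b =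
      oe (N := fun i => Fin (r i) → C) (fun i => (d i).mulVecLin) (fun i => (k i).mulVecLin)
        (fun j c => (Pi.single b (1 : C) : Fin ρ → C) (sO ⟨j, c⟩)) (sE.symm a).1 (sE.symm a).2 := by
    intro C _ d k
    unfold OEm
    rw [LinearMap.toMatrix'_apply]
    rfl
  have h2 : (fun (j : ℕ) (c : Fin (r (2 * j + 1))) =>
      f ((Pi.single b (1 : A) : Fin ρ → A) (sO ⟨j, c⟩))) =
      fun j c => (Pi.single b (1 : B) : Fin ρ → B) (sO ⟨j, c⟩) := by
    funext j c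
    rw [Pi.single_apply, Pi.single_apply]
    split_ifs
    · exact map_one f
    · exact map_zero f
  rw [Matrix.map_apply, h1, h1, tm_oe_map, h2]

/-! ## Norm elements -/

section norm

variable {Γ : Type} [CommGroup Γ] [Finite Γ]

private lemma tm_nrG (A : Type) [CommRing A] [Fintype Γ] :
    nrG A Γ = ∑ γ : Γ, MonoidAlgebra.of A Γ γ := by
  unfold nrG
  exact finsum_eq_sum_of_fintype _

private lemma tm_of_mul_nrG (A : Type) [CommRing A] (g : Γ) :
    MonoidAlgebra.of A Γ g * nrG A Γ = nrG A Γ := by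
  classical
  cases nonempty_fintype Γ
  rw [tm_nrG, Finset.mul_sum]
  have h : ∀ γ : Γ, MonoidAlgebra.of A Γ g * MonoidAlgebra.of A Γ γ =
      MonoidAlgebra.of A Γ (Equiv.mulLeft g γ) := fun γ => by
    rw [← map_mul, Equiv.coe_mulLeft]
  rw [Finset.sum_congr rfl fun γ _ => h γ]
  exact Equiv.sum_comp (Equiv.mulLeft g) (fun γ => MonoidAlgebra.of A Γ γ)

private lemma tm_nrC_mul (A : Type) [CommRing A] (g : Γ) :
    nrC A g * nrG A Γ = (orderOf g : MonoidAlgebra A Γ) * nrG A Γ := by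
  have h : ∀ i : ℕ, MonoidAlgebra.of A Γ g ^ i * nrG A Γ = nrG A Γ := by
    intro i
    induction i with
    | zero => rw [pow_zero, one_mul]
    | succ i ih => rw [pow_succ, mul_assoc, tm_of_mul_nrG, ih]
  unfold nrC
  rw [Finset.sum_mul, Finset.sum_congr rfl fun i _ => h i, Finset.sum_const, Finset.card_range,
    nsmul_eq_mul]

private lemma tm_t_nrC (A : Type) [CommRing A] (g : Γ) :
    (MonoidAlgebra.of A Γ g - 1) * nrC A g = 0 := by
  unfold nrC
  rw [mul_geom_sum, ← map_pow, pow_orderOf_eq_one, map_one, sub_self]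

private lemma tm_not_unit (g : Γ) (hg : g ≠ 1) : ¬ IsUnit (nrC ℚ g) := by
  intro h
  have h1 : (MonoidAlgebra.of ℚ Γ g - 1) = 0 := by
    rw [← h.mul_left_inj, zero_mul]
    exact tm_t_nrC ℚ g
  apply hg
  refine MonoidAlgebra.of_injective (R := ℚ) (M := Γ) ?_
  rw [map_one]
  exact sub_eq_zero.1 h1

private lemma tm_e0 (g : Γ) (e0 : MonoidAlgebra ℚ Γ) (he0 : (Nat.card Γ : ℚ) • e0 = nrG ℚ Γ) :
    e0 ∈ Ideal.span {nrC ℚ g} := by
  have hn : (Nat.card Γ : ℚ) ≠ 0 := Nat.cast_ne_zero.2 Nat.card_pos.ne'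
  have ho : (orderOf g : ℚ) ≠ 0 := Nat.cast_ne_zero.2 (orderOf_pos g).ne'
  have h1 : nrC ℚ g * e0 = (orderOf g : ℚ) • e0 := by
    have h2 : (Nat.card Γ : ℚ) • (nrC ℚ g * e0) = (Nat.card Γ : ℚ) • ((orderOf g : ℚ) • e0) := by
      rw [← mul_smul_comm, he0, tm_nrC_mul, smul_comm, he0, ← nsmul_eq_mul, Nat.cast_smul_eq_nsmul]
    exact smul_right_injective _ hn h2
  rw [Ideal.mem_span_singleton]
  refine ⟨(orderOf g : ℚ)⁻¹ • e0, ?_⟩
  rw [mul_smul_comm, h1, smul_smul, inv_mul_cancel₀ ho, one_smul]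

private lemma tm_sk_of (p : ℕ) [Fact p.Prime] (γ : Γ) :
    sk p Γ (MonoidAlgebra.of (ZL p) Γ γ) = MonoidAlgebra.of ℚ Γ γ := by
  unfold sk
  rw [MonoidAlgebra.of_apply, MonoidAlgebra.of_apply, MonoidAlgebra.mapRingHom_single, map_one]

private lemma tm_sk_nrG (p : ℕ) [Fact p.Prime] : sk p Γ (nrG (ZL p) Γ) = nrG ℚ Γ := by
  cases nonempty_fintype Γ
  rw [tm_nrG, tm_nrG, map_sum]
  exact Finset.sum_congr rfl fun γ _ => tm_sk_of p γ

end norm

/-! ## Products of modules which vanish from some index on -/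

section prod

variable {A : Type} [CommRing A] (Y : ℕ → Type) [∀ i, AddCommGroup (Y i)] [∀ i, Module A (Y i)]

/-- Restriction to finitely many indices. -/
private def tmEq (N : ℕ) (hN : ∀ i, N ≤ i → Subsingleton (Y i)) :
    (∀ j, Y j) ≃ₗ[A] (∀ j : Fin N, Y j) where
  toFun x := fun j => x j
  invFun y := fun j => if h : j < N then y ⟨j, h⟩ else 0
  map_add' _ _ := rfl
  map_smul' _ _ := rfl
  left_inv x := by
    funext j
    by_cases h : j < N
    · simp only [h, dif_pos]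
    · have := hN j (not_lt.1 h)
      exact Subsingleton.elim _ _
  right_inv y := by
    funext j
    simp only [j.2, dif_pos]

private lemma tm_fin (N : ℕ) (hN : ∀ i, N ≤ i → Subsingleton (Y i)) [∀ i, Module.Finite A (Y i)] :
    Module.Finite A (∀ j, Y j) :=
  Module.Finite.equiv (tmEq (A := A) Y N hN).symm

private lemma tm_proj (N : ℕ) (hN : ∀ i, N ≤ i → Subsingleton (Y i))
    [∀ i, Module.Projective A (Y i)] : Module.Projective A (∀ j, Y j) := by
  have : Module.Projective A (∀ j : Fin N, Y j) :=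
    Module.Projective.of_equiv (DFinsupp.linearEquivFunOnFintype (R := A) (ι := Fin N)
      (M := fun j : Fin N => Y j))
  exact Module.Projective.of_equiv (tmEq (A := A) Y N hN).symm

end prod

/-! ## The assembly -/

theorem sTMain (hTGen : S_TGen) (hTMx : S_TMx) (hRQ : S_RQ) (hTDetS : S_TDetS) (hTCrit : S_TCrit)
    (hTY0 : S_TY0) (hTTot : S_TTot) (hTUnK : S_TUnK) (hTInc : S_TInc) (hTPL2 : S_TPL2)
    (hTSq : S_TSq) : S_TMain := by
  intro p _ Γ _ _ hp hnc X _ _ _ _ hX0 D hD dx hx dd dh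
  classical
  cases nonempty_fintype Γ
  obtain ⟨r, C, d, h, hr, hdx, hhx, ddm, dhm⟩ := hTMx p Γ hp X dx hx dd dh
  have hr0 : r 0 = 0 := hr 0 hX0
  have hrD : ∀ i, D < i → r i = 0 := fun i hi => hr i (hD i hi)
  have hE0 : IsEmpty (Fin (r 0)) := by
    rw [hr0]
    infer_instance
  -- the sum of the operators
  obtain ⟨H, hH⟩ : ∃ H : ∀ i, Matrix (Fin (r (i + 1))) (Fin (r i)) (MonoidAlgebra (ZL p) Γ),
      ∀ i, H i = -∑ γ, h γ i := ⟨fun i => -∑ γ, h γ i, fun _ => rfl⟩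
  obtain ⟨Hx, hHx⟩ : ∃ Hx : ∀ i, X i →ₗ[MonoidAlgebra ℤ Γ] X (i + 1),
      ∀ i, Hx i = -∑ γ, hx γ i := ⟨fun i => -∑ γ, hx γ i, fun _ => rfl⟩
  have hHHx : ∀ i x, (C (i + 1)).κ (Hx i x) = (H i).mulVec ((C i).κ x) := by
    intro i x
    rw [hHx, hH, LinearMap.neg_apply, map_neg, LinearMap.sum_apply, map_sum, Matrix.neg_mulVec,
      Matrix.sum_mulVec]
    exact congrArg Neg.neg (Finset.sum_congr rfl fun γ _ => hhx γ i x)
  have dH : ∀ i, d (i + 1) * H (i + 1) + H i * d i =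
      ((Nat.card Γ : MonoidAlgebra (ZL p) Γ) - nrG (ZL p) Γ) • 1 := by
    intro i
    rw [hH, hH, Matrix.mul_neg, Matrix.neg_mul, ← neg_add, Matrix.mul_sum, Matrix.sum_mul,
      ← Finset.sum_add_distrib, Finset.sum_congr rfl fun γ _ => dhm γ i, ← Finset.sum_smul,
      Finset.sum_sub_distrib, ← tm_nrG, Finset.sum_const, Finset.card_univ, nsmul_eq_mul, mul_one,
      ← neg_smul, neg_sub, Nat.card_eq_fintype_card]
  have dH0 : d 0 * H 0 = ((Nat.card Γ : MonoidAlgebra (ZL p) Γ) - nrG (ZL p) Γ) • 1 :=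
    Subsingleton.elim _ _
  -- the idempotent and the operator over the rationals
  have hn : (Nat.card Γ : ℚ) ≠ 0 := Nat.cast_ne_zero.2 Nat.card_pos.ne'
  obtain ⟨e0, he0⟩ : ∃ e0 : MonoidAlgebra ℚ Γ, (Nat.card Γ : ℚ) • e0 = nrG ℚ Γ :=
    ⟨(Nat.card Γ : ℚ)⁻¹ • nrG ℚ Γ, by rw [smul_smul, mul_inv_cancel₀ hn, one_smul]⟩
  have hq : ∀ i, (d (i + 1)).map (sk p Γ) * (((1 : ℚ) / (Nat.card Γ : ℚ)) • (H (i + 1)).map (sk p Γ)) +
      (((1 : ℚ) / (Nat.card Γ : ℚ)) • (H i).map (sk p Γ)) * (d i).map (sk p Γ) = (1 - e0) • 1 := by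
    intro i
    have h1 := congrArg (fun M => M.map (sk p Γ)) (dH i)
    simp only [Matrix.map_add _ (map_add (sk p Γ)), Matrix.map_mul] at h1
    rw [Matrix.mul_smul, Matrix.smul_mul, ← smul_add, h1]
    have hc1 : ((Nat.card Γ : ℕ) : MonoidAlgebra ℚ Γ) = (Nat.card Γ : ℚ) • 1 := by
      rw [Nat.cast_smul_eq_nsmul, nsmul_one]
    refine Matrix.ext fun a b => ?_
    rw [Matrix.smul_apply, Matrix.map_apply, Matrix.smul_apply, Matrix.smul_apply, smul_eq_mul,
      smul_eq_mul, map_mul, map_sub, map_natCast, tm_sk_nrG, ← he0, Matrix.one_apply,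
      Matrix.one_apply]
    split_ifs
    · rw [map_one, mul_one, mul_one, hc1, smul_sub, smul_smul, smul_smul, one_div,
        inv_mul_cancel₀ hn, one_smul, one_smul]
    · rw [map_zero, mul_zero, mul_zero, smul_zero]
  have hq0 : (d 0).map (sk p Γ) * (((1 : ℚ) / (Nat.card Γ : ℚ)) • (H 0).map (sk p Γ)) =
      (1 - e0) • 1 := Subsingleton.elim _ _
  have ddq : ∀ i, (d i).map (sk p Γ) * (d (i + 1)).map (sk p Γ) = 0 := by
    intro i
    rw [← Matrix.map_mul, ddm]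
    exact Matrix.map_zero _ (map_zero _)
  -- reduction modulo the norm element of `g`
  have hctr : ∀ g : Γ, IsCtr (fun i => ((d i).map (sk p Γ)).map
      (Ideal.Quotient.mk (Ideal.span {nrC ℚ g})))
      (fun i => (((1 : ℚ) / (Nat.card Γ : ℚ)) • (H i).map (sk p Γ)).map
        (Ideal.Quotient.mk (Ideal.span {nrC ℚ g}))) := by
    intro g
    refine ⟨Subsingleton.elim _ _, fun i => ?_⟩
    have he : Ideal.Quotient.mk (Ideal.span {nrC ℚ g}) e0 = 0 :=
      Ideal.Quotient.eq_zero_iff_mem.2 (tm_e0 g e0 he0)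
    have h1 := congrArg (fun M => M.map (Ideal.Quotient.mk (Ideal.span {nrC ℚ g}))) (hq i)
    simp only [Matrix.map_add _ (map_add (Ideal.Quotient.mk (Ideal.span {nrC ℚ g}))),
      Matrix.map_mul] at h1
    refine h1.trans ?_
    refine Matrix.ext fun a b => ?_
    rw [Matrix.map_apply, Matrix.smul_apply, smul_eq_mul, map_mul, map_sub, map_one, he, sub_zero,
      one_mul, Matrix.one_apply, Matrix.one_apply]
    split_ifs
    · exact map_one _
    · exact map_zero _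
  -- the generators
  obtain ⟨G, hG, hGe⟩ := hTGen p Γ hp hnc
  have hGn : G.Nonempty := by
    rw [Set.nonempty_iff_ne_empty]
    rintro rfl
    apply hnc
    rw [Subgroup.closure_empty] at hG
    have h1 : ∀ x : Γ, x = 1 := fun x => by
      have h2 : x ∈ (⊥ : Subgroup Γ) := by
        rw [hG]
        exact Subgroup.mem_top x
      exact Subgroup.mem_bot.1 h2
    have hs : Subsingleton Γ := ⟨fun x y => (h1 x).trans (h1 y).symm⟩
    infer_instance
  obtain ⟨g1, hg1⟩ := hGn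
  -- the common rank
  obtain ⟨ρ, ⟨sO⟩, ⟨sE⟩⟩ : ∃ ρ : ℕ, Nonempty ((Σ j : ℕ, Fin (r (2 * j + 1))) ≃ Fin ρ) ∧
      Nonempty ((Σ j : ℕ, Fin (r (2 * j))) ≃ Fin ρ) := by
    have hnt : Nontrivial (MonoidAlgebra ℚ Γ ⧸ Ideal.span {nrC ℚ g1}) := by
      apply Ideal.Quotient.nontrivial_iff.2
      intro htop
      exact tm_not_unit g1 (hGe g1 hg1).1 (Ideal.span_singleton_eq_top.1 htop)
    refine hTSq (MonoidAlgebra ℚ Γ ⧸ Ideal.span {nrC ℚ g1}) r D hrD
      (fun i => ((d i).map (sk p Γ)).map (Ideal.Quotient.mk (Ideal.span {nrC ℚ g1}))) ?_ _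
      (hctr g1)
    intro i
    rw [← Matrix.map_mul, ddq]
    exact Matrix.map_zero _ (map_zero _)
  -- coordinates of the odd and the even part
  obtain ⟨CO, hCO⟩ := hTTot p Γ (fun j => X (2 * j + 1)) (fun j => r (2 * j + 1))
    (fun j => C (2 * j + 1)) D (fun i hi => hrD _ (by omega)) ρ sO
  obtain ⟨CE, hCE⟩ := hTTot p Γ (fun j => X (2 * j)) (fun j => r (2 * j))
    (fun j => C (2 * j)) D (fun i hi => hrD _ (by omega)) ρ sE
  have fO : Module.Finite (MonoidAlgebra ℤ Γ) (∀ j, X (2 * j + 1)) :=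
    tm_fin (fun j => X (2 * j + 1)) (D + 1) fun i hi => hD _ (by omega)
  have fE : Module.Finite (MonoidAlgebra ℤ Γ) (∀ j, X (2 * j)) :=
    tm_fin (fun j => X (2 * j)) (D + 1) fun i hi => hD _ (by omega)
  have pE : Module.Projective (MonoidAlgebra ℤ Γ) (∀ j, X (2 * j)) :=
    tm_proj (fun j => X (2 * j)) (D + 1) fun i hi => hD _ (by omega)
  obtain ⟨T0, T0', hT0, hT0', hy, hy'⟩ := hTY0 p Γ (∀ j, X (2 * j)) (∀ j, X (2 * j + 1)) ρ CE CO
  -- the matrix
  obtain ⟨T, hT⟩ : ∃ T : Matrix (Fin ρ) (Fin ρ) (MonoidAlgebra ℚ Γ),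
      T = (1 - e0) • OEm sO sE (fun i => (d i).map (sk p Γ))
        (fun i => ((1 : ℚ) / (Nat.card Γ : ℚ)) • (H i).map (sk p Γ)) +
      e0 • (T0.map (ZL p).subtype).map (algebraMap ℚ (MonoidAlgebra ℚ Γ)) := ⟨_, rfl⟩
  have hT0q : T0.map (ZL p).subtype * T0'.map (ZL p).subtype = 1 := by
    rw [← Matrix.map_mul, hT0]
    exact Matrix.map_one _ (map_zero _) (map_one _)
  have hT0q' : T0'.map (ZL p).subtype * T0.map (ZL p).subtype = 1 := by
    rw [← Matrix.map_mul, hT0']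
    exact Matrix.map_one _ (map_zero _) (map_one _)
  obtain ⟨⟨T', hTT', hT'T⟩, haug⟩ := hTUnK Γ r D hrD (fun i => (d i).map (sk p Γ)) ddq
    (fun i => ((1 : ℚ) / (Nat.card Γ : ℚ)) • (H i).map (sk p Γ)) e0 he0 hq0 hq ρ sO sE
    (T0.map (ZL p).subtype) (T0'.map (ZL p).subtype) hT0q hT0q'
  rw [← hT] at hTT' hT'T haug
  -- the determinant
  have hdd : T.det * T'.det = 1 := by
    rw [← Matrix.det_mul, hTT', Matrix.det_one]
  have hε : ∃ b : ZL p, IsUnit b ∧ aug ℚ Γ T.det = (b : ℚ) := by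
    refine ⟨T0.det, ?_, ?_⟩
    · refine IsUnit.of_mul_eq_one T0'.det ?_
      rw [← Matrix.det_mul, hT0, Matrix.det_one]
    · rw [haug]
      exact ((ZL p).subtype.map_det T0).symm
  obtain ⟨a, ha0, ha, u, hu, hdet⟩ := hTCrit p Γ hp T.det T'.det hdd hε G hG (by
    intro g hg
    obtain ⟨hg1', Γ', hc, -, g', -, l, l1, l2⟩ := hGe g hg
    obtain ⟨e, gk, q1, q2, q3, q4, q5, q6⟩ := hRQ p Γ hp g g' hg1' Γ' hc l l1 l2 r hr0 D hrD d
      (h g) (h g') ddm (dhm g) (dhm g')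
    refine hTDetS p Γ hp g hg1' r gk hr0 D hrD d ddm e q1 q2 q3 q4 q5 q6 ρ sO sE T _ (hctr g) ?_
    have he : Ideal.Quotient.mk (Ideal.span {nrC ℚ g}) e0 = 0 :=
      Ideal.Quotient.eq_zero_iff_mem.2 (tm_e0 g e0 he0)
    rw [← tm_OEm_map, hT]
    refine Matrix.ext fun a b => ?_
    rw [Matrix.map_apply, Matrix.map_apply, Matrix.add_apply, Matrix.smul_apply, Matrix.smul_apply,
      smul_eq_mul, smul_eq_mul, map_add, map_mul, map_mul, map_sub, map_one, he, sub_zero, one_mul,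
      zero_mul, add_zero])
  obtain ⟨i1, i2⟩ := hTInc p Γ hp X r C D hrD dx Hx d H hdx hHHx ddm dH0 dH ρ sO sE CO CE hCO hCE
    T0 T0' hT0 hT0' hy hy' e0 he0 T hT
  obtain ⟨m, hm⟩ := hTPL2 p Γ hp (∀ j, X (2 * j)) (∀ j, X (2 * j + 1)) ρ CE CO T T' hTT' hT'T i1 i2
    a ha0 ha u hu hdet
  exact ⟨a, m, ha0, ha, hm⟩

end HSp
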