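import Pool.Agent.Lib.MP_181146_gt.HS.SpecT

/-!
# Linear maps in `p`-local coordinates
-/

set_option autoImplicit false

namespace HSp

private theorem TMat_inv (p : ℕ) [Fact p.Prime] (s : ℤ) (hs : ¬ (p : ℤ) ∣ s) :
    ∃ u : ZL p, u * (s : ZL p) = 1 := by
  have h0 : (s : ℚ) ≠ 0 := by
    intro h
    exact hs (by rw [Int.cast_eq_zero.mp h]; exact dvd_zero _)
  refine ⟨⟨1 / s, s, 1, hs, by rw [mul_one_div_cancel h0, Int.cast_one]⟩, ?_⟩
  apply Subtype.ext
  rw [Subring.coe_mul, Subring.coe_one, Subring.coe_intCast]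
  exact one_div_mul_cancel h0

private theorem TMat_can (p : ℕ) [Fact p.Prime] {A : Type} [AddCommGroup A] [Module (ZL p) A]
    (s : ℤ) (hs : ¬ (p : ℤ) ∣ s) (v w : A) (h : s • v = s • w) : v = w := by
  obtain ⟨u, hu⟩ := TMat_inv p s hs
  have h1 : ∀ v : A, u • (s • v) = v := by
    intro v
    rw [← Int.cast_smul_eq_zsmul (ZL p) s v, smul_smul, hu, one_smul]
  rw [← h1 v, h, h1 w]

private theorem TMat_dvd (p : ℕ) [hp : Fact p.Prime] {s t : ℤ} (hs : ¬ (p : ℤ) ∣ s)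
    (ht : ¬ (p : ℤ) ∣ t) : ¬ (p : ℤ) ∣ s * t := by
  intro h
  rcases (Nat.prime_iff_prime_int.1 hp.out).dvd_or_dvd h with h1 | h1
  · exact hs h1
  · exact ht h1

private theorem TMat_prod (p : ℕ) [hp : Fact p.Prime] {ρ : ℕ} (s : Fin ρ → ℤ)
    (hs : ∀ i, ¬ (p : ℤ) ∣ s i) :
    ∃ P : ℤ, ¬ (p : ℤ) ∣ P ∧ ∃ q : Fin ρ → ℤ, ∀ i, P = q i * s i := by
  refine ⟨∏ i, s i, ?_, ?_⟩
  · intro h
    obtain ⟨i, _, hi⟩ := (Nat.prime_iff_prime_int.1 hp.out).exists_mem_finset_dvd h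
    exact hs i hi
  · have h1 : ∀ i, ∃ q : ℤ, ∏ i, s i = q * s i := by
      intro i
      obtain ⟨q, hq⟩ := Finset.dvd_prod_of_mem s (Finset.mem_univ i)
      exact ⟨q, by rw [hq, mul_comm]⟩
    choose q hq using h1
    exact ⟨q, hq⟩

private theorem TMat_den (p : ℕ) [hp : Fact p.Prime] (Γ : Type) [CommGroup Γ]
    (y : MonoidAlgebra (ZL p) Γ) :
    ∃ s : ℤ, ¬ (p : ℤ) ∣ s ∧ ∃ l : MonoidAlgebra ℤ Γ, ls p Γ l = s • y := by
  induction y using MonoidAlgebra.induction_on with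
  | of γ =>
    refine ⟨1, fun h => (Nat.prime_iff_prime_int.1 hp.out).not_isUnit (isUnit_of_dvd_one h),
      MonoidAlgebra.of ℤ Γ γ, ?_⟩
    unfold ls
    simp [MonoidAlgebra.of_apply]
  | add f g hf hg =>
    obtain ⟨s, hs, l, hl⟩ := hf
    obtain ⟨t, ht, k, hk⟩ := hg
    refine ⟨s * t, TMat_dvd p hs ht, t • l + s • k, ?_⟩
    rw [map_add, map_zsmul, map_zsmul, hl, hk, smul_add, smul_smul, smul_smul, mul_comm s t]
  | smul a f hf =>
    obtain ⟨s, hs, l, hl⟩ := hf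
    obtain ⟨t, z, ht, htz⟩ := a.2
    refine ⟨t * s, TMat_dvd p ht hs, z • l, ?_⟩
    have h1 : (t : ZL p) * a = (z : ZL p) := by
      apply Subtype.ext
      rw [Subring.coe_mul, Subring.coe_intCast, Subring.coe_intCast]
      exact htz
    rw [map_zsmul, hl, ← Int.cast_smul_eq_zsmul (ZL p) z, ← h1, mul_smul, mul_smul,
      ← Int.cast_smul_eq_zsmul (ZL p) t, smul_comm a s f]

private theorem TMat_denV (p : ℕ) [Fact p.Prime] (Γ : Type) [CommGroup Γ] {ρ : ℕ}
    (y : Fin ρ → MonoidAlgebra (ZL p) Γ) :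
    ∃ s : ℤ, ¬ (p : ℤ) ∣ s ∧ ∃ l : Fin ρ → MonoidAlgebra ℤ Γ, ∀ i, ls p Γ (l i) = s • y i := by
  choose s hs l hl using fun i => TMat_den p Γ (y i)
  obtain ⟨P, hP, q, hq⟩ := TMat_prod p s hs
  refine ⟨P, hP, fun i => q i • l i, fun i => ?_⟩
  rw [map_zsmul, hl, smul_smul, ← hq]

theorem sTMat : S_TMat := by
  intro p _ Γ _ _ M M' _ _ _ _ ρ ρ' C C'
  choose s hs x hx using fun j : Fin ρ => C.dense (Pi.single j 1)
  constructor
  · intro f
    obtain ⟨P, hP, q, hq⟩ := TMat_prod p s hs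
    obtain ⟨u, hu⟩ := TMat_inv p P hP
    have hz : ∀ j, C.κ (q j • x j) = P • Pi.single j 1 := by
      intro j
      rw [map_zsmul, hx, smul_smul, ← hq]
    refine ⟨Matrix.of fun i j => u • C'.κ (f (q j • x j)) i, fun y => ?_⟩
    obtain ⟨t, ht, l, hl⟩ := TMat_denV p Γ (C.κ y)
    have hsum : (t * P) • y = ∑ j, l j • (q j • x j) := by
      apply C.inj
      rw [map_sum, map_zsmul]
      funext i
      rw [Finset.sum_apply]
      have h1 : ∀ j, C.κ (l j • (q j • x j)) i = if i = j then (t * P) • C.κ y j else 0 := by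
        intro j
        rw [C.smul, hz, Pi.smul_apply, Pi.smul_apply, hl]
        by_cases hij : i = j
        · subst hij
          rw [Pi.single_eq_same, if_pos rfl, smul_eq_mul, mul_smul_comm, smul_mul_assoc, mul_one,
            smul_smul, mul_comm]
        · rw [Pi.single_eq_of_ne hij, if_neg hij, smul_zero, smul_zero]
      simp only [h1]
      rw [Finset.sum_ite_eq, if_pos (Finset.mem_univ i), Pi.smul_apply]
    apply TMat_can p (t * P) (TMat_dvd p ht hP)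
    rw [← map_zsmul, ← map_zsmul, hsum, map_sum, map_sum]
    funext i
    rw [Finset.sum_apply, Pi.smul_apply]
    change _ = (t * P) • ∑ j, (u • C'.κ (f (q j • x j)) i) * C.κ y j
    rw [Finset.smul_sum]
    refine Finset.sum_congr rfl fun j _ => ?_
    have e1 : P • (u • C'.κ (f (q j • x j)) i) = C'.κ (f (q j • x j)) i := by
      rw [← Int.cast_smul_eq_zsmul (ZL p) P, smul_smul, mul_comm (P : ZL p) u, hu, one_smul]
    rw [map_smul, C'.smul, Pi.smul_apply, hl, smul_eq_mul, mul_smul, ← smul_mul_assoc P, e1,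
      smul_mul_assoc, mul_comm]
  · intro F F' h
    ext1 i j
    apply TMat_can p (s j) (hs j)
    have h1 := congrFun (h (x j)) i
    rw [hx, Matrix.mulVec_smul, Matrix.mulVec_smul, Matrix.mulVec_single_one,
      Matrix.mulVec_single_one] at h1
    exact h1

end HSp
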