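import Pool.Agent.Lib.MP_181146_gt.HS.SpecT

set_option autoImplicit false

namespace HSp

private lemma ls_of_tmx (p : ℕ) [Fact p.Prime] (Γ : Type) [Group Γ] (γ : Γ) :
    ls p Γ (MonoidAlgebra.of ℤ Γ γ - 1) = MonoidAlgebra.of (ZL p) Γ γ - 1 := by
  rw [map_sub, map_one]
  congr 1
  unfold ls
  rw [MonoidAlgebra.of_apply, MonoidAlgebra.of_apply]
  simp [MonoidAlgebra.mapRingHom]

private lemma rank_zero_tmx (p : ℕ) [hp : Fact p.Prime] (Γ : Type) [Group Γ] (M : Type)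
    [AddCommGroup M] [Module (MonoidAlgebra ℤ Γ) M] (ρ : ℕ) (C : PCo p Γ M ρ)
    (hM : Subsingleton M) : ρ = 0 := by
  by_contra hρ
  obtain ⟨s, hs, x, hx⟩ := C.dense (fun _ => 1)
  have hx0 : x = 0 := Subsingleton.elim _ _
  rw [hx0, map_zero] at hx
  have h1 := congrFun hx ⟨0, Nat.pos_of_ne_zero hρ⟩
  have h2 : (0 : MonoidAlgebra (ZL p) Γ) = s • (1 : MonoidAlgebra (ZL p) Γ) := h1
  have h3 := congrArg (aug (ZL p) Γ) h2
  rw [map_zero, map_zsmul, map_one] at h3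
  have h4 := congrArg (fun z : ZL p => (z : ℚ)) h3
  have h5 : (0 : ℚ) = (s : ℚ) := by simpa using h4
  have h6 : s = 0 := by exact_mod_cast h5.symm
  exact hs (h6 ▸ dvd_zero _)

/-- Coordinates of a complex with operators. -/
theorem sTMx (hTFr : S_TFr) (hTMat : S_TMat) : S_TMx := by
  intro p _ Γ _ _ hp X _ _ _ _ dx hx dd dh
  choose r hr using fun i => hTFr p Γ hp (X i)
  let C : ∀ i, PCo p Γ (X i) (r i) := fun i => (hr i).some
  choose d hd using fun i => (hTMat p Γ (X (i + 1)) (X i) (r (i + 1)) (r i) (C (i + 1)) (C i)).1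
    (dx i)
  choose h hh using fun γ i => (hTMat p Γ (X i) (X (i + 1)) (r i) (r (i + 1)) (C i)
    (C (i + 1))).1 (hx γ i)
  refine ⟨r, C, d, h, fun i hi => rank_zero_tmx p Γ (X i) (r i) (C i) hi, hd, hh, ?_, ?_⟩
  · intro i
    refine (hTMat p Γ (X (i + 1 + 1)) (X i) (r (i + 1 + 1)) (r i) (C (i + 1 + 1)) (C i)).2 _ _
      fun x => ?_
    rw [← Matrix.mulVec_mulVec, ← hd, ← hd, dd, map_zero, Matrix.zero_mulVec]
  · intro γ i
    refine (hTMat p Γ (X (i + 1)) (X (i + 1)) (r (i + 1)) (r (i + 1)) (C (i + 1))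
      (C (i + 1))).2 _ _ fun x => ?_
    rw [Matrix.add_mulVec, ← Matrix.mulVec_mulVec, ← Matrix.mulVec_mulVec, ← hh, ← hd, ← hd,
      ← hh, ← map_add, dh, (C (i + 1)).smul, ls_of_tmx, Matrix.smul_mulVec, Matrix.one_mulVec]

end HSp
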