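import Pool.Agent.Lib.MP_181146_gt.HS.SpecT

/-!
# Project HS, third part: gluing, a lattice with a given determinant
-/

set_option autoImplicit false

namespace HSp

section TPLaux

variable {Γ : Type} [CommGroup Γ]

private theorem TPL_lkc (z : MonoidAlgebra ℤ Γ) (γ : Γ) :
    (lk Γ z).coeff γ = ((z.coeff γ : ℤ) : ℚ) := by
  unfold lk
  rw [MonoidAlgebra.coeff_mapRingHom]
  rfl

private theorem TPL_skc {p : ℕ} [Fact p.Prime] (z : MonoidAlgebra (ZL p) Γ) (γ : Γ) :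
    (sk p Γ z).coeff γ = ((z.coeff γ : ZL p) : ℚ) := by
  unfold sk
  rw [MonoidAlgebra.coeff_mapRingHom]
  rfl

private theorem TPL_lkinj : Function.Injective (lk Γ) := by
  intro z z' h
  apply MonoidAlgebra.ext
  apply Finsupp.ext
  intro γ
  have h1 : (lk Γ z).coeff γ = (lk Γ z').coeff γ := by rw [h]
  rw [TPL_lkc, TPL_lkc] at h1
  exact_mod_cast h1

private theorem TPL_lks (p : ℕ) [Fact p.Prime] (z : MonoidAlgebra ℤ Γ) :
    lk Γ z = sk p Γ (ls p Γ z) := by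
  apply MonoidAlgebra.ext
  apply Finsupp.ext
  intro γ
  rw [TPL_lkc, TPL_skc]
  unfold ls
  rw [MonoidAlgebra.coeff_mapRingHom]
  rfl

private theorem TPL_augof (A : Type) [CommRing A] (g : Γ) :
    aug A Γ (MonoidAlgebra.of A Γ g) = 1 := by
  change MonoidAlgebra.lift A A Γ (1 : Γ →* A) (MonoidAlgebra.of A Γ g) = 1
  rw [MonoidAlgebra.lift_of]
  rfl

private theorem TPL_augsmul (A : Type) [CommRing A] (c : A) (x : MonoidAlgebra A Γ) :
    aug A Γ (c • x) = c * aug A Γ x := by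
  change MonoidAlgebra.lift A A Γ (1 : Γ →* A) (c • x) = _
  rw [map_smul]
  rfl

private theorem TPL_nmul (A : Type) [CommRing A] [Finite Γ] (x : MonoidAlgebra A Γ) :
    nrG A Γ * x = aug A Γ x • nrG A Γ := by
  induction x using MonoidAlgebra.induction_on with
  | of g =>
    rw [TPL_augof, one_smul]
    unfold nrG
    have := Fintype.ofFinite Γ
    rw [finsum_eq_sum_of_fintype, Finset.sum_mul]
    exact Fintype.sum_equiv (Equiv.mulRight g) _ _ (fun γ => (map_mul _ _ _).symm)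
  | add a b ha hb => rw [mul_add, ha, hb, map_add, add_smul]
  | smul r a ha => rw [mul_smul_comm, ha, TPL_augsmul, mul_smul]

private theorem TPL_augn (A : Type) [CommRing A] [Finite Γ] :
    aug A Γ (nrG A Γ) = (Nat.card Γ : A) := by
  unfold nrG
  have := Fintype.ofFinite Γ
  rw [finsum_eq_sum_of_fintype, map_sum, Finset.sum_congr rfl (fun γ _ => TPL_augof A γ),
    Finset.sum_const, nsmul_one, Nat.card_eq_fintype_card, Finset.card_univ]

private theorem TPL_lkn [Finite Γ] : lk Γ (nrG ℤ Γ) = nrG ℚ Γ := by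
  unfold nrG
  have := Fintype.ofFinite Γ
  rw [finsum_eq_sum_of_fintype, finsum_eq_sum_of_fintype, map_sum]
  refine Finset.sum_congr rfl fun γ _ => ?_
  apply MonoidAlgebra.ext
  apply Finsupp.ext
  intro δ
  rw [TPL_lkc, MonoidAlgebra.of_apply, MonoidAlgebra.of_apply, MonoidAlgebra.coeff_single,
    MonoidAlgebra.coeff_single]
  classical
  rw [Finsupp.single_apply, Finsupp.single_apply]
  split_ifs <;> norm_num

private theorem TPL_lksmul (c : ℤ) (z : MonoidAlgebra ℤ Γ) :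
    lk Γ (c • z) = (c : ℚ) • lk Γ z := by
  apply MonoidAlgebra.ext
  apply Finsupp.ext
  intro γ
  rw [TPL_lkc, MonoidAlgebra.coeff_smul, MonoidAlgebra.coeff_smul, Finsupp.smul_apply,
    Finsupp.smul_apply, TPL_lkc, smul_eq_mul, smul_eq_mul]
  push_cast
  rfl

private theorem TPL_auglk (z : MonoidAlgebra ℤ Γ) :
    aug ℚ Γ (lk Γ z) = ((aug ℤ Γ z : ℤ) : ℚ) := by
  induction z using MonoidAlgebra.induction_on with
  | of g =>
    have h : lk Γ (MonoidAlgebra.of ℤ Γ g) = MonoidAlgebra.of ℚ Γ g := by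
      apply MonoidAlgebra.ext
      apply Finsupp.ext
      intro δ
      rw [TPL_lkc, MonoidAlgebra.of_apply, MonoidAlgebra.of_apply, MonoidAlgebra.coeff_single,
        MonoidAlgebra.coeff_single]
      classical
      rw [Finsupp.single_apply, Finsupp.single_apply]
      split_ifs <;> norm_num
    rw [h, TPL_augof, TPL_augof]
    norm_num
  | add a b ha hb =>
    rw [map_add, map_add, map_add, ha, hb]
    push_cast
    rfl
  | smul r a ha =>
    rw [TPL_lksmul, TPL_augsmul, TPL_augsmul, ha]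
    push_cast
    rfl

/-- The element which is `c` at the trivial character and `1` elsewhere. -/
private noncomputable def TPL_W (Γ : Type) [CommGroup Γ] (c : ℚ) : MonoidAlgebra ℚ Γ :=
  1 + ((c - 1) / (Nat.card Γ : ℚ)) • nrG ℚ Γ

private theorem TPL_Wmul [Finite Γ] (c d : ℚ) : TPL_W Γ c * TPL_W Γ d = TPL_W Γ (c * d) := by
  have hn : (Nat.card Γ : ℚ) ≠ 0 := by exact_mod_cast Nat.card_pos.ne'
  have h1 : nrG ℚ Γ * nrG ℚ Γ = (Nat.card Γ : ℚ) • nrG ℚ Γ := by rw [TPL_nmul, TPL_augn]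
  have h2 : (c * d - 1) / (Nat.card Γ : ℚ) = (c - 1) / (Nat.card Γ : ℚ) +
      (d - 1) / (Nat.card Γ : ℚ) +
      (c - 1) / (Nat.card Γ : ℚ) * ((d - 1) / (Nat.card Γ : ℚ)) * (Nat.card Γ : ℚ) := by
    field_simp
    ring
  unfold TPL_W
  rw [h2, add_mul, one_mul, mul_add, mul_one, smul_mul_smul_comm, h1, smul_smul, add_smul,
    add_smul]
  abel

private theorem TPL_W1 : TPL_W Γ 1 = 1 := by
  unfold TPL_W
  rw [sub_self, zero_div, zero_smul, add_zero]

private theorem TPL_Wlk [Finite Γ] (c : ℚ) (z : MonoidAlgebra ℤ Γ) (k : ℤ)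
    (hk : (c - 1) * ((aug ℤ Γ z : ℤ) : ℚ) = k) :
    (Nat.card Γ : ℚ) • (TPL_W Γ c * lk Γ z) =
      lk Γ ((Nat.card Γ : ℤ) • z + k • nrG ℤ Γ) := by
  have hn : (Nat.card Γ : ℚ) ≠ 0 := by exact_mod_cast Nat.card_pos.ne'
  unfold TPL_W
  rw [add_mul, one_mul, smul_mul_assoc, TPL_nmul, TPL_auglk, smul_smul, map_add, TPL_lksmul,
    TPL_lksmul, TPL_lkn, smul_add, smul_smul, ← hk]
  congr 2
  field_simp

/-- integrality: the intersection of the two localizations -/
private theorem TPL_glue (hTZL : S_TZL) (p : ℕ) [hp : Fact p.Prime] [Finite Γ]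
    (v : MonoidAlgebra ℚ Γ) (j : ℕ) (z : MonoidAlgebra ℤ Γ) (s : MonoidAlgebra (ZL p) Γ)
    (h1 : ((p : ℚ) ^ j) • v = lk Γ z) (h2 : v = sk p Γ s) :
    ∃ z' : MonoidAlgebra ℤ Γ, v = lk Γ z' ∧ ((p : ℤ) ^ j) • z' = z := by
  obtain ⟨_, _, hint, _⟩ := hTZL p
  have h3 : ∀ γ : Γ, ∃ c : ℤ, v.coeff γ = (c : ℚ) := by
    intro γ
    have h4 : v.coeff γ = ((s.coeff γ : ZL p) : ℚ) := by rw [h2, TPL_skc]
    have h5 : (((p : ℚ) ^ j) • v).coeff γ = (lk Γ z).coeff γ := by rw [h1]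
    rw [MonoidAlgebra.coeff_smul, Finsupp.smul_apply, smul_eq_mul, TPL_lkc, h4] at h5
    obtain ⟨c, hc⟩ := hint _ j _ h5
    exact ⟨c, h4.trans hc⟩
  choose c hc using h3
  have h6 : v = lk Γ (MonoidAlgebra.ofCoeff (Finsupp.equivFunOnFinite.symm c)) := by
    apply MonoidAlgebra.ext
    apply Finsupp.ext
    intro γ
    rw [TPL_lkc, hc]
    rfl
  refine ⟨_, h6, ?_⟩
  apply TPL_lkinj
  rw [TPL_lksmul, ← h6, ← h1]
  push_cast
  rfl

end TPLaux

theorem sTPL (hTSLK : S_TSLK) (hTRed : S_TRed) (hTSA : S_TSA) (hTInt : S_TInt)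
    (hTZL : S_TZL) : S_TPL := by
  intro p hp Γ _ _ hpG M _ _ m θ hs hinj i1 i2 T T' hT hT' ii1 ii2 a ha0 ha u hu hdet
  obtain ⟨hRed, hArt, _⟩ := hTRed Γ
  obtain ⟨us, hus⟩ := hu
  obtain ⟨e, he⟩ := IsPGroup.iff_card.1 hpG
  have hn0 : (Nat.card Γ : ℚ) ≠ 0 := by exact_mod_cast Nat.card_pos.ne'
  have haq : (a : ℚ) ≠ 0 := by exact_mod_cast ha0.ne'
  have hnp : (Nat.card Γ : ℚ) = (p : ℚ) ^ e := by rw [he]; push_cast; rfl
  -- diagonal matrices
  let dg : MonoidAlgebra ℚ Γ → Matrix (Fin (m + 1)) (Fin (m + 1)) (MonoidAlgebra ℚ Γ) :=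
    fun c => Matrix.diagonal (fun i : Fin (m + 1) => if i = 0 then c else 1)
  have hdg : ∀ c d, dg c * dg d = dg (c * d) := by
    intro c d
    change Matrix.diagonal _ * Matrix.diagonal _ = Matrix.diagonal _
    rw [Matrix.diagonal_mul_diagonal]
    congr 1
    funext i
    split_ifs
    · rfl
    · exact one_mul 1
  have hdg1 : dg 1 = 1 := by
    change Matrix.diagonal _ = 1
    rw [← Matrix.diagonal_one]
    congr 1
    funext i
    split_ifs <;> rfl
  have hdgdet : ∀ c, (dg c).det = c := by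
    intro c
    change (Matrix.diagonal _).det = c
    rw [Matrix.det_diagonal, Fin.prod_univ_succ, if_pos rfl]
    rw [Finset.prod_eq_one, mul_one]
    intro i _
    rw [if_neg (Fin.succ_ne_zero i)]
  have hdgv : ∀ c (v : Fin (m + 1) → MonoidAlgebra ℚ Γ) i,
      (dg c).mulVec v i = (if i = 0 then c else 1) * v i := by
    intro c v i
    exact Matrix.mulVec_diagonal _ _ _
  -- units
  have huu : sk p Γ (us : MonoidAlgebra (ZL p) Γ) *
      sk p Γ (us⁻¹ : (MonoidAlgebra (ZL p) Γ)ˣ) = 1 := by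
    rw [← map_mul, Units.mul_inv, map_one]
  have huu' : sk p Γ (us⁻¹ : (MonoidAlgebra (ZL p) Γ)ˣ) *
      sk p Γ (us : MonoidAlgebra (ZL p) Γ) = 1 := by
    rw [← map_mul, Units.inv_mul, map_one]
  have hW : TPL_W Γ a * TPL_W Γ (a : ℚ)⁻¹ = 1 := by
    rw [TPL_Wmul, mul_inv_cancel₀ haq, TPL_W1]
  have hW' : TPL_W Γ (a : ℚ)⁻¹ * TPL_W Γ a = 1 := by
    rw [TPL_Wmul, inv_mul_cancel₀ haq, TPL_W1]
  -- the matrix of determinant one
  set T2 : Matrix (Fin (m + 1)) (Fin (m + 1)) (MonoidAlgebra ℚ Γ) :=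
    dg (TPL_W Γ a) * T * dg (sk p Γ (us⁻¹ : (MonoidAlgebra (ZL p) Γ)ˣ)) with hT2def
  have hT2 : T2.det = 1 := by
    rw [hT2def, Matrix.det_mul, Matrix.det_mul, hdgdet, hdgdet, mul_comm (TPL_W Γ a) T.det]
    have h1 : T.det * TPL_W Γ a = sk p Γ u := hdet
    rw [h1, ← hus, huu]
  obtain ⟨l, hl⟩ := hTSLK (MonoidAlgebra ℚ Γ) (m + 1) T2 hT2
  obtain ⟨E, E', k, k', hprod, hEE', hE'E, hkk', hk'k, hks, hk's, hEO, hE'O⟩ :=
    hTSA p Γ a ha (m + 1) l
  have hT2E : T2 = E * k := hl.trans hprod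
  -- vectors with entries in the image of `S`
  have hIs : ∀ (A : Matrix (Fin (m + 1)) (Fin (m + 1)) (MonoidAlgebra ℚ Γ)),
      (∀ i j, ∃ s : MonoidAlgebra (ZL p) Γ, A i j = sk p Γ s) →
      ∀ v : Fin (m + 1) → MonoidAlgebra ℚ Γ,
      (∃ w : Fin (m + 1) → MonoidAlgebra (ZL p) Γ, v = fun i => sk p Γ (w i)) →
      ∃ w : Fin (m + 1) → MonoidAlgebra (ZL p) Γ, A.mulVec v = fun i => sk p Γ (w i) := by
    intro A hA v hv
    choose s hsA using hA
    obtain ⟨w, rfl⟩ := hv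
    refine ⟨fun i => ∑ j, s i j * w j, ?_⟩
    funext i
    change ∑ j, A i j * sk p Γ (w j) = sk p Γ (∑ j, s i j * w j)
    rw [map_sum]
    refine Finset.sum_congr rfl fun j _ => ?_
    rw [map_mul, ← hsA]
  have hdgs : ∀ s : MonoidAlgebra (ZL p) Γ, ∀ i j, ∃ t : MonoidAlgebra (ZL p) Γ,
      dg (sk p Γ s) i j = sk p Γ t := by
    intro s i j
    by_cases hij : i = j
    · subst hij
      by_cases hi : i = 0
      · refine ⟨s, ?_⟩
        change Matrix.diagonal _ i i = _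
        rw [Matrix.diagonal_apply_eq, if_pos hi]
      · refine ⟨1, ?_⟩
        change Matrix.diagonal _ i i = _
        rw [Matrix.diagonal_apply_eq, if_neg hi, map_one]
    · refine ⟨0, ?_⟩
      change Matrix.diagonal _ i j = _
      rw [Matrix.diagonal_apply_ne _ hij, map_zero]
  -- first key fact
  have key1 : ∀ x : M, ∃ y : Fin (m + 1) → MonoidAlgebra ℤ Γ,
      (E' * dg (TPL_W Γ a)).mulVec (θ x) = (fun i => lk Γ (y i)) ∧
        (a : ℤ) ∣ aug ℤ Γ (y 0) := by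
    intro x
    have hA : OmA p Γ a ((dg (TPL_W Γ a)).mulVec (θ x)) := by
      intro i
      obtain ⟨j, y, hy⟩ := i1 x
      have hy' : ∀ i, ((p : ℚ) ^ j) • θ x i = lk Γ (y i) := fun i => congrFun hy i
      by_cases hi : i = 0
      · subst hi
        refine ⟨j + e, (Nat.card Γ : ℤ) • y 0 + (((a : ℤ) - 1) * aug ℤ Γ (y 0)) • nrG ℤ Γ, ?_,
          fun _ => ?_⟩
        · rw [hdgv, if_pos rfl, ← TPL_Wlk (a : ℚ) (y 0) _ (by push_cast; rfl), ← hy' 0, pow_add,
            hnp, mul_smul_comm, smul_smul, mul_comm]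
        · rw [map_add, TPL_augsmul, TPL_augsmul, TPL_augn]
          refine ⟨(Nat.card Γ : ℤ) * aug ℤ Γ (y 0), ?_⟩
          ring
      · refine ⟨j, y i, ?_, fun h => absurd (Fin.ext h) hi⟩
        rw [hdgv, if_neg hi, one_mul]
        exact hy' i
    have hB := hE'O _ hA
    have hC : ∃ w : Fin (m + 1) → MonoidAlgebra (ZL p) Γ,
        (E' * dg (TPL_W Γ a)).mulVec (θ x) = fun i => sk p Γ (w i) := by
      obtain ⟨w, hw⟩ := ii1 x
      have h1 : θ x = T.mulVec (fun i => sk p Γ (w i)) := by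
        rw [← hw, Matrix.mulVec_mulVec, hT, Matrix.one_mulVec]
      have h2 : dg (TPL_W Γ a) * T = T2 * dg (sk p Γ (us : MonoidAlgebra (ZL p) Γ)) := by
        rw [hT2def, Matrix.mul_assoc, hdg, huu', hdg1, Matrix.mul_one]
      have h3 : E' * dg (TPL_W Γ a) * T = k * dg (sk p Γ (us : MonoidAlgebra (ZL p) Γ)) := by
        rw [Matrix.mul_assoc, h2, hT2E, Matrix.mul_assoc, ← Matrix.mul_assoc E' E, hE'E,
          Matrix.one_mul]
      rw [h1, Matrix.mulVec_mulVec, h3, ← Matrix.mulVec_mulVec]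
      exact hIs k hks _ (hIs _ (hdgs _) _ ⟨w, rfl⟩)
    obtain ⟨w, hw⟩ := hC
    have hD : ∀ i, ∃ z' : MonoidAlgebra ℤ Γ,
        (E' * dg (TPL_W Γ a)).mulVec (θ x) i = lk Γ z' ∧
          ((i : ℕ) = 0 → (a : ℤ) ∣ aug ℤ Γ z') := by
      intro i
      obtain ⟨j, z, hz, hz0⟩ := hB i
      rw [Matrix.mulVec_mulVec] at hz
      obtain ⟨z', h1, h2⟩ := TPL_glue hTZL p _ j z (w i) hz (congrFun hw i)
      refine ⟨z', h1, fun hi => ?_⟩
      have h3 := hz0 hi
      rw [← h2, TPL_augsmul] at h3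
      have h4 : IsCoprime (a : ℤ) ((p : ℤ) ^ j) :=
        IsCoprime.pow_right (Int.isCoprime_iff_gcd_eq_one.2 (by
          rw [Int.gcd_natCast_natCast]
          exact ha))
      exact h4.dvd_of_dvd_mul_left h3
    choose y hy hy0 using hD
    exact ⟨y, funext hy, hy0 0 rfl⟩
  -- second key fact
  have key2 : ∀ y : Fin (m + 1) → MonoidAlgebra ℤ Γ, (a : ℤ) ∣ aug ℤ Γ (y 0) →
      ∃ x : M, (E' * dg (TPL_W Γ a)).mulVec (θ x) = fun i => lk Γ (y i) := by
    intro y hy0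
    have hA : OmA p Γ a (fun i => lk Γ (y i)) := by
      intro i
      refine ⟨0, y i, by rw [pow_zero, one_smul], fun hi => ?_⟩
      have hi' : i = 0 := Fin.ext hi
      rw [hi']
      exact hy0
    have hB := hEO _ hA
    -- the `1/p`-part
    have h1 : ∃ (j : ℕ) (y' : Fin (m + 1) → MonoidAlgebra ℤ Γ),
        ((p : ℚ) ^ j) • (dg (TPL_W Γ (a : ℚ)⁻¹) * E).mulVec (fun i => lk Γ (y i)) =
          fun i => lk Γ (y' i) := by
      have h2 : ∀ i, ∃ (j : ℕ) (z : MonoidAlgebra ℤ Γ),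
          ((p : ℚ) ^ j) • (dg (TPL_W Γ (a : ℚ)⁻¹) * E).mulVec (fun i => lk Γ (y i)) i =
            lk Γ z := by
        intro i
        obtain ⟨j, z, hz, hz0⟩ := hB i
        rw [← Matrix.mulVec_mulVec, hdgv]
        by_cases hi : i = 0
        · subst hi
          obtain ⟨b, hb⟩ := hz0 rfl
          refine ⟨j + e, (Nat.card Γ : ℤ) • z + (b - a * b) • nrG ℤ Γ, ?_⟩
          rw [if_pos rfl, ← TPL_Wlk ((a : ℚ)⁻¹) z _ (by
            rw [hb]
            push_cast
            field_simp), ← hz, pow_add, hnp, mul_smul_comm, smul_smul, mul_comm]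
        · refine ⟨j, z, ?_⟩
          rw [if_neg hi, one_mul]
          exact hz
      choose j z hz using h2
      refine ⟨∑ i, j i, fun i => ((p : ℤ) ^ ((∑ i, j i) - j i)) • z i, ?_⟩
      funext i
      have h3 : j i ≤ ∑ i, j i :=
        Finset.single_le_sum (fun _ _ => Nat.zero_le _) (Finset.mem_univ i)
      change ((p : ℚ) ^ (∑ i, j i)) •
        (dg (TPL_W Γ (a : ℚ)⁻¹) * E).mulVec (fun i => lk Γ (y i)) i = lk Γ (((p : ℤ) ^ ((∑ i, j i) - j i)) • z i)
      rw [TPL_lksmul, ← hz i, smul_smul]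
      congr 1
      push_cast
      rw [← pow_add, Nat.sub_add_cancel h3]
    -- the `p`-part
    have h4 : ∃ w : Fin (m + 1) → MonoidAlgebra (ZL p) Γ,
        T'.mulVec ((dg (TPL_W Γ (a : ℚ)⁻¹) * E).mulVec (fun i => lk Γ (y i))) =
          fun i => sk p Γ (w i) := by
      have h5 : dg (TPL_W Γ (a : ℚ)⁻¹) * E =
          T * (dg (sk p Γ (us⁻¹ : (MonoidAlgebra (ZL p) Γ)ˣ)) * k') := by
        have h6 : dg (TPL_W Γ (a : ℚ)⁻¹) * T2 =
            T * dg (sk p Γ (us⁻¹ : (MonoidAlgebra (ZL p) Γ)ˣ)) := by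
          rw [hT2def, Matrix.mul_assoc (dg (TPL_W Γ a)),
            ← Matrix.mul_assoc (dg (TPL_W Γ (a : ℚ)⁻¹)), hdg, hW', hdg1, Matrix.one_mul]
        rw [← Matrix.mul_assoc, ← h6, hT2E, Matrix.mul_assoc, Matrix.mul_assoc E k k', hkk',
          Matrix.mul_one]
      rw [h5, Matrix.mulVec_mulVec, ← Matrix.mul_assoc, hT', Matrix.one_mul,
        ← Matrix.mulVec_mulVec]
      refine hIs _ (hdgs _) _ (hIs k' hk's _ ⟨fun i => ls p Γ (y i), ?_⟩)
      funext i
      exact TPL_lks p (y i)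
    obtain ⟨x, hx⟩ := hTInt p Γ M (m + 1) θ i2 T T' hT ii2 _ h1 h4
    refine ⟨x, ?_⟩
    have h7 : E' * dg (TPL_W Γ a) * (dg (TPL_W Γ (a : ℚ)⁻¹) * E) = 1 := by
      rw [Matrix.mul_assoc, ← Matrix.mul_assoc (dg (TPL_W Γ a)), hdg, hW, hdg1,
        Matrix.one_mul, hE'E]
    rw [hx, Matrix.mulVec_mulVec, h7, Matrix.one_mulVec]
  -- the isomorphism
  choose f hf hf0 using key1
  have hinj2 : ∀ x x' : M, f x = f x' → x = x' := by
    intro x x' h
    apply hinj
    have h1 : (E' * dg (TPL_W Γ a)).mulVec (θ x) = (E' * dg (TPL_W Γ a)).mulVec (θ x') := by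
      rw [hf, hf, h]
    have h2 := congrArg (fun v => (dg (TPL_W Γ (a : ℚ)⁻¹) * E).mulVec v) h1
    have h3 : dg (TPL_W Γ (a : ℚ)⁻¹) * E * (E' * dg (TPL_W Γ a)) = 1 := by
      rw [Matrix.mul_assoc, ← Matrix.mul_assoc E E', hEE', Matrix.one_mul, hdg, hW', hdg1]
    simp only [Matrix.mulVec_mulVec, h3, Matrix.one_mulVec] at h2
    exact h2
  have hadd : ∀ x x', f (x + x') = f x + f x' := by
    intro x x'
    funext i
    apply TPL_lkinj
    have h1 := congrFun (hf (x + x')) i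
    rw [map_add, Matrix.mulVec_add, hf x, hf x'] at h1
    rw [← h1, Pi.add_apply, Pi.add_apply, map_add]
  have hsm : ∀ (c : MonoidAlgebra ℤ Γ) x, f (c • x) = c • f x := by
    intro c x
    funext i
    apply TPL_lkinj
    have h1 := congrFun (hf (c • x)) i
    rw [hs, Matrix.mulVec_smul, hf x] at h1
    rw [← h1, Pi.smul_apply, Pi.smul_apply, smul_eq_mul, smul_eq_mul, map_mul]
  let L : M →ₗ[MonoidAlgebra ℤ Γ] (SwJ Γ a × (Fin m → MonoidAlgebra ℤ Γ)) :=
    { toFun := fun x => (⟨f x 0, Ideal.mem_comap.2 (Ideal.mem_span_singleton.2 (hf0 x))⟩,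
        fun i => f x i.succ)
      map_add' := fun x x' => by
        refine Prod.ext (Subtype.ext ?_) (funext fun i => ?_)
        · exact congrFun (hadd x x') 0
        · exact congrFun (hadd x x') i.succ
      map_smul' := fun c x => by
        refine Prod.ext (Subtype.ext ?_) (funext fun i => ?_)
        · exact congrFun (hsm c x) 0
        · exact congrFun (hsm c x) i.succ }
  refine ⟨LinearEquiv.ofBijective L ⟨fun x x' h => ?_, fun q => ?_⟩⟩
  · apply hinj2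
    have h1 : f x 0 = f x' 0 := congrArg (fun q => (q.1 : MonoidAlgebra ℤ Γ)) h
    have h2 : (fun i : Fin m => f x i.succ) = fun i : Fin m => f x' i.succ := congrArg Prod.snd h
    funext i
    refine Fin.cases h1 (fun i => congrFun h2 i) i
  · obtain ⟨⟨c, hc⟩, g⟩ := q
    have hc' : (a : ℤ) ∣ aug ℤ Γ c := Ideal.mem_span_singleton.1 (Ideal.mem_comap.1 hc)
    obtain ⟨x, hx⟩ := key2 (Fin.cons c g) hc'
    refine ⟨x, ?_⟩
    have h1 : ∀ i, f x i = (Fin.cons c g : Fin (m + 1) → MonoidAlgebra ℤ Γ) i := by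
      intro i
      apply TPL_lkinj
      exact (congrFun (hf x) i).symm.trans (congrFun hx i)
    refine Prod.ext (Subtype.ext ?_) (funext fun i => ?_)
    · exact h1 0
    · exact h1 i.succ

end HSp
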