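import Pool.Agent.Lib.MP_181146_gt.HS.SpecT

/-!
# Project HS, third part: gluing for projective modules
-/

set_option autoImplicit false

namespace HSp

private theorem skls (p : ℕ) [Fact p.Prime] (Γ : Type) [Group Γ] (a : MonoidAlgebra ℤ Γ) :
    sk p Γ (ls p Γ a) = lk Γ a := by
  unfold sk ls lk
  rw [← RingHom.comp_apply, ← MonoidAlgebra.mapRingHom_comp]
  congr 2

private theorem sk_inj (p : ℕ) [Fact p.Prime] (Γ : Type) [Group Γ] :
    Function.Injective (sk p Γ) := by
  intro x y h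
  apply MonoidAlgebra.coeff_injective
  ext γ
  have h1 := congrArg (fun z : MonoidAlgebra ℚ Γ => z.coeff γ) h
  simp only [sk, MonoidAlgebra.coeff_mapRingHom] at h1
  exact h1

private theorem ls_inj (p : ℕ) [Fact p.Prime] (Γ : Type) [Group Γ] :
    Function.Injective (ls p Γ) := by
  intro x y h
  apply MonoidAlgebra.coeff_injective
  ext γ
  have h1 := congrArg (fun z : MonoidAlgebra (ZL p) Γ => ((z.coeff γ : ZL p) : ℚ)) h
  simp only [ls, MonoidAlgebra.coeff_mapRingHom] at h1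
  have h3 : ∀ n : ℤ, ((Int.castRingHom (ZL p) n : ZL p) : ℚ) = (n : ℚ) := fun n => by simp
  rw [h3, h3] at h1
  exact Int.cast_injective h1

private theorem ndm {p : ℕ} [hp : Fact p.Prime] {s s' : ℤ} (hs : ¬ (p : ℤ) ∣ s)
    (hs' : ¬ (p : ℤ) ∣ s') : ¬ (p : ℤ) ∣ s * s' := by
  intro h
  rcases (Nat.prime_iff_prime_int.1 hp.out).dvd_or_dvd h with h | h
  · exact hs h
  · exact hs' h

private theorem nd1 {p : ℕ} [hp : Fact p.Prime] : ¬ (p : ℤ) ∣ 1 := fun h =>
  (Nat.prime_iff_prime_int.1 hp.out).not_isUnit (isUnit_of_dvd_one h)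

private theorem den1 (p : ℕ) [Fact p.Prime] (Γ : Type) [Group Γ] (y : MonoidAlgebra (ZL p) Γ) :
    ∃ s : ℤ, ¬ (p : ℤ) ∣ s ∧ ∃ z : MonoidAlgebra ℤ Γ, ls p Γ z = s • y := by
  induction y using MonoidAlgebra.induction_linear with
  | zero => exact ⟨1, nd1, 0, by rw [map_zero, smul_zero]⟩
  | add x y hx hy =>
    obtain ⟨s, hs, z, hz⟩ := hx
    obtain ⟨s', hs', z', hz'⟩ := hy
    refine ⟨s * s', ndm hs hs', s' • z + s • z', ?_⟩
    rw [map_add, map_zsmul, map_zsmul, hz, hz', smul_smul, smul_smul, smul_add, mul_comm s' s]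
  | single γ c =>
    obtain ⟨s, z, hs, h⟩ := c.2
    refine ⟨s, hs, MonoidAlgebra.single γ z, ?_⟩
    unfold ls
    rw [MonoidAlgebra.mapRingHom_single]
    apply MonoidAlgebra.coeff_injective
    rw [MonoidAlgebra.coeff_smul, MonoidAlgebra.coeff_single, MonoidAlgebra.coeff_single,
      Finsupp.smul_single]
    congr 1
    apply Subtype.ext
    have h1 : ((s • c : ZL p) : ℚ) = (s : ℚ) * (c : ℚ) := by
      rw [zsmul_eq_mul]
      rfl
    rw [h1, h]
    rfl

private theorem denN (p : ℕ) [hp : Fact p.Prime] (Γ : Type) [Group Γ] (N : ℕ)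
    (y : Fin N → MonoidAlgebra (ZL p) Γ) :
    ∃ s : ℤ, ¬ (p : ℤ) ∣ s ∧ ∃ z : Fin N → MonoidAlgebra ℤ Γ, ∀ i, ls p Γ (z i) = s • y i := by
  choose s hs z hz using fun i => den1 p Γ (y i)
  refine ⟨∏ i, s i, ?_, fun i => (∏ j ∈ Finset.univ.erase i, s j) • z i, fun i => ?_⟩
  · intro h
    rw [(Nat.prime_iff_prime_int.1 hp.out).dvd_finsetProd_iff] at h
    obtain ⟨i, -, h⟩ := h
    exact hs i h
  · rw [map_zsmul, hz, smul_smul, mul_comm, Finset.mul_prod_erase Finset.univ s (Finset.mem_univ i)]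

/-- Coordinates of a free module. -/
private noncomputable def pfr (p : ℕ) [Fact p.Prime] (Γ : Type) [Group Γ] (N : ℕ) :
    PCo p Γ (Fin N → MonoidAlgebra ℤ Γ) N where
  κ :=
    { toFun := fun v i => ls p Γ (v i)
      map_zero' := by
        funext i
        exact map_zero _
      map_add' := by
        intro v w
        funext i
        exact map_add _ _ _ }
  smul a x := by
    funext i
    change ls p Γ (a * x i) = ls p Γ a * ls p Γ (x i)
    exact map_mul _ _ _
  inj x y h := by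
    funext i
    exact ls_inj p Γ (congrFun h i)
  dense y := by
    obtain ⟨s, hs, z, hz⟩ := denN p Γ N y
    exact ⟨s, hs, z, funext hz⟩

/-- Coordinates of a product. -/
private noncomputable def ppr {p : ℕ} [Fact p.Prime] {Γ : Type} [Group Γ] {M Q : Type}
    [AddCommGroup M] [Module (MonoidAlgebra ℤ Γ) M] [AddCommGroup Q]
    [Module (MonoidAlgebra ℤ Γ) Q] {ρ q N : ℕ} (C : PCo p Γ M ρ) (CQ : PCo p Γ Q q)
    (e : Fin ρ ⊕ Fin q ≃ Fin N) : PCo p Γ (M × Q) N where
  κ :=
    { toFun := fun w i => Sum.elim (C.κ w.1) (CQ.κ w.2) (e.symm i)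
      map_zero' := by
        funext i
        change Sum.elim (C.κ 0) (CQ.κ 0) (e.symm i) = 0
        rw [map_zero, map_zero]
        rcases e.symm i with a | a <;> rfl
      map_add' := by
        intro v w
        funext i
        change Sum.elim (C.κ (v.1 + w.1)) (CQ.κ (v.2 + w.2)) (e.symm i) =
          Sum.elim (C.κ v.1) (CQ.κ v.2) (e.symm i) + Sum.elim (C.κ w.1) (CQ.κ w.2) (e.symm i)
        rw [map_add, map_add]
        rcases e.symm i with a | a <;> rfl }
  smul a x := by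
    funext i
    change Sum.elim (C.κ (a • x.1)) (CQ.κ (a • x.2)) (e.symm i) =
      ls p Γ a • Sum.elim (C.κ x.1) (CQ.κ x.2) (e.symm i)
    rw [C.smul, CQ.smul]
    rcases e.symm i with b | b <;> rfl
  inj x y h := by
    have h1 : ∀ b, Sum.elim (C.κ x.1) (CQ.κ x.2) b = Sum.elim (C.κ y.1) (CQ.κ y.2) b := by
      intro b
      have h2 := congrFun h (e b)
      change Sum.elim (C.κ x.1) (CQ.κ x.2) (e.symm (e b)) =
        Sum.elim (C.κ y.1) (CQ.κ y.2) (e.symm (e b)) at h2
      rwa [e.symm_apply_apply] at h2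
    refine Prod.ext (C.inj ?_) (CQ.inj ?_)
    · funext a
      exact h1 (Sum.inl a)
    · funext a
      exact h1 (Sum.inr a)
  dense y := by
    obtain ⟨s, hs, x, hx⟩ := C.dense (fun a => y (e (Sum.inl a)))
    obtain ⟨s', hs', x', hx'⟩ := CQ.dense (fun a => y (e (Sum.inr a)))
    refine ⟨s * s', ndm hs hs', (s' • x, s • x'), ?_⟩
    funext i
    change Sum.elim (C.κ (s' • x)) (CQ.κ (s • x')) (e.symm i) = (s * s') • y i
    rw [map_zsmul, map_zsmul, hx, hx']
    obtain ⟨b, rfl⟩ := e.surjective i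
    rw [e.symm_apply_apply]
    rcases b with a | a
    · change s' • s • y (e (Sum.inl a)) = _
      rw [smul_smul, mul_comm]
    · change s • s' • y (e (Sum.inr a)) = _
      rw [smul_smul]

private theorem mats (hTMat : S_TMat) {p : ℕ} [Fact p.Prime] {Γ : Type} [CommGroup Γ] [Finite Γ]
    {P L : Type} [AddCommGroup P] [Module (MonoidAlgebra ℤ Γ) P] [AddCommGroup L]
    [Module (MonoidAlgebra ℤ Γ) L] {N n : ℕ} (CP : PCo p Γ P N) (CL : PCo p Γ L n)
    (j : P ≃ₗ[MonoidAlgebra ℤ Γ] L) :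
    ∃ (U : Matrix (Fin n) (Fin N) (MonoidAlgebra (ZL p) Γ))
      (U' : Matrix (Fin N) (Fin n) (MonoidAlgebra (ZL p) Γ)), U * U' = 1 ∧ U' * U = 1 ∧
      ∀ x, CL.κ (j x) = U.mulVec (CP.κ x) := by
  obtain ⟨U, hU⟩ := (hTMat p Γ P L N n CP CL).1 j.toLinearMap
  obtain ⟨U', hU'⟩ := (hTMat p Γ L P n N CL CP).1 j.symm.toLinearMap
  refine ⟨U, U', ?_, ?_, hU⟩
  · apply (hTMat p Γ L L n n CL CL).2
    intro x
    rw [← Matrix.mulVec_mulVec, ← hU', ← hU, Matrix.one_mulVec]
    congr 1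
    exact j.apply_symm_apply x
  · apply (hTMat p Γ P P N N CP CP).2
    intro x
    rw [← Matrix.mulVec_mulVec, ← hU, ← hU', Matrix.one_mulVec]
    congr 1
    exact j.symm_apply_apply x

private theorem cardEq (hTMat : S_TMat) {p : ℕ} [Fact p.Prime] {Γ : Type} [CommGroup Γ]
    [Finite Γ] {P L : Type} [AddCommGroup P] [Module (MonoidAlgebra ℤ Γ) P] [AddCommGroup L]
    [Module (MonoidAlgebra ℤ Γ) L] {N n : ℕ} (CP : PCo p Γ P N) (CL : PCo p Γ L n)
    (j : P ≃ₗ[MonoidAlgebra ℤ Γ] L) : N = n := by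
  obtain ⟨U, U', h1, h2, -⟩ := mats hTMat CP CL j
  have h3 := card_eq_of_linearEquiv (MonoidAlgebra (ZL p) Γ) (Matrix.toLin'OfInv h2 h1)
  simpa using h3

/-- A complement of a projective module. -/
private theorem compl_ex (Λ : Type) [CommRing Λ] (M : Type) [AddCommGroup M] [Module Λ M]
    [Module.Finite Λ M] [Module.Projective Λ M] : ∃ (m : ℕ) (Q : Submodule Λ (Fin (m + 1) → Λ)),
      Module.Finite Λ Q ∧ Module.Projective Λ Q ∧
      Nonempty ((M × Q) ≃ₗ[Λ] (Fin (m + 1) → Λ)) := by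
  obtain ⟨m, f0, hf0⟩ := Module.Finite.exists_fin' Λ M
  let f : (Fin (m + 1) → Λ) →ₗ[Λ] M := f0 ∘ₗ LinearMap.funLeft Λ Λ Fin.castSucc
  have hf : Function.Surjective f := by
    refine hf0.comp ?_
    exact LinearMap.funLeft_surjective_of_injective Λ Λ _ (Fin.castSucc_injective m)
  obtain ⟨s, hs⟩ := Module.projective_lifting_property f LinearMap.id hf
  have hs' : ∀ x, f (s x) = x := fun x => LinearMap.congr_fun hs x
  let r : (Fin (m + 1) → Λ) →ₗ[Λ] LinearMap.ker f :=
    (LinearMap.id - s ∘ₗ f).codRestrict (LinearMap.ker f) (by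
      intro v
      rw [LinearMap.mem_ker]
      change f (v - s (f v)) = 0
      rw [map_sub, hs', sub_self])
  have hr : r ∘ₗ (LinearMap.ker f).subtype = LinearMap.id := by
    ext1 q
    apply Subtype.ext
    change (q : Fin (m + 1) → Λ) - s (f q) = q
    rw [LinearMap.mem_ker.1 q.2, map_zero, sub_zero]
  refine ⟨m, LinearMap.ker f, ?_, ?_, ⟨?_⟩⟩
  · refine Module.Finite.of_surjective r ?_
    intro q
    exact ⟨q, LinearMap.congr_fun hr q⟩
  · exact Module.Projective.of_split (LinearMap.ker f).subtype r hr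
  · refine LinearEquiv.ofLinearMap (s.coprod (LinearMap.ker f).subtype) (f.prod r) ?_ ?_
    · refine LinearMap.ext fun v => ?_
      change s (f v) + (v - s (f v)) = v
      abel
    · refine LinearMap.ext fun w => ?_
      obtain ⟨x, q⟩ := w
      have hq : f (q : Fin (m + 1) → Λ) = 0 := LinearMap.mem_ker.1 q.2
      refine Prod.ext ?_ (Subtype.ext ?_)
      · change f (s x + q) = x
        rw [map_add, hs', hq, add_zero]
      · change (s x + (q : Fin (m + 1) → Λ)) - s (f (s x + q)) = q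
        rw [map_add, hs', hq, add_zero, add_sub_cancel_left]

theorem sTPL2 (hTPL : S_TPL) (hTFr : S_TFr) (hTMat : S_TMat) : S_TPL2 := by
  intro p _ Γ _ _ hp M M' _ _ _ _ _ _ ρ C C' T T' hT hT' i1 i2 a ha0 ha u hu hdet
  obtain ⟨m, Q, hQf, hQp, ⟨j⟩⟩ := compl_ex (MonoidAlgebra ℤ Γ) M
  obtain ⟨q, ⟨CQ⟩⟩ := hTFr p Γ hp Q
  have hN : ρ + q = m + 1 := cardEq hTMat (ppr C CQ finSumFinEquiv) (pfr p Γ (m + 1)) j
  let e : Fin ρ ⊕ Fin q ≃ Fin (m + 1) := finSumFinEquiv.trans (finCongr hN)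
  obtain ⟨U, U', hU, hU', hj⟩ := mats hTMat (ppr C CQ e) (pfr p Γ (m + 1)) j
  let CP := ppr C CQ e
  let CP' := ppr C' CQ e
  -- the matrices
  let Te : Matrix (Fin (m + 1)) (Fin (m + 1)) (MonoidAlgebra ℚ Γ) :=
    Matrix.reindex e e (Matrix.fromBlocks T 0 0 1)
  let Te' : Matrix (Fin (m + 1)) (Fin (m + 1)) (MonoidAlgebra ℚ Γ) :=
    Matrix.reindex e e (Matrix.fromBlocks T' 0 0 1)
  have hTe : Te * Te' = 1 := by
    change (Matrix.reindex e e _) * (Matrix.reindex e e _) = 1
    rw [Matrix.reindex_apply, Matrix.reindex_apply, Matrix.submatrix_mul_equiv,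
      Matrix.fromBlocks_multiply, hT]
    simp
  have hTe' : Te' * Te = 1 := by
    change (Matrix.reindex e e _) * (Matrix.reindex e e _) = 1
    rw [Matrix.reindex_apply, Matrix.reindex_apply, Matrix.submatrix_mul_equiv,
      Matrix.fromBlocks_multiply, hT']
    simp
  let UK := U.map (sk p Γ)
  let UK' := U'.map (sk p Γ)
  have hUK : UK * UK' = 1 := by
    change U.map (sk p Γ) * U'.map (sk p Γ) = 1
    rw [← Matrix.map_mul, hU, Matrix.map_one _ (map_zero _) (map_one _)]
  have hUK' : UK' * UK = 1 := by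
    change U'.map (sk p Γ) * U.map (sk p Γ) = 1
    rw [← Matrix.map_mul, hU', Matrix.map_one _ (map_zero _) (map_one _)]
  have hskU : ∀ v : Fin (m + 1) → MonoidAlgebra (ZL p) Γ,
      UK.mulVec (fun i => sk p Γ (v i)) = fun i => sk p Γ (U.mulVec v i) := by
    intro v
    funext i
    exact ((sk p Γ).map_mulVec U v i).symm
  have hTeV : ∀ (x : M') (y : Q) , Te.mulVec (fun i => sk p Γ (CP'.κ (x, y) i)) =
      fun i => Sum.elim (T.mulVec (fun i => sk p Γ (C'.κ x i))) (fun i => sk p Γ (CQ.κ y i))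
        (e.symm i) := by
    intro x y
    change (Matrix.reindex e e _).mulVec _ = _
    rw [Matrix.reindex_apply, Matrix.submatrix_mulVec_equiv, Matrix.fromBlocks_mulVec]
    funext i
    have h1 : ((fun i => sk p Γ (CP'.κ (x, y) i)) ∘ ⇑e.symm.symm) ∘ Sum.inl =
        fun i => sk p Γ (C'.κ x i) := by
      funext i
      change sk p Γ (Sum.elim (C'.κ x) (CQ.κ y) (e.symm (e (Sum.inl i)))) = _
      rw [e.symm_apply_apply]
      rfl
    have h2 : ((fun i => sk p Γ (CP'.κ (x, y) i)) ∘ ⇑e.symm.symm) ∘ Sum.inr =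
        fun i => sk p Γ (CQ.κ y i) := by
      funext i
      change sk p Γ (Sum.elim (C'.κ x) (CQ.κ y) (e.symm (e (Sum.inr i)))) = _
      rw [e.symm_apply_apply]
      rfl
    rw [h1, h2, Matrix.zero_mulVec, Matrix.zero_mulVec, Matrix.one_mulVec, add_zero, zero_add]
    rfl
  -- a point of `M × Q`
  have hPt : ∀ (x : M) (y : Q), UK.mulVec (fun i => Sum.elim (fun i => sk p Γ (C.κ x i))
      (fun i => sk p Γ (CQ.κ y i)) (e.symm i)) = fun i => lk Γ (j (x, y) i) := by
    intro x y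
    have h1 : (fun i => Sum.elim (fun i => sk p Γ (C.κ x i))
        (fun i => sk p Γ (CQ.κ y i)) (e.symm i)) = fun i => sk p Γ (CP.κ (x, y) i) := by
      funext i
      change _ = sk p Γ (Sum.elim (C.κ x) (CQ.κ y) (e.symm i))
      rcases e.symm i with b | b <;> rfl
    rw [h1, hskU]
    funext i
    have h2 := congrFun (hj (x, y)) i
    rw [← skls p Γ]
    exact congrArg _ h2.symm
  let θ : (M' × Q) →+ (Fin (m + 1) → MonoidAlgebra ℚ Γ) :=
    { toFun := fun w => UK.mulVec (Te.mulVec (fun i => sk p Γ (CP'.κ w i)))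
      map_zero' := by
        have h1 : (fun i => sk p Γ (CP'.κ 0 i)) = 0 := by
          funext i
          rw [map_zero]
          exact map_zero _
        rw [h1, Matrix.mulVec_zero, Matrix.mulVec_zero]
      map_add' := by
        intro v w
        have h1 : (fun i => sk p Γ (CP'.κ (v + w) i)) =
            (fun i => sk p Γ (CP'.κ v i)) + fun i => sk p Γ (CP'.κ w i) := by
          funext i
          rw [map_add]
          exact map_add _ _ _
        rw [h1, Matrix.mulVec_add, Matrix.mulVec_add] }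
  have hθ : ∀ w, θ w = UK.mulVec (Te.mulVec (fun i => sk p Γ (CP'.κ w i))) := fun _ => rfl
  have hTT : (UK * Te) * (Te' * UK') = 1 := by
    rw [Matrix.mul_assoc, ← Matrix.mul_assoc Te, hTe, Matrix.one_mul, hUK]
  have hTT' : (Te' * UK') * (UK * Te) = 1 := by
    rw [Matrix.mul_assoc, ← Matrix.mul_assoc UK', hUK', Matrix.one_mul, hTe']
  have hinv : ∀ w, (Te' * UK').mulVec (θ w) = fun i => sk p Γ (CP'.κ w i) := by
    intro w
    rw [hθ, Matrix.mulVec_mulVec, Matrix.mulVec_mulVec, Matrix.mul_assoc (Te' * UK') UK Te, hTT',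
      Matrix.one_mulVec]
  have key := hTPL p Γ hp (M' × Q) m θ
    (by
      intro b w
      rw [hθ, hθ, CP'.smul]
      have h1 : (fun i => sk p Γ ((ls p Γ b • CP'.κ w) i)) =
          lk Γ b • fun i => sk p Γ (CP'.κ w i) := by
        funext i
        change sk p Γ (ls p Γ b * CP'.κ w i) = lk Γ b * sk p Γ (CP'.κ w i)
        rw [map_mul, skls]
      rw [h1, Matrix.mulVec_smul, Matrix.mulVec_smul])
    (by
      intro v w h
      have h1 := hinv v
      rw [h, hinv w] at h1
      apply CP'.inj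
      funext i
      exact sk_inj p Γ (congrFun h1.symm i))
    (by
      rintro ⟨x, y⟩
      obtain ⟨k, x', hx'⟩ := i1 x
      refine ⟨k, j (x', (p ^ k : ℕ) • y), ?_⟩
      rw [← hPt, hθ, hTeV, ← Matrix.mulVec_smul]
      congr 1
      funext i
      rw [Pi.smul_apply]
      have h1 : ∀ i, sk p Γ (CQ.κ ((p ^ k : ℕ) • y) i) = ((p : ℚ) ^ k) • sk p Γ (CQ.κ y i) := by
        intro i
        rw [map_nsmul, Pi.smul_apply, map_nsmul, ← Nat.cast_smul_eq_nsmul ℚ, Nat.cast_pow]
      rcases e.symm i with b | b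
      · exact congrFun hx' b
      · exact (h1 b).symm)
    (by
      intro z
      obtain ⟨⟨x, y⟩, rfl⟩ := j.surjective z
      obtain ⟨k, x', hx'⟩ := i2 x
      refine ⟨k, (x', (p ^ k : ℕ) • y), ?_⟩
      rw [← hPt, hθ, hTeV, ← Matrix.mulVec_smul]
      congr 1
      funext i
      rw [Pi.smul_apply]
      have h1 : ∀ i, sk p Γ (CQ.κ ((p ^ k : ℕ) • y) i) = ((p : ℚ) ^ k) • sk p Γ (CQ.κ y i) := by
        intro i
        rw [map_nsmul, Pi.smul_apply, map_nsmul, ← Nat.cast_smul_eq_nsmul ℚ, Nat.cast_pow]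
      rcases e.symm i with b | b
      · exact congrFun hx' b
      · exact h1 b)
    (UK * Te) (Te' * UK') hTT hTT'
    (fun w => ⟨CP'.κ w, hinv w⟩)
    (by
      intro w
      obtain ⟨s, hs, x, hx⟩ := CP'.dense w
      refine ⟨s, hs, x, ?_⟩
      rw [hθ, Matrix.mulVec_mulVec, ← Matrix.mulVec_smul]
      congr 1
      funext i
      rw [hx, Pi.smul_apply, Pi.smul_apply, map_zsmul, ← Int.cast_smul_eq_zsmul ℚ])
    a ha0 ha (U.det * u)
    (by
      refine IsUnit.mul ?_ hu
      exact IsUnit.of_mul_eq_one U'.det (by rw [← Matrix.det_mul, hU, Matrix.det_one]))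
    (by
      have h1 : Te.det = T.det := by
        change (Matrix.reindex e e _).det = _
        rw [Matrix.det_reindex_self, Matrix.det_fromBlocks_zero₂₁, Matrix.det_one, mul_one]
      have h2 : UK.det = sk p Γ U.det := by
        exact ((sk p Γ).map_det U).symm
      rw [Matrix.det_mul, h1, h2, mul_assoc, hdet, map_mul])
  obtain ⟨E⟩ := key
  refine ⟨m, ⟨?_⟩⟩
  exact (LinearEquiv.prodCongr (LinearEquiv.refl _ M') j.symm).trans
    (((LinearEquiv.prodAssoc _ M' M Q).symm.trans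
      ((LinearEquiv.prodCongr (LinearEquiv.prodComm _ M' M) (LinearEquiv.refl _ Q)).trans
        (LinearEquiv.prodAssoc _ M M' Q))).trans
      (LinearEquiv.prodCongr (LinearEquiv.refl _ M) E))

end HSp
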