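import Pool.Agent.Lib.MP_181146_gt.HS.SpecT

/-!
# Project HS, third part, module TRed
-/

set_option autoImplicit false

namespace HSp

theorem sTRed : S_TRed := by
  intro Γ _ _
  have hss : IsSemisimpleRing (MonoidAlgebra ℚ Γ) := by
    have : NeZero (Nat.card Γ : ℚ) :=
      ⟨by exact_mod_cast (Nat.card_pos (α := Γ)).ne'⟩
    infer_instance
  refine ⟨inferInstance, inferInstance, fun g => ?_⟩
  have hq : IsSemisimpleRing (MonoidAlgebra ℚ Γ ⧸ Ideal.span {nrC ℚ g}) :=
    (Ideal.Quotient.mk (Ideal.span {nrC ℚ g})).isSemisimpleRing_of_surjective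
      Ideal.Quotient.mk_surjective
  infer_instance

end HSp
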