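import Pool.Agent.Lib.MP_181146_gt.HS.SpecT

/-!
# Project HS, third part: ring facts for `t = g - 1` and the norm element of `g`
-/

set_option autoImplicit false

namespace HSp

section TRgAux

variable {A : Type} [CommRing A] {Γ : Type} [CommGroup Γ]

/-- `t N_g = 0`. -/
private lemma TRg_tN (g : Γ) : (MonoidAlgebra.of A Γ g - 1) * nrC A g = 0 := by
  unfold nrC
  rw [mul_geom_sum, ← map_pow, pow_orderOf_eq_one, map_one, sub_self]

/-- `n - N_g` is a multiple of `t`. -/
private lemma TRg_s (g : Γ) :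
    ∃ s : MonoidAlgebra A Γ, (MonoidAlgebra.of A Γ g - 1) * s = (orderOf g : A) • 1 - nrC A g := by
  refine ⟨-∑ i ∈ Finset.range (orderOf g), ∑ j ∈ Finset.range i, MonoidAlgebra.of A Γ g ^ j, ?_⟩
  rw [mul_neg, Finset.mul_sum]
  simp only [mul_geom_sum]
  rw [Finset.sum_sub_distrib]
  unfold nrC
  simp only [Finset.sum_const, Finset.card_range]
  rw [neg_sub]
  congr 1
  rw [Nat.cast_smul_eq_nsmul]

/-- Coefficients of `g^i * x`. -/
private lemma TRg_coeff (g : Γ) (i : ℕ) (x : MonoidAlgebra A Γ) (γ : Γ) :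
    (MonoidAlgebra.of A Γ g ^ i * x).coeff γ = x.coeff ((g ^ i)⁻¹ * γ) := by
  rw [← map_pow, MonoidAlgebra.of_apply, MonoidAlgebra.coeff_single_mul_apply, one_mul]

/-- Coefficients of `N_g * y`. -/
private lemma TRg_coeffN (g : Γ) (y : MonoidAlgebra A Γ) (γ : Γ) :
    (nrC A g * y).coeff γ = ∑ i ∈ Finset.range (orderOf g), y.coeff ((g ^ i)⁻¹ * γ) := by
  unfold nrC
  rw [Finset.sum_mul, MonoidAlgebra.coeff_sum, Finsupp.finsetSum_apply]
  exact Finset.sum_congr rfl fun i _ => TRg_coeff g i y γ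

/-- `t x = 0` implies that `x` is a multiple of the norm element. -/
private lemma TRg_ex [Finite Γ] (g : Γ) (x : MonoidAlgebra A Γ)
    (hx : (MonoidAlgebra.of A Γ g - 1) * x = 0) : ∃ y, x = nrC A g * y := by
  classical
  have h1 : MonoidAlgebra.of A Γ g * x = x := by
    have : MonoidAlgebra.of A Γ g * x - x = 0 := by
      rw [← hx]
      ring
    exact sub_eq_zero.1 this
  have h2 : ∀ i : ℕ, MonoidAlgebra.of A Γ g ^ i * x = x := by
    intro i
    induction i with
    | zero => simp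
    | succ i ih => rw [pow_succ, mul_assoc, h1, ih]
  have h3 : ∀ (i : ℕ) (γ : Γ), x.coeff ((g ^ i)⁻¹ * γ) = x.coeff γ := by
    intro i γ
    rw [← TRg_coeff, h2]
  -- the representative of a coset
  let rep : Γ → Γ := fun γ => (QuotientGroup.mk γ : Γ ⧸ Subgroup.zpowers g).out
  have hrep : ∀ γ δ : Γ, γ⁻¹ * δ ∈ Subgroup.zpowers g → rep γ = rep δ := by
    intro γ δ h
    have : (QuotientGroup.mk γ : Γ ⧸ Subgroup.zpowers g) = QuotientGroup.mk δ :=
      QuotientGroup.eq.2 h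
    change Quotient.out _ = Quotient.out _
    rw [this]
  have hrep2 : ∀ γ : Γ, γ⁻¹ * rep γ ∈ Subgroup.zpowers g := by
    intro γ
    have : (QuotientGroup.mk γ : Γ ⧸ Subgroup.zpowers g) = QuotientGroup.mk (rep γ) :=
      (Quotient.out_eq _).symm
    exact QuotientGroup.eq.1 this
  refine ⟨MonoidAlgebra.ofCoeff (Finsupp.ofSupportFinite
    (fun γ => if γ = rep γ then x.coeff γ else 0) (Set.toFinite _)), ?_⟩
  ext γ
  rw [TRg_coeffN]
  have hmem : (rep γ)⁻¹ * γ ∈ Subgroup.zpowers g := by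
    have := Subgroup.inv_mem _ (hrep2 γ)
    rwa [mul_inv_rev, inv_inv] at this
  obtain ⟨i0, hi0, hi1⟩ : ∃ i0 < orderOf g, g ^ i0 = (rep γ)⁻¹ * γ := by
    rw [← mem_powers_iff_mem_zpowers, mem_powers_iff_mem_range_orderOf] at hmem
    obtain ⟨i0, h, h'⟩ := Finset.mem_image.1 hmem
    exact ⟨i0, Finset.mem_range.1 h, h'⟩
  have key : ∀ i : ℕ, (Finsupp.ofSupportFinite
      (fun γ => if γ = rep γ then x.coeff γ else 0) (Set.toFinite _) : Γ →₀ A)
        ((g ^ i)⁻¹ * γ) = if (g ^ i)⁻¹ * γ = rep γ then x.coeff γ else 0 := by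
    intro i
    have hr : rep ((g ^ i)⁻¹ * γ) = rep γ := by
      refine hrep _ _ ?_
      have : ((g ^ i)⁻¹ * γ)⁻¹ * γ = g ^ i := by
        rw [mul_inv_rev, inv_inv, mul_comm γ⁻¹, mul_assoc, inv_mul_cancel, mul_one]
      rw [this]
      exact Subgroup.npow_mem_zpowers g i
    change (if (g ^ i)⁻¹ * γ = rep ((g ^ i)⁻¹ * γ) then x.coeff ((g ^ i)⁻¹ * γ) else 0) = _
    rw [hr, h3]
  rw [MonoidAlgebra.coeff_ofCoeff, Finset.sum_congr rfl fun i _ => key i]
  rw [Finset.sum_eq_single i0]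
  · rw [if_pos]
    rw [hi1, mul_inv_rev, inv_inv, mul_comm γ⁻¹, mul_assoc, inv_mul_cancel, mul_one]
  · intro i hi hne
    rw [if_neg]
    intro h
    apply hne
    have h5 : g ^ i = g ^ i0 := by
      rw [hi1, ← h, mul_inv_rev, inv_inv, mul_comm γ⁻¹, mul_assoc, inv_mul_cancel, mul_one]
    exact pow_injOn_Iio_orderOf (Finset.mem_range.1 hi) hi0 h5
  · intro h
    exact absurd (Finset.mem_range.2 hi0) h

/-- `N_g N_g = n N_g`. -/
private lemma TRg_NN (g : Γ) : nrC A g * nrC A g = (orderOf g : A) • nrC A g := by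
  obtain ⟨s, hs⟩ := TRg_s (A := A) g
  have h : nrC A g = (orderOf g : A) • 1 - (MonoidAlgebra.of A Γ g - 1) * s := by
    rw [hs, sub_sub_cancel]
  calc nrC A g * nrC A g = ((orderOf g : A) • 1 - (MonoidAlgebra.of A Γ g - 1) * s) * nrC A g := by
        rw [← h]
    _ = (orderOf g : A) • nrC A g - s * ((MonoidAlgebra.of A Γ g - 1) * nrC A g) := by
        rw [sub_mul, smul_mul_assoc, one_mul]
        ring
    _ = _ := by rw [TRg_tN, mul_zero, sub_zero]

end TRgAux

theorem sTRg : S_TRg := by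
  intro p hp Γ _ _ g
  refine ⟨fun x hx => TRg_ex g x hx, ?_, TRg_tN g, TRg_tN g, TRg_s g, ?_, ?_⟩
  · intro x y h
    have h1 : nrC (ZL p) g * (nrC (ZL p) g * y) = 0 := by
      rw [← h, ← mul_assoc, mul_comm (nrC (ZL p) g), TRg_tN, zero_mul]
    rw [← mul_assoc, TRg_NN, smul_mul_assoc] at h1
    rw [h]
    have hn : (orderOf g : ZL p) ≠ 0 := by
      have := (orderOf_pos g).ne'
      exact_mod_cast this
    ext γ
    have h2 := congrArg (fun z : MonoidAlgebra (ZL p) Γ => z.coeff γ) h1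
    simp only [MonoidAlgebra.coeff_smul, Finsupp.smul_apply, smul_eq_mul, MonoidAlgebra.coeff_zero,
      Finsupp.zero_apply] at h2
    have h3 := (mul_eq_zero.1 h2).resolve_left hn
    rw [h3]
    simp
  · unfold nrC sk
    rw [map_sum]
    refine Finset.sum_congr rfl fun i _ => ?_
    rw [map_pow]
    congr 1
    simp [MonoidAlgebra.of_apply]
  · intro x y h
    ext γ
    have h1 := congrArg (fun z : MonoidAlgebra ℚ Γ => z.coeff γ) h
    unfold sk at h1
    simp only [MonoidAlgebra.coeff_mapRingHom] at h1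
    exact congrArg Subtype.val (Subtype.ext h1)

end HSp
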