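import Pool.Agent.Lib.MP_181146_gt.HS.SpecT
set_option autoImplicit false

/-!
MP_181146_gt, project HS, module TRst: the kernel complex (helper9).
-/

namespace HSp

namespace TRstAux

variable {B Rb : Type} [CommRing B] [CommRing Rb]

theorem map_mv (ρ : B →+* Rb) {m n : ℕ} (M : Matrix (Fin m) (Fin n) B) (v : Fin n → B) :
    (fun a => ρ ((M.mulVec v) a)) = (M.map ρ).mulVec (fun a => ρ (v a)) := by
  funext a
  simp only [Matrix.mulVec, dotProduct, Matrix.map_apply, map_sum, map_mul]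

/-- the diagonal matrix with t at the places a < g -/
def Dt (B : Type) [CommRing B] (t s : B) (n g : ℕ) : Matrix (Fin n) (Fin n) B :=
  Matrix.diagonal (fun a : Fin n => if (a : ℕ) < g then t else s)

theorem Dt_mv (t s : B) (n g : ℕ) (v : Fin n → B) (a : Fin n) :
    (Dt B t s n g).mulVec v a = (if (a : ℕ) < g then t else s) * v a := by
  unfold Dt
  rw [Matrix.mulVec_diagonal]

/-- the image of `A diag(t, 1)` -/
theorem image_iff (ρ : B →+* Rb) (t : B) (hρt : ρ t = 0) (hker : ∀ x, ρ x = 0 → ∃ y, x = t * y)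
    {n g : ℕ} (e : Matrix (Fin n) (Fin n) Rb) (A A' : Matrix (Fin n) (Fin n) B) (hA : A * A' = 1)
    (hA' : A' * A = 1) (hAe : e * A.map ρ = A.map ρ * Dt Rb 1 0 n g) (x : Fin n → B) :
    e.mulVec (fun a => ρ (x a)) = 0 ↔ ∃ z, x = (A * Dt B t 1 n g).mulVec z := by
  have hmap : A'.map ρ * A.map ρ = 1 := by
    rw [← Matrix.map_mul, hA', Matrix.map_one _ (map_zero ρ) (map_one ρ)]
  constructor
  · intro h
    set y := A'.mulVec x with hy
    have hxy : x = A.mulVec y := by rw [hy, Matrix.mulVec_mulVec, hA, Matrix.one_mulVec]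
    have h1 : (A.map ρ).mulVec ((Dt Rb 1 0 n g).mulVec (fun a => ρ (y a))) = 0 := by
      rw [Matrix.mulVec_mulVec, ← hAe, ← Matrix.mulVec_mulVec, ← map_mv, ← hxy]
      exact h
    have h2 : (Dt Rb 1 0 n g).mulVec (fun a => ρ (y a)) = 0 := by
      have h3 := congrArg (A'.map ρ).mulVec h1
      rwa [Matrix.mulVec_mulVec, hmap, Matrix.one_mulVec, Matrix.mulVec_zero] at h3
    have h4 : ∀ a : Fin n, (a : ℕ) < g → ∃ w, y a = t * w := by
      intro a ha
      apply hker
      have h5 := congrFun h2 a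
      rw [Dt_mv, if_pos ha, one_mul] at h5
      exact h5
    classical
    choose! w hw using h4
    refine ⟨fun a => if (a : ℕ) < g then w a else y a, ?_⟩
    rw [← Matrix.mulVec_mulVec, hxy]
    congr 1
    funext a
    rw [Dt_mv]
    by_cases ha : (a : ℕ) < g
    · rw [if_pos ha, if_pos ha]
      exact hw a ha
    · rw [if_neg ha, if_neg ha, one_mul]
  · rintro ⟨z, rfl⟩
    rw [← Matrix.mulVec_mulVec, map_mv, Matrix.mulVec_mulVec, hAe, ← Matrix.mulVec_mulVec]
    have h : (Dt Rb 1 0 n g).mulVec (fun a => ρ ((Dt B t 1 n g).mulVec z a)) = 0 := by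
      funext a
      rw [Dt_mv, Dt_mv]
      by_cases ha : (a : ℕ) < g
      · rw [if_pos ha, if_pos ha, map_mul, hρt]
        simp
      · rw [if_neg ha, zero_mul]
        rfl
    rw [h, Matrix.mulVec_zero]

theorem inj_iota (t : B) (ht : ∀ x, t * x = 0 → x = 0) {n g : ℕ} (A A' : Matrix (Fin n) (Fin n) B)
    (hA' : A' * A = 1) (z : Fin n → B) (h : (A * Dt B t 1 n g).mulVec z = 0) : z = 0 := by
  have h1 := congrArg A'.mulVec h
  rw [Matrix.mulVec_mulVec, ← Matrix.mul_assoc, hA', Matrix.one_mul, Matrix.mulVec_zero] at h1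
  funext a
  have h2 := congrFun h1 a
  rw [Dt_mv] at h2
  by_cases ha : (a : ℕ) < g
  · rw [if_pos ha] at h2
    exact ht _ h2
  · rwa [if_neg ha, one_mul] at h2

end TRstAux

open TRstAux in
theorem sTRst : S_TRst := by
  intro B Rb _ _ ρ t ht hρt hker r g hr0 d dd e idem chain onto inj A A' hA hA' hAe
  set ι : ∀ i, Matrix (Fin (r i)) (Fin (r i)) B := fun i => A i * Dt B t 1 (r i) (g i) with hι
  have him : ∀ i (x : Fin (r i) → B), (e i).mulVec (fun a => ρ (x a)) = 0 ↔
      ∃ z, x = (ι i).mulVec z := fun i x =>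
    image_iff ρ t hρt hker (e i) (A i) (A' i) (hA i) (hA' i) (hAe i) x
  have hin : ∀ i (z : Fin (r i) → B), (ι i).mulVec z = 0 → z = 0 := fun i z h =>
    inj_iota t ht (A i) (A' i) (hA' i) z h
  have hex : ∀ i (z : Fin (r (i + 1)) → B), ∃ w, (d i).mulVec ((ι (i + 1)).mulVec z) = (ι i).mulVec w := by
    intro i z
    rw [← him i]
    rw [map_mv, Matrix.mulVec_mulVec, ← chain i, ← Matrix.mulVec_mulVec,
      (him (i + 1) _).2 ⟨z, rfl⟩, Matrix.mulVec_zero]
  choose Z hZ using fun i (b : Fin (r (i + 1))) => hex i (Pi.single b 1)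
  set dZ : ∀ i, Matrix (Fin (r i)) (Fin (r (i + 1))) B := fun i => Matrix.of fun a b => Z i b a with hdZ
  have h1 : ∀ i, ι i * dZ i = d i * ι (i + 1) := by
    intro i
    ext a b
    have h2 := congrFun (hZ i b) a
    rw [Matrix.mulVec_mulVec, Matrix.mulVec_single_one] at h2
    exact h2.symm
  have hmz : ∀ i (m : ℕ) (M : Matrix (Fin (r i)) (Fin m) B), ι i * M = 0 → M = 0 := by
    intro i m M hM
    ext a b
    have h3 := hin i (M.mulVec (Pi.single b 1)) (by
      rw [Matrix.mulVec_mulVec, hM, Matrix.zero_mulVec])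
    have h4 := congrFun h3 a
    rw [Matrix.mulVec_single_one] at h4
    exact h4
  refine ⟨dZ, h1, fun i => ?_, ?_⟩
  · apply hmz
    rw [← Matrix.mul_assoc, h1, Matrix.mul_assoc, h1, ← Matrix.mul_assoc, dd, Matrix.zero_mul]
  · intro i x hx
    have hX : (d i).mulVec ((ι (i + 1)).mulVec x) = 0 := by
      rw [Matrix.mulVec_mulVec, ← h1, ← Matrix.mulVec_mulVec, hx, Matrix.mulVec_zero]
    obtain ⟨u, hu⟩ := inj i _ hX ((him (i + 1) _).2 ⟨x, rfl⟩)
    obtain ⟨x', hx'1, hx'2⟩ := onto (i + 1) ((e (i + 1 + 1)).mulVec (fun a => ρ (u a)))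
      (by rw [Matrix.mulVec_mulVec, idem])
      (by
        rw [Matrix.mulVec_mulVec, chain (i + 1), ← Matrix.mulVec_mulVec, ← map_mv, ← hu]
        exact (him (i + 1) _).2 ⟨x, rfl⟩)
    obtain ⟨z', hz'⟩ := (him (i + 1 + 1) (u - x')).1 (by
      have h5 : (fun a => ρ ((u - x') a)) = (fun a => ρ (u a)) - (fun a => ρ (x' a)) := by
        funext a
        simp
      rw [h5, Matrix.mulVec_sub, hx'2, sub_self])
    refine ⟨z', ?_⟩
    have h8 : (ι (i + 1)).mulVec ((dZ (i + 1)).mulVec z') = (d (i + 1)).mulVec u := by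
      rw [Matrix.mulVec_mulVec, h1 (i + 1), ← Matrix.mulVec_mulVec z' (d (i + 1)) (ι (i + 1 + 1)), ← hz',
        Matrix.mulVec_sub, hx'1, sub_zero]
    have h6 : (ι (i + 1)).mulVec (x - (dZ (i + 1)).mulVec z') = 0 := by
      rw [Matrix.mulVec_sub, h8, hu, sub_self]
    have h7 := hin (i + 1) _ h6
    exact (sub_eq_zero.1 h7).symm

end HSp
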