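import Pool.Agent.Lib.MP_181146_gt.HS.SpecT

set_option autoImplicit false

namespace HSp

private theorem tsa_lk_eq (p : ℕ) [hp : Fact p.Prime] {Γ : Type} [Group Γ]
    (x : MonoidAlgebra ℤ Γ) : lk Γ x = sk p Γ (ls p Γ x) := by
  have h : lk Γ = (sk p Γ).comp (ls p Γ) := by
    unfold lk sk ls
    rw [← MonoidAlgebra.mapRingHom_comp]
    congr 1
  rw [h]
  rfl

private theorem tsa_lk_zsmul {Γ : Type} [Group Γ] (n : ℤ) (z : MonoidAlgebra ℤ Γ) :
    lk Γ (n • z) = (n : ℚ) • lk Γ z := by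
  rw [map_zsmul, Int.cast_smul_eq_zsmul]

/-- The subring `ℤ[1/p][Γ]`. -/
private noncomputable def RL (p : ℕ) (Γ : Type) [CommGroup Γ] :
    Subring (MonoidAlgebra ℚ Γ) where
  carrier := {x | ∃ (j : ℕ) (z : MonoidAlgebra ℤ Γ), ((p : ℚ) ^ j) • x = lk Γ z}
  mul_mem' := by
    rintro x y ⟨j, z, h⟩ ⟨j', z', h'⟩
    refine ⟨j + j', z * z', ?_⟩
    rw [pow_add, map_mul, ← h, ← h', smul_mul_smul_comm]
  one_mem' := ⟨0, 1, by rw [pow_zero, one_smul, map_one]⟩
  add_mem' := by
    rintro x y ⟨j, z, h⟩ ⟨j', z', h'⟩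
    refine ⟨j + j', ((p : ℤ) ^ j') • z + ((p : ℤ) ^ j) • z', ?_⟩
    rw [map_add, tsa_lk_zsmul, tsa_lk_zsmul, ← h, ← h']
    push_cast
    module
  zero_mem' := ⟨0, 0, by rw [smul_zero, map_zero]⟩
  neg_mem' := by
    rintro x ⟨j, z, h⟩
    exact ⟨j, -z, by rw [smul_neg, map_neg, h]⟩

private theorem tsa_mem_RL {p : ℕ} {Γ : Type} [CommGroup Γ] {x : MonoidAlgebra ℚ Γ} :
    x ∈ RL p Γ ↔ ∃ (j : ℕ) (z : MonoidAlgebra ℤ Γ), ((p : ℚ) ^ j) • x = lk Γ z := Iff.rfl

private theorem tsa_rat (p : ℕ) [hp : Fact p.Prime] {a : ℕ} (ha : a.Coprime p) (M : ℕ) (q : ℚ) :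
    ∃ (e : ℕ) (w : ℤ) (s : ZL p), q = (a : ℚ) * (w / (p : ℚ) ^ e) + (p : ℚ) ^ M * (s : ℚ) := by
  obtain ⟨e, b, hb, hden⟩ := Nat.exists_eq_pow_mul_and_not_dvd q.den_nz p hp.out.ne_one
  have hbp : b.Coprime p := ((Nat.Prime.coprime_iff_not_dvd hp.out).2 hb).symm
  have hco : IsCoprime ((a * b : ℕ) : ℤ) (((p : ℕ) ^ (e + M) : ℕ) : ℤ) := by
    rw [Nat.isCoprime_iff_coprime]
    exact Nat.Coprime.pow_right _ (Nat.Coprime.mul_left ha hbp)
  obtain ⟨u, v, huv⟩ := hco
  have hp0 : (p : ℚ) ≠ 0 := by exact_mod_cast hp.out.ne_zero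
  have hb0 : (b : ℚ) ≠ 0 := by
    have : b ≠ 0 := fun h => hb (h ▸ dvd_zero p)
    exact_mod_cast this
  have hs : (q.num * v : ℚ) / b ∈ ZL p := by
    refine ⟨b, q.num * v, fun h => hb (by exact_mod_cast h), ?_⟩
    push_cast
    field_simp
  refine ⟨e, q.num * u, ⟨(q.num * v : ℚ) / b, hs⟩, ?_⟩
  have hq : q = (q.num : ℚ) / ((p : ℚ) ^ e * b) := by
    have h1 := Rat.num_div_den q
    rw [hden] at h1
    push_cast at h1
    exact h1.symm
  have huv' : (u : ℚ) * (a * b) + v * (p : ℚ) ^ (e + M) = 1 := by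
    have h1 : ((u * ((a * b : ℕ) : ℤ) + v * (((p : ℕ) ^ (e + M) : ℕ) : ℤ) : ℤ) : ℚ) = 1 := by
      rw [huv]
      norm_num
    push_cast at h1
    exact h1
  have hgoal : (q.num : ℚ) / ((p : ℚ) ^ e * b) =
      (a : ℚ) * (((q.num * u : ℤ) : ℚ) / (p : ℚ) ^ e) +
        (p : ℚ) ^ M * ((q.num * v : ℚ) / b) := by
    push_cast
    field_simp
    rw [pow_add] at huv'
    linear_combination (-(q.num : ℚ)) * huv'
  calc q = (q.num : ℚ) / ((p : ℚ) ^ e * b) := hq
    _ = _ := hgoal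

private theorem tsa_approx (p : ℕ) [hp : Fact p.Prime] {Γ : Type} [CommGroup Γ] {a : ℕ}
    (ha : a.Coprime p) (M : ℕ) (x : MonoidAlgebra ℚ Γ) :
    ∃ (y : MonoidAlgebra ℚ Γ) (s : MonoidAlgebra (ZL p) Γ), y ∈ RL p Γ ∧
      x = (a : ℚ) • y + ((p : ℚ) ^ M) • sk p Γ s := by
  induction x using MonoidAlgebra.induction_linear with
  | zero => exact ⟨0, 0, Subring.zero_mem _, by rw [map_zero, smul_zero, smul_zero, add_zero]⟩
  | add x y hx hy =>
    obtain ⟨y1, s1, h1, e1⟩ := hx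
    obtain ⟨y2, s2, h2, e2⟩ := hy
    refine ⟨y1 + y2, s1 + s2, Subring.add_mem _ h1 h2, ?_⟩
    rw [map_add, e1, e2]
    module
  | single m r =>
    obtain ⟨e, w, s, h⟩ := tsa_rat p ha M r
    have hp0 : (p : ℚ) ≠ 0 := by exact_mod_cast hp.out.ne_zero
    refine ⟨MonoidAlgebra.single m (w / (p : ℚ) ^ e), MonoidAlgebra.single m s, ?_, ?_⟩
    · rw [tsa_mem_RL]
      refine ⟨e, MonoidAlgebra.single m w, ?_⟩
      unfold lk
      rw [MonoidAlgebra.mapRingHom_single, MonoidAlgebra.smul_single]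
      congr 1
      rw [smul_eq_mul, mul_div_cancel₀ _ (pow_ne_zero _ hp0)]
      rfl
    · unfold sk
      rw [MonoidAlgebra.mapRingHom_single, MonoidAlgebra.smul_single, MonoidAlgebra.smul_single,
        ← MonoidAlgebra.single_add]
      congr 1

private theorem tsa_fam (p : ℕ) {Γ : Type} [CommGroup Γ] {ι : Type} [Fintype ι]
    (f : ι → MonoidAlgebra ℚ Γ) (hf : ∀ i, f i ∈ RL p Γ) :
    ∃ M : ℕ, ∀ i, ∃ z : MonoidAlgebra ℤ Γ, ((p : ℚ) ^ M) • f i = lk Γ z := by
  choose j z h using hf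
  refine ⟨∑ i, j i, fun i => ⟨((p : ℤ) ^ (∑ i, j i - j i)) • z i, ?_⟩⟩
  have hle : j i ≤ ∑ i, j i := Finset.single_le_sum (fun _ _ => Nat.zero_le _) (Finset.mem_univ i)
  rw [tsa_lk_zsmul, ← h i, smul_smul]
  push_cast
  rw [← pow_add, Nat.sub_add_cancel hle]

private theorem tsa_mul {K : Type} [CommRing K] (R : Subring K) {m : ℕ}
    {A B : Matrix (Fin m) (Fin m) K} (hA : ∀ i j, A i j ∈ R) (hB : ∀ i j, B i j ∈ R) (i j : Fin m) :
    (A * B) i j ∈ R := by
  rw [Matrix.mul_apply]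
  exact Subring.sum_mem _ fun k _ => Subring.mul_mem _ (hA i k) (hB k j)

private theorem tsa_tv {K : Type} [CommRing K] (R : Subring K) {m : ℕ} {c : K} (hc : c ∈ R)
    (i j a b : Fin m) : Matrix.transvection i j c a b ∈ R := by
  unfold Matrix.transvection
  rw [Matrix.add_apply]
  refine Subring.add_mem _ ?_ ?_
  · rw [Matrix.one_apply]
    split_ifs
    · exact Subring.one_mem _
    · exact Subring.zero_mem _
  · rw [Matrix.single_apply]
    split_ifs
    · exact hc
    · exact Subring.zero_mem _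

private theorem tsa_omA (p : ℕ) {Γ : Type} [CommGroup Γ] (a : ℕ) {m : ℕ}
    {v : Fin m → MonoidAlgebra ℚ Γ} (hv : OmA p Γ a v) {w : MonoidAlgebra ℚ Γ} (hw : w ∈ RL p Γ)
    (i j : Fin m) : OmA p Γ a ((Matrix.transvection i j ((a : ℚ) • w)).mulVec v) := by
  intro i'
  unfold Matrix.transvection
  rw [Matrix.add_mulVec, Matrix.one_mulVec, Matrix.single_mulVec, Pi.add_apply]
  by_cases h : i' = i
  · subst h
    rw [Function.update_self]
    obtain ⟨j1, z1, h1, d1⟩ := hv i'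
    obtain ⟨j2, z2, h2, _⟩ := hv j
    obtain ⟨j3, z3, h3⟩ := tsa_mem_RL.1 hw
    refine ⟨j1 + j2 + j3, ((p : ℤ) ^ (j2 + j3)) • z1 + ((a : ℤ) * (p : ℤ) ^ j1) • (z3 * z2), ?_,
      fun hi => ?_⟩
    · rw [map_add, tsa_lk_zsmul, tsa_lk_zsmul, map_mul, ← h1, ← h2, ← h3, smul_mul_smul_comm,
        smul_mul_assoc]
      push_cast
      module
    · rw [map_add, map_zsmul, map_zsmul, smul_eq_mul, smul_eq_mul, mul_assoc (a : ℤ)]
      exact dvd_add (dvd_mul_of_dvd_right (d1 hi) _) (dvd_mul_right _ _)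
  · rw [Function.update_of_ne h, Pi.zero_apply, add_zero]
    exact hv i'

theorem sTSA : S_TSA := by
  intro p hp Γ _ _ a ha m l
  suffices H : ∃ E E' k k' : Matrix (Fin m) (Fin m) (MonoidAlgebra ℚ Γ),
      (l.map Matrix.TransvectionStruct.toMatrix).prod = E * k ∧ E * E' = 1 ∧ E' * E = 1 ∧
      k * k' = 1 ∧ k' * k = 1 ∧
      (∀ i j, k i j ∈ (sk p Γ).range) ∧ (∀ i j, k' i j ∈ (sk p Γ).range) ∧
      (∀ i j, E i j ∈ RL p Γ) ∧ (∀ i j, E' i j ∈ RL p Γ) ∧
      (∀ y, OmA p Γ a y → OmA p Γ a (E.mulVec y)) ∧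
      (∀ y, OmA p Γ a y → OmA p Γ a (E'.mulVec y)) by
    obtain ⟨E, E', k, k', h1, h2, h3, h4, h5, h6, h7, _, _, h8, h9⟩ := H
    refine ⟨E, E', k, k', h1, h2, h3, h4, h5, fun i j => ?_, fun i j => ?_, h8, h9⟩
    · obtain ⟨s, hs⟩ := h6 i j
      exact ⟨s, hs.symm⟩
    · obtain ⟨s, hs⟩ := h7 i j
      exact ⟨s, hs.symm⟩
  induction l with
  | nil =>
    refine ⟨1, 1, 1, 1, by simp, one_mul 1, one_mul 1, one_mul 1, one_mul 1, ?_, ?_, ?_, ?_, ?_, ?_⟩
    · intro i j
      rw [Matrix.one_apply]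
      split_ifs
      · exact Subring.one_mem _
      · exact Subring.zero_mem _
    · intro i j
      rw [Matrix.one_apply]
      split_ifs
      · exact Subring.one_mem _
      · exact Subring.zero_mem _
    · intro i j
      rw [Matrix.one_apply]
      split_ifs
      · exact Subring.one_mem _
      · exact Subring.zero_mem _
    · intro i j
      rw [Matrix.one_apply]
      split_ifs
      · exact Subring.one_mem _
      · exact Subring.zero_mem _
    · intro y hy
      rwa [Matrix.one_mulVec]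
    · intro y hy
      rwa [Matrix.one_mulVec]
  | cons τ l ih =>
    obtain ⟨E, E', k, k', h1, h2, h3, h4, h5, h6, h7, h8, h9, h10, h11⟩ := ih
    obtain ⟨i, j, hij, c⟩ := τ
    have hN : ∀ q : Fin m × Fin m, (E' * Matrix.single i j (1 : MonoidAlgebra ℚ Γ) * E :
        Matrix (Fin m) (Fin m) (MonoidAlgebra ℚ Γ)) q.1 q.2 ∈ RL p Γ := by
      intro q
      refine tsa_mul _ (fun x y => tsa_mul _ h9 (fun x y => ?_) x y) h8 q.1 q.2
      rw [Matrix.single_apply]
      split_ifs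
      · exact Subring.one_mem _
      · exact Subring.zero_mem _
    obtain ⟨M, hM⟩ := tsa_fam p _ hN
    obtain ⟨y, s, hy, hc⟩ := tsa_approx p ha M c
    set z : MonoidAlgebra ℚ Γ := ((p : ℚ) ^ M) • sk p Γ s with hz
    have tt : ∀ b b' : MonoidAlgebra ℚ Γ, Matrix.transvection i j b * Matrix.transvection i j b' =
        Matrix.transvection i j (b + b') := Matrix.transvection_mul_transvection_same i j hij
    have t0 : ∀ b : MonoidAlgebra ℚ Γ,
        Matrix.transvection i j b * Matrix.transvection i j (-b) = 1 := fun b => by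
      rw [tt, add_neg_cancel, Matrix.transvection_zero]
    have t0' : ∀ b : MonoidAlgebra ℚ Γ,
        Matrix.transvection i j (-b) * Matrix.transvection i j b = 1 := fun b => by
      rw [tt, neg_add_cancel, Matrix.transvection_zero]
    have hcz : ∀ b : MonoidAlgebra ℚ Γ, (∃ s' : MonoidAlgebra (ZL p) Γ,
        b = ((p : ℚ) ^ M) • sk p Γ s') →
        ∀ x w, (E' * Matrix.transvection i j b * E) x w ∈ (sk p Γ).range := by
      rintro b ⟨s', rfl⟩ x w
      have e1 : E' * Matrix.transvection i j (((p : ℚ) ^ M) • sk p Γ s') * E =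
          1 + (((p : ℚ) ^ M) • sk p Γ s') • (E' * Matrix.single i j 1 * E) := by
        unfold Matrix.transvection
        have e2 : Matrix.single i j (((p : ℚ) ^ M) • sk p Γ s') =
            (((p : ℚ) ^ M) • sk p Γ s') • Matrix.single i j (1 : MonoidAlgebra ℚ Γ) := by
          rw [Matrix.smul_single, smul_eq_mul, mul_one]
        rw [e2, Matrix.mul_add, Matrix.mul_one, Matrix.add_mul, h3, Matrix.mul_smul,
          Matrix.smul_mul]
      rw [e1, Matrix.add_apply, Matrix.smul_apply]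
      refine Subring.add_mem _ ?_ ?_
      · rw [Matrix.one_apply]
        split_ifs
        · exact Subring.one_mem _
        · exact Subring.zero_mem _
      · obtain ⟨z', hz'⟩ := hM (x, w)
        rw [smul_eq_mul, smul_mul_assoc, ← mul_smul_comm, hz', tsa_lk_eq p]
        exact Subring.mul_mem _ ⟨s', rfl⟩ ⟨_, rfl⟩
    have hay : ((a : ℚ) • y) ∈ RL p Γ := by
      obtain ⟨j', z', h'⟩ := tsa_mem_RL.1 hy
      refine tsa_mem_RL.2 ⟨j', (a : ℤ) • z', ?_⟩
      rw [tsa_lk_zsmul, ← h']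
      push_cast
      module
    refine ⟨Matrix.transvection i j ((a : ℚ) • y) * E,
      E' * Matrix.transvection i j (-((a : ℚ) • y)),
      E' * Matrix.transvection i j z * E * k, k' * (E' * Matrix.transvection i j (-z) * E),
      ?_, ?_, ?_, ?_, ?_, ?_, ?_, ?_, ?_, ?_, ?_⟩
    · rw [List.map_cons, List.prod_cons, h1, Matrix.TransvectionStruct.toMatrix_mk, hc, ← tt]
      have e : E * (E' * Matrix.transvection i j z * E * k) =
          Matrix.transvection i j z * (E * k) := by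
        rw [← Matrix.mul_assoc, ← Matrix.mul_assoc, ← Matrix.mul_assoc, h2, Matrix.one_mul,
          Matrix.mul_assoc]
      rw [Matrix.mul_assoc, Matrix.mul_assoc, e]
    · have e : E * (E' * Matrix.transvection i j (-((a : ℚ) • y))) =
          Matrix.transvection i j (-((a : ℚ) • y)) := by
        rw [← Matrix.mul_assoc, h2, Matrix.one_mul]
      rw [Matrix.mul_assoc, e, t0]
    · have e : Matrix.transvection i j (-((a : ℚ) • y)) *
          (Matrix.transvection i j ((a : ℚ) • y) * E) = E := by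
        rw [← Matrix.mul_assoc, t0', Matrix.one_mul]
      rw [Matrix.mul_assoc, e, h3]
    · have e : k * (k' * (E' * Matrix.transvection i j (-z) * E)) =
          E' * Matrix.transvection i j (-z) * E := by
        rw [← Matrix.mul_assoc, h4, Matrix.one_mul]
      have e' : E * (E' * Matrix.transvection i j (-z) * E) =
          Matrix.transvection i j (-z) * E := by
        rw [← Matrix.mul_assoc, ← Matrix.mul_assoc, h2, Matrix.one_mul]
      have e'' : Matrix.transvection i j z * (Matrix.transvection i j (-z) * E) = E := by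
        rw [← Matrix.mul_assoc, t0, Matrix.one_mul]
      rw [Matrix.mul_assoc, e, Matrix.mul_assoc, e', Matrix.mul_assoc, e'', h3]
    · have e' : E * (E' * Matrix.transvection i j z * E * k) =
          Matrix.transvection i j z * (E * k) := by
        rw [← Matrix.mul_assoc, ← Matrix.mul_assoc, ← Matrix.mul_assoc, h2, Matrix.one_mul,
          Matrix.mul_assoc]
      have e'' : Matrix.transvection i j (-z) * (Matrix.transvection i j z * (E * k)) = E * k := by
        rw [← Matrix.mul_assoc, t0', Matrix.one_mul]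
      rw [Matrix.mul_assoc, Matrix.mul_assoc, e', Matrix.mul_assoc, e'', ← Matrix.mul_assoc E', h3,
        Matrix.one_mul, h5]
    · exact tsa_mul _ (hcz z ⟨s, hz⟩) h6
    · refine tsa_mul _ h7 (hcz (-z) ⟨-s, ?_⟩)
      rw [hz, map_neg, smul_neg]
    · exact tsa_mul _ (tsa_tv _ hay i j) h8
    · exact tsa_mul _ h9 (tsa_tv _ (Subring.neg_mem _ hay) i j)
    · intro v hv
      rw [← Matrix.mulVec_mulVec]
      exact tsa_omA p a (h10 v hv) hy i j
    · intro v hv
      rw [← Matrix.mulVec_mulVec, ← smul_neg]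
      exact h11 _ (tsa_omA p a hv (Subring.neg_mem _ hy) i j)

end HSp
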