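import Pool.Agent.Lib.MP_181146_gt.HS.SpecT

/-!
# Project HS, third part: `SL` over a reduced Artinian ring is generated by transvections
-/

set_option autoImplicit false

namespace HSp

section TSLK

open Matrix

/-- `T` is a product of transvections. -/
private def TSLK_Tv {n R : Type} [Fintype n] [DecidableEq n] [CommRing R]
    (T : Matrix n n R) : Prop :=
  ∃ l : List (TransvectionStruct n R), T = (l.map TransvectionStruct.toMatrix).prod

variable {n R : Type} [Fintype n] [DecidableEq n] [CommRing R]

private lemma TSLK_one : TSLK_Tv (1 : Matrix n n R) := ⟨[], rfl⟩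

private lemma TSLK_mul {A B : Matrix n n R} (hA : TSLK_Tv A) (hB : TSLK_Tv B) :
    TSLK_Tv (A * B) := by
  obtain ⟨l, rfl⟩ := hA
  obtain ⟨l', rfl⟩ := hB
  exact ⟨l ++ l', by rw [List.map_append, List.prod_append]⟩

private lemma TSLK_tr (i j : n) (h : i ≠ j) (c : R) : TSLK_Tv (transvection i j c) :=
  ⟨[⟨i, j, h, c⟩], by
    rw [List.map_cons, List.map_nil, List.prod_cons, List.prod_nil, mul_one]
    rfl⟩

private lemma TSLK_diag {F : Type} [Field F] (i j : n) (hij : i ≠ j) (u : F) (hu : u ≠ 0) :
    TSLK_Tv (diagonal (Pi.mulSingle i u * Pi.mulSingle j u⁻¹ : n → F)) := by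
  have h : diagonal (Pi.mulSingle i u * Pi.mulSingle j u⁻¹ : n → F) =
      transvection i j (u - 1) * (transvection j i 1 *
        (transvection i j (u⁻¹ - 1) * (transvection j i (-u) * (1 : Matrix n n F)))) := by
    ext k l
    have hd : diagonal (Pi.mulSingle i u * Pi.mulSingle j u⁻¹ : n → F) k l =
        (Pi.mulSingle i u * Pi.mulSingle j u⁻¹ : n → F) k * (1 : Matrix n n F) k l := by
      rw [diagonal_apply, one_apply]
      split_ifs
      · rw [mul_one]
      · rw [mul_zero]
    rw [hd, Pi.mul_apply]
    by_cases hki : k = i
    · subst hki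
      rw [Pi.mulSingle_eq_same, Pi.mulSingle_eq_of_ne hij, transvection_mul_apply_same,
        transvection_mul_apply_of_ne _ _ k l hij, transvection_mul_apply_same,
        transvection_mul_apply_same, transvection_mul_apply_same,
        transvection_mul_apply_of_ne _ _ k l hij, transvection_mul_apply_same,
        transvection_mul_apply_of_ne _ _ j l hij.symm, transvection_mul_apply_same,
        transvection_mul_apply_of_ne _ _ k l hij]
      field_simp
      ring
    · by_cases hkj : k = j
      · subst hkj
        rw [Pi.mulSingle_eq_same, Pi.mulSingle_eq_of_ne hki]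
        rw [transvection_mul_apply_of_ne _ _ k l hki, transvection_mul_apply_same,
          transvection_mul_apply_of_ne _ _ k l hki, transvection_mul_apply_same,
          transvection_mul_apply_same, transvection_mul_apply_of_ne _ _ i l hij,
          transvection_mul_apply_same]
        field_simp
        ring
      · rw [Pi.mulSingle_eq_of_ne hki, Pi.mulSingle_eq_of_ne hkj,
          transvection_mul_apply_of_ne _ _ k l hki, transvection_mul_apply_of_ne _ _ k l hkj,
          transvection_mul_apply_of_ne _ _ k l hki, transvection_mul_apply_of_ne _ _ k l hkj,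
          one_mul, one_mul]
  rw [h]
  exact TSLK_mul (TSLK_tr i j hij _) (TSLK_mul (TSLK_tr j i hij.symm _)
    (TSLK_mul (TSLK_tr i j hij _) (TSLK_mul (TSLK_tr j i hij.symm _) TSLK_one)))

private lemma TSLK_field {F : Type} [Field F] (T : Matrix n n F) (hT : T.det = 1) :
    TSLK_Tv T := by
  obtain ⟨L, L', D, h⟩ := Pivot.exists_list_transvec_mul_diagonal_mul_list_transvec T
  have hD : ∏ i, D i = 1 := by
    rw [h, det_mul, det_mul, TransvectionStruct.det_toMatrix_prod,
      TransvectionStruct.det_toMatrix_prod, det_diagonal, one_mul, mul_one] at hT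
    exact hT
  rw [h]
  refine TSLK_mul (TSLK_mul ⟨L, rfl⟩ ?_) ⟨L', rfl⟩
  rcases isEmpty_or_nonempty n with hn | ⟨⟨i0⟩⟩
  · have : diagonal D = 1 := Subsingleton.elim _ _
    rw [this]
    exact TSLK_one
  have hD0 : ∀ i, D i ≠ 0 := by
    intro i hi
    rw [Finset.prod_eq_zero (Finset.mem_univ i) hi] at hD
    exact zero_ne_one hD
  -- the submonoid of all diagonals which are products of transvections
  let G : Submonoid (n → F) :=
    { carrier := {D | TSLK_Tv (diagonal D)}
      mul_mem' := by
        intro a b ha hb
        have hab : diagonal (a * b) = diagonal a * diagonal b := by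
          rw [diagonal_mul_diagonal]
          rfl
        change TSLK_Tv (diagonal (a * b))
        rw [hab]
        exact TSLK_mul ha hb
      one_mem' := by
        change TSLK_Tv (diagonal (1 : n → F))
        rw [show diagonal (1 : n → F) = 1 from diagonal_one]
        exact TSLK_one }
  have hfac : D = ∏ i, (Pi.mulSingle i (D i) * Pi.mulSingle i0 (D i)⁻¹ : n → F) := by
    rw [Finset.prod_mul_distrib, Finset.univ_prod_mulSingle]
    have h1 : ∏ i, (Pi.mulSingle i0 (D i)⁻¹ : n → F) = 1 := by
      have h2 := map_prod (MonoidHom.mulSingle (fun _ : n => F) i0) (fun i => (D i)⁻¹) Finset.univ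
      rw [Finset.prod_inv_distrib, hD, inv_one, map_one] at h2
      exact h2.symm
    rw [h1, mul_one]
  have hmem : D ∈ G := by
    rw [hfac]
    refine Submonoid.prod_mem G fun i _ => ?_
    by_cases hi : i = i0
    · subst hi
      have h2 : (Pi.mulSingle i (D i) * Pi.mulSingle i (D i)⁻¹ : n → F) = 1 := by
        rw [← Pi.mulSingle_mul, mul_inv_cancel₀ (hD0 i), Pi.mulSingle_one]
      rw [h2]
      exact G.one_mem
    · exact TSLK_diag i i0 hi (D i) (hD0 i)
  exact hmem

/-- The image of a transvection under a map of the coefficients. -/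
private def TSLK_mp {S : Type} [CommRing S] (f : R → S) (t : TransvectionStruct n R) :
    TransvectionStruct n S := ⟨t.i, t.j, t.hij, f t.c⟩

private lemma TSLK_map {S : Type} [CommRing S] (f : R →+* S) (l : List (TransvectionStruct n R)) :
    f.mapMatrix (l.map TransvectionStruct.toMatrix).prod =
      ((l.map (TSLK_mp f)).map TransvectionStruct.toMatrix).prod := by
  induction l with
  | nil => simp
  | cons t l ih =>
    rw [List.map_cons, List.prod_cons, map_mul, ih, List.map_cons, List.map_cons, List.prod_cons]
    congr 1
    ext a b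
    change f ((1 : Matrix n n R) a b + single t.i t.j t.c a b) =
      (1 : Matrix n n S) a b + single t.i t.j (f t.c) a b
    rw [map_add, one_apply, one_apply, single_apply, single_apply]
    split_ifs <;> simp

private lemma TSLK_pi {ι : Type} [Finite ι] (F : ι → Type) [∀ i, Field (F i)]
    (T : Matrix n n (∀ i, F i)) (hT : T.det = 1) : TSLK_Tv T := by
  classical
  have hi : ∀ i, TSLK_Tv ((Pi.evalRingHom F i).mapMatrix T) := by
    intro i
    apply TSLK_field
    rw [← RingHom.map_det, hT, map_one]
  choose l hl using hi
  have := Fintype.ofFinite ι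
  have key : ∀ s : Finset ι, ∃ L : List (TransvectionStruct n (∀ i, F i)), ∀ k,
      (Pi.evalRingHom F k).mapMatrix (L.map TransvectionStruct.toMatrix).prod =
        if k ∈ s then (Pi.evalRingHom F k).mapMatrix T else 1 := by
    intro s
    induction s using Finset.induction_on with
    | empty => exact ⟨[], fun k => by simp⟩
    | insert i s his ih =>
      obtain ⟨L, hL⟩ := ih
      refine ⟨(l i).map (TSLK_mp (Pi.single i)) ++ L, fun k => ?_⟩
      rw [List.map_append, List.prod_append, map_mul, hL k]
      by_cases hki : k = i
      · subst hki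
        rw [if_neg his, if_pos (Finset.mem_insert_self k s), mul_one, hl k, TSLK_map]
        congr 2
        rw [List.map_map]
        conv_rhs => rw [← List.map_id (l k)]
        refine List.map_congr_left fun t _ => ?_
        simp [TSLK_mp]
      · have h1 : (Pi.evalRingHom F k).mapMatrix
            (((l i).map (TSLK_mp (Pi.single i))).map TransvectionStruct.toMatrix).prod = 1 := by
          rw [TSLK_map]
          apply List.prod_eq_one
          intro x hx
          rw [List.map_map, List.map_map, List.mem_map] at hx
          obtain ⟨t, -, rfl⟩ := hx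
          have h2 : (Pi.evalRingHom F k) (Pi.single i t.c) = 0 := by
            simp [hki]
          simp only [Function.comp, TSLK_mp, TransvectionStruct.toMatrix]
          rw [h2, transvection_zero]
        rw [h1, one_mul]
        by_cases hks : k ∈ s
        · rw [if_pos hks, if_pos (Finset.mem_insert_of_mem hks)]
        · rw [if_neg hks, if_neg]
          intro h3
          rcases Finset.mem_insert.mp h3 with h4 | h4
          · exact hki h4
          · exact hks h4
  obtain ⟨L, hL⟩ := key Finset.univ
  refine ⟨L, ?_⟩
  ext a b k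
  have h1 := hL k
  rw [if_pos (Finset.mem_univ k)] at h1
  have h2 := congrFun (congrFun h1 a) b
  simp only [RingHom.mapMatrix_apply, map_apply, Pi.evalRingHom_apply] at h2
  exact h2.symm

end TSLK

theorem sTSLK : S_TSLK := by
  intro K _ _ _ m T hT
  let F : MaximalSpectrum K → Type := fun I => K ⧸ I.asIdeal
  let _ : ∀ I : MaximalSpectrum K, Field (F I) := fun I => Ideal.Quotient.field I.asIdeal
  let φ : K ≃+* (∀ I : MaximalSpectrum K, F I) := (IsArtinianRing.equivPi K).toRingEquiv
  obtain ⟨l, hl⟩ := TSLK_pi F (φ.toRingHom.mapMatrix T) (by rw [← RingHom.map_det, hT, map_one])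
  refine ⟨l.map (TSLK_mp φ.symm), ?_⟩
  have h1 := TSLK_map φ.symm.toRingHom l
  rw [← hl] at h1
  have h2 : φ.symm.toRingHom.mapMatrix (φ.toRingHom.mapMatrix T) = T := by
    ext a b
    exact φ.symm_apply_apply _
  rw [h2] at h1
  exact h1

end HSp
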