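import Pool.Agent.Lib.MP_181146_gt.HS.SpecT

/-!
# Project HS, third part, TShift: complexes with an arbitrary module in degree zero
-/

set_option autoImplicit false

namespace HSp

section shift

variable {Λ : Type} [CommRing Λ] (P : ℕ → Type) [∀ i, AddCommGroup (P i)] [∀ i, Module Λ (P i)]

/-- the shifted modules -/
private def tshP (P : ℕ → Type) : ℕ → Type
  | 0 => PUnit
  | i + 1 => P i

private instance tshAc : ∀ i, AddCommGroup (tshP P i)
  | 0 => inferInstanceAs (AddCommGroup PUnit)
  | i + 1 => inferInstanceAs (AddCommGroup (P i))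

private instance tshMo : ∀ i, Module Λ (tshP P i)
  | 0 => inferInstanceAs (Module Λ PUnit)
  | i + 1 => inferInstanceAs (Module Λ (P i))

variable {P}

/-- the shifted differential -/
private def tshD (d : ∀ i, P (i + 1) →ₗ[Λ] P i) : ∀ i, tshP P (i + 1) →ₗ[Λ] tshP P i
  | 0 => 0
  | i + 1 => d i

/-- the shifted homotopy -/
private def tshH (h : ∀ i, P i →ₗ[Λ] P (i + 1)) : ∀ i, tshP P i →ₗ[Λ] tshP P (i + 1)
  | 0 => 0
  | i + 1 => h i

/-- an infinite product of modules which vanish for large indices is a finite product -/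
private def tshT (Q : ℕ → Type) [∀ i, AddCommGroup (Q i)] [∀ i, Module Λ (Q i)] (K : ℕ)
    (hK : ∀ i, K ≤ i → Subsingleton (Q i)) : (∀ j, Q j) ≃ₗ[Λ] (∀ j : Fin K, Q j) where
  toFun f j := f j
  invFun f j := if h : j < K then f ⟨j, h⟩ else 0
  map_add' _ _ := rfl
  map_smul' _ _ := rfl
  left_inv f := by
    funext j
    by_cases h : j < K
    · exact dif_pos h
    · have := hK j (by omega)
      exact Subsingleton.elim _ _
  right_inv f := by
    funext j
    exact dif_pos j.2

/-- the even part of the shifted complex is the odd part of the complex -/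
private def tshE : (∀ j : ℕ, tshP P (2 * j)) ≃ₗ[Λ] (∀ j : ℕ, P (2 * j + 1)) where
  toFun f j := f (j + 1)
  invFun f := fun j => match j with
    | 0 => PUnit.unit
    | j + 1 => f j
  map_add' _ _ := rfl
  map_smul' _ _ := rfl
  left_inv f := by
    funext j
    cases j with
    | zero => exact Subsingleton.elim (α := PUnit) _ _
    | succ j => rfl
  right_inv _ := rfl

end shift

theorem sTShift (hTMain : S_TMain) : S_TShift := by
  intro p _ Γ _ _ hp hnc P _ _ hfi hpr K hK d h dd dh0 dh
  have hfi' : ∀ i, Module.Finite (MonoidAlgebra ℤ Γ) (tshP P i) := by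
    rintro (_ | i)
    · exact inferInstanceAs (Module.Finite (MonoidAlgebra ℤ Γ) PUnit)
    · exact hfi i
  have hpr' : ∀ i, Module.Projective (MonoidAlgebra ℤ Γ) (tshP P i) := by
    rintro (_ | i)
    · exact inferInstanceAs (Module.Projective (MonoidAlgebra ℤ Γ) PUnit)
    · exact hpr i
  obtain ⟨a, m, ha0, ha, ⟨e⟩⟩ := hTMain p Γ hp hnc (tshP P) (inferInstanceAs (Subsingleton PUnit))
    (2 * K) (by
      rintro (_ | i) hi
      · exact inferInstanceAs (Subsingleton PUnit)
      · exact hK i (by omega))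
    (tshD d) (fun γ => tshH (h γ))
    (by
      rintro (_ | i) x
      · rfl
      · exact dd i x)
    (by
      rintro γ (_ | i) x
      · have h1 : d 0 (h γ 0 x) + (0 : P 0) = (MonoidAlgebra.of ℤ Γ γ - 1) • x := by
          rw [add_zero]
          exact dh0 γ x
        exact h1
      · exact dh γ i x)
  have e1 : (∀ j : ℕ, tshP P (2 * j + 1)) ≃ₗ[MonoidAlgebra ℤ Γ] (∀ j : Fin K, P (2 * (j : ℕ))) :=
    tshT (fun j => P (2 * j)) K (fun i hi => hK _ (by omega))
  have e0 : (∀ j : ℕ, tshP P (2 * j)) ≃ₗ[MonoidAlgebra ℤ Γ]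
      (∀ j : Fin K, P (2 * (j : ℕ) + 1)) :=
    tshE.trans (tshT (fun j => P (2 * j + 1)) K (fun i hi => hK _ (by omega)))
  exact ⟨a, m, ha0, ha, ⟨((e1.symm.prodCongr (LinearEquiv.refl _ _)).trans e).trans
    (e0.prodCongr (LinearEquiv.refl _ _))⟩⟩

end HSp
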