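import Pool.Agent.Lib.MP_181146_gt.HS.SpecT

/-! # Project HS, third part: TSq, the even and the odd part have the same rank. -/

set_option autoImplicit false

namespace HSp

private theorem sqFin (f : ℕ → ℕ) (D : ℕ) (hf : ∀ j, D < j → f j = 0) :
    Finite (Σ j : ℕ, Fin (f j)) := by
  have hlt : ∀ x : (Σ j : ℕ, Fin (f j)), x.1 < D + 1 := by
    rintro ⟨j, a⟩
    by_contra hj
    have hj' : ¬ j < D + 1 := hj
    have h0 : f j = 0 := hf j (by omega)
    have := a.2
    omega
  refine Finite.of_injective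
    (fun x : (Σ j : ℕ, Fin (f j)) =>
      (⟨⟨x.1, hlt x⟩, x.2⟩ : Σ j : Fin (D + 1), Fin (f (j : ℕ)))) ?_
  rintro ⟨j, a⟩ ⟨j', a'⟩ h
  have h1 : j = j' := by
    have := congrArg (fun z : (Σ j : Fin (D + 1), Fin (f (j : ℕ))) => (z.1 : ℕ)) h
    exact this
  subst h1
  have h2 : a = a' := by
    have := (Sigma.mk.inj_iff.1 h).2
    exact eq_of_heq this
  rw [h2]

theorem sTSq (hTNil : S_TNil) : S_TSq := by
  intro L _ _ r D hD d dd k hk
  obtain ⟨n1, n2⟩ := hTNil L r D hD d dd k k hk hk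
  set F := oe (N := fun i => Fin (r i) → L) (fun i => (d i).mulVecLin)
        (fun i => (k i).mulVecLin) with hF
  set G := eo (N := fun i => Fin (r i) → L) (fun i => (d i).mulVecLin)
        (fun i => (k i).mulVecLin) with hG
  have u1 : IsUnit (F ∘ₗ G : Module.End L (∀ j : ℕ, Fin (r (2 * j)) → L)) := by
    have := n1.isUnit_add_one
    have e : (F ∘ₗ G - LinearMap.id : Module.End L (∀ j : ℕ, Fin (r (2 * j)) → L)) + 1 =
        F ∘ₗ G := by
      change (F ∘ₗ G - LinearMap.id : Module.End L (∀ j : ℕ, Fin (r (2 * j)) → L)) +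
        LinearMap.id = F ∘ₗ G
      abel
    rwa [e] at this
  have u2 : IsUnit (G ∘ₗ F : Module.End L (∀ j : ℕ, Fin (r (2 * j + 1)) → L)) := by
    have := n2.isUnit_add_one
    have e : (G ∘ₗ F - LinearMap.id : Module.End L (∀ j : ℕ, Fin (r (2 * j + 1)) → L)) + 1 =
        G ∘ₗ F := by
      change (G ∘ₗ F - LinearMap.id : Module.End L (∀ j : ℕ, Fin (r (2 * j + 1)) → L)) +
        LinearMap.id = G ∘ₗ F
      abel
    rwa [e] at this
  have b1 : Function.Bijective (F ∘ₗ G) := (Module.End.isUnit_iff _).1 u1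
  have b2 : Function.Bijective (G ∘ₗ F) := (Module.End.isUnit_iff _).1 u2
  have bF : Function.Bijective F := by
    constructor
    · have := b2.1
      rw [LinearMap.coe_comp] at this
      exact this.of_comp
    · have := b1.2
      rw [LinearMap.coe_comp] at this
      exact this.of_comp
  let eF := LinearEquiv.ofBijective F bF
  have f1 : Finite (Σ j : ℕ, Fin (r (2 * j + 1))) :=
    sqFin (fun j => r (2 * j + 1)) D (fun j hj => hD _ (by omega))
  have f2 : Finite (Σ j : ℕ, Fin (r (2 * j))) :=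
    sqFin (fun j => r (2 * j)) D (fun j hj => hD _ (by omega))
  obtain ⟨n, ⟨sO⟩⟩ := Finite.exists_equiv_fin (Σ j : ℕ, Fin (r (2 * j + 1)))
  obtain ⟨m, ⟨sE⟩⟩ := Finite.exists_equiv_fin (Σ j : ℕ, Fin (r (2 * j)))
  have h : (Fin n → L) ≃ₗ[L] (Fin m → L) :=
    ((cP (A := L) (r := fun j => r (2 * j + 1)) sO).trans eF).trans
      (cP (A := L) (r := fun j => r (2 * j)) sE).symm
  have hnm : n = m := eq_of_fin_equiv L h
  subst hnm
  exact ⟨n, ⟨sO⟩, ⟨sE⟩⟩

end HSp
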