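import Pool.Agent.Lib.MP_181146_gt.HS.SpecT

/-! # Project HS, module TTot (helper69) -/

set_option autoImplicit false

namespace HSp

theorem sTTot : S_TTot := by
  intro p hp Γ _ _ X _ _ r C D hD ρ s
  have hpp : Prime (p : ℤ) := Nat.prime_iff_prime_int.1 hp.out
  refine ⟨{ κ := ?_, smul := ?_, inj := ?_, dense := ?_ }, ?_⟩
  · exact
      { toFun := fun x => (cP (A := MonoidAlgebra (ZL p) Γ) s).symm (fun j => (C j).κ (x j))
        map_zero' := by
          funext c
          change (C (s.symm c).1).κ 0 (s.symm c).2 = 0
          rw [map_zero]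
          rfl
        map_add' := by
          intro x y
          funext c
          change (C (s.symm c).1).κ (x (s.symm c).1 + y (s.symm c).1) (s.symm c).2 = _
          rw [map_add]
          rfl }
  · intro a x
    funext c
    change (C (s.symm c).1).κ (a • x (s.symm c).1) (s.symm c).2 = _
    rw [(C (s.symm c).1).smul]
    rfl
  · intro x y hxy
    have h1 : (fun j => (C j).κ (x j)) = fun j => (C j).κ (y j) :=
      (cP (A := MonoidAlgebra (ZL p) Γ) s).symm.injective hxy
    funext j
    exact (C j).inj (congrFun h1 j)
  · intro y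
    have h1 : ∀ j : ℕ, ∃ t : ℤ, ¬ (p : ℤ) ∣ t ∧ ∃ x : X j,
        (C j).κ x = t • (cP (A := MonoidAlgebra (ZL p) Γ) s) y j := fun j => (C j).dense _
    choose t ht x hx using h1
    refine ⟨∏ i ∈ Finset.range (D + 1), t i, ?_, fun j => if j ≤ D then
      (∏ i ∈ (Finset.range (D + 1)).erase j, t i) • x j else 0, ?_⟩
    · intro hd
      obtain ⟨i, -, hi⟩ := (Prime.dvd_finsetProd_iff hpp t).1 hd
      exact ht i hi
    · rw [← LinearEquiv.symm_apply_apply (cP (A := MonoidAlgebra (ZL p) Γ) s) y]
      change (cP (A := MonoidAlgebra (ZL p) Γ) s).symm _ = _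
      have h2 : ((fun j => (C j).κ (if j ≤ D then
          (∏ i ∈ (Finset.range (D + 1)).erase j, t i) • x j else 0)) :
          ∀ j : ℕ, Fin (r j) → MonoidAlgebra (ZL p) Γ) =
          (∏ i ∈ Finset.range (D + 1), t i) • (cP (A := MonoidAlgebra (ZL p) Γ) s) y := by
        funext j
        by_cases hj : j ≤ D
        · have hm : j ∈ Finset.range (D + 1) := by
            rw [Finset.mem_range]
            omega
          rw [if_pos hj, map_zsmul, hx, smul_smul, Finset.prod_erase_mul _ _ hm]
          rfl
        · funext a
          have h3 := hD j (by omega)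
          have h4 := a.2
          omega
      rw [h2]
      rfl
  · intro x
    rfl

end HSp
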