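import Pool.Agent.Lib.MP_181146_gt.HS.SpecT

/-!
# Project HS, third part: invertibility over the rational group ring
-/

set_option autoImplicit false

namespace HSp

section nat

variable {A B : Type} [CommRing A] [CommRing B] (φ : A →+* B)

private theorem TUnK_oe {r : ℕ → ℕ} (d : ∀ i, Matrix (Fin (r i)) (Fin (r (i + 1))) A)
    (k : ∀ i, Matrix (Fin (r (i + 1))) (Fin (r i)) A) (x : ∀ j : ℕ, Fin (r (2 * j + 1)) → A) (j : ℕ)
    (a : Fin (r (2 * j))) :
    φ (oe (N := fun i => Fin (r i) → A) (fun i => (d i).mulVecLin) (fun i => (k i).mulVecLin) x j a) =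
      oe (N := fun i => Fin (r i) → B) (fun i => ((d i).map φ).mulVecLin)
        (fun i => ((k i).map φ).mulVecLin) (fun j a => φ (x j a)) j a := by
  cases j with
  | zero =>
    change φ ((d 0).mulVec (x 0) a) = ((d 0).map φ).mulVec (fun a => φ (x 0 a)) a
    rw [RingHom.map_mulVec]
    rfl
  | succ j =>
    change φ ((d (2 * (j + 1))).mulVec (x (j + 1)) a + (k (2 * j + 1)).mulVec (x j) a) =
      ((d (2 * (j + 1))).map φ).mulVec (fun a => φ (x (j + 1) a)) a +
        ((k (2 * j + 1)).map φ).mulVec (fun a => φ (x j a)) a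
    rw [map_add, RingHom.map_mulVec, RingHom.map_mulVec]
    rfl

private theorem TUnK_OEm_apply {r : ℕ → ℕ} {ρ : ℕ} (sO : (Σ j : ℕ, Fin (r (2 * j + 1))) ≃ Fin ρ)
    (sE : (Σ j : ℕ, Fin (r (2 * j))) ≃ Fin ρ)
    (d : ∀ i, Matrix (Fin (r i)) (Fin (r (i + 1))) A)
    (k : ∀ i, Matrix (Fin (r (i + 1))) (Fin (r i)) A) (c c' : Fin ρ) :
    OEm sO sE d k c c' = oe (N := fun i => Fin (r i) → A) (fun i => (d i).mulVecLin)
      (fun i => (k i).mulVecLin) (fun j a => (Pi.single c' 1 : Fin ρ → A) (sO ⟨j, a⟩))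
      (sE.symm c).1 (sE.symm c).2 := by
  rw [OEm, LinearMap.toMatrix'_apply]
  rfl

private theorem TUnK_OEm_map {r : ℕ → ℕ} {ρ : ℕ} (sO : (Σ j : ℕ, Fin (r (2 * j + 1))) ≃ Fin ρ)
    (sE : (Σ j : ℕ, Fin (r (2 * j))) ≃ Fin ρ)
    (d : ∀ i, Matrix (Fin (r i)) (Fin (r (i + 1))) A)
    (k : ∀ i, Matrix (Fin (r (i + 1))) (Fin (r i)) A) :
    (OEm sO sE d k).map φ = OEm sO sE (fun i => (d i).map φ) (fun i => (k i).map φ) := by
  ext c c'
  have h0 : (fun (j : ℕ) (a : Fin (r (2 * j + 1))) =>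
      φ ((Pi.single c' 1 : Fin ρ → A) (sO ⟨j, a⟩))) =
      fun j a => (Pi.single c' 1 : Fin ρ → B) (sO ⟨j, a⟩) := by
    funext j a
    by_cases h : sO ⟨j, a⟩ = c'
    · simp [h]
    · simp [Pi.single_eq_of_ne h]
  rw [Matrix.map_apply, TUnK_OEm_apply, TUnK_OEm_apply, TUnK_oe, h0]

end nat

section gr

variable {Γ : Type} [CommGroup Γ] [Finite Γ]

private theorem TUnK_aug_of (g : Γ) : aug ℚ Γ (MonoidAlgebra.of ℚ Γ g) = 1 := by
  change MonoidAlgebra.lift ℚ ℚ Γ (1 : Γ →* ℚ) (MonoidAlgebra.of ℚ Γ g) = 1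
  rw [MonoidAlgebra.lift_of]
  rfl

private theorem TUnK_aug_alg (x : ℚ) : aug ℚ Γ (algebraMap ℚ (MonoidAlgebra ℚ Γ) x) = x :=
  (MonoidAlgebra.lift ℚ ℚ Γ (1 : Γ →* ℚ)).commutes x

private theorem TUnK_aug_nr : aug ℚ Γ (nrG ℚ Γ) = Nat.card Γ := by
  haveI := Fintype.ofFinite Γ
  rw [nrG, finsum_eq_sum_of_fintype, map_sum]
  simp only [TUnK_aug_of]
  simp

private theorem TUnK_of_nr (g : Γ) : MonoidAlgebra.of ℚ Γ g * nrG ℚ Γ = nrG ℚ Γ := by
  haveI := Fintype.ofFinite Γ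
  rw [nrG, finsum_eq_sum_of_fintype, Finset.mul_sum]
  simp only [← map_mul]
  exact Fintype.sum_equiv (Equiv.mulLeft g) _ _ (fun _ => rfl)

private theorem TUnK_nr_nr : nrG ℚ Γ * nrG ℚ Γ = (Nat.card Γ : ℚ) • nrG ℚ Γ := by
  haveI := Fintype.ofFinite Γ
  have h : nrG ℚ Γ * nrG ℚ Γ = ∑ g : Γ, MonoidAlgebra.of ℚ Γ g * nrG ℚ Γ := by
    rw [← Finset.sum_mul]
    congr 1
    rw [nrG, finsum_eq_sum_of_fintype]
  rw [h]
  simp only [TUnK_of_nr]
  rw [Finset.sum_const, Finset.card_univ, Nat.card_eq_fintype_card, Nat.cast_smul_eq_nsmul]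

end gr

theorem sTUnK (hTUn : S_TUn) (hTRed : S_TRed) : S_TUnK := by
  intro Γ _ _ r D hD d dd k e0 he0 hk0 hk ρ sO sE T0 T0' hT0 hT0'
  have hn : (Nat.card Γ : ℚ) ≠ 0 := Nat.cast_ne_zero.mpr Nat.card_pos.ne'
  have he : e0 = (Nat.card Γ : ℚ)⁻¹ • nrG ℚ Γ := by
    rw [← he0, smul_smul, inv_mul_cancel₀ hn, one_smul]
  have hee : e0 * e0 = e0 := by
    rw [he, smul_mul_smul_comm, TUnK_nr_nr, smul_smul, mul_assoc, inv_mul_cancel₀ hn, mul_one]
  have hea : aug ℚ Γ e0 = 1 := by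
    have h1 : aug ℚ Γ ((Nat.card Γ : ℚ) • e0) = (Nat.card Γ : ℚ) * aug ℚ Γ e0 := by
      rw [Algebra.smul_def, map_mul, TUnK_aug_alg]
    rw [he0, TUnK_aug_nr] at h1
    exact (mul_left_cancel₀ hn (by rw [mul_one, ← h1])).symm
  set A := OEm sO sE d k with hA
  set B := T0.map (algebraMap ℚ (MonoidAlgebra ℚ Γ)) with hB
  set T := (1 - e0) • A + e0 • B with hT
  have hmap0 : ∀ {L : Type} [CommRing L] (π : MonoidAlgebra ℚ Γ →+* L), π e0 = 0 →
      π T.det = (A.map π).det := by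
    intro L _ π hπ
    rw [RingHom.map_det]
    congr 1
    ext i j
    rw [RingHom.mapMatrix_apply, Matrix.map_apply, Matrix.map_apply, hT, Matrix.add_apply,
      Matrix.smul_apply, Matrix.smul_apply, smul_eq_mul, smul_eq_mul, map_add, map_mul, map_mul,
      map_sub, map_one, hπ, sub_zero, one_mul, zero_mul, add_zero]
  have hmap1 : ∀ {L : Type} [CommRing L] (π : MonoidAlgebra ℚ Γ →+* L), π e0 = 1 →
      π T.det = (B.map π).det := by
    intro L _ π hπ
    rw [RingHom.map_det]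
    congr 1
    ext i j
    rw [RingHom.mapMatrix_apply, Matrix.map_apply, Matrix.map_apply, hT, Matrix.add_apply,
      Matrix.smul_apply, Matrix.smul_apply, smul_eq_mul, smul_eq_mul, map_add, map_mul, map_mul,
      map_sub, map_one, hπ, sub_self, zero_mul, one_mul, zero_add]
  have hdet : IsUnit T.det := by
    -- modulo e0
    have h1 : ∃ v a, T.det * v = 1 + e0 * a := by
      let I := Ideal.span {e0}
      have hu : IsUnit (Ideal.Quotient.mk I T.det) := by
        have hz : Ideal.Quotient.mk I e0 = 0 :=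
          Ideal.Quotient.eq_zero_iff_mem.mpr (Ideal.mem_span_singleton_self e0)
        rw [hmap0 _ hz, hA, TUnK_OEm_map]
        have hsm : ∀ {m : ℕ}, ((1 - e0) • (1 : Matrix (Fin m) (Fin m) (MonoidAlgebra ℚ Γ))).map
            (Ideal.Quotient.mk I) = 1 := by
          intro m
          ext i j
          by_cases hij : i = j
          · subst hij
            simp [hz]
          · simp [hij]
        refine hTUn _ r D hD _ ?_ _ ⟨?_, ?_⟩ ρ sO sE
        · intro i
          rw [← Matrix.map_mul, dd i]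
          ext a b
          simp
        · rw [← Matrix.map_mul, hk0, hsm]
        · intro i
          rw [← Matrix.map_mul, ← Matrix.map_mul, ← Matrix.map_add _ (map_add _), hk i, hsm]
      obtain ⟨w, hw⟩ := hu.exists_right_inv
      obtain ⟨v, rfl⟩ := Ideal.Quotient.mk_surjective w
      have h2 : T.det * v - 1 ∈ I := by
        rw [← Ideal.Quotient.eq_zero_iff_mem, map_sub, map_mul, hw, map_one, sub_self]
      obtain ⟨a, ha⟩ := Ideal.mem_span_singleton'.mp h2
      exact ⟨v, a, by rw [mul_comm e0 a, ha]; ring⟩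
    have h2 : ∃ v a, T.det * v = 1 + (1 - e0) * a := by
      let I := Ideal.span {1 - e0}
      have hz : Ideal.Quotient.mk I e0 = 1 := by
        have h3 : Ideal.Quotient.mk I (1 - e0) = 0 :=
          Ideal.Quotient.eq_zero_iff_mem.mpr (Ideal.mem_span_singleton_self _)
        rw [map_sub, map_one, sub_eq_zero] at h3
        exact h3.symm
      have hu : IsUnit (Ideal.Quotient.mk I T.det) := by
        rw [hmap1 _ hz, hB]
        have h4 : ((T0.map (algebraMap ℚ (MonoidAlgebra ℚ Γ))).map (Ideal.Quotient.mk I)).det =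
            ((Ideal.Quotient.mk I).comp (algebraMap ℚ (MonoidAlgebra ℚ Γ))) T0.det := by
          rw [RingHom.map_det]
          rfl
        rw [h4]
        exact (Matrix.isUnit_det_of_right_inverse hT0).map _
      obtain ⟨w, hw⟩ := hu.exists_right_inv
      obtain ⟨v, rfl⟩ := Ideal.Quotient.mk_surjective w
      have h2 : T.det * v - 1 ∈ I := by
        rw [← Ideal.Quotient.eq_zero_iff_mem, map_sub, map_mul, hw, map_one, sub_self]
      obtain ⟨a, ha⟩ := Ideal.mem_span_singleton'.mp h2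
      exact ⟨v, a, by rw [mul_comm (1 - e0) a, ha]; ring⟩
    obtain ⟨v1, a1, h1⟩ := h1
    obtain ⟨v2, a2, h2⟩ := h2
    refine IsUnit.of_mul_eq_one ((1 - e0) * v1 + e0 * v2) ?_
    calc T.det * ((1 - e0) * v1 + e0 * v2) = (1 - e0) * (T.det * v1) + e0 * (T.det * v2) := by ring
      _ = 1 + (e0 - e0 * e0) * (a1 + a2) := by rw [h1, h2]; ring
      _ = 1 := by rw [hee, sub_self, zero_mul, add_zero]
  refine ⟨⟨T⁻¹, Matrix.mul_nonsing_inv T hdet, Matrix.nonsing_inv_mul T hdet⟩, ?_⟩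
  rw [hmap1 _ hea]
  congr 1
  ext i j
  simp only [hB, Matrix.map_apply, TUnK_aug_alg]

end HSp
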