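import Pool.Agent.Lib.MP_181146_gt.HS.SpecT

/-!
# Project HS, third part: the trivial component (TY0)
-/

set_option autoImplicit false

namespace HSp

section

variable {p : ℕ} [Fact p.Prime] {Γ : Type} [CommGroup Γ] {M : Type} [AddCommGroup M]
  [Module (MonoidAlgebra ℤ Γ) M] {ρ : ℕ}

/-- The augmentation of the coordinates. -/
private noncomputable def ty0Al (C : PCo p Γ M ρ) : M →+ (Fin ρ → ZL p) where
  toFun x := fun i => aug (ZL p) Γ (C.κ x i)
  map_zero' := by
    funext i
    rw [map_zero, Pi.zero_apply, map_zero]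
    rfl
  map_add' x y := by
    funext i
    rw [map_add, Pi.add_apply, map_add]
    rfl

private lemma ty0_al_apply (C : PCo p Γ M ρ) (x : M) :
    ty0Al C x = fun i => aug (ZL p) Γ (C.κ x i) := rfl

private lemma ty0_aug_ls (a : MonoidAlgebra ℤ Γ) :
    ∃ z : ℤ, aug (ZL p) Γ (ls p Γ a) = (z : ZL p) := by
  induction a using MonoidAlgebra.induction_on with
  | of g =>
    refine ⟨1, ?_⟩
    have h1 : ls p Γ (MonoidAlgebra.of ℤ Γ g) = MonoidAlgebra.of (ZL p) Γ g := by
      unfold ls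
      simp
    rw [h1]
    unfold aug
    simp
  | add a b ha hb =>
    obtain ⟨z, hz⟩ := ha
    obtain ⟨w, hw⟩ := hb
    refine ⟨z + w, ?_⟩
    rw [map_add, map_add, hz, hw]
    push_cast
    rfl
  | smul r a ha =>
    obtain ⟨z, hz⟩ := ha
    refine ⟨r * z, ?_⟩
    rw [map_zsmul, map_zsmul, hz, zsmul_eq_mul]
    push_cast
    rfl

private lemma ty0_al_smul (C : PCo p Γ M ρ) (a : MonoidAlgebra ℤ Γ) :
    ∃ z : ℤ, ∀ x : M, ty0Al C (a • x) = z • ty0Al C x := by
  obtain ⟨z, hz⟩ := ty0_aug_ls (p := p) a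
  refine ⟨z, fun x => ?_⟩
  rw [ty0_al_apply, ty0_al_apply]
  funext i
  rw [C.smul, Pi.smul_apply, Pi.smul_apply, smul_eq_mul, map_mul, hz, zsmul_eq_mul]

private lemma ty0_fg (C : PCo p Γ M ρ) [Module.Finite (MonoidAlgebra ℤ Γ) M] :
    (LinearMap.range (ty0Al C).toIntLinearMap).FG := by
  classical
  obtain ⟨S, hS⟩ := Module.finite_def.mp (inferInstance : Module.Finite (MonoidAlgebra ℤ Γ) M)
  refine ⟨S.image (ty0Al C), ?_⟩
  apply le_antisymm
  · rw [Submodule.span_le]
    intro y hy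
    rw [Finset.coe_image] at hy
    obtain ⟨x, _, rfl⟩ := hy
    exact ⟨x, rfl⟩
  · rintro _ ⟨x, rfl⟩
    have hx : x ∈ Submodule.span (MonoidAlgebra ℤ Γ) (S : Set M) := by
      rw [hS]
      trivial
    change ty0Al C x ∈ _
    rw [Finset.coe_image]
    induction hx using Submodule.span_induction with
    | mem x hx => exact Submodule.subset_span ⟨x, hx, rfl⟩
    | zero =>
      rw [map_zero]
      exact Submodule.zero_mem _
    | add x y _ _ h1 h2 =>
      rw [map_add]
      exact Submodule.add_mem _ h1 h2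
    | smul a x _ h =>
      obtain ⟨z, hz⟩ := ty0_al_smul C a
      rw [hz]
      exact Submodule.smul_mem _ z h

private lemma ty0_dense (C : PCo p Γ M ρ) (y : Fin ρ → ZL p) :
    ∃ s : ℤ, ¬ (p : ℤ) ∣ s ∧ ∃ x : M, ty0Al C x = s • y := by
  obtain ⟨s, hs, x, hx⟩ := C.dense (fun i => algebraMap (ZL p) (MonoidAlgebra (ZL p) Γ) (y i))
  refine ⟨s, hs, x, ?_⟩
  rw [ty0_al_apply]
  funext i
  rw [hx, Pi.smul_apply, Pi.smul_apply, map_zsmul]
  congr 1
  unfold aug
  exact AlgHom.commutes _ _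

private lemma ty0_unit {s : ℤ} (hs : ¬ (p : ℤ) ∣ s) : ∃ t : ZL p, t * (s : ZL p) = 1 := by
  have hs0 : (s : ℚ) ≠ 0 := by
    intro h
    apply hs
    have h2 : s = 0 := by exact_mod_cast h
    rw [h2]
    exact dvd_zero _
  refine ⟨⟨(s : ℚ)⁻¹, s, 1, hs, ?_⟩, ?_⟩
  · rw [mul_inv_cancel₀ hs0]
    norm_num
  · apply Subtype.ext
    change (s : ℚ)⁻¹ * ((s : ZL p) : ℚ) = 1
    have h3 : ((s : ZL p) : ℚ) = (s : ℚ) := by push_cast; rfl
    rw [h3, inv_mul_cancel₀ hs0]

private lemma ty0_int {s : ℤ} (h : (s : ZL p) = 0) : s = 0 := by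
  have h2 : ((s : ZL p) : ℚ) = (s : ℚ) := by push_cast; rfl
  rw [h] at h2
  have h3 : (s : ℚ) = 0 := h2.symm
  exact_mod_cast h3

private lemma ty0_den {r : ℕ} (c : Fin r → ZL p) :
    ∃ s : ℤ, s ≠ 0 ∧ ∃ z : Fin r → ℤ, ∀ i, (s : ZL p) * c i = (z i : ZL p) := by
  classical
  have hpr : Prime (p : ℤ) := Nat.prime_iff_prime_int.1 (Fact.out : p.Prime)
  have h0 : ∀ i, ∃ s z : ℤ, s ≠ 0 ∧ (s : ZL p) * c i = (z : ZL p) := by
    intro i
    obtain ⟨s, z, hs, h⟩ := (c i).2
    refine ⟨s, z, ?_, ?_⟩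
    · rintro rfl
      exact hs (dvd_zero _)
    · apply Subtype.ext
      push_cast
      exact h
  choose s z hs h using h0
  refine ⟨∏ j, s j, Finset.prod_ne_zero_iff.2 fun j _ => hs j,
    fun i => (∏ j ∈ Finset.univ.erase i, s j) * z i, fun i => ?_⟩
  rw [← Finset.mul_prod_erase Finset.univ s (Finset.mem_univ i)]
  push_cast
  rw [← h i]
  ring

private lemma ty0_basis (C : PCo p Γ M ρ) [Module.Finite (MonoidAlgebra ℤ Γ) M] :
    ∃ B : Module.Basis (Fin ρ) (ZL p) (Fin ρ → ZL p),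
      Submodule.span ℤ (Set.range B) = LinearMap.range (ty0Al C).toIntLinearMap := by
  classical
  set Y := LinearMap.range (ty0Al C).toIntLinearMap with hY
  have : Module.Finite ℤ Y := Module.Finite.iff_fg.2 (ty0_fg C)
  have : Module.Free ℤ Y := inferInstance
  set b := Module.finBasis ℤ Y with hb
  set v : Fin (Module.finrank ℤ Y) → (Fin ρ → ZL p) := fun i => (b i : Fin ρ → ZL p) with hv
  have hspan : Submodule.span ℤ (Set.range v) = Y := by
    have h1 : Set.range v = Y.subtype '' Set.range b := by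
      rw [← Set.range_comp]
      rfl
    rw [h1, ← Submodule.map_span, b.span_eq, Submodule.map_top, Submodule.range_subtype]
  have hli : LinearIndependent (ZL p) v := by
    rw [Fintype.linearIndependent_iff]
    intro c hc i
    obtain ⟨s, hs, z, hz⟩ := ty0_den c
    have h1 : ∑ i, z i • v i = 0 := by
      have h2 : (s : ZL p) • ∑ i, c i • v i = 0 := by rw [hc, smul_zero]
      rw [Finset.smul_sum] at h2
      rw [← h2]
      refine Finset.sum_congr rfl fun i _ => ?_
      rw [smul_smul, hz i]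
      funext l
      rw [Pi.smul_apply, Pi.smul_apply, zsmul_eq_mul, smul_eq_mul]
    have h3 : ∑ i, z i • b i = 0 := by
      apply Subtype.ext
      rw [AddSubmonoidClass.coe_finsetSum]
      exact h1
    have h4 := (Fintype.linearIndependent_iff.1 b.linearIndependent) z h3 i
    have h5 := hz i
    rw [h4] at h5
    have h6 : (s : ZL p) * c i = 0 := by
      rw [h5]
      norm_num
    rcases mul_eq_zero.1 h6 with h7 | h7
    · exact absurd (ty0_int h7) hs
    · exact h7
  have hsp : ⊤ ≤ Submodule.span (ZL p) (Set.range v) := by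
    intro y _
    obtain ⟨s, hs, x, hx⟩ := ty0_dense C y
    obtain ⟨t, ht⟩ := ty0_unit hs
    have h1 : ty0Al C x ∈ Submodule.span ℤ (Set.range v) := by
      rw [hspan]
      exact ⟨x, rfl⟩
    have h2 : ty0Al C x ∈ Submodule.span (ZL p) (Set.range v) :=
      Submodule.span_le_restrictScalars ℤ (ZL p) (Set.range v) h1
    have h3 : y = t • ty0Al C x := by
      rw [hx]
      funext l
      rw [Pi.smul_apply, Pi.smul_apply, zsmul_eq_mul, smul_eq_mul, ← mul_assoc, ht, one_mul]
    rw [h3]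
    exact Submodule.smul_mem _ t h2
  set B := Module.Basis.mk hli hsp with hB
  have e : Fin (Module.finrank ℤ Y) ≃ Fin ρ := B.indexEquiv (Pi.basisFun (ZL p) (Fin ρ))
  refine ⟨B.reindex e, ?_⟩
  rw [Module.Basis.range_reindex, hB, Module.Basis.coe_mk, hspan]

end

theorem sTY0 : S_TY0 := by
  classical
  intro p _ Γ _ _ M M' _ _ _ _ _ _ ρ C C'
  obtain ⟨B, hB⟩ := ty0_basis C
  obtain ⟨B', hB'⟩ := ty0_basis C'
  set e : (Fin ρ → ZL p) ≃ₗ[ZL p] (Fin ρ → ZL p) := B'.equiv B (Equiv.refl _) with he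
  have hmap : ∀ y ∈ Submodule.span ℤ (Set.range B'), e y ∈ Submodule.span ℤ (Set.range B) := by
    intro y hy
    induction hy using Submodule.span_induction with
    | mem x hx =>
      obtain ⟨i, rfl⟩ := hx
      refine Submodule.subset_span ⟨i, ?_⟩
      rw [he, Module.Basis.equiv_apply]
      rfl
    | zero =>
      rw [map_zero]
      exact Submodule.zero_mem _
    | add x y _ _ h1 h2 =>
      rw [map_add]
      exact Submodule.add_mem _ h1 h2
    | smul a x _ h =>
      rw [map_zsmul]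
      exact Submodule.smul_mem _ a h
  have hmap' : ∀ y ∈ Submodule.span ℤ (Set.range B), e.symm y ∈ Submodule.span ℤ (Set.range B') := by
    intro y hy
    induction hy using Submodule.span_induction with
    | mem x hx =>
      obtain ⟨i, rfl⟩ := hx
      refine Submodule.subset_span ⟨i, ?_⟩
      rw [LinearEquiv.eq_symm_apply, he, Module.Basis.equiv_apply]
      rfl
    | zero =>
      rw [map_zero]
      exact Submodule.zero_mem _
    | add x y _ _ h1 h2 =>
      rw [map_add]
      exact Submodule.add_mem _ h1 h2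
    | smul a x _ h =>
      rw [map_zsmul]
      exact Submodule.smul_mem _ a h
  refine ⟨LinearMap.toMatrix' e.toLinearMap, LinearMap.toMatrix' e.symm.toLinearMap, ?_, ?_, ?_, ?_⟩
  · rw [← LinearMap.toMatrix'_comp, LinearEquiv.comp_symm, LinearMap.toMatrix'_id]
  · rw [← LinearMap.toMatrix'_comp, LinearEquiv.symm_comp, LinearMap.toMatrix'_id]
  · intro x
    rw [LinearMap.toMatrix'_mulVec]
    have h1 : ty0Al C' x ∈ Submodule.span ℤ (Set.range B') := by
      rw [hB']
      exact ⟨x, rfl⟩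
    have h2 := hmap _ h1
    rw [hB] at h2
    obtain ⟨y, hy⟩ := h2
    exact ⟨y, hy.symm⟩
  · intro y
    have h1 : ty0Al C y ∈ Submodule.span ℤ (Set.range B) := by
      rw [hB]
      exact ⟨y, rfl⟩
    have h2 := hmap' _ h1
    rw [hB'] at h2
    obtain ⟨x, hx⟩ := h2
    refine ⟨x, ?_⟩
    rw [LinearMap.toMatrix'_mulVec]
    have h3 : ty0Al C' x = e.symm (ty0Al C y) := hx
    have h4 : e (ty0Al C' x) = ty0Al C y := by
      rw [h3, LinearEquiv.apply_symm_apply]
    exact h4

end HSp
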