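import Pool.Agent.Lib.MP_181146_gt.HS.SpecT

/-!
# Project HS, third part, module TZL: arithmetic of `ℤ_(p)`
-/

set_option autoImplicit false

namespace HSp

private theorem tzl_ne {p : ℕ} {s : ℤ} (hs : ¬ (p : ℤ) ∣ s) : (s : ℚ) ≠ 0 := by
  intro h
  have h1 : s = 0 := by exact_mod_cast h
  exact hs (h1 ▸ dvd_zero _)

private theorem tzl_unit {p : ℕ} [hp : Fact p.Prime] (x : ZL p) :
    (IsUnit x ∧ ∃ s z : ℤ, ¬ (p : ℤ) ∣ s ∧ ¬ (p : ℤ) ∣ z ∧ (s : ℚ) * (x : ℚ) = z) ∨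
      ∃ y : ZL p, x = (p : ZL p) * y := by
  obtain ⟨s, z, hs, h⟩ := x.2
  have hs0 := tzl_ne hs
  by_cases hz : (p : ℤ) ∣ z
  · right
    obtain ⟨w, rfl⟩ := hz
    refine ⟨⟨(w : ℚ) / s, s, w, hs, mul_div_cancel₀ _ hs0⟩, Subtype.ext ?_⟩
    change (x : ℚ) = ((p : ZL p) : ℚ) * ((w : ℚ) / s)
    rw [Subring.coe_natCast]
    push_cast at h
    field_simp
    linarith
  · left
    have hz0 := tzl_ne hz
    have hx0 : (x : ℚ) ≠ 0 := by
      intro hx
      rw [hx, mul_zero] at h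
      exact hz0 h.symm
    refine ⟨?_, s, z, hs, hz, h⟩
    rw [isUnit_iff_exists_inv]
    refine ⟨⟨(x : ℚ)⁻¹, z, s, hz, ?_⟩, Subtype.ext ?_⟩
    · rw [← h]
      field_simp
    · exact mul_inv_cancel₀ hx0

private theorem tzl_p {p : ℕ} [hp : Fact p.Prime] : ¬ IsUnit (p : ZL p) := by
  intro hu
  obtain ⟨y, hy⟩ := isUnit_iff_exists_inv.1 hu
  obtain ⟨s, z, hs, h⟩ := y.2
  have h1 : (p : ℚ) * (y : ℚ) = 1 := by
    have h2 := congrArg (fun t : ZL p => (t : ℚ)) hy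
    exact h2
  have h2 : (s : ℚ) = (p : ℚ) * z := by
    rw [← h]
    calc (s : ℚ) = s * ((p : ℚ) * y) := by rw [h1, mul_one]
      _ = (p : ℚ) * (s * y) := by ring
  have h3 : s = (p : ℤ) * z := by exact_mod_cast h2
  exact hs ⟨z, h3⟩

theorem sTZL : S_TZL := by
  intro p hp
  have hp' : Prime (p : ℤ) := Nat.prime_iff_prime_int.1 hp.out
  refine ⟨fun x => ?_, tzl_p, fun x j z hz => ?_, fun x hx k => ?_⟩
  · rcases tzl_unit x with h | h
    · exact Or.inl h.1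
    · exact Or.inr h
  · obtain ⟨s, w, hs, h⟩ := x.2
    have h1 : s * z = (p : ℤ) ^ j * w := by
      have h2 : ((s * z : ℤ) : ℚ) = (((p : ℤ) ^ j * w : ℤ) : ℚ) := by
        push_cast
        rw [← hz, ← h]
        ring
      exact_mod_cast h2
    have hc : IsCoprime ((p : ℤ) ^ j) s := by
      refine IsCoprime.pow_left ?_
      exact (Prime.coprime_iff_not_dvd hp').2 hs
    obtain ⟨z', rfl⟩ := hc.dvd_of_dvd_mul_left (Dvd.intro w h1.symm)
    refine ⟨z', ?_⟩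
    have hp0 : ((p : ℚ) ^ j) ≠ 0 := pow_ne_zero _ (by exact_mod_cast hp.out.ne_zero)
    push_cast at hz
    exact mul_left_cancel₀ hp0 hz
  · rcases tzl_unit x with ⟨_, s, z, hs, hz, h⟩ | ⟨y, hy⟩
    · have hs0 := tzl_ne hs
      have hc : IsCoprime z ((p : ℤ) ^ (k + 1)) := by
        refine IsCoprime.pow_right ?_
        exact ((Prime.coprime_iff_not_dvd hp').2 hz).symm
      obtain ⟨u, v, huv⟩ := hc
      have hm : (p : ℤ) ^ (k + 1) ≠ 0 := pow_ne_zero _ hp'.ne_zero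
      obtain ⟨a, ha⟩ := Int.eq_ofNat_of_zero_le (Int.emod_nonneg (s * u) hm)
      have h1 : ∃ w : ℤ, (a : ℤ) * z - s = (p : ℤ) ^ (k + 1) * w := by
        have h2 := Int.emod_add_mul_ediv (s * u) ((p : ℤ) ^ (k + 1))
        rw [ha] at h2
        refine ⟨-(s * u / (p : ℤ) ^ (k + 1)) * z - s * v, ?_⟩
        have h3 : (a : ℤ) = s * u - (p : ℤ) ^ (k + 1) * (s * u / (p : ℤ) ^ (k + 1)) :=
          eq_sub_of_add_eq h2
        rw [h3]
        linear_combination s * huv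
      obtain ⟨w, hw⟩ := h1
      have hpa : ¬ (p : ℤ) ∣ (a : ℤ) := by
        intro hd
        apply hs
        have h2 : s = (a : ℤ) * z - (p : ℤ) ^ (k + 1) * w := by rw [← hw]; ring
        rw [h2]
        exact dvd_sub (dvd_mul_of_dvd_left hd z)
          (dvd_mul_of_dvd_left (dvd_pow_self _ (Nat.succ_ne_zero k)) w)
      have hpa' : ¬ p ∣ a := fun hd => hpa (by exact_mod_cast hd)
      refine ⟨a, ?_, ?_, ⟨(p : ℚ) * w / s, s, p * w, hs, ?_⟩, Subtype.ext ?_⟩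
      · rcases Nat.eq_zero_or_pos a with h0 | h0
        · exact (hpa' (h0 ▸ dvd_zero p)).elim
        · exact h0
      · exact ((Nat.Prime.coprime_iff_not_dvd hp.out).2 hpa').symm
      · rw [mul_div_cancel₀ _ hs0]
        push_cast
        ring
      · change (a : ℚ) * (x : ℚ) - 1 = (p : ℚ) ^ k * ((p : ℚ) * w / s)
        have hw' : (a : ℚ) * z - s = (p : ℚ) ^ (k + 1) * w := by exact_mod_cast hw
        rw [← h] at hw'
        field_simp
        rw [pow_succ] at hw'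
        linear_combination hw'
    · exfalso
      rw [hy] at hx
      exact tzl_p (isUnit_of_mul_isUnit_left hx)

end HSp
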