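import Pool.Agent.Lib.MP_181146_gt.HS.MainC
import Pool.Agent.Lib.MP_181146_gt.HS.RCf1
import Pool.Agent.Lib.MP_181146_gt.HS.RChi
import Pool.Agent.Lib.MP_181146_gt.HS.RCon
import Pool.Agent.Lib.MP_181146_gt.HS.RCos
import Pool.Agent.Lib.MP_181146_gt.HS.RCyc
import Pool.Agent.Lib.MP_181146_gt.HS.RDInst
import Pool.Agent.Lib.MP_181146_gt.HS.RDer
import Pool.Agent.Lib.MP_181146_gt.HS.REP
import Pool.Agent.Lib.MP_181146_gt.HS.RFin
import Pool.Agent.Lib.MP_181146_gt.HS.RGrA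
import Pool.Agent.Lib.MP_181146_gt.HS.RGrB
import Pool.Agent.Lib.MP_181146_gt.HS.RGrC
import Pool.Agent.Lib.MP_181146_gt.HS.RIdm
import Pool.Agent.Lib.MP_181146_gt.HS.RInst
import Pool.Agent.Lib.MP_181146_gt.HS.RLocA
import Pool.Agent.Lib.MP_181146_gt.HS.RLocB
import Pool.Agent.Lib.MP_181146_gt.HS.RMat
import Pool.Agent.Lib.MP_181146_gt.HS.RNil
import Pool.Agent.Lib.MP_181146_gt.HS.ROp
import Pool.Agent.Lib.MP_181146_gt.HS.RQ
import Pool.Agent.Lib.MP_181146_gt.HS.RQot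
import Pool.Agent.Lib.MP_181146_gt.HS.RRank
import Pool.Agent.Lib.MP_181146_gt.HS.RRel
import Pool.Agent.Lib.MP_181146_gt.HS.RRing
import Pool.Agent.Lib.MP_181146_gt.HS.RTot
import Pool.Agent.Lib.MP_181146_gt.HS.RVec
import Pool.Agent.Lib.MP_181146_gt.HS.RZq
import Pool.Agent.Lib.MP_181146_gt.HS.TAdp
import Pool.Agent.Lib.MP_181146_gt.HS.TCom
import Pool.Agent.Lib.MP_181146_gt.HS.TCrit
import Pool.Agent.Lib.MP_181146_gt.HS.TCtr
import Pool.Agent.Lib.MP_181146_gt.HS.TDet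
import Pool.Agent.Lib.MP_181146_gt.HS.TDetI
import Pool.Agent.Lib.MP_181146_gt.HS.TDetS
import Pool.Agent.Lib.MP_181146_gt.HS.TFr
import Pool.Agent.Lib.MP_181146_gt.HS.TGen
import Pool.Agent.Lib.MP_181146_gt.HS.TInc
import Pool.Agent.Lib.MP_181146_gt.HS.TInt
import Pool.Agent.Lib.MP_181146_gt.HS.TLoc
import Pool.Agent.Lib.MP_181146_gt.HS.TMain
import Pool.Agent.Lib.MP_181146_gt.HS.TMat
import Pool.Agent.Lib.MP_181146_gt.HS.TMx
import Pool.Agent.Lib.MP_181146_gt.HS.TNil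
import Pool.Agent.Lib.MP_181146_gt.HS.TPL
import Pool.Agent.Lib.MP_181146_gt.HS.TPL2
import Pool.Agent.Lib.MP_181146_gt.HS.TRed
import Pool.Agent.Lib.MP_181146_gt.HS.TRg
import Pool.Agent.Lib.MP_181146_gt.HS.TRst
import Pool.Agent.Lib.MP_181146_gt.HS.TSA
import Pool.Agent.Lib.MP_181146_gt.HS.TSLK
import Pool.Agent.Lib.MP_181146_gt.HS.TShift
import Pool.Agent.Lib.MP_181146_gt.HS.TSq
import Pool.Agent.Lib.MP_181146_gt.HS.TTot
import Pool.Agent.Lib.MP_181146_gt.HS.TUn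
import Pool.Agent.Lib.MP_181146_gt.HS.TUnK
import Pool.Agent.Lib.MP_181146_gt.HS.TY0
import Pool.Agent.Lib.MP_181146_gt.HS.TZL
import Pool.Agent.Lib.MP_181146_gt.HS.All

/-!
# Project HS, third part: assembly of all modules
-/

set_option autoImplicit false

namespace HSp

theorem pTCom : S_TCom := sTCom

theorem pTGen : S_TGen := sTGen

theorem pTLoc : S_TLoc := sTLoc

theorem pTZL : S_TZL := sTZL

theorem pTFr : S_TFr := sTFr pTLoc pTZL

theorem pTMat : S_TMat := sTMat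

theorem pTMx : S_TMx := sTMx pTFr pTMat

theorem pRVec : S_RVec := sRVec

theorem pRMat : S_RMat := sRMat

theorem pRNil : S_RNil := sRNil

theorem pRCf1 : S_RCf1 := sRCf1 pRVec

theorem pRCyc : S_RCyc := sRCyc pRVec

theorem pRCon : S_RCon := sRCon pRVec pRCyc

theorem pRRel : S_RRel := sRRel pRVec pRCyc

theorem pRRing : S_RRing := sRRing

theorem pRTot : S_RTot := sRTot pRVec pRMat pRNil pRCf1 pRCyc pRCon pRRel pRRing

theorem pRIdm : S_RIdm := sRIdm

theorem pRDer : S_RDer := sRDer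

theorem pROp : S_ROp := sROp

theorem pREP : S_REP := sREP

theorem pRRank : S_RRank := sRRank pRNil pRDer pROp pREP

theorem pRCos : S_RCos := sRCos

theorem pRInst : S_RInst := sRInst pRCos

theorem pRDInst : S_RDInst := sRDInst

theorem pRLocA : S_RLocA := sRLocA

theorem pRLocB : S_RLocB := sRLocB

theorem pRGrA : S_RGrA := sRGrA

theorem pRGrB : S_RGrB := sRGrB

theorem pRGrC : S_RGrC := sRGrC pRGrB

theorem pRFin : S_RFin := sRFin pRTot pRIdm pRRank pRInst pRDInst pRLocA pRLocB pRGrA pRGrB pRGrC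

theorem pRChi : S_RChi := sRChi

theorem pRZq : S_RZq := sRZq

theorem pRQot : S_RQot := sRQot

theorem pRQ : S_RQ := sRQ pRFin pRChi pRZq pRQot

theorem pTAdp : S_TAdp := sTAdp

theorem pTRst : S_TRst := sTRst

theorem pTCtr : S_TCtr := sTCtr

theorem pTNil : S_TNil := sTNil

theorem pTDet : S_TDet := sTDet pTNil

theorem pTUn : S_TUn := sTUn pTNil

theorem pTDetI : S_TDetI := sTDetI pTDet pTUn

theorem pTRg : S_TRg := sTRg

theorem pTRed : S_TRed := sTRed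

theorem pTDetS : S_TDetS := sTDetS pTAdp pTRst pTCtr pTDetI pTLoc pTRg pTRed

theorem pTCrit : S_TCrit := sTCrit pTLoc pTZL

theorem pTY0 : S_TY0 := sTY0

theorem pTTot : S_TTot := sTTot

theorem pTUnK : S_TUnK := sTUnK pTUn pTRed

theorem pTInc : S_TInc := sTInc pTNil

theorem pTSLK : S_TSLK := sTSLK

theorem pTSA : S_TSA := sTSA

theorem pTInt : S_TInt := sTInt

theorem pTPL : S_TPL := sTPL pTSLK pTRed pTSA pTInt pTZL

theorem pTPL2 : S_TPL2 := sTPL2 pTPL pTFr pTMat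

theorem pTSq : S_TSq := sTSq pTNil

theorem pTMain : S_TMain := sTMain pTGen pTMx pRQ pTDetS pTCrit pTY0 pTTot pTUnK pTInc pTPL2 pTSq

theorem pTShift : S_TShift := sTShift pTMain

theorem pMainC : S_MainC := sMainC pTCom pTS pTH pTShift

end HSp
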