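import Pool.Agent.Lib.MP_181146_gt.HS.Spec

set_option autoImplicit false

namespace HSp

theorem sCF3 (hPrTN : S_PrTN) (hPrKt : S_PrKt) : S_CF3 := by
  intro Λ _ n C X hn i u y z hu
  cases i with
  | zero =>
    have := X.zero
    have hy : y = 0 := Subsingleton.elim _ _
    subst hy
    refine ⟨trivial, z, ?_⟩
    rw [map_zero, sub_zero, hu, smul_zero, zero_add]
  | succ k =>
    have h0 : C.t • X.d k y + C.N • X.d k z = 0 := by
      have h1 := X.dd k u
      rw [hu, map_add, map_smul, map_smul] at h1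
      exact h1
    have h1 : C.t • X.d k y = C.N • (-(X.d k z)) := by
      rw [smul_neg]
      exact eq_neg_of_add_eq_zero_left h0
    have h2 : C.t • X.d k y = 0 := (hPrTN Λ n C (X.P k) hn (X.d k y) (-(X.d k z)) h1).1
    obtain ⟨b, hb⟩ := (hPrKt Λ n C (X.P k) (X.d k y)).1 h2
    refine ⟨⟨b, hb⟩, z + X.h k b, ?_⟩
    have h3 := X.dh k y
    have h4 : X.h k (X.d k y) = C.N • X.h k b := by
      rw [hb, map_smul]
    rw [h4] at h3
    have h5 : X.d (k + 1) (X.h (k + 1) y) = C.t • y - C.N • X.h k b :=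
      eq_sub_of_add_eq h3
    rw [map_sub, hu, h5, smul_add]
    abel

end HSp
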