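import Pool.Agent.Lib.MP_181146_gt.HS.Spec

set_option autoImplicit false

namespace HSp

/-- `Λ / (t, N)` is nontrivial for `1 < n`. -/
private lemma CFr_nontrivial {Λ : Type} [CommRing Λ] {n : ℕ} (C : CycData Λ n) (hn : 1 < n) :
    Nontrivial (QQ C) := by
  refine Ideal.Quotient.nontrivial_iff.mpr ?_
  intro h
  have h1 : (1 : Λ) ∈ Ideal.span {C.t, C.N} := by rw [h]; exact Submodule.mem_top
  rw [Ideal.mem_span_pair] at h1
  obtain ⟨a, b, hab⟩ := h1
  have h2 := congrArg C.eps hab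
  rw [map_add, map_mul, map_mul, map_one, C.eps_t, C.eps_N, mul_zero, zero_add] at h2
  have h3 : (n : ℤ) ∣ 1 := ⟨C.eps b, by rw [← h2]; ring⟩
  have h4 : n ∣ 1 := by exact_mod_cast h3
  have := Nat.le_of_dvd one_pos h4
  omega

/-- `n = 0` in `Λ / (t, N)`. -/
private lemma CFr_n {Λ : Type} [CommRing Λ] {n : ℕ} (C : CycData Λ n) :
    ((n : ℤ) : QQ C) = 0 := by
  have h1 : (n : Λ) ∈ Ideal.span {C.t, C.N} := by
    rw [Ideal.mem_span_pair]
    refine ⟨-((n.choose 2 : Λ) + C.t * C.c), 1, ?_⟩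
    have h2 := C.N_eq
    linear_combination h2
  have h2 : ((n : Λ) : QQ C) = 0 := Ideal.Quotient.eq_zero_iff_mem.mpr h1
  simpa using h2

/-- every element of `Λ / (t, N)` is an integer. -/
private lemma CFr_int {Λ : Type} [CommRing Λ] {n : ℕ} (C : CycData Λ n) (a : QQ C) :
    ∃ m : ℤ, a = (m : QQ C) := by
  obtain ⟨l, rfl⟩ := Ideal.Quotient.mk_surjective a
  refine ⟨C.eps l, ?_⟩
  obtain ⟨y, hy⟩ := C.ker_eps (l - (C.eps l : Λ)) (by rw [map_sub, map_intCast]; simp)
  have h1 : l - ((C.eps l : ℤ) : Λ) ∈ Ideal.span {C.t, C.N} := by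
    rw [Ideal.mem_span_pair]
    exact ⟨y, 0, by rw [hy]; ring⟩
  have h2 := Ideal.Quotient.eq.mpr h1
  rw [h2, map_intCast]

private lemma CFr_unit {Λ : Type} [CommRing Λ] {n : ℕ} (C : CycData Λ n) (q k : ℕ)
    (hq : q.Prime) (hn : n = q ^ k) (m : ℤ) (hm : ¬ (q : ℤ) ∣ m) : IsUnit ((m : ℤ) : QQ C) := by
  have h1 : IsCoprime m (n : ℤ) := by
    rw [hn]
    push_cast
    apply IsCoprime.pow_right
    have h2 : Prime (q : ℤ) := Nat.prime_iff_prime_int.mp hq
    exact (h2.coprime_iff_not_dvd.mpr hm).symm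
  obtain ⟨a, b, hab⟩ := h1
  refine IsUnit.of_mul_eq_one (a : QQ C) ?_
  have h3 := congrArg (fun z : ℤ => (z : QQ C)) hab
  simp only [Int.cast_add, Int.cast_mul, Int.cast_one] at h3
  rw [CFr_n C, mul_zero, add_zero] at h3
  rw [mul_comm]
  exact h3

private lemma CFr_local {Λ : Type} [CommRing Λ] {n : ℕ} (C : CycData Λ n) (q k : ℕ)
    (hq : q.Prime) (hk : 0 < k) (hn : n = q ^ k) : IsLocalRing (QQ C) := by
  have h1 : 1 < n := by rw [hn]; exact Nat.one_lt_pow hk.ne' hq.one_lt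
  have := CFr_nontrivial C h1
  refine IsLocalRing.of_isUnit_or_isUnit_one_sub_self fun a => ?_
  obtain ⟨m, rfl⟩ := CFr_int C a
  by_cases hm : (q : ℤ) ∣ m
  · right
    have h2 : ¬ (q : ℤ) ∣ (1 - m) := by
      intro h
      have h3 := dvd_add h hm
      rw [sub_add_cancel] at h3
      have h4 : q ∣ 1 := by exact_mod_cast h3
      exact hq.one_lt.ne' (Nat.dvd_one.mp h4)
    have h3 := CFr_unit C q k hq hn (1 - m) h2
    simpa using h3
  · left
    exact CFr_unit C q k hq hn m hm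

theorem sCFr (hCqF : S_CqF) (hCqZ : S_CqZ) (hPrRk : S_PrRk) : S_CFr := by
  intro Λ _ n C X q k hq hk hn i e he
  have hloc : IsLocalRing (QQ C) := CFr_local C q k hq hk hn
  have hn0 : 0 < n := by rw [hn]; exact Nat.pow_pos hq.pos
  have hfin : Finite (X.F i) := (hCqF Λ n C X hn0 i).1
  have hFt : ∀ r ∈ Ideal.span {C.t, C.N}, ∀ y : X.F i, r • y = 0 := by
    intro r hr y
    obtain ⟨x, rfl⟩ := X.q_surj i y
    rw [← map_smul]
    exact (Submodule.Quotient.mk_eq_zero _).mpr (Submodule.smul_mem_smul hr Submodule.mem_top)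
  have htor : Module.IsTorsionBySet Λ (LinearMap.range e)
      (Ideal.span {C.t, C.N} : Ideal Λ) := by
    intro x a
    apply Subtype.ext
    exact hFt a.1 a.2 x.1
  letI : Module (QQ C) (LinearMap.range e) := htor.module
  haveI : IsScalarTower Λ (QQ C) (LinearMap.range e) := htor.isScalarTower
  have hsurj : Function.Surjective (algebraMap Λ (QQ C)) := Ideal.Quotient.mk_surjective
  have hfinR : Module.Finite (QQ C) (LinearMap.range e) := Module.Finite.of_finite
  have hproj : Module.Projective (QQ C) (LinearMap.range e) := by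
    refine Module.Projective.of_lifting_property'' fun f hf => ?_
    obtain ⟨l, hl⟩ := Module.projective_lifting_property (R := Λ) (P := X.P i)
      (f.restrictScalars Λ) (e.rangeRestrict ∘ₗ X.q i) hf
    have hker : (Ideal.span {C.t, C.N} • (⊤ : Submodule Λ (X.P i))) ≤ LinearMap.ker l := by
      rw [Submodule.smul_le]
      intro r hr x _
      rw [LinearMap.mem_ker, map_smul, ← algebraMap_smul (QQ C) r (l x)]
      have h0 : algebraMap Λ (QQ C) r = 0 := Ideal.Quotient.eq_zero_iff_mem.mpr hr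
      rw [h0, zero_smul]
    let l' : X.F i →ₗ[Λ] (LinearMap.range e →₀ QQ C) := Submodule.liftQ _ l hker
    refine ⟨LinearMap.extendScalarsOfSurjective hsurj (l' ∘ₗ (LinearMap.range e).subtype), ?_⟩
    apply LinearMap.ext
    intro a
    obtain ⟨x, hx⟩ := X.q_surj i a.1
    have h1 : l' a.1 = l x := by rw [← hx]; rfl
    have h2 : f (l x) = e.rangeRestrict (X.q i x) := LinearMap.congr_fun hl x
    change f (l' a.1) = a
    rw [h1, h2, hx]
    apply Subtype.ext
    obtain ⟨y, hy⟩ := a.2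
    change e a.1 = a.1
    rw [← hy, he]
  have hfree : Module.Free (QQ C) (LinearMap.range e) := Module.free_of_flat_of_isLocalRing
  refine ⟨Module.finrank (QQ C) (LinearMap.range e), ⟨?_⟩⟩
  exact (Module.finBasis (QQ C) (LinearMap.range e)).equivFun.restrictScalars Λ

end HSp
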