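import Pool.Agent.Lib.MP_181146_gt.HS.Spec

set_option autoImplicit false

namespace HSp

private lemma CG_nontrivial {Λ : Type} [CommRing Λ] {n : ℕ} (C : CycData Λ n) (hn : 1 < n) :
    Nontrivial (QQ C) := by
  refine Ideal.Quotient.nontrivial_iff.mpr ?_
  intro h
  have h1 : (1 : Λ) ∈ Ideal.span {C.t, C.N} := by rw [h]; exact Submodule.mem_top
  rw [Ideal.mem_span_pair] at h1
  obtain ⟨a, b, hab⟩ := h1
  have h2 := congrArg C.eps hab
  rw [map_add, map_mul, map_mul, map_one, C.eps_t, C.eps_N, mul_zero, zero_add] at h2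
  have h3 : (n : ℤ) ∣ 1 := ⟨C.eps b, by rw [← h2]; ring⟩
  have h4 : n ∣ 1 := by exact_mod_cast h3
  have := Nat.le_of_dvd one_pos h4
  omega

/-- existence of the splitting. -/
private lemma CG_split (hCSp : S_CSp) (hCSp2 : S_CSp2) (Λ : Type) [CommRing Λ] (n : ℕ)
    (C : CycData Λ n) (X : Cx Λ C.t) (q k : ℕ) (hq : q.Prime) (hk : 0 < k) (hn : n = q ^ k) :
    Nonempty (SplitF X) := by
  have h1 : 1 < n := by rw [hn]; exact Nat.one_lt_pow hk.ne' hq.one_lt
  by_cases hk1 : k = 1
  · refine hCSp2 Λ n C X ?_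
    rw [hn, hk1, pow_one]
    exact hq
  · rcases hq.eq_two_or_odd' with h2 | h2
    · -- q = 2
      obtain ⟨m, rfl⟩ : ∃ m, k = m + 2 := ⟨k - 2, by omega⟩
      refine hCSp Λ n C X h1 ((2 : ℤ) ^ (m + 1)) ((n : ℤ) - 1) ?_ ?_
      · have h3 : n.choose 2 = 2 ^ (m + 1) * (n - 1) := by
          rw [Nat.choose_two_right]
          apply Nat.div_eq_of_eq_mul_right two_pos
          rw [hn, h2]
          ring
        rw [h3]
        push_cast [Nat.cast_sub h1.le]
        ring
      · rw [hn, h2]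
        push_cast
        exact ⟨2 ^ m, by ring⟩
    · -- q odd
      have h3 : Odd n := by rw [hn]; exact h2.pow
      obtain ⟨j, hj⟩ := h3
      refine hCSp Λ n C X h1 (n : ℤ) (j : ℤ) ?_ ?_
      · have h4 : n.choose 2 = n * j := by
          rw [Nat.choose_two_right]
          apply Nat.div_eq_of_eq_mul_right two_pos
          have h5 : n - 1 = 2 * j := by omega
          rw [h5]
          ring
        rw [h4]
        push_cast
        ring
      · exact ⟨n, by ring⟩

theorem sCG (hCSp : S_CSp) (hCSp2 : S_CSp2) (hCFr : S_CFr) : S_CG := by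
  intro Λ _ n C X q k hq hk hn
  have h1 : 1 < n := by rw [hn]; exact Nat.one_lt_pow hk.ne' hq.one_lt
  have hnt : Nontrivial (QQ C) := CG_nontrivial C h1
  obtain ⟨S⟩ := CG_split hCSp hCSp2 Λ n C X q k hq hk hn
  have hch := fun i => hCFr Λ n C X q k hq hk hn i (S.e i) (S.idem i)
  choose r hr using hch
  let φ : ∀ i, LinearMap.range (S.e i) ≃ₗ[Λ] (Fin (r i) → QQ C) := fun i => (hr i).some
  have hrg : ∀ i, ∀ x ∈ LinearMap.range (S.e (i + 1)), X.dF i x ∈ LinearMap.range (S.e i) := by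
    intro i x hx
    obtain ⟨y, rfl⟩ := hx
    rw [S.chain]
    exact ⟨_, rfl⟩
  let ρ : ∀ i, LinearMap.range (S.e (i + 1)) →ₗ[Λ] LinearMap.range (S.e i) :=
    fun i => (X.dF i).restrict (hrg i)
  have hdd : ∀ i (y : X.F (i + 2)), X.dF i (X.dF (i + 1) y) = 0 := by
    intro i y
    obtain ⟨x, rfl⟩ := X.q_surj _ y
    rw [X.dF_q, X.dF_q, X.dd, map_zero]
  have hfix : ∀ i (y : LinearMap.range (S.e i)), S.e i y.1 = y.1 := by
    intro i y
    obtain ⟨z, hz⟩ := y.2
    rw [← hz, S.idem]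
  have hr0 : ∀ i, Subsingleton (X.P i) → r i = 0 := by
    intro i hs
    by_contra h0
    have hF : Subsingleton (X.F i) := by
      constructor
      intro a b
      obtain ⟨a', rfl⟩ := X.q_surj i a
      obtain ⟨b', rfl⟩ := X.q_surj i b
      rw [Subsingleton.elim a' b']
    have h2 : Subsingleton (Fin (r i) → QQ C) := (φ i).symm.injective.subsingleton
    obtain ⟨m, hm⟩ : ∃ m, r i = m + 1 := Nat.exists_eq_succ_of_ne_zero h0
    have h3 : (fun _ : Fin (r i) => (0 : QQ C)) = fun _ => 1 := Subsingleton.elim _ _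
    have h4 := congrFun h3 ⟨0, by omega⟩
    exact zero_ne_one h4
  refine ⟨{
    r := r
    f := fun i => (φ i).toLinearMap ∘ₗ (S.e i).rangeRestrict ∘ₗ X.q i
    δ := fun i => (φ i).toLinearMap ∘ₗ ρ i ∘ₗ (φ (i + 1)).symm.toLinearMap
    δδ := ?_
    chain := ?_
    onto := ?_
    inj := ?_
    r_zero := hr0 0 X.zero
    B := X.D
    bdd := fun i hi => hr0 i (X.bdd i hi) }⟩
  · intro i x
    simp only [LinearMap.comp_apply, LinearEquiv.coe_coe, LinearEquiv.symm_apply_apply]
    have h2 : ρ i (ρ (i + 1) ((φ (i + 2)).symm x)) = 0 := by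
      apply Subtype.ext
      exact hdd i _
    rw [h2, map_zero]
  · intro i x
    simp only [LinearMap.comp_apply, LinearEquiv.coe_coe, LinearEquiv.symm_apply_apply]
    congr 1
    apply Subtype.ext
    change X.dF i (S.e (i + 1) (X.q (i + 1) x)) = S.e i (X.q i (X.d i x))
    rw [S.chain, X.dF_q]
  · intro i y hy
    have h2 : ρ i ((φ (i + 1)).symm y) = 0 := by
      apply (φ i).injective
      rw [map_zero]
      exact hy
    have h3 : X.dF i ((φ (i + 1)).symm y).1 = 0 := congrArg Subtype.val h2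
    obtain ⟨x, ⟨z, hz⟩, hx⟩ := S.onto i ((φ (i + 1)).symm y).1 (hfix _ _) h3
    refine ⟨x, z, 0, hz, ?_⟩
    rw [map_zero, add_zero]
    simp only [LinearMap.comp_apply, LinearEquiv.coe_coe]
    have h4 : (S.e (i + 1)).rangeRestrict (X.q (i + 1) x) = (φ (i + 1)).symm y := by
      apply Subtype.ext
      exact hx
    rw [h4, LinearEquiv.apply_symm_apply]
  · intro i x z w hx hw
    simp only [LinearMap.comp_apply, LinearEquiv.coe_coe] at hw
    have h2 := (φ (i + 1)).injective hw
    have h3 : S.e (i + 1) (X.q (i + 1) x) = X.dF (i + 1) ((φ (i + 2)).symm w).1 :=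
      congrArg Subtype.val h2
    exact S.inj i x z _ hx h3

end HSp
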