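import Pool.Agent.Lib.MP_181146_gt.HS.Spec

/-! Project HS, module CSp: the chain idempotent `e = φ ^ m`. -/

set_option autoImplicit false
set_option linter.unusedVariables false

namespace HSp

private def CSp_pw {Λ : Type} [CommRing Λ] {n : ℕ} {C : CycData Λ n} {X : Cx Λ C.t} (O : Om X)
    (k i : ℕ) : X.F i →ₗ[Λ] X.F i :=
  ((O.phi i : Module.End Λ (X.F i)) ^ k : Module.End Λ (X.F i))

private theorem CSp_pw_succ {Λ : Type} [CommRing Λ] {n : ℕ} {C : CycData Λ n} {X : Cx Λ C.t}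
    (O : Om X) (k i : ℕ) (x : X.F i) : CSp_pw O (k + 1) i x = O.phi i (CSp_pw O k i x) := by
  unfold CSp_pw
  rw [pow_succ']
  rfl

private theorem CSp_pw_zero {Λ : Type} [CommRing Λ] {n : ℕ} {C : CycData Λ n} {X : Cx Λ C.t}
    (O : Om X) (i : ℕ) (x : X.F i) : CSp_pw O 0 i x = x := by
  unfold CSp_pw
  rw [pow_zero]
  rfl

private theorem CSp_chain (hCPc : S_CPc) {Λ : Type} [CommRing Λ] {n : ℕ} {C : CycData Λ n}
    {X : Cx Λ C.t} (hn : 0 < n) (O : Om X) (k i : ℕ) (x : X.F (i + 1)) :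
    X.dF i (CSp_pw O k (i + 1) x) = CSp_pw O k i (X.dF i x) := by
  induction k with
  | zero => rw [CSp_pw_zero, CSp_pw_zero]
  | succ k ih => rw [CSp_pw_succ, CSp_pw_succ, hCPc Λ n C X hn O i, ih]

theorem sCSp (hCOm : S_COm) (hCPc : S_CPc) (hCP1 : S_CP1) (hCP2 : S_CP2) (hCIdm : S_CIdm)
    (hCF1 : S_CF1) (hCF3 : S_CF3) (hCF4 : S_CF4) (hCqF : S_CqF) (hCBo : S_CBo)
    (hCqZ : S_CqZ) : S_CSp := by
  intro Λ _ n C X hn c' j hc hc2
  have hn0 : 0 < n := by omega
  obtain ⟨O⟩ := hCOm Λ n C X hn0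
  have hsub : ∀ i, X.D < i → Subsingleton (X.F i) := by
    intro i hi
    have := X.bdd i hi
    exact (X.q_surj i).subsingleton
  obtain ⟨m, hm, hidem⟩ := hCIdm X.F (fun i => (hCqF Λ n C X hn0 i).1) X.D hsub O.phi
  -- `c'^2` kills `F`
  have hcc : ∀ i (y : X.F i), c' • (c' • y) = 0 := by
    intro i y
    obtain ⟨r, hr⟩ := hc2
    rw [smul_smul, ← sq, hr, mul_comm, mul_smul, (hCqF Λ n C X hn0 i).2.1 y, smul_zero]
  -- the powers of `φ`
  have hQ1 : ∀ i (x : X.F (i + 1)), X.dF i x = 0 → ∃ (u : X.P (i + 1)) (z0 : X.P i)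
      (z : X.F (i + 1)), X.d i u = C.N • z0 ∧ X.dF i z = 0 ∧
        CSp_pw O m (i + 1) x = X.q (i + 1) u + c' • z := by
    intro i x hx
    obtain ⟨k, rfl⟩ : ∃ k, m = k + 1 := ⟨m - 1, by omega⟩
    rw [CSp_pw_succ]
    have hx' : X.dF i (CSp_pw O k (i + 1) x) = 0 := by
      rw [CSp_chain hCPc hn0 O, hx, map_zero]
    exact hCP1 Λ n C X hn0 O c' j hc i _ hx'
  have hQ2' : ∀ k i (u : X.P (i + 1)) (z0 : X.P i), X.d i u = C.N • z0 →
      ∃ (w : X.F (i + 2)) (z : X.F (i + 1)), X.dF i z = 0 ∧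
        CSp_pw O k (i + 1) (X.q (i + 1) u) = X.q (i + 1) u + X.dF (i + 1) w + c' • z := by
    intro k i u z0 hu
    induction k with
    | zero => exact ⟨0, 0, map_zero _, by rw [CSp_pw_zero, map_zero, smul_zero, add_zero, add_zero]⟩
    | succ k ih =>
      obtain ⟨w, z, hz, he⟩ := ih
      obtain ⟨w1, z1, hz1, he1⟩ := hCP2 Λ n C X hn0 O c' j hc i u z0 hu
      refine ⟨w1 + O.phi (i + 2) w, z1 + O.phi (i + 1) z, ?_, ?_⟩
      · rw [map_add, hz1, hCPc Λ n C X hn0 O i, hz, map_zero, add_zero]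
      · rw [CSp_pw_succ, he, map_add, map_add, he1, ← hCPc Λ n C X hn0 O (i + 1), map_zsmul,
          map_add, smul_add]
        abel
  have hid : ∀ i x, CSp_pw O m i (CSp_pw O m i x) = CSp_pw O m i x := by
    intro i x
    exact congrArg (fun f : Module.End Λ (X.F i) => f x) (hidem i)
  refine ⟨{ e := fun i => CSp_pw O m i, idem := hid, chain := fun i x => CSp_chain hCPc hn0 O m i x,
            onto := ?_, inj := ?_ }⟩
  · intro i y hy hdy
    obtain ⟨u, z0, z, hu, hz, he⟩ := hQ1 i y hdy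
    obtain ⟨u', z0', z', hu', hz', he'⟩ := hQ1 i z hz
    refine ⟨u + c' • u', ⟨z0 + c' • z0', ?_⟩, ?_⟩
    · rw [map_add, map_zsmul, hu, hu', smul_add, smul_comm]
    · have h1 : y = X.q (i + 1) u + c' • z := by rw [← hy]; exact he
      have h2 : c' • CSp_pw O m (i + 1) z = c' • X.q (i + 1) u' := by
        rw [he', smul_add, hcc, add_zero]
      have h3 : c' • CSp_pw O m (i + 1) z = CSp_pw O m (i + 1) (c' • X.q (i + 1) u') := by
        rw [← h2, map_zsmul, hid]
      have h4 : y = CSp_pw O m (i + 1) (X.q (i + 1) u) + c' • CSp_pw O m (i + 1) z := by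
        conv_lhs => rw [← hy, h1]
        rw [map_add, map_zsmul]
      rw [map_add, map_add, map_zsmul (X.q (i + 1)), ← h3, ← h4]
  · intro i x z w hx he
    obtain ⟨w1, z1, hz1, he1⟩ := hQ2' m i x z hx
    have hz2 : X.dF i (-z1) = 0 := by rw [map_neg, hz1, neg_zero]
    obtain ⟨u', y', z', hu', hq', -, -, -⟩ := hCBo Λ n C X hn0 O i (-z1) hz2
    obtain ⟨hcy, z'', hz''⟩ := hCF3 Λ n C X hn0 i u' y' z' hu'
    have hk : -z1 = X.q (i + 1) (u' - X.h i y') + X.eta i (X.q i y') := by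
      rw [X.eta_q, map_sub, sub_add_cancel, hq']
    have hcyc : X.cyc i (-(c' • y')) := by
      cases i with
      | zero => trivial
      | succ i =>
        obtain ⟨b, hb⟩ := hcy
        exact ⟨-(c' • b), by rw [map_neg, map_zsmul, hb, smul_neg, smul_comm]⟩
    have hux : X.d i (x - c' • (u' - X.h i y')) = C.N • (z - c' • z'') := by
      rw [map_sub, map_zsmul, hx, hz'', smul_sub, smul_comm]
    have hw : X.q (i + 1) (x - c' • (u' - X.h i y')) + X.eta i (X.q i (-(c' • y'))) =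
        X.dF (i + 1) (w - w1) := by
      have h1 : X.q (i + 1) x = X.dF (i + 1) (w - w1) + c' • (-z1) := by
        rw [map_sub, ← he, he1, smul_neg]
        abel
      rw [map_sub, h1, hk, map_neg, map_zsmul (X.q i), map_neg, map_zsmul (X.eta i), map_zsmul (X.q (i + 1)),
        smul_add]
      abel
    obtain ⟨w', hw'⟩ := hCF4 Λ n C X hn0 i _ _ _ hux hcyc _ hw
    obtain ⟨w3, z3, hz3, he3⟩ := hQ2' m i (u' - X.h i y') z'' hz''
    have hqx : X.q (i + 1) x = X.dF (i + 1) w' + c' • X.q (i + 1) (u' - X.h i y') := by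
      rw [← hw', map_sub (X.q (i + 1)) x, map_zsmul, sub_add_cancel]
    have h5 : CSp_pw O m (i + 1) (X.q (i + 1) x) =
        X.dF (i + 1) (CSp_pw O m (i + 2) w') + (c' • X.q (i + 1) (u' - X.h i y') +
          c' • X.dF (i + 1) w3) := by
      rw [hqx, map_add, map_zsmul, he3, ← CSp_chain hCPc hn0 O, smul_add, smul_add, hcc, add_zero]
    have h6 : X.q (i + 1) x = X.dF (i + 1) (w' + w - CSp_pw O m (i + 2) w' - c' • w3) := by
      have h7 : c' • X.q (i + 1) (u' - X.h i y') = X.dF (i + 1) w -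
          X.dF (i + 1) (CSp_pw O m (i + 2) w') - c' • X.dF (i + 1) w3 := by
        rw [← he, h5]
        abel
      rw [hqx, h7, map_sub, map_sub, map_add, map_zsmul]
      abel
    exact hCF1 Λ n C X hn0 i x z hx _ h6

end HSp
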