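import Pool.Agent.Lib.MP_181146_gt.HS.Spec

/-! Project HS, module CSp2: the chain idempotent in the case of a prime `n` (linear algebra over
`ℤ/n`). -/

set_option autoImplicit false
set_option linter.unusedVariables false

namespace HSp

/-- In a vector space with subspaces `K`, `B` there is an idempotent with values in `K`
which kills `B` and is the identity on `K` modulo `B`. -/
private theorem CSp2_vec {k V : Type} [Field k] [AddCommGroup V] [Module k V]
    (K B : Submodule k V) :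
    ∃ e : V →ₗ[k] V, (∀ x, e (e x) = e x) ∧ (∀ x, e x ∈ K) ∧ (∀ b ∈ B, e b = 0) ∧
      ∀ x ∈ K, x - e x ∈ B := by
  let f : K →ₗ[k] (V ⧸ B) := B.mkQ.domRestrict K
  obtain ⟨σ, hσ⟩ := f.rangeRestrict.exists_rightInverse_of_surjective
    (LinearMap.range_rangeRestrict f)
  obtain ⟨ρ, hρ⟩ := (LinearMap.range f).subtype.exists_leftInverse_of_injective
    (Submodule.ker_subtype _)
  have hσ1 : ∀ l : LinearMap.range f, B.mkQ (σ l : V) = (l : V ⧸ B) := by
    intro l
    have h1 : f.rangeRestrict (σ l) = l := LinearMap.congr_fun hσ l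
    exact congrArg Subtype.val h1
  have hρ1 : ∀ l : LinearMap.range f, ρ (l : V ⧸ B) = l := fun l => LinearMap.congr_fun hρ l
  refine ⟨K.subtype ∘ₗ σ ∘ₗ ρ ∘ₗ B.mkQ, ?_, ?_, ?_, ?_⟩
  · intro x
    change ((σ (ρ (B.mkQ (σ (ρ (B.mkQ x)) : V))) : K) : V) = (σ (ρ (B.mkQ x)) : V)
    rw [hσ1, hρ1]
  · intro x
    exact (σ (ρ (B.mkQ x))).2
  · intro b hb
    change ((σ (ρ (B.mkQ b)) : K) : V) = 0
    have h1 : B.mkQ b = 0 := by
      rw [Submodule.mkQ_apply, Submodule.Quotient.mk_eq_zero]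
      exact hb
    rw [h1, map_zero, map_zero]
    rfl
  · intro x hx
    change x - ((σ (ρ (B.mkQ x)) : K) : V) ∈ B
    have h1 : B.mkQ x = (f.rangeRestrict ⟨x, hx⟩ : V ⧸ B) := rfl
    have h2 : B.mkQ (x - ((σ (ρ (B.mkQ x)) : K) : V)) = 0 := by
      rw [map_sub, hσ1, h1, hρ1, sub_self]
    rw [Submodule.mkQ_apply, Submodule.Quotient.mk_eq_zero] at h2
    exact h2

/-- The same for groups killed by a prime `p`. -/
private theorem CSp2_proj {A : Type} [AddCommGroup A] (p : ℕ) (hp : p.Prime)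
    (h : ∀ y : A, (p : ℤ) • y = 0) (K B : AddSubgroup A) :
    ∃ e : A →+ A, (∀ x, e (e x) = e x) ∧ (∀ x, e x ∈ K) ∧ (∀ b ∈ B, e b = 0) ∧
      ∀ x ∈ K, x - e x ∈ B := by
  haveI : Fact p.Prime := ⟨hp⟩
  letI : Module (ZMod p) A := AddCommGroup.zmodModule (fun x => by
    have := h x
    rwa [natCast_zsmul] at this)
  obtain ⟨e, h1, h2, h3, h4⟩ := CSp2_vec (AddSubgroup.toZModSubmodule p K)
    (AddSubgroup.toZModSubmodule p B)
  exact ⟨e.toAddMonoidHom, h1, h2, h3, h4⟩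

/-- The classes of the cycles modulo `N`. -/
private def CSp2_K {Λ : Type} [CommRing Λ] {n : ℕ} {C : CycData Λ n} (X : Cx Λ C.t) (i : ℕ) :
    AddSubgroup (X.F (i + 1)) where
  carrier := {y | ∃ (u : X.P (i + 1)) (z : X.P i), X.d i u = C.N • z ∧ X.q (i + 1) u = y}
  zero_mem' := ⟨0, 0, by rw [map_zero, smul_zero], map_zero _⟩
  add_mem' := by
    rintro a b ⟨u, z, h1, h2⟩ ⟨u', z', h3, h4⟩
    exact ⟨u + u', z + z', by rw [map_add, h1, h3, smul_add], by rw [map_add, h2, h4]⟩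
  neg_mem' := by
    rintro a ⟨u, z, h1, h2⟩
    exact ⟨-u, -z, by rw [map_neg, h1, smul_neg], by rw [map_neg, h2]⟩

theorem sCSp2 (hCF1 : S_CF1) (hCqZ : S_CqZ) (hCqF : S_CqF) : S_CSp2 := by
  intro Λ _ n C X hp
  have hn : 0 < n := hp.pos
  have key := fun i => CSp2_proj n hp (hCqF Λ n C X hn (i + 1)).2.1 (CSp2_K X i)
    (LinearMap.range (X.dF (i + 1))).toAddSubgroup
  choose e he1 he2 he3 he4 using key
  let eL : ∀ i, X.F i →ₗ[Λ] X.F i := fun i => match i with
    | 0 => 0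
    | i + 1 =>
      { toFun := e i
        map_add' := map_add (e i)
        map_smul' := fun l y => by
          rw [(hCqF Λ n C X hn (i + 1)).2.2 l y, map_zsmul, RingHom.id_apply,
            ← (hCqF Λ n C X hn (i + 1)).2.2 l] }
  have heL : ∀ i (y : X.F (i + 1)), eL (i + 1) y = e i y := fun i y => rfl
  refine ⟨{ e := eL, idem := ?_, chain := ?_, onto := ?_, inj := ?_ }⟩
  · intro i x
    cases i with
    | zero => rfl
    | succ i => exact he1 i x
  · intro i x
    obtain ⟨u, z, h1, h2⟩ := he2 i x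
    have h3 : X.dF i (eL (i + 1) x) = 0 := by
      rw [heL, ← h2, X.dF_q, h1]
      exact (hCqZ Λ n C X i _).2 ⟨0, z, by rw [smul_zero, zero_add]⟩
    rw [h3]
    cases i with
    | zero => rfl
    | succ i => exact (he3 i _ ⟨x, rfl⟩).symm
  · intro i y hy hdy
    obtain ⟨u, z, h1, h2⟩ := he2 i y
    rw [heL] at hy
    rw [hy] at h2
    exact ⟨u, ⟨z, h1⟩, by rw [heL, h2, hy]⟩
  · intro i x z w hx hw
    obtain ⟨w', hw'⟩ := he4 i (X.q (i + 1) x) ⟨x, z, hx, rfl⟩
    rw [heL] at hw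
    refine hCF1 Λ n C X hn i x z hx (w + w') ?_
    rw [map_add, ← hw, hw', add_sub_cancel]

end HSp
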