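import Pool.Agent.Lib.MP_181146_gt.HS.Spec

/-!
# Project HS: DCo, exactness of the cone of `P/N → G`
-/

set_option autoImplicit false

namespace HSp

section

variable {Λ : Type} [CommRing Λ] {n : ℕ} {C : CycData Λ n} {X : Cx Λ C.t}

private lemma dco_QQ_N (a : QQ C) : C.N • a = 0 := by
  obtain ⟨b, rfl⟩ := Submodule.Quotient.mk_surjective _ a
  rw [← Submodule.Quotient.mk_smul, Submodule.Quotient.mk_eq_zero, smul_eq_mul]
  exact Ideal.mul_mem_right _ _ (Ideal.subset_span (by simp))

private lemma dco_f_N (S : SplitG X) (i : ℕ) (x : X.P i) : S.f i (C.N • x) = 0 := by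
  rw [map_smul]
  funext k
  exact dco_QQ_N _

private lemma dco_mem (i : ℕ) (x : X.P i) :
    x ∈ (Ideal.span {C.N} • (⊤ : Submodule Λ (X.P i))) ↔ ∃ z, x = C.N • z := by
  rw [Submodule.ideal_span_singleton_smul, Submodule.mem_smul_pointwise_iff_exists]
  constructor
  · rintro ⟨z, _, hz⟩
    exact ⟨z, hz.symm⟩
  · rintro ⟨z, hz⟩
    exact ⟨z, Submodule.mem_top, hz.symm⟩

/-- The map `P_i / N → G_i`. -/
private def dcoF (S : SplitG X) (i : ℕ) : QN C.N (X.P i) →ₗ[Λ] (Fin (S.r i) → QQ C) :=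
  Submodule.liftQ _ (S.f i) (by
    intro x hx
    obtain ⟨z, rfl⟩ := (dco_mem i x).1 hx
    rw [LinearMap.mem_ker]
    exact dco_f_N S i z)

private lemma dcoF_mk (S : SplitG X) (i : ℕ) (x : X.P i) :
    dcoF S i (Submodule.Quotient.mk x) = S.f i x := rfl

/-- The differential of the cone. -/
private def dcoD (S : SplitG X) : ∀ i, (QN C.N (X.P i) × (Fin (S.r (i + 1)) → QQ C)) →ₗ[Λ]
    (QN C.N (X.P (i - 1)) × (Fin (S.r i) → QQ C))
  | 0 => 0
  | j + 1 => LinearMap.prod (-(qmap (Ideal.span {C.N}) (X.d j)) ∘ₗ LinearMap.fst Λ _ _)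
      (dcoF S (j + 1) ∘ₗ LinearMap.fst Λ _ _ + S.δ (j + 1) ∘ₗ LinearMap.snd Λ _ _)

private lemma dcoD_mk (S : SplitG X) (j : ℕ) (x : X.P (j + 1)) (y : Fin (S.r (j + 2)) → QQ C) :
    dcoD S (j + 1) (Submodule.Quotient.mk x, y) =
      ((Submodule.Quotient.mk (-(X.d j x)) : QN C.N (X.P j)), S.f (j + 1) x + S.δ (j + 1) y) := by
  rfl

private lemma dco_sub_fun {m : ℕ} (hm : m = 0) (R : Type) (a b : Fin m → R) : a = b := by
  subst hm
  exact Subsingleton.elim _ _

private lemma dco_zero (S : SplitG X) (p q : QN C.N (X.P 0) × (Fin (S.r 0) → QQ C)) : p = q := by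
  obtain ⟨a, b⟩ := p
  obtain ⟨a', b'⟩ := q
  obtain ⟨x, rfl⟩ := Submodule.Quotient.mk_surjective _ a
  obtain ⟨x', rfl⟩ := Submodule.Quotient.mk_surjective _ a'
  rw [dco_sub_fun S.r_zero _ b b', @Subsingleton.elim _ X.zero x x']

end

theorem sDCo : S_DCo := by
  intro Λ _ n C X S hn
  refine ⟨dcoD S, ?_, ?_⟩
  · intro p
    exact ⟨0, dco_zero S _ _⟩
  · intro i
    cases i with
    | zero =>
      rintro ⟨a, y⟩
      refine ⟨fun _ => ?_, fun _ => dco_zero S _ _⟩
      obtain ⟨x, rfl⟩ := Submodule.Quotient.mk_surjective _ a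
      obtain ⟨x', z, w, hx', hy⟩ := S.onto 0 y (dco_sub_fun S.r_zero _ _ _)
      refine ⟨(Submodule.Quotient.mk x', w), ?_⟩
      refine (dcoD_mk S 0 x' w).trans ?_
      rw [hy, @Subsingleton.elim _ X.zero (-(X.d 0 x')) x]
    | succ j =>
      rintro ⟨a, y⟩
      obtain ⟨x, rfl⟩ := Submodule.Quotient.mk_surjective _ a
      constructor
      · intro h
        rw [dcoD_mk] at h
        have h1 := congrArg Prod.fst h
        have h2 := congrArg Prod.snd h
        change (Submodule.Quotient.mk (-(X.d j x)) : QN C.N (X.P j)) = 0 at h1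
        change S.f (j + 1) x + S.δ (j + 1) y = 0 at h2
        rw [Submodule.Quotient.mk_eq_zero, Submodule.neg_mem_iff, dco_mem] at h1
        obtain ⟨z, hz⟩ := h1
        obtain ⟨u, v, huv⟩ := S.inj j x z (-y) hz (by
          rw [map_neg]; exact eq_neg_of_add_eq_zero_left h2)
        have h3 : S.δ (j + 1) (y + S.f (j + 2) u) = 0 := by
          have h4 : S.f (j + 1) x = S.f (j + 1) (X.d (j + 1) u) := by
            rw [huv, map_add, dco_f_N, add_zero]
          rw [map_add, S.chain, ← h4, add_comm (S.δ (j + 1) y), h2]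
        obtain ⟨x', z', w, hx', hy'⟩ := S.onto (j + 1) _ h3
        refine ⟨(Submodule.Quotient.mk (x' - u), w), ?_⟩
        refine (dcoD_mk S (j + 1) (x' - u) w).trans ?_
        refine Prod.ext ?_ ?_
        · change (Submodule.Quotient.mk (-(X.d (j + 1) (x' - u))) : QN C.N (X.P (j + 1))) =
            Submodule.Quotient.mk x
          rw [Submodule.Quotient.eq, dco_mem]
          refine ⟨-z' - v, ?_⟩
          rw [map_sub, hx', huv, smul_sub, smul_neg]
          abel
        · change S.f (j + 2) (x' - u) + S.δ (j + 2) w = y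
          rw [map_sub, eq_sub_of_add_eq hy'.symm]
          abel
      · rintro ⟨⟨b, w⟩, hb⟩
        obtain ⟨u, rfl⟩ := Submodule.Quotient.mk_surjective _ b
        have hb' := (dcoD_mk S (j + 1) u w).symm.trans hb
        have h1 := congrArg Prod.fst hb'
        have h2 := congrArg Prod.snd hb'
        change (Submodule.Quotient.mk (-(X.d (j + 1) u)) : QN C.N (X.P (j + 1))) =
          Submodule.Quotient.mk x at h1
        change S.f (j + 2) u + S.δ (j + 2) w = y at h2
        rw [← h1, dcoD_mk]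
        refine Prod.ext ?_ ?_
        · change (Submodule.Quotient.mk (-(X.d j (-(X.d (j + 1) u)))) : QN C.N (X.P j)) = 0
          rw [map_neg, X.dd, neg_zero, neg_zero]
          rfl
        · change S.f (j + 1) (-(X.d (j + 1) u)) + S.δ (j + 1) y = 0
          rw [← h2, map_neg, map_add, S.δδ, add_zero, S.chain, neg_add_cancel]

end HSp
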