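import Mathlib

/-!
# Project HS: definitions

Topological side: H-spaces in the sense of the problem, deck transformations, the singular chain
complex of `E` as a complex of modules over the group ring of a group of homeomorphisms of `E`.

Algebraic side: `CycData Λ n` collects the elementary properties of the group ring `Λ = ℤ[C_n]`
(`t = g - 1`, `N` the norm element), `Cx` is a bounded complex of finitely generated projective
modules with a contraction `h` of the multiplication by `t`.
-/

namespace HSp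

open CategoryTheory AlgebraicTopology

/-! ## Topology -/

/-- The wedge `X ∨ X ⊆ X × X` with base point `e`. -/
def Wedge (X : Type*) (e : X) : Set (X × X) := {z | z.1 = e ∨ z.2 = e}

/-- `μ : X × X → X` is an H-space multiplication with base point `e`: its restriction to
`X ∨ X` is (freely) homotopic to the fold map. -/
def IsHMul {X : Type*} [TopologicalSpace X] (e : X) (μ : C(X × X, X)) : Prop :=
  ∃ F : C(unitInterval × Wedge X e, X),
    (∀ x : X, F (0, ⟨(x, e), Or.inr rfl⟩) = x) ∧
    (∀ x : X, F (0, ⟨(e, x), Or.inl rfl⟩) = x) ∧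
    ∀ z : Wedge X e, F (1, z) = μ z.1

/-- The group of deck transformations of `p : E → X`. -/
def Deck {X E : Type*} [TopologicalSpace E] (p : E → X) : Subgroup (E ≃ₜ E) where
  carrier := {g | ∀ x, p (g x) = p x}
  mul_mem' := by
    intro a b ha hb x
    change p (a (b x)) = p x
    rw [ha, hb]
  one_mem' := fun _ => rfl
  inv_mem' := by
    intro a ha x
    have := ha (a⁻¹ x)
    rw [← this]
    congr 1
    exact a.apply_symm_apply x

/-- Property (N): every element of `Γ` is homotopic to the identity of `E` through maps which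
commute with all elements of `Γ`. -/
def PropN {E : Type*} [TopologicalSpace E] (Γ : Subgroup (E ≃ₜ E)) : Prop :=
  ∀ g : Γ, ∃ H : C(unitInterval × E, E), (∀ x, H (0, x) = x) ∧ (∀ x, H (1, x) = g.1 x) ∧
    ∀ (a : Γ) (s : unitInterval) (x : E), H (s, a.1 x) = a.1 (H (s, x))

section Sing

variable {E : Type} [TopologicalSpace E]

/-- The singular chain complex of `E` with integral coefficients. -/
noncomputable def SC (E : Type) [TopologicalSpace E] : ChainComplex (ModuleCat.{0} ℤ) ℕ :=
  ((singularChainComplexFunctor (ModuleCat.{0} ℤ)).obj (ModuleCat.of ℤ ℤ)).obj (TopCat.of E)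

/-- The chain map induced by a continuous map. -/
noncomputable def SCmap (f : C(E, E)) : SC E ⟶ SC E :=
  ((singularChainComplexFunctor (ModuleCat.{0} ℤ)).obj (ModuleCat.of ℤ ℤ)).map (TopCat.ofHom f)

lemma SCmap_id : SCmap (ContinuousMap.id E) = 𝟙 (SC E) := by
  unfold SCmap
  exact CategoryTheory.Functor.map_id _ _

lemma SCmap_comp (f g : C(E, E)) : SCmap (f.comp g) = SCmap g ≫ SCmap f :=
  CategoryTheory.Functor.map_comp
    ((singularChainComplexFunctor (ModuleCat.{0} ℤ)).obj (ModuleCat.of ℤ ℤ))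
    (TopCat.ofHom g) (TopCat.ofHom f)

/-- The action of a group `Γ` of homeomorphisms of `E` on `S_i(E)`. -/
noncomputable def rhoM (Γ : Subgroup (E ≃ₜ E)) (i : ℕ) : Γ →* Module.End ℤ ((SC E).X i) where
  toFun g := ((SCmap (g.1 : C(E, E))).f i).hom
  map_one' := by
    have : ((1 : Γ).1 : C(E, E)) = ContinuousMap.id E := rfl
    rw [this, SCmap_id]
    rfl
  map_mul' a b := by
    have : (((a * b : Γ).1 : E ≃ₜ E) : C(E, E)) = (a.1 : C(E, E)).comp (b.1 : C(E, E)) := rfl
    rw [this, SCmap_comp]
    rfl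

/-- The action of the group ring of `Γ` on `S_i(E)`. -/
noncomputable def rho (Γ : Subgroup (E ≃ₜ E)) (i : ℕ) :
    MonoidAlgebra ℤ Γ →+* Module.End ℤ ((SC E).X i) :=
  (MonoidAlgebra.lift ℤ (Module.End ℤ ((SC E).X i)) Γ (rhoM Γ i)).toRingHom

/-- `S_i(E)`, as a module over the group ring of `Γ`. -/
def SX (_Γ : Subgroup (E ≃ₜ E)) (i : ℕ) : Type := (SC E).X i

noncomputable instance (Γ : Subgroup (E ≃ₜ E)) (i : ℕ) : AddCommGroup (SX Γ i) :=
  inferInstanceAs (AddCommGroup ((SC E).X i))

noncomputable instance (Γ : Subgroup (E ≃ₜ E)) (i : ℕ) : Module (MonoidAlgebra ℤ Γ) (SX Γ i) :=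
  letI : Module (Module.End ℤ ((SC E).X i)) (SX Γ i) :=
    inferInstanceAs (Module (Module.End ℤ ((SC E).X i)) ((SC E).X i))
  Module.compHom (SX Γ i) (rho Γ i)

lemma SX_smul_def (Γ : Subgroup (E ≃ₜ E)) (i : ℕ) (a : MonoidAlgebra ℤ Γ) (x : SX Γ i) :
    a • x = (rho Γ i a : (SC E).X i →ₗ[ℤ] (SC E).X i) x := rfl

/-- The differential of the singular chain complex is linear over the group ring. -/
lemma SC_d_rho (Γ : Subgroup (E ≃ₜ E)) (i j : ℕ) (a : MonoidAlgebra ℤ Γ) (x : (SC E).X i) :
    ((SC E).d i j).hom ((rho Γ i a : (SC E).X i →ₗ[ℤ] (SC E).X i) x) =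
      (rho Γ j a : (SC E).X j →ₗ[ℤ] (SC E).X j) (((SC E).d i j).hom x) := by
  induction a using MonoidAlgebra.induction_on with
  | of g =>
    have h1 : ∀ i, rho Γ i (MonoidAlgebra.of ℤ Γ g) = rhoM Γ i g := fun i => by
      change MonoidAlgebra.lift ℤ (Module.End ℤ ((SC E).X i)) Γ (rhoM Γ i) _ = _
      exact MonoidAlgebra.lift_of _ _
    rw [h1, h1]
    have := (SCmap (g.1 : C(E, E))).comm i j
    exact congrArg (fun f => f.hom x) this
  | add a b ha hb =>
    rw [map_add, map_add, LinearMap.add_apply, LinearMap.add_apply, map_add, ha, hb]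
  | smul r a ha =>
    have h2 : ∀ i (y : (SC E).X i), (rho Γ i (r • a) : (SC E).X i →ₗ[ℤ] (SC E).X i) y =
        r • (rho Γ i a : (SC E).X i →ₗ[ℤ] (SC E).X i) y := fun i y => by
      rw [map_zsmul (rho Γ i) r a]
      rfl
    rw [h2, h2, map_zsmul, ha]

/-- The singular chain complex of `E` as a complex of modules over the group ring of `Γ`. -/
noncomputable def singL (Γ : Subgroup (E ≃ₜ E)) :
    ChainComplex (ModuleCat.{0} (MonoidAlgebra ℤ Γ)) ℕ where
  X i := ModuleCat.of (MonoidAlgebra ℤ Γ) (SX Γ i)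
  d i j := ModuleCat.ofHom
    { toFun := fun x => ((SC E).d i j).hom x
      map_add' := fun x y => map_add ((SC E).d i j).hom x y
      map_smul' := fun a x => SC_d_rho Γ i j a x }
  shape i j hij := by
    ext x
    change ((SC E).d i j).hom x = 0
    rw [(SC E).shape i j hij]
    rfl
  d_comp_d' i j k _ _ := by
    ext x
    change ((SC E).d j k).hom (((SC E).d i j).hom x) = 0
    exact congrArg (fun f => f.hom x) ((SC E).d_comp_d i j k)

/-- The differential `S_{i+1}(E) → S_i(E)` as a linear map over the group ring. -/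
noncomputable def dS (Γ : Subgroup (E ≃ₜ E)) (i : ℕ) :
    SX Γ (i + 1) →ₗ[MonoidAlgebra ℤ Γ] SX Γ i := ((singL Γ).d (i + 1) i).hom

end Sing

end HSp
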