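import Mathlib

/-!
# Project HS, third part (finite abelian p-groups): definitions for the relative steps 3 - 5

`S` is the group ring of `G` over a coefficient ring, `g ∈ G` generates a direct factor, `t = g - 1`, `N` is
the norm element of `⟨g⟩`, `Rb = S / (t, N)`.  All complexes are free and are written as one square matrix
(total differential) with a degree function on the index set.
-/

set_option autoImplicit false

namespace HSp

/-- Elementary properties of `S`, `t`, `N`, the projection `ρ : S → Rb = S/(t,N)` and the derivation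
`σ` along `ρ` (`σ (g^j y) = j y`). -/
structure RC (S Rb : Type) [CommRing S] [CommRing Rb] where
  t : S
  N : S
  c : Rb
  ρ : S →+* Rb
  σ : S →+ Rb
  surj : Function.Surjective ρ
  ρt : ρ t = 0
  ρN : ρ N = 0
  ker : ∀ x, ρ x = 0 → ∃ a b, x = t * a + N * b
  der : ∀ x y, σ (x * y) = σ x * ρ y + ρ x * σ y
  σt : σ t = 1
  σN : σ N = c
  tN : t * N = 0
  ker_t : ∀ x, t * x = 0 → ∃ y, x = N * y
  ker_N : ∀ x, N * x = 0 → ∃ y, x = t * y
  sep : ∀ x y, t * x = N * y → t * x = 0

/-- A bounded complex of free modules as a square matrix `d` with a degree function, and a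
contraction `h` of the multiplication by `t`. -/
structure TC (S I : Type) [CommRing S] [Fintype I] [DecidableEq I] (t : S) where
  d : Matrix I I S
  h : Matrix I I S
  deg : I → ℕ
  dd : d * d = 0
  dh : d * h + h * d = t • (1 : Matrix I I S)
  dl : ∀ a b, deg b ≠ deg a + 1 → d a b = 0
  hr : ∀ a b, deg a ≠ deg b + 1 → h a b = 0

section

variable {S Rb I : Type} [CommRing S] [CommRing Rb] [Fintype I] [DecidableEq I]

/-- The endomorphism `φ = 1 - η w`, `η = ρ(h)`, `w = σ(d)`. -/
def TC.phi (C : RC S Rb) (X : TC S I C.t) : Matrix I I Rb := 1 - X.h.map C.ρ * X.d.map C.σ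

end

/-! ## Homology of a square matrix with square zero, induced operators -/

section hom

variable {R I : Type} [CommRing R] [Fintype I]

/-- the cycles -/
def Zc (D : Matrix I I R) : Submodule R (I → R) := LinearMap.ker D.mulVecLin

/-- the boundaries, as a submodule of the cycles -/
def Bc (D : Matrix I I R) : Submodule R (Zc D) :=
  (LinearMap.range D.mulVecLin).comap (Zc D).subtype

/-- the homology -/
abbrev Hm (D : Matrix I I R) : Type := Zc D ⧸ Bc D

lemma mem_Zc {D : Matrix I I R} {x : I → R} : x ∈ Zc D ↔ D.mulVec x = 0 := Iff.rfl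

lemma mem_Bc {D : Matrix I I R} {x : Zc D} : x ∈ Bc D ↔ ∃ v, D.mulVec v = x.1 := Iff.rfl

/-- the class of a cycle -/
def cl (D : Matrix I I R) (x : I → R) (hx : D.mulVec x = 0) : Hm D :=
  Submodule.Quotient.mk (⟨x, hx⟩ : Zc D)

lemma cl_surj (D : Matrix I I R) (y : Hm D) : ∃ x hx, y = cl D x hx := by
  obtain ⟨⟨x, hx⟩, rfl⟩ := Submodule.Quotient.mk_surjective (Bc D) y
  exact ⟨x, hx, rfl⟩

lemma cl_eq_iff {D : Matrix I I R} {x y : I → R} {hx : D.mulVec x = 0} {hy : D.mulVec y = 0} :
    cl D x hx = cl D y hy ↔ ∃ v, D.mulVec v = x - y := by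
  unfold cl
  rw [Submodule.Quotient.eq]
  exact Iff.rfl

lemma cl_zero_iff {D : Matrix I I R} {x : I → R} {hx : D.mulVec x = 0} :
    cl D x hx = 0 ↔ ∃ v, D.mulVec v = x := by
  unfold cl
  rw [Submodule.Quotient.mk_eq_zero]
  exact Iff.rfl

lemma cl_congr {D : Matrix I I R} {x y : I → R} {hx : D.mulVec x = 0} {hy : D.mulVec y = 0}
    (h : x = y) : cl D x hx = cl D y hy := by
  subst h
  rfl

lemma cl_add {D : Matrix I I R} {x y : I → R} (hx : D.mulVec x = 0) (hy : D.mulVec y = 0)
    (hxy : D.mulVec (x + y) = 0) : cl D (x + y) hxy = cl D x hx + cl D y hy := rfl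

lemma cl_smul {D : Matrix I I R} {x : I → R} (r : R) (hx : D.mulVec x = 0)
    (h : D.mulVec (r • x) = 0) : cl D (r • x) h = r • cl D x hx := rfl

/-- `X` maps cycles to cycles and boundaries to boundaries. -/
def Pres (D X : Matrix I I R) : Prop :=
  (∀ x, D.mulVec x = 0 → D.mulVec (X.mulVec x) = 0) ∧ ∀ x, ∃ v, D.mulVec v = X.mulVec (D.mulVec x)

/-- The operator on the homology induced by `X`. -/
def ind (D X : Matrix I I R) (hX : Pres D X) : Module.End R (Hm D) :=
  (Bc D).mapQ (Bc D) (X.mulVecLin.restrict fun x hx => hX.1 x hx) (by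
    rintro ⟨x, hx⟩ ⟨v, hv⟩
    obtain ⟨v', hv'⟩ := hX.2 v
    refine ⟨v', ?_⟩
    change D.mulVec v' = X.mulVec x
    rw [hv']
    congr 1)

lemma ind_cl (D X : Matrix I I R) (hX : Pres D X) (x : I → R) (hx : D.mulVec x = 0) :
    ind D X hX (cl D x hx) = cl D (X.mulVec x) (hX.1 x hx) := rfl

lemma pres_anti {D X : Matrix I I R} (h : D * X + X * D = 0) : Pres D X := by
  have h1 : ∀ x, D.mulVec (X.mulVec x) + X.mulVec (D.mulVec x) = 0 := fun x => by
    have := congrArg (fun M : Matrix I I R => M.mulVec x) h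
    simpa [Matrix.add_mulVec, Matrix.mulVec_mulVec] using this
  refine ⟨fun x hx => ?_, fun x => ⟨-X.mulVec x, ?_⟩⟩
  · have := h1 x
    rwa [hx, Matrix.mulVec_zero, add_zero] at this
  · rw [Matrix.mulVec_neg]
    exact neg_eq_of_add_eq_zero_right (h1 x)

/-- `D X = Y D` and `D Z = X D`. -/
lemma pres_of {D X Y Z : Matrix I I R} (h : D * X = Y * D) (h' : D * Z = X * D) : Pres D X := by
  have h1 : ∀ x, D.mulVec (X.mulVec x) = Y.mulVec (D.mulVec x) := fun x => by
    have := congrArg (fun M : Matrix I I R => M.mulVec x) h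
    simpa [Matrix.mulVec_mulVec] using this
  have h2 : ∀ x, D.mulVec (Z.mulVec x) = X.mulVec (D.mulVec x) := fun x => by
    have := congrArg (fun M : Matrix I I R => M.mulVec x) h'
    simpa [Matrix.mulVec_mulVec] using this
  refine ⟨fun x hx => ?_, fun x => ⟨Z.mulVec x, h2 x⟩⟩
  rw [h1 x, hx, Matrix.mulVec_zero]

lemma pres_comm {D X : Matrix I I R} (h : D * X = X * D) : Pres D X := pres_of h h

lemma pres_mul {D X Y : Matrix I I R} (hX : Pres D X) (hY : Pres D Y) : Pres D (X * Y) := by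
  refine ⟨fun x hx => ?_, fun x => ?_⟩
  · rw [← Matrix.mulVec_mulVec]
    exact hX.1 _ (hY.1 x hx)
  · obtain ⟨v, hv⟩ := hY.2 x
    obtain ⟨v', hv'⟩ := hX.2 v
    exact ⟨v', by rw [hv', hv, Matrix.mulVec_mulVec]⟩

lemma pres_add {D X Y : Matrix I I R} (hX : Pres D X) (hY : Pres D Y) : Pres D (X + Y) := by
  refine ⟨fun x hx => ?_, fun x => ?_⟩
  · rw [Matrix.add_mulVec, Matrix.mulVec_add, hX.1 x hx, hY.1 x hx, add_zero]
  · obtain ⟨v, hv⟩ := hX.2 x
    obtain ⟨v', hv'⟩ := hY.2 x
    exact ⟨v + v', by rw [Matrix.mulVec_add, hv, hv', Matrix.add_mulVec]⟩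

lemma pres_neg {D X : Matrix I I R} (hX : Pres D X) : Pres D (-X) := by
  refine ⟨fun x hx => ?_, fun x => ?_⟩
  · rw [Matrix.neg_mulVec, Matrix.mulVec_neg, hX.1 x hx, neg_zero]
  · obtain ⟨v, hv⟩ := hX.2 x
    exact ⟨-v, by rw [Matrix.mulVec_neg, hv, Matrix.neg_mulVec]⟩

lemma pres_sub {D X Y : Matrix I I R} (hX : Pres D X) (hY : Pres D Y) : Pres D (X - Y) := by
  rw [sub_eq_add_neg]
  exact pres_add hX (pres_neg hY)

lemma pres_zero {D : Matrix I I R} : Pres D 0 := by
  refine ⟨fun x _ => ?_, fun x => ⟨0, ?_⟩⟩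
  · rw [Matrix.zero_mulVec, Matrix.mulVec_zero]
  · rw [Matrix.zero_mulVec, Matrix.mulVec_zero]

lemma pres_one [DecidableEq I] {D : Matrix I I R} : Pres D 1 := by
  refine ⟨fun x hx => ?_, fun x => ⟨x, ?_⟩⟩
  · rw [Matrix.one_mulVec, hx]
  · rw [Matrix.one_mulVec]

lemma pres_pow [DecidableEq I] {D X : Matrix I I R} (hX : Pres D X) (m : ℕ) : Pres D (X ^ m) := by
  induction m with
  | zero => rw [pow_zero]; exact pres_one
  | succ m ih => rw [pow_succ]; exact pres_mul ih hX

lemma ind_ext {D : Matrix I I R} {f g : Module.End R (Hm D)}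
    (h : ∀ x hx, f (cl D x hx) = g (cl D x hx)) : f = g := by
  refine LinearMap.ext fun y => ?_
  obtain ⟨x, hx, rfl⟩ := cl_surj D y
  exact h x hx

lemma ind_mul {D X Y : Matrix I I R} (hX : Pres D X) (hY : Pres D Y) (h : Pres D (X * Y)) :
    ind D (X * Y) h = ind D X hX * ind D Y hY := by
  refine ind_ext fun x hx => ?_
  rw [ind_cl, Module.End.mul_apply, ind_cl, ind_cl]
  exact cl_congr (Matrix.mulVec_mulVec x X Y).symm

lemma ind_add {D X Y : Matrix I I R} (hX : Pres D X) (hY : Pres D Y) (h : Pres D (X + Y)) :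
    ind D (X + Y) h = ind D X hX + ind D Y hY := by
  refine ind_ext fun x hx => ?_
  rw [ind_cl, LinearMap.add_apply, ind_cl, ind_cl]
  exact cl_congr (Matrix.add_mulVec X Y x)

lemma ind_sub {D X Y : Matrix I I R} (hX : Pres D X) (hY : Pres D Y) (h : Pres D (X - Y)) :
    ind D (X - Y) h = ind D X hX - ind D Y hY := by
  refine ind_ext fun x hx => ?_
  rw [ind_cl, LinearMap.sub_apply, ind_cl, ind_cl]
  exact cl_congr (Matrix.sub_mulVec X Y x)

lemma ind_one [DecidableEq I] {D : Matrix I I R} (h : Pres D 1) : ind D 1 h = 1 := by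
  refine ind_ext fun x hx => ?_
  rw [ind_cl, Module.End.one_apply]
  exact cl_congr (Matrix.one_mulVec x)

lemma ind_pow [DecidableEq I] {D X : Matrix I I R} (hX : Pres D X) (m : ℕ)
    (h : Pres D (X ^ m)) : ind D (X ^ m) h = ind D X hX ^ m := by
  induction m with
  | zero =>
    have : ∀ (Y : Matrix I I R) (hY : Pres D Y), Y = 1 → ind D Y hY = 1 := by
      rintro Y hY rfl
      exact ind_one hY
    exact (this _ h (pow_zero X)).trans (pow_zero _).symm
  | succ m ih =>
    have : ∀ (Y : Matrix I I R) (hY : Pres D Y), Y = X ^ m * X →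
        ind D Y hY = ind D (X ^ m) (pres_pow hX m) * ind D X hX := by
      rintro Y hY rfl
      exact ind_mul (pres_pow hX m) hX hY
    rw [this _ h (pow_succ X m), ih (pres_pow hX m), pow_succ]

/-- Equal matrices induce equal operators. -/
lemma ind_congr {D X Y : Matrix I I R} (hX : Pres D X) (hY : Pres D Y) (h : X = Y) :
    ind D X hX = ind D Y hY := by
  subst h
  rfl

/-- Null-homotopic operators induce zero. -/
lemma ind_null {D : Matrix I I R} (X K : Matrix I I R) (hX : Pres D X) (h : X = D * K + K * D) :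
    ind D X hX = 0 := by
  refine ind_ext fun x hx => ?_
  rw [ind_cl, LinearMap.zero_apply, cl_zero_iff]
  refine ⟨K.mulVec x, ?_⟩
  rw [h, Matrix.add_mulVec, ← Matrix.mulVec_mulVec, ← Matrix.mulVec_mulVec, hx,
    Matrix.mulVec_zero, add_zero]

end hom

section con

variable {S Rb I : Type} [CommRing S] [CommRing Rb] [Fintype I] [DecidableEq I]

/-- `W` is the connecting operator `w'` on the homology of `F = ρ(P)`: if `d u = t y + N z` then
`W [ρ u] = [ρ y]`. -/
def IsCon (C : RC S Rb) (X : TC S I C.t) (W : Module.End Rb (Hm (X.d.map C.ρ))) : Prop :=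
  ∀ u y z : I → S, X.d.mulVec u = C.t • y + C.N • z →
    ∃ (hu : (X.d.map C.ρ).mulVec (C.ρ ∘ u) = 0) (hy : (X.d.map C.ρ).mulVec (C.ρ ∘ y) = 0),
      W (cl (X.d.map C.ρ) (C.ρ ∘ u) hu) = cl (X.d.map C.ρ) (C.ρ ∘ y) hy

end con

/-- Additive maps of `S` used over the residue field `k`: the augmentation `ε`, two derivations
along `ε` and their second order companion. -/
structure RD (S k : Type) [CommRing S] [CommRing k] where
  ε : S →+* k
  δ1 : S →+ k
  δ2 : S →+ k
  δ12 : S →+ k
  der1 : ∀ x y, δ1 (x * y) = δ1 x * ε y + ε x * δ1 y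
  der2 : ∀ x y, δ2 (x * y) = δ2 x * ε y + ε x * δ2 y
  der12 : ∀ x y, δ12 (x * y) = δ12 x * ε y + δ1 x * δ2 y + δ2 x * δ1 y + ε x * δ12 y

/-- The diagonal projection onto the even (`b = true`) or odd (`b = false`) part. -/
def PP (k : Type) [CommRing k] {I : Type} [DecidableEq I] (deg : I → ℕ) (b : Bool) :
    Matrix I I k := Matrix.diagonal fun a => if decide (Even (deg a)) = b then 1 else 0

/-! ## Graded families as square matrices -/

section tot

/-- The index set of the total complex. -/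
abbrev TI (r : ℕ → ℕ) (D : ℕ) : Type := Σ i : Fin (D + 1), Fin (r i)

variable {A : Type} [CommRing A] {r : ℕ → ℕ}

/-- The total matrix of a family of degree `-1`. -/
def dT (D : ℕ) (d : ∀ i, Matrix (Fin (r i)) (Fin (r (i + 1))) A) :
    Matrix (TI r D) (TI r D) A := fun x y =>
  if h : y.1.val = x.1.val + 1 then d x.1 x.2 (Fin.cast (congrArg r h) y.2) else 0

/-- The total matrix of a family of degree `1`. -/
def hT (D : ℕ) (h : ∀ i, Matrix (Fin (r (i + 1))) (Fin (r i)) A) :
    Matrix (TI r D) (TI r D) A := fun x y =>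
  if hh : x.1.val = y.1.val + 1 then h y.1 (Fin.cast (congrArg r hh) x.2) y.2 else 0

/-- The blocks of degree `0` of a total matrix. -/
def blkT (D : ℕ) (e : Matrix (TI r D) (TI r D) A) (i : ℕ) : Matrix (Fin (r i)) (Fin (r i)) A :=
  fun a b => if h : i < D + 1 then e ⟨⟨i, h⟩, a⟩ ⟨⟨i, h⟩, b⟩ else 0

/-- The components of a total vector. -/
def cmpT (D : ℕ) (x : TI r D → A) (i : ℕ) : Fin (r i) → A :=
  fun a => if h : i < D + 1 then x ⟨⟨i, h⟩, a⟩ else 0

/-- The total vector with one component. -/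
def embT (D : ℕ) (i : ℕ) (v : Fin (r i) → A) : TI r D → A := fun x =>
  if h : x.1.val = i then v (Fin.cast (congrArg r h) x.2) else 0

end tot

end HSp
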