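import Pool.Agent.Lib.MP_181146_gt.HS.Spec

set_option autoImplicit false

/-!
# MP_181146_gt, package HS, ESL: `SL_m(ℤ) → SL_m(ℤ/n)` is onto
-/

namespace HSp

open Matrix

private theorem eslUnit (n : ℕ) (hn : 0 < n) (a b x y : ZMod n) (h : a * x + b * y = 1) :
    ∃ t : ZMod n, IsUnit (a + t * b) := by
  have : NeZero n := ⟨hn.ne'⟩
  obtain ⟨A, rfl⟩ : ∃ A : ℕ, (A : ZMod n) = a := ⟨a.val, by simp⟩
  obtain ⟨B, rfl⟩ : ∃ B : ℕ, (B : ZMod n) = b := ⟨b.val, by simp⟩
  let ps : Finset ℕ := {p ∈ n.primeFactors | ¬ p ∣ A}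
  refine ⟨((ps.prod id : ℕ) : ZMod n), ?_⟩
  have hc : (A + ps.prod id * B).Coprime n := by
    apply Nat.coprime_of_dvd
    intro p pp hp hpn
    by_cases hpx : p ∣ A
    · have h1 : p ∣ ps.prod id * B := (Nat.dvd_add_right hpx).mp hp
      rcases pp.dvd_mul.mp h1 with h2 | h2
      · obtain ⟨q, hq, hq'⟩ := (pp.prime.dvd_finsetProd_iff id).mp h2
        rw [Finset.mem_filter, Nat.mem_primeFactors,
          ← (Nat.prime_dvd_prime_iff_eq pp hq.1.1).mp hq'] at hq
        exact hq.2 hpx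
      · have : Fact p.Prime := ⟨pp⟩
        have h3 := congrArg (ZMod.castHom hpn (ZMod p)) h
        simp only [map_add, map_mul, map_natCast, map_one] at h3
        rw [(ZMod.natCast_eq_zero_iff A p).2 hpx, (ZMod.natCast_eq_zero_iff B p).2 h2] at h3
        simp at h3
    · have pps : p ∈ ps := Finset.mem_filter.mpr ⟨Nat.mem_primeFactors.mpr ⟨pp, hpn, hn.ne'⟩, hpx⟩
      have h1 : p ∣ ps.prod id * B := (Finset.dvd_prod_of_mem id pps).mul_right B
      exact hpx ((Nat.dvd_add_left h1).mp hp)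
  have h4 := (ZMod.isUnit_iff_coprime (A + ps.prod id * B) n).2 hc
  simpa using h4

/-- `M` has an integral lift of determinant one. -/
private def Lf {n m : ℕ} (M : Matrix (Fin m) (Fin m) (ZMod n)) : Prop :=
  ∃ N : Matrix (Fin m) (Fin m) ℤ, N.det = 1 ∧ N.map (Int.castRingHom (ZMod n)) = M

private theorem Lf.mul {n m : ℕ} {A B : Matrix (Fin m) (Fin m) (ZMod n)} (hA : Lf A) (hB : Lf B) :
    Lf (A * B) := by
  obtain ⟨N, hN, rfl⟩ := hA
  obtain ⟨P, hP, rfl⟩ := hB
  exact ⟨N * P, by rw [det_mul, hN, hP, one_mul], Matrix.map_mul⟩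

/-- The matrix `1 + x yᵀ`. -/
private def Tv {R : Type} [CommRing R] {m : ℕ} (x y : Fin m → R) : Matrix (Fin m) (Fin m) R :=
  1 + vecMulVec x y

private theorem tv_det {R : Type} [CommRing R] {m : ℕ} (x y : Fin m → R) (h : y ⬝ᵥ x = 0) :
    (Tv x y).det = 1 := by
  unfold Tv
  rw [vecMulVec_eq Unit, det_one_add_replicateCol_mul_replicateRow, h, add_zero]

private theorem tv_lf {n m : ℕ} (x y : Fin m → ℤ) (h : y ⬝ᵥ x = 0) :
    Lf (Tv (fun i => (x i : ZMod n)) (fun i => (y i : ZMod n))) := by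
  refine ⟨Tv x y, tv_det x y h, ?_⟩
  ext i j
  simp [Tv, vecMulVec_apply, Matrix.one_apply]

private theorem tv_lf' {n m : ℕ} (hn : 0 < n) (x y : Fin m → ZMod n) (h : ∀ i, x i = 0 ∨ y i = 0) :
    Lf (Tv x y) := by
  have : NeZero n := ⟨hn.ne'⟩
  have key : ∀ z : Fin m → ZMod n, ∃ w : Fin m → ℤ, (fun i => (w i : ZMod n)) = z ∧
      ∀ i, z i = 0 → w i = 0 := by
    intro z
    refine ⟨fun i => ((z i).val : ℤ), ?_, ?_⟩
    · funext i
      simp
    · intro i hi
      simp [hi]
  obtain ⟨x', hx, hx0⟩ := key x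
  obtain ⟨y', hy, hy0⟩ := key y
  have h2 : y' ⬝ᵥ x' = 0 := by
    unfold dotProduct
    apply Finset.sum_eq_zero
    intro i _
    rcases h i with h1 | h1
    · rw [hx0 i h1, mul_zero]
    · rw [hy0 i h1, zero_mul]
  have h3 := tv_lf (n := n) x' y' h2
  rwa [hx, hy] at h3

private theorem tv_neg {R : Type} [CommRing R] {m : ℕ} (x y : Fin m → R) (h : y ⬝ᵥ x = 0) :
    Tv (-x) y * Tv x y = 1 := by
  unfold Tv
  rw [add_mul, mul_add, mul_add, vecMulVec_mul_vecMulVec, h]
  simp [neg_vecMulVec]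

private theorem tv_cancel {n m : ℕ} (hn : 0 < n) (x y : Fin m → ZMod n)
    (h : ∀ i, x i = 0 ∨ y i = 0) (M : Matrix (Fin m) (Fin m) (ZMod n)) (hM : Lf (Tv x y * M)) :
    Lf M := by
  have h0 : y ⬝ᵥ x = 0 := by
    unfold dotProduct
    apply Finset.sum_eq_zero
    intro i _
    rcases h i with h1 | h1
    · rw [h1, mul_zero]
    · rw [h1, zero_mul]
  have h1 : Lf (Tv (-x) y) := tv_lf' hn _ _ (fun i => by
    rcases h i with h1 | h1
    · left
      simp [h1]
    · right
      exact h1)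
  have h2 := h1.mul hM
  rwa [← mul_assoc, tv_neg x y h0, one_mul] at h2

private theorem tv_cancel' {n m : ℕ} (hn : 0 < n) (x y : Fin m → ZMod n)
    (h : ∀ i, x i = 0 ∨ y i = 0) (M : Matrix (Fin m) (Fin m) (ZMod n)) (hM : Lf (M * Tv (-x) y)) :
    Lf M := by
  have h0 : y ⬝ᵥ x = 0 := by
    unfold dotProduct
    apply Finset.sum_eq_zero
    intro i _
    rcases h i with h1 | h1
    · rw [h1, mul_zero]
    · rw [h1, zero_mul]
  have h2 := hM.mul (tv_lf' hn x y h)
  rwa [mul_assoc, tv_neg x y h0, mul_one] at h2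

private theorem tv_mul_apply {R : Type} [CommRing R] {m : ℕ} (x y : Fin m → R)
    (M : Matrix (Fin m) (Fin m) R) (i j : Fin m) :
    (Tv x y * M) i j = M i j + x i * ∑ k, y k * M k j := by
  unfold Tv
  rw [add_mul, one_mul, Matrix.add_apply, Matrix.mul_apply, Finset.mul_sum]
  simp only [vecMulVec_apply, mul_assoc]

private theorem mul_tv_apply {R : Type} [CommRing R] {m : ℕ} (x y : Fin m → R)
    (M : Matrix (Fin m) (Fin m) R) (i j : Fin m) :
    (M * Tv x y) i j = M i j + (∑ k, M i k * x k) * y j := by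
  unfold Tv
  rw [mul_add, mul_one, Matrix.add_apply, Matrix.mul_apply, Finset.sum_mul]
  simp only [vecMulVec_apply, mul_assoc]

private theorem tv_mul_det {R : Type} [CommRing R] {m : ℕ} (x y : Fin m → R)
    (h : ∀ i, x i = 0 ∨ y i = 0) (M : Matrix (Fin m) (Fin m) R) : (Tv x y * M).det = M.det := by
  rw [det_mul, tv_det, one_mul]
  unfold dotProduct
  apply Finset.sum_eq_zero
  intro i _
  rcases h i with h1 | h1
  · rw [h1, mul_zero]
  · rw [h1, zero_mul]

/-- The block matrix with blocks `1` and `B`. -/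
private def blk {R : Type} [CommRing R] {m : ℕ} (B : Matrix (Fin m) (Fin m) R) :
    Matrix (Fin (m + 1)) (Fin (m + 1)) R :=
  fun i j => Fin.cases (Fin.cases 1 (fun _ => 0) j)
    (fun i' => Fin.cases (0 : R) (fun j' => B i' j') j) i

private theorem blk_det {R : Type} [CommRing R] {m : ℕ} (B : Matrix (Fin m) (Fin m) R) :
    (blk B).det = B.det := by
  rw [det_succ_row_zero, Fin.sum_univ_succ, Finset.sum_eq_zero]
  · have h1 : (blk B).submatrix Fin.succ (Fin.succAbove 0) = B := by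
      ext i j
      simp [blk]
    rw [h1]
    simp [blk]
  · intro j _
    simp [blk]

private theorem blk_map {n m : ℕ} (B : Matrix (Fin m) (Fin m) ℤ) :
    (blk B).map (Int.castRingHom (ZMod n)) = blk (B.map (Int.castRingHom (ZMod n))) := by
  ext i j
  refine Fin.cases ?_ (fun i' => ?_) i <;> refine Fin.cases ?_ (fun j' => ?_) j <;> simp [blk]

private theorem Lf.blk {n m : ℕ} {B : Matrix (Fin m) (Fin m) (ZMod n)} (h : Lf B) :
    Lf (blk B) := by
  obtain ⟨N, hN, rfl⟩ := h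
  exact ⟨HSp.blk N, by rw [blk_det, hN], blk_map N⟩

private theorem step5 {n m : ℕ} (hn : 0 < n)
    (IH : ∀ B : Matrix (Fin m) (Fin m) (ZMod n), B.det = 1 → Lf B)
    (M : Matrix (Fin (m + 1)) (Fin (m + 1)) (ZMod n)) (hd : M.det = 1) (h0 : M 0 0 = 1) : Lf M := by
  let x : Fin (m + 1) → ZMod n := fun i => if i = 0 then 0 else - M i 0
  let e : Fin (m + 1) → ZMod n := fun i => if i = 0 then 1 else 0
  let z : Fin (m + 1) → ZMod n := fun i => if i = 0 then 0 else M 0 i
  have hxe : ∀ i, x i = 0 ∨ e i = 0 := by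
    intro i
    by_cases hi : i = 0
    · left
      simp [x, hi]
    · right
      simp [e, hi]
  have hez : ∀ i, e i = 0 ∨ z i = 0 := by
    intro i
    by_cases hi : i = 0
    · right
      simp [z, hi]
    · left
      simp [e, hi]
  have h1 : ∀ i j, (Tv x e * M) i j = M i j + x i * M 0 j := by
    intro i j
    rw [tv_mul_apply]
    simp [e]
  have h2 : ∀ i j, (Tv x e * M * Tv (-e) z) i j
      = (Tv x e * M) i j - (Tv x e * M) i 0 * z j := by
    intro i j
    rw [mul_tv_apply]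
    simp [e, sub_eq_add_neg]
  have hd1 : (Tv x e * M).det = 1 := by rw [tv_mul_det x e hxe, hd]
  have hd2 : (Tv x e * M * Tv (-e) z).det = 1 := by
    rw [det_mul, hd1, one_mul]
    apply tv_det
    unfold dotProduct
    apply Finset.sum_eq_zero
    intro i _
    rcases hez i with h3 | h3
    · simp [h3]
    · simp [h3]
  apply tv_cancel hn x e hxe
  apply tv_cancel' hn e z hez
  have h4 : Tv x e * M * Tv (-e) z
      = blk ((Tv x e * M).submatrix Fin.succ Fin.succ) := by
    ext i j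
    rw [h2]
    refine Fin.cases ?_ (fun i' => ?_) i <;> refine Fin.cases ?_ (fun j' => ?_) j
    · rw [h1]
      simp [blk, x, z, h0]
    · rw [h1, h1]
      simp [blk, x, z, h0]
    · rw [h1]
      simp [blk, x, z, h0]
    · have h5 : (Tv x e * M) i'.succ 0 = 0 := by
        rw [h1]
        simp [x, h0]
      rw [h5]
      simp [blk]
  rw [h4]
  apply Lf.blk
  apply IH
  have h6 := blk_det ((Tv x e * M).submatrix Fin.succ Fin.succ)
  rw [← h6, ← h4, hd2]

private theorem step3 {n m : ℕ} (hn : 0 < n)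
    (IH : ∀ B : Matrix (Fin m) (Fin m) (ZMod n), B.det = 1 → Lf B)
    (M : Matrix (Fin (m + 1)) (Fin (m + 1)) (ZMod n)) (hd : M.det = 1) (i : Fin (m + 1))
    (hi : i ≠ 0) (h0 : M i 0 = 1) : Lf M := by
  let x : Fin (m + 1) → ZMod n := fun k => if k = 0 then 1 - M 0 0 else 0
  let e : Fin (m + 1) → ZMod n := fun k => if k = i then 1 else 0
  have hxe : ∀ k, x k = 0 ∨ e k = 0 := by
    intro k
    by_cases hk : k = 0
    · right
      simp [e, hk, hi.symm]
    · left
      simp [x, hk]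
  apply tv_cancel hn x e hxe
  apply step5 hn IH _ (by rw [tv_mul_det x e hxe, hd])
  rw [tv_mul_apply]
  simp [x, e, h0]

private theorem step2 {n m : ℕ} (hn : 0 < n)
    (IH : ∀ B : Matrix (Fin m) (Fin m) (ZMod n), B.det = 1 → Lf B)
    (M : Matrix (Fin (m + 1)) (Fin (m + 1)) (ZMod n)) (hd : M.det = 1) (i : Fin (m + 1))
    (hi : i ≠ 0) (h0 : IsUnit (M 0 0)) : Lf M := by
  obtain ⟨u, hu⟩ := h0
  let x : Fin (m + 1) → ZMod n := fun k => if k = i then (1 - M i 0) * ((u⁻¹ : (ZMod n)ˣ) : ZMod n) else 0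
  let e : Fin (m + 1) → ZMod n := fun k => if k = 0 then 1 else 0
  have hxe : ∀ k, x k = 0 ∨ e k = 0 := by
    intro k
    by_cases hk : k = 0
    · left
      simp [x, hk, hi.symm]
    · right
      simp [e, hk]
  apply tv_cancel hn x e hxe
  apply step3 hn IH _ (by rw [tv_mul_det x e hxe, hd]) i hi
  rw [tv_mul_apply]
  simp [x, e, ← hu, mul_assoc]

private theorem step1 {n m : ℕ} (hn : 0 < n)
    (IH : ∀ B : Matrix (Fin m) (Fin m) (ZMod n), B.det = 1 → Lf B)
    (M : Matrix (Fin (m + 1)) (Fin (m + 1)) (ZMod n)) (hd : M.det = 1) (i : Fin (m + 1))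
    (hi : i ≠ 0) : Lf M := by
  let c : Fin (m + 1) → ZMod n := fun k => (-1) ^ (k : ℕ) * det (M.submatrix k.succAbove Fin.succ)
  have hc : ∑ k, c k * M k 0 = 1 := by
    rw [← hd, det_succ_column_zero]
    apply Finset.sum_congr rfl
    intro k _
    simp only [c]
    ring
  rw [Fin.sum_univ_succ] at hc
  obtain ⟨t, ht⟩ := eslUnit n hn (M 0 0) (∑ k : Fin m, c k.succ * M k.succ 0) (c 0) 1
    (by rw [mul_one, mul_comm (M 0 0), hc])
  let x : Fin (m + 1) → ZMod n := fun k => if k = 0 then t else 0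
  let y : Fin (m + 1) → ZMod n := fun k => if k = 0 then 0 else c k
  have hxy : ∀ k, x k = 0 ∨ y k = 0 := by
    intro k
    by_cases hk : k = 0
    · right
      simp [y, hk]
    · left
      simp [x, hk]
  apply tv_cancel hn x y hxy
  apply step2 hn IH _ (by rw [tv_mul_det x y hxy, hd]) i hi
  rw [tv_mul_apply, Fin.sum_univ_succ]
  simpa [x, y] using ht

private theorem lf_all {n : ℕ} (hn : 0 < n) (m : ℕ) :
    ∀ M : Matrix (Fin m) (Fin m) (ZMod n), M.det = 1 → Lf M := by
  induction m with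
  | zero =>
    intro M _
    exact ⟨1, by simp, Subsingleton.elim _ _⟩
  | succ m IH =>
    intro M hd
    rcases Nat.eq_zero_or_pos m with h0 | h0
    · subst h0
      apply step5 hn IH M hd
      have h1 : M.det = M 0 0 := by
        rw [det_succ_row_zero]
        simp
      rw [← h1, hd]
    · exact step1 hn IH M hd ⟨1, by omega⟩ (by
        intro h
        have := congrArg Fin.val h
        simp at this)

/-- `SL_m(ℤ) → SL_m(ℤ/n)` is onto. -/
theorem sESL : S_ESL := by
  intro m n hn g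
  obtain ⟨N, hN, hg⟩ := lf_all hn m (g : Matrix (Fin m) (Fin m) (ZMod n)) g.2
  refine ⟨⟨N, hN⟩, ?_⟩
  apply Subtype.ext
  exact hg

end HSp
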