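import Pool.Agent.Lib.MP_181146_gt.HS.Spec

/-!
# Project HS, first part: assembly of part (A)
-/

set_option autoImplicit false

namespace HSp

private theorem mainAOne (hTOne : S_TOne) (Γ : Type) [Group Γ] (h1 : Subsingleton Γ) (K : ℕ)
    (Q : Fin K → Type) [∀ j, AddCommGroup (Q j)] [∀ j, Module (MonoidAlgebra ℤ Γ) (Q j)]
    (hfin : ∀ j, Module.Finite (MonoidAlgebra ℤ Γ) (Q j))
    (hproj : ∀ j, Module.Projective (MonoidAlgebra ℤ Γ) (Q j)) :
    ∃ r : ℕ, Nonempty ((∀ j, Q j) ≃ₗ[MonoidAlgebra ℤ Γ] (Fin r → MonoidAlgebra ℤ Γ)) := by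
  have hp : Module.Projective (MonoidAlgebra ℤ Γ) (∀ j, Q j) :=
    Module.Projective.of_equiv (DFinsupp.linearEquivFunOnFintype (R := MonoidAlgebra ℤ Γ)
      (M := Q))
  have hf : Module.Finite (MonoidAlgebra ℤ Γ) (∀ j, Q j) := Module.Finite.pi
  exact hTOne Γ (∀ j, Q j)

theorem sMainA (hAlgR : S_AlgR) (hTS : S_TS) (hTH : S_TH) (hTOne : S_TOne) : S_MainA := by
  intro E _ Γ hN hc q k hq hk P hfin hproj K hK heq
  by_cases h1 : 0 < k
  · obtain ⟨g, hg⟩ := hc.exists_generator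
    obtain ⟨hh, e0, e1⟩ := hTS E Γ hN g
    obtain ⟨eq⟩ := heq
    have hcomm : ∀ a : MonoidAlgebra ℤ Γ, (MonoidAlgebra.of ℤ Γ g - 1) * a =
        a * (MonoidAlgebra.of ℤ Γ g - 1) := by
      intro a
      let _ : CommGroup Γ := IsCyclic.commGroup
      exact mul_comm (G := MonoidAlgebra ℤ Γ) _ _
    obtain ⟨h, f0, f1⟩ := hTH (MonoidAlgebra ℤ Γ) (singL Γ) P eq (MonoidAlgebra.of ℤ Γ g - 1)
      hcomm hh e0 e1
    have hfin' : ∀ i, Module.Finite (MonoidAlgebra ℤ Γ) (P.X i) := hfin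
    have hproj' : ∀ i, Module.Projective (MonoidAlgebra ℤ Γ) (P.X i) := hproj
    obtain ⟨s, hs⟩ := hAlgR Γ hc q k hq h1 hk g hg (fun i => P.X i)
      (fun i => (P.d (i + 1) i).hom) h
      (fun i x => congrArg (fun f => f.hom x) (P.d_comp_d (i + 2) (i + 1) i)) f0 f1 K hK
    exact ⟨s, s, fun _ => rfl, hs⟩
  · have hsub : Subsingleton Γ := by
      have h2 : Nat.card Γ = 1 := by
        rw [hk]
        have h3 : k = 0 := by omega
        rw [h3, pow_zero]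
      exact (Nat.card_eq_one_iff_unique.1 h2).1
    obtain ⟨r, ⟨e⟩⟩ := mainAOne hTOne Γ hsub K (fun j => P.X (2 * (j : ℕ)))
      (fun j => hfin _) (fun j => hproj _)
    obtain ⟨r', ⟨e'⟩⟩ := mainAOne hTOne Γ hsub K (fun j => P.X (2 * (j : ℕ) + 1))
      (fun j => hfin _) (fun j => hproj _)
    refine ⟨r', r, fun h => absurd h h1, ⟨?_⟩⟩
    exact ((e.prodCongr e'.symm).trans (LinearEquiv.prodComm _ _ _))

end HSp
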