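import Pool.Agent.Lib.MP_181146_gt.HS.DefsC

/-!
# Project HS, third part (abelian `p`-groups, Swan subgroup), determinants and gluing.
Every statement is a separate task; the proof of each is in the docstring.

Notation: `Λ = ℤ[Γ]`, `S = ℤ_(p)[Γ]`, `K = ℚ[Γ]`, `n = |Γ|`, `N = nrG` the sum of the elements of `Γ`,
`e0 = N / n`, `w_a = 1 + ((a - 1) / n) N` (it is `a` at the trivial character, `1` elsewhere).
-/

set_option linter.unusedVariables false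
set_option autoImplicit false

namespace HSp

/-! ## Linear algebra over commutative rings -/

/-- **TNil.** `(d + k') (d + k) = 1 + nilpotent` on the even part.
Proof: on `x = (x_j)_j`, `x_j` of degree `2 j`, the composite is
`(d k + k' d) x_j + k' k x_{j-1} = x_j + δ d x_j + k' k x_{j-1}`, `δ = k' - k` (`d d = 0`, `d k = 1 - k d`), and
`d δ + δ d = 0`, so `(δ d)² = 0` and `ν = δ d + k' k` satisfies: `ν²` raises the degree by at least `2`;
by boundedness `ν` is nilpotent.  The same on the odd part. -/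
def S_TNil : Prop :=
  ∀ (L : Type) [CommRing L] (r : ℕ → ℕ) (D : ℕ) (hD : ∀ i, D < i → r i = 0)
    (d : ∀ i, Matrix (Fin (r i)) (Fin (r (i + 1))) L) (dd : ∀ i, d i * d (i + 1) = 0)
    (k k' : ∀ i, Matrix (Fin (r (i + 1))) (Fin (r i)) L) (hk : IsCtr d k) (hk' : IsCtr d k'),
    IsNilpotent (oe (N := fun i => Fin (r i) → L) (fun i => (d i).mulVecLin)
        (fun i => (k' i).mulVecLin) ∘ₗ
      eo (N := fun i => Fin (r i) → L) (fun i => (d i).mulVecLin) (fun i => (k i).mulVecLin) -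
        LinearMap.id : Module.End L (∀ j : ℕ, Fin (r (2 * j)) → L)) ∧
    IsNilpotent (eo (N := fun i => Fin (r i) → L) (fun i => (d i).mulVecLin)
        (fun i => (k' i).mulVecLin) ∘ₗ
      oe (N := fun i => Fin (r i) → L) (fun i => (d i).mulVecLin) (fun i => (k i).mulVecLin) -
        LinearMap.id : Module.End L (∀ j : ℕ, Fin (r (2 * j + 1)) → L))

/-- **TSq** (from TNil).  The even and the odd part have the same rank.
Proof: by TNil (`k' = k`) both composites of `d + k : odd → even` and `d + k : even → odd` are invertible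
(`1 +` nilpotent), so the odd and the even part are isomorphic; both have finite bases, indexed by the
sigma types (`r i = 0` for `i > D`); use invariance of the rank over a nontrivial commutative ring. -/
def S_TSq : Prop :=
  ∀ (L : Type) [CommRing L] [Nontrivial L] (r : ℕ → ℕ) (D : ℕ) (hD : ∀ i, D < i → r i = 0)
    (d : ∀ i, Matrix (Fin (r i)) (Fin (r (i + 1))) L) (dd : ∀ i, d i * d (i + 1) = 0)
    (k : ∀ i, Matrix (Fin (r (i + 1))) (Fin (r i)) L) (hk : IsCtr d k),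
    ∃ ρ : ℕ, Nonempty ((Σ j : ℕ, Fin (r (2 * j + 1))) ≃ Fin ρ) ∧
      Nonempty ((Σ j : ℕ, Fin (r (2 * j))) ≃ Fin ρ)

/-- **TDet** (from TNil).  `det (d + k' : odd → even) · det (d + k : even → odd) = 1` over a reduced
ring, for all contractions `k`, `k'`.
Proof: the product of the matrices is the matrix of the composite of TNil, conjugated by `cP sE`, so it
is `1 + ν`, `ν` nilpotent; the determinant of `1 + ν` is `1` over a reduced ring (the characteristic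
polynomial of a nilpotent matrix is `X^ρ` up to nilpotent coefficients:
`Matrix.isNilpotent_charpoly_sub_pow_of_isNilpotent`). -/
def S_TDet : Prop :=
  ∀ (L : Type) [CommRing L] [IsReduced L] (r : ℕ → ℕ) (D : ℕ) (hD : ∀ i, D < i → r i = 0)
    (d : ∀ i, Matrix (Fin (r i)) (Fin (r (i + 1))) L) (dd : ∀ i, d i * d (i + 1) = 0)
    (k k' : ∀ i, Matrix (Fin (r (i + 1))) (Fin (r i)) L) (hk : IsCtr d k) (hk' : IsCtr d k')
    (ρ : ℕ) (sO : (Σ j : ℕ, Fin (r (2 * j + 1))) ≃ Fin ρ) (sE : (Σ j : ℕ, Fin (r (2 * j))) ≃ Fin ρ),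
    (OEm sO sE d k').det * (EOm sO sE d k).det = 1

/-- **TUn** (from TNil).  Over any commutative ring the determinant of `d + k : odd → even` is a unit, `k` a
contraction (the product with `d + k : even → odd` is `1 +` nilpotent). -/
def S_TUn : Prop :=
  ∀ (L : Type) [CommRing L] (r : ℕ → ℕ) (D : ℕ) (hD : ∀ i, D < i → r i = 0)
    (d : ∀ i, Matrix (Fin (r i)) (Fin (r (i + 1))) L) (dd : ∀ i, d i * d (i + 1) = 0)
    (k : ∀ i, Matrix (Fin (r (i + 1))) (Fin (r i)) L) (hk : IsCtr d k)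
    (ρ : ℕ) (sO : (Σ j : ℕ, Fin (r (2 * j + 1))) ≃ Fin ρ) (sE : (Σ j : ℕ, Fin (r (2 * j))) ≃ Fin ρ),
    IsUnit (OEm sO sE d k).det

/-- **TCtr.** An exact complex of free modules, bounded below, has a contraction.
Proof: `k 0`: lift the standard basis along `d 0`; given `k i` with `d (k i) + k (i-1) d = 1` in degree `i`,
the columns of `1 - k i * d i` in degree `i + 1` are cycles (`d (1 - k d) = d - (1 - k d) d = 0`), lift them
along `d (i + 1)`.  (Dependent recursion: construct a sequence of pairs by `Nat.rec`, or use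
`exists` for initial segments and choice.) -/
def S_TCtr : Prop :=
  ∀ (B : Type) [CommRing B] (r : ℕ → ℕ) (d : ∀ i, Matrix (Fin (r i)) (Fin (r (i + 1))) B)
    (dd : ∀ i, d i * d (i + 1) = 0) (h0 : ∀ x : Fin (r 0) → B, ∃ y, (d 0).mulVec y = x)
    (hex : ∀ i (x : Fin (r (i + 1)) → B), (d i).mulVec x = 0 → ∃ y, (d (i + 1)).mulVec y = x),
    ∃ k : ∀ i, Matrix (Fin (r (i + 1))) (Fin (r i)) B, IsCtr d k

/-- **TAdp.** Adapted bases.  Proof: `Rb^r = im e ⊕ ker e`; `ker e` is f.g. projective over the local ring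
`Rb`, hence free, of rank `r - g`; bases of both give an invertible matrix over `Rb` with
`e Ā = Ā diag(1_g, 0)`.  Lift the entries to `B`: the determinant of the lift is a unit since its
image is. -/
def S_TAdp : Prop :=
  ∀ (B Rb : Type) [CommRing B] [CommRing Rb] [IsLocalRing Rb] (ρ : B →+* Rb)
    (hs : Function.Surjective ρ) (hl : ∀ x, IsUnit (ρ x) → IsUnit x) (r g : ℕ)
    (e : Matrix (Fin r) (Fin r) Rb) (he : e * e = e)
    (φ : Nonempty (LinearMap.range e.mulVecLin ≃ₗ[Rb] (Fin g → Rb))),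
    ∃ A A' : Matrix (Fin r) (Fin r) B, A * A' = 1 ∧ A' * A = 1 ∧
      e * A.map ρ = A.map ρ * Matrix.diagonal (fun i : Fin r => if (i : ℕ) < g then (1 : Rb) else 0) ∧
      g ≤ r

/-- **TRst.** The kernel of `e ρ` is an exact complex of free modules.
Here `ι i = A i * diagonal (t for a < g i, 1 else)`, with image `{x | e i (ρ x) = 0}`: for `x = A y`,
`e ρ(x) = ρ(A) diag(1, 0) ρ(y)` vanishes iff `y_a ∈ t B` for `a < g`.
Existence of `dZ`: `e ρ(d ι z) = ρ(d) e ρ(ι z) = 0`, so the rows `a < g i` of `A' i * d i * ι (i + 1)` are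
divisible by `t`.  `ι i` is injective (`t` is not a zero divisor), so `dZ dZ = 0`.
Exactness: `dZ i z = 0`, `x = ι z`: `d x = 0`, `e ρ x = 0`, so `x = d u` (`inj`); `y = e ρ u` satisfies
`e y = y`, `ρ(d) y = e ρ(d u) = e ρ x = 0`, so `y = e ρ x'` with `d x' = 0` (`onto`); `u - x' = ι z'`, and
`ι z = d (u - x') = d ι z' = ι dZ z'`, `z = dZ z'`. -/
def S_TRst : Prop :=
  ∀ (B Rb : Type) [CommRing B] [CommRing Rb] (ρ : B →+* Rb) (t : B)
    (ht : ∀ x, t * x = 0 → x = 0) (hρt : ρ t = 0) (hker : ∀ x, ρ x = 0 → ∃ y, x = t * y)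
    (r g : ℕ → ℕ) (hr0 : r 0 = 0) (d : ∀ i, Matrix (Fin (r i)) (Fin (r (i + 1))) B)
    (dd : ∀ i, d i * d (i + 1) = 0) (e : ∀ i, Matrix (Fin (r i)) (Fin (r i)) Rb)
    (idem : ∀ i, e i * e i = e i)
    (chain : ∀ i, (d i).map ρ * e (i + 1) = e i * (d i).map ρ)
    (onto : ∀ i (y : Fin (r (i + 1)) → Rb), (e (i + 1)).mulVec y = y → ((d i).map ρ).mulVec y = 0 →
      ∃ x : Fin (r (i + 1)) → B, (d i).mulVec x = 0 ∧ (e (i + 1)).mulVec (fun a => ρ (x a)) = y)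
    (inj : ∀ i (x : Fin (r (i + 1)) → B), (d i).mulVec x = 0 →
      (e (i + 1)).mulVec (fun a => ρ (x a)) = 0 → ∃ u, x = (d (i + 1)).mulVec u)
    (A A' : ∀ i, Matrix (Fin (r i)) (Fin (r i)) B) (hA : ∀ i, A i * A' i = 1)
    (hA' : ∀ i, A' i * A i = 1)
    (hAe : ∀ i, e i * (A i).map ρ =
      (A i).map ρ * Matrix.diagonal (fun a : Fin (r i) => if (a : ℕ) < g i then (1 : Rb) else 0)),
    ∃ dZ : ∀ i, Matrix (Fin (r i)) (Fin (r (i + 1))) B,
      (∀ i, A i * Matrix.diagonal (fun a : Fin (r i) => if (a : ℕ) < g i then t else 1) * dZ i =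
        d i * (A (i + 1) *
          Matrix.diagonal (fun a : Fin (r (i + 1)) => if (a : ℕ) < g (i + 1) then t else 1))) ∧
      (∀ i, dZ i * dZ (i + 1) = 0) ∧
      ∀ i (x : Fin (r (i + 1)) → B), (dZ i).mulVec x = 0 → ∃ y, (dZ (i + 1)).mulVec y = x

/-- **TDetI** (from TDet, TUn).  Determinants of two complexes related by `ι i = A i * diag(t, 1)`.
`kZ` a contraction of `dZ` over `B`; over `L` (where `t` is invertible) `ι i` is invertible and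
`k1 = ι kZ ι⁻¹` is a contraction of `d`.  `(d + k1) ι_odd = ι_even (dZ + kZ)`, so
`det (d + k1) · det ι_odd = det ι_even · det (dZ + kZ)`.  In the coordinates `cP`, `ι_odd` is the product of the
block matrix of the `A (2 j + 1)` (invertible over `B`) and of a diagonal matrix with
`∑_j g (2 j + 1)` entries `t`; similarly for `ι_even`; the two exponents of `t` agree by `hsum`
(`g i ≤ r i = 0` for `i > D`).  So `det (d + k1)` is the image of a unit of `B` (TUn for `kZ`).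
By TDet (for `k` and `k1`, both multiplied with `det (d + k : even → odd)`), it is `det (d + k)`. -/
def S_TDetI : Prop :=
  ∀ (B L : Type) [CommRing B] [CommRing L] [IsReduced L] (j : B →+* L) (t : B) (hjt : IsUnit (j t))
    (r g : ℕ → ℕ) (D : ℕ) (hD : ∀ i, D < i → r i = 0) (hg : ∀ i, g i ≤ r i)
    (hsum : ∑ i ∈ Finset.range (D + 1), (-1 : ℤ) ^ i * (g i : ℤ) = 0)
    (d dZ : ∀ i, Matrix (Fin (r i)) (Fin (r (i + 1))) B)
    (dd : ∀ i, d i * d (i + 1) = 0) (dZZ : ∀ i, dZ i * dZ (i + 1) = 0)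
    (A A' : ∀ i, Matrix (Fin (r i)) (Fin (r i)) B) (hA : ∀ i, A i * A' i = 1)
    (hA' : ∀ i, A' i * A i = 1)
    (hι : ∀ i, A i * Matrix.diagonal (fun a : Fin (r i) => if (a : ℕ) < g i then t else 1) * dZ i =
        d i * (A (i + 1) *
          Matrix.diagonal (fun a : Fin (r (i + 1)) => if (a : ℕ) < g (i + 1) then t else 1)))
    (kZ : ∀ i, Matrix (Fin (r (i + 1))) (Fin (r i)) B) (hkZ : IsCtr dZ kZ)
    (k : ∀ i, Matrix (Fin (r (i + 1))) (Fin (r i)) L) (hk : IsCtr (fun i => (d i).map j) k)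
    (ρ : ℕ) (sO : (Σ j : ℕ, Fin (r (2 * j + 1))) ≃ Fin ρ) (sE : (Σ j : ℕ, Fin (r (2 * j))) ≃ Fin ρ),
    ∃ u : B, IsUnit u ∧ (OEm sO sE (fun i => (d i).map j) k).det = j u

/-! ## Group rings -/

/-- **TLoc.** `S = ℤ_(p)[Γ]` for a `p`-group: `x` is a unit if its augmentation is.
Proof: for `q = p^m = |Γ|` (or large), `x^q ≡ (aug x)^q` modulo `p S` (`(a + b)^p ≡ a^p + b^p`, `γ^q = 1`,
`c^p ≡ c` modulo `p` in `ℤ_(p)`), so it is enough to see that `a + p y` is a unit, `a` a unit of `ℤ_(p)`: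
`S` is a f.g. `ℤ_(p)`-module, `S = (a + p y) S + p S`, Nakayama (`p` is in the Jacobson radical of the
local ring `ℤ_(p)`); or multiplication by `a + p y` has a determinant which is a unit modulo `p`. -/
def S_TLoc : Prop :=
  ∀ (p : ℕ) [Fact p.Prime] (Γ : Type) [CommGroup Γ] [Finite Γ] (hp : IsPGroup p Γ)
    (x : MonoidAlgebra (ZL p) Γ) (hx : IsUnit (aug (ZL p) Γ x)), IsUnit x

/-- **TZL.** `ℤ_(p)`: `x` is a unit iff `x` is not divisible by `p`; `p` is not a unit; `x ∈ ℚ` with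
`p^j x ∈ ℤ` and `x ∈ ℤ_(p)` is an integer; for every unit `x` of `ℤ_(p)` and every `k` there is a natural number
`a`, prime to `p`, with `a x - 1 ∈ p^k ℤ_(p)`. -/
def S_TZL : Prop :=
  ∀ (p : ℕ) [hp : Fact p.Prime],
    (∀ x : ZL p, IsUnit x ∨ ∃ y : ZL p, x = (p : ZL p) * y) ∧ ¬ IsUnit (p : ZL p) ∧
    (∀ (x : ZL p) (j : ℕ) (z : ℤ), (p : ℚ) ^ j * (x : ℚ) = z → ∃ z' : ℤ, (x : ℚ) = z') ∧
    ∀ (x : ZL p), IsUnit x → ∀ k : ℕ, ∃ a : ℕ, 0 < a ∧ a.Coprime p ∧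
      ∃ y : ZL p, (a : ZL p) * x - 1 = (p : ZL p) ^ k * y

/-- **TRg.** Ring facts for `t = g - 1`, `N_g = 1 + g + … + g^(n-1)`, over `ℤ_(p)` and over `ℚ`.
Proof: `t x = 0` says that the coefficients of `x` are constant on the cosets of `⟨g⟩`, so `x = N_g y` with `y`
supported on a set of representatives.  `t x = N_g y`: multiply by `N_g`: `0 = N_g² y = n N_g y`, so
`N_g y = 0`.  Over `ℚ` there is `s` with `t s = n - N_g`, so `t` is invertible modulo `N_g`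
(`s = - ∑ i g^i`-like: `∑_{i<n} (1 - g^i) = n - N_g` and each `1 - g^i` is a multiple of `t`).
Injectivity: if `sk x ∈ N_g K` then `t x = 0` (`t N_g = 0` and `sk` injective), so `x ∈ N_g S`. -/
def S_TRg : Prop :=
  ∀ (p : ℕ) [hp : Fact p.Prime] (Γ : Type) [CommGroup Γ] [Finite Γ] (g : Γ),
    (∀ x : MonoidAlgebra (ZL p) Γ, (MonoidAlgebra.of (ZL p) Γ g - 1) * x = 0 →
      ∃ y, x = nrC (ZL p) g * y) ∧
    (∀ x y : MonoidAlgebra (ZL p) Γ, (MonoidAlgebra.of (ZL p) Γ g - 1) * x = nrC (ZL p) g * y →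
      (MonoidAlgebra.of (ZL p) Γ g - 1) * x = 0) ∧
    ((MonoidAlgebra.of (ZL p) Γ g - 1) * nrC (ZL p) g = 0) ∧
    ((MonoidAlgebra.of ℚ Γ g - 1) * nrC ℚ g = 0) ∧
    (∃ s : MonoidAlgebra ℚ Γ, (MonoidAlgebra.of ℚ Γ g - 1) * s = (orderOf g : ℚ) • 1 - nrC ℚ g) ∧
    (sk p Γ (nrC (ZL p) g) = nrC ℚ g) ∧ Function.Injective (sk p Γ)

/-- **TRed.** `ℚ[Γ]` is reduced and Artinian, and `ℚ[Γ] / N_g` is reduced.
Proof: Maschke (`MonoidAlgebra` over a field of characteristic `0` is a semisimple ring) and a commutative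
semisimple ring is reduced; finite dimensional over `ℚ`, hence Artinian.  `e = N_g / |g|` is idempotent; if
`x^2 ∈ N_g K` then `((1 - e) x)^2 = 0`, so `x = e x ∈ N_g K`. -/
def S_TRed : Prop :=
  ∀ (Γ : Type) [CommGroup Γ] [Finite Γ],
    IsReduced (MonoidAlgebra ℚ Γ) ∧ IsArtinianRing (MonoidAlgebra ℚ Γ) ∧
    ∀ g : Γ, IsReduced (MonoidAlgebra ℚ Γ ⧸ Ideal.span {nrC ℚ g})

/-- **TDetS** (from TAdp, TRst, TCtr, TDetI, TLoc, TRg, TRed).  The determinant of a matrix `T` over `K = ℚ[Γ]`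
which induces `d + k` over `K / N_g` is, modulo `N_g`, a unit of `S = ℤ_(p)[Γ]`.
Proof: `B = S / N_g`, `Rb = S / (t, N_g)` (both local: `S` is local by TLoc and `hg`: they are not zero, as the
augmentation maps them onto `ℤ_(p)/n`, `n = orderOf g > 1` a power of `p`), `L = K / N_g`, `j : B → L`
induced by `sk`, `ρ : B → Rb` the projection.  `t` is not a zero divisor on `B` (TRg), `j t` is a unit (TRg).
The hypotheses `onto`, `inj` over `S` give those of TRst over `B`.  TAdp, TRst, TCtr, TDetI: the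
determinant of `T` modulo `N_g` is `j u`, `u` a unit of `B`; lift `u` and its inverse to `S`; a multiple of `N_g` is
killed by `t`. -/
def S_TDetS : Prop :=
  ∀ (p : ℕ) [Fact p.Prime] (Γ : Type) [CommGroup Γ] [Finite Γ] (hp : IsPGroup p Γ) (g : Γ)
    (hg : g ≠ 1) (r gk : ℕ → ℕ) (hr0 : r 0 = 0) (D : ℕ) (hD : ∀ i, D < i → r i = 0)
    (d : ∀ i, Matrix (Fin (r i)) (Fin (r (i + 1))) (MonoidAlgebra (ZL p) Γ))
    (dd : ∀ i, d i * d (i + 1) = 0)
    (e : ∀ i, Matrix (Fin (r i)) (Fin (r i)) (MonoidAlgebra (ZL p) Γ ⧸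
      Ideal.span {MonoidAlgebra.of (ZL p) Γ g - 1, nrC (ZL p) g}))
    (idem : ∀ i, e i * e i = e i)
    (chain : ∀ i, (d i).map (Ideal.Quotient.mk _) * e (i + 1) = e i * (d i).map (Ideal.Quotient.mk _))
    (onto : ∀ i (y : Fin (r (i + 1)) → MonoidAlgebra (ZL p) Γ ⧸
        Ideal.span {MonoidAlgebra.of (ZL p) Γ g - 1, nrC (ZL p) g}),
      (e (i + 1)).mulVec y = y → ((d i).map (Ideal.Quotient.mk _)).mulVec y = 0 →
      ∃ (x : Fin (r (i + 1)) → MonoidAlgebra (ZL p) Γ) (z : Fin (r i) → MonoidAlgebra (ZL p) Γ),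
        (d i).mulVec x = nrC (ZL p) g • z ∧
        (e (i + 1)).mulVec (fun a => Ideal.Quotient.mk _ (x a)) = y)
    (inj : ∀ i (x : Fin (r (i + 1)) → MonoidAlgebra (ZL p) Γ)
      (z : Fin (r i) → MonoidAlgebra (ZL p) Γ), (d i).mulVec x = nrC (ZL p) g • z →
      (e (i + 1)).mulVec (fun a => Ideal.Quotient.mk _ (x a)) = 0 →
      ∃ u v, x = (d (i + 1)).mulVec u + nrC (ZL p) g • v)
    (hφ : ∀ i, Nonempty (LinearMap.range (e i).mulVecLin ≃ₗ[MonoidAlgebra (ZL p) Γ ⧸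
      Ideal.span {MonoidAlgebra.of (ZL p) Γ g - 1, nrC (ZL p) g}] (Fin (gk i) →
        MonoidAlgebra (ZL p) Γ ⧸ Ideal.span {MonoidAlgebra.of (ZL p) Γ g - 1, nrC (ZL p) g})))
    (hsum : ∑ i ∈ Finset.range (D + 1), (-1 : ℤ) ^ i * (gk i : ℤ) = 0)
    (ρ : ℕ) (sO : (Σ j : ℕ, Fin (r (2 * j + 1))) ≃ Fin ρ) (sE : (Σ j : ℕ, Fin (r (2 * j))) ≃ Fin ρ)
    (T : Matrix (Fin ρ) (Fin ρ) (MonoidAlgebra ℚ Γ))
    (k : ∀ i, Matrix (Fin (r (i + 1))) (Fin (r i)) (MonoidAlgebra ℚ Γ ⧸ Ideal.span {nrC ℚ g}))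
    (hk : IsCtr (fun i => ((d i).map (sk p Γ)).map
      (Ideal.Quotient.mk (Ideal.span {nrC ℚ g}))) k)
    (hT : T.map (Ideal.Quotient.mk (Ideal.span {nrC ℚ g})) =
      OEm sO sE (fun i => ((d i).map (sk p Γ)).map
        (Ideal.Quotient.mk (Ideal.span {nrC ℚ g}))) k),
    ∃ u v : MonoidAlgebra (ZL p) Γ,
      (MonoidAlgebra.of ℚ Γ g - 1) * T.det = (MonoidAlgebra.of ℚ Γ g - 1) * sk p Γ u ∧
      (MonoidAlgebra.of ℚ Γ g - 1) * (sk p Γ (u * v) - 1) = 0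

/-- **TCrit** (from TLoc, TZL).  Proof: let `x x' = 1`.  For `g ∈ G`: `(g - 1) x = (g - 1) u` is in the image of
`S`, and `(g - 1) x' = (g - 1) x' u v = v x' (g - 1) u = v x' (g - 1) x = (g - 1) v` as well.  The set of all
`γ` with `(γ - 1) x, (γ - 1) x'` in the image of `S` is closed under products and inverses, so it is `Γ`.
The coefficient of `(γ - 1) x` at `1` is `x(γ⁻¹) - x(1)`, so `x = sk u1 + c N`, `x' = sk v1 + c' N` (`N = nrG`).
`sk (u1 v1) = 1 + c'' N` with `c'' ∈ ℤ_(p)`; so `aug u1 · aug v1 = 1 + n c''`; if `Γ` is not trivial `p ∣ n`, so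
`aug u1` is a unit and `u1` is a unit (TLoc); if `Γ` is trivial, choose `u1 = x` (`x ∈ ℤ_(p)^*` by the hypothesis
on `aug x`).  Then `x = sk u1 (1 + c1 N)` with `c1 = c / aug u1`, and `aug x = aug u1 (1 + n c1)`, so
`r' = 1 + n c1` is a unit of `ℤ_(p)`.  Take `a` with `a r' = 1 + n y`, `y ∈ ℤ_(p)` (TZL, `n` is a power of `p`).
`(1 + c1 N) (1 + ((a - 1)/n) N) = 1 + ((a r' - 1) / n) N = 1 + y N` is a unit of `S` (augmentation `1 + n y = a r'`
is a unit). -/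
def S_TCrit : Prop :=
  ∀ (p : ℕ) [Fact p.Prime] (Γ : Type) [CommGroup Γ] [Finite Γ] (hp : IsPGroup p Γ)
    (x x' : MonoidAlgebra ℚ Γ) (hx : x * x' = 1)
    (hε : ∃ b : ZL p, IsUnit b ∧ aug ℚ Γ x = (b : ℚ)) (G : Set Γ)
    (hG : Subgroup.closure G = ⊤)
    (h : ∀ g ∈ G, ∃ u v : MonoidAlgebra (ZL p) Γ,
      (MonoidAlgebra.of ℚ Γ g - 1) * x = (MonoidAlgebra.of ℚ Γ g - 1) * sk p Γ u ∧
      (MonoidAlgebra.of ℚ Γ g - 1) * (sk p Γ (u * v) - 1) = 0),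
    ∃ a : ℕ, 0 < a ∧ a.Coprime p ∧ ∃ u : MonoidAlgebra (ZL p) Γ, IsUnit u ∧
      x * (1 + (((a : ℚ) - 1) / (Nat.card Γ : ℚ)) • nrG ℚ Γ) = sk p Γ u

/-- **TGen.** A noncyclic finite abelian `p`-group is generated by elements `g` which generate direct
factors; for each of them there is a character modulo `p` which is `1` on `g` and vanishes on the complement,
and the complement contains an element `g'` with a character `λ` modulo `p`, `λ g = 0`, `λ g' = 1`.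
Proof: `CommGroup.equiv_prod_multiplicative_zmod_of_finite`: `Γ ≅ ∏ ℤ/(n i)`, `1 < n i`, each `n i` a power of
`p` (order of an element); at least two factors, as `Γ` is not cyclic.  `G` = the set of the
`g_i = Pi.mulSingle i (ofAdd 1)`, complement `{x | x i = 1}`, `g' = g_{i'}`, `λ = ` the coordinate `i'`
modulo `p`. -/
def S_TGen : Prop :=
  ∀ (p : ℕ) [Fact p.Prime] (Γ : Type) [CommGroup Γ] [Finite Γ] (hp : IsPGroup p Γ)
    (hnc : ¬ IsCyclic Γ),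
    ∃ G : Set Γ, Subgroup.closure G = ⊤ ∧ ∀ g ∈ G, g ≠ 1 ∧ ∃ Γ' : Subgroup Γ,
      IsCompl (Subgroup.zpowers g) Γ' ∧
      (∃ l : Γ →* Multiplicative (ZMod p), l g = Multiplicative.ofAdd 1 ∧ ∀ y ∈ Γ', l y = 1) ∧
      ∃ g' ∈ Γ', ∃ l : Γ →* Multiplicative (ZMod p), l g = 1 ∧ l g' = Multiplicative.ofAdd 1

/-! ## Gluing -/

/-- **TSLK.** Matrices of determinant `1` over a reduced Artinian commutative ring are products of
transvections.  Proof: over a field, `Matrix.Pivot.exists_list_transvec_mul_diagonal_mul_list_transvec`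
(or the version for the diagonal), and a diagonal matrix of determinant `1` is a product of transvections
(`diag(u, u⁻¹)` is a product of four).  In general `K ≅ ∏ K/𝔪` (finite product,
`IsArtinianRing.equivPi`); a transvection over one factor is a transvection over the product (entry `0` in
the other factors), and `T = ∏_𝔪 T_𝔪` where `T_𝔪` is `T` at `𝔪` and `1` elsewhere. -/
def S_TSLK : Prop :=
  ∀ (K : Type) [CommRing K] [IsReduced K] [IsArtinianRing K] (m : ℕ) (T : Matrix (Fin m) (Fin m) K)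
    (hT : T.det = 1), ∃ l : List (Matrix.TransvectionStruct (Fin m) K),
      T = (l.map Matrix.TransvectionStruct.toMatrix).prod

/-- `y ∈ ℤ[1/p][Γ]^m`, and the augmentation of `y 0` is in `a ℤ[1/p]`. -/
def OmA (p : ℕ) (Γ : Type) [Group Γ] (a : ℕ) {m : ℕ} (y : Fin m → MonoidAlgebra ℚ Γ) : Prop :=
  ∀ i, ∃ (j : ℕ) (z : MonoidAlgebra ℤ Γ), ((p : ℚ) ^ j) • y i = lk Γ z ∧
    ((i : ℕ) = 0 → (a : ℤ) ∣ aug ℤ Γ z)

/-- **TSA** (strong approximation).  Induction on the list: `τ = e_{ij}(x)`, the rest is `E k`.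
Write `x = y + z` with `y ∈ a ℤ[1/p][Γ]`, `z ∈ p^M S` (coefficientwise `ℚ = a ℤ[1/p] + p^M ℤ_(p)`), where `M` is so
large that `p^M E⁻¹ e_{ij}-unit E` has entries in the image of `S` (entries of `E`, `E⁻¹` are in `ℤ[1/p][Γ]`).
`e_{ij}(x) E k = e_{ij}(y) E · (E⁻¹ e_{ij}(z) E) k` and `E⁻¹ e_{ij}(z) E = 1 + z E⁻¹ E_{ij} E` has entries in
`S`, its inverse is `1 - z E⁻¹ E_{ij} E`.  `e_{ij}(y)` preserves `OmA` since `y` is a multiple of `a`.
(Carry in the induction that the entries of `E`, `E'` are in `ℤ[1/p][Γ]`.) -/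
def S_TSA : Prop :=
  ∀ (p : ℕ) [Fact p.Prime] (Γ : Type) [CommGroup Γ] [Finite Γ] (a : ℕ) (ha : a.Coprime p) (m : ℕ)
    (l : List (Matrix.TransvectionStruct (Fin m) (MonoidAlgebra ℚ Γ))),
    ∃ E E' k k' : Matrix (Fin m) (Fin m) (MonoidAlgebra ℚ Γ),
      (l.map Matrix.TransvectionStruct.toMatrix).prod = E * k ∧ E * E' = 1 ∧ E' * E = 1 ∧
      k * k' = 1 ∧ k' * k = 1 ∧
      (∀ i j, ∃ s : MonoidAlgebra (ZL p) Γ, k i j = sk p Γ s) ∧
      (∀ i j, ∃ s : MonoidAlgebra (ZL p) Γ, k' i j = sk p Γ s) ∧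
      (∀ y, OmA p Γ a y → OmA p Γ a (E.mulVec y)) ∧
      (∀ y, OmA p Γ a y → OmA p Γ a (E'.mulVec y))

/-- **TInt.** An element `v` of `K^m` which is in the `p`-part and in the `1/p`-part of the lattice `θ(M)` is
in `θ(M)`.  Proof: `p^j v = lk y`, `y ∈ Λ^m`; by `i2`, `θ x = p^j' lk y = p^(j+j') v`.  `T' v = sk w`, by
`ii2`: `θ x' = s T (sk w) = s v`, `p ∤ s`.  Bezout: `1 = α p^(j+j') + β s`, `v = θ (α x + β x')`. -/
def S_TInt : Prop :=
  ∀ (p : ℕ) [Fact p.Prime] (Γ : Type) [CommGroup Γ] [Finite Γ] (M : Type) [AddCommGroup M]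
    (m : ℕ) (θ : M →+ (Fin m → MonoidAlgebra ℚ Γ))
    (i2 : ∀ y : Fin m → MonoidAlgebra ℤ Γ, ∃ (j : ℕ) (x : M),
      θ x = ((p : ℚ) ^ j) • fun i => lk Γ (y i))
    (T T' : Matrix (Fin m) (Fin m) (MonoidAlgebra ℚ Γ)) (hT : T * T' = 1)
    (ii2 : ∀ w : Fin m → MonoidAlgebra (ZL p) Γ, ∃ s : ℤ, ¬ (p : ℤ) ∣ s ∧ ∃ x : M,
      θ x = (s : ℚ) • T.mulVec (fun i => sk p Γ (w i)))
    (v : Fin m → MonoidAlgebra ℚ Γ)
    (h1 : ∃ (j : ℕ) (y : Fin m → MonoidAlgebra ℤ Γ), ((p : ℚ) ^ j) • v = fun i => lk Γ (y i))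
    (h2 : ∃ w : Fin m → MonoidAlgebra (ZL p) Γ, T'.mulVec v = fun i => sk p Γ (w i)),
    ∃ x, θ x = v

/-- **TPL** (from TSLK, TRed, TSA, TInt, TZL).  Proof: `w_a = 1 + ((a-1)/n) N`, `w_a⁻¹ = 1 + ((1/a - 1)/n) N`,
`D = diag(w_a⁻¹, 1, …)`, `U = diag(sk u, 1, …)`, `T2 = D⁻¹ T U⁻¹` has determinant `1`; TSLK and TSA: `T2 = E k`.
Consider `ψ x = E' D⁻¹ (θ x)`.  `θ x ∈ Λ[1/p]^m` (i1), so `D⁻¹ θ x` satisfies `OmA` (if `p^j y_0 = lk z` then
`n p^j w_a y_0 = lk (n z + (a - 1) (aug z) N)`, of augmentation `n a (aug z)`; `n` is a power of `p`), and so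
does `ψ x`.  `θ x = T (sk w)` (ii1), `ψ x = E' D⁻¹ T w = E' T2 U w = k U w` is in the image of `S^m`.  So
`ψ x ∈ (Λ[1/p] ∩ S)^m = Λ^m` (TZL), and `a ∣ aug (ψ x)_0` (`a` prime to `p`).  Conversely for `y ∈ Λ^m` with
`a ∣ aug y_0`: `v = D E y` is in `Λ[1/p]^m` and `T' v = U⁻¹ k' y` is in the image of `S^m`, so `v = θ x` by TInt.
Hence `M ≅ {y ∈ Λ^m | a ∣ aug y_0} ≅ J_a × Λ^(m-1)`. -/
def S_TPL : Prop :=
  ∀ (p : ℕ) [Fact p.Prime] (Γ : Type) [CommGroup Γ] [Finite Γ] (hp : IsPGroup p Γ)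
    (M : Type) [AddCommGroup M] [Module (MonoidAlgebra ℤ Γ) M] (m : ℕ)
    (θ : M →+ (Fin (m + 1) → MonoidAlgebra ℚ Γ)) (hs : ∀ a x, θ (a • x) = lk Γ a • θ x)
    (hinj : Function.Injective θ)
    (i1 : ∀ x : M, ∃ (j : ℕ) (y : Fin (m + 1) → MonoidAlgebra ℤ Γ),
      ((p : ℚ) ^ j) • θ x = fun i => lk Γ (y i))
    (i2 : ∀ y : Fin (m + 1) → MonoidAlgebra ℤ Γ, ∃ (j : ℕ) (x : M),
      θ x = ((p : ℚ) ^ j) • fun i => lk Γ (y i))
    (T T' : Matrix (Fin (m + 1)) (Fin (m + 1)) (MonoidAlgebra ℚ Γ)) (hT : T * T' = 1)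
    (hT' : T' * T = 1)
    (ii1 : ∀ x : M, ∃ w : Fin (m + 1) → MonoidAlgebra (ZL p) Γ,
      T'.mulVec (θ x) = fun i => sk p Γ (w i))
    (ii2 : ∀ w : Fin (m + 1) → MonoidAlgebra (ZL p) Γ, ∃ s : ℤ, ¬ (p : ℤ) ∣ s ∧ ∃ x : M,
      θ x = (s : ℚ) • T.mulVec (fun i => sk p Γ (w i)))
    (a : ℕ) (ha0 : 0 < a) (ha : a.Coprime p) (u : MonoidAlgebra (ZL p) Γ) (hu : IsUnit u)
    (hdet : T.det * (1 + (((a : ℚ) - 1) / (Nat.card Γ : ℚ)) • nrG ℚ Γ) = sk p Γ u),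
    Nonempty (M ≃ₗ[MonoidAlgebra ℤ Γ] (SwJ Γ a × (Fin m → MonoidAlgebra ℤ Γ)))

/-- **TFr.** (from TLoc, TZL) `p`-local coordinates of a f.g. projective module.
Proof: `S` is a local ring (TLoc: the nonunits are the elements whose augmentation is divisible by `p`).
`M` is a direct summand of `Λ^m`: `M = im ε`, `ε` an idempotent matrix over `Λ`; the image of `ε` over `S` is f.g.
projective, hence free over the local ring `S`: choose a basis, giving matrices `α` (`m × ρ`), `β` (`ρ × m`)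
over `S` with `β α = 1`, `α β = ε`.  `κ x = β (ls x)` (injective: `x = ε x = α β x` and `ls` is injective);
density: for `y ∈ S^ρ`, `α y ∈ ε S^m`; multiply by the denominators `s`. -/
def S_TFr : Prop :=
  ∀ (p : ℕ) [Fact p.Prime] (Γ : Type) [CommGroup Γ] [Finite Γ] (hp : IsPGroup p Γ)
    (M : Type) [AddCommGroup M] [Module (MonoidAlgebra ℤ Γ) M]
    [Module.Finite (MonoidAlgebra ℤ Γ) M] [Module.Projective (MonoidAlgebra ℤ Γ) M],
    ∃ ρ : ℕ, Nonempty (PCo p Γ M ρ)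

/-- **TMat.** Linear maps in coordinates.  Existence: for the `j`-th unit vector choose `x_j ∈ M`, `s_j` prime
to `p` with `κ x_j = s_j e_j`; the `j`-th column of `F` is `κ' (f x_j) / s_j` (`s_j` is a unit of `ℤ_(p)`).  For
`x ∈ M` let `s` be a common denominator of the coordinates: `s κ x = ls λ`, `λ ∈ Λ^ρ`; compare
`(∏ s_j) s x` with `∑ λ_j (∏_{i ≠ j} s_i) x_j` (same image under the injective `κ`).  Uniqueness: the image of
`κ` contains multiples of the unit vectors. -/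
def S_TMat : Prop :=
  ∀ (p : ℕ) [Fact p.Prime] (Γ : Type) [CommGroup Γ] [Finite Γ]
    (M M' : Type) [AddCommGroup M] [Module (MonoidAlgebra ℤ Γ) M] [AddCommGroup M']
    [Module (MonoidAlgebra ℤ Γ) M'] (ρ ρ' : ℕ) (C : PCo p Γ M ρ) (C' : PCo p Γ M' ρ'),
    (∀ f : M →ₗ[MonoidAlgebra ℤ Γ] M', ∃ F : Matrix (Fin ρ') (Fin ρ) (MonoidAlgebra (ZL p) Γ),
      ∀ x, C'.κ (f x) = F.mulVec (C.κ x)) ∧
    ∀ F F' : Matrix (Fin ρ') (Fin ρ) (MonoidAlgebra (ZL p) Γ),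
      (∀ x, F.mulVec (C.κ x) = F'.mulVec (C.κ x)) → F = F'

/-- **TPL2** (from TPL, TFr, TMat).  Gluing for projective modules.
Proof: choose `Q` with `j : M × Q ≅ Λ^m'` (`m' ≥ 1`) and `p`-local coordinates `κ_Q` of `Q` (TFr); in coordinates `j`
is an invertible matrix `U` over `S`, `m' = ρ + q`.  `θ : M' × Q → K^m'`, `θ (x, y) = U (T κ'(x), κ_Q(y))`, is as in
TPL with the matrix `U (T ⊕ 1)`, of determinant `det U · det T`.  So `M' × Q ≅ J_a × Λ^(m'-1)`, and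
`M' × Λ^m' ≅ M' × (M × Q) ≅ M × (M' × Q) ≅ M × (J_a × Λ^(m'-1))`. -/
def S_TPL2 : Prop :=
  ∀ (p : ℕ) [Fact p.Prime] (Γ : Type) [CommGroup Γ] [Finite Γ] (hp : IsPGroup p Γ)
    (M M' : Type) [AddCommGroup M] [Module (MonoidAlgebra ℤ Γ) M] [AddCommGroup M']
    [Module (MonoidAlgebra ℤ Γ) M'] [Module.Finite (MonoidAlgebra ℤ Γ) M]
    [Module.Projective (MonoidAlgebra ℤ Γ) M] (ρ : ℕ) (C : PCo p Γ M ρ) (C' : PCo p Γ M' ρ)
    (T T' : Matrix (Fin ρ) (Fin ρ) (MonoidAlgebra ℚ Γ)) (hT : T * T' = 1) (hT' : T' * T = 1)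
    (i1 : ∀ x : M', ∃ (j : ℕ) (y : M),
      ((p : ℚ) ^ j) • T.mulVec (fun i => sk p Γ (C'.κ x i)) = fun i => sk p Γ (C.κ y i))
    (i2 : ∀ y : M, ∃ (j : ℕ) (x : M'),
      T.mulVec (fun i => sk p Γ (C'.κ x i)) = ((p : ℚ) ^ j) • fun i => sk p Γ (C.κ y i))
    (a : ℕ) (ha0 : 0 < a) (ha : a.Coprime p) (u : MonoidAlgebra (ZL p) Γ) (hu : IsUnit u)
    (hdet : T.det * (1 + (((a : ℚ) - 1) / (Nat.card Γ : ℚ)) • nrG ℚ Γ) = sk p Γ u),
    ∃ m : ℕ, Nonempty ((M' × (Fin (m + 1) → MonoidAlgebra ℤ Γ)) ≃ₗ[MonoidAlgebra ℤ Γ]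
      (M × (SwJ Γ a × (Fin m → MonoidAlgebra ℤ Γ))))

/-- **TY0.** The trivial component.  `Y = {aug κ(x)} ⊆ ℤ_(p)^ρ` is a f.g. torsion free `ℤ`-module, hence free; a
`ℤ`-basis of `Y` is a `ℤ_(p)`-basis of `ℤ_(p)^ρ` (it spans by density; it is independent over `ℚ`: a
relation over `ℚ` gives one over `ℤ`), so it has `ρ` elements and its matrix is invertible over `ℤ_(p)`.  `T0` maps
the basis of `Y'` to the basis of `Y`. -/
def S_TY0 : Prop :=
  ∀ (p : ℕ) [Fact p.Prime] (Γ : Type) [CommGroup Γ] [Finite Γ]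
    (M M' : Type) [AddCommGroup M] [Module (MonoidAlgebra ℤ Γ) M] [AddCommGroup M']
    [Module (MonoidAlgebra ℤ Γ) M'] [Module.Finite (MonoidAlgebra ℤ Γ) M]
    [Module.Finite (MonoidAlgebra ℤ Γ) M'] (ρ : ℕ) (C : PCo p Γ M ρ) (C' : PCo p Γ M' ρ),
    ∃ T0 T0' : Matrix (Fin ρ) (Fin ρ) (ZL p), T0 * T0' = 1 ∧ T0' * T0 = 1 ∧
      (∀ x : M', ∃ y : M, T0.mulVec (fun i => aug (ZL p) Γ (C'.κ x i)) =
        fun i => aug (ZL p) Γ (C.κ y i)) ∧
      (∀ y : M, ∃ x : M', T0.mulVec (fun i => aug (ZL p) Γ (C'.κ x i)) =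
        fun i => aug (ZL p) Γ (C.κ y i))

/-- **TTot.** Coordinates of the odd and of the even part (any index function `q`, the modules
`X (q j)` vanish for large `j`).  Density: common denominator of finitely many coordinates. -/
def S_TTot : Prop :=
  ∀ (p : ℕ) [Fact p.Prime] (Γ : Type) [CommGroup Γ] [Finite Γ] (X : ℕ → Type)
    [∀ i, AddCommGroup (X i)] [∀ i, Module (MonoidAlgebra ℤ Γ) (X i)] (r : ℕ → ℕ)
    (C : ∀ i, PCo p Γ (X i) (r i)) (D : ℕ) (hD : ∀ i, D < i → r i = 0) (ρ : ℕ)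
    (s : (Σ j : ℕ, Fin (r j)) ≃ Fin ρ),
    ∃ T : PCo p Γ (∀ j, X j) ρ, ∀ x, T.κ x = (cP s).symm (fun j => (C j).κ (x j))

/-- **TUnK** (from TUn, TRed).  The matrix `T = (1 - e0) (d + k) + e0 T0` over `K` is invertible, `e0 = N/n`,
`d k + k d = 1 - e0`.  Proof: modulo `e0`, `k` is a contraction, so `det T` is a unit modulo `e0` (TUn);
modulo `1 - e0`, `T = T0`, invertible.  So `det T` is a unit of `K ≅ K/e0 × K/(1 - e0)`.  And the augmentation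
kills `1 - e0`, so the augmentation of `det T` is `det T0`. -/
def S_TUnK : Prop :=
  ∀ (Γ : Type) [CommGroup Γ] [Finite Γ] (r : ℕ → ℕ) (D : ℕ) (hD : ∀ i, D < i → r i = 0)
    (d : ∀ i, Matrix (Fin (r i)) (Fin (r (i + 1))) (MonoidAlgebra ℚ Γ))
    (dd : ∀ i, d i * d (i + 1) = 0)
    (k : ∀ i, Matrix (Fin (r (i + 1))) (Fin (r i)) (MonoidAlgebra ℚ Γ))
    (e0 : MonoidAlgebra ℚ Γ) (he0 : (Nat.card Γ : ℚ) • e0 = nrG ℚ Γ)
    (hk0 : d 0 * k 0 = (1 - e0) • 1)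
    (hk : ∀ i, d (i + 1) * k (i + 1) + k i * d i = (1 - e0) • 1)
    (ρ : ℕ) (sO : (Σ j : ℕ, Fin (r (2 * j + 1))) ≃ Fin ρ) (sE : (Σ j : ℕ, Fin (r (2 * j))) ≃ Fin ρ)
    (T0 T0' : Matrix (Fin ρ) (Fin ρ) ℚ) (hT0 : T0 * T0' = 1) (hT0' : T0' * T0 = 1),
    (∃ T' : Matrix (Fin ρ) (Fin ρ) (MonoidAlgebra ℚ Γ),
      ((1 - e0) • OEm sO sE d k + e0 • T0.map (algebraMap ℚ (MonoidAlgebra ℚ Γ))) * T' = 1 ∧
      T' * ((1 - e0) • OEm sO sE d k + e0 • T0.map (algebraMap ℚ (MonoidAlgebra ℚ Γ))) = 1) ∧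
    aug ℚ Γ ((1 - e0) • OEm sO sE d k +
      e0 • T0.map (algebraMap ℚ (MonoidAlgebra ℚ Γ))).det = T0.det

/-- **TInc** (from TNil, TTot).  The matrix `T = (1 - e0) (d + H/n) + e0 T0` maps the `1/p`-part of the odd
lattice onto that of the even lattice.
Proof: write `Ω_O` for the set of all `v ∈ K^ρ` such that `p^j v = κ_O(x)` for some `j`, `x`, and `Ω_E` similarly;
they are stable under `ℤ[1/p][Γ]` (`n = p^m`, so `e0 ∈ ℤ[1/p][Γ]`).  `T` maps `Ω_O` into `Ω_E`: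
`e0 T0 κ_O(x) = e0 T0 (aug κ_O(x)) = e0 (aug κ_E(y)) = e0 κ_E(y)`.  `T1 = (1 - e0) (d + H/n : even → odd) + e0 T0'` maps
`Ω_E` into `Ω_O` in the same way, and `T T1 = 1 + (1 - e0) ν`, `ν = (H/n)^2` on the even part (`d (H/n) + (H/n) d =
1 - e0`, `d d = 0`), which is nilpotent and maps `Ω_E` to itself, so `T T1` is bijective on `Ω_E` and `T : Ω_O → Ω_E`
is onto.  Only `i1`, `i2` for elements of the lattices are claimed. -/
def S_TInc : Prop :=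
  ∀ (p : ℕ) [Fact p.Prime] (Γ : Type) [CommGroup Γ] [Finite Γ] (hp : IsPGroup p Γ) (X : ℕ → Type)
    [∀ i, AddCommGroup (X i)] [∀ i, Module (MonoidAlgebra ℤ Γ) (X i)] (r : ℕ → ℕ)
    (C : ∀ i, PCo p Γ (X i) (r i)) (D : ℕ) (hD : ∀ i, D < i → r i = 0)
    (dx : ∀ i, X (i + 1) →ₗ[MonoidAlgebra ℤ Γ] X i) (hx : ∀ i, X i →ₗ[MonoidAlgebra ℤ Γ] X (i + 1))
    (d : ∀ i, Matrix (Fin (r i)) (Fin (r (i + 1))) (MonoidAlgebra (ZL p) Γ))
    (h : ∀ i, Matrix (Fin (r (i + 1))) (Fin (r i)) (MonoidAlgebra (ZL p) Γ))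
    (hdx : ∀ i x, (C i).κ (dx i x) = (d i).mulVec ((C (i + 1)).κ x))
    (hhx : ∀ i x, (C (i + 1)).κ (hx i x) = (h i).mulVec ((C i).κ x))
    (dd : ∀ i, d i * d (i + 1) = 0)
    (dh0 : d 0 * h 0 = ((Nat.card Γ : MonoidAlgebra (ZL p) Γ) - nrG (ZL p) Γ) • 1)
    (dh : ∀ i, d (i + 1) * h (i + 1) + h i * d i =
      ((Nat.card Γ : MonoidAlgebra (ZL p) Γ) - nrG (ZL p) Γ) • 1)
    (ρ : ℕ) (sO : (Σ j : ℕ, Fin (r (2 * j + 1))) ≃ Fin ρ) (sE : (Σ j : ℕ, Fin (r (2 * j))) ≃ Fin ρ)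
    (CO : PCo p Γ (∀ j, X (2 * j + 1)) ρ) (CE : PCo p Γ (∀ j, X (2 * j)) ρ)
    (hCO : ∀ x, CO.κ x = (cP sO).symm (fun j => (C (2 * j + 1)).κ (x j)))
    (hCE : ∀ x, CE.κ x = (cP sE).symm (fun j => (C (2 * j)).κ (x j)))
    (T0 T0' : Matrix (Fin ρ) (Fin ρ) (ZL p)) (hT0 : T0 * T0' = 1) (hT0' : T0' * T0 = 1)
    (hy : ∀ x, ∃ y, T0.mulVec (fun i => aug (ZL p) Γ (CO.κ x i)) =
      fun i => aug (ZL p) Γ (CE.κ y i))
    (hy' : ∀ y, ∃ x, T0.mulVec (fun i => aug (ZL p) Γ (CO.κ x i)) =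
      fun i => aug (ZL p) Γ (CE.κ y i))
    (e0 : MonoidAlgebra ℚ Γ) (he0 : (Nat.card Γ : ℚ) • e0 = nrG ℚ Γ)
    (T : Matrix (Fin ρ) (Fin ρ) (MonoidAlgebra ℚ Γ))
    (hT : T = (1 - e0) • OEm sO sE (fun i => (d i).map (sk p Γ))
        (fun i => ((1 : ℚ) / (Nat.card Γ : ℚ)) • (h i).map (sk p Γ)) +
      e0 • (T0.map (ZL p).subtype).map (algebraMap ℚ (MonoidAlgebra ℚ Γ))),
    (∀ x, ∃ (j : ℕ) (y : ∀ j, X (2 * j)),
      ((p : ℚ) ^ j) • T.mulVec (fun i => sk p Γ (CO.κ x i)) = fun i => sk p Γ (CE.κ y i)) ∧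
    (∀ y, ∃ (j : ℕ) (x : ∀ j, X (2 * j + 1)),
      T.mulVec (fun i => sk p Γ (CO.κ x i)) = ((p : ℚ) ^ j) • fun i => sk p Γ (CE.κ y i))

/-! ## Final part -/

/-- **TMx** (from TFr, TMat).  Coordinates of a complex with operators `h γ`.
Proof: TFr in every degree (`r i = 0` if `X i` is trivial: `κ` is dense, `S^r` is not trivial for `r > 0`),
TMat for all maps; the relations by uniqueness (TMat): `d i * d (i+1)` and `0` agree on the image of `κ`, etc.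
(`κ ((of γ - 1) • x) = (of γ - 1) • κ x`). -/
def S_TMx : Prop :=
  ∀ (p : ℕ) [Fact p.Prime] (Γ : Type) [CommGroup Γ] [Finite Γ] (hp : IsPGroup p Γ) (X : ℕ → Type)
    [∀ i, AddCommGroup (X i)] [∀ i, Module (MonoidAlgebra ℤ Γ) (X i)]
    [∀ i, Module.Finite (MonoidAlgebra ℤ Γ) (X i)]
    [∀ i, Module.Projective (MonoidAlgebra ℤ Γ) (X i)]
    (dx : ∀ i, X (i + 1) →ₗ[MonoidAlgebra ℤ Γ] X i)
    (hx : Γ → ∀ i, X i →ₗ[MonoidAlgebra ℤ Γ] X (i + 1)) (dd : ∀ i x, dx i (dx (i + 1) x) = 0)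
    (dh : ∀ γ i x, dx (i + 1) (hx γ (i + 1) x) + hx γ i (dx i x) =
      (MonoidAlgebra.of ℤ Γ γ - 1) • x),
    ∃ (r : ℕ → ℕ) (C : ∀ i, PCo p Γ (X i) (r i))
      (d : ∀ i, Matrix (Fin (r i)) (Fin (r (i + 1))) (MonoidAlgebra (ZL p) Γ))
      (h : Γ → ∀ i, Matrix (Fin (r (i + 1))) (Fin (r i)) (MonoidAlgebra (ZL p) Γ)),
      (∀ i, Subsingleton (X i) → r i = 0) ∧
      (∀ i x, (C i).κ (dx i x) = (d i).mulVec ((C (i + 1)).κ x)) ∧
      (∀ γ i x, (C (i + 1)).κ (hx γ i x) = (h γ i).mulVec ((C i).κ x)) ∧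
      (∀ i, d i * d (i + 1) = 0) ∧
      ∀ γ i, d (i + 1) * h γ (i + 1) + h γ i * d i = (MonoidAlgebra.of (ZL p) Γ γ - 1) • 1

/-- **TCom.** Property (N) implies that `Γ` is commutative: `H (1, a x) = a H (1, x)` is `g (a x) = a (g x)`. -/
def S_TCom : Prop :=
  ∀ (E : Type) [TopologicalSpace E] (Γ : Subgroup (E ≃ₜ E)) (hN : PropN Γ) (a b : Γ), a * b = b * a

/-- **TOneJ.** `J_1 = Λ`, and `J_a` for the trivial remarks: `J_1` is everything. -/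
def S_TOneJ : Prop :=
  ∀ (Γ : Type) [Group Γ], Nonempty (SwJ Γ 1 ≃ₗ[MonoidAlgebra ℤ Γ] MonoidAlgebra ℤ Γ)

/-- The algebraic theorem for complexes `X` with `X 0` trivial (proved from the other statements and the
relative part). -/
def S_TMain : Prop :=
  ∀ (p : ℕ) [Fact p.Prime] (Γ : Type) [CommGroup Γ] [Finite Γ] (hp : IsPGroup p Γ)
    (hnc : ¬ IsCyclic Γ) (X : ℕ → Type)
    [∀ i, AddCommGroup (X i)] [∀ i, Module (MonoidAlgebra ℤ Γ) (X i)]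
    [∀ i, Module.Finite (MonoidAlgebra ℤ Γ) (X i)]
    [∀ i, Module.Projective (MonoidAlgebra ℤ Γ) (X i)] (hX0 : Subsingleton (X 0)) (D : ℕ)
    (hD : ∀ i, D < i → Subsingleton (X i))
    (dx : ∀ i, X (i + 1) →ₗ[MonoidAlgebra ℤ Γ] X i)
    (hx : Γ → ∀ i, X i →ₗ[MonoidAlgebra ℤ Γ] X (i + 1)) (dd : ∀ i x, dx i (dx (i + 1) x) = 0)
    (dh : ∀ γ i x, dx (i + 1) (hx γ (i + 1) x) + hx γ i (dx i x) =
      (MonoidAlgebra.of ℤ Γ γ - 1) • x),
    ∃ a m : ℕ, 0 < a ∧ a.Coprime p ∧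
      Nonempty (((∀ j, X (2 * j + 1)) × (Fin (m + 1) → MonoidAlgebra ℤ Γ)) ≃ₗ[MonoidAlgebra ℤ Γ]
        ((∀ j, X (2 * j)) × (SwJ Γ a × (Fin m → MonoidAlgebra ℤ Γ))))

/-- **TShift** (from TMain).  Complexes indexed by `ℕ` with `P 0` arbitrary: apply TMain to `X 0 = 0`,
`X (i + 1) = P i`; `X (2 j + 1) = P (2 j)`, `X (2 (j + 1)) = P (2 j + 1)`; infinite products of modules which
vanish for large `j` are the finite products (compare `HS/AlgR.lean`). -/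
def S_TShift : Prop :=
  ∀ (p : ℕ) [Fact p.Prime] (Γ : Type) [CommGroup Γ] [Finite Γ] (hp : IsPGroup p Γ)
    (hnc : ¬ IsCyclic Γ) (P : ℕ → Type)
    [∀ i, AddCommGroup (P i)] [∀ i, Module (MonoidAlgebra ℤ Γ) (P i)]
    [∀ i, Module.Finite (MonoidAlgebra ℤ Γ) (P i)]
    [∀ i, Module.Projective (MonoidAlgebra ℤ Γ) (P i)]
    (K : ℕ) (hK : ∀ i, 2 * K ≤ i → Subsingleton (P i))
    (d : ∀ i, P (i + 1) →ₗ[MonoidAlgebra ℤ Γ] P i)
    (h : Γ → ∀ i, P i →ₗ[MonoidAlgebra ℤ Γ] P (i + 1)) (dd : ∀ i x, d i (d (i + 1) x) = 0)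
    (dh0 : ∀ γ x, d 0 (h γ 0 x) = (MonoidAlgebra.of ℤ Γ γ - 1) • x)
    (dh : ∀ γ i x, d (i + 1) (h γ (i + 1) x) + h γ i (d i x) =
      (MonoidAlgebra.of ℤ Γ γ - 1) • x),
    ∃ a m : ℕ, 0 < a ∧ a.Coprime p ∧
      Nonempty (((∀ j : Fin K, P (2 * j)) × (Fin (m + 1) → MonoidAlgebra ℤ Γ))
        ≃ₗ[MonoidAlgebra ℤ Γ]
        ((∀ j : Fin K, P (2 * j + 1)) × (SwJ Γ a × (Fin m → MonoidAlgebra ℤ Γ))))

end HSp
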