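import Pool.Agent.Lib.MP_181146_gt.HS.Spec
import Pool.Agent.Lib.MP_181146_gt.HS.SpecT

/-!
# Project HS, third part: the topological end (noncyclic finite p-groups)
-/

set_option autoImplicit false

namespace HSp

/-- Spaces with property (N), noncyclic finite `p`-groups. -/
def S_MainC : Prop :=
  ∀ (E : Type) [TopologicalSpace E] (Γ : Subgroup (E ≃ₜ E)) (hN : PropN Γ) (p : ℕ)
    [Fact p.Prime] (hp : IsPGroup p Γ) (hnc : ¬ IsCyclic Γ) (hfi : Finite Γ)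
    (P : ChainComplex (ModuleCat.{0} (MonoidAlgebra ℤ Γ)) ℕ)
    (hfin : ∀ i, Module.Finite (MonoidAlgebra ℤ Γ) (P.X i))
    (hproj : ∀ i, Module.Projective (MonoidAlgebra ℤ Γ) (P.X i)) (K : ℕ)
    (hK : ∀ i, 2 * K ≤ i → Subsingleton (P.X i)) (heq : Nonempty (HomotopyEquiv P (singL Γ))),
    ∃ a m : ℕ, 0 < a ∧ a.Coprime p ∧
      Nonempty (((∀ j : Fin K, P.X (2 * j)) × (Fin (m + 1) → MonoidAlgebra ℤ Γ))
        ≃ₗ[MonoidAlgebra ℤ Γ]
        ((∀ j : Fin K, P.X (2 * j + 1)) × (SwJ Γ a × (Fin m → MonoidAlgebra ℤ Γ))))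

theorem sMainC (hTCom : S_TCom) (hTS : S_TS) (hTH : S_TH) (hTShift : S_TShift) : S_MainC := by
  intro E _ Γ hN p _ hp hnc hfi P hfin hproj K hK heq
  have hcomm : ∀ a b : Γ, a * b = b * a := hTCom E Γ hN
  letI cg : CommGroup Γ := { (inferInstance : Group Γ) with mul_comm := hcomm }
  obtain ⟨eq⟩ := heq
  have hc : ∀ (g : Γ) (a : MonoidAlgebra ℤ Γ), (MonoidAlgebra.of ℤ Γ g - 1) * a =
      a * (MonoidAlgebra.of ℤ Γ g - 1) := by
    intro g a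
    exact mul_comm (G := MonoidAlgebra ℤ Γ) _ _
  have key : ∀ g : Γ, ∃ h : ∀ i : ℕ, P.X i →ₗ[MonoidAlgebra ℤ Γ] P.X (i + 1),
      (∀ x, (P.d 1 0).hom (h 0 x) = (MonoidAlgebra.of ℤ Γ g - 1) • x) ∧
      ∀ (i : ℕ) (x : P.X (i + 1)), (P.d (i + 2) (i + 1)).hom (h (i + 1) x) +
        h i ((P.d (i + 1) i).hom x) = (MonoidAlgebra.of ℤ Γ g - 1) • x := by
    intro g
    obtain ⟨hh, e0, e1⟩ := hTS E Γ hN g
    exact hTH (MonoidAlgebra ℤ Γ) (singL Γ) P eq (MonoidAlgebra.of ℤ Γ g - 1) (hc g) hh e0 e1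
  choose h h0 h1 using key
  exact hTShift p Γ hp hnc (fun i => P.X i) K hK (fun i => (P.d (i + 1) i).hom) h
    (fun i x => congrArg (fun f => f.hom x) (P.d_comp_d (i + 2) (i + 1) i)) h0 h1

end HSp
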