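import Pool.Agent.Lib.MP_181146_gt.HS.Spec

set_option autoImplicit false

namespace HSp

theorem sPrDv (hPrRk : S_PrRk) : S_PrDv := by
  intro Λ _ n C M _ _ hF hP m hm x y h
  obtain ⟨a, π, -, hk, -⟩ := hPrRk Λ n C M
  have h1 : m • π x = 0 := by
    rw [← map_zsmul, h]
    exact (hk _).2 ⟨y, rfl⟩
  have h2 : π x = 0 := (smul_eq_zero.1 h1).resolve_left hm
  exact (hk x).1 h2

end HSp
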