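import Pool.Agent.Lib.MP_181146_gt.HS.SpecR

/-!
# Project HS, RGrA: the total complex of a graded family
-/

set_option autoImplicit false

namespace HSp

private lemma RGrA_sum {A : Type} [CommRing A] {r : ℕ → ℕ} {D : ℕ} (i : ℕ) (h : i < D + 1)
    (f : TI r D → A) (hf : ∀ y : TI r D, y.1.val ≠ i → f y = 0) :
    ∑ y, f y = ∑ b : Fin (r i), f ⟨⟨i, h⟩, b⟩ := by
  rw [Fintype.sum_sigma]
  refine (Finset.sum_eq_single (⟨i, h⟩ : Fin (D + 1)) ?_ ?_).trans rfl
  · intro j _ hj
    refine Finset.sum_eq_zero fun b _ => hf _ ?_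
    intro h'
    exact hj (Fin.ext h')
  · intro h'
    exact absurd (Finset.mem_univ _) h'

private lemma RGrA_elim {r : ℕ → ℕ} {D : ℕ} (rD : ∀ i, D < i → r i = 0) (i : ℕ)
    (h : ¬ i < D + 1) (a : Fin (r i)) : False := by
  have h1 := a.2
  have h2 := rD i (by omega)
  omega

private lemma RGrA_ext {A : Type} [CommRing A] {r : ℕ → ℕ} {D : ℕ} (x y : TI r D → A)
    (hxy : ∀ i, cmpT D x i = cmpT D y i) : x = y := by
  funext z
  obtain ⟨⟨i, h⟩, a⟩ := z
  have := congr_fun (hxy i) a
  unfold cmpT at this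
  simpa only [h, dif_pos] using this

private lemma RGrA_cadd {A : Type} [CommRing A] {r : ℕ → ℕ} {D : ℕ} (x y : TI r D → A) (i : ℕ) :
    cmpT D (x + y) i = cmpT D x i + cmpT D y i := by
  funext a
  unfold cmpT
  by_cases h : i < D + 1
  · simp [h]
  · simp [h]

private lemma RGrA_csmul {A : Type} [CommRing A] {r : ℕ → ℕ} {D : ℕ} (t : A) (x : TI r D → A)
    (i : ℕ) : cmpT D (t • x) i = t • cmpT D x i := by
  funext a
  unfold cmpT
  by_cases h : i < D + 1
  · simp [h]
  · simp [h]

private lemma RGrA_d {A : Type} [CommRing A] {r : ℕ → ℕ} {D : ℕ} (rD : ∀ i, D < i → r i = 0)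
    (d : ∀ i, Matrix (Fin (r i)) (Fin (r (i + 1))) A) (x : TI r D → A) (i : ℕ) :
    cmpT D ((dT D d).mulVec x) i = (d i).mulVec (cmpT D x (i + 1)) := by
  funext a
  by_cases h : i < D + 1
  · by_cases h' : i + 1 < D + 1
    · unfold cmpT
      simp only [h, h', dif_pos, Matrix.mulVec, dotProduct]
      rw [RGrA_sum (i + 1) h' (fun y => dT D d ⟨⟨i, h⟩, a⟩ y * x y) fun y hy => by
        unfold dT
        rw [dif_neg hy, zero_mul]]
      refine Finset.sum_congr rfl fun b _ => ?_
      simp [dT]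
    · have hr : r (i + 1) = 0 := rD _ (by omega)
      have he : IsEmpty (Fin (r (i + 1))) := by rw [hr]; infer_instance
      unfold cmpT
      simp only [h, dif_pos, Matrix.mulVec, dotProduct]
      refine (Finset.sum_eq_zero fun y _ => ?_).trans
        (Finset.sum_eq_zero fun b _ => he.elim b).symm
      unfold dT
      rw [dif_neg (by have := y.1.2; dsimp only; omega), zero_mul]
  · exact (RGrA_elim rD i h a).elim

private lemma RGrA_h {A : Type} [CommRing A] {r : ℕ → ℕ} {D : ℕ} (rD : ∀ i, D < i → r i = 0)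
    (h : ∀ i, Matrix (Fin (r (i + 1))) (Fin (r i)) A) (x : TI r D → A) (i : ℕ) :
    cmpT D ((hT D h).mulVec x) (i + 1) = (h i).mulVec (cmpT D x i) := by
  funext a
  by_cases h' : i + 1 < D + 1
  · have h1 : i < D + 1 := by omega
    unfold cmpT
    simp only [h1, h', dif_pos, Matrix.mulVec, dotProduct]
    rw [RGrA_sum i h1 (fun y => hT D h ⟨⟨i + 1, h'⟩, a⟩ y * x y) fun y hy => by
      unfold hT
      rw [dif_neg (by dsimp only; omega), zero_mul]]
    refine Finset.sum_congr rfl fun b _ => ?_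
    simp [hT]
  · exact (RGrA_elim rD (i + 1) h' a).elim

theorem sRGrA : S_RGrA := by
  intro A _ r D r0 rD d h t
  have e0 : ∀ x y : Fin (r 0) → A, x = y := fun x y => by
    have he : IsEmpty (Fin (r 0)) := by rw [r0]; infer_instance
    exact Subsingleton.elim _ _
  refine ⟨fun hdd => ?_, fun hdh => ?_, ?_, ?_, RGrA_d rD d, ?_⟩
  · refine Matrix.ext_of_mulVec_single fun j => ?_
    refine RGrA_ext _ _ fun i => ?_
    rw [← Matrix.mulVec_mulVec, RGrA_d rD, RGrA_d rD, Matrix.mulVec_mulVec, hdd, Matrix.zero_mulVec,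
      Matrix.zero_mulVec]
    funext a
    unfold cmpT
    by_cases h : i < D + 1
    · simp [h]
    · simp [h]
  · refine Matrix.ext_of_mulVec_single fun j => ?_
    refine RGrA_ext _ _ fun i => ?_
    rw [Matrix.add_mulVec, ← Matrix.mulVec_mulVec, ← Matrix.mulVec_mulVec, Matrix.smul_mulVec,
      Matrix.one_mulVec, RGrA_cadd, RGrA_csmul]
    cases i with
    | zero => exact e0 _ _
    | succ i =>
      rw [RGrA_d rD, RGrA_h rD, RGrA_h rD, RGrA_d rD, Matrix.mulVec_mulVec, Matrix.mulVec_mulVec,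
        ← Matrix.add_mulVec, hdh, Matrix.smul_mulVec, Matrix.one_mulVec]
  · intro a b hab
    unfold dT
    rw [dif_neg hab]
  · intro a b hab
    unfold hT
    rw [dif_neg hab]
  · intro B _ f f0
    refine ⟨?_, ?_⟩
    · ext x y
      rw [Matrix.map_apply]
      unfold dT
      by_cases hh : y.1.val = x.1.val + 1
      · rw [dif_pos hh, dif_pos hh]
        rfl
      · rw [dif_neg hh, dif_neg hh, f0]
    · ext x y
      rw [Matrix.map_apply]
      unfold hT
      by_cases hh : x.1.val = y.1.val + 1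
      · rw [dif_pos hh, dif_pos hh]
        rfl
      · rw [dif_neg hh, dif_neg hh, f0]

end HSp
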