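import Pool.Agent.Lib.MP_181146_gt.HS.SpecR2

/-!
# Project HS, third part: statement `RQot` (transport to the quotient ring `S / (t, N)`)
-/

set_option autoImplicit false

namespace HSp

private lemma RQot_map {R Q : Type} [CommRing R] [CommRing Q] (f : R →+* Q) {n m : ℕ}
    (A : Matrix (Fin n) (Fin m) R) (v : Fin m → R) :
    (fun i => f (A.mulVec v i)) = (A.map f).mulVec (fun i => f (v i)) := by
  funext i
  exact RingHom.map_mulVec f A v i

private lemma RQot_symm_map {R Q : Type} [CommRing R] [CommRing Q] (φ : R ≃+* Q) {n m : ℕ}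
    (A : Matrix (Fin n) (Fin m) R) :
    (A.map (φ : R →+* Q)).map (φ.symm : Q →+* R) = A := by
  ext i j
  simp

private lemma RQot_symm_vec {R Q : Type} [CommRing R] [CommRing Q] (φ : R ≃+* Q) {n m : ℕ}
    (A : Matrix (Fin n) (Fin m) R) (v : Fin m → Q) :
    (fun i => φ.symm ((A.map (φ : R →+* Q)).mulVec v i)) = A.mulVec (fun i => φ.symm (v i)) := by
  have h := RQot_map (φ.symm : Q →+* R) (A.map (φ : R →+* Q)) v
  rw [RQot_symm_map φ A] at h
  exact h

private lemma RQot_equiv {R Q : Type} [CommRing R] [CommRing Q] (φ : R ≃+* Q) {n m : ℕ}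
    (e : Matrix (Fin n) (Fin n) R)
    (h : Nonempty (LinearMap.range e.mulVecLin ≃ₗ[R] (Fin m → R))) :
    Nonempty (LinearMap.range (e.map (φ : R →+* Q)).mulVecLin ≃ₗ[Q] (Fin m → Q)) := by
  obtain ⟨f⟩ := h
  have h1 : ∀ y : LinearMap.range (e.map (φ : R →+* Q)).mulVecLin,
      (fun i => φ.symm (y.1 i)) ∈ LinearMap.range e.mulVecLin := by
    rintro ⟨y, v, hv⟩
    refine ⟨fun i => φ.symm (v i), ?_⟩
    have hv' : (e.map (φ : R →+* Q)).mulVec v = y := hv
    change e.mulVec (fun i => φ.symm (v i)) = fun i => φ.symm (y i)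
    rw [← RQot_symm_vec φ e v, hv']
  have h2 : ∀ x : LinearMap.range e.mulVecLin,
      (fun i => φ (x.1 i)) ∈ LinearMap.range (e.map (φ : R →+* Q)).mulVecLin := by
    rintro ⟨x, v, hv⟩
    refine ⟨fun i => φ (v i), ?_⟩
    have hv' : e.mulVec v = x := hv
    change (e.map (φ : R →+* Q)).mulVec (fun i => φ (v i)) = fun i => φ (x i)
    have := RQot_map (φ : R →+* Q) e v
    rw [hv'] at this
    exact this.symm
  refine ⟨{
    toFun := fun y => fun j => φ (f ⟨fun i => φ.symm (y.1 i), h1 y⟩ j)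
    invFun := fun z => ⟨fun i => φ ((f.symm (fun j => φ.symm (z j))).1 i), h2 _⟩
    map_add' := ?_
    map_smul' := ?_
    left_inv := ?_
    right_inv := ?_ }⟩
  · intro y z
    funext j
    have hx : (⟨fun i => φ.symm ((y + z).1 i), h1 (y + z)⟩ : LinearMap.range e.mulVecLin) =
        ⟨fun i => φ.symm (y.1 i), h1 y⟩ + ⟨fun i => φ.symm (z.1 i), h1 z⟩ := by
      apply Subtype.ext
      funext i
      change φ.symm (y.1 i + z.1 i) = φ.symm (y.1 i) + φ.symm (z.1 i)
      rw [map_add]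
    change φ (f ⟨fun i => φ.symm ((y + z).1 i), h1 (y + z)⟩ j) =
      φ (f ⟨fun i => φ.symm (y.1 i), h1 y⟩ j) + φ (f ⟨fun i => φ.symm (z.1 i), h1 z⟩ j)
    rw [hx, map_add f, Pi.add_apply, map_add φ]
  · intro c y
    funext j
    have hx : (⟨fun i => φ.symm ((c • y).1 i), h1 (c • y)⟩ : LinearMap.range e.mulVecLin) =
        φ.symm c • (⟨fun i => φ.symm (y.1 i), h1 y⟩ : LinearMap.range e.mulVecLin) := by
      apply Subtype.ext
      funext i
      change φ.symm (c * y.1 i) = φ.symm c * φ.symm (y.1 i)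
      rw [map_mul]
    change φ (f ⟨fun i => φ.symm ((c • y).1 i), h1 (c • y)⟩ j) =
      c * φ (f ⟨fun i => φ.symm (y.1 i), h1 y⟩ j)
    rw [hx, map_smul f, Pi.smul_apply, smul_eq_mul, map_mul φ, RingEquiv.apply_symm_apply]
  · intro y
    apply Subtype.ext
    funext i
    change φ ((f.symm (fun j => φ.symm (φ (f ⟨fun i => φ.symm (y.1 i), h1 y⟩ j)))).1 i) = y.1 i
    have hx : (fun j => φ.symm (φ (f ⟨fun i => φ.symm (y.1 i), h1 y⟩ j))) =
        f ⟨fun i => φ.symm (y.1 i), h1 y⟩ := by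
      funext j
      rw [RingEquiv.symm_apply_apply]
    rw [hx, LinearEquiv.symm_apply_apply]
    change φ (φ.symm (y.1 i)) = y.1 i
    rw [RingEquiv.apply_symm_apply]
  · intro z
    funext j
    have hx : (⟨fun i => φ.symm (φ ((f.symm (fun j => φ.symm (z j))).1 i)),
        h1 ⟨fun i => φ ((f.symm (fun j => φ.symm (z j))).1 i), h2 _⟩⟩ :
          LinearMap.range e.mulVecLin) = f.symm (fun j => φ.symm (z j)) := by
      apply Subtype.ext
      funext i
      change φ.symm (φ ((f.symm (fun j => φ.symm (z j))).1 i)) = _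
      rw [RingEquiv.symm_apply_apply]
    change φ (f ⟨fun i => φ.symm (φ ((f.symm (fun j => φ.symm (z j))).1 i)),
        h1 ⟨fun i => φ ((f.symm (fun j => φ.symm (z j))).1 i), h2 _⟩⟩ j) = z j
    rw [hx, LinearEquiv.apply_symm_apply, RingEquiv.apply_symm_apply]

theorem sRQot : S_RQot := by
  intro S Rb _ _ t N ρ hs ht hN hk r gk d e idem chain onto inj hφ
  have hI : Ideal.span {t, N} = RingHom.ker ρ := by
    apply le_antisymm
    · rw [Ideal.span_le]
      rintro x (rfl | rfl)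
      · exact (RingHom.mem_ker).2 ht
      · exact (RingHom.mem_ker).2 hN
    · intro x hx
      obtain ⟨a, b, h⟩ := hk x ((RingHom.mem_ker).1 hx)
      rw [Ideal.mem_span_pair]
      exact ⟨a, b, by rw [h]; ring⟩
  obtain ⟨φ, hρ⟩ : ∃ φ : Rb ≃+* (S ⧸ Ideal.span {t, N}),
      ∀ x, φ (ρ x) = Ideal.Quotient.mk (Ideal.span {t, N}) x := by
    refine ⟨(RingHom.quotientKerEquivOfSurjective hs).symm.trans
      (Ideal.quotEquivOfEq hI.symm), fun x => ?_⟩
    rw [RingEquiv.trans_apply]
    have h1 : (RingHom.quotientKerEquivOfSurjective hs).symm (ρ x) =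
        Ideal.Quotient.mk (RingHom.ker ρ) x := by
      rw [RingEquiv.symm_apply_eq]
      rfl
    rw [h1]
    rfl
  have hsy : ∀ x, φ.symm (Ideal.Quotient.mk (Ideal.span {t, N}) x) = ρ x := fun x => by
    rw [← hρ x, RingEquiv.symm_apply_apply]
  have hd : ∀ i, (d i).map (Ideal.Quotient.mk (Ideal.span {t, N})) =
      ((d i).map ρ).map (φ : Rb →+* (S ⧸ Ideal.span {t, N})) := by
    intro i
    ext a b
    exact (hρ _).symm
  refine ⟨fun i => (e i).map (φ : Rb →+* (S ⧸ Ideal.span {t, N})), fun i => ?_, fun i => ?_,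
    fun i y hy hdy => ?_, fun i x z hx he => ?_, fun i => RQot_equiv φ (e i) (hφ i)⟩
  · change (e i).map (φ : Rb →+* (S ⧸ Ideal.span {t, N})) *
      (e i).map (φ : Rb →+* (S ⧸ Ideal.span {t, N})) = _
    rw [← Matrix.map_mul, idem i]
  · change (d i).map (Ideal.Quotient.mk (Ideal.span {t, N})) *
      (e (i + 1)).map (φ : Rb →+* (S ⧸ Ideal.span {t, N})) =
      (e i).map (φ : Rb →+* (S ⧸ Ideal.span {t, N})) *
        (d i).map (Ideal.Quotient.mk (Ideal.span {t, N}))
    rw [hd i, ← Matrix.map_mul, ← Matrix.map_mul, chain i]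
  · have hy1 : (e (i + 1)).mulVec (fun a => φ.symm (y a)) = fun a => φ.symm (y a) := by
      rw [← RQot_symm_vec φ (e (i + 1)) y]
      have hy' : ((e (i + 1)).map (φ : Rb →+* (S ⧸ Ideal.span {t, N}))).mulVec y = y := hy
      rw [hy']
    have hy2 : ((d i).map ρ).mulVec (fun a => φ.symm (y a)) = 0 := by
      rw [← RQot_symm_vec φ ((d i).map ρ) y, ← hd i, hdy]
      funext a
      exact map_zero _
    obtain ⟨x, z, hx, hz⟩ := onto i _ hy1 hy2
    refine ⟨x, z, hx, ?_⟩
    have h3 := RQot_map (φ : Rb →+* (S ⧸ Ideal.span {t, N})) (e (i + 1)) (ρ ∘ x)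
    rw [hz] at h3
    have h4 : (fun a => (φ : Rb →+* (S ⧸ Ideal.span {t, N})) ((ρ ∘ x) a)) =
        fun a => Ideal.Quotient.mk (Ideal.span {t, N}) (x a) := by
      funext a
      exact hρ _
    rw [h4] at h3
    rw [← h3]
    funext a
    exact RingEquiv.apply_symm_apply φ (y a)
  · obtain ⟨u, v, huv⟩ := inj i x z 0 hx (by
      rw [Matrix.mulVec_zero]
      have h3 := RQot_symm_vec φ (e (i + 1))
        (fun a => Ideal.Quotient.mk (Ideal.span {t, N}) (x a))
      have he' : ((e (i + 1)).map (φ : Rb →+* (S ⧸ Ideal.span {t, N}))).mulVec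
        (fun a => Ideal.Quotient.mk (Ideal.span {t, N}) (x a)) = 0 := he
      rw [he'] at h3
      have h4 : (fun a => φ.symm (Ideal.Quotient.mk (Ideal.span {t, N}) (x a))) = ρ ∘ x := by
        funext a
        exact hsy _
      rw [h4] at h3
      rw [← h3]
      funext a
      exact map_zero _)
    exact ⟨u, v, huv⟩

end HSp
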