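import Pool.Agent.Lib.MP_181146_gt.HS.SpecB

/-!
# Project HS, second part: existence of the ranks and of the Betti numbers
-/

set_option autoImplicit false

namespace HSp

private theorem sExCard {p : ℕ} (hp : p.Prime) (M : Type) [AddCommGroup M] [Finite M]
    (h : ∀ x : M, p • x = 0) : ∃ k, Nat.card M = p ^ k := by
  have : Fact p.Prime := ⟨hp⟩
  let _ : Module (ZMod p) M := AddCommGroup.zmodModule h
  exact ⟨Module.finrank (ZMod p) M, by
    rw [Module.natCard_eq_pow_finrank (K := ZMod p) (V := M), Nat.card_zmod]⟩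

private theorem sExKill {Λ : Type} [CommRing Λ] (I : Ideal Λ) {p : ℕ} (hI : (p : Λ) ∈ I)
    (M : Type) [AddCommGroup M] [Module Λ M] (x : M ⧸ (I • (⊤ : Submodule Λ M))) :
    p • x = 0 := by
  obtain ⟨y, rfl⟩ := Submodule.mkQ_surjective _ x
  rw [← map_nsmul, ← Nat.cast_smul_eq_nsmul Λ p y]
  exact (Submodule.Quotient.mk_eq_zero _).2 (Submodule.smul_mem_smul hI Submodule.mem_top)

private theorem sExV {Λ : Type} [CommRing Λ] {n : ℕ} (C : CycData Λ n) (X : Cx Λ C.t) (p : ℕ)
    (hpn : p ∣ n) (i : ℕ) (hF : Finite (X.F i)) : Finite (X.V p i) := by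
  have hle : (Ideal.span {C.t, C.N} • (⊤ : Submodule Λ (X.P i))) ≤
      (Ideal.span {C.t, (p : Λ)} • (⊤ : Submodule Λ (X.P i))) := by
    refine Submodule.smul_mono ?_ le_rfl
    rw [Ideal.span_le]
    have ht : C.t ∈ Ideal.span {C.t, (p : Λ)} := Ideal.subset_span (by simp)
    have hp : (p : Λ) ∈ Ideal.span {C.t, (p : Λ)} := Ideal.subset_span (by simp)
    rintro x (rfl | rfl)
    · exact ht
    · obtain ⟨m, rfl⟩ := hpn
      change C.N ∈ Ideal.span {C.t, (p : Λ)}
      rw [C.N_eq, Nat.cast_mul, pow_two]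
      refine Ideal.add_mem _ (Ideal.add_mem _ (Ideal.mul_mem_right _ _ hp)
        (Ideal.mul_mem_left _ _ ht)) ?_
      rw [mul_assoc]
      exact Ideal.mul_mem_right _ _ ht
  refine Finite.of_surjective (Submodule.mapQ _ _ LinearMap.id hle : X.F i →ₗ[Λ] X.V p i) ?_
  intro y
  obtain ⟨x, rfl⟩ := Submodule.mkQ_surjective _ y
  exact ⟨X.q i x, rfl⟩

set_option linter.unusedVariables false in
theorem sSEx (hCqF : S_CqF) (hCqZ : S_CqZ) : S_SEx := by
  intro Λ _ n C X hn e p hp hpn
  have hF : ∀ i, Finite (X.F i) := fun i => (hCqF Λ n C X (by omega) i).1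
  have hV : ∀ i, Finite (X.V p i) := fun i => sExV C X p hpn i (hF i)
  have hkV : ∀ i (x : X.V p i), p • x = 0 := fun i x =>
    sExKill (Ideal.span {C.t, (p : Λ)}) (Ideal.subset_span (by simp)) (X.P i) x
  constructor
  · have h1 : ∀ i, ∃ k, Nat.card (QN (p : Λ) (LinearMap.range (e i))) = p ^ k := by
      intro i
      have h2 : Finite (LinearMap.range (e i)) := inferInstance
      have h3 : Finite (QN (p : Λ) (LinearMap.range (e i))) :=
        Finite.of_surjective _ (Submodule.mkQ_surjective _)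
      exact sExCard hp _ fun x => sExKill (Ideal.span {(p : Λ)})
        (Ideal.mem_span_singleton_self _) (LinearMap.range (e i)) x
    choose r hr using h1
    exact ⟨r, hr⟩
  · have h1 : ∀ i, ∃ b, Nat.card (LinearMap.ker (X.dV p i)) =
        p ^ b * Nat.card (LinearMap.range (X.dV p (i + 1))) := by
      intro i
      have hle : LinearMap.range (X.dV p (i + 1)) ≤ LinearMap.ker (X.dV p i) := by
        rintro _ ⟨x, rfl⟩
        obtain ⟨y, rfl⟩ := Submodule.mkQ_surjective _ x
        have h2 : X.dV p i (X.dV p (i + 1) (Submodule.mkQ _ y)) =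
            Submodule.mkQ _ (X.d i (X.d (i + 1) y)) := rfl
        rw [LinearMap.mem_ker, h2, X.dd, map_zero]
      have hc : Nat.card (LinearMap.range (X.dV p (i + 1))) ∣
          Nat.card (LinearMap.ker (X.dV p i)) :=
        AddSubgroup.card_dvd_of_le (H := (LinearMap.range (X.dV p (i + 1))).toAddSubgroup)
          (K := (LinearMap.ker (X.dV p i)).toAddSubgroup) hle
      obtain ⟨k, hk⟩ := sExCard hp (LinearMap.ker (X.dV p i)) fun x => by
        apply Subtype.ext
        exact hkV _ x.1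
      rw [hk] at hc
      obtain ⟨l, hl, hl2⟩ := (Nat.dvd_prime_pow hp).1 hc
      exact ⟨k - l, by rw [hk, hl2, ← pow_add, Nat.sub_add_cancel hl]⟩
    choose b hb using h1
    exact ⟨fun i => match i with
      | 0 => 0
      | i + 1 => b i, rfl, hb⟩

end HSp
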