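import Pool.Agent.Lib.MP_181146_gt.HS.Slim

/-!
# Project HS: short definitions, Swan modules
-/

set_option autoImplicit false

namespace HSp

/-- `(⊕ C_{2j}) ⊕ R^(m+1) ≅ (⊕ C_{2j+1}) ⊕ J ⊕ R^m` as `R`-modules, `0 ≤ j < K`, `J` a left ideal. -/
def Cpl.StEqJ {R : Type} [Ring R] (C : Cpl R) (K : ℕ) (J : Submodule R R) (m : ℕ) : Prop :=
  Nonempty (((∀ j : Fin K, C.X (2 * j)) × (Fin (m + 1) → R)) ≃ₗ[R]
    ((∀ j : Fin K, C.X (2 * j + 1)) × (J × (Fin m → R))))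

/-- The ideal `J_a` of the group ring `ℤ[Γ]` generated by the integer `a` and all `γ - 1`, `γ ∈ Γ`: it
is the kernel of the projection of `ℤ[Γ]` onto the trivial module `ℤ / a`. -/
noncomputable def SwI {E : Type} [TopologicalSpace E] (Γ : Subgroup (E ≃ₜ E)) (a : ℕ) :
    Submodule (GR Γ) (GR Γ) :=
  Submodule.span (GR Γ) {x | x = a ∨ ∃ γ : Γ, x = GR.of γ - 1}

end HSp
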