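import Pool.Agent.Lib.MP_181146_gt.HS.SlimC
import Pool.Agent.Lib.MP_181146_gt.HS.SlimT
import Pool.Agent.Lib.MP_181146_gt.HS.DefsC

/-!
# Project HS: transfer, Swan modules
-/

set_option autoImplicit false

namespace HSp

variable {E : Type} [TopologicalSpace E] (Γ : Subgroup (E ≃ₜ E))

lemma aug_of (γ : Γ) : aug ℤ Γ (MonoidAlgebra.of ℤ Γ γ) = 1 := by
  change MonoidAlgebra.lift ℤ ℤ Γ (1 : Γ →* ℤ) (MonoidAlgebra.of ℤ Γ γ) = 1
  rw [MonoidAlgebra.lift_of]
  rfl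

lemma swI_eq (a : ℕ) : (SwI Γ a : Set (GR Γ)) = (SwJ Γ a : Set (MonoidAlgebra ℤ Γ)) := by
  apply Set.Subset.antisymm
  · have h : SwI Γ a ≤ (SwJ Γ a : Submodule (GR Γ) (GR Γ)) := by
      unfold SwI
      rw [Submodule.span_le]
      rintro x (rfl | ⟨γ, rfl⟩)
      · change aug ℤ Γ ((a : ℕ) : MonoidAlgebra ℤ Γ) ∈ Ideal.span {(a : ℤ)}
        rw [map_natCast]
        exact Ideal.subset_span rfl
      · have e : aug ℤ Γ (MonoidAlgebra.of ℤ Γ γ - (1 : MonoidAlgebra ℤ Γ)) = 0 := by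
          rw [map_sub, aug_of, map_one, sub_self]
        have e' : aug ℤ Γ (MonoidAlgebra.of ℤ Γ γ - (1 : MonoidAlgebra ℤ Γ)) ∈
            Ideal.span {(a : ℤ)} := by
          rw [e]
          exact zero_mem _
        exact e'
    exact h
  · intro x hx
    have key : ∀ y : MonoidAlgebra ℤ Γ, ∃ z : MonoidAlgebra ℤ Γ, (z : GR Γ) ∈ SwI Γ a ∧
        y = z + ((aug ℤ Γ y : ℤ) : MonoidAlgebra ℤ Γ) := by
      intro y
      induction y using MonoidAlgebra.induction_on with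
      | of γ =>
        refine ⟨MonoidAlgebra.of ℤ Γ γ - (1 : MonoidAlgebra ℤ Γ),
          Submodule.subset_span (Or.inr ⟨γ, rfl⟩), ?_⟩
        rw [aug_of, Int.cast_one]
        exact (sub_add_cancel _ _).symm
      | add u v hu hv =>
        obtain ⟨z, hz, h1⟩ := hu
        obtain ⟨w, hw, h2⟩ := hv
        refine ⟨z + w, (SwI Γ a).add_mem hz hw, ?_⟩
        rw [map_add]
        push_cast
        calc u + v = (z + ((aug ℤ Γ u : ℤ) : MonoidAlgebra ℤ Γ)) +
              (w + ((aug ℤ Γ v : ℤ) : MonoidAlgebra ℤ Γ)) := by rw [← h1, ← h2]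
          _ = _ := by abel
      | smul r u hu =>
        obtain ⟨z, hz, h1⟩ := hu
        refine ⟨r • z, ?_, ?_⟩
        · exact (SwI Γ a).toAddSubgroup.zsmul_mem hz r
        · rw [map_zsmul]
          have h3 : ((r • aug ℤ Γ u : ℤ) : MonoidAlgebra ℤ Γ) =
              r • ((aug ℤ Γ u : ℤ) : MonoidAlgebra ℤ Γ) := by
            rw [zsmul_eq_mul, zsmul_eq_mul]
            push_cast
            rfl
          rw [h3, ← smul_add, ← h1]
    obtain ⟨z, hz, h1⟩ := key x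
    have h2 : (a : ℤ) ∣ aug ℤ Γ x := Ideal.mem_span_singleton.1 hx
    obtain ⟨c, hc⟩ := h2
    rw [hc] at h1
    have h3 : (((a : ℤ) * c : ℤ) : MonoidAlgebra ℤ Γ) ∈ (SwI Γ a : Set (GR Γ)) := by
      have h4 : (((a : ℤ) * c : ℤ) : MonoidAlgebra ℤ Γ) =
          (c : MonoidAlgebra ℤ Γ) * ((a : ℕ) : MonoidAlgebra ℤ Γ) := by
        rw [Int.cast_mul, Int.cast_natCast]
        exact (Int.cast_commute c ((a : ℕ) : MonoidAlgebra ℤ Γ)).symm.eq
      rw [h4]
      exact (SwI Γ a).smul_mem (c : GR Γ) (Submodule.subset_span (Or.inl rfl))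
    rw [h1]
    exact (SwI Γ a).add_mem hz h3

end HSp
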