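import Pool.Agent.Lib.MP_181146_gt.HS.Spec
import Pool.Agent.Lib.MP_181146_gt.HS.DefsB

/-!
# Project HS, second part: cyclic groups of arbitrary order.  Every statement is a separate task;
the proof of each is in the docstring.
-/

set_option linter.unusedVariables false
set_option autoImplicit false

namespace HSp

/-- **SLin.** Linear algebra over a field.  Proof: `H` = homology of `V`.  `ω`, `η` act on `H` with
`ω² = 0`, `ω η + η ω = 1`; hence `ker ω = im ω`, and `f = 1 - η ω = ω η` is idempotent on `H` with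
image `ker ω`.  `e` acts as `f^m = f`; the homology of the subcomplex `e V` is `f H`, of
dimension `g_i = dim ker (ω : H_i → H_{i-1})`, and `b_i = g_i + g_{i-1}` (image of `ω` in `H_{i-1}`
is `ker ω`).  So `∑ (-1)^i i b_i = ∑ (-1)^i i g_i - ∑ (-1)^i (i+1) g_i = - ∑ (-1)^i g_i =
- ∑ (-1)^i dim (e V)_i` (Euler-Poincaré), and `∑ (-1)^i b_i = 0`. -/
def S_SLin : Prop :=
  ∀ (K : Type) [Field K] (V : ℕ → Type) [∀ i, AddCommGroup (V i)] [∀ i, Module K (V i)]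
    [∀ i, FiniteDimensional K (V i)] (h0 : Subsingleton (V 0)) (D : ℕ)
    (hD : ∀ i, D < i → Subsingleton (V i)) (d ω ω2 : ∀ i, V (i + 1) →ₗ[K] V i)
    (η κ : ∀ i, V i →ₗ[K] V (i + 1)) (dd : ∀ i x, d i (d (i + 1) x) = 0)
    (dω : ∀ i x, d i (ω (i + 1) x) + ω i (d (i + 1) x) = 0)
    (dη : ∀ i x, d (i + 1) (η (i + 1) x) + η i (d i x) = 0)
    (hκ : ∀ i x, ω (i + 1) (η (i + 1) x) + η i (ω i x) = x - (d (i + 1) (κ (i + 1) x) + κ i (d i x)))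
    (hω : ∀ i x, ω i (ω (i + 1) x) = - (d i (ω2 (i + 1) x) + ω2 i (d (i + 1) x)))
    (m : ℕ) (hm : 0 < m) (e : ∀ i, V i →ₗ[K] V i) (he : ∀ i x, e i (e i x) = e i x)
    (hφ : ∀ i x, e (i + 1) x = ((LinearMap.id - η i ∘ₗ ω i : Module.End K (V (i + 1))) ^ m) x)
    (b : ℕ → ℕ) (hb0 : b 0 = 0)
    (hb : ∀ i, Module.finrank K (LinearMap.ker (d i)) =
      b (i + 1) + Module.finrank K (LinearMap.range (d (i + 1)))),
    (∑ i ∈ Finset.range (D + 1), (-1 : ℤ) ^ i * (Module.finrank K (LinearMap.range (e i)) : ℤ) =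
      - ∑ i ∈ Finset.range (D + 1), (-1 : ℤ) ^ i * (i : ℤ) * (b i : ℤ)) ∧
    ∑ i ∈ Finset.range (D + 1), (-1 : ℤ) ^ i * (b i : ℤ) = 0

/-- **SKap** (from PrTN, PrKt, CqZ, CqF).  The chain homotopy `κ` with
`ω η + η ω = 1 - (d κ + κ d)` on `F`.
Proof: for `x ∈ P_i`, `h (s x) - s (h x) ∈ t P_{i+1}`; write it as `t y` and put `κ (q x) = q y`
(well defined as for `ω` in COm: if `x = t a + N b` then `s x = n s b`, `s (h x) = n s (h b)`).
For `x ∈ P_{i+1}`: `d (s x) = s (d x) + t w`, `h (s x) = s (h x) + t y`.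
`d (h (s x)) = t s x - h (d (s x)) = t s x - h (s (d x)) - t h w`, and `h (s (d x)) =
s (h (d x)) + t y'` (`κ q (d x) = q y'`).  Also `d (h (s x)) = d (s (h x)) + t d y =
s (d (h x)) + t w' + t d y` with `q w' = ω (η (q x))`, and `s (d (h x)) = s (t x - h (d x)) =
- s (h (d x))`.  So `t (w' + d y - s x + y' + h w) = 0`; divide by `t` modulo `N`, apply `q`
(`q (s x) = q x`). -/
def S_SKap : Prop :=
  ∀ (Λ : Type) [CommRing Λ] (n : ℕ) (C : CycData Λ n) (X : Cx Λ C.t) (hn : 0 < n)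
    (O : Om X),
    ∃ κ : ∀ i, X.F i →ₗ[Λ] X.F (i + 1), ∀ i (x : X.F (i + 1)),
      O.ω (i + 1) (X.eta (i + 1) x) + X.eta i (O.ω i x) =
        x - (X.dF (i + 1) (κ (i + 1) x) + κ i (X.dF i x))

/-- **SOm2** (from PrTN, PrKt, PrRk, CqZ, CqF).  `ω² = C(n,2) θ - (d ω2 + ω2 d)` on `F`.
Proof: as `P_{i+1} / t` is a free `ℤ`-module there are additive maps `W, U : P_{i+1} → P_i`, zero on
`t P_{i+1}`, with `d (s x) = s (d x) + t W x` (so `ω (q x) = q (W x)`) and `W x = s (W x) + t U x`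
(choose values on a basis of `P_{i+1}/t`).  From `d d (s x) = 0`: `t (W d x + d W x) = 0`, so
`W d x + d W x = N ρ x`, where `ρ` can be chosen additive, zero on `t P`.  `d (W x) = s (d W x) + t W W x + t d U x`,
`W (d x) = s (W d x) + t U (d x)`.  Sum: `N ρ x = s (N ρ x) + t (W W x + d U x + U d x)`,
`s (N ρ x) = n s (ρ x)` and `N ρ x = N s (ρ x)` (`N t = 0`), `N - n = C(n,2) t + t² c`, so
`t (W W x + d U x + U d x - C(n,2) s (ρ x) - t c s (ρ x)) = 0`; divide by `t` modulo `N`, apply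
`q`.  `ω2 = q U`, `θ = q ρ` factor through `F` since they are additive, zero on `t P`, and `n` kills
`F`. -/
def S_SOm2 : Prop :=
  ∀ (Λ : Type) [CommRing Λ] (n : ℕ) (C : CycData Λ n) (X : Cx Λ C.t) (hn : 0 < n)
    (O : Om X),
    ∃ (ω2 : ∀ i, X.F (i + 1) →ₗ[Λ] X.F i) (θ : ∀ i, X.F (i + 2) →ₗ[Λ] X.F i),
      ∀ i (x : X.F (i + 2)), O.ω i (O.ω (i + 1) x) =
        (n.choose 2 : ℤ) • θ i x - (X.dF i (ω2 (i + 1) x) + ω2 i (X.dF (i + 1) x))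

/-- **SBe** (from SLin, SKap, SOm2, COd, CqZ, CqF).  Betti relation for `e = φ^m` modulo `p`, if `p`
divides `C(n,2)`.  Apply SLin to `V_i = P_i/(t,p) = F_i / p F_i` over `ZMod p` (`p ∣ n`, so `N`
acts as `n = 0` on `V`), with the operators induced by `d, ω, ω2, η, κ, e`; the image of `e`
modulo `p` is the image of the induced idempotent of `V`. Cardinalities are powers of `p` with
exponent the dimension. -/
def S_SBe : Prop :=
  ∀ (Λ : Type) [CommRing Λ] (n : ℕ) (C : CycData Λ n) (X : Cx Λ C.t) (hn : 0 < n)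
    (O : Om X) (p : ℕ) (hp : p.Prime) (hpn : p ∣ n) (hp2 : (p : ℤ) ∣ (n.choose 2 : ℤ)) (m : ℕ)
    (hm : 0 < m) (e : ∀ i, X.F i →ₗ[Λ] X.F i) (idem : ∀ i x, e i (e i x) = e i x)
    (chain : ∀ i x, X.dF i (e (i + 1) x) = e i (X.dF i x))
    (he : ∀ i (x : X.F i), ∃ y, e i x = ((O.phi i : Module.End Λ (X.F i)) ^ m) x + (p : ℤ) • y),
    BRel X e p

/-- **SU1** (from CPc, CP1, CP2, CF1, CF3, CF4, CqF, CBo, CqZ; adapt the proof of CSp in
`HS/CSp.lean`).  On the part `u F` where `c'^2 = 0`: for a common exponent `m` such that all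
`φ_i^m` are idempotent, `e = u φ^m` has the properties of SplitU.  (All statements of CSp multiplied
by `u`; `u² = u` modulo `n`.) -/
def S_SU1 : Prop :=
  ∀ (Λ : Type) [CommRing Λ] (n : ℕ) (C : CycData Λ n) (X : Cx Λ C.t) (hn : 1 < n)
    (O : Om X) (u c' j : ℤ) (hu : (n : ℤ) ∣ u ^ 2 - u) (hc : (n.choose 2 : ℤ) = c' * j)
    (hc2 : (n : ℤ) ∣ u * c' ^ 2) (m : ℕ) (hm : 0 < m)
    (hid : ∀ i x, ((O.phi i : Module.End Λ (X.F i)) ^ m) (((O.phi i : Module.End Λ (X.F i)) ^ m) x) =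
      ((O.phi i : Module.End Λ (X.F i)) ^ m) x),
    ∃ S : SplitU X u, ∀ i x, S.e i x = u • ((O.phi i : Module.End Λ (X.F i)) ^ m) x

/-- **SU2** (from CF1, CF3, CF4, CBo, CqF, CqZ, COm; adapt the proof of CSp2 in `HS/CSp2.lean`).
The case `n = 2 m`, `m` odd, on the 2-part `u F` (`u ≡ 0` mod `m`, `u ≡ 1` mod `2`), a vector space
over `ℤ/2`, isomorphic to `V = P/(t,2)`.  As in CSp2: `K_{i+1} = u {q x : d x ∈ N P_i}`, `B` = boundaries
of `u F`, `K'` a complement of `K ∩ B` in `K`, `e` = projection of `u F` onto `K'` which kills `B`,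
composed with `u`.  Betti relation at `2`: the differential of `e F` is zero, `r_i = dim K'_i`;
every cycle of `u F` is `k + η k2` with `k ∈ K_{i}`, `k2 ∈ K_{i-1}` (CBo, CF3), and `k + η k2 ∈ B`
implies `k ∈ B`, `k2 ∈ B` (CF4 and its proof), so `b_i = r_i + r_{i-1}`. -/
def S_SU2 : Prop :=
  ∀ (Λ : Type) [CommRing Λ] (n : ℕ) (C : CycData Λ n) (X : Cx Λ C.t) (m : ℕ)
    (hm : Odd m) (hn : n = 2 * m) (u : ℤ) (hu : (m : ℤ) ∣ u) (hu2 : (2 : ℤ) ∣ u - 1),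
    ∃ S : SplitU X u, BRel X S.e 2

/-- **SCb** (from CF1).  Combination of the two parts, `u ≡ u²` mod `n`:  `e = e1 + e2` (`e1 e2 = 0`
because `e1 = u e1`, `e2 = (1-u) e2` and both are linear, `u (1 - u) F = 0`).  onto: for `y = e y`
apply `onto` to `u y` and `(1-u) y`, getting `x1`, `x2`; take `x = u x1 + (1-u) x2`.  inj: multiply
by `u` and by `1-u`, `q x = u q x + (1-u) q x` is a boundary; then CF1. -/
def S_SCb : Prop :=
  ∀ (Λ : Type) [CommRing Λ] (n : ℕ) (C : CycData Λ n) (X : Cx Λ C.t) (hn : 1 < n) (u : ℤ)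
    (hu : (n : ℤ) ∣ u ^ 2 - u) (S1 : SplitU X u) (S2 : SplitU X (1 - u)),
    ∃ S : SplitF X, ∀ i x, S.e i x = S1.e i x + S2.e i x

/-- **SAll** (from COm, CIdm, CqF, SU1, SU2, SCb, SBe).  For every `n ≥ 2` there is a SplitF with the
Betti relations at all primes dividing `n`.
Proof: `n` odd: `u = 1`, `c' = n`; `4 ∣ n`: `u = 1`, `c' = n/2` (then `e = φ^m` on `F`, SplitF from SU1
with `u = 1` — use SCb with `S2` = zero, `1 - u = 0`); the relation is SBe (`p ∣ C(n,2)`).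
`n = 2 m`, `m` odd: `u ≡ 1` mod `m`, `u ≡ 0` mod `2`; S1 from SU1 with `c' = m`
(`C(n,2) = m (n-1)`, `n ∣ u m²`), S2 from SU2 (for `1 - u`), SCb.  At an odd `p ∣ m`: `e = u φ^m + e2`,
`u ≡ 1` and `e2 = (1-u) e2 ≡ 0` modulo `p`, SBe (`p ∣ C(n,2) = m(n-1)`).  At `p = 2`: the image of `e`
modulo `2` is the image of `e2` modulo `2` (`e1 = u e1`, `u` even). -/
def S_SAll : Prop :=
  ∀ (Λ : Type) [CommRing Λ] (n : ℕ) (C : CycData Λ n) (X : Cx Λ C.t) (hn : 1 < n),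
    ∃ S : SplitF X, ∀ p : ℕ, p.Prime → p ∣ n → BRel X S.e p

/-- **SEx** (from CqF).  Existence of the numbers: all groups in question are finite `p`-groups. -/
def S_SEx : Prop :=
  ∀ (Λ : Type) [CommRing Λ] (n : ℕ) (C : CycData Λ n) (X : Cx Λ C.t) (hn : 1 < n)
    (e : ∀ i, X.F i →ₗ[Λ] X.F i) (p : ℕ) (hp : p.Prime) (hpn : p ∣ n),
    (∃ r, IsRk e p r) ∧ ∃ b, X.IsBetti p b

/-- **SPrj** (from `CycData`).  A direct summand `M` of `(ℤ/n)^a` with `|M / p M| = p^r` for all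
primes `p ∣ n` is isomorphic to `(ℤ/n)^r`.  Proof: `M` is a finite abelian group killed by `n`
(`Λ` acts through `eps`); its `p`-primary part is a direct summand of `(ℤ/p^k)^a` (`p^k ∥ n`), free
over the local ring `ℤ/p^k`, of rank `r`; Chinese remainder theorem. -/
def S_SPrj : Prop :=
  ∀ (Λ : Type) [CommRing Λ] (n : ℕ) (C : CycData Λ n) (hn : 1 < n) (M M' : Type)
    [AddCommGroup M] [Module Λ M] [AddCommGroup M'] [Module Λ M'] (a r : ℕ)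
    (φ : (M × M') ≃ₗ[Λ] (Fin a → QQ C))
    (hr : ∀ p : ℕ, p.Prime → p ∣ n → Nat.card (QN (p : Λ) M) = p ^ r),
    Nonempty (M ≃ₗ[Λ] (Fin r → QQ C))

/-- **SFr** (from PrRk, CqZ, CqF).  `F_i ≅ (ℤ/n)^a`: `P_i / t ≅ ℤ^a` and `N ≡ n` modulo `t`. -/
def S_SFr : Prop :=
  ∀ (Λ : Type) [CommRing Λ] (n : ℕ) (C : CycData Λ n) (X : Cx Λ C.t) (hn : 1 < n) (i : ℕ),
    ∃ a : ℕ, Nonempty (X.F i ≃ₗ[Λ] (Fin a → QQ C))

/-- **SEq** (from SPrj, SFr, SEx).  From SplitF to SplitG if the alternating sums of the ranks agree.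
Proof: `G_i = range (e i)`, `G_i^c = ker (e i)`, `G_i ⊕ G_i^c = F_i ≅ (ℤ/n)^{a_i}`.  Put
`T_0 = G_0^c` (trivial) and `T_i = G_i^c ⊕ G_{i-1} ⊕ G_{i-2}^c ⊕ …` (alternating), so that
`T_i ⊕ T_{i-1} ⊕ G_i` is free for every `i`; precisely `T_i ⊕ T_{i-1} ⊕ G_i ≅ ⊕_{j ≤ i} F_j`-type free
module.  `G'_i = G_i ⊕ T_i ⊕ T_{i-1}` for `i ≤ D`, with differential `d` on `G` and the identity
`T_{i-1} ⊂ G'_i → T_{i-1} ⊂ G'_{i-1}`; in degree `D + 1` only `T_D`, whose rank at `p` is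
`const ∓ ∑ (-1)^j r_j`, the same for all `p ∣ n` by hypothesis: free by SPrj.  `f = (e q, 0, 0)`. -/
def S_SEq : Prop :=
  ∀ (Λ : Type) [CommRing Λ] (n : ℕ) (C : CycData Λ n) (X : Cx Λ C.t) (hn : 1 < n)
    (S : SplitF X) (χ : ℤ) (h : ∀ p : ℕ, p.Prime → p ∣ n → ∀ r, IsRk S.e p r →
      ∑ i ∈ Finset.range (X.D + 1), (-1 : ℤ) ^ i * (r i : ℤ) = χ),
    Nonempty (SplitG X)

/-- **AlgG** (from DMain, EPa, EQn; as AlgMain in `HS/AlgMain.lean`). -/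
def S_AlgG : Prop :=
  ∀ (Λ : Type) [CommRing Λ] (n : ℕ) (C : CycData Λ n) (hn : 1 < n) (X : Cx Λ C.t)
    (S : SplitG X) (K : ℕ) (hK : ∀ i, 2 * K ≤ i → Subsingleton (X.P i)),
    ∃ s : ℕ, Nonempty (((∀ j : Fin K, X.P (2 * j)) × (Fin s → Λ)) ≃ₗ[Λ]
      ((∀ j : Fin K, X.P (2 * j + 1)) × (Fin s → Λ)))

/-- **AlgB** (from SAll, SEx, SEq, AlgG).  The algebraic theorem for arbitrary `n`. -/
def S_AlgB : Prop :=
  ∀ (Λ : Type) [CommRing Λ] (n : ℕ) (C : CycData Λ n) (hn : 1 < n) (X : Cx Λ C.t)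
    (K : ℕ) (hK : ∀ i, 2 * K ≤ i → Subsingleton (X.P i))
    (hb : ∀ p p' : ℕ, p.Prime → p ∣ n → p'.Prime → p' ∣ n → ∀ b b', X.IsBetti p b →
      X.IsBetti p' b' → ∑ i ∈ Finset.range (X.D + 1), (-1 : ℤ) ^ i * (i : ℤ) * (b i : ℤ) =
        ∑ i ∈ Finset.range (X.D + 1), (-1 : ℤ) ^ i * (i : ℤ) * (b' i : ℤ)),
    ∃ s : ℕ, Nonempty (((∀ j : Fin K, X.P (2 * j)) × (Fin s → Λ)) ≃ₗ[Λ]
      ((∀ j : Fin K, X.P (2 * j + 1)) × (Fin s → Λ)))

/-- **AlgRB** (from AlgB, ArCyc, SAll, SEx; as AlgR in `HS/AlgR.lean`).  Over the group ring of a finite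
cyclic group, complexes indexed by `ℕ`.  With `X_{i+1} = P_i`, `X_0 = 0`, the numbers of Cx.IsBetti
are `b_X (i+1) = b i`; `∑ (-1)^i i b_X i = - ∑ (-1)^i i b i - ∑ (-1)^i b i` and the last sum is `0`
(second part of BRel). `CoS Γ p M = (t, p) M` since the elements `g y - y` generate `t M`. -/
def S_AlgRB : Prop :=
  ∀ (Γ : Type) [Group Γ] (hΓ : IsCyclic Γ) (hn : 1 < Nat.card Γ) (g : Γ)
    (hg : ∀ x : Γ, x ∈ Subgroup.zpowers g) (P : ℕ → Type)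
    [∀ i, AddCommGroup (P i)]
    [∀ i, Module (MonoidAlgebra ℤ Γ) (P i)] [∀ i, Module.Finite (MonoidAlgebra ℤ Γ) (P i)]
    [∀ i, Module.Projective (MonoidAlgebra ℤ Γ) (P i)]
    (d : ∀ i, P (i + 1) →ₗ[MonoidAlgebra ℤ Γ] P i) (h : ∀ i, P i →ₗ[MonoidAlgebra ℤ Γ] P (i + 1))
    (dd : ∀ i x, d i (d (i + 1) x) = 0)
    (dh0 : ∀ x, d 0 (h 0 x) = (MonoidAlgebra.of ℤ Γ g - 1) • x)
    (dh : ∀ i x, d (i + 1) (h (i + 1) x) + h i (d i x) = (MonoidAlgebra.of ℤ Γ g - 1) • x)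
    (K : ℕ) (hK : ∀ i, 2 * K ≤ i → Subsingleton (P i))
    (hb : ∀ p p' : ℕ, p.Prime → p ∣ Nat.card Γ → p'.Prime → p' ∣ Nat.card Γ → ∀ b b',
      IsBettiP Γ p P d b → IsBettiP Γ p' P d b' →
        ∑ i ∈ Finset.range (2 * K), (-1 : ℤ) ^ i * (i : ℤ) * (b i : ℤ) =
        ∑ i ∈ Finset.range (2 * K), (-1 : ℤ) ^ i * (i : ℤ) * (b' i : ℤ)),
    ∃ s : ℕ, Nonempty (((∀ j : Fin K, P (2 * j)) × (Fin s → MonoidAlgebra ℤ Γ)) ≃ₗ[MonoidAlgebra ℤ Γ]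
      ((∀ j : Fin K, P (2 * j + 1)) × (Fin s → MonoidAlgebra ℤ Γ)))

/-- **MainB** (from AlgRB, TS, TH, TOne; as MainA in `HS/MainA.lean`).  Spaces with property (N),
`Γ` a finite cyclic group of any order. -/
def S_MainB : Prop :=
  ∀ (E : Type) [TopologicalSpace E] (Γ : Subgroup (E ≃ₜ E)) (hN : PropN Γ)
    (hc : IsCyclic Γ) (hfi : Finite Γ)
    (P : ChainComplex (ModuleCat.{0} (MonoidAlgebra ℤ Γ)) ℕ)
    (hfin : ∀ i, Module.Finite (MonoidAlgebra ℤ Γ) (P.X i))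
    (hproj : ∀ i, Module.Projective (MonoidAlgebra ℤ Γ) (P.X i)) (K : ℕ)
    (hK : ∀ i, 2 * K ≤ i → Subsingleton (P.X i)) (heq : Nonempty (HomotopyEquiv P (singL Γ)))
    (hb : ∀ p p' : ℕ, p.Prime → p ∣ Nat.card Γ → p'.Prime → p' ∣ Nat.card Γ → ∀ b b',
      IsBettiP Γ p (fun i => P.X i) (fun i => (P.d (i + 1) i).hom) b →
      IsBettiP Γ p' (fun i => P.X i) (fun i => (P.d (i + 1) i).hom) b' →
        ∑ i ∈ Finset.range (2 * K), (-1 : ℤ) ^ i * (i : ℤ) * (b i : ℤ) =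
        ∑ i ∈ Finset.range (2 * K), (-1 : ℤ) ^ i * (i : ℤ) * (b' i : ℤ)),
    ∃ a b : ℕ, (1 < Nat.card Γ → a = b) ∧
      Nonempty (((∀ j : Fin K, P.X (2 * j)) × (Fin a → MonoidAlgebra ℤ Γ)) ≃ₗ[MonoidAlgebra ℤ Γ]
        ((∀ j : Fin K, P.X (2 * j + 1)) × (Fin b → MonoidAlgebra ℤ Γ)))

end HSp
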