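import Pool.Agent.Lib.MP_181146_gt.HS.DefsR

/-!
# Project HS, third part (finite abelian p-groups), steps 3 - 5 relative to a direct factor

Mathematics: note 3977, parts (a), (b).  Every `S_X` is a statement with its complete proof in the
docstring; it is to be proved as `theorem x : … → S_X` (module `X.lean`, the statements listed after
the word from are hypotheses in this order).

Notation: `D0 = ρ(d)`, `w = σ(d)`, `η = ρ(h)` (matrices over `Rb`), `φ = 1 - η w`.
-/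

set_option autoImplicit false
set_option linter.unusedVariables false

namespace HSp

/-! ## A. Vectors and matrices -/

/-- **RVec**.  The properties of `RC` for vectors.  Proof.  Entry by entry (`choose`,
`Function.funext_iff`);
for matrices: `(A.mulVec u) i = ∑ j, A i j * u j`, `map_sum`, `map_mul`, `der`; the last two: `ρt`,
`ρN`, `σt`, `σN`,
`der`. -/
def S_RVec : Prop :=
  ∀ (S Rb I : Type) [CommRing S] [CommRing Rb] [Fintype I] [DecidableEq I] (C : RC S Rb),
    (∀ v : I → Rb, ∃ u : I → S, C.ρ ∘ u = v) ∧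
    (∀ u : I → S, C.ρ ∘ u = 0 → ∃ a b : I → S, u = C.t • a + C.N • b) ∧
    (∀ u : I → S, C.t • u = 0 → ∃ y : I → S, u = C.N • y) ∧
    (∀ u : I → S, C.N • u = 0 → ∃ y : I → S, u = C.t • y) ∧
    (∀ x y : I → S, C.t • x = C.N • y → C.t • x = 0) ∧
    (∀ (A : Matrix I I S) (u : I → S), C.ρ ∘ A.mulVec u = (A.map C.ρ).mulVec (C.ρ ∘ u)) ∧
    (∀ (A : Matrix I I S) (u : I → S), C.σ ∘ A.mulVec u =
      (A.map C.σ).mulVec (C.ρ ∘ u) + (A.map C.ρ).mulVec (C.σ ∘ u)) ∧
    ∀ y z : I → S, C.ρ ∘ (C.t • y + C.N • z) = 0 ∧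
      C.σ ∘ (C.t • y + C.N • z) = C.ρ ∘ y + C.c • (C.ρ ∘ z)

/-- **RMat**.  Proof.  For matrices `A, B` over `S`: `(A * B).map ρ = A.map ρ * B.map ρ`
(`Matrix.map_mul`),
`(A * B).map σ = A.map σ * B.map ρ + A.map ρ * B.map σ` (`der`, `map_sum`).  Apply this to `d * d = 0`
and to
`d * h + h * d = t • 1` (`ρ t = 0`).  Last claim: `D0 η w = - η D0 w = η w D0`. -/
def S_RMat : Prop :=
  ∀ (S Rb I : Type) [CommRing S] [CommRing Rb] [Fintype I] [DecidableEq I] (C : RC S Rb)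
    (X : TC S I C.t),
    X.d.map C.ρ * X.d.map C.ρ = 0 ∧
    X.d.map C.ρ * X.d.map C.σ + X.d.map C.σ * X.d.map C.ρ = 0 ∧
    X.d.map C.ρ * X.h.map C.ρ + X.h.map C.ρ * X.d.map C.ρ = 0 ∧
    X.d.map C.ρ * X.phi C = X.phi C * X.d.map C.ρ

/-- **RNil**.  Matrices of degree `-1` or `1` are nilpotent.  Proof.  By induction on `k`:
`(A ^ k) a b ≠ 0` implies `deg b = deg a + k` (resp. `deg a = deg b + k`); for `k` larger than all
degrees (`Finset.univ.sup deg`) this is impossible. -/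
def S_RNil : Prop :=
  ∀ (R I : Type) [CommRing R] [Fintype I] [DecidableEq I] (deg : I → ℕ) (A : Matrix I I R),
    ((∀ a b, deg b ≠ deg a + 1 → A a b = 0) → IsNilpotent A) ∧
    ((∀ a b, deg a ≠ deg b + 1 → A a b = 0) → IsNilpotent A)

/-- **RIdm**.  Proof.  The monoid `Matrix I I R` is finite: the powers of `A` are not all different, so
`A ^ a = A ^ (a + b)` with `b ≥ 1`, and `m = b * (a + 1)` (or `b (a+1)` with `≥ a`) works. -/
def S_RIdm : Prop :=
  ∀ (R I : Type) [CommRing R] [Finite R] [Fintype I] [DecidableEq I] (A : Matrix I I R),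
    ∃ m : ℕ, 0 < m ∧ A ^ m * A ^ m = A ^ m

/-! ## B. The operators on the homology of `F` -/

/-- **RCf1** (from RVec).  Injectivity of `H(P/N) → H(F)`.  Proof.  `v = ρ v'`; `ρ (u - d v') = 0`, so
`u - d v' = t a + N b`.  Apply `d`: `N z0 = t d a + N d b`, so `t d a = N (z0 - d b)`, `t d a = 0` (sep),
`d a = N b'`.  `t a = d (h a) + h (d a) = d (h a) + N (h b')`.  So `u = d (v' + h a) + N (b + h b')`. -/
def S_RCf1 : Prop :=
  ∀ (S Rb I : Type) [CommRing S] [CommRing Rb] [Fintype I] [DecidableEq I] (C : RC S Rb)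
    (X : TC S I C.t) (u z0 : I → S) (v : I → Rb), X.d.mulVec u = C.N • z0 →
      C.ρ ∘ u = (X.d.map C.ρ).mulVec v → ∃ a b : I → S, u = X.d.mulVec a + C.N • b

/-- **RCyc** (from RVec).  If `d u = t y + N z` then `ρ u`, `ρ y`, `ρ z` are cycles, `d y = N b`, `d z =
t y'`,
`d (h u) = t (u - h y) - N (h z)`, `d (u - h y) = N (z + h b)`; and every cycle of `F` is of the form `ρ
u`.
Proof.  `0 = d d u = t d y + N d z`, so `t d y = 0` and `N d z = 0` (sep).  `d (h u) = t u - h (d u)`.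
`d (h y) = t y - h (d y) = t y - N (h b)`.  If `D0 x = 0`, `x = ρ u`, then `ρ (d u) = 0`. -/
def S_RCyc : Prop :=
  ∀ (S Rb I : Type) [CommRing S] [CommRing Rb] [Fintype I] [DecidableEq I] (C : RC S Rb)
    (X : TC S I C.t),
    (∀ u y z : I → S, X.d.mulVec u = C.t • y + C.N • z →
      (X.d.map C.ρ).mulVec (C.ρ ∘ u) = 0 ∧ (X.d.map C.ρ).mulVec (C.ρ ∘ y) = 0 ∧
      (X.d.map C.ρ).mulVec (C.ρ ∘ z) = 0 ∧ (∃ y' : I → S, X.d.mulVec z = C.t • y') ∧
      X.d.mulVec (X.h.mulVec u) = C.t • (u - X.h.mulVec y) + C.N • (-X.h.mulVec z) ∧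
      ∃ b : I → S, X.d.mulVec y = C.N • b ∧
        X.d.mulVec (u - X.h.mulVec y) = C.N • (z + X.h.mulVec b)) ∧
    ∀ x : I → Rb, (X.d.map C.ρ).mulVec x = 0 →
      ∃ u y z : I → S, C.ρ ∘ u = x ∧ X.d.mulVec u = C.t • y + C.N • z

/-- **RCon** (from RVec, RCyc).  The connecting operator exists.  Proof.  Let `Γ` be the submodule of
`H × H` (`H = Hm D0`) of all pairs `([ρ u], [ρ y])` with `d u = t y + N z` for some `z` (closed under
`+` and under
multiplication by `ρ s`, `s ∈ S`; `ρ` is onto).  The first projection `Γ → H` is bijective.  Onto: RCyc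
(last
part).  Injective: if `d u = t y + N z` and `ρ u = D0 v`, `v = ρ v'`, then `u - d v' = t a + N b`,
`d u = t d a + N d b`, so `t (y - d a) = N (d b - z)` is zero (sep), `y - d a = N b'`, `ρ y = D0 (ρ a)`.
`W` = second projection composed with the inverse (`LinearEquiv.ofBijective`). -/
def S_RCon : Prop :=
  ∀ (S Rb I : Type) [CommRing S] [CommRing Rb] [Fintype I] [DecidableEq I] (C : RC S Rb)
    (X : TC S I C.t), ∃ W : Module.End Rb (Hm (X.d.map C.ρ)), IsCon C X W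

/-- **RRel** (from RVec, RCyc).  The relations between `W = w'`, `w = ind (σ d)` and `η = ind (ρ h)`.
Proof.  Every class is `[ρ u]` with `d u = t y + N z` (RCyc).  `W [ρ u] = [ρ y]`.
(1) `d y = N b`, so `W [ρ y] = [ρ 0] = 0`.  (2) `η [ρ u] = [ρ (h u)]` and `d (h u) = t (u - h y) - N (h
z)`, so
`W η [ρ u] = [ρ u] - η [ρ y]`.  (3) Apply `σ` to `d u = t y + N z` (RVec): `σ(d) ρ u + D0 (σ u) = ρ y +
c ρ z`, so
`w [ρ u] = [ρ y] + c [ρ z]`, `(w - W) [ρ u] = c [ρ z]` (`[ρ z]` is a class by RCyc).  Hence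
`(w - W) η [ρ u] = c [ρ (- h z)] = - η (w - W) [ρ u]`, and with (2) `w η + η w = 1`.
(4) `d z = t y'`, so `(w - W) [ρ z] = c [ρ 0] = 0`, hence `(w - W)^2 = 0`. -/
def S_RRel : Prop :=
  ∀ (S Rb I : Type) [CommRing S] [CommRing Rb] [Fintype I] [DecidableEq I] (C : RC S Rb)
    (X : TC S I C.t) (W : Module.End Rb (Hm (X.d.map C.ρ))) (hW : IsCon C X W)
    (pw : Pres (X.d.map C.ρ) (X.d.map C.σ)) (pη : Pres (X.d.map C.ρ) (X.h.map C.ρ)),
    let w := ind (X.d.map C.ρ) (X.d.map C.σ) pw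
    let η := ind (X.d.map C.ρ) (X.h.map C.ρ) pη
    W * W = 0 ∧ W * η + η * W = 1 ∧ w * η + η * w = 1 ∧ (w - W) * (w - W) = 0

/-- **RRing**.  A computation in a ring.  Proof.  `κ = w²`, `g = η (w - w')`, `f = 1 - η w'`, `e = (1 -
η w)^m`.
(i) From h4: `κ = w w' + w' w`; so `κ w' = w' w w' = w' κ` (h1); `κ η = w (1 - η w) = w - (1 - η w) w =
η κ`; so `κ`
commutes with `w`, `w'`, `η` and everything built from them.
(ii) `(1 - η w)^2 = (1 - η w) - η² κ` (`η w η w = η (1 - η w) w`), so by induction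
`(1 - η w)^m = (1 - η w) + κ z` for `m ≥ 1`, with `z` in the subring generated by `w, η`.
(iii) `f f = f` and `f = w' η` (h1, h2); `β = w - w'`: `β² = 0`, `β η + η β = 0` (h2, h3), so `g² = 0`;
`1 - η w = f - g`; `β w' + w' β = κ`; `g f + f g = g + κ η²`
[`g f = η β w' η = η (κ - w' β) η = κ η² + η w' η β = κ η² + (1 - w' η) η β`, `f g = w' η η β`].
So `g (1 - 2 f) g = - 2 κ η² g`.
(iv) `u = e f + (1 - e) (1 - f)`: `e f = u f`, `e u = e f`.  `u - 1 = 2 e f - e - f = g (1 - 2 f) + κ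
z'`, so
`(u - 1)² = κ z''`, `z''` commuting with `κ`; `κ` is nilpotent, so `u - 1` is nilpotent and `u` is a unit
(`IsNilpotent.isUnit_one_add` or similar, noncommutative version with `Commute`).
(A convenient way: pass to the subring of the elements commuting with `κ` and to its quotient by the ideal
`(κ)`; or write all `z, z', z''` explicitly and use `noncomm_ring`.) -/
def S_RRing : Prop :=
  ∀ (A : Type) [Ring A] (w w' η : A) (h1 : w' * w' = 0) (h2 : w' * η + η * w' = 1)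
    (h3 : w * η + η * w = 1) (h4 : (w - w') * (w - w') = 0) (hn : IsNilpotent w) (m : ℕ)
    (hm : 0 < m) (he : (1 - η * w) ^ m * (1 - η * w) ^ m = (1 - η * w) ^ m),
    ∃ u v : A, u * v = 1 ∧ v * u = 1 ∧
      (1 - η * w) ^ m * (1 - η * w') = u * (1 - η * w') ∧
      (1 - η * w) ^ m * (1 - η * w') = (1 - η * w) ^ m * u

/-- **RTot** (from RVec, RMat, RNil, RCf1, RCyc, RCon, RRel, RRing).  The total form of part (a).
Proof.  chain: RMat.  Let `W` be the operator of RCon, `w`, `η` as in RRel, all on `H = Hm D0`; `w` is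
nilpotent
because `σ(d)` is (RNil with `X.dl`; `ind_pow`).  `ê = (1 - η w)^m` is induced by `e` (`ind_pow`,
`ind_sub`,
`ind_mul`, `ind_one`), `f = 1 - η W`; `u, v` from RRing.  Note `W f = 0`, `f = W η`.
FACT K: if `W [x] = 0` then `x = ρ u'` modulo boundaries with `d u' ∈ N S^I`, and boundaries are of this
form, so
`x = ρ u''` with `d u'' ∈ N S^I`.  Indeed `x = ρ u`, `d u = t y + N z`, `ρ y = D0 v`;
`x = ρ (u - h y) + η ρ y`, `d (u - h y) ∈ N S^I` (RCyc), `η D0 v = - D0 η v`, and `D0 v' = ρ (d v'')`,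
`d (d v'') = 0`.
onto: `y` a cycle with `e y = y`: `ê [y] = [y]`.  Put `[x] = f v [y]`: `W [x] = 0`, and
`ê [x] = ê f v [y] = ê u v [y] = [y]`.  So `e x = y + D0 s`; apply `e`: `e x = y + e D0 s = y + D0 (e s)`.
Hence `e (x - D0 s) = e x - D0 (e s) = y`.  By FACT K `x - D0 s = ρ u'` with `d u' ∈ N S^I`.
inj: `d x = N z`, so `W [ρ x] = 0`, `f [ρ x] = [ρ x]`; `ê [ρ x] = 0`; `u [ρ x] = u f [ρ x] = ê f [ρ x] =
0`, so
`[ρ x] = v u [ρ x] = 0`, `ρ x` is a boundary: RCf1. -/
def S_RTot : Prop :=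
  ∀ (S Rb I : Type) [CommRing S] [CommRing Rb] [Fintype I] [DecidableEq I] (C : RC S Rb)
    (X : TC S I C.t) (m : ℕ) (hm : 0 < m) (he : X.phi C ^ m * X.phi C ^ m = X.phi C ^ m),
    X.d.map C.ρ * X.phi C ^ m = X.phi C ^ m * X.d.map C.ρ ∧
    (∀ y : I → Rb, (X.phi C ^ m).mulVec y = y → (X.d.map C.ρ).mulVec y = 0 →
      ∃ x z : I → S, X.d.mulVec x = C.N • z ∧ (X.phi C ^ m).mulVec (C.ρ ∘ x) = y) ∧
    ∀ (x z : I → S) (w : I → Rb), X.d.mulVec x = C.N • z →
      (X.phi C ^ m).mulVec (C.ρ ∘ x) = (X.d.map C.ρ).mulVec w →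
      ∃ u v : I → S, x = X.d.mulVec u + C.N • v

/-! ## C. The Euler characteristic -/

/-- **RDer**.  Proof.  `(A * B) i j = ∑ k, A i k * B k j`, `map_sum`, `der1`, `der2`, `der12`,
`Finset.sum_add_distrib`. -/
def S_RDer : Prop :=
  ∀ (S k I : Type) [CommRing S] [CommRing k] [Fintype I] (R : RD S k) (A B : Matrix I I S),
    (A * B).map R.ε = A.map R.ε * B.map R.ε ∧
    (A * B).map R.δ1 = A.map R.δ1 * B.map R.ε + A.map R.ε * B.map R.δ1 ∧
    (A * B).map R.δ2 = A.map R.δ2 * B.map R.ε + A.map R.ε * B.map R.δ2 ∧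
    (A * B).map R.δ12 = A.map R.δ12 * B.map R.ε + A.map R.δ1 * B.map R.δ2 +
      A.map R.δ2 * B.map R.δ1 + A.map R.ε * B.map R.δ12

/-- **ROp**.  Proof.  `p1 = 1 - p0`, so `e` commutes with `p1`.  `W' = e W = W e`, `E' = e E e`.
`W' E' + E' W' = e (W E + E W) e = e`, `e W' = W' = W' e`, same for `E'`.  `W'^2 E' = W' (e - E' W') =
W' - W' E' W' = W' - (e - E' W') W' = E' W'^2`.  `ν = W'^2 + E'^2` is nilpotent
(`Commute.isNilpotent_add`;
`W'^k = e W^k`).  `Y = W' + E'`: `Y^2 = ν + e`.  `Y` is injective on `range e`: `e x = x`, `Y x = 0` give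
`x = - ν x = … = (-ν)^n x = 0`.  `Y (e p0 x) = e p1 (W x + E (e x))` (`Y e = Y`, `W' p0 = e p1 W`, `E'
p0 = e E p0 e = e p1 E e`), so `Y` maps
`range (e p0)` injectively to `range (e p1)`, and `range (e p1)` injectively to `range (e p0)`
(`LinearMap.finrank_le_finrank_of_injective` twice). -/
def S_ROp : Prop :=
  ∀ (k H : Type) [Field k] [AddCommGroup H] [Module k H] [FiniteDimensional k H]
    (p0 p1 e W E : Module.End k H) (h01 : p0 + p1 = 1) (hp : p0 * p1 = 0) (hp' : p1 * p0 = 0)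
    (hW0 : W * p0 = p1 * W) (hW1 : W * p1 = p0 * W) (hE0 : E * p0 = p1 * E)
    (hE1 : E * p1 = p0 * E) (ee : e * e = e) (ep : e * p0 = p0 * e) (eW : e * W = W * e)
    (WE : W * E + E * W = 1) (nW : IsNilpotent W) (nE : IsNilpotent (e * E * e)),
    Module.finrank k (LinearMap.range (e * p0)) = Module.finrank k (LinearMap.range (e * p1))

/-- **REP** (Euler - Poincaré for a `ℤ/2`-graded complex).  Proof.  `V0 = range q0`, `V1 = range q1`.
`dim V0 = dim (ker D ⊓ V0) + dim D V0` (rank-nullity for `D` restricted to `V0`).  The map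
`ker D ⊓ V0 → Hm D` has the image `range (ind q0)` (`cl x = ind q0 (cl x)` if `q0 x = x`, and `q0 x ∈
ker D ⊓ V0`
for a cycle `x`) and the kernel `range D ⊓ V0 = D V1` (`y = D v = q0 y` gives `y = q0 D v = D q1 v`).  So
`dim V0 = dim range (ind q0) + dim D V1 + dim D V0`; the same with exchanged roles; subtract. -/
def S_REP : Prop :=
  ∀ (k I : Type) [Field k] [Fintype I] [DecidableEq I] (D q0 q1 : Matrix I I k) (DD : D * D = 0)
    (h0 : q0 * q0 = q0) (h1 : q1 * q1 = q1) (h01 : D * q0 = q1 * D) (h10 : D * q1 = q0 * D)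
    (P0 : Pres D q0) (P1 : Pres D q1),
    q0.rank + Module.finrank k (LinearMap.range (ind D q1 P1)) =
      q1.rank + Module.finrank k (LinearMap.range (ind D q0 P0))

/-- **RRank** (from RNil, RDer, ROp, REP).  Part (b): the even and the odd part of the image of `e` have
the same dimension.
Proof.  `D = ε(d)`, `W1 = δ1(d)`, `W2 = δ2(d)`, `E1 = ε(h)`, `E2 = ε(h2)`.  Apply RDer to `d d = 0` and to
`d h + h d = t1`, `d h2 + h2 d = t2`: `D D = 0`; `D Wi + Wi D = 0`; `W1 W2 + W2 W1 = - (D L + L D)`, `L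
= δ12(d)`;
`D Ei + Ei D = 0`; `W2 E1 + E1 W2 = - (D K + K D)`, `K = δ2(h)` (`δ2 t1 = 0`);
`W2 E2 + E2 W2 = 1 - (D K' + K' D)`, `K' = δ2(h2)` (`δ2 t2 = 1`; `(t • 1).map δ2 = (δ2 t) • 1`).
On `Hm D` the induced operators (`pres_anti`, `ind_mul`, `ind_add`, `ind_null`, …) satisfy `W1 W2 = - W2
W1`,
`W2 E1 = - E1 W2`, `W2 E2 + E2 W2 = 1`, so `W2` commutes with `E1 W1` and with `e = (1 - E1 W1)^m`.
`P b = PP k deg b`: `P true + P false = 1`, `P true * P false = 0`, and for every matrix `Y` of degree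
`±1`
`Y * P b = P (!b) * Y` (entry by entry), in particular for `D`, `Wi`, `Ei`; `e` preserves degrees
(`e a b ≠ 0 → deg a = deg b`, from `E1 W1`), so commutes with `P b`; `W2` and `e E2 e` are
nilpotent (RNil).  ROp on `Hm D` with `p0, p1` induced by `P true`, `P false` (`pres_of`), and REP with
`q0 = e * P true`, `q1 = e * P false` (`D e = e D`, `D q0 = e D P true = q1 D`). -/
def S_RRank : Prop :=
  ∀ (S k I : Type) [CommRing S] [Field k] [Fintype I] [DecidableEq I] (R : RD S k) (t1 t2 : S)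
    (X : TC S I t1) (h2 : Matrix I I S) (hd2 : X.d * h2 + h2 * X.d = t2 • (1 : Matrix I I S))
    (hr2 : ∀ a b, X.deg a ≠ X.deg b + 1 → h2 a b = 0) (e1 : R.ε t1 = 0) (e2 : R.ε t2 = 0)
    (d1 : R.δ2 t1 = 0) (d2 : R.δ2 t2 = 1) (m : ℕ) (hm : 0 < m)
    (he : (1 - X.h.map R.ε * X.d.map R.δ1) ^ m * (1 - X.h.map R.ε * X.d.map R.δ1) ^ m =
      (1 - X.h.map R.ε * X.d.map R.δ1) ^ m),
    ((1 - X.h.map R.ε * X.d.map R.δ1) ^ m * PP k X.deg true).rank =
      ((1 - X.h.map R.ε * X.d.map R.δ1) ^ m * PP k X.deg false).rank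

/-! ## D. Group rings -/

/-- The assumptions on the coefficient ring: `q : O → ℤ/n` is onto with kernel `n O`, and `n` is not a
zero divisor (for example `O = ℤ`, `ℤ_(p)` with `n = p^k`). -/
structure CoefRing (O : Type) [CommRing O] (n : ℕ) (q : O →+* ZMod n) : Prop where
  surj : Function.Surjective q
  ker : ∀ x, q x = 0 → ∃ y, x = (n : O) * y
  tf : ∀ x : O, (n : O) * x = 0 → x = 0

/-- **RCos**.  Elements of the group ring modulo `g - 1`; `n = orderOf g`, `nm = ∑ i < n, g^i`,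
`ρ' = mapDomainRingHom O (mk' (zpowers g)) : O[G] → O[G ⧸ zpowers g]`.
Proof.  (1) `τ = MonoidAlgebra.mapDomain Quotient.out` (additive), `τ (single c a) = single c.out a`.
For `x = single h a`:
`h = c.out * g^i` with `c = mk h`, `i : ℕ` (`g` has finite order), and `single h a - single c.out a` is
a multiple of
`g^i - 1`, hence of `g - 1` (`Commute`/`sub_one`-type: `sub_dvd_pow_sub_pow`).  The set of the `x` with
the property is closed
under addition (`MonoidAlgebra.induction_on` or `Finsupp` induction).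
(2) `(g - 1) x = 0`: `x.coeff (g h) = x.coeff h`, so `x.coeff` is constant on the cosets and
`x = nm * ∑_c single c.out (x.coeff c.out)` (compare coefficients; compare `HS/ArKT.lean`).
(3) The coefficient of `nm * x` at `h` is `∑ i < n, x.coeff (g^(-i) h) = (ρ' x).coeff (mk h)`; so `nm *
x = 0` gives
`ρ' x = 0`, and (1).  (4) `(g - 1) nm = g^n - 1 = 0` (`mul_geom_sum`).  (5) `nm - n = ∑ (g^i - 1)`. -/
def S_RCos : Prop :=
  ∀ (O G : Type) [CommRing O] [CommGroup G] [Finite G] (g : G),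
    (∃ τ : MonoidAlgebra O (G ⧸ Subgroup.zpowers g) →+ MonoidAlgebra O G,
      ∀ x : MonoidAlgebra O G, ∃ y : MonoidAlgebra O G, x = (MonoidAlgebra.of O G g - 1) * y +
        τ (MonoidAlgebra.mapDomainRingHom O (QuotientGroup.mk' (Subgroup.zpowers g)) x)) ∧
    (∀ x : MonoidAlgebra O G, (MonoidAlgebra.of O G g - 1) * x = 0 →
      ∃ y, x = (∑ i ∈ Finset.range (orderOf g), MonoidAlgebra.of O G g ^ i) * y) ∧
    (∀ x : MonoidAlgebra O G, (∑ i ∈ Finset.range (orderOf g), MonoidAlgebra.of O G g ^ i) * x = 0 →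
      ∃ y, x = (MonoidAlgebra.of O G g - 1) * y) ∧
    (MonoidAlgebra.of O G g - 1) * (∑ i ∈ Finset.range (orderOf g), MonoidAlgebra.of O G g ^ i) = 0 ∧
    ∃ y, ∑ i ∈ Finset.range (orderOf g), MonoidAlgebra.of O G g ^ i =
      ((orderOf g : ℕ) : MonoidAlgebra O G) + (MonoidAlgebra.of O G g - 1) * y

/-- **RInst** (from RCos).  The group ring is an `RC`.  Proof.  `ρ` = composition of
`MonoidAlgebra.mapDomainRingHom` (for `G → G ⧸ zpowers g`) and `MonoidAlgebra.mapRingHom` (for `q`).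
`σ (∑ a_h h) = ∑ q(a_h) χ(h) [h]` (additive: `Finsupp.liftAddHom` composed with `coeffAddEquiv`).
`der`: on `single`s, `χ (h h') = χ h + χ h'`;
both sides are biadditive.  `ρt`, `ρN` (`n = 0` in `ZMod n`), `σt` (`χ 1 = 0`, `χ g = 1`), `σN`: `∑ i <
n, i = C(n,2)`
(`χ (g^i) = i`).  `surj`: singles.  `ker`: by RCos (1) `x = t y + τ (ρ' x)`, and `ρ x = mapRingHom q (ρ'
x) = 0` says that
the coefficients of `ρ' x` are in `n O`, so `ρ' x = n • b`, `τ (ρ' x) = n • τ b`, and `n ∈ N S + t S` by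
RCos (last).  `ker_t`, `ker_N`, `tN`: RCos.  `sep`: `t x = N y`; multiply by `N`:
`0 = N² y = n (N y)` (`N² = n N` from `t N = 0` and RCos (last)); `n z = 0` implies `z = 0`
(coefficients, `tf`). -/
def S_RInst : Prop :=
  ∀ (O G : Type) [CommRing O] [CommGroup G] [Finite G] (g : G) (n : ℕ) (hn : 1 < n)
    (hg : orderOf g = n) (q : O →+* ZMod n) (hq : CoefRing O n q)
    (χ : G →* Multiplicative (ZMod n)) (hχ : χ g = Multiplicative.ofAdd 1),
    ∃ C : RC (MonoidAlgebra O G) (MonoidAlgebra (ZMod n) (G ⧸ Subgroup.zpowers g)),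
      C.t = MonoidAlgebra.of O G g - 1 ∧
      C.N = ∑ i ∈ Finset.range n, MonoidAlgebra.of O G g ^ i ∧
      (∀ (h : G) (a : O), C.ρ (MonoidAlgebra.single h a) =
        MonoidAlgebra.single (h : G ⧸ Subgroup.zpowers g) (q a)) ∧
      ∀ (h : G) (a : O), C.σ (MonoidAlgebra.single h a) =
        MonoidAlgebra.single (h : G ⧸ Subgroup.zpowers g) (q a * Multiplicative.toAdd (χ h))

/-- **RDInst**.  Proof.  `ε = MonoidAlgebra.lift`-type ring homomorphism (all group elements to `1`,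
coefficients by `ε0`); `δ1 (single h a) = ε0 a * χ1 h` etc. by `Finsupp.liftAddHom`; the three product
rules on
`single`s (`χi (h h') = χi h + χi h'`), then biadditivity (`MonoidAlgebra.induction_on` or `Finsupp`
inductions). -/
def S_RDInst : Prop :=
  ∀ (O k G : Type) [CommRing O] [CommRing k] [CommGroup G] (ε0 : O →+* k)
    (χ1 χ2 : G →* Multiplicative k),
    ∃ R : RD (MonoidAlgebra O G) k, ∀ (h : G) (a : O),
      R.ε (MonoidAlgebra.single h a) = ε0 a ∧
      R.δ1 (MonoidAlgebra.single h a) = ε0 a * Multiplicative.toAdd (χ1 h) ∧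
      R.δ2 (MonoidAlgebra.single h a) = ε0 a * Multiplicative.toAdd (χ2 h) ∧
      R.δ12 (MonoidAlgebra.single h a) =
        ε0 a * (Multiplicative.toAdd (χ1 h) * Multiplicative.toAdd (χ2 h))

/-- **RLocA**.  The group ring `(ℤ/p^k)[Q]` of a finite abelian `p`-group is local with residue field
`ℤ/p`.  Proof.  `π (∑ a_h h) = ∑ a_h mod p` (`ZMod.castHom`).  If `π x = 0` then `x` is nilpotent: let
`y = x^(p^j)` with `p^j` a multiple of the exponent of `Q`; modulo `p` (Frobenius,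
`add_pow_char_pow` in the ring `(ZMod p)[Q]`, or `Ideal.Quotient`) `y = ∑ a_h^(p^j) h^(p^j) = (∑
a_h^(p^j)) 1 =
(∑ a_h)^(p^j) = 0`, so `y` is a multiple of `p` (kernel of `(ZMod p^k)[Q] → (ZMod p)[Q]`: coefficients),
and `p^k = 0`.
If `π x ≠ 0`: `x = c + y`, `c : ZMod (p^k)` with `c mod p = π x` (a unit), `π y = 0`, `y` nilpotent: `x`
is a unit. -/
def S_RLocA : Prop :=
  ∀ (p k : ℕ) [Fact p.Prime] (hk : 0 < k) (Q : Type) [CommGroup Q] [Finite Q] (hQ : IsPGroup p Q),
    ∃ π : MonoidAlgebra (ZMod (p ^ k)) Q →+* ZMod p, Function.Surjective π ∧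
      (∀ x, π x ≠ 0 → IsUnit x) ∧
      ∀ (h : Q) (a : ZMod (p ^ k)), π (MonoidAlgebra.single h a) =
        ZMod.castHom (dvd_pow_self p hk.ne') (ZMod p) a

/-- **RLocB**.  Idempotent matrices over a local ring.  Proof.  `Rb` is a local ring (`IsLocalRing`:
sums of
non units are in the kernel of `π`, which is a proper ideal).  `M = range e` is f.g. projective
(`e` splits), hence free (`Module.free_of_flat_of_isLocalRing` or
`Module.Projective` + `IsLocalRing` instance), of finite rank `g`: `Fin g → Rb ≃ M`.  With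
`A : Rb^g → M ⊆ Rb^r` and `B : Rb^r → M → Rb^g` (matrices) `A B = e`, `B A = 1`.  So `π(A) π(B) = π(e)`,
`π(B) π(A) = 1`
and the rank of `π(e)` is `g` (`Matrix.rank_mul_le`: `rank π(e) ≤ g`, and
`g = rank (π(B) π(e) π(A)) ≤ rank π(e)`). -/
def S_RLocB : Prop :=
  ∀ (Rb k : Type) [CommRing Rb] [Field k] (π : Rb →+* k) (hπ : ∀ x, π x ≠ 0 → IsUnit x)
    (r : ℕ) (e : Matrix (Fin r) (Fin r) Rb) (he : e * e = e),
    ∃ g : ℕ, Nonempty (LinearMap.range e.mulVecLin ≃ₗ[Rb] (Fin g → Rb)) ∧ (e.map π).rank = g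

/-! ## E. Graded families -/

/-- **RGrA**.  The total complex of a graded family.  Proof.  `(dT d).mulVec x` at `⟨i, a⟩` is
`∑ over ⟨i + 1, b⟩` of `d i a b * x ⟨i + 1, b⟩` (only one value of the first index contributes:
`Fintype.sum_sigma`, `Finset.sum_eq_single`; for `i = D` there is none, and `r (D + 1) = 0`).  Products
of matrices:
use `Matrix.ext_of_mulVec_single` or compute the entries in the same way (`h 0`, `d 0` are empty as `r 0
= 0`). -/
def S_RGrA : Prop :=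
  ∀ (A : Type) [CommRing A] (r : ℕ → ℕ) (D : ℕ) (r0 : r 0 = 0) (rD : ∀ i, D < i → r i = 0)
    (d : ∀ i, Matrix (Fin (r i)) (Fin (r (i + 1))) A)
    (h : ∀ i, Matrix (Fin (r (i + 1))) (Fin (r i)) A) (t : A),
    ((∀ i, d i * d (i + 1) = 0) → dT D d * dT D d = 0) ∧
    ((∀ i, d (i + 1) * h (i + 1) + h i * d i = t • (1 : Matrix (Fin (r (i + 1))) (Fin (r (i + 1))) A)) →
      dT D d * hT D h + hT D h * dT D d = t • (1 : Matrix (TI r D) (TI r D) A)) ∧
    (∀ a b : TI r D, b.1.val ≠ a.1.val + 1 → dT D d a b = 0) ∧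
    (∀ a b : TI r D, a.1.val ≠ b.1.val + 1 → hT D h a b = 0) ∧
    (∀ (x : TI r D → A) (i : ℕ), cmpT D ((dT D d).mulVec x) i = (d i).mulVec (cmpT D x (i + 1))) ∧
    ∀ (B : Type) [CommRing B] (f : A → B), f 0 = 0 →
      (dT D d).map f = dT D (fun i => (d i).map f) ∧ (hT D h).map f = hT D (fun i => (h i).map f)

/-- **RGrB**.  Matrices of degree `0`.  Proof.  As in RGrA: `(e.mulVec x) ⟨i, a⟩ = ∑ b, e ⟨i,a⟩ ⟨i,b⟩ x
⟨i,b⟩`.
`embT i v` has the component `v` in degree `i ≤ D` and `0` in the other degrees; `x = y` iff all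
components
agree. -/
def S_RGrB : Prop :=
  ∀ (A : Type) [CommRing A] (r : ℕ → ℕ) (D : ℕ) (rD : ∀ i, D < i → r i = 0)
    (e : Matrix (TI r D) (TI r D) A) (he : ∀ a b : TI r D, a.1.val ≠ b.1.val → e a b = 0),
    (∀ (x : TI r D → A) (i : ℕ), cmpT D (e.mulVec x) i = (blkT D e i).mulVec (cmpT D x i)) ∧
    (∀ (i : ℕ) (v : Fin (r i) → A), cmpT D (embT D i v) i = v) ∧
    (∀ (i j : ℕ) (v : Fin (r i) → A), j ≠ i → cmpT D (embT D i v) j = 0) ∧
    (∀ x y : TI r D → A, (∀ i, cmpT D x i = cmpT D y i) → x = y) ∧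
    (e * e = e → ∀ i, blkT D e i * blkT D e i = blkT D e i)

/-- **RGrC** (from RGrB).  The rank of the even (odd) part of a matrix `e` of degree `0` over a field is
the sum
of the ranks of its blocks of even (odd) degree.  Proof.  `e * PP b` is, up to the order of the indices,
the
block diagonal matrix with the blocks `blkT e i` for `i` of parity `b` and `0` otherwise; the range of
`(e * PP b).mulVecLin` is isomorphic to the product of the ranges of the blocks (the vectors whose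
components
are in these ranges, by RGrB): `LinearEquiv`, `Module.finrank_pi_fintype`.  Here `D + 1` blocks. -/
def S_RGrC : Prop :=
  ∀ (k : Type) [Field k] (r : ℕ → ℕ) (D : ℕ) (rD : ∀ i, D < i → r i = 0)
    (e : Matrix (TI r D) (TI r D) k) (he : ∀ a b : TI r D, a.1.val ≠ b.1.val → e a b = 0)
    (b : Bool),
    (e * PP k (fun x : TI r D => x.1.val) b).rank =
      ∑ i ∈ (Finset.range (D + 1)).filter (fun i => decide (Even i) = b), (blkT D e i).rank

/-- **RFin** (from RTot, RIdm, RRank, RInst, RDInst, RLocA, RLocB, RGrA, RGrB, RGrC).  The result of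
parts (a), (b) for a graded complex of free modules over `O[G]`, `G` a finite abelian `p`-group, and a
direct
factor `⟨g⟩` with nontrivial complement.
Proof.  `C` from RInst.  The total complex `X = (dT d, hT h, degree = first index)` is a `TC` (RGrA), `I
= TI r D`;
`e` total = `(X.phi C)^m` idempotent (RIdm; the ring `Rb` is finite); it has degree `0` (`φ` has).  `e i
= blkT D e i`.
idem: RGrB.  chain, onto, inj: RTot in total form, applied to `embT` of the given vectors, then take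
components
(RGrA, RGrB for `e`, `C.ρ ∘ cmpT x = cmpT (C.ρ ∘ x)`; if `x` is a total solution then its component of
degree
`i + 1` is a solution of the graded equation: `d i x_(i+1) = (d x)_i = N z_i`).
gk: RLocB for `e i` with `π` of RLocA: `gk i` is the rank of the `π`-image of `e i`.  Sum: let `R` be
the `RD` of RDInst
for `ε0 = (ZMod.castHom) ∘ q`, `χ1 = χ mod p`, `χ2 = χ'`.  `π ∘ ρ = R.ε`, `π ∘ σ = R.δ1` (on singles),
so the `π`-image of
`e` is `(1 - ε(h) δ1(d))^m` (`Matrix.map_mul`, `map_pow`).  RRank with `t1 = g - 1`, `t2 = g' - 1`, `h2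
= hT h'`:
the ranks of the even and odd parts agree; RGrC. -/
def S_RFin : Prop :=
  ∀ (O G : Type) [CommRing O] [CommGroup G] [Finite G] (p k : ℕ) [Fact p.Prime] (hk : 0 < k)
    (hG : IsPGroup p G) (q : O →+* ZMod (p ^ k)) (hq : CoefRing O (p ^ k) q)
    (g g' : G) (hg : orderOf g = p ^ k)
    (χ : G →* Multiplicative (ZMod (p ^ k))) (hχ : χ g = Multiplicative.ofAdd 1)
    (χ' : G →* Multiplicative (ZMod p)) (hχ1 : χ' g = 1) (hχ2 : χ' g' = Multiplicative.ofAdd 1)
    (r : ℕ → ℕ) (D : ℕ) (r0 : r 0 = 0) (rD : ∀ i, D < i → r i = 0)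
    (d : ∀ i, Matrix (Fin (r i)) (Fin (r (i + 1))) (MonoidAlgebra O G))
    (h h' : ∀ i, Matrix (Fin (r (i + 1))) (Fin (r i)) (MonoidAlgebra O G))
    (dd : ∀ i, d i * d (i + 1) = 0)
    (dh : ∀ i, d (i + 1) * h (i + 1) + h i * d i = (MonoidAlgebra.of O G g - 1) • 1)
    (dh' : ∀ i, d (i + 1) * h' (i + 1) + h' i * d i = (MonoidAlgebra.of O G g' - 1) • 1),
    ∃ (C : RC (MonoidAlgebra O G) (MonoidAlgebra (ZMod (p ^ k)) (G ⧸ Subgroup.zpowers g)))
      (e : ∀ i, Matrix (Fin (r i)) (Fin (r i))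
        (MonoidAlgebra (ZMod (p ^ k)) (G ⧸ Subgroup.zpowers g))) (gk : ℕ → ℕ),
      C.t = MonoidAlgebra.of O G g - 1 ∧
      C.N = ∑ i ∈ Finset.range (p ^ k), MonoidAlgebra.of O G g ^ i ∧
      (∀ i, e i * e i = e i) ∧
      (∀ i, (d i).map C.ρ * e (i + 1) = e i * (d i).map C.ρ) ∧
      (∀ i (y : Fin (r (i + 1)) → MonoidAlgebra (ZMod (p ^ k)) (G ⧸ Subgroup.zpowers g)),
        (e (i + 1)).mulVec y = y → ((d i).map C.ρ).mulVec y = 0 →
        ∃ (x : Fin (r (i + 1)) → MonoidAlgebra O G) (z : Fin (r i) → MonoidAlgebra O G),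
          (d i).mulVec x = C.N • z ∧ (e (i + 1)).mulVec (C.ρ ∘ x) = y) ∧
      (∀ i (x : Fin (r (i + 1)) → MonoidAlgebra O G) (z : Fin (r i) → MonoidAlgebra O G)
        (w : Fin (r (i + 2)) → MonoidAlgebra (ZMod (p ^ k)) (G ⧸ Subgroup.zpowers g)),
        (d i).mulVec x = C.N • z →
        (e (i + 1)).mulVec (C.ρ ∘ x) = ((d (i + 1)).map C.ρ).mulVec w →
        ∃ (u : Fin (r (i + 2)) → MonoidAlgebra O G) (v : Fin (r (i + 1)) → MonoidAlgebra O G),
          x = (d (i + 1)).mulVec u + C.N • v) ∧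
      (∀ i, Nonempty (LinearMap.range (e i).mulVecLin ≃ₗ[MonoidAlgebra (ZMod (p ^ k))
        (G ⧸ Subgroup.zpowers g)] (Fin (gk i) → MonoidAlgebra (ZMod (p ^ k))
          (G ⧸ Subgroup.zpowers g)))) ∧
      ∑ i ∈ Finset.range (D + 1), (-1 : ℤ) ^ i * (gk i : ℤ) = 0

end HSp
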