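import Pool.Agent.Lib.MP_181146_gt.HS.SpecT

/-!
# Product of the determinants of two contractions over a reduced ring
-/

set_option autoImplicit false

namespace HSp

private theorem TDet_one {L : Type} [CommRing L] [IsReduced L] {ρ : ℕ}
    (P : Matrix (Fin ρ) (Fin ρ) L) (h : IsNilpotent (P - 1)) : P.det = 1 := by
  have h1 : IsNilpotent (-(P - 1)) := h.neg
  have h2 := Matrix.isNilpotent_charpoly_sub_pow_of_isNilpotent h1
  have h3 : IsNilpotent ((Polynomial.evalRingHom (1 : L))
      ((-(P - 1)).charpoly - Polynomial.X ^ Fintype.card (Fin ρ))) := h2.map _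
  have h4 := h3.eq_zero
  rw [Polynomial.coe_evalRingHom, Polynomial.eval_sub, Matrix.eval_charpoly, Polynomial.eval_pow,
    Polynomial.eval_X, one_pow] at h4
  have h5 : Matrix.scalar (Fin ρ) (1 : L) - -(P - 1) = P := by
    rw [map_one]
    abel
  rw [h5] at h4
  exact sub_eq_zero.mp h4

/-- conjugation by a linear equivalence preserves powers -/
private theorem TDet_pow {L : Type} [CommRing L] {M N : Type} [AddCommGroup M] [Module L M]
    [AddCommGroup N] [Module L N] (e : M ≃ₗ[L] N) (f : Module.End L N) (n : ℕ) :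
    ((e.symm.toLinearMap ∘ₗ f) ∘ₗ e.toLinearMap : Module.End L M) ^ n =
      (e.symm.toLinearMap ∘ₗ (f ^ n : Module.End L N)) ∘ₗ e.toLinearMap := by
  induction n with
  | zero =>
    ext x
    simp
  | succ n ih =>
    rw [pow_succ, ih, pow_succ]
    ext x
    simp

theorem sTDet (hTNil : S_TNil) : S_TDet := by
  intro L _ _ r D hD d dd k k' hk hk' ρ sO sE
  obtain ⟨n, hn⟩ := (hTNil L r D hD d dd k k' hk hk').1
  rw [← Matrix.det_mul]
  apply TDet_one
  refine ⟨n, ?_⟩
  have h1 : OEm sO sE d k' * EOm sO sE d k - 1 = LinearMap.toMatrix'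
      (((cP sE).symm.toLinearMap ∘ₗ
        (oe (N := fun i => Fin (r i) → L) (fun i => (d i).mulVecLin)
          (fun i => (k' i).mulVecLin) ∘ₗ
        eo (N := fun i => Fin (r i) → L) (fun i => (d i).mulVecLin) (fun i => (k i).mulVecLin) -
          LinearMap.id)) ∘ₗ (cP sE).toLinearMap) := by
    unfold OEm EOm
    rw [← LinearMap.toMatrix'_mul, ← LinearMap.toMatrix'_one, ← map_sub]
    refine congrArg LinearMap.toMatrix' ?_
    ext x
    simp [LinearMap.sub_apply]
  rw [h1]
  have h2 : ∀ F : Module.End L (Fin ρ → L), LinearMap.toMatrix' F ^ n =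
      LinearMap.toMatrix' (F ^ n) := by
    intro F
    have h3 := map_pow (LinearMap.toMatrixAlgEquiv' : Module.End L (Fin ρ → L) ≃ₐ[L] _) F n
    exact h3.symm
  rw [h2, TDet_pow, hn]
  simp

end HSp
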