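import Pool.Agent.Lib.MP_181146_gt.HS.SpecT

/-!
# Project HS: TNil

`(d + k') (d + k)` is `1 +` nilpotent on the even and on the odd part.
-/

set_option autoImplicit false

namespace HSp

private lemma TNil_gen {L : Type} [CommRing L] (M : ℕ → Type) [∀ j, AddCommGroup (M j)]
    [∀ j, Module L (M j)] (ν : Module.End L (∀ j, M j))
    (h2 : ∀ (x : ∀ j, M j) (j : ℕ), (∀ i < j, x i = 0) → ν (ν x) j = 0)
    (J : ℕ) (hJ : ∀ j, J ≤ j → Subsingleton (M j)) : IsNilpotent ν := by
  have key : ∀ (m : ℕ) (x : ∀ j, M j), ∀ j < m, (ν ^ (2 * m)) x j = 0 := by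
    intro m
    induction m with
    | zero => intro x j hj; exact absurd hj (Nat.not_lt_zero j)
    | succ m ih =>
      intro x j hj
      have e : (ν ^ (2 * (m + 1))) x = ν (ν ((ν ^ (2 * m)) x)) := by
        rw [show 2 * (m + 1) = 1 + (1 + 2 * m) by ring, pow_add, pow_add, pow_one]
        rfl
      rw [e]
      exact h2 _ j fun i hi => ih x i (by omega)
  refine ⟨2 * J, LinearMap.ext fun x => ?_⟩
  funext j
  rcases Nat.lt_or_ge j J with hj | hj
  · exact key J x j hj
  · have := hJ j hj
    exact Subsingleton.elim _ _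

section

variable {L : Type} [CommRing L] {r : ℕ → ℕ}
  (d : ∀ i, Matrix (Fin (r i)) (Fin (r (i + 1))) L)
  (k k' : ∀ i, Matrix (Fin (r (i + 1))) (Fin (r i)) L)

private lemma TNil_A (dd : ∀ i, d i * d (i + 1) = 0) (hk : IsCtr d k) (i : ℕ)
    (y : Fin (r (i + 1)) → L) (z : Fin (r (i + 3)) → L) (w : Fin (r i) → L) :
    (d (i + 1)).mulVec ((k (i + 1)).mulVec y + (d (i + 2)).mulVec z) +
      (k' i).mulVec (w + (d i).mulVec y) - y =
      (k' i - k i).mulVec ((d i).mulVec y) + (k' i).mulVec w := by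
  have e1 : (d (i + 1)).mulVec ((k (i + 1)).mulVec y) + (k i).mulVec ((d i).mulVec y) = y := by
    rw [Matrix.mulVec_mulVec, Matrix.mulVec_mulVec, ← Matrix.add_mulVec, hk.2 i,
      Matrix.one_mulVec]
  have e2 : (d (i + 1)).mulVec ((d (i + 2)).mulVec z) = 0 := by
    rw [Matrix.mulVec_mulVec, dd (i + 1), Matrix.zero_mulVec]
  rw [Matrix.mulVec_add, e2, Matrix.mulVec_add, Matrix.sub_mulVec, ← sub_eq_zero]
  have e3 : (d (i + 1)).mulVec ((k (i + 1)).mulVec y) = y - (k i).mulVec ((d i).mulVec y) :=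
    eq_sub_of_add_eq e1
  rw [e3]
  abel

private lemma TNil_sq (dd : ∀ i, d i * d (i + 1) = 0) (hk : IsCtr d k) (hk' : IsCtr d k') (i : ℕ)
    (y : Fin (r (i + 1)) → L) :
    (k' i - k i).mulVec ((d i).mulVec ((k' i - k i).mulVec ((d i).mulVec y))) = 0 := by
  have e : d i * (k' i - k i) * d i = 0 := by
    cases i with
    | zero => rw [Matrix.mul_sub, hk.1, hk'.1, sub_self, Matrix.zero_mul]
    | succ n =>
      have h1 := hk.2 n
      have h2 := hk'.2 n
      have h3 : d (n + 1) * (k' (n + 1) - k (n + 1)) = -((k' n - k n) * d n) := by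
        rw [Matrix.mul_sub, Matrix.sub_mul, eq_sub_of_add_eq h1, eq_sub_of_add_eq h2]
        abel
      rw [h3, Matrix.neg_mul, Matrix.mul_assoc, dd n, Matrix.mul_zero, neg_zero]
  rw [Matrix.mulVec_mulVec, Matrix.mulVec_mulVec, Matrix.mulVec_mulVec,
    Matrix.mul_assoc (k' i - k i), Matrix.mul_assoc (k' i - k i), e, Matrix.mul_zero,
    Matrix.zero_mulVec]

end

theorem sTNil : S_TNil := by
  intro L _ r D hD d dd k k' hk hk'
  have hsub : ∀ i, D < i → Subsingleton (Fin (r i) → L) := fun i hi => by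
    rw [hD i hi]
    infer_instance
  refine ⟨?_, ?_⟩
  · have E0 : ∀ x : ∀ j : ℕ, Fin (r (2 * j)) → L,
        (oe (N := fun i => Fin (r i) → L) (fun i => (d i).mulVecLin)
          (fun i => (k' i).mulVecLin) ∘ₗ
          eo (N := fun i => Fin (r i) → L) (fun i => (d i).mulVecLin)
            (fun i => (k i).mulVecLin) - LinearMap.id :
          Module.End L (∀ j : ℕ, Fin (r (2 * j)) → L)) x 0 = 0 := by
      intro x
      change (d 0).mulVec ((k 0).mulVec (x 0) + (d 1).mulVec (x 1)) - x 0 = 0
      rw [Matrix.mulVec_add, Matrix.mulVec_mulVec, Matrix.mulVec_mulVec, dd 0, hk.1,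
        Matrix.one_mulVec, Matrix.zero_mulVec, add_zero, sub_self]
    have E1 : ∀ (x : ∀ j : ℕ, Fin (r (2 * j)) → L) (j : ℕ),
        (oe (N := fun i => Fin (r i) → L) (fun i => (d i).mulVecLin)
          (fun i => (k' i).mulVecLin) ∘ₗ
          eo (N := fun i => Fin (r i) → L) (fun i => (d i).mulVecLin)
            (fun i => (k i).mulVecLin) - LinearMap.id :
          Module.End L (∀ j : ℕ, Fin (r (2 * j)) → L)) x (j + 1) =
          (k' (2 * j + 1) - k (2 * j + 1)).mulVec ((d (2 * j + 1)).mulVec (x (j + 1))) +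
            (k' (2 * j + 1)).mulVec ((k (2 * j)).mulVec (x j)) := fun x j =>
      TNil_A d k k' dd hk (2 * j + 1) (x (j + 1)) (x (j + 2)) ((k (2 * j)).mulVec (x j))
    refine TNil_gen _ _ (fun x j hx => ?_) (D + 1) fun j hj => hsub _ (by omega)
    · cases j with
      | zero => exact E0 _
      | succ j =>
        have hj : (oe (N := fun i => Fin (r i) → L) (fun i => (d i).mulVecLin)
          (fun i => (k' i).mulVecLin) ∘ₗ
          eo (N := fun i => Fin (r i) → L) (fun i => (d i).mulVecLin)
            (fun i => (k i).mulVecLin) - LinearMap.id :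
          Module.End L (∀ j : ℕ, Fin (r (2 * j)) → L)) x j = 0 := by
          cases j with
          | zero => exact E0 x
          | succ j =>
            rw [E1, hx (j + 1) (Nat.lt_succ_self _), hx j (by omega), Matrix.mulVec_zero,
              Matrix.mulVec_zero, Matrix.mulVec_zero, Matrix.mulVec_zero, add_zero]
        rw [E1, hj, E1, hx j (Nat.lt_succ_self _), Matrix.mulVec_zero, Matrix.mulVec_zero,
          add_zero]
        rw [add_zero]
        exact TNil_sq d k k' dd hk hk' (2 * j + 1) (x (j + 1))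
  · have E0 : ∀ x : ∀ j : ℕ, Fin (r (2 * j + 1)) → L,
        (eo (N := fun i => Fin (r i) → L) (fun i => (d i).mulVecLin)
          (fun i => (k' i).mulVecLin) ∘ₗ
          oe (N := fun i => Fin (r i) → L) (fun i => (d i).mulVecLin)
            (fun i => (k i).mulVecLin) - LinearMap.id :
          Module.End L (∀ j : ℕ, Fin (r (2 * j + 1)) → L)) x 0 =
          (k' 0 - k 0).mulVec ((d 0).mulVec (x 0)) := by
      intro x
      have h := TNil_A d k k' dd hk 0 (x 0) (x 1) 0
      rw [Matrix.mulVec_zero, add_zero, zero_add ((d 0).mulVec (x 0))] at h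
      rw [← h]
      change (k' 0).mulVec ((d 0).mulVec (x 0)) +
        (d 1).mulVec ((d 2).mulVec (x 1) + (k 1).mulVec (x 0)) - x 0 = _
      rw [add_comm ((d 2).mulVec (x 1)), add_comm ((k' 0).mulVec _)]
    have E1 : ∀ (x : ∀ j : ℕ, Fin (r (2 * j + 1)) → L) (j : ℕ),
        (eo (N := fun i => Fin (r i) → L) (fun i => (d i).mulVecLin)
          (fun i => (k' i).mulVecLin) ∘ₗ
          oe (N := fun i => Fin (r i) → L) (fun i => (d i).mulVecLin)
            (fun i => (k i).mulVecLin) - LinearMap.id :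
          Module.End L (∀ j : ℕ, Fin (r (2 * j + 1)) → L)) x (j + 1) =
          (k' (2 * j + 2) - k (2 * j + 2)).mulVec ((d (2 * j + 2)).mulVec (x (j + 1))) +
            (k' (2 * j + 2)).mulVec ((k (2 * j + 1)).mulVec (x j)) := by
      intro x j
      rw [← TNil_A d k k' dd hk (2 * j + 2) (x (j + 1)) (x (j + 2)) ((k (2 * j + 1)).mulVec (x j))]
      change (k' (2 * j + 2)).mulVec ((d (2 * j + 2)).mulVec (x (j + 1)) +
          (k (2 * j + 1)).mulVec (x j)) +
        (d (2 * j + 3)).mulVec ((d (2 * j + 4)).mulVec (x (j + 2)) +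
          (k (2 * j + 3)).mulVec (x (j + 1))) - x (j + 1) = _
      rw [add_comm ((d (2 * j + 4)).mulVec (x (j + 2))),
        add_comm ((d (2 * j + 2)).mulVec (x (j + 1))), add_comm ((k' (2 * j + 2)).mulVec _)]
    refine TNil_gen _ _ (fun x j hx => ?_) (D + 1) fun j hj => hsub _ (by omega)
    · cases j with
      | zero =>
        rw [E0, E0]
        exact TNil_sq d k k' dd hk hk' 0 (x 0)
      | succ j =>
        have hj : (eo (N := fun i => Fin (r i) → L) (fun i => (d i).mulVecLin)
          (fun i => (k' i).mulVecLin) ∘ₗ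
          oe (N := fun i => Fin (r i) → L) (fun i => (d i).mulVecLin)
            (fun i => (k i).mulVecLin) - LinearMap.id :
          Module.End L (∀ j : ℕ, Fin (r (2 * j + 1)) → L)) x j = 0 := by
          cases j with
          | zero => rw [E0, hx 0 (Nat.succ_pos _), Matrix.mulVec_zero, Matrix.mulVec_zero]
          | succ j =>
            rw [E1, hx (j + 1) (Nat.lt_succ_self _), hx j (by omega), Matrix.mulVec_zero,
              Matrix.mulVec_zero, Matrix.mulVec_zero, Matrix.mulVec_zero, add_zero]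
        rw [E1, hj, E1, hx j (Nat.lt_succ_self _), Matrix.mulVec_zero, Matrix.mulVec_zero,
          add_zero]
        rw [add_zero]
        exact TNil_sq d k k' dd hk hk' (2 * j + 2) (x (j + 1))

end HSp
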