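import Pool.Agent.Lib.MP_181146_gt.HS.Spec

set_option autoImplicit false

namespace HSp

namespace TOneAux

variable {Γ : Type} [Group Γ]

/-- the augmentation -/
noncomputable def aug (Γ : Type) [Group Γ] : MonoidAlgebra ℤ Γ →+* ℤ :=
  (MonoidAlgebra.lift ℤ ℤ Γ (1 : Γ →* ℤ)).toRingHom

theorem aug_of (g : Γ) : aug Γ (MonoidAlgebra.of ℤ Γ g) = 1 := by
  change MonoidAlgebra.lift ℤ ℤ Γ (1 : Γ →* ℤ) _ = _
  rw [MonoidAlgebra.lift_of]
  rfl

theorem eq_aug [Subsingleton Γ] (a : MonoidAlgebra ℤ Γ) : a = aug Γ a • (1 : MonoidAlgebra ℤ Γ) := by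
  induction a using MonoidAlgebra.induction_on with
  | of g =>
    rw [aug_of, one_smul, Subsingleton.elim g 1, map_one]
  | add a b ha hb =>
    rw [map_add, add_smul, ← ha, ← hb]
  | smul r a ha =>
    rw [map_zsmul, smul_assoc, ← ha]

/-- additive maps are linear -/
def lin [Subsingleton Γ] {M M' : Type} [AddCommGroup M] [AddCommGroup M']
    [Module (MonoidAlgebra ℤ Γ) M] [Module (MonoidAlgebra ℤ Γ) M'] (f : M ≃+ M') :
    M ≃ₗ[MonoidAlgebra ℤ Γ] M' where
  __ := f
  map_smul' a x := by
    change f (a • x) = a • f x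
    rw [eq_aug a, smul_assoc, smul_assoc, one_smul, one_smul, map_zsmul]

end TOneAux

open TOneAux

theorem sTOne : S_TOne := by
  intro Γ _ _ M _ _ _ _
  obtain ⟨k, f, hf⟩ := Module.Finite.exists_fin' (MonoidAlgebra ℤ Γ) M
  obtain ⟨s, hs⟩ := Module.projective_lifting_property f LinearMap.id hf
  have hs' : ∀ x, f (s x) = x := fun x => LinearMap.congr_fun hs x
  have hfin : Module.Finite ℤ M := by
    have hA : Module.Finite ℤ (MonoidAlgebra ℤ Γ) :=
      ⟨⟨{1}, by
        rw [eq_top_iff]
        intro a _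
        rw [eq_aug a]
        exact Submodule.smul_mem _ _ (Submodule.subset_span (by simp))⟩⟩
    exact Module.Finite.trans (MonoidAlgebra ℤ Γ) M
  have htf : Module.IsTorsionFree ℤ M := by
    refine Module.IsTorsionFree.of_smul_eq_zero fun n x hx => ?_
    rcases eq_or_ne n 0 with h0 | h0
    · exact Or.inl h0
    · right
      have h1 : n • s x = 0 := by rw [← map_zsmul, hx, map_zero]
      have h2 : s x = 0 := by
        funext i
        have h3 : n • s x i = 0 := congrFun h1 i
        have h4 : n * aug Γ (s x i) = 0 := by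
          rw [← smul_eq_mul, ← map_zsmul, h3, map_zero]
        have h5 := (mul_eq_zero.mp h4).resolve_left h0
        rw [eq_aug (s x i), h5, zero_smul]
        rfl
      rw [← hs' x, h2, map_zero]
  have hfree : Module.Free ℤ M := Module.free_of_finite_type_torsion_free'
  let b := Module.finBasis ℤ M
  have e : MonoidAlgebra ℤ Γ ≃+ ℤ :=
    { toFun := aug Γ
      invFun := fun n => n • 1
      left_inv := fun a => (eq_aug a).symm
      right_inv := fun n => by
        change aug Γ (n • 1) = n
        rw [map_zsmul, map_one, smul_eq_mul, mul_one]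
      map_add' := map_add _ }
  refine ⟨Module.finrank ℤ M, ⟨lin ?_⟩⟩
  exact b.equivFun.toAddEquiv.trans (AddEquiv.piCongrRight fun _ => e.symm)

end HSp
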