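import Pool.Agent.Lib.MP_181146_gt.HS.SpecT

/-!
# Project HS, third part: `J_1` is everything
-/

set_option autoImplicit false

namespace HSp

theorem sTOneJ : S_TOneJ := by
  intro Γ _
  have h : SwJ Γ 1 = ⊤ := by
    refine (Ideal.eq_top_iff_one _).2 ?_
    change aug ℤ Γ 1 ∈ Ideal.span {((1 : ℕ) : ℤ)}
    rw [Nat.cast_one, Ideal.span_singleton_one]
    exact Submodule.mem_top
  rw [h]
  exact ⟨Submodule.topEquiv⟩

end HSp
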