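import Pool.Agent.Lib.MP_181146_gt.HS.SpecT

/-!
# Project HS, third part: the determinant of `d + k` is a unit (module TUn, helper23)
-/

set_option autoImplicit false

namespace HSp

/-- The product of the two matrices is the matrix of the conjugated composite. -/
private theorem TUn_mul {L : Type} [CommRing L] {r : ℕ → ℕ} {ρ : ℕ}
    (sO : (Σ j : ℕ, Fin (r (2 * j + 1))) ≃ Fin ρ) (sE : (Σ j : ℕ, Fin (r (2 * j))) ≃ Fin ρ)
    (d : ∀ i, Matrix (Fin (r i)) (Fin (r (i + 1))) L)
    (k : ∀ i, Matrix (Fin (r (i + 1))) (Fin (r i)) L) :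
    OEm sO sE d k * EOm sO sE d k = LinearMap.toMatrix' (((cP sE).symm.toLinearMap ∘ₗ
      (oe (N := fun i => Fin (r i) → L) (fun i => (d i).mulVecLin) (fun i => (k i).mulVecLin) ∘ₗ
        eo (N := fun i => Fin (r i) → L) (fun i => (d i).mulVecLin)
          (fun i => (k i).mulVecLin))) ∘ₗ (cP sE).toLinearMap) := by
  rw [OEm, EOm, ← LinearMap.toMatrix'_comp]
  refine congrArg _ (LinearMap.ext fun y => ?_)
  simp only [LinearMap.comp_apply, LinearEquiv.coe_coe, LinearEquiv.apply_symm_apply]

theorem sTUn (hTNil : S_TNil) : S_TUn := by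
  intro L _ r D hD d dd k hk ρ sO sE
  have h := (hTNil L r D hD d dd k k hk hk).1
  have hu : IsUnit (oe (N := fun i => Fin (r i) → L) (fun i => (d i).mulVecLin)
        (fun i => (k i).mulVecLin) ∘ₗ
      eo (N := fun i => Fin (r i) → L) (fun i => (d i).mulVecLin) (fun i => (k i).mulVecLin) :
        Module.End L (∀ j : ℕ, Fin (r (2 * j)) → L)) := by
    have h1 := h.isUnit_one_add
    rwa [show (LinearMap.id : Module.End L (∀ j : ℕ, Fin (r (2 * j)) → L)) = 1 from rfl,
      add_sub_cancel] at h1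
  have hb := (Module.End.isUnit_iff _).1 hu
  have hg : IsUnit (((cP sE).symm.toLinearMap ∘ₗ
      (oe (N := fun i => Fin (r i) → L) (fun i => (d i).mulVecLin) (fun i => (k i).mulVecLin) ∘ₗ
        eo (N := fun i => Fin (r i) → L) (fun i => (d i).mulVecLin)
          (fun i => (k i).mulVecLin))) ∘ₗ (cP sE).toLinearMap : Module.End L (Fin ρ → L)) :=
    (Module.End.isUnit_iff _).2
      ((((cP sE).symm.bijective).comp hb).comp (cP sE).bijective)
  have hd := LinearMap.isUnit_det _ hg
  rw [← LinearMap.det_toMatrix', ← TUn_mul sO sE d k, Matrix.det_mul] at hd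
  exact isUnit_of_mul_isUnit_left hd

end HSp
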